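import Mathlib

/-!
Arrays packed into natural numbers (definitions only).
-/

namespace Pool.Agent.Lib.MP_79d702_lc.U2

def b1 (a i : ℕ) : ℕ := (a.shiftRight i).land 1
def bit (a i : ℕ) : Bool := ((a.shiftRight i).land 1).beq 1
def sb (a i v : ℕ) : ℕ := a.xor (((b1 a i).xor v).shiftLeft i)
def g2 (a i : ℕ) : ℕ := (a.shiftRight (i.mul 2)).land 3
def s2 (a i v : ℕ) : ℕ := a.xor (((g2 a i).xor v).shiftLeft (i.mul 2))
def g4 (a i : ℕ) : ℕ := (a.shiftRight (i.mul 4)).land 15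
def s4 (a i v : ℕ) : ℕ := a.xor (((g4 a i).xor v).shiftLeft (i.mul 4))
def g6 (a i : ℕ) : ℕ := (a.shiftRight (i.mul 6)).land 63
def s6 (a i v : ℕ) : ℕ := a.xor (((g6 a i).xor v).shiftLeft (i.mul 6))
def g8 (a i : ℕ) : ℕ := (a.shiftRight (i.mul 8)).land 255
def s8 (a i v : ℕ) : ℕ := a.xor (((g8 a i).xor v).shiftLeft (i.mul 8))
def g13 (a i : ℕ) : ℕ := (a.shiftRight (i.mul 13)).land 8191
def g64 (a i : ℕ) : ℕ := (a.shiftRight (i.mul 64)).land 18446744073709551615
def s64 (a i v : ℕ) : ℕ := a.xor (((g64 a i).xor v).shiftLeft (i.mul 64))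
/-- the low byte of a lane of 64 bits -/
def gc (a i : ℕ) : ℕ := (a.shiftRight (i.mul 64)).land 255
def sc (a i v : ℕ) : ℕ := a.xor (((gc a i).xor v).shiftLeft (i.mul 64))
/-- lanes of 10 bits: a reference (8 bits) and a polarity (1 bit) -/
def gi (a i : ℕ) : ℕ := (a.shiftRight (i.mul 10)).land 255
def gp (a i : ℕ) : ℕ := (a.shiftRight ((i.mul 10).add 8)).land 1
def sl (a i r p : ℕ) : ℕ :=
  a.xor ((((a.shiftRight (i.mul 10)).land 511).xor (r.add (p.mul 256))).shiftLeft (i.mul 10))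

def mx (a b : ℕ) : ℕ := a.add (b.sub a)
def mn (a b : ℕ) : ℕ := a.sub (a.sub b)
def satC (x : ℕ) : ℕ := x.sub (x.sub 60)
def decC (x : ℕ) : ℕ := x.sub (Nat.sub 1 (x.div 60))
def crC (d : ℕ) : ℕ := g8 222308 d
def one (i : ℕ) : ℕ := Nat.shiftLeft 1 i

def allTo (p : ℕ → Bool) (k : ℕ) : Bool := Nat.rec true (fun i r => p i && r) k
def sumTo (f : ℕ → ℕ) (k : ℕ) : ℕ := Nat.rec 0 (fun i r => (f i).add r) k
def orTo (f : ℕ → ℕ) (k : ℕ) : ℕ := Nat.rec 0 (fun i r => (f i).lor r) k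
/-- the array with lanes `f 0, …, f (k - 1)` of `s` bits -/
def tab (s : ℕ) (f : ℕ → ℕ) (k : ℕ) : ℕ :=
  Nat.rec 0 (fun i r => ((f i).shiftLeft (i.mul s)).lor r) k

/-- `∑ j < 128, 2 ^ (10 j)` -/
def ones10 : ℕ := ((one 1280).sub 1).div 1023
def mask10 : ℕ := ones10.mul 255
/-- `∑ 64 ≤ r < 192, 2 ^ (64 r)` -/
def onesA : ℕ := (((one 8192).sub 1).div 18446744073709551615).shiftLeft 4096
def maskA : ℕ := onesA.mul 255
/-- `∑ u < 64, 2 ^ (65 u)` -/
def diag : ℕ := ((one 4160).sub 1).div ((one 65).sub 1)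

/-- replace the reference `g` by the literal `(w, p)` in the first 128 lanes -/
def replL (a g w p : ℕ) : ℕ :=
  a.xor ((((((((a.land mask10).xor (g.mul ones10)).add mask10).shiftRight 8).land ones10).xor
    ones10).mul ((g.xor w).add (p.mul 256))))

/-- add the lane `w` to all lanes `64 ≤ r < 192` that contain `g` -/
def replM (m g w : ℕ) : ℕ := m.lor (((m.shiftRight g).land onesA).mul (g64 m w))

def extC (m c u : ℕ) : ℕ :=
  ((((m.shiftRight u).land onesA).mul 255).land c).mod 18446744073709551615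

def lossC (m c : ℕ) : ℕ :=
  let p := ((((c.land maskA).add maskA).shiftRight 8).land onesA)
  (((((m.shiftRight 62).land p).mul 97).add
    (((((m.shiftRight 62).lor (m.shiftRight 63)).land p).mul 3))).mod 18446744073709551615)

/-- truth tables on eight variables; values `≥ 2 ^ 256` signal failure -/
def tErr : ℕ := one 256
def tFull : ℕ := (one 256).sub 1
def tVar (j : ℕ) : ℕ := (tFull.div ((one (one j)).add 1)).shiftLeft (one j)
def tNeg (t p : ℕ) : ℕ := t.xor (p.mul tFull)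
def tAnd (a b : ℕ) : ℕ := (a.land b).lor ((a.lor b).land tErr)
/-- the table of `r` if it is among the first `k` bytes of `cut` -/
def tCut (cut k r : ℕ) : ℕ := Nat.rec tErr (fun j t => cond ((g8 cut j).beq r) (tVar j) t) k

inductive Tr where
  | leaf (x : ℕ) : Tr
  | node (k : ℕ) (l r : Tr) : Tr

noncomputable def Tr.get (t : Tr) : ℕ → ℕ :=
  Tr.rec (fun x _ => x) (fun k _ _ f g i => cond (k.ble i) (g (i.sub k)) (f i)) t

end Pool.Agent.Lib.MP_79d702_lc.U2
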