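import Pool.Agent.Lib.MP_79d702_lc.U2.Sim
import Pool.Agent.Lib.MP_79d702_lc.U2.Lanes

/-!
The checker: packed patterns and certificates read as streams of bits.  A function that returns the
rest of a stream returns `0` on failure.  The input `i` of the gate `g` is the slot `2 g + i`.
-/

namespace Pool.Agent.Lib.MP_79d702_lc.U2

/-- a stored pattern: the nodes below `G` are the gates -/
structure CP where
  n : ℕ
  G : ℕ
  out : ℕ
  nn : ℕ
  tag : ℕ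
  dex : ℕ
  dlo : ℕ
  dep : ℕ
  sg : ℕ
  inp : ℕ
  pol : ℕ
  lb : ℕ
  nfl : ℕ

def decP (x : ℕ) : CP :=
  let n := x.land 63
  let G := (x.shiftRight 6).land 63
  let x1 := x.shiftRight 26
  let x2 := x1.shiftRight n
  let x3 := x2.shiftRight (n.mul 4)
  let x4 := x3.shiftRight (n.mul 4)
  let x5 := x4.shiftRight (n.mul 2)
  let x6 := x5.shiftRight (G.mul 12)
  let x7 := x6.shiftRight (G.mul 2)
  ⟨n, G, (x.shiftRight 12).land 63, (x.shiftRight 18).land 63, (x.shiftRight 24).land 3,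
    x1, x2, x3, x4, x5, x6, x7, x7.shiftRight (G.mul 8)⟩

def CP.nf (P : CP) : ℕ := orTo (fun k => one (g13 P.nfl k)) P.nn

def CP.abs (P : CP) : AP where
  n := P.n
  gate := fun u => decide (u < P.G)
  dlo := g4 P.dlo
  dex := bit P.dex
  dep := g4 P.dep
  sg := g2 P.sg
  ng := fun _ => false
  inp := fun g i => g6 P.inp (2 * g + i.toNat)
  pol := fun g i => bit P.pol (2 * g + i.toNat)
  lb := fun g i => g4 P.lb (2 * g + i.toNat)
  nf := fun g i v => bit (g64 P.nf (2 * g + i.toNat)) v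
  out := P.out

structure CX where
  n : ℕ
  gm : ℕ
  dex : ℕ
  ng : ℕ
  dlo : ℕ
  dep : ℕ
  sg : ℕ
  inp : ℕ
  pol : ℕ
  lb : ℕ
  nf : ℕ
  out : ℕ
  kd : ℕ
  cn : ℕ
  z1 : ℕ
  z2 : ℕ
  full : Bool

namespace CX

def abs (Q : CX) : AX where
  n := Q.n
  gate := bit Q.gm
  dlo := g4 Q.dlo
  dex := bit Q.dex
  dep := g4 Q.dep
  sg := g2 Q.sg
  ng := bit Q.ng
  inp := fun g i => g6 Q.inp (2 * g + i.toNat)
  pol := fun g i => bit Q.pol (2 * g + i.toNat)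
  lb := fun g i => g4 Q.lb (2 * g + i.toNat)
  nf := fun g i v => bit (g64 Q.nf (2 * g + i.toNat)) v
  out := Q.out
  kd := g8 Q.kd
  cn := fun v h => bit (g64 Q.cn v) h
  z1 := Q.z1
  z2 := Q.z2
  full := Q.full

def closed (Q : CX) (v : ℕ) : Bool := bit Q.dex v && (g4 Q.dlo v).ble (g8 Q.kd v)

def dgn (Q : CX) (v : ℕ) : Bool :=
  v.blt Q.n && (bit Q.dex v && ((g4 Q.dlo v).ble 1 && !bit Q.gm v))

def isG (Q : CX) (g : ℕ) : Bool := g.blt Q.n && bit Q.gm g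

/-- for `v < 64` and `j < 128` -/
def excl (Q : CX) (j v : ℕ) : Bool :=
  let s := g6 Q.inp j
  let o := g6 Q.inp (j.xor 1)
  bit Q.nf ((j.mul 64).add v) || (cond (s.blt Q.n) (!s.beq v) (Q.closed v) ||
    (bit Q.cn ((v.mul 64).add (j.shiftRight 1)) || (o.beq v ||
      ((Q.dgn o && (g4 Q.dep v).ble 9) ||
        (!bit Q.gm v && (Nat.ble 9 (g4 Q.lb j) || (bit Q.dex v && (g4 Q.dlo v).blt (g4 Q.lb j))))))))

/-- `k = 1` for a gate, `k = 0` for a variable -/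
def new (Q : CX) (k : ℕ) : CX :=
  let a := Q.n.mul 2
  let b := a.add 1
  { Q with
    n := Q.n.add 1, gm := sb Q.gm Q.n k, dlo := s4 Q.dlo Q.n 1, dex := sb Q.dex Q.n 0,
    dep := s4 Q.dep Q.n (k.mul 15), sg := s2 Q.sg Q.n 2, ng := sb Q.ng Q.n 0,
    inp := s6 (s6 Q.inp a 63) b 63, pol := sb (sb Q.pol a 0) b 0, lb := s4 (s4 Q.lb a 1) b 1,
    nf := s64 (s64 Q.nf a 0) b 0, kd := s8 Q.kd Q.n 0, cn := s64 Q.cn Q.n (k.shiftLeft Q.n) }

def cdeg (Q : CX) (u j : ℕ) : ℕ :=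
  mx (mx (g4 Q.dlo u) ((g8 Q.kd u).add 1)) (cond (bit Q.gm u) 0 (g4 Q.lb j))

def conn (Q : CX) (u j o p : ℕ) : CX :=
  let h := j.shiftRight 1
  let d := Q.cdeg u j
  { Q with
    inp := s6 Q.inp j u, pol := sb Q.pol j p, ng := sb Q.ng h o,
    kd := s8 Q.kd u ((g8 Q.kd u).add 1), dlo := s4 Q.dlo u d,
    lb := s4 Q.lb j (cond (bit Q.gm u) 9 (mn d 8)),
    cn := s64 Q.cn h ((g64 Q.cn h).lor (g64 Q.cn u)) }

def exact (Q : CX) (u d : ℕ) : CX := { Q with dlo := s4 Q.dlo u d, dex := sb Q.dex u 1 }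
def raise (Q : CX) (u d : ℕ) : CX := { Q with dlo := s4 Q.dlo u d }
def setOut (Q : CX) (u : ℕ) : CX :=
  { Q with out := u, kd := s8 Q.kd u ((g8 Q.kd u).add 1),
           dlo := s4 Q.dlo u (mx (g4 Q.dlo u) ((g8 Q.kd u).add 1)) }
def setLb (Q : CX) (j l : ℕ) : CX := { Q with lb := s4 Q.lb j l }
def setNf (Q : CX) (j v : ℕ) : CX := { Q with nf := Q.nf.lor (one ((j.mul 64).add v)) }
def setSg (Q : CX) (u b : ℕ) : CX := { Q with sg := s2 Q.sg u b }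
def setDep (Q : CX) (u d : ℕ) : CX := { Q with dep := s4 Q.dep u d }
def joinCn (Q : CX) (h u : ℕ) : CX := { Q with cn := s64 Q.cn h ((g64 Q.cn h).lor (g64 Q.cn u)) }
def setFull (Q : CX) (a b : ℕ) : CX := { Q with z1 := a, z2 := b, full := true }

/-- one deduction; `r` continues -/
def step (tag : ℕ) (r : CX → ℕ → ℕ) (Q : CX) (x : ℕ) : ℕ :=
  let c := x.land 7
  let a := (x.shiftRight 3).land 127
  let y := x.shiftRight 10
  let g := a.shiftRight 1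
  let s := g6 Q.inp a
  cond (c.ble 3)
    (cond (c.ble 1)
      (cond (c.beq 0)
        (cond (Q.full && (Q.isG g && ((Q.n.ble Q.z1 || Q.excl a Q.z1) &&
            (Q.n.ble Q.z2 || Q.excl a Q.z2)) && Q.n.ble 63))
          (r (Q.setLb a (mx (g4 Q.lb a) 2)) y) 0)
        (cond (Q.full && (a.blt Q.n && (!bit Q.gm a && (!a.beq Q.z1 && !a.beq Q.z2))))
          (r (Q.raise a (mx (g4 Q.dlo a) 2)) y) 0))
      (cond (c.beq 2)
        (cond (Q.isG g && ((g4 Q.dep g).ble 9 && s.blt Q.n))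
          (r (Q.setDep s (mn (g4 Q.dep s) ((g4 Q.dep g).sub 1))) y) 0)
        (cond (Q.isG g && (s.blt Q.n && (g6 Q.inp (a.xor 1)).blt Q.n))
          (r (Q.setDep g (mn (g4 Q.dep g)
            ((mx (g4 Q.dep s) (g4 Q.dep (g6 Q.inp (a.xor 1)))).add 1))) y) 0)))
    (cond (c.ble 5)
      (cond (c.beq 4)
        (cond (Q.isG g && Q.dgn (g6 Q.inp (a.xor 1))) (r (Q.setLb a 9) y) 0)
        (cond (Q.isG g && s.blt Q.n)
          (r (Q.setLb a (cond (bit Q.gm s) 9 (mn (g4 Q.dlo s) 8))) y) 0))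
      (cond (c.beq 6)
        (cond (Q.isG g && s.blt Q.n) (r (Q.joinCn g s) y) 0)
        (cond (tag.beq 0 || (Q.dgn a && (tag.beq 1 ||
            (tag.beq 2 && (Q.dgn (y.land 63) && !a.beq (y.land 63))))))
          (r (Q.setFull a (y.land 63)) (y.shiftRight 6)) 0)))

def steps (tag : ℕ) (k : CX → ℕ → ℕ) (m : ℕ) : CX → ℕ → ℕ :=
  Nat.rec k (fun _ r => step tag r) m

def bad (Q : CX) (c a : ℕ) : Bool :=
  let g := a.shiftRight 1
  cond (c.ble 2)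
    (cond (c.beq 1) (Q.isG a && (g4 Q.dep a).beq 0) (Q.out.blt Q.n && (g4 Q.dep Q.out).ble 9))
    (cond (c.beq 3)
      (Q.isG Q.out && ((g6 Q.inp ((Q.out.mul 2).add (a.land 1))).blt Q.n &&
        (g4 Q.dep (g6 Q.inp ((Q.out.mul 2).add (a.land 1)))).ble 9))
      (cond (c.beq 4)
        (Q.isG g && (Q.dgn (g6 Q.inp a) && ((g4 Q.dep g).ble 9 ||
          ((g6 Q.inp (a.xor 1)).blt Q.n && (g4 Q.dep (g6 Q.inp (a.xor 1))).ble 9))))
        (Q.full && (Q.dgn a && (!a.beq Q.z1 && !a.beq Q.z2)))))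

end CX

/-- byte `u` of `z` is `4 m u + 2 w u + f u` -/
def embSlot (L : CP) (Q : CX) (z j jq f q : ℕ) : Bool :=
  let s := g6 L.inp j
  (g4 L.lb j).ble (g4 Q.lb jq) &&
    cond (s.blt L.n)
      ((g6 Q.inp jq).beq ((g8 z s).shiftRight 2) &&
        ((b1 Q.pol jq).beq ((b1 L.pol j).xor ((g8 z s).land 1)) && f.beq (b1 Q.ng q)))
      true

def embNode (L : CP) (Q : CX) (z e u : ℕ) : Bool :=
  let b := g8 z u
  let q := b.shiftRight 2
  let f := b.land 1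
  let jq := b.shiftRight 1
  q.blt Q.n && ((g4 L.dlo u).ble (g4 Q.dlo q) && ((g4 Q.dep q).ble (g4 L.dep u) &&
    (cond (bit L.dex u) (bit Q.dex q && (g4 Q.dlo q).ble (g4 L.dlo u)) true &&
      cond (u.blt L.G)
        (bit Q.gm q && (embSlot L Q z (u.mul 2) jq f q &&
          embSlot L Q z ((u.mul 2).add 1) (jq.xor 1) f q))
        (!bit Q.gm q && cond ((g2 L.sg u).ble 1)
          ((g2 Q.sg q).beq (((g2 L.sg u).xor f).xor e)) true))))

def embNf (L : CP) (Q : CX) (z k : ℕ) : Bool :=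
  let t := g13 L.nfl k
  let j := t.shiftRight 6
  Q.excl (((g8 z (j.shiftRight 1)).shiftRight 1).xor (j.land 1)) ((g8 z (t.land 63)).shiftRight 2)

/-- the set of images of the first `k` nodes; all ones on failure -/
def embUsed (L : CP) (Q : CX) (z e k : ℕ) : ℕ :=
  Nat.rec 0 (fun u r => cond (!bit r ((g8 z u).shiftRight 2) && embNode L Q z e u)
    (r.lor (one ((g8 z u).shiftRight 2))) 18446744073709551615) k

def emb (L : CP) (Q : CX) (z e : ℕ) : Bool :=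
  (embUsed L Q z e L.n).blt 18446744073709551615 && (allTo (embNf L Q z) L.nn &&
    cond (L.out.blt L.n) (Q.out.beq ((g8 z L.out).shiftRight 2)) true)

def term (db : ℕ → ℕ) (lim tag : ℕ) (Q : CX) (x : ℕ) : ℕ :=
  let c := x.land 7
  let y := x.shiftRight 3
  cond (c.beq 0)
    (let id := y.land 262143
     let L := decP (db id)
     let z := y.shiftRight 19
     cond (id.blt lim && (tag.ble L.tag && emb L Q z ((y.shiftRight 18).land 1)))
       (z.shiftRight (L.n.mul 8)) 0)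
    (cond (Q.bad c (y.land 127)) (y.shiftRight 7) 0)

/-- the check of one case -/
def chk (db : ℕ → ℕ) (lim tag : ℕ) (Q : CX) (x : ℕ) : ℕ :=
  CX.steps tag (term db lim tag) (x.land 15) Q (x.shiftRight 4)

namespace CX

def opq (Q : CX) (j : ℕ) : Bool := Q.n.ble (g6 Q.inp j) && Q.n.ble (g6 Q.inp (j.xor 1))

/-- the cases in which the slot `j` is fed by `u` -/
def kids (k : CX → ℕ → ℕ) (Q : CX) (u j y : ℕ) : ℕ :=
  cond (Q.excl j u) y (cond ((g8 Q.kd u).blt 15)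
    (cond (Q.opq j)
      (k (Q.conn u j 1 1) (k (Q.conn u j 1 0) (k (Q.conn u j 0 1) (k (Q.conn u j 0 0) y))))
      (k (Q.conn u j (b1 Q.ng (j.shiftRight 1)) 1) (k (Q.conn u j (b1 Q.ng (j.shiftRight 1)) 0) y)))
    0)

/-- the cases in which the slot `j` is fed by a new node -/
def fresh (k : CX → ℕ → ℕ) (Q : CX) (t j y : ℕ) : ℕ :=
  cond (Q.opq j) (k ((Q.new t).conn Q.n j 1 0) (k ((Q.new t).conn Q.n j 0 0) y))
    (k ((Q.new t).conn Q.n j (b1 Q.ng (j.shiftRight 1)) 0) y)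

def e0 (k : CX → ℕ → ℕ) (G : ℕ) (Q : CX) (u x : ℕ) : ℕ :=
  let x1 := cond ((g4 Q.dlo u).ble (g8 Q.kd u)) (k (Q.exact u (g8 Q.kd u)) x) x
  let x2 := cond (bit Q.gm u && Q.n.ble Q.out) (k (Q.setOut u) x1) x1
  let x3 := k ((Q.new 1).conn u (Q.n.mul 2) 0 1) (k ((Q.new 1).conn u (Q.n.mul 2) 0 0) x2)
  cond (u.blt Q.n && ((g8 Q.kd u).blt 15 && Q.gm.blt (one G)))
    (Nat.rec x3 (fun j y => cond (Q.n.ble (g6 Q.inp j)) (kids k Q u j y) y) (G.mul 2)) 0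

def slotOk (Q : CX) (j : ℕ) : Bool := Q.isG (j.shiftRight 1) && Q.n.ble (g6 Q.inp j)

def e2 (k : CX → ℕ → ℕ) (Q : CX) (j x : ℕ) : ℕ :=
  let x1 := cond ((g4 Q.lb j).blt 9) (fresh k Q 0 j x) x
  cond (Q.slotOk j) (Nat.rec (fresh k Q 1 j x1) (fun v y => kids k Q v j y) Q.n) 0

def e3 (k : CX → ℕ → ℕ) (Q : CX) (j x : ℕ) : ℕ :=
  let l := g4 Q.lb j
  let x1 := fresh (fun R => k (R.exact Q.n l)) Q 0 j (k (Q.setLb j (l.add 1)) x)
  cond (Q.slotOk j && l.blt 8)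
    (Nat.rec x1 (fun v y => cond (bit Q.gm v || l.blt (Q.cdeg v j)) y
      (kids (fun R => k (R.exact v l)) Q v j y)) Q.n) 0

def e4 (k : CX → ℕ → ℕ) (Q : CX) (u x : ℕ) : ℕ :=
  cond (u.blt Q.n && (g4 Q.dlo u).blt 15)
    (k (Q.raise u ((g4 Q.dlo u).add 1)) (k (Q.exact u (g4 Q.dlo u)) x)) 0

def e5 (k : CX → ℕ → ℕ) (Q : CX) (u x : ℕ) : ℕ := k (Q.setSg u 1) (k (Q.setSg u 0) x)

def e6 (k : ℕ → CX → ℕ → ℕ) (tag : ℕ) (Q : CX) (z x : ℕ) : ℕ :=
  cond (allTo (fun v => bit Q.gm v || (v.beq z || Nat.ble 2 (g4 Q.dlo v))) Q.n)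
    (k tag ((Q.new 0).exact Q.n 1) (k (cond (z.blt Q.n) 1 0) Q x)) 0

def e8 (k : CX → ℕ → ℕ) (Q : CX) (j v x : ℕ) : ℕ :=
  cond (Q.slotOk j && v.blt Q.n) (kids k Q v j (k (Q.setNf j v) x)) 0

end CX

def CP.wf (P : CP) : Bool :=
  P.G.ble P.n && ((P.out.blt P.n || P.out.beq 63) &&
    (allTo (fun j => (g6 P.inp j).blt P.n || (g6 P.inp j).beq 63) (P.G.mul 2) &&
      allTo (fun k => ((g13 P.nfl k).land 63).blt P.n) P.nn))

def CP.kd (P : CP) : ℕ :=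
  Nat.rec (one (P.out.mul 8)) (fun j a => a.add (one ((g6 P.inp j).mul 8))) (P.G.mul 2)

def CP.gm (P : CP) : ℕ := (one P.G).sub 1

def CP.lbF (P : CP) (k : ℕ) : ℕ :=
  Nat.rec P.lb (fun j a => cond ((g6 P.inp j).blt P.n)
    (s4 a j (cond (bit P.gm (g6 P.inp j)) 9 (mn (g4 P.dlo (g6 P.inp j)) 8))) a) k

def CP.cnF (P : CP) (k : ℕ) : ℕ :=
  Nat.rec (diag.land ((one (P.G.mul 64)).sub 1)) (fun j a => cond ((g6 P.inp j).blt P.n)
    (s64 a (j.shiftRight 1) ((g64 a (j.shiftRight 1)).lor (g64 a (g6 P.inp j)))) a) k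

/-- the pattern after the deductions on the first `k` slots -/
def CP.load (P : CP) (k : ℕ) : CX :=
  ⟨P.n, P.gm, P.dex, 0, P.dlo, P.dep, P.sg, P.inp, P.pol, P.lbF k, P.nf, P.out, P.kd, P.cnF k,
    63, 63, false⟩

end Pool.Agent.Lib.MP_79d702_lc.U2
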