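import Pool.Agent.Lib.MP_79d702_lc.U2.Pat

/-!
Symbolic simulation of substitutions and simplifications on a matched pattern.
References: `0, …, 60` visible nodes, `64 + 2 g + i` the unknown input `i` of the gate `g`,
`192` the constant `false`; `255` as output means unknown.
-/

namespace Pool.Agent.Lib.MP_79d702_lc.U2

structure Sim where
  n : ℕ
  al : ℕ → Bool
  gate : ℕ → Bool
  uf : ℕ → Bool
  dex : ℕ → Bool
  pend : ℕ → Bool
  dlo : ℕ → ℕ
  c : ℕ → ℕ
  sg : ℕ → ℕ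
  sd : ℕ → ℕ
  inp : ℕ → Bool → ℕ
  pol : ℕ → Bool → Bool
  may : ℕ → ℕ → Bool
  out : ℕ
  hst : ℕ
  rem : ℕ
  add : ℕ
  t : ℕ
  elim : ℕ
  rew : ℕ

def sat (x : ℕ) : ℕ := min x 60

def dec (x : ℕ) : ℕ := if x < 60 then x - 1 else x

namespace Sim

def Alive (S : Sim) (u : ℕ) : Prop := u < S.n ∧ S.al u = true

def AG (S : Sim) (g : ℕ) : Prop := g < S.n ∧ S.al g = true ∧ S.gate g = true

def AV (S : Sim) (u : ℕ) : Prop := u < S.n ∧ S.al u = true ∧ S.gate u = false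

/-- wires that may have been moved to `u` through unknown inputs -/
def ext (S : Sim) (u : ℕ) : ℕ := ∑ r ∈ Finset.Ico 64 192, if S.may r u then S.c r else 0

/-- upper bound of the degree of `u`; a value `≥ 60` means unknown -/
def ub (S : Sim) (u : ℕ) : ℕ := if S.dex u then S.c u + S.ext u else 60

/-- replace the visible node `g` by the literal `(w, p)` -/
def repl (S : Sim) (g w : ℕ) (p : Bool) : Sim :=
  let c1 := upd S.c w (sat (S.c w + S.ub g))
  let c2 := upd c1 (S.inp g false) (dec (c1 (S.inp g false)))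
  let c3 := upd c2 (S.inp g true) (dec (c2 (S.inp g true)))
  { S with
    al := upd S.al g false,
    c := if S.gate g then c3 else c1,
    may := fun r v => S.may r v || (decide (64 ≤ r ∧ r < 192) && S.may r g && S.may w v),
    sd := upd S.sd w (min (S.sd w) (S.sd g)),
    inp := fun h j => if h < 64 ∧ S.inp h j = g then w else S.inp h j,
    pol := fun h j => S.pol h j ^^ (decide (h < 64 ∧ S.inp h j = g) && p),
    out := if S.out = g then w else S.out,
    rem := if S.gate g then S.rem + 1 else S.rem,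
    t := if S.gate g then S.t else S.t + 1,
    elim := if S.gate g then S.elim else S.elim + cr (S.dlo g) }

def sub (S : Sim) (x y : ℕ) (p : Bool) : Sim :=
  { S.repl x y p with sg := upd S.sg y (1 - S.sg y) }

def merge (S : Sim) (h g : ℕ) : Sim := repl { S with pend := fun _ => false } h g false

def rewire (S : Sim) (g : ℕ) (i j p : Bool) : Sim :=
  let h := S.inp g i
  let m := S.inp h j
  let c1 := upd S.c m (sat (S.c m + 1))
  { S with c := upd c1 h (dec (c1 h)), inp := upd2 S.inp g i m, pol := upd2 S.pol g i p,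
           rew := S.rew + 1 }

/-- a new gate, number `S.n`, just below `h` -/
def addG (S : Sim) (h a : ℕ) (pa : Bool) (b : ℕ) (pb : Bool) : Sim :=
  let c0 := upd S.c S.n 0
  let c1 := upd c0 a (sat (c0 a + 1))
  { S with
    n := S.n + 1, al := upd S.al S.n true, gate := upd S.gate S.n true, uf := upd S.uf S.n true,
    dex := upd S.dex S.n true, dlo := upd S.dlo S.n 0, c := upd c1 b (sat (c1 b + 1)),
    sd := upd S.sd S.n 15, inp := upd S.inp S.n fun i => if i then b else a,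
    pol := upd S.pol S.n fun i => if i then pb else pa,
    may := upd S.may S.n fun v => decide (v = S.n),
    pend := fun v => decide (v = S.n) || (decide (S.hst = h) && S.pend v), hst := h,
    add := S.add + 1 }

def depG (S : Sim) (g : ℕ) : Sim :=
  { S with sd := upd S.sd g (min (S.sd g) (max (S.sd (S.inp g false)) (S.sd (S.inp g true)) + 1)) }

/-- `val` respects the constant and the gates that may be unfolded -/
def Cons (S : Sim) (val : ℕ → Bool) : Prop :=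
  val 192 = false ∧ ∀ g, S.AG g → S.uf g = true →
    val g = ((val (S.inp g false) ^^ S.pol g false) && (val (S.inp g true) ^^ S.pol g true))

/-- references that lie strictly below the gate `h` -/
inductive Below (S : Sim) (h : ℕ) : ℕ → Prop
  | inp (i : Bool) : Below S h (S.inp h i)
  | step {r : ℕ} (i : Bool) : Below S h r → S.AG r → Below S h (S.inp r i)
  | cf : Below S h 192
  | pend {r : ℕ} : S.hst = h → S.pend r = true → S.Alive r → Below S h r

inductive Op (S : Sim) : Sim → Prop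
  | fix (x : ℕ) (p : Bool) : S.AV x → S.t < 80 → Op S (S.sub x 192 p)
  | proj (x y : ℕ) (p : Bool) : S.AV x → S.AV y → x ≠ y → S.t < 80 → S.sg x ≤ 1 → S.sg y ≤ 1 →
      p = (decide (S.sg x = 1) ^^ decide (S.sg y = 1)) → Op S (S.sub x y p)
  | ali (g w : ℕ) (p : Bool) : S.AG g → S.Below g w →
      (∀ val, S.Cons val → val g = (val w ^^ p)) → Op S (S.repl g w p)
  | dead (g : ℕ) : S.AG g → S.ub g = 0 → Op S (S.repl g 192 false)
  | mrg (h g : ℕ) (x : Bool) : S.AG h → S.AG g → h ≠ g → S.uf h = true → S.uf g = true →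
      (∀ i, S.inp h i = S.inp g (i ^^ x) ∧ S.pol h i = S.pol g (i ^^ x)) → Op S (S.merge h g)
  | sel (g : ℕ) (i : Bool) : S.AG g → S.AV (S.inp g i) → S.ub (S.inp g i) ≤ 1 →
      S.AG (S.inp g (!i)) → S.sd (S.inp g (!i)) ≤ 9 →
      Op S (S.repl (S.inp g (!i)) 192 (!S.pol g (!i)))
  | outi (i : Bool) : S.AG S.out → S.AG (S.inp S.out i) → S.sd (S.inp S.out i) ≤ 9 →
      Op S (S.repl (S.inp S.out i) 192 (!S.pol S.out i))
  | rew (g : ℕ) (i j p : Bool) : S.AG g → S.uf g = true → S.AG (S.inp g i) →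
      (∀ val, S.Cons val → val g =
        ((val (S.inp (S.inp g i) j) ^^ p) && (val (S.inp g (!i)) ^^ S.pol g (!i)))) →
      Op S (S.rewire g i j p)
  | add (h a : ℕ) (pa : Bool) (b : ℕ) (pb : Bool) : S.AG h → S.n < 61 → S.Below h a →
      S.Below h b → Op S (S.addG h a pa b pb)
  | dep (g : ℕ) : S.AG g → Op S (S.depG g)

/-- input `i` of `g` is a variable of degree one and the other input is not the constant -/
def Trip (S : Sim) (g : ℕ) (i : Bool) : Prop :=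
  S.AG g ∧ S.AV (S.inp g i) ∧ S.ub (S.inp g i) ≤ 1 ∧ S.may (S.inp g (!i)) 61 = false

/-- lower bounds of the bonus of the final circuit -/
inductive Beta (S : Sim) : ℕ → Prop
  | zero : Beta S 0
  | one (g : ℕ) (i : Bool) : S.Trip g i → Beta S 33
  | two (g : ℕ) (i : Bool) (g' : ℕ) (i' : Bool) : S.Trip g i → S.Trip g' i' →
      S.inp g i ≠ S.inp g' i' → Beta S 66
  | three (g : ℕ) (i : Bool) (g' : ℕ) (i' : Bool) (g'' : ℕ) (i'' : Bool) : S.Trip g i →
      S.Trip g' i' → S.Trip g'' i'' → S.inp g i ≠ S.inp g' i' → S.inp g i ≠ S.inp g'' i'' →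
      S.inp g' i' ≠ S.inp g'' i'' → Beta S 100
  | early (g : ℕ) (i : Bool) : S.Trip g i → S.sd (S.inp g (!i)) ≤ 9 → Beta S 100

def lossV (S : Sim) : ℕ :=
  ∑ u ∈ Finset.range S.n, if S.al u && !S.gate u then cr (S.dlo u) else 0

def hi (S : Sim) (u : ℕ) : ℕ :=
  if S.dex u then cr (S.c u + S.ext u) else if S.c u + S.ext u ≤ S.dlo u then cr (S.dlo u) else 0

def gainV (S : Sim) : ℕ := ∑ u ∈ Finset.range S.n, if S.al u && !S.gate u then S.hi u else 0

def lossA (S : Sim) : ℕ :=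
  ∑ r ∈ Finset.Ico 64 192,
    if 0 < S.c r then (if S.may r 62 then 100 else if S.may r 63 then 3 else 0) else 0

inductive Done (tag : ℕ) (S : Sim) : Prop
  | out : S.out ≠ 255 → S.sd S.out ≤ 9 → Done tag S
  | selv (g : ℕ) (i : Bool) : S.AG g → S.AV (S.inp g i) → S.ub (S.inp g i) ≤ 1 →
      S.AV (S.inp g (!i)) → Done tag S
  | outv (i : Bool) : S.AG S.out → S.AV (S.inp S.out i) → Done tag S
  | zero (u : ℕ) : S.AV u → S.ub u = 0 → Done tag S
  | gain (b : ℕ) : S.Beta b →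
      100 * S.add + S.elim + S.lossV + S.lossA + 33 * tag + 501 * S.t ≤
        100 * S.rem + S.gainV + b →
      (1 ≤ S.t ∨ S.add < S.rem ∨ (S.rem = 0 ∧ S.add = 0 ∧ 1 ≤ S.rew)) → Done tag S

end Sim

/-- ghost data of a simulation -/
structure Gh where
  ψ : ℕ → ℕ × Bool
  sw : ℕ → Bool
  γ : ℕ → ℕ
  d0 : ℕ → ℕ
  U : Finset ℕ
  ε : Bool

def Sim.Valid (S : Sim) (H : Gh) (r : ℕ) : Prop := S.Alive r ∨ r ∈ H.U ∨ r = 192

/-- wires moved to the node `v` through unknown inputs -/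
def Gh.A (H : Gh) (v : ℕ) : ℕ := ∑ r ∈ H.U, if (H.ψ r).1 = v then H.γ r else 0

/-- the set `m` covers the node `v`; `C` is the circuit at the start -/
def Sim.Cov (S : Sim) (C : Ckt) (s' : FS) (H : Gh) (m : ℕ → Bool) (v : ℕ) : Prop :=
  (∀ u, S.Alive u → (H.ψ u).1 = v → m u = true) ∧ (v = 0 → m 61 = true) ∧
    (v ∈ s'.X → (∀ u, S.Alive u → (H.ψ u).1 ≠ v) →
      (C.deg v ≤ 1 → m 62 = true) ∧ (C.deg v ≤ 2 → m 63 = true))

structure Inv (S : Sim) (s : FS) (C : Ckt) (s' : FS) (C' : Ckt) (V' : (ℕ → Bool) → ℕ → Bool)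
    (H : Gh) : Prop where
  n61 : S.n ≤ 61
  t80 : S.t ≤ 80
  usub : ∀ r ∈ H.U, 64 ≤ r ∧ r < 192
  cf : H.ψ 192 = (0, false)
  reach : Reach s s'
  model : Model s' C' V'
  cardX : s'.X.card + S.t = s.X.card
  cardG : C'.G.card + S.rem = C.G.card + S.add
  inj : ∀ u v, S.Alive u → S.Alive v → (H.ψ u).1 = (H.ψ v).1 → u = v
  var : ∀ u, S.AV u → (H.ψ u).1 ∈ s'.X
  gat : ∀ g, S.AG g → (H.ψ g).1 ∈ C'.G
  wire : ∀ g, S.AG g → ∀ i, S.Valid H (S.inp g i) ∧ C'.inp (H.ψ g).1 (i ^^ H.sw g) =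
    ((H.ψ (S.inp g i)).1, (H.ψ (S.inp g i)).2 ^^ S.pol g i)
  uf : ∀ g, S.AG g → S.uf g = true → (H.ψ g).2 = false
  out : S.out ≠ 255 → S.Valid H S.out ∧ C'.out.1 = (H.ψ S.out).1
  sg : ∀ u, S.AV u → S.sg u ≤ 1 →
    s'.sg (H.ψ u).1 = (decide (S.sg u = 1) ^^ (H.ψ u).2 ^^ H.ε)
  sd : ∀ r, S.Valid H r → S.sd r ≤ 9 → Dep V' (S.sd r) (H.ψ r).1
  cov : ∀ r, S.Valid H r → S.Cov C s' H (S.may r) (H.ψ r).1
  degv : ∀ u, S.Alive u → C'.deg (H.ψ u).1 + S.dlo u ≤ H.d0 u + H.γ u + H.A (H.ψ u).1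
  degh : ∀ v ∈ s'.X, (∀ u, S.Alive u → (H.ψ u).1 ≠ v) → C'.deg v ≤ C.deg v + H.A v
  link : ∀ r, S.Valid H r → S.c r < 60 → H.γ r ≤ S.c r
  d0 : ∀ u, S.Alive u → S.dlo u ≤ H.d0 u ∧ (S.dex u = true → H.d0 u ≤ S.dlo u) ∧
    (S.gate u = false → H.d0 u = C.deg (H.ψ u).1 ∧ S.dlo u < 60)
  elim : ∑ x ∈ s.X \ s'.X, cr (C.deg x) ≤ S.elim
  pend : ∀ u, S.Alive u → S.Alive S.hst → S.pend u = true →
    C'.rk (H.ψ u).1 < C'.rk (H.ψ S.hst).1
  rs : S.rem + S.add + S.t = 0 → C'.rsum + S.rew ≤ C.rsum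

def Good (S : Sim) (s : FS) (C : Ckt) : Prop := ∃ s' C' V' H, Inv S s C s' C' V' H

/-- the reference of input `i` of the gate `g` at the start -/
def AX.ref (Q : AX) (g : ℕ) (i : Bool) : ℕ :=
  if Q.inp g i < Q.n then Q.inp g i else 64 + 2 * g + i.toNat

/-- `S` is a start state for the pattern `Q` -/
structure Init (Q : AX) (S : Sim) : Prop where
  n : S.n = Q.n
  n61 : Q.n ≤ 61
  al : ∀ u < Q.n, S.al u = true
  gate : ∀ u < Q.n, S.gate u = Q.gate u
  uf : ∀ g < Q.n, S.uf g = true → Q.ng g = false ∧ (Q.inp g false < Q.n ∨ Q.inp g true < Q.n)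
  dex : ∀ u < Q.n, S.dex u = Q.dex u
  dlo : ∀ u < Q.n, S.dlo u = Q.dlo u ∧ Q.dlo u < 60
  c : ∀ u < Q.n, S.c u = Q.dlo u
  sg : ∀ u < Q.n, S.sg u = Q.sg u
  sd : ∀ u < Q.n, S.sd u = Q.dep u
  sda : ∀ g < Q.n, Q.gate g = true → ∀ i, Q.n ≤ Q.inp g i →
    S.sd (Q.ref g i) ≤ 9 → Q.dep g ≤ 9 ∧ Q.dep g - 1 ≤ S.sd (Q.ref g i)
  inp : ∀ g < Q.n, Q.gate g = true → ∀ i, S.inp g i = Q.ref g i
  pol : ∀ g < Q.n, Q.gate g = true → ∀ i, S.pol g i = (decide (Q.inp g i < Q.n) && Q.pol g i)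
  mayv : ∀ u < Q.n, S.may u u = true
  may0 : S.may 192 61 = true
  maya : ∀ g < Q.n, Q.gate g = true → ∀ i, Q.n ≤ Q.inp g i →
    (∀ v < Q.n, S.may (Q.ref g i) v = true ∨ Q.Excl g i v ∨ v = g) ∧
    (Q.lb g i ≤ 1 → S.may (Q.ref g i) 62 = true) ∧ (Q.lb g i ≤ 2 → S.may (Q.ref g i) 63 = true)
  out : S.out = if Q.out < Q.n then Q.out else 255
  pend : ∀ u, S.pend u = false
  cnt : S.rem = 0 ∧ S.add = 0 ∧ S.t = 0 ∧ S.elim = 0 ∧ S.rew = 0

/-- flipping `x` and `y` (or `x` alone if `x = y`) is invisible outside the set `T` once the variables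
in `A` have the values `a` -/
structure Iso (Q : AX) (S : Sim) (x y : ℕ) (T A a : ℕ → Bool) : Prop where
  hx : x < Q.n ∧ Q.gate x = false ∧ T x = true
  hy : y < Q.n ∧ Q.gate y = false ∧ T y = true
  av : ∀ v < Q.n, A v = true → Q.gate v = false
  tv : ∀ v < Q.n, T v = true → Q.Closed v ∧ Q.out ≠ v ∧ (Q.gate v = false → v = x ∨ v = y)
  ex : ∀ e < Q.n, Q.gate e = true → T e = false →
    (∃ i, Q.inp e i < Q.n ∧ T (Q.inp e i) = true) → ∀ val val', S.Cons val → S.Cons val' →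
      (∀ v < Q.n, A v = true → val v = a v ∧ val' v = (a v ^^ decide (v = x ∨ v = y))) →
      (∀ r, S.Below e r → ¬ (r < Q.n ∧ T r = true) → val r = val' r) → val e = val' e

end Pool.Agent.Lib.MP_79d702_lc.U2
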