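import Pool.Agent.Lib.MP_79d702_lc.U2.Lanes
import Pool.Agent.Lib.MP_79d702_lc.U2.Sim

/-!
Packed arrays: reading and writing lanes.
-/

namespace Pool.Agent.Lib.MP_79d702_lc.U2

theorem one_eq (i : ℕ) : one i = 2 ^ i := Nat.one_shiftLeft i

theorem b1_testBit (a i : ℕ) : b1 a i = (a.testBit i).toNat := by
  change (a >>> i) &&& 1 = _
  rw [Nat.and_one_is_mod, Nat.shiftRight_eq_div_pow, Nat.toNat_testBit]

theorem bit_eq (a i : ℕ) : bit a i = a.testBit i := by
  change (b1 a i).beq 1 = _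
  rw [b1_testBit]
  cases a.testBit i <;> rfl

theorem b1_eq (a i : ℕ) : b1 a i = (bit a i).toNat := by rw [bit_eq, b1_testBit]

theorem b1_le (a i : ℕ) : b1 a i ≤ 1 := by
  rw [b1_eq]
  exact Bool.toNat_le _

namespace LA

/-- the low `w` bits of lane `i` of stride `s` -/
def G (s w a i : ℕ) : ℕ := (a >>> (i * s)) &&& (2 ^ w - 1)

theorem G_lt (s w a i : ℕ) : G s w a i < 2 ^ w :=
  Nat.and_lt_two_pow _ (Nat.sub_lt (Nat.two_pow_pos w) Nat.one_pos)

theorem testBit_G (s w a i v : ℕ) :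
    (G s w a i).testBit v = (decide (v < w) && a.testBit (s * i + v)) := by
  unfold G
  rw [Nat.testBit_and, Nat.testBit_shiftRight, Nat.testBit_two_pow_sub_one, Bool.and_comm,
    mul_comm i s]

theorem testBit_of_lt {x w v : ℕ} (hx : x < 2 ^ w) (hv : w ≤ v) : x.testBit v = false :=
  Nat.testBit_lt_two_pow (hx.trans_le (Nat.pow_le_pow_right (by norm_num) hv))

theorem testBit_shl {s x v : ℕ} (hx : x < 2 ^ s) (hv : v < s) (i j : ℕ) :
    (x <<< (i * s)).testBit (s * j + v) = (decide (j = i) && x.testBit v) := by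
  rw [Nat.testBit_shiftLeft]
  rcases lt_trichotomy j i with h | h | h
  · have h1 : s * (j + 1) ≤ s * i := Nat.mul_le_mul_left s h
    have h2 : ¬ s * j + v ≥ i * s := by
      rw [mul_comm i s]
      rw [mul_add, mul_one] at h1
      omega
    simp [h2, h.ne]
  · subst h
    have h2 : s * j + v ≥ j * s := by
      rw [mul_comm j s]
      omega
    have h3 : s * j + v - j * s = v := by
      rw [mul_comm j s]
      omega
    simp [h2, h3]
  · have h1 : s * (i + 1) ≤ s * j := Nat.mul_le_mul_left s h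
    have h2 : s ≤ s * j + v - i * s := by
      rw [mul_comm i s]
      rw [mul_add, mul_one] at h1
      omega
    rw [testBit_of_lt hx h2]
    simp [h.ne']

theorem G_xor_shl {s w x : ℕ} (hw : w ≤ s) (hx : x < 2 ^ s) (a i j : ℕ) :
    G s w (a ^^^ (x <<< (i * s))) j = if j = i then G s w a i ^^^ (x % 2 ^ w) else G s w a j := by
  refine Nat.eq_of_testBit_eq fun v => ?_
  by_cases hv : v < w
  · rw [testBit_G, Nat.testBit_xor, testBit_shl hx (hv.trans_le hw)]
    split_ifs with h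
    · subst h
      rw [Nat.testBit_xor, testBit_G, Nat.testBit_mod_two_pow]
      simp [hv]
    · rw [testBit_G]
      simp [h]
  · rw [testBit_G]
    split_ifs with h
    · rw [Nat.testBit_xor (G s w a i), testBit_G, Nat.testBit_mod_two_pow]
      simp [hv]
    · rw [testBit_G]
      simp [hv]

theorem G_set {s w v : ℕ} (hw : w ≤ s) (hv : v < 2 ^ w) (a i : ℕ) :
    G s w (a ^^^ ((G s w a i ^^^ v) <<< (i * s))) = upd (G s w a) i v := by
  funext j
  have h1 : G s w a i ^^^ v < 2 ^ w := Nat.xor_lt_two_pow (G_lt _ _ _ _) hv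
  rw [G_xor_shl hw (h1.trans_le (Nat.pow_le_pow_right (by norm_num) hw)), Nat.mod_eq_of_lt h1,
    ← Nat.xor_assoc, Nat.xor_self, Nat.zero_xor]
  rfl

theorem ext_lane {s a b : ℕ} (hs : 0 < s)
    (h : ∀ j v, v < s → a.testBit (s * j + v) = b.testBit (s * j + v)) : a = b := by
  refine Nat.eq_of_testBit_eq fun i => ?_
  have := h (i / s) (i % s) (Nat.mod_lt _ hs)
  rwa [Nat.div_add_mod] at this

theorem g2_G : g2 = G 2 2 := rfl
theorem g4_G : g4 = G 4 4 := rfl
theorem g6_G : g6 = G 6 6 := rfl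
theorem g8_G : g8 = G 8 8 := rfl
theorem g13_G : g13 = G 13 13 := rfl
theorem g64_G : g64 = G 64 64 := rfl
theorem gc_G : gc = G 64 8 := rfl
theorem gi_G : gi = G 10 8 := rfl

theorem gp_eq (a i : ℕ) : gp a i = (a.testBit (10 * i + 8)).toNat := by
  rw [← b1_testBit, mul_comm]
  rfl

theorem gp_beq (a i : ℕ) : (gp a i).beq 1 = a.testBit (10 * i + 8) := by
  rw [gp_eq]
  cases a.testBit (10 * i + 8) <;> rfl

theorem testBit_lit {r p : ℕ} (hr : r < 256) (v : ℕ) :
    (r + p * 256).testBit v = if v < 8 then r.testBit v else p.testBit (v - 8) := by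
  have := Nat.testBit_two_pow_mul_add (i := 8) p (b := r) hr v
  rw [← this]
  congr 1
  omega

theorem testBit_zero_le {p : ℕ} (hp : p ≤ 1) : p.testBit 0 = p.beq 1 := by
  interval_cases p <;> rfl

end LA

open LA

theorem g2_lt (a i : ℕ) : g2 a i < 4 := G_lt 2 2 a i
theorem g4_lt (a i : ℕ) : g4 a i < 16 := G_lt 4 4 a i
theorem g6_lt (a i : ℕ) : g6 a i < 64 := G_lt 6 6 a i
theorem g8_lt (a i : ℕ) : g8 a i < 256 := G_lt 8 8 a i
theorem g13_lt (a i : ℕ) : g13 a i < 8192 := G_lt 13 13 a i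
theorem g64_lt (a i : ℕ) : g64 a i < 2 ^ 64 := G_lt 64 64 a i
theorem gc_lt (a i : ℕ) : gc a i < 256 := G_lt 64 8 a i
theorem gi_lt (a i : ℕ) : gi a i < 256 := G_lt 10 8 a i

theorem gp_le (a i : ℕ) : gp a i ≤ 1 := by
  rw [gp_eq]
  exact Bool.toNat_le _

theorem bit_sb (a i : ℕ) {v : ℕ} (hv : v ≤ 1) : bit (sb a i v) = upd (bit a) i (v.beq 1) := by
  funext j
  have h1 : b1 a i ^^^ v < 2 ^ 1 :=
    Nat.xor_lt_two_pow (Nat.lt_succ_of_le (b1_le a i)) (Nat.lt_succ_of_le hv)
  have h2 := testBit_shl h1 Nat.one_pos i j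
  rw [mul_one, one_mul, add_zero] at h2
  rw [bit_eq]
  change (a ^^^ ((b1 a i ^^^ v) <<< i)).testBit j = if j = i then _ else _
  rw [Nat.testBit_xor, h2, bit_eq]
  split_ifs with h
  · subst h
    rw [Nat.testBit_xor, testBit_zero_le hv, testBit_zero_le (b1_le a j), b1_testBit]
    cases a.testBit j <;> cases v.beq 1 <;> simp <;> rfl
  · simp [h]

theorem g2_s2 (a i : ℕ) {v : ℕ} (hv : v < 4) : g2 (s2 a i v) = upd (g2 a) i v :=
  G_set (s := 2) (w := 2) le_rfl hv a i
theorem g4_s4 (a i : ℕ) {v : ℕ} (hv : v < 16) : g4 (s4 a i v) = upd (g4 a) i v :=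
  G_set (s := 4) (w := 4) le_rfl hv a i
theorem g6_s6 (a i : ℕ) {v : ℕ} (hv : v < 64) : g6 (s6 a i v) = upd (g6 a) i v :=
  G_set (s := 6) (w := 6) le_rfl hv a i
theorem g8_s8 (a i : ℕ) {v : ℕ} (hv : v < 256) : g8 (s8 a i v) = upd (g8 a) i v :=
  G_set (s := 8) (w := 8) le_rfl hv a i
theorem g64_s64 (a i : ℕ) {v : ℕ} (hv : v < 2 ^ 64) : g64 (s64 a i v) = upd (g64 a) i v :=
  G_set (s := 64) (w := 64) le_rfl hv a i
theorem gc_sc (a i : ℕ) {v : ℕ} (hv : v < 256) : gc (sc a i v) = upd (gc a) i v :=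
  G_set (s := 64) (w := 8) (by norm_num) hv a i

theorem LA.testBit_sl (a i : ℕ) {r p : ℕ} (hr : r < 256) (hp : p ≤ 1) (j : ℕ) {v : ℕ}
    (hv : v < 9) : (sl a i r p).testBit (10 * j + v) =
      if j = i then (r + p * 256).testBit v else a.testBit (10 * j + v) := by
  have h0 : r + p * 256 < 2 ^ 9 := by omega
  have h1 := congrArg (fun x => x.testBit v)
    (congrFun (G_set (s := 10) (w := 9) (by norm_num) h0 a i) j)
  simp only [testBit_G, hv, decide_true, Bool.true_and, upd] at h1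
  refine Eq.trans h1 ?_
  split_ifs
  · rfl
  · rw [testBit_G]
    simp [hv]

theorem gi_sl (a i : ℕ) {r p : ℕ} (hr : r < 256) (hp : p ≤ 1) :
    gi (sl a i r p) = upd (gi a) i r := by
  funext j
  refine Nat.eq_of_testBit_eq fun v => ?_
  rw [gi_G, testBit_G]
  unfold upd
  by_cases hv : v < 8
  · rw [testBit_sl a i hr hp j (by omega : v < 9), testBit_lit hr, if_pos hv]
    split_ifs
    · simp [hv]
    · rw [testBit_G]
  · split_ifs
    · rw [testBit_of_lt (w := 8) hr (not_lt.mp hv)]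
      simp [hv]
    · rw [testBit_G]
      simp [hv]

theorem gp_sl (a i : ℕ) {r p : ℕ} (hr : r < 256) (hp : p ≤ 1) :
    gp (sl a i r p) = upd (gp a) i p := by
  funext j
  rw [gp_eq, testBit_sl a i hr hp j (by norm_num), testBit_lit hr]
  unfold upd
  split_ifs with h1 h2
  · omega
  · interval_cases p <;> rfl
  · rw [gp_eq]

theorem bit_g64 (a j v : ℕ) : bit (g64 a j) v = (decide (v < 64) && bit a (64 * j + v)) := by
  rw [bit_eq, bit_eq, g64_G, testBit_G]

theorem bit_lor (a b i : ℕ) : bit (a.lor b) i = (bit a i || bit b i) := by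
  rw [bit_eq, bit_eq, bit_eq]
  exact Nat.testBit_or a b i

theorem bit_land (a b i : ℕ) : bit (a.land b) i = (bit a i && bit b i) := by
  rw [bit_eq, bit_eq, bit_eq]
  exact Nat.testBit_and a b i

theorem bit_xor (a b i : ℕ) : bit (a.xor b) i = (bit a i ^^ bit b i) := by
  rw [bit_eq, bit_eq, bit_eq]
  exact Nat.testBit_xor a b i

theorem bit_one (j i : ℕ) : bit (one j) i = decide (i = j) := by
  rw [bit_eq, one_eq, Nat.testBit_two_pow]
  simp [eq_comm]

theorem bit_mask (k i : ℕ) : bit ((one k).sub 1) i = decide (i < k) := by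
  rw [bit_eq, one_eq]
  exact Nat.testBit_two_pow_sub_one k i

theorem bit_zero (i : ℕ) : bit 0 i = false := by rw [bit_eq, Nat.zero_testBit]

theorem lt_of_bit {a k i : ℕ} (h : a < one k) (hb : bit a i = true) : i < k := by
  by_contra hi
  rw [one_eq] at h
  rw [bit_eq, testBit_of_lt h (not_lt.mp hi)] at hb
  exact Bool.false_ne_true hb

theorem mx_eq (a b : ℕ) : mx a b = max a b := by
  change a + (b - a) = _
  omega

theorem mn_eq (a b : ℕ) : mn a b = min a b := by
  change a - (a - b) = _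
  omega

theorem satC_eq (x : ℕ) : satC x = sat x := by
  change x - (x - 60) = min x 60
  omega

theorem decC_eq (x : ℕ) : decC x = dec x := by
  change x - (1 - x / 60) = if x < 60 then x - 1 else x
  split_ifs <;> omega

theorem crC_eq (d : ℕ) : crC d = cr d := by
  by_cases hd : d < 3
  · interval_cases d <;> rfl
  · have h1 : cr d = 0 := by
      unfold cr
      rw [if_neg (by omega), if_neg (by omega)]
    rw [h1]
    refine Nat.eq_of_testBit_eq fun v => ?_
    unfold crC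
    rw [g8_G, testBit_G, testBit_of_lt (w := 24) (by norm_num) (by omega)]
    simp

theorem allTo_iff (p : ℕ → Bool) (k : ℕ) : allTo p k = true ↔ ∀ i < k, p i = true := by
  induction k with
  | zero => simp [allTo]
  | succ k ih =>
    change (p k && allTo p k) = true ↔ _
    rw [Bool.and_eq_true, ih, Nat.forall_lt_succ_right, and_comm]

theorem sumTo_eq (f : ℕ → ℕ) (k : ℕ) : sumTo f k = ∑ i ∈ Finset.range k, f i := by
  induction k with
  | zero => rfl
  | succ k ih =>
    change f k + sumTo f k = _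
    rw [ih, Finset.sum_range_succ, add_comm]

theorem bit_orTo (f : ℕ → ℕ) (k i : ℕ) :
    bit (orTo f k) i = true ↔ ∃ j < k, bit (f j) i = true := by
  induction k with
  | zero =>
    change bit 0 i = true ↔ _
    simp [bit_zero]
  | succ k ih =>
    change bit ((f k).lor (orTo f k)) i = true ↔ _
    rw [bit_lor, Bool.or_eq_true, ih, Nat.exists_lt_succ_right, or_comm]

theorem LA.testBit_tab {s k : ℕ} {f : ℕ → ℕ} (hf : ∀ j < k, f j < 2 ^ s) (j : ℕ) {v : ℕ}
    (hv : v < s) : (tab s f k).testBit (s * j + v) = (decide (j < k) && (f j).testBit v) := by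
  induction k with
  | zero =>
    change (0 : ℕ).testBit _ = _
    simp
  | succ k ih =>
    change ((f k <<< (k * s)) ||| tab s f k).testBit _ = _
    rw [Nat.testBit_or, testBit_shl (hf k (Nat.lt_succ_self k)) hv,
      ih fun j hj => hf j (Nat.lt_succ_of_lt hj)]
    rcases lt_trichotomy j k with h | h | h
    · simp [h, h.ne, Nat.lt_succ_of_lt h]
    · subst h
      simp
    · have h1 : ¬ j < k + 1 := by omega
      simp [h.ne', h1, not_lt.mpr h.le]

theorem bit_tab {s k : ℕ} {f : ℕ → ℕ} (hf : ∀ j < k, f j < 2 ^ s) (j : ℕ) {v : ℕ} (hv : v < s) :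
    bit (tab s f k) (s * j + v) = (decide (j < k) && bit (f j) v) := by
  rw [bit_eq, bit_eq, testBit_tab hf j hv]

theorem tab_lt {s k : ℕ} {f : ℕ → ℕ} (hf : ∀ j < k, f j < 2 ^ s) : tab s f k < 2 ^ (s * k) := by
  induction k with
  | zero => exact Nat.two_pow_pos _
  | succ k ih =>
    change (f k <<< (k * s)) ||| tab s f k < _
    refine Nat.or_lt_two_pow ?_ ((ih fun j hj => hf j (Nat.lt_succ_of_lt hj)).trans_le
      (Nat.pow_le_pow_right (by norm_num) (Nat.mul_le_mul_left s (Nat.le_succ k))))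
    rw [Nat.shiftLeft_eq, show s * (k + 1) = s + k * s by ring, pow_add]
    exact Nat.mul_lt_mul_of_pos_right (hf k (Nat.lt_succ_self k)) (Nat.two_pow_pos _)

theorem LA.G_tab {s w k : ℕ} {f : ℕ → ℕ} (hw : w ≤ s) (hf : ∀ j < k, f j < 2 ^ s) {j : ℕ}
    (hj : j < k) : G s w (tab s f k) j = f j % 2 ^ w := by
  refine Nat.eq_of_testBit_eq fun v => ?_
  rw [testBit_G, Nat.testBit_mod_two_pow]
  by_cases hv : v < w
  · rw [testBit_tab hf j (hv.trans_le hw)]
    simp [hj]
  · simp [hv]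

theorem g4_tab {k : ℕ} {f : ℕ → ℕ} (hf : ∀ j < k, f j < 16) {j : ℕ} (hj : j < k) :
    g4 (tab 4 f k) j = f j := by
  rw [g4_G, G_tab le_rfl hf hj]
  exact Nat.mod_eq_of_lt (hf j hj)

theorem gc_tab {k : ℕ} {f : ℕ → ℕ} (hf : ∀ j < k, f j < 256) {j : ℕ} (hj : j < k) :
    gc (tab 64 f k) j = f j := by
  rw [gc_G, G_tab (by norm_num) (fun j hj => (hf j hj).trans (by norm_num)) hj]
  exact Nat.mod_eq_of_lt (hf j hj)

theorem gi_tab {k : ℕ} {f : ℕ → ℕ} (hf : ∀ j < k, f j < 512) {j : ℕ} (hj : j < k) :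
    gi (tab 10 f k) j = f j % 256 ∧ gp (tab 10 f k) j = f j / 256 := by
  have hf' : ∀ j < k, f j < 2 ^ 10 := fun j hj => (hf j hj).trans (by norm_num)
  refine ⟨G_tab (s := 10) (w := 8) (by norm_num) hf' hj, ?_⟩
  rw [gp_eq, testBit_tab hf' j (by norm_num)]
  simp only [hj, decide_true, Bool.true_and]
  rw [Nat.toNat_testBit]
  have := hf j hj
  omega

theorem g4_join (a b r : ℕ) : g4 ((a.land tFull).lor (b.shiftLeft 256)) r =
    if r < 64 then g4 a r else g4 b (r - 64) := by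
  refine Nat.eq_of_testBit_eq fun v => ?_
  have e : ((a.land tFull).lor (b.shiftLeft 256)).testBit (4 * r + v)
      = ((a.testBit (4 * r + v) && decide (4 * r + v < 256))
        || (decide (4 * r + v ≥ 256) && b.testBit (4 * r + v - 256))) := by
    rw [← bit_eq, bit_lor, bit_land, tFull, bit_mask, bit_eq, bit_eq]
    congr 1
    exact Nat.testBit_shiftLeft b
  rw [g4_G, testBit_G, e]
  by_cases hv : v < 4
  · split_ifs with h
    · rw [testBit_G]
      have h1 : 4 * r + v < 256 := by omega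
      have h2 : ¬ 4 * r + v ≥ 256 := by omega
      simp [h1, h2]
    · rw [testBit_G]
      have h1 : ¬ 4 * r + v < 256 := by omega
      have h2 : 4 * r + v ≥ 256 := by omega
      have h3 : 4 * r + v - 256 = 4 * (r - 64) + v := by omega
      simp [h1, h2, h3]
  · split_ifs <;> rw [testBit_G] <;> simp [hv]

theorem g8_add_one {a i : ℕ} (h : g8 a i < 255) :
    g8 (a.add (one (i.mul 8))) = upd (g8 a) i (g8 a i + 1) := by
  have hG : ∀ a j, g8 a j = a / 2 ^ (j * 8) % 256 := fun a j => by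
    change (a >>> (j * 8)) &&& (2 ^ 8 - 1) = _
    rw [Nat.and_two_pow_sub_one_eq_mod, Nat.shiftRight_eq_div_pow]
  funext j
  change g8 (a + one (i * 8)) j = if j = i then _ else _
  rw [one_eq, hG]
  rw [hG] at h
  rcases lt_trichotomy j i with hj | hj | hj
  · rw [if_neg hj.ne, hG]
    obtain ⟨d, rfl⟩ := Nat.exists_eq_add_of_lt hj
    rw [show (j + d + 1) * 8 = j * 8 + (8 + d * 8) by ring, pow_add,
      Nat.add_mul_div_left _ _ (Nat.two_pow_pos _), pow_add]
    exact Nat.add_mul_mod_self_left _ 256 _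
  · subst hj
    rw [if_pos rfl, hG, Nat.add_div_right _ (Nat.two_pow_pos _)]
    omega
  · rw [if_neg hj.ne', hG]
    obtain ⟨d, rfl⟩ := Nat.exists_eq_add_of_lt hj
    rw [show (i + d + 1) * 8 = i * 8 + (8 + d * 8) by ring, pow_add, pow_add,
      ← Nat.div_div_eq_div_mul, ← Nat.div_div_eq_div_mul, ← Nat.div_div_eq_div_mul,
      ← Nat.div_div_eq_div_mul, Nat.add_div_right _ (Nat.two_pow_pos _)]
    have : (a / 2 ^ (i * 8) + 1) / 2 ^ 8 = a / 2 ^ (i * 8) / 2 ^ 8 := by omega
    rw [this]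

theorem g8_one (i : ℕ) : g8 (one (i.mul 8)) = upd (fun _ => 0) i 1 := by
  have h0 : g8 0 = fun _ => 0 := by
    funext j
    change (0 >>> (j * 8)) &&& 255 = 0
    simp
  have := g8_add_one (a := 0) (i := i) (by rw [h0]; norm_num)
  rw [h0] at this
  rw [← this]
  congr 1
  exact (Nat.zero_add _).symm

end Pool.Agent.Lib.MP_79d702_lc.U2
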