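import Pool.Agent.Lib.MP_79d702_lc.U2.CircA

/-!
Consequences of the property `P1`, the root of the case analysis, and the induction that turns
the core case analysis into the gate-elimination bound.
-/

namespace Pool.Agent.Lib.MP_79d702_lc.U2

variable {s : FS} {C : Ckt} {V : (ℕ → Bool) → ℕ → Bool}

theorem Model.node_inp (M : Model s C V) {g : ℕ} (hg : g ∈ C.G) (i : Bool) :
    Node s C (C.inp g i).1 := M.src g hg i

theorem Model.node_out (M : Model s C V) : Node s C C.out.1 := M.osrc

theorem Model.vg' (M : Model s C V) (a : ℕ → Bool) {g : ℕ} (hg : g ∈ C.G) (i : Bool) :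
    V a g = (lit (V a) (C.inp g i) && lit (V a) (C.inp g (!i))) := by
  rw [M.vg a g hg]
  cases i
  · rfl
  · simp [Bool.and_comm]

theorem lit_congr {v w : ℕ → Bool} {l : ℕ × Bool} (h : v l.1 = w l.1) : lit v l = lit w l := by
  simp [lit, h]

theorem flip_ne (a : ℕ → Bool) {x i : ℕ} (h : i ≠ x) : flip a x i = a i := by
  simp [flip, Function.update_of_ne h]

/-- values outside a tainted set `T` agree as soon as the gates at the border of `T` do -/
theorem agree (M : Model s C V) (T : Set ℕ) (b b' : ℕ → Bool) (hX : ∀ x ∈ s.X, x ∉ T → b x = b' x)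
    (hG : ∀ g ∈ C.G, g ∉ T → (∃ i, (C.inp g i).1 ∈ T) →
      (∀ v, Node s C v → v ∉ T → (v ∈ C.G → C.rk v < C.rk g) → V b v = V b' v) → V b g = V b' g) :
    ∀ v, Node s C v → v ∉ T → V b v = V b' v := by
  have base : ∀ v, Node s C v → v ∉ T → v ∉ C.G → V b v = V b' v := by
    intro v hv hT hn
    rcases hv with rfl | hv | hv
    · rw [M.v0, M.v0]
    · rw [M.vx _ _ hv, M.vx _ _ hv, hX v hv hT]
    · exact absurd hv hn
  have key : ∀ n : ℕ, ∀ g ∈ C.G, C.rk g = n → g ∉ T → V b g = V b' g := by
    intro n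
    induction n using Nat.strong_induction_on with
    | _ n ih =>
      intro g hg hn hT
      have low : ∀ v, Node s C v → v ∉ T → (v ∈ C.G → C.rk v < C.rk g) → V b v = V b' v := by
        intro v hv hvT hr
        by_cases hvG : v ∈ C.G
        · exact ih _ (hn ▸ hr hvG) v hvG rfl hvT
        · exact base v hv hvT hvG
      by_cases hi : ∃ i, (C.inp g i).1 ∈ T
      · exact hG g hg hT hi low
      · push Not at hi
        rw [M.vg b g hg, M.vg b' g hg,
          lit_congr (low _ (M.node_inp hg false) (hi false) (M.rk g hg false)),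
          lit_congr (low _ (M.node_inp hg true) (hi true) (M.rk g hg true))]
  intro v hv hT
  by_cases hvG : v ∈ C.G
  · exact key _ v hvG rfl hT
  · exact base v hv hT hvG

theorem exists_two {X A : Finset ℕ} (h : A.card + 2 ≤ X.card) :
    ∃ y ∈ X, ∃ z ∈ X, y ∉ A ∧ z ∉ A ∧ y ≠ z := by
  have h1 : 1 < (X \ A).card := by
    have := Finset.le_card_sdiff A X
    omega
  obtain ⟨y, hy, z, hz, hyz⟩ := Finset.one_lt_card.1 h1
  rw [Finset.mem_sdiff] at hy hz
  exact ⟨y, hy.1, z, hz.1, hy.2, hz.2, hyz⟩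

/-- a single flip is visible on every subcube that leaves two further variables free -/
theorem P1.cube (h1 : P1 s) {x : ℕ} (hx : x ∈ s.X) (A : Finset ℕ)
    (hA : A.card + 3 ≤ s.X.card) (a : ℕ → Bool) :
    ∃ b : ℕ → Bool, (∀ i ∈ A, b i = a i) ∧ s.f b ≠ s.f (flip b x) := by
  have hc : (insert x A).card + 2 ≤ s.X.card := by
    have := Finset.card_insert_le x A
    omega
  obtain ⟨y, hy, z, hz, hyA, hzA, hyz⟩ := exists_two hc
  rw [Finset.mem_insert, not_or] at hyA hzA
  obtain ⟨b, hb, hf⟩ := h1 x hx y hy z hz (Ne.symm hyA.1) (Ne.symm hzA.1) hyz a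
  refine ⟨b, fun i hi => hb i ?_ ?_, hf⟩
  · rintro rfl; exact hyA.2 hi
  · rintro rfl; exact hzA.2 hi

theorem Model.f_eq (M : Model s C V) {b b' : ℕ → Bool} (h : V b C.out.1 = V b' C.out.1) :
    s.f b = s.f b' := by
  rw [← M.vout, ← M.vout, lit_congr h]

theorem var_deg_pos (M : Model s C V) (h1 : P1 s) (hX : 3 ≤ s.X.card) {x : ℕ} (hx : x ∈ s.X) :
    1 ≤ C.deg x := by
  by_contra hd
  obtain ⟨b, -, hf⟩ := h1.cube hx ∅ (by simpa using hX) (fun _ => false)
  apply hf
  apply M.f_eq
  refine agree M {x} b (flip b x) ?_ ?_ _ M.node_out ?_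
  · intro y _ hy
    exact (flip_ne b hy).symm
  · rintro g hg - ⟨i, hi⟩ -
    have := deg_pos_of_inp hg i
    rw [Set.mem_singleton_iff.1 hi] at this
    exact absurd this hd
  · intro ho
    have := deg_pos_of_out (C := C)
    rw [Set.mem_singleton_iff.1 ho] at this
    exact absurd this hd

theorem var_not_const (M : Model s C V) {x : ℕ} (hx : x ∈ s.X) (q : Bool) :
    ¬ ∀ a, lit (V a) (x, q) = true := by
  intro h
  have := h fun _ => q
  simp [lit, M.vx _ x hx] at this

theorem exists_off {X S : Finset ℕ} (h : S.card < X.card) : ∃ x ∈ X, x ∉ S := by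
  by_contra hn
  push Not at hn
  exact absurd (Finset.card_le_card hn) (by omega)

theorem out_late (M : Model s C V) (h1 : P1 s) (hX : 515 ≤ s.X.card) : ¬ Dep V 9 C.out.1 := by
  rintro ⟨S, hS, hdep⟩
  obtain ⟨x, hx, hxS⟩ := exists_off (X := s.X) (S := S) (by omega)
  obtain ⟨b, -, hf⟩ := h1.cube hx ∅ (by simp; omega) (fun _ => false)
  apply hf
  apply M.f_eq
  apply hdep
  intro i hi
  exact (flip_ne b (by rintro rfl; exact hxS hi)).symm

/-- an input of the output gate that depends on few variables is constantly true -/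
theorem out_inp (M : Model s C V) (h1 : P1 s) (hX : 515 ≤ s.X.card) (ho : C.out.1 ∈ C.G) (i : Bool)
    (hd : Dep V 9 (C.inp C.out.1 i).1) : ∀ a, lit (V a) (C.inp C.out.1 i) = true := by
  intro a
  by_contra ha
  rw [Bool.not_eq_true] at ha
  obtain ⟨S, hS, hdep⟩ := hd
  obtain ⟨x, hx, hxS⟩ := exists_off (X := s.X) (S := S) (by omega)
  obtain ⟨b, hb, hf⟩ := h1.cube hx S (by omega) a
  apply hf
  apply M.f_eq
  have e1 : lit (V b) (C.inp C.out.1 i) = false := by
    rw [← ha]; exact lit_congr (hdep _ _ hb)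
  have e2 : lit (V (flip b x)) (C.inp C.out.1 i) = false := by
    rw [← e1]
    refine lit_congr (hdep _ _ fun j hj => flip_ne b ?_)
    rintro rfl; exact hxS hj
  rw [M.vg' b ho i, M.vg' (flip b x) ho i, e1, e2]
  simp

/-- a node of degree at most one has a single wire -/
theorem wire_unique {x g : ℕ} {i : Bool} (hd : C.deg x ≤ 1) (hg : g ∈ C.G)
    (hi : (C.inp g i).1 = x) :
    C.out.1 ≠ x ∧ ∀ h ∈ C.G, ∀ j, (C.inp h j).1 = x → h = g ∧ j = i := by
  constructor
  · intro ho
    have := card_le_deg (C := C) (v := x) {(g, i)} (by simp [hg, hi])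
    simp [ho] at this
    omega
  · intro h hh j hj
    by_contra hne
    have hne' : (h, j) ≠ (g, i) := by
      intro e
      exact hne (by simpa using e)
    have := card_le_deg (C := C) (v := x) {(h, j), (g, i)} (by
      intro w hw
      rcases Finset.mem_insert.1 hw with rfl | hw
      · exact ⟨hh, hj⟩
      · rw [Finset.mem_singleton.1 hw]; exact ⟨hg, hi⟩)
    rw [Finset.card_pair hne'] at this
    omega

/-- variables that are read only from rank `r` on do not influence the nodes below rank `r` -/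
theorem below (M : Model s C V) (Y : Set ℕ) (r : ℕ) (b b' : ℕ → Bool)
    (hX : ∀ x ∈ s.X, x ∉ Y → b x = b' x)
    (hY : ∀ h ∈ C.G, ∀ j, (C.inp h j).1 ∈ Y → r ≤ C.rk h) {u : ℕ} (hu : Node s C u) (huY : u ∉ Y)
    (hr : u ∈ C.G → C.rk u < r) : V b u = V b' u := by
  refine agree M (Y ∪ {v | v ∈ C.G ∧ r ≤ C.rk v}) b b' ?_ ?_ u hu ?_
  · intro x hx hT
    exact hX x hx fun h => hT (Or.inl h)
  · rintro g hg hT ⟨i, hi | hi⟩ -
    · exact absurd (Or.inr ⟨hg, hY g hg i hi⟩) hT
    · have := M.rk g hg i hi.1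
      exact absurd (Or.inr ⟨hg, by have := hi.2; omega⟩) hT
  · rintro (h | h)
    · exact huY h
    · have := hr h.1
      have := h.2
      omega

/-- if the selector of a variable of degree one is off, the variable is invisible -/
theorem sel_off (M : Model s C V) {x g : ℕ} {i : Bool} (hd : C.deg x ≤ 1)
    (hg : g ∈ C.G) (hi : (C.inp g i).1 = x) {b : ℕ → Bool}
    (hb : lit (V b) (C.inp g (!i)) = false) : s.f b = s.f (flip b x) := by
  obtain ⟨ho, hu⟩ := wire_unique hd hg hi
  have hne : (C.inp g (!i)).1 ≠ x := by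
    intro e
    have := (hu g hg _ e).2
    simp at this
  have e2 : lit (V (flip b x)) (C.inp g (!i)) = false := by
    rw [← hb]
    refine lit_congr (below M {x} (C.rk g) _ _ ?_ ?_ (M.node_inp hg _) hne (M.rk g hg _))
    · intro y _ hy
      exact flip_ne b hy
    · intro h hh j hj
      rw [(hu h hh j hj).1]
  apply M.f_eq
  refine agree M {x} b (flip b x) ?_ ?_ _ M.node_out ho
  · intro y _ hy
    exact (flip_ne b hy).symm
  · rintro h hh - ⟨j, hj⟩ -
    rw [(hu h hh j hj).1, M.vg' b hg i, M.vg' (flip b x) hg i, hb, e2]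
    simp

/-- the selector of a variable of degree one, if it depends on few variables, is constantly true -/
theorem selector (M : Model s C V) (h1 : P1 s) (hX : 515 ≤ s.X.card) {x g : ℕ} {i : Bool}
    (hx : x ∈ s.X) (hd : C.deg x ≤ 1) (hg : g ∈ C.G) (hi : (C.inp g i).1 = x)
    (hs : Dep V 9 (C.inp g (!i)).1) : ∀ a, lit (V a) (C.inp g (!i)) = true := by
  intro a
  by_contra ha
  rw [Bool.not_eq_true] at ha
  obtain ⟨S, hS, hdep⟩ := hs
  obtain ⟨b, hb, hf⟩ := h1.cube hx S (by omega) a
  apply hf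
  apply sel_off M hd hg hi
  rw [← ha]
  exact lit_congr (hdep _ _ hb)

theorem three_aux (M : Model s C V) (h1 : P1 s) (hX : 515 ≤ s.X.card) {x y z gx gy gz : ℕ}
    {ix iy iz : Bool} (hx : x ∈ s.X) (hy : y ∈ s.X) (hz : z ∈ s.X) (hxy : x ≠ y) (hxz : x ≠ z)
    (hyz : y ≠ z) (dx : C.deg x ≤ 1) (dy : C.deg y ≤ 1) (dz : C.deg z ≤ 1) (Gx : gx ∈ C.G)
    (Gy : gy ∈ C.G) (Gz : gz ∈ C.G) (ex : (C.inp gx ix).1 = x) (ey : (C.inp gy iy).1 = y)
    (ez : (C.inp gz iz).1 = z) (h0 : (C.inp gx (!ix)).1 ≠ 0) (ry : C.rk gx ≤ C.rk gy)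
    (rz : C.rk gx ≤ C.rk gz) : ConstGate C V := by
  rcases M.src gx Gx (!ix) with hu | hu | hu
  · exact absurd hu h0
  · exact absurd (selector M h1 hX hx dx Gx ex ((Dep.var M hu).mono (by omega)))
      (var_not_const M hu (C.inp gx (!ix)).2)
  · refine ⟨_, hu, !(C.inp gx (!ix)).2, fun a => ?_⟩
    by_contra ha
    have ha' : lit (V a) (C.inp gx (!ix)) = false := by
      unfold lit
      revert ha
      cases V a (C.inp gx (!ix)).1 <;> cases (C.inp gx (!ix)).2 <;> simp
    obtain ⟨b, hb, hf⟩ := h1 x hx y hy z hz hxy hxz hyz a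
    apply hf
    apply sel_off M dx Gx ex
    rw [← ha']
    refine lit_congr (below M {y, z} (C.rk gx) _ _ ?_ ?_ (M.node_inp Gx _) ?_ (M.rk gx Gx _))
    · intro v _ hv
      simp only [Set.mem_insert_iff, Set.mem_singleton_iff, not_or] at hv
      exact hb v hv.1 hv.2
    · rintro h hh j (hj | hj)
      · rw [((wire_unique dy Gy ey).2 h hh j hj).1]; exact ry
      · rw [((wire_unique dz Gz ez).2 h hh j hj).1]; exact rz
    · rintro (e | e)
      · exact M.dis y hy (e ▸ hu)
      · exact M.dis z hz ((Set.mem_singleton_iff.1 e) ▸ hu)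

/-- take the gate of least rank among the three; its selector ignores the other two variables -/
theorem three_degen (M : Model s C V) (h1 : P1 s) (hX : 515 ≤ s.X.card)
    (h : 3 ≤ (Degen s C).card) : ConstGate C V := by
  obtain ⟨x, y, z, hx, hy, hz, hxy, hxz, hyz⟩ := Finset.two_lt_card_iff.1 h
  simp only [Degen, Finset.mem_filter] at hx hy hz
  obtain ⟨hx, dx, gx, Gx, ix, ex, nx⟩ := hx
  obtain ⟨hy, dy, gy, Gy, iy, ey, ny⟩ := hy
  obtain ⟨hz, dz, gz, Gz, iz, ez, nz⟩ := hz
  by_cases c1 : C.rk gx ≤ C.rk gy ∧ C.rk gx ≤ C.rk gz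
  · exact three_aux M h1 hX hx hy hz hxy hxz hyz dx dy dz Gx Gy Gz ex ey ez nx c1.1 c1.2
  · by_cases c2 : C.rk gy ≤ C.rk gz
    · exact three_aux M h1 hX hy hx hz hxy.symm hyz hxz dy dx dz Gy Gx Gz ey ex ez ny (by omega) c2
    · exact three_aux M h1 hX hz hx hy hxz.symm hyz.symm hxy dz dx dy Gz Gx Gy ez ex ey nz
        (by omega) (by omega)

/-- a single flip is visible on every subcube of bounded codimension -/
theorem P1.single (h1 : P1 s) (hX : 67 ≤ s.X.card) {x : ℕ} (hx : x ∈ s.X) (A : Finset ℕ)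
    (hA : A.card ≤ 64) (a : ℕ → Bool) : ∃ b : ℕ → Bool, (∀ i ∈ A, b i = a i) ∧ s.f b ≠ s.f (flip b x) :=
  h1.cube hx A (by omega) a

/-- in the reduced situation every variable of degree one is counted -/
theorem Ctx.mem_degen (K : Ctx s C V) {x : ℕ} (hx : x ∈ s.X) (hd : C.deg x ≤ 1) : x ∈ Degen s C := by
  have hb := K.big
  have h1 := K.p1 s Reach.refl
  have hpos := var_deg_pos K.model h1 (by omega) hx
  have ho : C.out.1 ≠ x := by
    intro e
    exact out_late K.model h1 (by omega) (e ▸ (Dep.var K.model hx).mono (by omega))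
  obtain ⟨g, hg, i, -, hi⟩ := exists_wire (C := C) (v := x) ∅ (by simp [ho]; omega)
  exact Finset.mem_filter.2 ⟨hx, hd, g, hg, i, hi, K.nz g hg _⟩

theorem Early.not_mem {v : ℕ} (h : Early C 0 v) : v ∉ C.G := by
  intro hv
  have := (h.inp hv).1
  omega

theorem not_early {d v : ℕ} (h : ¬ Early C (d + 1) v) :
    v ∈ C.G ∧ ∃ i, ¬ Early C d (C.inp v i).1 := by
  have hv : v ∈ C.G := by
    by_contra hv
    exact h (Early.base hv)
  refine ⟨hv, ?_⟩
  by_contra hn
  push Not at hn
  exact h (Early.step hv hn)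

/-- a gate of least rank among those of depth larger than two starts a chain of depths 3, 2, 1 -/
theorem Ctx.chain (K : Ctx s C V) : ∃ g₄ ∈ C.G, ∃ g₃ ∈ C.G, ∃ g₂ ∈ C.G, ∃ i₄ i₃ : Bool,
    (C.inp g₄ i₄).1 = g₃ ∧ (C.inp g₃ i₃).1 = g₂ ∧ (∀ i, (C.inp g₂ i).1 ∈ s.X) ∧
    Early C 3 g₄ ∧ Early C 2 g₃ ∧ Early C 1 g₂ := by
  classical
  have hb := K.big
  have M := K.model
  have ho : ¬ Early C 2 C.out.1 := fun h =>
    out_late M (K.p1 s Reach.refl) (by omega) ((h.dep M M.node_out).mono (by omega))
  obtain ⟨g₄, h₄, hmin⟩ := (C.G.filter fun g => ¬ Early C 2 g).exists_min_image C.rk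
    ⟨C.out.1, Finset.mem_filter.2 ⟨(not_early ho).1, ho⟩⟩
  obtain ⟨G₄, n₄⟩ := Finset.mem_filter.1 h₄
  have hin : ∀ i, Early C 2 (C.inp g₄ i).1 := by
    intro i
    by_contra hn
    have hG := (not_early hn).1
    have := hmin _ (Finset.mem_filter.2 ⟨hG, hn⟩)
    have := M.rk g₄ G₄ i hG
    omega
  obtain ⟨-, i₄, n₃⟩ := not_early n₄
  obtain ⟨G₃, i₃, n₂⟩ := not_early n₃
  have G₂ : (C.inp (C.inp g₄ i₄).1 i₃).1 ∈ C.G := by
    by_contra hv
    exact n₂ (Early.base hv)
  have e₂ : Early C 1 (C.inp (C.inp g₄ i₄).1 i₃).1 := ((hin i₄).inp G₃).2 i₃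
  refine ⟨g₄, G₄, _, G₃, _, G₂, i₄, i₃, rfl, rfl, fun i => ?_, Early.step G₄ hin, hin i₄, e₂⟩
  have e₁ : Early C 0 _ := (e₂.inp G₂).2 i
  rcases M.src _ G₂ i with h | h | h
  · exact absurd h (K.nz _ G₂ i)
  · exact h
  · exact absurd h e₁.not_mem

theorem beta_le (s : FS) (C : Ckt) (V : (ℕ → Bool) → ℕ → Bool) : beta s C V ≤ 100 := by
  unfold beta
  split_ifs <;> omega

theorem beta_of_not (h : ¬ ConstGate C V) : beta s C V = 33 * min 2 (Degen s C).card := by
  simp [beta, h]

theorem le_beta (s : FS) (C : Ckt) (V : (ℕ → Bool) → ℕ → Bool) :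
    33 * min 2 (Degen s C).card ≤ beta s C V := by
  unfold beta
  split_ifs <;> omega

theorem credit_le (s : FS) (C : Ckt) : credit s C ≤ 100 * s.X.card := by
  unfold credit
  have := Finset.sum_le_card_nsmul s.X (fun x => cr (C.deg x)) 100 fun x _ => cr_le _
  rw [smul_eq_mul] at this
  omega

theorem deg_merge_le {g v : ℕ} {l : ℕ × Bool} (hv : v ≠ g) (hl : l.1 ≠ v) :
    (C.merge g l).deg v ≤ C.deg v := by
  have := deg_merge (C := C) (l := l) hv
  rw [if_neg hl] at this
  omega

/-- merging a gate loses at most the credit of the variable that replaces it -/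
theorem credit_merge (M : Model s C V) {g : ℕ} (hg : g ∈ C.G) (l : ℕ × Bool) :
    credit s C ≤ credit s (C.merge g l) + if l.1 ∈ s.X then cr (C.deg l.1) else 0 := by
  have key : ∀ x ∈ s.X, cr (C.deg x) ≤
      cr ((C.merge g l).deg x) + if l.1 = x then cr (C.deg l.1) else 0 := by
    intro x hx
    split_ifs with e
    · rw [e]; omega
    · have hxg : x ≠ g := by
        rintro rfl; exact M.dis _ hx hg
      exact cr_anti (deg_merge_le hxg e)
  have := Finset.sum_le_sum key
  rw [Finset.sum_add_distrib, Finset.sum_ite_eq] at this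
  exact this

theorem card_merge {g : ℕ} (hg : g ∈ C.G) (l : ℕ × Bool) :
    (C.merge g l).G.card + 1 = C.G.card := Finset.card_erase_add_one hg

theorem win_merge {g : ℕ} {l : ℕ × Bool} (hg : g ∈ C.G) (M' : Model s (C.merge g l) V)
    (h : credit s C + beta s C V ≤ 100 + credit s (C.merge g l) + beta s (C.merge g l) V) :
    Win s C V := by
  have := card_merge hg l
  exact ⟨s, C.merge g l, V, Reach.refl, M', by omega, Or.inr (Or.inl (by omega))⟩

/-- a constant or dead gate is removed -/
theorem win_zero (M : Model s C V) {g : ℕ} (hg : g ∈ C.G) (c : Bool)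
    (h : C.deg g = 0 ∨ ∀ a, V a g = c) : Win s C V := by
  have hne : (0 : ℕ) ≠ g := by
    rintro rfl; exact M.zg hg
  refine win_merge (l := (0, c)) hg (M.merge hg (Or.inl rfl) hne ?_ fun h => absurd h M.zg) ?_
  · rcases h with h | h
    · exact Or.inl h
    · exact Or.inr fun a => by simp [lit, M.v0, h a]
  · have h1 := credit_merge M hg (0, c)
    rw [if_neg M.zx] at h1
    have := beta_le s C V
    omega

/-- a gate that copies one of its inputs is removed -/
theorem win_copy (M : Model s C V) (hc : ¬ ConstGate C V) {g : ℕ} (hg : g ∈ C.G) (i : Bool)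
    (hv : ∀ a, V a g = lit (V a) (C.inp g i))
    (ho : (C.inp g (!i)).1 = 0 ∨ (C.inp g (!i)).1 = (C.inp g i).1) : Win s C V := by
  have hne : (C.inp g i).1 ≠ g := by
    intro e
    have := M.rk g hg i (by rw [e]; exact hg)
    rw [e] at this
    omega
  refine win_merge (l := C.inp g i) hg (M.merge hg (M.node_inp hg i) hne (Or.inr hv) ?_) ?_
  · intro hl h hh j hj
    have h1 := M.rk g hg i hl
    have h2 := M.rk h hh j (by rw [hj]; exact hg)
    rw [hj] at h2
    omega
  · have h1 := credit_merge M hg (C.inp g i)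
    have h2 := beta_of_not (s := s) hc
    by_cases hx : (C.inp g i).1 ∈ s.X
    · rw [if_pos hx] at h1
      by_cases hd : C.deg (C.inp g i).1 ≤ 1
      · have hu := (wire_unique hd hg rfl).2
        have h0 : (C.inp g (!i)).1 = 0 := by
          rcases ho with ho | ho
          · exact ho
          · have := (hu g hg _ ho).2
            simp at this
        have hsub : Degen s C ⊆ Degen s (C.merge g (C.inp g i)) := by
          intro x hxD
          obtain ⟨hxX, dx, h, hh, j, hj, hn⟩ := Finset.mem_filter.1 hxD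
          have hxg : x ≠ g := by
            rintro rfl; exact M.dis _ hxX hg
          have hxv : (C.inp g i).1 ≠ x := by
            intro e
            obtain ⟨rfl, rfl⟩ := hu h hh j (hj.trans e.symm)
            exact hn h0
          have hhg : h ≠ g := by
            rintro rfl
            by_cases e : j = i
            · exact hxv (e ▸ hj)
            · have : j = !i := by
                revert e; cases i <;> cases j <;> simp
              rw [this, h0] at hj
              exact M.zx (hj ▸ hxX)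
          refine Finset.mem_filter.2 ⟨hxX, (deg_merge_le hxg hxv).trans dx, h,
            Finset.mem_erase.2 ⟨hhg, hh⟩, j, ?_, ?_⟩
          · simp [Ckt.merge, subst, hj, hxg]
          · simp only [Ckt.merge, subst]
            split_ifs
            · intro e
              exact M.zx (e ▸ hx)
            · exact hn
        have h3 := Finset.card_le_card hsub
        have h4 := le_beta s (C.merge g (C.inp g i)) V
        have h5 := cr_le (C.deg (C.inp g i).1)
        omega
      · have h3 : cr (C.deg (C.inp g i).1) ≤ 3 := (cr_anti (a := 2) (by omega)).trans (by simp [cr])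
        omega
    · rw [if_neg hx] at h1
      omega

/-- every large situation with the two properties has a winning move -/
theorem win_of_core (h : Core) (M : Model s C V) (hb : 600 ≤ s.X.card)
    (h1 : ∀ s', Reach s s' → P1 s') (h2 : P2 s) : Win s C V := by
  by_cases hc : ConstGate C V
  · obtain ⟨g, hg, c, hc⟩ := hc
    exact win_zero M hg c (Or.inr hc)
  by_cases hl : ∃ g ∈ C.G, C.deg g = 0
  · obtain ⟨g, hg, hd⟩ := hl
    exact win_zero M hg false (Or.inl hd)
  by_cases hz : ∃ g ∈ C.G, ∃ i, (C.inp g i).1 = 0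
  · obtain ⟨g, hg, i, hi⟩ := hz
    have hq : (C.inp g i).2 = true := by
      by_contra hq
      rw [Bool.not_eq_true] at hq
      exact hc ⟨g, hg, false, fun a => by simp [M.vg' a hg i, lit, hi, hq, M.v0]⟩
    refine win_copy M hc hg (!i) (fun a => ?_) (Or.inl (by simpa using hi))
    rw [M.vg' a hg i]
    simp [lit, hi, hq, M.v0]
  by_cases he : ∃ g ∈ C.G, (C.inp g false).1 = (C.inp g true).1
  · obtain ⟨g, hg, e⟩ := he
    have hq : (C.inp g false).2 = (C.inp g true).2 := by
      by_contra hq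
      refine hc ⟨g, hg, false, fun a => ?_⟩
      rw [M.vg a g hg]
      unfold lit
      rw [e]
      revert hq
      cases V a (C.inp g true).1 <;> cases (C.inp g false).2 <;> cases (C.inp g true).2 <;> simp
    refine win_copy M hc hg true (fun a => ?_) (Or.inr e)
    rw [M.vg a g hg]
    simp [lit, e, hq]
  push Not at hl hz he
  exact h s C V ⟨M, hb, h1, h2, hc, hz, he, fun g hg => Nat.one_le_iff_ne_zero.2 (hl g hg)⟩

theorem credit_fix (M : Model s C V) {x : ℕ} (hx : x ∈ s.X) (c : Bool) :
    credit s C ≤ credit (s.fix x c) (C.merge x (0, c)) + 100 := by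
  have h1 : ∑ y ∈ s.X.erase x, cr (C.deg y) ≤ ∑ y ∈ s.X.erase x, cr ((C.merge x (0, c)).deg y) := by
    refine Finset.sum_le_sum fun y hy => cr_anti (deg_merge_le (Finset.ne_of_mem_erase hy) ?_)
    intro e
    have e' : 0 = y := e
    exact M.zx (e' ▸ Finset.mem_of_mem_erase hy)
  have h2 := Finset.add_sum_erase s.X (fun y => cr (C.deg y)) hx
  have h3 := cr_le (C.deg x)
  unfold credit FS.fix
  simp only at h2 ⊢
  omega

theorem bound_aux (h : Core) (s₀ : FS) (W N : ℕ) (hH : Hard s₀ W N) :
    ∀ (n k r : ℕ) (s : FS) (C : Ckt) (V : (ℕ → Bool) → ℕ → Bool), s.X.card = n → C.G.card = k →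
      C.rsum = r → Reach s₀ s → Model s C V →
      W * (501 * s.X.card + credit s C + beta s C V) ≤
        W * (100 * C.G.card) + 701 * ∑ x ∈ s.X, s.wt x + W * (601 * (N + 600)) := by
  intro n
  induction n using Nat.strong_induction_on with
  | _ n ihn =>
  intro k
  induction k using Nat.strong_induction_on with
  | _ k ihk =>
  intro r
  induction r using Nat.strong_induction_on with
  | _ r ihr =>
  intro s C V hn hk hr hR M
  by_cases hsmall : s.X.card < N + 600
  · have h1 := credit_le s C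
    have h2 := beta_le s C V
    have h3 : W * (501 * s.X.card + credit s C + beta s C V) ≤ W * (601 * (N + 600)) :=
      Nat.mul_le_mul_left _ (by omega)
    omega
  by_cases hw : ∃ x ∈ s.X, W < s.wt x
  · obtain ⟨x, hx, hwx⟩ := hw
    have hc : (s.fix x false).X.card + 1 = s.X.card := Finset.card_erase_add_one hx
    have ih := ihn _ (by omega) _ _ (s.fix x false) (C.merge x (0, false)) _ rfl rfl rfl
      (Reach.fix false hR hx) (M.fix hx false)
    have h1 := credit_fix M hx false
    have h2 := beta_le s C V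
    have h3 : (C.merge x (0, false)).G.card ≤ C.G.card := Finset.card_erase_le
    have h4 : s.wt x + ∑ y ∈ (s.fix x false).X, (s.fix x false).wt y = ∑ y ∈ s.X, s.wt y :=
      Finset.add_sum_erase s.X s.wt hx
    have h5 : W * (501 * s.X.card + credit s C + beta s C V) ≤
        W * (501 * (s.fix x false).X.card + credit (s.fix x false) (C.merge x (0, false)) +
          beta (s.fix x false) (C.merge x (0, false))
            (fun a => V (Function.update a x false)) + 701) :=
      Nat.mul_le_mul_left _ (by omega)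
    have h6 : W * (100 * (C.merge x (0, false)).G.card) ≤ W * (100 * C.G.card) :=
      Nat.mul_le_mul_left _ (by omega)
    rw [Nat.mul_add W _ 701] at h5
    omega
  push Not at hw
  obtain ⟨s', C', V', hR', M', hle, hlt⟩ := win_of_core h M (by omega)
    (fun s' hs' => (hH s' (hR.trans hs')).1) ((hH s hR).2 hw (by omega))
  have hsub := Finset.card_le_card hR'.subset
  have ih : W * (501 * s'.X.card + credit s' C' + beta s' C' V') ≤
      W * (100 * C'.G.card) + 701 * ∑ x ∈ s'.X, s'.wt x + W * (601 * (N + 600)) := by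
    by_cases c1 : s'.X.card < n
    · exact ihn _ c1 _ _ s' C' V' rfl rfl rfl (hR.trans hR') M'
    · by_cases c2 : C'.G.card < k
      · exact ihk _ c2 _ s' C' V' (by omega) rfl rfl (hR.trans hR') M'
      · exact ihr C'.rsum (by omega) s' C' V' (by omega) (by omega) rfl (hR.trans hR') M'
  have h1 := hR'.wt_le
  have h2 : W * (100 * C'.G.card + (501 * s.X.card + credit s C + beta s C V)) ≤
      W * (100 * C.G.card + (501 * s'.X.card + credit s' C' + beta s' C' V')) :=
    Nat.mul_le_mul_left _ (by omega)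
  rw [Nat.mul_add W (100 * C'.G.card), Nat.mul_add W (100 * C.G.card)] at h2
  omega

theorem bound_of_core (h : Core) : Bound := by
  intro s W N C V _ hH M
  have h1 := bound_aux h s W N hH _ _ _ s C V rfl rfl rfl Reach.refl M
  have h2 : W * (501 * s.X.card) ≤ W * (501 * s.X.card + credit s C + beta s C V) :=
    Nat.mul_le_mul_left _ (by omega)
  omega

end Pool.Agent.Lib.MP_79d702_lc.U2
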