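import Pool.Agent.Lib.MP_79d702_lc.U2.Pat
import Pool.Agent.Lib.MP_79d702_lc.U2.CircB

/-!
Known wires, exclusions, embeddings and local deductions for patterns.
-/

namespace Pool.Agent.Lib.MP_79d702_lc.U2

variable {s : FS} {C : Ckt} {V : (ℕ → Bool) → ℕ → Bool} {Q : AX} {E : Asg} {tag : ℕ}

/-- the wires of the circuit that correspond to the known wires leaving `u` -/
def known (Q : AX) (E : Asg) (u : ℕ) : Finset (ℕ × Bool) :=
  ((Finset.range Q.n ×ˢ (Finset.univ : Finset Bool)).filter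
    fun w => Q.gate w.1 = true ∧ Q.inp w.1 w.2 = u).image fun w => (E.φ w.1, w.2 ^^ E.sw w.1)

theorem mem_known {u g : ℕ} {j : Bool} : (g, j) ∈ known Q E u ↔
    ∃ h < Q.n, Q.gate h = true ∧ E.φ h = g ∧ Q.inp h (j ^^ E.sw h) = u := by
  simp only [known, Finset.mem_image, Finset.mem_filter, Finset.mem_product, Finset.mem_range,
    Finset.mem_univ, and_true, Prod.mk.injEq, Prod.exists]
  constructor
  · rintro ⟨h, i, ⟨hh, hg, hi⟩, rfl, rfl⟩
    exact ⟨h, hh, hg, rfl, by simpa using hi⟩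
  · rintro ⟨h, hh, hg, rfl, hi⟩
    exact ⟨h, j ^^ E.sw h, ⟨hh, hg, hi⟩, rfl, by simp⟩

theorem MatchX.card_known (M : MatchX Q s C E) {u : ℕ} (hu : u < Q.n) :
    Q.kd u = (known Q E u).card + if Q.out = u then 1 else 0 := by
  rw [M.kd u hu, AP.kdS, known, Finset.card_image_of_injOn]
  rintro ⟨a, i⟩ ha ⟨b, j⟩ hb hab
  simp only [Finset.coe_filter, Finset.mem_product, Finset.mem_range, Finset.mem_univ, and_true,
    Set.mem_ofPred_eq, Prod.mk.injEq] at ha hb hab
  obtain rfl := M.inj a ha.1 b hb.1 hab.1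
  have := hab.2
  revert this
  cases i <;> cases j <;> cases E.sw a <;> simp

theorem MatchX.known_wire (M : MatchX Q s C E) {u : ℕ} (hu : u < Q.n) :
    ∀ w ∈ known Q E u, w.1 ∈ C.G ∧ (C.inp w.1 w.2).1 = E.φ u := by
  rintro ⟨g, j⟩ hw
  obtain ⟨h, hh, hg, rfl, hi⟩ := mem_known.1 hw
  refine ⟨M.gat h hh hg, ?_⟩
  have := M.wire h hh hg (j ^^ E.sw h) (hi ▸ hu)
  rw [Bool.xor_assoc, Bool.xor_self, Bool.xor_false, hi] at this
  rw [this]

theorem MatchX.out_ind (M : MatchX Q s C E) {u : ℕ} (hu : u < Q.n) :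
    (if Q.out = u then 1 else 0) ≤ (if C.out.1 = E.φ u then 1 else 0) := by
  by_cases h : Q.out = u
  · rw [if_pos h, if_pos (h ▸ M.out (h ▸ hu))]
  · rw [if_neg h]
    exact Nat.zero_le _

theorem MatchX.kd_le (M : MatchX Q s C E) {u : ℕ} (hu : u < Q.n) : Q.kd u ≤ C.deg (E.φ u) := by
  have h1 := card_le_deg (known Q E u) (M.known_wire hu)
  have h2 := M.out_ind hu
  have h3 := M.card_known hu
  omega

theorem MatchX.src_eq (M : MatchX Q s C E) {g : ℕ} (hg : g < Q.n) (hk : Q.gate g = true) {i : Bool}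
    (hi : Q.inp g i < Q.n) : E.src C g i = E.φ (Q.inp g i) := by
  rw [Asg.src, M.wire g hg hk i hi]

/-- a wire that is not known exists as soon as the degree exceeds the number of known wires -/
theorem MatchX.more (K : Ctx s C V) (M : MatchX Q s C E) {u : ℕ} (hu : u < Q.n)
    (h : Q.kd u < C.deg (E.φ u)) :
    (C.out.1 = E.φ u ∧ Q.n ≤ Q.out) ∨ ∃ g ∈ C.G, ∃ j, (C.inp g j).1 = E.φ u ∧
      ∀ h < Q.n, E.φ h = g → Q.gate h = true ∧ Q.n ≤ Q.inp h (j ^^ E.sw h) := by
  by_cases ho : C.out.1 = E.φ u ∧ Q.n ≤ Q.out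
  · exact Or.inl ho
  right
  have h3 := M.card_known hu
  have h4 : (if C.out.1 = E.φ u then 1 else 0) ≤ (if Q.out = u then 1 else 0) := by
    by_cases e : C.out.1 = E.φ u
    · have h5 : Q.out < Q.n := not_le.1 fun h' => ho ⟨e, h'⟩
      rw [if_pos e, if_pos (M.inj _ h5 _ hu ((M.out h5).symm.trans e))]
    · rw [if_neg e]
      exact Nat.zero_le _
  obtain ⟨g, hg, j, hT, hj⟩ := exists_wire (C := C) (v := E.φ u) (known Q E u) (by omega)
  refine ⟨g, hg, j, hj, fun k hk e => ?_⟩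
  have hgk : Q.gate k = true := by
    by_contra hn
    exact K.model.dis _ (M.var k hk (by simpa using hn)) (e ▸ hg)
  refine ⟨hgk, not_lt.1 fun hl => hT (mem_known.2 ⟨k, hk, hgk, e, ?_⟩)⟩
  have := M.src_eq hk hgk hl
  rw [Asg.src, Bool.xor_assoc, Bool.xor_self, Bool.xor_false, e, hj] at this
  exact (M.inj _ hu _ hl this).symm

theorem MatchX.closed_wire (M : MatchX Q s C E) {u : ℕ} (hu : u < Q.n) (hc : Q.Closed u) {g : ℕ}
    (hg : g ∈ C.G) {j : Bool} (hj : (C.inp g j).1 = E.φ u) :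
    ∃ h < Q.n, Q.gate h = true ∧ E.φ h = g ∧ Q.inp h (j ^^ E.sw h) = u := by
  rw [← mem_known]
  by_contra hT
  have h1 := card_le_deg (C := C) (v := E.φ u) (insert (g, j) (known Q E u)) (by
    intro w hw
    rcases Finset.mem_insert.1 hw with rfl | hw
    exacts [⟨hg, hj⟩, M.known_wire hu w hw])
  rw [Finset.card_insert_of_notMem hT] at h1
  have h2 := M.out_ind hu
  have h3 := M.card_known hu
  have h4 := M.dex u hu hc.1
  have h5 := hc.2
  omega

theorem MatchX.closed_out (M : MatchX Q s C E) {u : ℕ} (hu : u < Q.n) (hc : Q.Closed u)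
    (ho : C.out.1 = E.φ u) : Q.out = u := by
  by_contra hn
  have h1 := card_le_deg (known Q E u) (M.known_wire hu)
  have h3 := M.card_known hu
  have h4 := M.dex u hu hc.1
  have h5 := hc.2
  rw [if_pos ho] at h1
  rw [if_neg hn] at h3
  omega

theorem MatchX.node (M : MatchX Q s C E) {u : ℕ} (hu : u < Q.n) : Node s C (E.φ u) := by
  cases h : Q.gate u
  exacts [Or.inr (Or.inl (M.var u hu h)), Or.inr (Or.inr (M.gat u hu h))]

theorem MatchX.dep9 (K : Ctx s C V) (M : MatchX Q s C E) {u : ℕ} (hu : u < Q.n)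
    (h : Q.dep u ≤ 9) : Dep V 9 (E.φ u) :=
  ((M.dep u hu h).dep K.model (M.node hu)).mono h

/-- no literal read by a gate is constantly true -/
theorem Ctx.not_true (K : Ctx s C V) {g : ℕ} (hg : g ∈ C.G) (i : Bool) :
    ¬ ∀ a, lit (V a) (C.inp g i) = true := by
  intro h
  rcases K.model.src g hg i with e | e | e
  · exact K.nz g hg i e
  · exact var_not_const K.model e (C.inp g i).2 h
  · refine K.nconst ⟨_, e, !(C.inp g i).2, fun a => ?_⟩
    have := h a
    rw [lit] at this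
    revert this
    cases V a (C.inp g i).1 <;> cases (C.inp g i).2 <;> simp

theorem xor_not_left (i b : Bool) : ((!i) ^^ b) = !(i ^^ b) := by
  cases i <;> cases b <;> rfl

/-- the partner of a variable of degree one is late -/
theorem MatchX.sel (K : Ctx s C V) (M : MatchX Q s C E) {g : ℕ} {i : Bool} (hg : g < Q.n)
    (hk : Q.gate g = true) (hd : Q.Dgn (Q.inp g (!i))) : ¬ Dep V 9 (E.src C g i) := by
  intro h
  have hb := K.big
  have e := M.src_eq hg hk hd.1
  rw [Asg.src, xor_not_left] at e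
  refine K.not_true (M.gat g hg hk) (!(!(i ^^ E.sw g))) (selector K.model (K.p1 s Reach.refl)
    (by omega) (M.var _ hd.1 hd.2.1) ((M.dex _ hd.1 hd.2.2.1).trans hd.2.2.2) (M.gat g hg hk) e ?_)
  rw [Bool.not_not]
  exact h

theorem Ctx.ne' (K : Ctx s C V) {g : ℕ} (hg : g ∈ C.G) (i : Bool) :
    (C.inp g i).1 ≠ (C.inp g (!i)).1 := by
  cases i
  exacts [K.ne g hg, (K.ne g hg).symm]

theorem excl_sound (K : Ctx s C V) (M : MatchX Q s C E) {h v : ℕ} {i : Bool} (hh : h < Q.n)
    (hg : Q.gate h = true) (hv : v < Q.n) (hx : Q.Excl h i v) : E.src C h i ≠ E.φ v := by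
  intro e
  have hG := M.gat h hh hg
  rcases hx with hx | hx | hx | hx | hx | hx | hx
  · exact M.nf h hh hg i v hv hx e
  · exact hx.2 (M.inj _ hx.1 _ hv ((M.src_eq hh hg hx.1).symm.trans e))
  · obtain ⟨k, hk, -, e1, e2⟩ := M.closed_wire hv hx.2 hG e
    obtain rfl := M.inj _ hk _ hh e1
    rw [Bool.xor_assoc, Bool.xor_self, Bool.xor_false] at e2
    have := hx.1
    omega
  · have e1 := M.src_eq hh hg (hx ▸ hv : Q.inp h (!i) < Q.n)
    rw [hx, Asg.src, xor_not_left] at e1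
    exact K.ne' hG _ (e.trans e1.symm)
  · obtain ⟨h1, h2⟩ := M.cn v hv h hh hx
    have := K.model.rk _ hG (i ^^ E.sw h) (by rw [← e] at h1; exact h1)
    rw [show (C.inp (E.φ h) (i ^^ E.sw h)).1 = E.φ v from e] at this
    omega
  · exact M.sel K hh hg hx.1 (e ▸ M.dep9 K hv hx.2)
  · have h1 := M.lb h hh hg i (e ▸ M.var v hv hx.1)
    rw [e] at h1
    rcases hx.2 with h2 | h2
    · omega
    · have := M.dex v hv h2.1
      omega

theorem emb_sound (K : Ctx s C V) (M : MatchX Q s C E) {L : AP} {m : ℕ → ℕ} {f w : ℕ → Bool}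
    {e : Bool} (h : Emb L Q m f w e) : Match L s C
      ⟨fun u => E.φ (m u), fun u => f u ^^ E.fl (m u), fun u => w u ^^ E.sw (m u), e ^^ E.ε⟩ := by
  have hs : ∀ g i, Asg.src
      ⟨fun u => E.φ (m u), fun u => f u ^^ E.fl (m u), fun u => w u ^^ E.sw (m u), e ^^ E.ε⟩
      C g i = E.src C (m g) (i ^^ w g) := fun g i => by
    simp only [Asg.src, Bool.xor_assoc]
  refine ⟨fun u hu v hv e => h.inj u hu v hv (M.inj _ (h.lt u hu) _ (h.lt v hv) e),
    fun u hu k => M.var _ (h.lt u hu) ((h.gate u hu).trans k),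
    fun u hu k => M.gat _ (h.lt u hu) ((h.gate u hu).trans k), fun g hg k i hi => ?_,
    fun g hg k i hi => ?_, fun u hu => (h.dlo u hu).trans (M.dlo _ (h.lt u hu)),
    fun u hu k => (M.dex _ (h.lt u hu) (h.dex u hu k).1).trans (h.dex u hu k).2,
    fun u hu k => (M.dep _ (h.lt u hu) ((h.dep u hu).trans k)).mono (h.dep u hu),
    fun u hu k k' => ?_, fun g hg k i hi => ?_, fun g hg k i v hv hn => ?_, fun ho => ?_⟩
  · obtain ⟨e1, e2, -⟩ := h.wire g hg k i hi
    have := M.wire _ (h.lt g hg) ((h.gate g hg).trans k) (i ^^ w g) (e1 ▸ h.lt _ hi)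
    rw [e1, e2, Bool.xor_assoc, Bool.xor_assoc] at this
    exact this
  · obtain ⟨e1, -, e3⟩ := h.wire g hg k i hi
    have := M.flg _ (h.lt g hg) ((h.gate g hg).trans k) (i ^^ w g) (e1 ▸ h.lt _ hi)
    change (f g ^^ E.fl (m g)) = _
    rw [this, e3, Bool.xor_assoc, Bool.xor_self, Bool.xor_false]
  · obtain ⟨e1, e2⟩ := h.sg u hu k k'
    have := M.sg _ (h.lt u hu) ((h.gate u hu).trans k) e1
    change s.sg (E.φ (m u)) = (decide (L.sg u = 1) ^^ (f u ^^ E.fl (m u)) ^^ (e ^^ E.ε))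
    rw [this, e2]
    cases decide (L.sg u = 1) <;> cases f u <;> cases e <;> cases E.fl (m u) <;> cases E.ε <;> rfl
  · rw [hs] at hi ⊢
    have h1 := M.lb _ (h.lt g hg) ((h.gate g hg).trans k) _ hi
    have h2 := h.lb g hg k i
    omega
  · rw [hs]
    exact excl_sound K M (h.lt g hg) ((h.gate g hg).trans k) (h.lt v hv) (h.nf g hg k i v hv hn)
  · have e1 := h.out ho
    have := M.out (e1 ▸ h.lt _ ho)
    rw [e1] at this
    exact this

theorem holdsX_emb {L : AP} {m : ℕ → ℕ} {f w : ℕ → Bool} {e : Bool} {tl : ℕ} (h : Emb L Q m f w e)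
    (ht : tag ≤ tl) (hL : Holds tl L) : HoldsX tag Q :=
  fun s C V _ K T M => hL s C V _ K (T.trans ht) (emb_sound K M h)

theorem holds_of_load (n63 : Q.n ≤ 63)
    (wfi : ∀ g < Q.n, Q.gate g = true → ∀ i, Q.inp g i < Q.n ∨ Q.inp g i = 63)
    (wfo : Q.out < Q.n ∨ Q.out = 63) (kd : ∀ u < Q.n, Q.kd u = Q.toAP.kdS u)
    (nfw : ∀ g < Q.n, ∀ i v, Q.n ≤ v → Q.nf g i v = false)
    (cn : ∀ v < Q.n, ∀ h, Q.cn v h = true → Q.gate v = true ∧ h = v) (full : Q.full = false)
    (h : HoldsX tag Q) : Holds tag Q.toAP := by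
  intro s C V E K T M
  refine h s C V E K T ⟨M, n63, wfi, wfo, kd, nfw, fun g hg v hv => ?_, fun v hv k _ e => ?_,
    fun e => absurd (full.symm.trans e) (by simp)⟩
  · by_contra hn
    have := (cn g hg v (by simpa using hn)).2
    omega
  · obtain ⟨e1, rfl⟩ := cn v hv k e
    exact ⟨M.gat _ hv e1, le_rfl⟩

theorem MatchX.setDep (M : MatchX Q s C E) {u d : ℕ} (h : d ≤ 9 → Early C d (E.φ u)) :
    MatchX (Q.setDep u d) s C E := by
  refine ⟨⟨M.inj, M.var, M.gat, M.wire, M.flg, M.dlo, M.dex, fun v hv => ?_, M.sg, M.lb, M.nf,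
    M.out⟩, M.n63, M.wfi, M.wfo, M.kd, M.nfw, M.cnw, M.cn, M.full⟩
  change upd Q.dep u d v ≤ 9 → Early C (upd Q.dep u d v) (E.φ v)
  unfold upd
  split_ifs with e
  · exact e ▸ h
  · exact M.dep v hv

theorem MatchX.setLb' (M : MatchX Q s C E) {g l : ℕ} {i : Bool}
    (h : E.src C g i ∈ s.X → l ≤ C.deg (E.src C g i) ∧ l < 9) : MatchX (Q.setLb g i l) s C E := by
  refine ⟨⟨M.inj, M.var, M.gat, M.wire, M.flg, M.dlo, M.dex, M.dep, M.sg, fun v hv k j => ?_, M.nf,
    M.out⟩, M.n63, M.wfi, M.wfo, M.kd, M.nfw, M.cnw, M.cn, M.full⟩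
  change _ → upd2 Q.lb g i l v j ≤ _ ∧ upd2 Q.lb g i l v j < 9
  unfold upd2
  split_ifs with e
  · obtain ⟨rfl, rfl⟩ := e
    exact h
  · exact M.lb v hv k j

theorem Early.min {a b v : ℕ} (ha : a ≤ 9 → Early C a v) (hb : b ≤ 9 → Early C b v)
    (h : min a b ≤ 9) : Early C (min a b) v := by
  rcases le_total a b with e | e
  · rw [min_eq_left e] at h ⊢
    exact ha h
  · rw [min_eq_right e] at h ⊢
    exact hb h

theorem MatchX.dgn (K : Ctx s C V) (M : MatchX Q s C E) {a : ℕ} (h : Q.Dgn a) :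
    E.φ a ∈ Degen s C :=
  K.mem_degen (M.var a h.1 h.2.1) ((M.dex a h.1 h.2.2.1).trans h.2.2.2)

theorem step_sound (K : Ctx s C V) (T : (Degen s C).card ≤ tag) (M : MatchX Q s C E) {Q' : AX}
    (h : Step tag Q Q') : MatchX Q' s C E := by
  cases h with
  | down g i hg hk hd hi =>
    refine M.setDep (Early.min (M.dep _ hi) fun _ => ?_)
    rw [← M.src_eq hg hk hi]
    exact ((M.dep g hg hd).inp (M.gat g hg hk)).2 _
  | up g hg hk h0 h1 =>
    refine M.setDep (Early.min (M.dep _ hg) fun hd => Early.step (M.gat g hg hk) fun j => ?_)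
    have e : ∀ i, Q.inp g i < Q.n → Q.dep (Q.inp g i) ≤ max (Q.dep (Q.inp g false))
        (Q.dep (Q.inp g true)) → Early C (max (Q.dep (Q.inp g false)) (Q.dep (Q.inp g true)))
          (E.src C g i) := fun i hi hl => by
      rw [M.src_eq hg hk hi]
      exact (M.dep _ hi (by omega)).mono hl
    have e' : (C.inp (E.φ g) j).1 = E.src C g (j ^^ E.sw g) := by
      rw [Asg.src, Bool.xor_assoc, Bool.xor_self, Bool.xor_false]
    rw [e']
    cases j ^^ E.sw g
    exacts [e false h0 (le_max_left _ _), e true h1 (le_max_right _ _)]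
  | lb9 g i hg hk hd =>
    exact M.setLb' fun hx => absurd ((Dep.var K.model hx).mono (by omega)) (M.sel K hg hk hd)
  | lbr g i hg hk hi =>
    refine M.setLb' fun hx => ?_
    rw [M.src_eq hg hk hi] at hx ⊢
    cases e : Q.gate (Q.inp g i)
    · have := M.dlo _ hi
      simp only [Bool.false_eq_true, if_false]
      omega
    · exact absurd (M.gat _ hi e) (K.model.dis _ hx)
  | cn g i hg hk hi =>
    refine ⟨M.toMatch, M.n63, M.wfi, M.wfo, M.kd, M.nfw, fun v hv k hk' => ?_,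
      fun v hv k hk' => ?_, M.full⟩
    · change upd Q.cn g (fun v => Q.cn g v || Q.cn (Q.inp g i) v) v k = false
      unfold upd
      split_ifs with e
      · simp only [M.cnw g hg k hk', M.cnw _ hi k hk', Bool.or_self]
      · exact M.cnw v hv k hk'
    · change upd Q.cn g (fun v => Q.cn g v || Q.cn (Q.inp g i) v) v k = true → _
      unfold upd
      split_ifs with e
      · subst e
        intro e
        rcases Bool.or_eq_true_iff.1 e with e | e
        · exact M.cn v hv k hk' e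
        · obtain ⟨h1, h2⟩ := M.cn _ hi k hk' e
          have e1 := M.src_eq hg hk hi
          have := K.model.rk _ (M.gat v hg hk) (i ^^ E.sw v) (by rw [← e1] at h1; exact h1)
          rw [show (C.inp (E.φ v) (i ^^ E.sw v)).1 = E.φ (Q.inp v i) from e1] at this
          exact ⟨M.gat v hg hk, by omega⟩
      · exact M.cn v hv k hk'
  | full a b h =>
    refine ⟨M.toMatch, M.n63, M.wfi, M.wfo, M.kd, M.nfw, M.cnw, M.cn, fun _ x hx hd => ?_⟩
    have hx' := K.mem_degen hx hd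
    change (a < Q.n ∧ E.φ a = x) ∨ (b < Q.n ∧ E.φ b = x)
    rcases h with rfl | ⟨rfl, ha⟩ | ⟨rfl, ha, hb, hab⟩
    · exact absurd (Finset.card_pos.2 ⟨x, hx'⟩) (by omega)
    · exact Or.inl ⟨ha.1, Finset.card_le_one.1 T _ (M.dgn K ha) _ hx'⟩
    · by_contra hn
      rw [not_or] at hn
      have : 2 < (Degen s C).card := Finset.two_lt_card_iff.2 ⟨_, _, _, M.dgn K ha, M.dgn K hb, hx',
        fun e => hab (M.inj _ ha.1 _ hb.1 e), fun e => hn.1 ⟨ha.1, e⟩, fun e => hn.2 ⟨hb.1, e⟩⟩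
      omega
  | vlo x hf hx hk h1 h2 =>
    have h3 : 2 ≤ C.deg (E.φ x) := by
      by_contra hn
      rcases M.full hf _ (M.var x hx hk) (by omega) with e | e
      exacts [h1 (M.inj _ e.1 _ hx e.2).symm, h2 (M.inj _ e.1 _ hx e.2).symm]
    refine ⟨⟨M.inj, M.var, M.gat, M.wire, M.flg, fun v hv => ?_, fun v hv e => ?_, M.dep, M.sg,
      M.lb, M.nf, M.out⟩, M.n63, M.wfi, M.wfo, M.kd, M.nfw, M.cnw, M.cn, M.full⟩
    · change upd Q.dlo x (max (Q.dlo x) 2) v ≤ _
      unfold upd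
      split_ifs with e
      · subst e
        exact max_le (M.dlo v hv) h3
      · exact M.dlo v hv
    · change _ ≤ upd Q.dlo x (max (Q.dlo x) 2) v
      unfold upd
      split_ifs with e'
      · subst e'
        exact (M.dex v hv e).trans (le_max_left _ _)
      · exact M.dex v hv e
  | lb2 g i hf hg hk h1 h2 =>
    refine M.setLb' fun hx => ?_
    have h3 : 2 ≤ C.deg (E.src C g i) := by
      by_contra hn
      rcases M.full hf _ hx (by omega) with e | e
      · exact excl_sound K M hg hk e.1 (h1.resolve_left (not_le.2 e.1)) e.2.symm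
      · exact excl_sound K M hg hk e.1 (h2.resolve_left (not_le.2 e.1)) e.2.symm
    have := M.lb g hg hk i hx
    omega

theorem holdsX_step {Q' : AX} (h : Step tag Q Q') (h' : HoldsX tag Q') : HoldsX tag Q :=
  fun s C V E K T M => h' s C V E K T (step_sound K T M h)

theorem holdsX_bad (h : Bad Q) : HoldsX tag Q := by
  intro s C V E K _ M
  exfalso
  have hb := K.big
  cases h with
  | dep0 g hg hk hd =>
    have := M.dep g hg (by omega)
    rw [hd] at this
    exact this.not_mem (M.gat g hg hk)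
  | outE ho hd =>
    exact out_late K.model (K.p1 s Reach.refl) (by omega) (M.out ho ▸ M.dep9 K ho hd)
  | outI i ho hk hi hd =>
    have e := M.out ho
    have hG : C.out.1 ∈ C.G := e ▸ M.gat _ ho hk
    refine K.not_true hG (i ^^ E.sw Q.out)
      (out_inp K.model (K.p1 s Reach.refl) (by omega) hG _ ?_)
    have e1 := M.src_eq ho hk hi
    rw [Asg.src, ← e] at e1
    rw [e1]
    exact M.dep9 K hi hd
  | sel g i hg hk hd h =>
    refine M.sel K (i := !i) hg hk (by rw [Bool.not_not]; exact hd) ?_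
    rcases h with h | h
    · have hG := M.gat g hg hk
      exact ((((M.dep g hg h).inp hG).2 _).dep K.model (K.model.src _ hG _)).mono (by omega)
    · rw [M.src_eq hg hk h.1]
      exact M.dep9 K h.1 h.2
  | many x hf hx h1 h2 =>
    rcases M.full hf _ (M.var x hx.1 hx.2.1) ((M.dex x hx.1 hx.2.2.1).trans hx.2.2.2) with e | e
    exacts [h1 (M.inj _ e.1 _ hx.1 e.2).symm, h2 (M.inj _ e.1 _ hx.1 e.2).symm]

theorem core_of_roots (h : ∀ p q, Holds 2 (rootAP p q)) : Core := by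
  intro s C V K
  have hb := K.big
  have M := K.model
  have T : (Degen s C).card ≤ 2 := by
    by_contra hn
    exact K.nconst (three_degen M (K.p1 s Reach.refl) (by omega) (by omega))
  obtain ⟨g₄, G₄, g₃, G₃, g₂, G₂, i₄, i₃, e₄, e₃, hx, E₄, E₃, E₂⟩ := K.chain
  have r₄ := M.rk g₄ G₄ i₄ (e₄ ▸ G₃)
  have r₃ := M.rk g₃ G₃ i₃ (e₃ ▸ G₂)
  rw [e₄] at r₄
  rw [e₃] at r₃
  have n₁ : g₂ ≠ g₃ := fun e => by rw [e] at r₃; omega
  have n₂ : g₃ ≠ g₄ := fun e => by rw [e] at r₄; omega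
  have n₃ : g₂ ≠ g₄ := fun e => by rw [e] at r₃; omega
  have nx : ∀ i, ∀ g ∈ C.G, (C.inp g₂ i).1 ≠ g := fun i g hg e => M.dis _ (hx i) (e ▸ hg)
  have n₄ := K.ne g₂ G₂
  have a1 := nx false g₂ G₂
  have a2 := nx false g₃ G₃
  have a3 := nx false g₄ G₄
  have a4 := nx true g₂ G₂
  have a5 := nx true g₃ G₃
  have a6 := nx true g₄ G₄
  refine h (C.inp g₃ i₃).2 (C.inp g₄ i₄).2 s C V
    ⟨fun u => if u = 0 then g₂ else if u = 1 then g₃ else if u = 2 then g₄ else
        if u = 3 then (C.inp g₂ false).1 else (C.inp g₂ true).1,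
      fun u => if u = 3 then (C.inp g₂ false).2 else if u = 4 then (C.inp g₂ true).2 else false,
      fun u => if u = 1 then i₃ else if u = 2 then i₄ else false, false⟩ K T
    ⟨fun u hu v hv => ?_, fun u hu k => ?_, fun u hu k => ?_, fun g hg k i hi => ?_,
      fun g hg k i _ => ?_, fun u hu => ?_, fun u _ k => ?_, fun u hu _ => ?_, fun u _ _ k => ?_,
      fun g _ _ i _ => ?_, fun g _ _ i v _ k => ?_, fun k => ?_⟩
  · change u < 5 at hu
    change v < 5 at hv
    interval_cases u <;> interval_cases v <;> simp <;> omega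
  · change u < 5 at hu
    interval_cases u <;> simp_all [rootAP]
  · change u < 5 at hu
    interval_cases u <;> simp_all [rootAP]
  · change g < 5 at hg
    interval_cases g <;> cases i <;> simp [rootAP] at k hi ⊢
    · rw [← e₃]
    · rw [← e₄]
  · change g < 5 at hg
    interval_cases g <;> simp [rootAP] at k ⊢
  · change u < 5 at hu
    interval_cases u
    exacts [K.live _ G₂, K.live _ G₃, K.live _ G₄, deg_pos_of_inp G₂ _, deg_pos_of_inp G₂ _]
  · simp [rootAP] at k
  · change u < 5 at hu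
    interval_cases u
    exacts [E₂, E₃, E₄, Early.base (M.dis _ (hx _)), Early.base (M.dis _ (hx _))]
  · simp [rootAP] at k
  · simp [rootAP]
  · simp [rootAP] at k
  · simp [rootAP] at k

end Pool.Agent.Lib.MP_79d702_lc.U2
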