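import Pool.Agent.Lib.MP_79d702_lc.U2.ChkS
import Pool.Agent.Lib.MP_79d702_lc.U2.LanesA1
import Pool.Agent.Lib.MP_79d702_lc.U2.PatA

/-!
Soundness of the checker, first part: deductions, embeddings, loading.
-/

namespace Pool.Agent.Lib.MP_79d702_lc.U2

namespace KA

theorem mul_eq' (a b : ℕ) : a.mul b = a * b := rfl
theorem add_eq' (a b : ℕ) : a.add b = a + b := rfl
theorem sub_eq' (a b : ℕ) : a.sub b = a - b := rfl
theorem shr_eq (a k : ℕ) : a.shiftRight k = a / 2 ^ k := Nat.shiftRight_eq_div_pow a k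
theorem shr1 (a : ℕ) : a.shiftRight 1 = a / 2 := shr_eq a 1
theorem shr2 (a : ℕ) : a.shiftRight 2 = a / 4 := shr_eq a 2
theorem shr6 (a : ℕ) : a.shiftRight 6 = a / 64 := shr_eq a 6
theorem land1 (a : ℕ) : a.land 1 = a % 2 := Nat.and_one_is_mod a
theorem land63 (a : ℕ) : a.land 63 = a % 64 := Nat.and_two_pow_sub_one_eq_mod a 6
theorem land127 (a : ℕ) : a.land 127 = a % 128 := Nat.and_two_pow_sub_one_eq_mod a 7

theorem shr_ne {a k : ℕ} (h : a.shiftRight k ≠ 0) : a ≠ 0 := by
  rintro rfl
  exact h (by rw [shr_eq]; simp)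

theorem xor1 (j : ℕ) : j.xor 1 = if j % 2 = 1 then j - 1 else j + 1 := by
  split_ifs with h
  · exact Nat.xor_one_of_odd (Nat.odd_iff.mpr h)
  · exact Nat.xor_one_of_even (Nat.even_iff.mpr (by omega))

theorem xor0 (j : ℕ) : j.xor 0 = j := Nat.xor_zero j

theorem slot (j : ℕ) : 2 * (j / 2) + (decide (j % 2 = 1)).toNat = j := by
  by_cases h : j % 2 = 1 <;> simp [h] <;> omega

theorem slot_not (j : ℕ) : 2 * (j / 2) + (!decide (j % 2 = 1)).toNat = j.xor 1 := by
  rw [xor1]
  by_cases h : j % 2 = 1 <;> simp [h] <;> omega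

theorem slot_div (g : ℕ) (i : Bool) : (2 * g + i.toNat) / 2 = g := by
  have := Bool.toNat_le i
  omega

theorem slot_mod (g : ℕ) (i : Bool) : decide ((2 * g + i.toNat) % 2 = 1) = i := by
  cases i <;> simp

theorem slot_eq_iff (g : ℕ) (i : Bool) (j : ℕ) :
    2 * g + i.toNat = j ↔ g = j / 2 ∧ i = decide (j % 2 = 1) := by
  constructor
  · rintro rfl
    exact ⟨(slot_div g i).symm, (slot_mod g i).symm⟩
  · rintro ⟨rfl, rfl⟩
    exact slot j

theorem upd_slot {α : Type} (f : ℕ → α) (j : ℕ) (v : α) :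
    (fun g (i : Bool) => upd f j v (2 * g + i.toNat)) =
      upd2 (fun g (i : Bool) => f (2 * g + i.toNat)) (j / 2) (decide (j % 2 = 1)) v := by
  funext g i
  simp only [upd, upd2, slot_eq_iff]

theorem cond_ne {b : Bool} {x : ℕ} (h : cond b x 0 ≠ 0) : b = true ∧ x ≠ 0 := by
  cases b
  · exact absurd rfl h
  · exact ⟨rfl, h⟩

theorem cond_ne' {b : Bool} {x y : ℕ} (h : cond b x y ≠ 0) : x ≠ 0 ∨ y ≠ 0 := by
  cases b
  · exact Or.inr h
  · exact Or.inl h

theorem cond_or {b x y : Bool} (h : cond b x y = true) : x = true ∨ y = true := by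
  cases b
  · exact Or.inr h
  · exact Or.inl h

theorem nbeq_false {a b : ℕ} : (a.beq b = false) = (a ≠ b) := by
  apply propext
  constructor
  · intro h e
    rw [e, Nat.beq_refl] at h
    exact absurd h (by simp)
  · intro h
    cases e : a.beq b
    · rfl
    · exact absurd (Nat.eq_of_beq_eq_true e) h

variable {Q : CX}

theorem inp_slot (Q : CX) (j : ℕ) : Q.abs.inp (j / 2) (decide (j % 2 = 1)) = g6 Q.inp j := by
  change g6 Q.inp (2 * (j / 2) + _) = _
  rw [slot]

theorem inp_slot_not (Q : CX) (j : ℕ) :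
    Q.abs.inp (j / 2) (!decide (j % 2 = 1)) = g6 Q.inp (j.xor 1) := by
  change g6 Q.inp (2 * (j / 2) + _) = _
  rw [slot_not]

theorem lb_slot (Q : CX) (j : ℕ) : Q.abs.lb (j / 2) (decide (j % 2 = 1)) = g4 Q.lb j := by
  change g4 Q.lb (2 * (j / 2) + _) = _
  rw [slot]

theorem dgn_abs {v : ℕ} (h : Q.dgn v = true) : Q.abs.Dgn v := by
  simp only [CX.dgn, Bool.and_eq_true, Nat.blt_eq, Nat.ble_eq, Bool.not_eq_true'] at h
  exact ⟨h.1, h.2.2.2, h.2.1, h.2.2.1⟩

theorem closed_abs {v : ℕ} (h : Q.closed v = true) : Q.abs.Closed v := by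
  simp only [CX.closed, Bool.and_eq_true, Nat.ble_eq] at h
  exact h

theorem isG_abs {g : ℕ} (h : Q.isG g = true) : g < Q.abs.n ∧ Q.abs.gate g = true := by
  simp only [CX.isG, Bool.and_eq_true, Nat.blt_eq] at h
  exact h

theorem setLb_abs (Q : CX) (j : ℕ) {l : ℕ} (hl : l < 16) :
    (Q.setLb j l).abs = Q.abs.setLb (j / 2) (decide (j % 2 = 1)) l := by
  simp only [CX.setLb, CX.abs, AX.setLb, g4_s4 _ _ hl, upd_slot]

theorem raise_abs (Q : CX) (u : ℕ) {d : ℕ} (hd : d < 16) :
    (Q.raise u d).abs = Q.abs.raise u d := by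
  simp only [CX.raise, CX.abs, AX.raise, g4_s4 _ _ hd]

theorem setDep_abs (Q : CX) (u : ℕ) {d : ℕ} (hd : d < 16) :
    (Q.setDep u d).abs = Q.abs.setDep u d := by
  simp only [CX.setDep, CX.abs, AX.setDep, g4_s4 _ _ hd]

theorem joinCn_abs (Q : CX) (h u : ℕ) : (Q.joinCn h u).abs = Q.abs.joinCn h u := by
  have hl : (g64 Q.cn h).lor (g64 Q.cn u) < 2 ^ 64 := Nat.or_lt_two_pow (g64_lt _ _) (g64_lt _ _)
  have e : (fun v k => bit (upd (g64 Q.cn) h ((g64 Q.cn h).lor (g64 Q.cn u)) v) k) =
      upd (fun v k => bit (g64 Q.cn v) k) h fun v => bit (g64 Q.cn h) v || bit (g64 Q.cn u) v := by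
    funext v k
    simp only [upd]
    split_ifs
    · exact bit_lor _ _ _
    · rfl
  simp only [CX.joinCn, CX.abs, AX.joinCn, g64_s64 _ _ hl, e]

theorem setFull_abs (Q : CX) (a b : ℕ) : (Q.setFull a b).abs = Q.abs.setFull a b := rfl

theorem cond_eq_ite' {α : Type} (b : Bool) (x y : α) : cond b x y = if b = true then x else y := by
  cases b <;> rfl

end KA

open KA

variable {tag : ℕ} {db : ℕ → ℕ}

theorem excl_abs {Q : CX} {j v : ℕ} (hj : j < 128) (hv : v < 64) (h : Q.excl j v = true) :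
    Q.abs.Excl (j / 2) (decide (j % 2 = 1)) v := by
  unfold AX.Excl
  rw [inp_slot, inp_slot_not, lb_slot]
  simp only [CX.excl, Bool.or_eq_true, Bool.and_eq_true, Nat.ble_eq, Nat.blt_eq, Nat.beq_eq,
    Bool.not_eq_true', mul_eq', add_eq', shr1] at h
  rcases h with h | h | h | h | h | h
  · left
    change bit (g64 Q.nf (2 * (j / 2) + _)) v = true
    rw [slot, bit_g64, mul_comm 64 j, h]
    simp [hv]
  · cases e : (g6 Q.inp j).blt Q.n
    · rw [e] at h
      refine Or.inr (Or.inr (Or.inl ⟨?_, closed_abs h⟩))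
      have : ¬ g6 Q.inp j < Q.n := fun hlt => by
        rw [← Nat.blt_eq, e] at hlt
        exact absurd hlt (by simp)
      exact Nat.le_of_not_lt this
    · rw [e] at h
      refine Or.inr (Or.inl ⟨Nat.blt_eq ▸ e, ?_⟩)
      simp only [cond_true, Bool.not_eq_true', nbeq_false] at h
      exact h
  · refine Or.inr (Or.inr (Or.inr (Or.inr (Or.inl ?_))))
    change bit (g64 Q.cn v) (j / 2) = true
    rw [bit_g64, mul_comm 64 v, h]
    have : j / 2 < 64 := by omega
    simp [this]
  · exact Or.inr (Or.inr (Or.inr (Or.inl h)))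
  · exact Or.inr (Or.inr (Or.inr (Or.inr (Or.inr (Or.inl ⟨dgn_abs h.1, h.2⟩)))))
  · exact Or.inr (Or.inr (Or.inr (Or.inr (Or.inr (Or.inr h)))))

theorem KA.step_abs {r : CX → ℕ → ℕ} {Q : CX} {x : ℕ} (h : CX.step tag r Q x ≠ 0) :
    ∃ Q' y, Step tag Q.abs (CX.abs Q') ∧ r Q' y ≠ 0 ∧ (y ≠ 0 → x ≠ 0) := by
  unfold CX.step at h
  simp only [shr1] at h
  have ha : (x.shiftRight 3).land 127 < 128 := by rw [land127]; omega
  generalize (x.shiftRight 3).land 127 = a at h ha
  have hy : x.shiftRight 10 ≠ 0 → x ≠ 0 := shr_ne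
  generalize x.shiftRight 10 = y at h hy
  rcases cond_ne' h with h | h
  · rcases cond_ne' h with h | h
    · rcases cond_ne' h with h | h
      · obtain ⟨hc, hr⟩ := cond_ne h
        simp only [Bool.and_eq_true, Bool.or_eq_true, Nat.ble_eq] at hc
        obtain ⟨hf, ⟨hg, h1, h2⟩, hn⟩ := hc
        refine ⟨_, y, ?_, hr, hy⟩
        have hl := g4_lt Q.lb a
        rw [setLb_abs _ _ (by rw [mx_eq]; omega), mx_eq, ← lb_slot]
        refine Step.lb2 _ _ hf (isG_abs hg).1 (isG_abs hg).2 ?_ ?_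
        · by_cases c : Q.n ≤ Q.z1
          · exact Or.inl c
          · exact Or.inr (excl_abs ha (by change Q.z1 < 64; omega) (h1.resolve_left c))
        · by_cases c : Q.n ≤ Q.z2
          · exact Or.inl c
          · exact Or.inr (excl_abs ha (by change Q.z2 < 64; omega) (h2.resolve_left c))
      · obtain ⟨hc, hr⟩ := cond_ne h
        simp only [Bool.and_eq_true, Nat.blt_eq, Bool.not_eq_true', nbeq_false] at hc
        obtain ⟨hf, hn, hg, h1, h2⟩ := hc
        refine ⟨_, y, ?_, hr, hy⟩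
        have hl := g4_lt Q.dlo a
        rw [raise_abs _ _ (by rw [mx_eq]; omega), mx_eq]
        exact Step.vlo a hf hn hg h1 h2
    · rcases cond_ne' h with h | h
      · obtain ⟨hc, hr⟩ := cond_ne h
        simp only [Bool.and_eq_true, Nat.blt_eq, Nat.ble_eq] at hc
        obtain ⟨hg, h1, h2⟩ := hc
        refine ⟨_, y, ?_, hr, hy⟩
        have hl := g4_lt Q.dep (g6 Q.inp a)
        rw [setDep_abs _ _ (by rw [mn_eq]; omega), mn_eq]
        have := Step.down (tag := tag) (Q := Q.abs) (a / 2) (decide (a % 2 = 1)) (isG_abs hg).1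
          (isG_abs hg).2 h1 (by rw [inp_slot]; exact h2)
        rw [inp_slot] at this
        exact this
      · obtain ⟨hc, hr⟩ := cond_ne h
        simp only [Bool.and_eq_true, Nat.blt_eq] at hc
        obtain ⟨hg, h1, h2⟩ := hc
        refine ⟨_, y, ?_, hr, hy⟩
        have hl := g4_lt Q.dep (a / 2)
        rw [setDep_abs _ _ (by rw [mn_eq]; omega), mn_eq, mx_eq]
        rw [← inp_slot] at h1
        rw [← inp_slot_not] at h2
        rw [← inp_slot Q a, ← inp_slot_not Q a]
        cases e : decide (a % 2 = 1)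
        · rw [e] at h1 h2
          exact Step.up (tag := tag) (Q := Q.abs) (a / 2) (isG_abs hg).1 (isG_abs hg).2 h1 h2
        · rw [e] at h1 h2
          rw [max_comm]
          exact Step.up (tag := tag) (Q := Q.abs) (a / 2) (isG_abs hg).1 (isG_abs hg).2 h2 h1
  · rcases cond_ne' h with h | h
    · rcases cond_ne' h with h | h
      · obtain ⟨hc, hr⟩ := cond_ne h
        simp only [Bool.and_eq_true] at hc
        obtain ⟨hg, h1⟩ := hc
        refine ⟨_, y, ?_, hr, hy⟩
        rw [setLb_abs _ _ (by omega)]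
        exact Step.lb9 _ _ (isG_abs hg).1 (isG_abs hg).2 (by rw [inp_slot_not]; exact dgn_abs h1)
      · obtain ⟨hc, hr⟩ := cond_ne h
        simp only [Bool.and_eq_true, Nat.blt_eq] at hc
        obtain ⟨hg, h1⟩ := hc
        refine ⟨_, y, ?_, hr, hy⟩
        rw [setLb_abs _ _ (by rw [mn_eq, cond_eq_ite']; split_ifs <;> omega), mn_eq, cond_eq_ite']
        have := Step.lbr (tag := tag) (Q := Q.abs) (a / 2) (decide (a % 2 = 1)) (isG_abs hg).1
          (isG_abs hg).2 (by rw [inp_slot]; exact h1)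
        rw [inp_slot] at this
        exact this
    · rcases cond_ne' h with h | h
      · obtain ⟨hc, hr⟩ := cond_ne h
        simp only [Bool.and_eq_true, Nat.blt_eq] at hc
        obtain ⟨hg, h1⟩ := hc
        refine ⟨_, y, ?_, hr, hy⟩
        rw [joinCn_abs]
        have := Step.cn (tag := tag) (Q := Q.abs) (a / 2) (decide (a % 2 = 1)) (isG_abs hg).1
          (isG_abs hg).2 (by rw [inp_slot]; exact h1)
        rw [inp_slot] at this
        exact this
      · obtain ⟨hc, hr⟩ := cond_ne h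
        simp only [Bool.and_eq_true, Bool.or_eq_true, Nat.beq_eq, Bool.not_eq_true',
          nbeq_false] at hc
        refine ⟨_, _, ?_, hr, fun e => hy (shr_ne e)⟩
        rw [setFull_abs]
        refine Step.full _ _ ?_
        rcases hc with h0 | ⟨h1, h2 | ⟨h2, h3, h4⟩⟩
        · exact Or.inl h0
        · exact Or.inr (Or.inl ⟨h2, dgn_abs h1⟩)
        · exact Or.inr (Or.inr ⟨h2, dgn_abs h1, dgn_abs h3, h4⟩)

theorem steps_sound {k : CX → ℕ → ℕ} (hk : ∀ Q x, k Q x ≠ 0 → HoldsX tag Q.abs) (m : ℕ) (Q : CX)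
    (x : ℕ) (h : CX.steps tag k m Q x ≠ 0) : HoldsX tag Q.abs := by
  induction m generalizing Q x with
  | zero => exact hk Q x h
  | succ m ih =>
    obtain ⟨Q', y, h1, h2, -⟩ := step_abs (r := CX.steps tag k m) h
    exact holdsX_step h1 (ih Q' y h2)

theorem steps_ne {k : CX → ℕ → ℕ} (hk : ∀ Q x, k Q x ≠ 0 → x ≠ 0) (m : ℕ) (Q : CX)
    (x : ℕ) (h : CX.steps tag k m Q x ≠ 0) : x ≠ 0 := by
  induction m generalizing Q x with
  | zero => exact hk Q x h
  | succ m ih =>
    obtain ⟨Q', y, -, h2, h3⟩ := step_abs (r := CX.steps tag k m) h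
    exact h3 (ih Q' y h2)

theorem bad_sound {Q : CX} {c a : ℕ} (h : Q.bad c a = true) : Bad Q.abs := by
  unfold CX.bad at h
  simp only [shr1] at h
  rcases cond_or h with h | h
  · rcases cond_or h with h | h
    · simp only [Bool.and_eq_true, Nat.beq_eq] at h
      exact Bad.dep0 a (isG_abs h.1).1 (isG_abs h.1).2 h.2
    · simp only [Bool.and_eq_true, Nat.blt_eq, Nat.ble_eq] at h
      exact Bad.outE h.1 h.2
  · rcases cond_or h with h | h
    · simp only [Bool.and_eq_true, Nat.blt_eq, Nat.ble_eq, mul_eq', add_eq', land1] at h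
      have e : Q.abs.inp Q.abs.out (decide (a % 2 = 1)) = g6 Q.inp (Q.out * 2 + a % 2) := by
        change g6 Q.inp (2 * Q.out + _) = _
        congr 1
        by_cases c : a % 2 = 1 <;> simp [c] <;> omega
      exact Bad.outI (decide (a % 2 = 1)) (isG_abs h.1).1 (isG_abs h.1).2 (by rw [e]; exact h.2.1)
        (by rw [e]; exact h.2.2)
    · rcases cond_or h with h | h
      · simp only [Bool.and_eq_true, Bool.or_eq_true, Nat.blt_eq, Nat.ble_eq] at h
        exact Bad.sel (a / 2) (decide (a % 2 = 1)) (isG_abs h.1).1 (isG_abs h.1).2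
          (by rw [inp_slot]; exact dgn_abs h.2.1) (by rw [inp_slot_not]; exact h.2.2)
      · simp only [Bool.and_eq_true, Bool.not_eq_true', nbeq_false] at h
        exact Bad.many a h.1 (dgn_abs h.2.1) h.2.2.1 h.2.2.2

namespace KA

theorem bit_ones {q : ℕ} (hq : q < 64) : bit 18446744073709551615 q = true := by
  have := bit_mask 64 q
  rw [decide_eq_true hq] at this
  exact this

theorem embUsed_spec (L : CP) (Q : CX) (z e k : ℕ)
    (h : embUsed L Q z e k ≠ 18446744073709551615) :
    (∀ u < k, embNode L Q z e u = true ∧ bit (embUsed L Q z e k) (g8 z u / 4) = true) ∧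
      ∀ u < k, ∀ v < u, g8 z v / 4 ≠ g8 z u / 4 := by
  induction k with
  | zero => exact ⟨fun u hu => absurd hu (by omega), fun u hu => absurd hu (by omega)⟩
  | succ k ih =>
    have e0 : embUsed L Q z e (k + 1) =
        cond (!bit (embUsed L Q z e k) ((g8 z k).shiftRight 2) && embNode L Q z e k)
          ((embUsed L Q z e k).lor (one ((g8 z k).shiftRight 2))) 18446744073709551615 := rfl
    rw [shr2] at e0
    have hq : g8 z k / 4 < 64 := by have := g8_lt z k; omega
    cases c : (!bit (embUsed L Q z e k) (g8 z k / 4) && embNode L Q z e k)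
    · rw [c] at e0
      exact absurd e0 h
    · rw [c, cond_true] at e0
      simp only [Bool.and_eq_true, Bool.not_eq_true'] at c
      have hne : embUsed L Q z e k ≠ 18446744073709551615 := fun e1 => by
        rw [e1, bit_ones hq] at c
        exact absurd c.1 (by simp)
      obtain ⟨i1, i2⟩ := ih hne
      refine ⟨fun u hu => ?_, fun u hu v hv => ?_⟩
      · rw [e0, bit_lor, bit_one]
        rcases Nat.lt_succ_iff_lt_or_eq.mp hu with hu | rfl
        · exact ⟨(i1 u hu).1, by rw [(i1 u hu).2]; rfl⟩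
        · exact ⟨c.2, by simp⟩
      · rcases Nat.lt_succ_iff_lt_or_eq.mp hu with hu | rfl
        · exact i2 u hu v hv
        · intro e1
          have := (i1 v hv).2
          rw [e1, c.1] at this
          exact absurd this (by simp)

theorem half_slot (b : ℕ) (i : Bool) :
    2 * (b / 4) + (i ^^ decide (b / 2 % 2 = 1)).toNat = (b / 2).xor i.toNat := by
  cases i
  · rw [Bool.toNat_false, xor0]
    by_cases c : b / 2 % 2 = 1 <;> simp [c] <;> omega
  · rw [Bool.toNat_true, xor1]
    by_cases c : b / 2 % 2 = 1 <;> simp [c] <;> omega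

theorem toNat_xor_mod (p : Bool) (b : ℕ) :
    p.toNat.xor (b % 2) = (p ^^ decide (b % 2 = 1)).toNat := by
  rcases Nat.mod_two_eq_zero_or_one b with c | c <;> rw [c] <;> cases p <;> rfl

theorem toNat_inj {p q : Bool} (h : p.toNat = q.toNat) : p = q := by
  revert h
  cases p <;> cases q <;> simp

theorem mod_toNat (b : ℕ) : b % 2 = (decide (b % 2 = 1)).toNat := by
  rcases Nat.mod_two_eq_zero_or_one b with c | c <;> rw [c] <;> rfl

theorem embSlot_spec {L : CP} {Q : CX} {z j jq b q : ℕ}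
    (h : embSlot L Q z j jq (b % 2) q = true) : g4 L.lb j ≤ g4 Q.lb jq ∧ (g6 L.inp j < L.n →
      g6 Q.inp jq = g8 z (g6 L.inp j) / 4 ∧
      bit Q.pol jq = (bit L.pol j ^^ decide (g8 z (g6 L.inp j) % 2 = 1)) ∧
      decide (b % 2 = 1) = bit Q.ng q) := by
  simp only [embSlot, Bool.and_eq_true, Nat.ble_eq, shr2, land1] at h
  refine ⟨h.1, fun hs => ?_⟩
  have h2 := h.2
  rw [← Nat.blt_eq] at hs
  rw [hs, cond_true] at h2
  simp only [Bool.and_eq_true, Nat.beq_eq, b1_eq] at h2
  refine ⟨h2.1, toNat_inj ?_, toNat_inj ?_⟩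
  · rw [h2.2.1, toNat_xor_mod]
  · rw [← h2.2.2, ← mod_toNat]

theorem sg_spec {s b e t : ℕ} (hs : s ≤ 1) (he : e ≤ 1) (h : t = (s.xor (b % 2)).xor e) :
    t ≤ 1 ∧ decide (t = 1) = (decide (s = 1) ^^ decide (b % 2 = 1) ^^ e.beq 1) := by
  subst h
  rcases Nat.mod_two_eq_zero_or_one b with c | c <;> rw [c] <;> interval_cases s <;>
    interval_cases e <;> decide

end KA

theorem emb_abs {L : CP} {Q : CX} {z e : ℕ} (he : e ≤ 1) (h : emb L Q z e = true) :
    Emb L.abs Q.abs (fun u => g8 z u / 4) (fun u => decide (g8 z u % 2 = 1))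
      (fun u => decide (g8 z u / 2 % 2 = 1)) (e.beq 1) := by
  simp only [emb, Bool.and_eq_true, Nat.blt_eq, allTo_iff, shr2] at h
  obtain ⟨h1, h2, h3⟩ := h
  obtain ⟨hN, hI⟩ := embUsed_spec L Q z e L.n h1.ne
  have hn : ∀ u < L.n, g8 z u / 4 < Q.n ∧ g4 L.dlo u ≤ g4 Q.dlo (g8 z u / 4) ∧
      g4 Q.dep (g8 z u / 4) ≤ g4 L.dep u ∧
      cond (bit L.dex u) (bit Q.dex (g8 z u / 4) && (g4 Q.dlo (g8 z u / 4)).ble (g4 L.dlo u))
        true = true ∧
      cond (u.blt L.G)
        (bit Q.gm (g8 z u / 4) && (embSlot L Q z (u * 2) (g8 z u / 2) (g8 z u % 2) (g8 z u / 4) &&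
          embSlot L Q z (u * 2 + 1) ((g8 z u / 2).xor 1) (g8 z u % 2) (g8 z u / 4)))
        (!bit Q.gm (g8 z u / 4) && cond ((g2 L.sg u).ble 1)
          ((g2 Q.sg (g8 z u / 4)).beq (((g2 L.sg u).xor (g8 z u % 2)).xor e)) true) = true := by
    intro u hu
    have := (hN u hu).1
    simp only [embNode, Bool.and_eq_true, Nat.blt_eq, Nat.ble_eq, shr1, shr2, land1, mul_eq',
      add_eq'] at this
    exact this
  have hg : ∀ u < L.n, u < L.G → bit Q.gm (g8 z u / 4) = true ∧ ∀ i : Bool,
      embSlot L Q z (2 * u + i.toNat)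
        (2 * (g8 z u / 4) + (i ^^ decide (g8 z u / 2 % 2 = 1)).toNat) (g8 z u % 2)
        (g8 z u / 4) = true := by
    intro u hu hG
    have := (hn u hu).2.2.2.2
    rw [← Nat.blt_eq] at hG
    rw [hG, cond_true] at this
    simp only [Bool.and_eq_true] at this
    refine ⟨this.1, fun i => ?_⟩
    rw [half_slot, mul_comm 2 u]
    cases i
    · rw [Bool.toNat_false, xor0]
      exact this.2.1
    · exact this.2.2
  have hv : ∀ u < L.n, ¬ u < L.G → bit Q.gm (g8 z u / 4) = false ∧ (g2 L.sg u ≤ 1 →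
      g2 Q.sg (g8 z u / 4) = ((g2 L.sg u).xor (g8 z u % 2)).xor e) := by
    intro u hu hG
    have := (hn u hu).2.2.2.2
    rw [← Nat.blt_eq, Bool.not_eq_true] at hG
    rw [hG, cond_false] at this
    simp only [Bool.and_eq_true, Bool.not_eq_true'] at this
    refine ⟨this.1, fun hs => ?_⟩
    have h2 := this.2
    rw [← Nat.ble_eq] at hs
    rw [hs, cond_true] at h2
    exact Nat.eq_of_beq_eq_true h2
  refine ⟨fun u hu => (hn u hu).1, fun u hu v hv e => ?_, fun u hu => ?_,
    fun u hu => (hn u hu).2.1, fun u hu hd => ?_, fun u hu => (hn u hu).2.2.1,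
    fun u hu hG hs => ?_, fun g hgn hG i hi => ?_, fun g hgn hG i => ?_,
    fun g hgn hG i v hvn hnf => ?_, fun ho => ?_⟩
  · rcases lt_trichotomy u v with c | c | c
    · exact absurd e (hI v hv u c)
    · exact c
    · exact absurd e.symm (hI u hu v c)
  · change bit Q.gm (g8 z u / 4) = decide (u < L.G)
    by_cases c : u < L.G
    · rw [(hg u hu c).1, decide_eq_true c]
    · rw [(hv u hu c).1, decide_eq_false c]
  · have := (hn u hu).2.2.2.1
    have hd' : bit L.dex u = true := hd
    rw [hd', cond_true] at this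
    simp only [Bool.and_eq_true, Nat.ble_eq] at this
    exact this
  · have c : ¬ u < L.G := of_decide_eq_false hG
    exact sg_spec hs he ((hv u hu c).2 hs)
  · have c : g < L.G := of_decide_eq_true hG
    obtain ⟨a1, a2, a3⟩ := (embSlot_spec ((hg g hgn c).2 i)).2 hi
    exact ⟨a1, a2, a3.trans (Bool.false_xor _).symm⟩
  · have c : g < L.G := of_decide_eq_true hG
    exact (embSlot_spec ((hg g hgn c).2 i)).1
  · change bit (g64 L.nf (2 * g + i.toNat)) v = true at hnf
    rw [bit_g64, Bool.and_eq_true, CP.nf, bit_orTo] at hnf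
    obtain ⟨hv64, k, hk, hb⟩ := hnf
    have hv64 : v < 64 := of_decide_eq_true hv64
    rw [bit_one] at hb
    have hb : 64 * (2 * g + i.toNat) + v = g13 L.nfl k := of_decide_eq_true hb
    have := h2 k hk
    simp only [embNf, shr1, shr2, shr6, land1, land63] at this
    have e1 : g13 L.nfl k / 64 = 2 * g + i.toNat := by omega
    have e2 : g13 L.nfl k % 64 = v := by omega
    have e3 : (2 * g + i.toNat) % 2 = i.toNat := by cases i <;> simp
    rw [e1, e2, e3, slot_div, ← half_slot] at this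
    have b1 := g8_lt z g
    have b2 := g8_lt z v
    have b3 := Bool.toNat_le (i ^^ decide (g8 z g / 2 % 2 = 1))
    have := excl_abs (by omega) (by omega) this
    rw [slot_div, slot_mod] at this
    exact this
  · have ho' : L.out.blt L.n = true := by rw [Nat.blt_eq]; exact ho
    rw [ho', cond_true] at h3
    exact Nat.eq_of_beq_eq_true h3

theorem KA.term_sound {lim : ℕ} (hdb : ∀ i < lim, Lem db i) (tag : ℕ) :
    Snd tag (term db lim tag) := by
  intro Q x h
  unfold term at h
  rcases cond_ne' h with h | h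
  · obtain ⟨hc, hr⟩ := cond_ne h
    simp only [Bool.and_eq_true, Nat.blt_eq, Nat.ble_eq] at hc
    obtain ⟨h1, h2, h3⟩ := hc
    exact ⟨holdsX_emb (emb_abs (by rw [land1]; omega) h3) h2 (hdb _ h1),
      shr_ne (shr_ne (shr_ne hr))⟩
  · obtain ⟨hc, hr⟩ := cond_ne h
    exact ⟨holdsX_bad (bad_sound hc), shr_ne (shr_ne hr)⟩

theorem chk_sound {lim : ℕ} (hdb : ∀ i < lim, Lem db i) (tag : ℕ) : Snd tag (chk db lim tag) :=
  fun Q _ h => ⟨steps_sound (fun Q x h => (term_sound hdb tag Q x h).1) _ Q _ h,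
    shr_ne (steps_ne (fun Q x h => (term_sound hdb tag Q x h).2) _ Q _ h)⟩

namespace KA

theorem diag_lane : ∀ u < 64, g64 diag u = one u := by decide +kernel

theorem diag_eq {v k : ℕ} (hv : v < 64) (hk : k < 64) (h : bit diag (64 * v + k) = true) :
    k = v := by
  have := bit_g64 diag v k
  rw [h, diag_lane v hv, bit_one, decide_eq_true hk] at this
  exact of_decide_eq_true this

theorem load_succ (P : CP) (k : ℕ) : P.load (k + 1) =
    cond ((g6 P.inp k).blt P.n)
      (((P.load k).setLb k (cond (bit P.gm (g6 P.inp k)) 9 (mn (g4 P.dlo (g6 P.inp k)) 8))).joinCn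
        (k.shiftRight 1) (g6 P.inp k)) (P.load k) := by
  have e1 : P.lbF (k + 1) = cond ((g6 P.inp k).blt P.n)
    (s4 (P.lbF k) k (cond (bit P.gm (g6 P.inp k)) 9 (mn (g4 P.dlo (g6 P.inp k)) 8)))
    (P.lbF k) := rfl
  have e2 : P.cnF (k + 1) = cond ((g6 P.inp k).blt P.n)
    (s64 (P.cnF k) (k.shiftRight 1) ((g64 (P.cnF k) (k.shiftRight 1)).lor
      (g64 (P.cnF k) (g6 P.inp k)))) (P.cnF k) := rfl
  unfold CP.load
  rw [e1, e2]
  cases (g6 P.inp k).blt P.n <;> rfl

theorem load_down {P : CP} (hG : P.G ≤ P.n) (k : ℕ) (hk : k ≤ P.G * 2)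
    (h : HoldsX tag (P.load k).abs) : HoldsX tag (P.load 0).abs := by
  induction k with
  | zero => exact h
  | succ k ih =>
    refine ih (by omega) ?_
    rw [load_succ] at h
    cases c : (g6 P.inp k).blt P.n
    · rw [c] at h
      exact h
    · rw [c, cond_true, joinCn_abs, shr1,
        setLb_abs _ _ (by rw [mn_eq, cond_eq_ite']; split_ifs <;> omega), mn_eq,
        cond_eq_ite'] at h
      have hs : g6 P.inp k < P.n := by rw [← Nat.blt_eq]; exact c
      have hg1 : k / 2 < P.n := by omega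
      have hg2 : (P.load k).abs.gate (k / 2) = true := by
        change bit ((one P.G).sub 1) (k / 2) = true
        rw [bit_mask]
        exact decide_eq_true (by omega)
      have hi : (P.load k).abs.inp (k / 2) (decide (k % 2 = 1)) = g6 P.inp k := inp_slot _ k
      have s1 := Step.lbr (tag := tag) (Q := (P.load k).abs) (k / 2) (decide (k % 2 = 1)) hg1 hg2
        (by rw [hi]; exact hs)
      rw [hi] at s1
      refine holdsX_step s1 (holdsX_step (Step.cn (k / 2) (decide (k % 2 = 1)) hg1 hg2 ?_) ?_)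
      · exact hi.trans_lt hs
      · change HoldsX tag (AX.joinCn _ _ ((P.load k).abs.inp (k / 2) (decide (k % 2 = 1))))
        rw [hi]
        exact h

theorem kd_spec (o : ℕ) (f : ℕ → ℕ) (k : ℕ) (hk : k ≤ 200) (u : ℕ) :
    g8 (Nat.rec (one (o.mul 8)) (fun j a => a.add (one ((f j).mul 8))) k : ℕ) u =
      ((Finset.range k).filter fun j => f j = u).card + if o = u then 1 else 0 := by
  induction k generalizing u with
  | zero =>
    change g8 (one (o.mul 8)) u = _
    rw [g8_one]
    simp [upd, eq_comm]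
  | succ k ih =>
    have hlt : g8 (Nat.rec (one (o.mul 8)) (fun j a => a.add (one ((f j).mul 8))) k : ℕ) (f k)
        < 255 := by
      rw [ih (by omega)]
      have := Finset.card_filter_le (Finset.range k) fun j => f j = f k
      rw [Finset.card_range] at this
      split_ifs <;> omega
    change g8 (Nat.add _ _) u = _
    rw [g8_add_one hlt, Finset.range_add_one, Finset.filter_insert]
    simp only [upd]
    by_cases c : u = f k
    · subst c
      rw [if_pos rfl, if_pos rfl, ih (by omega), Finset.card_insert_of_notMem (by simp)]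
      omega
    · rw [if_neg c, if_neg (fun e => c e.symm), ih (by omega)]

theorem card_slots (n G : ℕ) (hG : G ≤ n) (f : ℕ → ℕ) (u : ℕ) :
    ((Finset.range (G * 2)).filter fun j => f j = u).card =
      ((Finset.range n ×ˢ (Finset.univ : Finset Bool)).filter
        fun w => decide (w.1 < G) = true ∧ f (2 * w.1 + w.2.toNat) = u).card := by
  refine Finset.card_bij' (fun j _ => (j / 2, decide (j % 2 = 1)))
    (fun w _ => 2 * w.1 + w.2.toNat) (fun j hj => ?_) (fun w hw => ?_) (fun j _ => slot j)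
    (fun w _ => Prod.ext (slot_div _ _) (slot_mod _ _))
  · simp only [Finset.mem_filter, Finset.mem_range, Finset.mem_product, Finset.mem_univ, and_true,
      decide_eq_true_eq, slot] at hj ⊢
    exact ⟨by omega, by omega, hj.2⟩
  · simp only [Finset.mem_filter, Finset.mem_range, Finset.mem_product, Finset.mem_univ, and_true,
      decide_eq_true_eq] at hw ⊢
    have := Bool.toNat_le w.2
    exact ⟨by omega, hw.2.2⟩

theorem load_zero (P : CP) : (P.load 0).abs.toAP = P.abs := by
  have e1 : bit P.gm = fun u => decide (u < P.G) := funext fun u => bit_mask P.G u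
  have e2 : bit 0 = fun _ => false := funext bit_zero
  simp only [CP.load, CX.abs, CP.abs, e1, e2]
  rfl

end KA

theorem load_sound {P : CP} (hn : P.n ≤ 63) (hw : P.wf = true)
    (h : HoldsX tag (P.load (P.G.mul 2)).abs) : Holds tag P.abs := by
  simp only [CP.wf, Bool.and_eq_true, Bool.or_eq_true, Nat.ble_eq, Nat.blt_eq, Nat.beq_eq,
    allTo_iff, mul_eq', land63] at hw
  obtain ⟨hG, ho, hi, hf⟩ := hw
  have h0 := load_down hG _ le_rfl h
  have hgate : ∀ u, (P.load 0).abs.gate u = decide (u < P.G) := fun u => bit_mask P.G u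
  rw [← load_zero]
  refine holds_of_load hn (fun g _ hg i => ?_) ho (fun u _ => ?_) (fun g _ i v hv => ?_)
    (fun v hv k hc => ?_) rfl h0
  · rw [hgate] at hg
    have hg : g < P.G := of_decide_eq_true hg
    have := Bool.toNat_le i
    exact hi (2 * g + i.toNat) (by omega)
  · rw [load_zero]
    change g8 P.kd u = _
    unfold CP.kd AP.kdS
    rw [kd_spec _ _ _ (by rw [mul_eq']; omega), mul_eq', card_slots P.n P.G hG]
    rfl
  · change bit (g64 P.nf (2 * g + i.toNat)) v = false
    have hv' : P.n ≤ v := hv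
    rw [← Bool.not_eq_true, bit_g64, Bool.and_eq_true, CP.nf, bit_orTo]
    rintro ⟨hv64, k, hk, hb⟩
    have hv64 : v < 64 := of_decide_eq_true hv64
    rw [bit_one] at hb
    have hb : 64 * (2 * g + i.toNat) + v = g13 P.nfl k := of_decide_eq_true hb
    have := hf k hk
    omega
  · change bit (g64 (diag.land ((one (P.G.mul 64)).sub 1)) v) k = true at hc
    have hv' : v < P.n := hv
    rw [bit_g64, bit_land, bit_mask, mul_eq'] at hc
    simp only [Bool.and_eq_true, decide_eq_true_eq] at hc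
    obtain ⟨h1, h2, h3⟩ := hc
    rw [hgate]
    exact ⟨decide_eq_true (by omega), diag_eq (by omega) h1 h2⟩

end Pool.Agent.Lib.MP_79d702_lc.U2
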