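import Pool.Agent.Lib.MP_79d702_lc.U2.PatA
import Pool.Agent.Lib.MP_79d702_lc.U2.CircB

/-!
Refinements of a match and case distinctions.
-/

namespace Pool.Agent.Lib.MP_79d702_lc.U2

variable {s : FS} {C : Ckt} {V : (ℕ → Bool) → ℕ → Bool} {Q : AX} {E : Asg} {tag : ℕ}

namespace PB

theorem upd_self {α : Type} (f : ℕ → α) (u : ℕ) (v : α) : upd f u v u = v := if_pos rfl

theorem upd_ne {α : Type} (f : ℕ → α) {u w : ℕ} (v : α) (h : w ≠ u) : upd f u v w = f w :=
  if_neg h

theorem upd_lt {α : Type} (f : ℕ → α) {u w : ℕ} (v : α) (h : w < u) : upd f u v w = f w :=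
  if_neg h.ne

theorem upd2_self {α : Type} (f : ℕ → Bool → α) (g : ℕ) (i : Bool) (v : α) :
    upd2 f g i v g i = v := if_pos ⟨rfl, rfl⟩

theorem upd2_ne {α : Type} (f : ℕ → Bool → α) {g h : ℕ} {i j : Bool} (v : α)
    (e : ¬ (h = g ∧ j = i)) : upd2 f g i v h j = f h j := if_neg e

theorem flag (M : MatchX Q s C E) {h : ℕ} (hh : h < Q.n) (hg : Q.gate h = true) :
    Q.Flag h (E.fl h) := by
  by_cases h0 : Q.inp h false < Q.n
  · exact Or.inr (M.flg h hh hg _ h0)
  by_cases h1 : Q.inp h true < Q.n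
  · exact Or.inr (M.flg h hh hg _ h1)
  exact Or.inl ⟨not_lt.1 h0, not_lt.1 h1⟩

theorem kdS_new (Q : AX) (hn : Q.n < 63) (k : Bool) {u : ℕ} (hu : u < Q.n + 1) :
    (Q.new k).toAP.kdS u = Q.toAP.kdS u := by
  unfold AP.kdS
  congr 2
  ext ⟨g, i⟩
  simp only [AX.new, Finset.mem_filter, Finset.mem_product, Finset.mem_range, Finset.mem_univ,
    and_true]
  constructor
  · rintro ⟨h1, h2, h3⟩
    by_cases e : g = Q.n
    · subst e
      rw [upd_self] at h3
      omega
    · rw [upd_ne _ _ e] at h2 h3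
      exact ⟨by omega, h2, h3⟩
  · rintro ⟨h1, h2, h3⟩
    rw [upd_lt _ _ h1, upd_lt _ _ h1]
    exact ⟨by omega, h2, h3⟩

end PB

open PB

theorem MatchX.new (K : Ctx s C V) (M : MatchX Q s C E) (hn : Q.n < 63) {k : Bool} {w : ℕ}
    (hw : if k then w ∈ C.G else w ∈ s.X) (hf : ∀ u < Q.n, E.φ u ≠ w) (f b : Bool) :
    MatchX (Q.new k) s C ⟨upd E.φ Q.n w, upd E.fl Q.n f, upd E.sw Q.n b, E.ε⟩ := by
  have cs : ∀ u, u < (Q.new k).n → u < Q.n ∨ u = Q.n := fun u hu => Nat.lt_succ_iff_lt_or_eq.1 hu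
  have known : ∀ g < Q.n, Q.gate g = true → ∀ i, Q.inp g i < Q.n + 1 → Q.inp g i < Q.n :=
    fun g hg hk i hi => by
      rcases M.wfi g hg hk i with h | h <;> omega
  refine ⟨⟨fun u hu v hv h => ?_, fun u hu h => ?_, fun u hu h => ?_, fun g hg h i hi => ?_,
    fun g hg h i hi => ?_, fun u hu => ?_, fun u hu h => ?_, fun u hu h => ?_,
    fun u hu h h' => ?_, fun g hg h i hi => ?_, fun g hg h i v hv h' => ?_, fun h => ?_⟩,
    hn, fun g hg h i => ?_, ?_, fun u hu => ?_, fun g hg i v hv => ?_, fun g hg v hv => ?_,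
    fun v hv h hh h' => ?_, fun h x hx hd => ?_⟩
  · rcases cs u hu with hu | rfl <;> rcases cs v hv with hv | rfl
    · simp only [upd_lt _ _ hu, upd_lt _ _ hv] at h
      exact M.inj u hu v hv h
    · simp only [upd_lt _ _ hu, upd_self] at h
      exact absurd h (hf u hu)
    · simp only [upd_lt _ _ hv, upd_self] at h
      exact absurd h.symm (hf v hv)
    · rfl
  · rcases cs u hu with hu | rfl
    · simp only [AX.new, upd_lt _ _ hu] at h ⊢
      exact M.var u hu h
    · simp only [AX.new, upd_self] at h ⊢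
      simpa [h] using hw
  · rcases cs u hu with hu | rfl
    · simp only [AX.new, upd_lt _ _ hu] at h ⊢
      exact M.gat u hu h
    · simp only [AX.new, upd_self] at h ⊢
      simpa [h] using hw
  · rcases cs g hg with hg | rfl
    · simp only [AX.new, upd_lt _ _ hg] at h hi ⊢
      have h1 := known g hg h i hi
      simp only [upd_lt _ _ h1]
      exact M.wire g hg h i h1
    · simp only [AX.new, upd_self] at hi
      omega
  · rcases cs g hg with hg | rfl
    · simp only [AX.new, upd_lt _ _ hg] at h hi ⊢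
      exact M.flg g hg h i (known g hg h i hi)
    · simp only [AX.new, upd_self] at hi
      omega
  · rcases cs u hu with hu | rfl
    · simp only [AX.new, upd_lt _ _ hu]
      exact M.dlo u hu
    · simp only [AX.new, upd_self]
      cases k
      · have hb := K.big
        exact var_deg_pos K.model (K.p1 s Reach.refl) (by omega) (by simpa using hw)
      · exact K.live w (by simpa using hw)
  · rcases cs u hu with hu | rfl
    · simp only [AX.new, upd_lt _ _ hu] at h ⊢
      exact M.dex u hu h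
    · simp [AX.new, upd_self] at h
  · rcases cs u hu with hu | rfl
    · simp only [AX.new, upd_lt _ _ hu] at h ⊢
      exact M.dep u hu h
    · simp only [AX.new, upd_self] at h ⊢
      cases k
      · exact Early.base (K.model.dis w (by simpa using hw))
      · simp at h
  · rcases cs u hu with hu | rfl
    · simp only [AX.new, upd_lt _ _ hu] at h h' ⊢
      exact M.sg u hu h h'
    · simp [AX.new, upd_self] at h'
  · rcases cs g hg with hg | rfl
    · simp only [AX.new, Asg.src, upd_lt _ _ hg] at h hi ⊢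
      exact M.lb g hg h i hi
    · simp only [AX.new, Asg.src, upd_self] at h hi ⊢
      exact ⟨deg_pos_of_inp (by simpa [h] using hw) _, by norm_num⟩
  · rcases cs g hg with hg | rfl
    · simp only [AX.new, Asg.src, upd_lt _ _ hg] at h h' ⊢
      rcases cs v hv with hv | rfl
      · simp only [upd_lt _ _ hv]
        exact M.nf g hg h i v hv h'
      · rw [M.nfw g hg i _ le_rfl] at h'
        exact absurd h' (by simp)
    · simp [AX.new, upd_self] at h'
  · have h1 : Q.out < Q.n := by
      have h2 : Q.out < Q.n + 1 := h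
      rcases M.wfo with h | h <;> omega
    simp only [AX.new, upd_lt _ _ h1]
    exact M.out h1
  · rcases cs g hg with hg | rfl
    · simp only [AX.new, upd_lt _ _ hg] at h ⊢
      exact (M.wfi g hg h i).imp_left Nat.lt_succ_of_lt
    · simp [AX.new, upd_self]
  · exact M.wfo.imp_left Nat.lt_succ_of_lt
  · rw [kdS_new Q hn k hu]
    rcases cs u hu with hu | rfl
    · simp only [AX.new, upd_lt _ _ hu]
      exact M.kd u hu
    · simp only [AX.new, upd_self]
      unfold AP.kdS
      have h1 : Q.out ≠ Q.n := by rcases M.wfo with h | h <;> omega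
      rw [if_neg h1, add_zero, eq_comm, Finset.card_eq_zero, Finset.filter_eq_empty_iff]
      rintro ⟨g, i⟩ hg ⟨h2, h3⟩
      simp only [Finset.mem_product, Finset.mem_range] at hg
      rcases M.wfi g hg.1 h2 i with h | h <;> simp only at h3 <;> omega
  · have hv' : Q.n + 1 ≤ v := hv
    rcases cs g hg with hg | rfl
    · simp only [AX.new, upd_lt _ _ hg]
      exact M.nfw g hg i v (by omega)
    · simp [AX.new, upd_self]
  · have hv' : Q.n + 1 ≤ v := hv
    rcases cs g hg with hg | rfl
    · simp only [AX.new, upd_lt _ _ hg]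
      exact M.cnw g hg v (by omega)
    · have : v ≠ Q.n := by omega
      simp [AX.new, upd_self, this]
  · rcases cs v hv with hv | rfl
    · simp only [AX.new, upd_lt _ _ hv] at h' ⊢
      rcases cs h hh with hh | rfl
      · simp only [upd_lt _ _ hh]
        exact M.cn v hv h hh h'
      · rw [M.cnw v hv _ le_rfl] at h'
        exact absurd h' (by simp)
    · simp only [AX.new, upd_self, Bool.and_eq_true, decide_eq_true_eq] at h' ⊢
      obtain ⟨h1, rfl⟩ := h'
      rw [upd_self]
      exact ⟨by simpa [h1] using hw, le_rfl⟩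
  · refine (M.full h x hx hd).imp (fun h => ?_) fun h => ?_
    · exact ⟨Nat.lt_succ_of_lt h.1, (upd_lt _ _ h.1).trans h.2⟩
    · exact ⟨Nat.lt_succ_of_lt h.1, (upd_lt _ _ h.1).trans h.2⟩

namespace PB

theorem kdS_conn (Q : AX) {u h : ℕ} {i o p : Bool} (hh : h < Q.n) (hg : Q.gate h = true)
    (hi : Q.n ≤ Q.inp h i) {v : ℕ} (hv : v < Q.n) :
    (Q.conn u h i o p).toAP.kdS v = Q.toAP.kdS v + if v = u then 1 else 0 := by
  unfold AP.kdS
  have key : ((Finset.range Q.n ×ˢ (Finset.univ : Finset Bool)).filter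
      fun w => Q.gate w.1 = true ∧ upd2 Q.inp h i u w.1 w.2 = v).card =
      ((Finset.range Q.n ×ˢ (Finset.univ : Finset Bool)).filter
        fun w => Q.gate w.1 = true ∧ Q.inp w.1 w.2 = v).card + if v = u then 1 else 0 := by
    split_ifs with e
    · subst e
      rw [← Finset.card_insert_of_notMem (a := (h, i))]
      · congr 1
        ext ⟨g, j⟩
        simp only [Finset.mem_filter, Finset.mem_product, Finset.mem_range, Finset.mem_univ,
          and_true, Finset.mem_insert, Prod.mk.injEq]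
        by_cases e : g = h ∧ j = i
        · obtain ⟨rfl, rfl⟩ := e
          simp [upd2_self, hh, hg]
        · simp [upd2_ne _ _ e, e]
      · simp only [Finset.mem_filter, not_and]
        intro _ _
        omega
    · rw [add_zero]
      congr 1
      ext ⟨g, j⟩
      simp only [Finset.mem_filter, Finset.mem_product, Finset.mem_range, Finset.mem_univ,
        and_true]
      by_cases e' : g = h ∧ j = i
      · obtain ⟨rfl, rfl⟩ := e'
        rw [upd2_self]
        constructor
        · rintro ⟨-, -, h3⟩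
          exact absurd h3.symm e
        · rintro ⟨-, -, h3⟩
          omega
      · rw [upd2_ne _ _ e']
  change _ + (if Q.out = v then 1 else 0) = _
  have := key
  simp only [AX.conn]
  omega

theorem conn0 (K : Ctx s C V) (M : MatchX Q s C E) {u h : ℕ} {i : Bool} (hu : u < Q.n)
    (hh : h < Q.n) (hg : Q.gate h = true) (hi : Q.n ≤ Q.inp h i) (hs : E.src C h i = E.φ u) :
    MatchX { Q.conn u h i (E.fl h) ((C.inp (E.φ h) (i ^^ E.sw h)).2 ^^ E.fl u) with
      dlo := Q.dlo, lb := Q.lb } s C E := by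
  refine ⟨⟨M.inj, M.var, M.gat, fun g hg' h' j hj => ?_, fun g hg' h' j hj => ?_, M.dlo, M.dex,
    M.dep, M.sg, M.lb, M.nf, M.out⟩, M.n63, fun g hg' h' j => ?_, M.wfo, fun v hv => ?_, M.nfw,
    fun g hg' v hv => ?_, fun v hv x hx h' => ?_, M.full⟩
  · by_cases e : g = h ∧ j = i
    · obtain ⟨rfl, rfl⟩ := e
      simp only [AX.conn, upd2_self]
      refine Prod.ext hs ?_
      simp
    · simp only [AX.conn, upd2_ne _ _ e] at hj ⊢
      exact M.wire g hg' h' j hj
  · by_cases e : g = h
    · subst e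
      simp only [AX.conn, upd_self]
    · have e' : ¬ (g = h ∧ j = i) := fun e' => e e'.1
      simp only [AX.conn, upd2_ne _ _ e', upd_ne _ _ e] at hj ⊢
      exact M.flg g hg' h' j hj
  · by_cases e : g = h ∧ j = i
    · obtain ⟨rfl, rfl⟩ := e
      simp only [AX.conn, upd2_self]
      exact Or.inl hu
    · simp only [AX.conn, upd2_ne _ _ e]
      exact M.wfi g hg' h' j
  · have h1 := kdS_conn Q (u := u) (o := E.fl h)
      (p := (C.inp (E.φ h) (i ^^ E.sw h)).2 ^^ E.fl u) hh hg hi hv
    refine Eq.trans ?_ h1.symm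
    rw [← M.kd v hv]
    by_cases e : v = u
    · subst e
      simp only [AX.conn, upd_self, if_true]
    · simp only [AX.conn, upd_ne _ _ e, if_neg e, add_zero]
  · by_cases e : g = h
    · subst e
      simp only [AX.conn, upd_self, M.cnw g hg' v hv, M.cnw u hu v hv, Bool.or_self]
    · simp only [AX.conn, upd_ne _ _ e]
      exact M.cnw g hg' v hv
  · by_cases e : v = h
    · subst e
      simp only [AX.conn, upd_self, Bool.or_eq_true] at h'
      rcases h' with h' | h'
      · exact M.cn v hv x hx h'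
      · obtain ⟨h1, h2⟩ := M.cn u hu x hx h'
        have h3 := K.model.rk (E.φ v) (M.gat v hv hg) (i ^^ E.sw v) (by
          rw [show (C.inp (E.φ v) (i ^^ E.sw v)).1 = E.φ u from hs]; exact h1)
        rw [show (C.inp (E.φ v) (i ^^ E.sw v)).1 = E.φ u from hs] at h3
        exact ⟨M.gat v hv hg, h2.trans h3.le⟩
    · simp only [AX.conn, upd_ne _ _ e] at h'
      exact M.cn v hv x hx h'

theorem cdeg_le (K : Ctx s C V) (M : MatchX Q s C E) {u h : ℕ} {i : Bool} (hu : u < Q.n)
    (hh : h < Q.n) (hg : Q.gate h = true) (hi : Q.n ≤ Q.inp h i) (hs : E.src C h i = E.φ u) :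
    Q.cdeg u h i ≤ C.deg (E.φ u) := by
  have h1 := (conn0 K M hu hh hg hi hs).kd_le (u := u) hu
  simp only [AX.conn, upd_self] at h1
  refine max_le (max_le (M.dlo u hu) h1) ?_
  split_ifs with e
  · exact Nat.zero_le _
  · have h2 := M.var u hu (by simpa using e)
    have h3 := (M.lb h hh hg i (hs ▸ h2)).1
    rwa [hs] at h3

end PB

theorem MatchX.conn (K : Ctx s C V) (M : MatchX Q s C E) {u h : ℕ} {i : Bool} (hu : u < Q.n)
    (hh : h < Q.n) (hg : Q.gate h = true) (hi : Q.n ≤ Q.inp h i) (hs : E.src C h i = E.φ u) :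
    Q.Flag h (E.fl h) ∧
      MatchX (Q.conn u h i (E.fl h) ((C.inp (E.φ h) (i ^^ E.sw h)).2 ^^ E.fl u)) s C E := by
  have M0 := conn0 K M hu hh hg hi hs
  have hc := cdeg_le K M hu hh hg hi hs
  refine ⟨flag M hh hg, ⟨M.inj, M.var, M.gat, M0.wire, M0.flg, fun v hv => ?_, fun v hv h' => ?_,
    M.dep, M.sg, fun g hg' h' j hj => ?_, M.nf, M.out⟩, M.n63, M0.wfi, M.wfo, M0.kd, M.nfw,
    M0.cnw, M0.cn, M.full⟩
  · by_cases e : v = u
    · subst e
      simpa only [AX.conn, upd_self] using hc
    · simp only [AX.conn, upd_ne _ _ e]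
      exact M.dlo v hv
  · by_cases e : v = u
    · subst e
      simp only [AX.conn, upd_self]
      exact (M.dex v hv h').trans ((le_max_left _ _).trans (le_max_left _ _))
    · simp only [AX.conn, upd_ne _ _ e]
      exact M.dex v hv h'
  · by_cases e : g = h ∧ j = i
    · obtain ⟨rfl, rfl⟩ := e
      simp only [AX.conn, upd2_self]
      rw [hs] at hj ⊢
      split_ifs with e
      · exact absurd (M.gat u hu e) (K.model.dis _ hj)
      · exact ⟨(min_le_left _ _).trans hc, (min_le_right _ _).trans_lt (by norm_num)⟩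
    · simp only [AX.conn, upd2_ne _ _ e]
      exact M.lb g hg' h' j hj

theorem MatchX.exact (M : MatchX Q s C E) {u d : ℕ} (hd : C.deg (E.φ u) = d) :
    MatchX (Q.exact u d) s C E := by
  refine ⟨⟨M.inj, M.var, M.gat, M.wire, M.flg, fun v hv => ?_, fun v hv h' => ?_,
    M.dep, M.sg, M.lb, M.nf, M.out⟩, M.n63, M.wfi, M.wfo, M.kd, M.nfw, M.cnw, M.cn, M.full⟩
  · by_cases e : v = u
    · subst e
      simpa only [AX.exact, upd_self] using hd.ge
    · simp only [AX.exact, upd_ne _ _ e]
      exact M.dlo v hv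
  · by_cases e : v = u
    · subst e
      simpa only [AX.exact, upd_self] using hd.le
    · simp only [AX.exact, upd_ne _ _ e] at h' ⊢
      exact M.dex v hv h'

theorem MatchX.raise (M : MatchX Q s C E) {u d : ℕ} (hd : d ≤ C.deg (E.φ u)) (h : Q.dlo u ≤ d) :
    MatchX (Q.raise u d) s C E := by
  refine ⟨⟨M.inj, M.var, M.gat, M.wire, M.flg, fun v hv => ?_, fun v hv h' => ?_,
    M.dep, M.sg, M.lb, M.nf, M.out⟩, M.n63, M.wfi, M.wfo, M.kd, M.nfw, M.cnw, M.cn, M.full⟩
  · by_cases e : v = u
    · subst e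
      simpa only [AX.raise, upd_self] using hd
    · simp only [AX.raise, upd_ne _ _ e]
      exact M.dlo v hv
  · by_cases e : v = u
    · subst e
      simpa only [AX.raise, upd_self] using (M.dex v hv h').trans h
    · simp only [AX.raise, upd_ne _ _ e]
      exact M.dex v hv h'

namespace PB

theorem setOut (M : MatchX Q s C E) {u : ℕ} (hu : u < Q.n) (ho : C.out.1 = E.φ u)
    (hn : Q.n ≤ Q.out) (hd : Q.kd u < C.deg (E.φ u)) : MatchX (Q.setOut u) s C E := by
  refine ⟨⟨M.inj, M.var, M.gat, M.wire, M.flg, fun v hv => ?_, fun v hv h' => ?_,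
    M.dep, M.sg, M.lb, M.nf, fun _ => ho⟩, M.n63, M.wfi, Or.inl hu, fun v hv => ?_, M.nfw,
    M.cnw, M.cn, M.full⟩
  · by_cases e : v = u
    · subst e
      simp only [AX.setOut, upd_self]
      exact max_le (M.dlo v hv) hd
    · simp only [AX.setOut, upd_ne _ _ e]
      exact M.dlo v hv
  · by_cases e : v = u
    · subst e
      simp only [AX.setOut, upd_self]
      exact (M.dex v hv h').trans (le_max_left _ _)
    · simp only [AX.setOut, upd_ne _ _ e]
      exact M.dex v hv h'
  · have hv' : v < Q.n := hv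
    have h1 := M.kd v hv
    unfold AP.kdS at h1 ⊢
    rw [if_neg (by omega : ¬ Q.out = v)] at h1
    by_cases e : v = u
    · subst e
      simp only [AX.setOut, upd_self, if_true]
      omega
    · simp only [AX.setOut, upd_ne _ _ e, if_neg (Ne.symm e)]
      exact h1

theorem src_node (K : Ctx s C V) (M : MatchX Q s C E) {g : ℕ} (hg : g < Q.n)
    (hk : Q.gate g = true) (i : Bool) : E.src C g i ∈ s.X ∨ E.src C g i ∈ C.G :=
  (K.model.src _ (M.gat g hg hk) _).resolve_left (K.nz _ (M.gat g hg hk) _)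

/-- the unknown input comes from a node outside the pattern -/
theorem new_src (K : Ctx s C V) (M : MatchX Q s C E) (hn : Q.n < 63) {g : ℕ} {i k : Bool}
    (hg : g < Q.n) (hk : Q.gate g = true) (hi : Q.n ≤ Q.inp g i)
    (hw : if k then E.src C g i ∈ C.G else E.src C g i ∈ s.X)
    (hf : ∀ u < Q.n, E.φ u ≠ E.src C g i) :
    ∃ E' : Asg, E'.φ Q.n = E.src C g i ∧
      MatchX ((Q.new k).conn Q.n g i (E.fl g) false) s C E' := by
  have M1 := M.new K hn hw hf (C.inp (E.φ g) (i ^^ E.sw g)).2 false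
  have h63 : Q.inp g i = 63 := by rcases M.wfi g hg hk i with h | h <;> omega
  have M2 := (M1.conn K (u := Q.n) (h := g) (i := i) (Nat.lt_succ_self _) (Nat.lt_succ_of_lt hg)
    (by simpa only [AX.new, upd_lt _ _ hg] using hk)
    (by simp only [AX.new, upd_lt _ _ hg]; omega)
    (by simp only [Asg.src, upd_lt _ _ hg, upd_self])).2
  simp only [upd_lt _ _ hg, upd_self, Bool.xor_self] at M2
  exact ⟨_, upd_self _ _ _, M2⟩

end PB

theorem exp0 {u : ℕ} (hu : u < Q.n) (hn : Q.n < 63)
    (h1 : Q.dlo u ≤ Q.kd u → HoldsX tag (Q.exact u (Q.kd u)))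
    (h2 : Q.gate u = true → Q.n ≤ Q.out → HoldsX tag (Q.setOut u))
    (h3 : ∀ p, HoldsX tag ((Q.new true).conn u Q.n false false p))
    (h4 : ∀ h < Q.n, Q.gate h = true → ∀ i, Q.n ≤ Q.inp h i →
      Q.Excl h i u ∨ ∀ o p, Q.Flag h o → HoldsX tag (Q.conn u h i o p)) : HoldsX tag Q := by
  intro s C V E K T M
  rcases (M.kd_le hu).eq_or_lt with e | hlt
  · exact h1 (e ▸ M.dlo u hu) s C V E K T (M.exact e.symm)
  rcases M.more K hu hlt with ⟨ho, hno⟩ | ⟨g, hg, j, hj, hall⟩
  · have hgate : Q.gate u = true := by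
      by_contra hc
      have hx := M.var u hu (by simpa using hc)
      have hb := K.big
      refine out_late K.model (K.p1 s Reach.refl) (by omega) ?_
      rw [ho]
      exact (Dep.var K.model hx).mono (Nat.zero_le _)
    exact h2 hgate hno s C V E K T (setOut M hu ho hno hlt)
  · by_cases hex : ∃ h < Q.n, E.φ h = g
    · obtain ⟨h, hh, rfl⟩ := hex
      obtain ⟨hk, hi⟩ := hall h hh rfl
      have hs : E.src C h (j ^^ E.sw h) = E.φ u := by
        simpa [Asg.src] using hj
      rcases h4 h hh hk _ hi with hx | hx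
      · exact absurd hs (excl_sound K M hh hk hu hx)
      · obtain ⟨hf, M'⟩ := M.conn K hu hh hk hi hs
        exact hx _ _ hf s C V E K T M'
    · have M1 := M.new K hn (k := true) (w := g) hg (fun h hh e => hex ⟨h, hh, e⟩) false j
      have M2 := (M1.conn K (u := u) (h := Q.n) (i := false) (Nat.lt_succ_of_lt hu)
        (Nat.lt_succ_self _) (by simp only [AX.new, upd_self])
        (by simp only [AX.new, upd_self]; omega)
        (by simpa only [Asg.src, upd_lt _ _ hu, upd_self, Bool.false_xor] using hj)).2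
      simp only [upd_self] at M2
      exact h3 _ s C V _ K T M2

theorem exp2 {g : ℕ} {i : Bool} (hg : g < Q.n) (hk : Q.gate g = true) (hi : Q.n ≤ Q.inp g i)
    (hn : Q.n < 63)
    (ha : Q.lb g i < 9 → ∀ o, Q.Flag g o → HoldsX tag ((Q.new false).conn Q.n g i o false))
    (hb : ∀ o, Q.Flag g o → HoldsX tag ((Q.new true).conn Q.n g i o false))
    (hc : ∀ v < Q.n, Q.Excl g i v ∨ ∀ o p, Q.Flag g o → HoldsX tag (Q.conn v g i o p)) :
    HoldsX tag Q := by
  intro s C V E K T M
  by_cases hex : ∃ v < Q.n, E.φ v = E.src C g i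
  · obtain ⟨v, hv, e⟩ := hex
    rcases hc v hv with hx | hx
    · exact absurd e.symm (excl_sound K M hg hk hv hx)
    · obtain ⟨hf, M'⟩ := M.conn K hv hg hk hi e.symm
      exact hx _ _ hf s C V E K T M'
  have hf : ∀ u < Q.n, E.φ u ≠ E.src C g i := fun u hu e => hex ⟨u, hu, e⟩
  rcases src_node K M hg hk i with hw | hw
  · obtain ⟨E', -, M'⟩ := new_src K M hn (k := false) hg hk hi hw hf
    exact ha (M.lb g hg hk i hw).2 _ (flag M hg hk) s C V E' K T M'
  · obtain ⟨E', -, M'⟩ := new_src K M hn (k := true) hg hk hi hw hf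
    exact hb _ (flag M hg hk) s C V E' K T M'

theorem exp3 {g : ℕ} {i : Bool} (hg : g < Q.n) (hk : Q.gate g = true) (hi : Q.n ≤ Q.inp g i)
    (hn : Q.n < 63) (hl : Q.lb g i < 8) (ha : HoldsX tag (Q.setLb g i (Q.lb g i + 1)))
    (hb : ∀ o, Q.Flag g o →
      HoldsX tag (((Q.new false).conn Q.n g i o false).exact Q.n (Q.lb g i)))
    (hc : ∀ v < Q.n, Q.gate v = false → Q.Excl g i v ∨ Q.lb g i < Q.cdeg v g i ∨
      ∀ o p, Q.Flag g o → HoldsX tag ((Q.conn v g i o p).exact v (Q.lb g i))) :
    HoldsX tag Q := by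
  intro s C V E K T M
  by_cases hbig : E.src C g i ∈ s.X → Q.lb g i + 1 ≤ C.deg (E.src C g i)
  · refine ha s C V E K T ⟨⟨M.inj, M.var, M.gat, M.wire, M.flg, M.dlo, M.dex, M.dep, M.sg,
      fun h hh hk' j hj => ?_, M.nf, M.out⟩, M.n63, M.wfi, M.wfo, M.kd, M.nfw, M.cnw, M.cn,
      M.full⟩
    by_cases e : h = g ∧ j = i
    · obtain ⟨rfl, rfl⟩ := e
      simp only [AX.setLb, upd2_self]
      exact ⟨hbig hj, by omega⟩
    · simp only [AX.setLb, upd2_ne _ _ e]
      exact M.lb h hh hk' j hj
  obtain ⟨hw, hlt⟩ := Classical.not_imp.1 hbig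
  have hd : C.deg (E.src C g i) = Q.lb g i := by
    have := (M.lb g hg hk i hw).1
    omega
  by_cases hex : ∃ v < Q.n, E.φ v = E.src C g i
  · obtain ⟨v, hv, e⟩ := hex
    have hgv : Q.gate v = false := by
      by_contra hc
      exact K.model.dis _ hw (e ▸ M.gat v hv (by simpa using hc))
    rcases hc v hv hgv with hx | hx | hx
    · exact absurd e.symm (excl_sound K M hg hk hv hx)
    · have := cdeg_le K M hv hg hk hi e.symm
      rw [e] at this
      omega
    · obtain ⟨hf, M'⟩ := M.conn K hv hg hk hi e.symm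
      exact hx _ _ hf s C V E K T (M'.exact (e ▸ hd))
  · obtain ⟨E', e, M'⟩ := new_src K M hn (k := false) hg hk hi hw fun u hu e => hex ⟨u, hu, e⟩
    exact hb _ (flag M hg hk) s C V E' K T (M'.exact (e ▸ hd))

theorem exp4 {u : ℕ} (hu : u < Q.n) (ha : HoldsX tag (Q.exact u (Q.dlo u)))
    (hb : HoldsX tag (Q.raise u (Q.dlo u + 1))) : HoldsX tag Q := by
  intro s C V E K T M
  rcases (M.dlo u hu).eq_or_lt with e | hlt
  · exact ha s C V E K T (M.exact e.symm)
  · exact hb s C V E K T (M.raise hlt (Nat.le_succ _))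

theorem exp5 {u : ℕ} (ha : HoldsX tag (Q.setSg u 0)) (hb : HoldsX tag (Q.setSg u 1)) :
    HoldsX tag Q := by
  intro s C V E K T M
  have key : ∀ b : ℕ, s.sg (E.φ u) = (decide (b = 1) ^^ E.fl u ^^ E.ε) →
      MatchX (Q.setSg u b) s C E := fun b e => by
    refine ⟨⟨M.inj, M.var, M.gat, M.wire, M.flg, M.dlo, M.dex, M.dep, fun v hv h h' => ?_,
      M.lb, M.nf, M.out⟩, M.n63, M.wfi, M.wfo, M.kd, M.nfw, M.cnw, M.cn, M.full⟩
    by_cases e' : v = u
    · subst e'
      simpa only [AX.setSg, upd_self] using e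
    · simp only [AX.setSg, upd_ne _ _ e'] at h' ⊢
      exact M.sg v hv h h'
  by_cases e : s.sg (E.φ u) = (E.fl u ^^ E.ε)
  · exact ha s C V E K T (key 0 (by simpa using e))
  · refine hb s C V E K T (key 1 ?_)
    revert e
    cases s.sg (E.φ u) <;> cases E.fl u <;> cases E.ε <;> simp

theorem exp6 {z : ℕ} (hn : Q.n < 63) (hv : ∀ v < Q.n, Q.gate v = false → v ≠ z → 2 ≤ Q.dlo v)
    (ha : HoldsX (if z < Q.n then 1 else 0) Q) (hb : HoldsX tag ((Q.new false).exact Q.n 1)) :
    HoldsX tag Q := by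
  intro s C V E K T M
  by_cases hex : ∃ x ∈ Degen s C, ∀ u < Q.n, E.φ u ≠ x
  · obtain ⟨x, hx, hf⟩ := hex
    obtain ⟨hx1, hx2, -⟩ := Finset.mem_filter.1 hx
    have hb' := K.big
    have h1 := var_deg_pos K.model (K.p1 s Reach.refl) (by omega) hx1
    have M1 := M.new K hn (k := false) (w := x) hx1 hf false false
    exact hb s C V _ K T (M1.exact (by simp only [upd_self]; omega))
  · refine ha s C V E K ?_ M
    have key : ∀ x ∈ Degen s C, z < Q.n ∧ x = E.φ z := fun x hx => by
      by_contra hc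
      refine hex ⟨x, hx, fun u hu e => hc ?_⟩
      obtain ⟨hx1, hx2, -⟩ := Finset.mem_filter.1 hx
      have hgu : Q.gate u = false := by
        by_contra hc
        exact K.model.dis _ hx1 (e ▸ M.gat u hu (by simpa using hc))
      have huz : u = z := by
        by_contra hne
        have h1 := hv u hu hgu hne
        have h2 := M.dlo u hu
        rw [e] at h2
        omega
      exact ⟨huz ▸ hu, huz ▸ e.symm⟩
    split_ifs with hz
    · exact Finset.card_le_one.2 fun x hx y hy => (key x hx).2.trans (key y hy).2.symm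
    · rw [Nat.le_zero, Finset.card_eq_zero, Finset.eq_empty_iff_forall_notMem]
      exact fun x hx => hz (key x hx).1

theorem exp8 {g v : ℕ} {i : Bool} (hg : g < Q.n) (hk : Q.gate g = true) (hi : Q.n ≤ Q.inp g i)
    (hv : v < Q.n) (ha : HoldsX tag (Q.setNf g i v))
    (hb : Q.Excl g i v ∨ ∀ o p, Q.Flag g o → HoldsX tag (Q.conn v g i o p)) : HoldsX tag Q := by
  intro s C V E K T M
  by_cases e : E.src C g i = E.φ v
  · rcases hb with hx | hx
    · exact absurd e (excl_sound K M hg hk hv hx)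
    · obtain ⟨hf, M'⟩ := M.conn K hv hg hk hi e
      exact hx _ _ hf s C V E K T M'
  refine ha s C V E K T ⟨⟨M.inj, M.var, M.gat, M.wire, M.flg, M.dlo, M.dex, M.dep, M.sg,
    M.lb, fun h hh hk' j w hw h' => ?_, M.out⟩, M.n63, M.wfi, M.wfo, M.kd,
    fun h hh j w hw => ?_, M.cnw, M.cn, M.full⟩
  · by_cases e1 : h = g ∧ j = i
    · obtain ⟨rfl, rfl⟩ := e1
      simp only [AX.setNf, upd2_self] at h'
      by_cases e2 : w = v
      · exact e2 ▸ e
      · rw [upd_ne _ _ e2] at h'
        exact M.nf h hh hk' j w hw h'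
    · simp only [AX.setNf, upd2_ne _ _ e1] at h'
      exact M.nf h hh hk' j w hw h'
  · have hw' : Q.n ≤ w := hw
    by_cases e1 : h = g ∧ j = i
    · obtain ⟨rfl, rfl⟩ := e1
      simp only [AX.setNf, upd2_self, upd_ne _ _ (by omega : w ≠ v)]
      exact M.nfw h hh j w hw
    · simp only [AX.setNf, upd2_ne _ _ e1]
      exact M.nfw h hh j w hw

end Pool.Agent.Lib.MP_79d702_lc.U2
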