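import Pool.Agent.Lib.MP_79d702_lc.U2.ChkS
import Pool.Agent.Lib.MP_79d702_lc.U2.LanesA1
import Pool.Agent.Lib.MP_79d702_lc.U2.PatB

/-!
Soundness of the case distinctions of the checker.
-/

namespace Pool.Agent.Lib.MP_79d702_lc.U2

namespace ChkB

theorem slot_eq (j : ℕ) : 2 * (j / 2) + (decide (j % 2 = 1)).toNat = j := by
  by_cases h : j % 2 = 1
  · simp only [h, decide_true, Bool.toNat_true]; omega
  · simp only [h, decide_false, Bool.toNat_false]; omega

theorem slot_iff (g j : ℕ) (i : Bool) :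
    2 * g + i.toNat = j ↔ g = j / 2 ∧ i = decide (j % 2 = 1) := by
  cases i <;> simp only [Bool.toNat_true, Bool.toNat_false, false_eq_decide_iff,
    true_eq_decide_iff] <;> omega

theorem slot_half (g : ℕ) (i : Bool) : (2 * g + i.toNat) / 2 = g := by
  cases i <;> simp only [Bool.toNat_true, Bool.toNat_false] <;> omega

theorem slot_par (g : ℕ) (i : Bool) : decide ((2 * g + i.toNat) % 2 = 1) = i := by
  cases i <;> simp only [Bool.toNat_true, Bool.toNat_false, decide_eq_false_iff_not,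
    decide_eq_true_eq] <;> omega

theorem shr1 (j : ℕ) : j.shiftRight 1 = j / 2 := rfl

theorem xor1 (j : ℕ) : j.xor 1 = 2 * (j / 2) + (!decide (j % 2 = 1)).toNat := by
  change j ^^^ 1 = _
  by_cases h : j % 2 = 1
  · rw [Nat.xor_one_of_odd (Nat.odd_iff.mpr h)]
    simp only [h, decide_true, Bool.not_true, Bool.toNat_false]; omega
  · rw [Nat.xor_one_of_even (Nat.even_iff.mpr (by omega))]
    simp only [h, decide_false, Bool.not_false, Bool.toNat_true]; omega

theorem toNat_beq (b : Bool) : b.toNat.beq 1 = b := by cases b <;> rfl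

theorem toNat_le (b : Bool) : b.toNat ≤ 1 := by cases b <;> simp

/-- an update of a slot array -/
theorem upd_slot {α : Type} (f : ℕ → α) (j : ℕ) (v : α) :
    (fun g (i : Bool) => upd f j v (2 * g + i.toNat)) =
      upd2 (fun g (i : Bool) => f (2 * g + i.toNat)) (j / 2) (decide (j % 2 = 1)) v := by
  funext g i
  unfold upd upd2
  simp only [slot_iff]

/-- an update of both slots of a gate -/
theorem upd_both {α : Type} (f : ℕ → α) (n : ℕ) (v : α) :
    (fun g (i : Bool) => upd (upd f (n.mul 2) v) ((n.mul 2).add 1) v (2 * g + i.toNat)) =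
      upd (fun g (i : Bool) => f (2 * g + i.toNat)) n fun _ => v := by
  funext g i
  have e : n.mul 2 = n * 2 := rfl
  have e' : (n * 2).add 1 = n * 2 + 1 := rfl
  rw [e, e']
  unfold upd
  by_cases h : g = n
  · subst h
    cases i
    · simp only [Bool.toNat_false, if_true]
      rw [if_neg (by omega), if_pos (by omega)]
    · simp only [Bool.toNat_true, if_true]
      rw [if_pos (by omega)]
  · have := toNat_le i
    rw [if_neg h, if_neg (by omega), if_neg (by omega)]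

theorem comp_upd {α β : Type} (F : α → β) (f : ℕ → α) (u : ℕ) (v : α) (w : ℕ) :
    F (upd f u v w) = upd (fun w => F (f w)) u (F v) w := by
  unfold upd
  split_ifs <;> rfl

theorem new_abs (Q : CX) (hn : Q.n < 63) (t : Bool) : (Q.new t.toNat).abs = Q.abs.new t := by
  have h1 : t.toNat.mul 15 < 16 := by cases t <;> decide
  have h2 : t.toNat.mul 15 = if t = true then 15 else 0 := by cases t <;> rfl
  have h3 : t.toNat.shiftLeft Q.n < 2 ^ 64 := by
    cases t
    · change 0 <<< Q.n < _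
      rw [Nat.zero_shiftLeft]; norm_num
    · change one Q.n < _
      rw [one_eq]
      exact Nat.pow_lt_pow_right (by norm_num) (by omega)
  have h4 : bit (t.toNat.shiftLeft Q.n) = fun h => t && decide (h = Q.n) := by
    funext h
    cases t
    · change bit (0 <<< Q.n) h = _
      rw [Nat.zero_shiftLeft, bit_zero]; rfl
    · change bit (one Q.n) h = _
      rw [bit_one]; rfl
  have h5 : bit 0 = fun _ => false := funext bit_zero
  have p64 : (0 : ℕ) < 2 ^ 64 := by norm_num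
  unfold CX.new CX.abs AX.new
  simp only
  rw [bit_sb _ _ (toNat_le t), toNat_beq, g4_s4 _ _ (by norm_num : 1 < 16),
    bit_sb _ _ (Nat.zero_le 1), g4_s4 _ _ h1, h2, g2_s2 _ _ (by norm_num : 2 < 4),
    bit_sb _ _ (Nat.zero_le 1), g6_s6 _ _ (by norm_num : 63 < 64),
    g6_s6 _ _ (by norm_num : 63 < 64), bit_sb _ _ (Nat.zero_le 1), bit_sb _ _ (Nat.zero_le 1),
    g4_s4 _ _ (by norm_num : 1 < 16), g4_s4 _ _ (by norm_num : 1 < 16),
    g64_s64 _ _ p64, g64_s64 _ _ p64, g8_s8 _ _ (by norm_num : 0 < 256), g64_s64 _ _ h3,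
    upd_both, upd_both, upd_both]
  congr 1
  · congr 1
    have := upd_both (g64 Q.nf) Q.n 0
    funext g i
    rw [congrFun (congrFun this g) i]
    unfold upd
    split_ifs
    · exact h5
    · rfl
  · funext v
    unfold upd
    split_ifs
    · exact h4
    · rfl

theorem cdeg_abs (Q : CX) (u j : ℕ) :
    Q.cdeg u j = Q.abs.cdeg u (j / 2) (decide (j % 2 = 1)) := by
  unfold CX.cdeg AX.cdeg CX.abs
  simp only [mx_eq, slot_eq]
  cases bit Q.gm u <;> rfl

theorem cdeg_lt (Q : CX) {u : ℕ} (j : ℕ) (hk : g8 Q.kd u < 15) : Q.cdeg u j < 16 := by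
  unfold CX.cdeg
  have h1 := g4_lt Q.dlo u
  have h2 := g4_lt Q.lb j
  have e : (g8 Q.kd u).add 1 = g8 Q.kd u + 1 := rfl
  rw [mx_eq, mx_eq, e]
  cases bit Q.gm u <;> simp only [cond_true, cond_false] <;> omega

theorem conn_abs (Q : CX) {u : ℕ} (hu : u < 64) (hk : g8 Q.kd u < 15) (j : ℕ) (o p : Bool) :
    (Q.conn u j o.toNat p.toNat).abs = Q.abs.conn u (j / 2) (decide (j % 2 = 1)) o p := by
  have h1 : (g8 Q.kd u).add 1 < 256 := by change g8 Q.kd u + 1 < 256; omega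
  have h2 := cdeg_lt Q j hk
  have h3 : cond (bit Q.gm u) 9 (mn (Q.cdeg u j) 8) < 16 := by
    rw [mn_eq]
    cases bit Q.gm u <;> simp only [cond_true, cond_false] <;> omega
  have h4 : (g64 Q.cn (j / 2)).lor (g64 Q.cn u) < 2 ^ 64 :=
    Nat.or_lt_two_pow (g64_lt _ _) (g64_lt _ _)
  have h5 : cond (bit Q.gm u) 9 (mn (Q.cdeg u j) 8) =
      if bit Q.gm u = true then 9 else min (Q.cdeg u j) 8 := by
    rw [mn_eq]
    cases bit Q.gm u <;> rfl
  unfold AX.conn
  rw [← cdeg_abs]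
  unfold CX.conn CX.abs
  simp only [shr1]
  rw [g6_s6 _ _ hu, bit_sb _ _ (toNat_le p), bit_sb _ _ (toNat_le o), toNat_beq, toNat_beq,
    g8_s8 _ _ h1, g4_s4 _ _ h2, g4_s4 _ _ h3, g64_s64 _ _ h4, upd_slot, upd_slot, upd_slot, h5]
  congr 1
  funext v
  unfold upd
  split_ifs
  · funext w
    exact bit_lor _ _ _
  · rfl

theorem exact_abs (Q : CX) (u : ℕ) {d : ℕ} (hd : d < 16) :
    (Q.exact u d).abs = Q.abs.exact u d := by
  unfold CX.exact CX.abs AX.exact
  simp only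
  rw [g4_s4 _ _ hd, bit_sb _ _ (le_refl 1)]
  rfl

theorem raise_abs (Q : CX) (u : ℕ) {d : ℕ} (hd : d < 16) :
    (Q.raise u d).abs = Q.abs.raise u d := by
  unfold CX.raise CX.abs AX.raise
  simp only
  rw [g4_s4 _ _ hd]

theorem setOut_abs (Q : CX) {u : ℕ} (hk : g8 Q.kd u < 15) :
    (Q.setOut u).abs = Q.abs.setOut u := by
  have e : (g8 Q.kd u).add 1 = g8 Q.kd u + 1 := rfl
  have h1 := g4_lt Q.dlo u
  unfold CX.setOut CX.abs AX.setOut
  simp only
  rw [mx_eq, e, g8_s8 _ _ (by omega), g4_s4 _ _ (by omega)]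

theorem setLb_abs (Q : CX) (j : ℕ) {l : ℕ} (hl : l < 16) :
    (Q.setLb j l).abs = Q.abs.setLb (j / 2) (decide (j % 2 = 1)) l := by
  unfold CX.setLb CX.abs AX.setLb
  simp only
  rw [g4_s4 _ _ hl, upd_slot]

theorem setSg_abs (Q : CX) (u : ℕ) {b : ℕ} (hb : b < 4) :
    (Q.setSg u b).abs = Q.abs.setSg u b := by
  unfold CX.setSg CX.abs AX.setSg
  simp only
  rw [g2_s2 _ _ hb]

theorem setNf_abs (Q : CX) (j : ℕ) {v : ℕ} (hv : v < 64) :
    (Q.setNf j v).abs = Q.abs.setNf (j / 2) (decide (j % 2 = 1)) v := by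
  have e : (j.mul 64).add v = j * 64 + v := rfl
  unfold CX.setNf CX.abs AX.setNf
  simp only [slot_eq]
  congr 2
  funext g i w
  unfold upd2 upd
  rw [bit_g64, bit_lor, bit_one, e]
  by_cases h : g = j / 2 ∧ i = decide (j % 2 = 1)
  · rw [if_pos h, (slot_iff g j i).mpr h]
    by_cases hw : w = v
    · subst hw
      have : 64 * j + w = j * 64 + w := by omega
      simp [hv, this]
    · have : ¬ 64 * j + w = j * 64 + v := by omega
      simp only [if_neg hw, this, decide_false, Bool.or_false, bit_g64]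
  · rw [if_neg h]
    change _ = bit (g64 Q.nf (2 * g + i.toNat)) w
    rw [bit_g64]
    have h' : 2 * g + i.toNat ≠ j := fun e => h ((slot_iff g j i).mp e)
    by_cases hw : w < 64
    · have : ¬ 64 * (2 * g + i.toNat) + w = j * 64 + v := by omega
      simp only [this, decide_false, Bool.or_false]
    · simp [hw]

theorem excl_ab {Q : CX} {j v : ℕ} (hj : j < 128) (hv : v < 64) (h : Q.excl j v = true) :
    Q.abs.Excl (j / 2) (decide (j % 2 = 1)) v := by
  have e1 : (j.mul 64).add v = 64 * j + v := by change j * 64 + v = _; omega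
  have e2 : (v.mul 64).add (j / 2) = 64 * v + j / 2 := by change v * 64 + j / 2 = _; omega
  have b1 : bit Q.nf (64 * j + v) = bit (g64 Q.nf j) v := by
    rw [bit_g64, decide_eq_true hv, Bool.true_and]
  have b2 : bit Q.cn (64 * v + j / 2) = bit (g64 Q.cn v) (j / 2) := by
    rw [bit_g64, decide_eq_true (by omega : j / 2 < 64), Bool.true_and]
  unfold CX.excl CX.dgn CX.closed at h
  simp only [shr1] at h
  rw [e1, e2, b1, b2] at h
  unfold AX.Excl AX.Closed AX.Dgn CX.abs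
  simp only [slot_eq, ← xor1]
  by_cases hs : g6 Q.inp j < Q.n
  · rw [Nat.blt_eq.mpr hs, cond_true] at h
    simp only [Bool.or_eq_true, Bool.and_eq_true, Nat.blt_eq, Nat.ble_eq, Nat.beq_eq,
      Bool.not_eq_true'] at h
    rcases h with h | h | h | h | ⟨⟨a, b, c, d⟩, e⟩ | h
    · exact Or.inl h
    · exact Or.inr (Or.inl ⟨hs, Nat.ne_of_beq_eq_false h⟩)
    · exact Or.inr (Or.inr (Or.inr (Or.inr (Or.inl h))))
    · exact Or.inr (Or.inr (Or.inr (Or.inl h)))
    · exact Or.inr (Or.inr (Or.inr (Or.inr (Or.inr (Or.inl ⟨⟨a, d, b, c⟩, e⟩)))))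
    · exact Or.inr (Or.inr (Or.inr (Or.inr (Or.inr (Or.inr h)))))
  · have hs' : (g6 Q.inp j).blt Q.n = false := by
      rw [← Bool.not_eq_true, Nat.blt_eq]
      exact hs
    have hs2 : Q.n ≤ g6 Q.inp j := by omega
    rw [hs', cond_false] at h
    simp only [Bool.or_eq_true, Bool.and_eq_true, Nat.blt_eq, Nat.ble_eq, Nat.beq_eq,
      Bool.not_eq_true'] at h
    rcases h with h | h | h | h | ⟨⟨a, b, c, d⟩, e⟩ | h
    · exact Or.inl h
    · exact Or.inr (Or.inr (Or.inl ⟨hs2, h⟩))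
    · exact Or.inr (Or.inr (Or.inr (Or.inr (Or.inl h))))
    · exact Or.inr (Or.inr (Or.inr (Or.inl h)))
    · exact Or.inr (Or.inr (Or.inr (Or.inr (Or.inr (Or.inl ⟨⟨a, d, b, c⟩, e⟩)))))
    · exact Or.inr (Or.inr (Or.inr (Or.inr (Or.inr (Or.inr h)))))

theorem flag_ng {Q : CX} {j : ℕ} {o : Bool} (ho : Q.opq j = false)
    (hf : Q.abs.Flag (j / 2) o) : o.toNat = b1 Q.ng (j.shiftRight 1) := by
  rcases hf with ⟨h1, h2⟩ | h
  · exfalso
    have h3 : ∀ i : Bool, Q.n ≤ g6 Q.inp (2 * (j / 2) + i.toNat) := by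
      intro i
      cases i
      · exact h1
      · exact h2
    have h4 := h3 (decide (j % 2 = 1))
    have h5 := h3 (!decide (j % 2 = 1))
    rw [slot_eq] at h4
    rw [← xor1] at h5
    unfold CX.opq at ho
    rw [Nat.ble_eq_true_of_le h4, Nat.ble_eq_true_of_le h5] at ho
    exact absurd ho (by decide)
  · rw [h, b1_eq]
    rfl

variable {tag : ℕ} {k : CX → ℕ → ℕ} {P : CX → Prop} {Q : CX}

theorem kids_ne (hk : ∀ R x, k R x ≠ 0 → P R ∧ x ≠ 0) {u j y : ℕ} (h : CX.kids k Q u j y ≠ 0) :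
    y ≠ 0 ∧ (Q.excl j u = true ∨ (g8 Q.kd u < 15 ∧
      ∀ o p : Bool, Q.abs.Flag (j / 2) o → P (Q.conn u j o.toNat p.toNat))) := by
  unfold CX.kids at h
  cases he : Q.excl j u
  · rw [he, cond_false] at h
    cases hd : (g8 Q.kd u).blt 15
    · rw [hd, cond_false] at h
      exact absurd rfl h
    · rw [hd, cond_true] at h
      have hd' : g8 Q.kd u < 15 := Nat.blt_eq.mp hd
      cases ho : Q.opq j
      · rw [ho, cond_false] at h
        obtain ⟨a1, h⟩ := hk _ _ h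
        obtain ⟨a0, h⟩ := hk _ _ h
        refine ⟨h, Or.inr ⟨hd', fun o p hf => ?_⟩⟩
        rw [flag_ng ho hf]
        cases p
        · exact a0
        · exact a1
      · rw [ho, cond_true] at h
        obtain ⟨a11, h⟩ := hk _ _ h
        obtain ⟨a10, h⟩ := hk _ _ h
        obtain ⟨a01, h⟩ := hk _ _ h
        obtain ⟨a00, h⟩ := hk _ _ h
        refine ⟨h, Or.inr ⟨hd', fun o p _ => ?_⟩⟩
        cases o <;> cases p
        · exact a00
        · exact a01
        · exact a10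
        · exact a11
  · rw [he, cond_true] at h
    exact ⟨h, Or.inl rfl⟩

theorem fresh_ne (hk : ∀ R x, k R x ≠ 0 → P R ∧ x ≠ 0) {t j y : ℕ} (h : CX.fresh k Q t j y ≠ 0) :
    y ≠ 0 ∧ ∀ o : Bool, Q.abs.Flag (j / 2) o → P ((Q.new t).conn Q.n j o.toNat 0) := by
  unfold CX.fresh at h
  cases ho : Q.opq j
  · rw [ho, cond_false] at h
    obtain ⟨a, h⟩ := hk _ _ h
    refine ⟨h, fun o hf => ?_⟩
    rw [flag_ng ho hf]
    exact a
  · rw [ho, cond_true] at h
    obtain ⟨a1, h⟩ := hk _ _ h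
    obtain ⟨a0, h⟩ := hk _ _ h
    refine ⟨h, fun o _ => ?_⟩
    cases o
    · exact a0
    · exact a1

theorem loop_ne {f : ℕ → ℕ → ℕ} {A : ℕ → Prop} (hf : ∀ j y, f j y ≠ 0 → y ≠ 0 ∧ A j) (x m : ℕ)
    (h : (Nat.rec x f m : ℕ) ≠ 0) : x ≠ 0 ∧ ∀ j < m, A j := by
  induction m with
  | zero => exact ⟨h, fun j hj => absurd hj (Nat.not_lt_zero j)⟩
  | succ m ih =>
    obtain ⟨h1, h2⟩ := hf m _ h
    obtain ⟨h3, h4⟩ := ih h1
    refine ⟨h3, fun j hj => ?_⟩
    rcases Nat.lt_succ_iff_lt_or_eq.mp hj with h5 | rfl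
    · exact h4 j h5
    · exact h2

theorem cond_ne {b : Bool} {a : ℕ} (h : cond b a 0 ≠ 0) : b = true ∧ a ≠ 0 := by
  cases b
  · exact absurd rfl h
  · exact ⟨rfl, h⟩

theorem new_kd (Q : CX) (t u : ℕ) : g8 (Q.new t).kd u = if u = Q.n then 0 else g8 Q.kd u := by
  change g8 (s8 Q.kd Q.n 0) u = _
  rw [g8_s8 _ _ (by norm_num)]
  rfl

theorem fresh_abs (Q : CX) (hn : Q.n < 63) (t o : Bool) (j : ℕ) :
    ((Q.new t.toNat).conn Q.n j o.toNat 0).abs =
      (Q.abs.new t).conn Q.n (j / 2) (decide (j % 2 = 1)) o false := by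
  rw [← new_abs Q hn t]
  exact conn_abs (Q.new t.toNat) (by omega) (by rw [new_kd, if_pos rfl]; norm_num) j o false

theorem slotOk_abs {j : ℕ} (h : Q.slotOk j = true) :
    j / 2 < Q.abs.n ∧ Q.abs.gate (j / 2) = true ∧
      Q.abs.n ≤ Q.abs.inp (j / 2) (decide (j % 2 = 1)) := by
  unfold CX.slotOk CX.isG at h
  simp only [Bool.and_eq_true, Nat.blt_eq, Nat.ble_eq, shr1] at h
  refine ⟨h.1.1, h.1.2, ?_⟩
  change Q.n ≤ g6 Q.inp (2 * (j / 2) + (decide (j % 2 = 1)).toNat)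
  rw [slot_eq]
  exact h.2

theorem lb_abs (Q : CX) (j : ℕ) : Q.abs.lb (j / 2) (decide (j % 2 = 1)) = g4 Q.lb j := by
  change g4 Q.lb (2 * (j / 2) + (decide (j % 2 = 1)).toNat) = _
  rw [slot_eq]

/-- the cases of `kids` in abstract form -/
theorem kids_abs (hk : Snd tag k) {u j y : ℕ} (hj : j < 128) (hu : u < 64)
    (h : CX.kids k Q u j y ≠ 0) : y ≠ 0 ∧ (Q.abs.Excl (j / 2) (decide (j % 2 = 1)) u ∨
      ∀ o p, Q.abs.Flag (j / 2) o →
        HoldsX tag (Q.abs.conn u (j / 2) (decide (j % 2 = 1)) o p)) := by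
  obtain ⟨h1, h2⟩ := kids_ne (P := fun R => HoldsX tag R.abs) hk h
  refine ⟨h1, ?_⟩
  rcases h2 with h2 | ⟨h2, h3⟩
  · exact Or.inl (excl_ab hj hu h2)
  · refine Or.inr fun o p hf => ?_
    rw [← conn_abs Q hu h2]
    exact h3 o p hf

theorem _root_.Pool.Agent.Lib.MP_79d702_lc.U2.e0_sound
    (hk : Snd tag k) (hn : Q.n < 63) {G u x : ℕ} (hG : G ≤ 63)
    (h : CX.e0 k G Q u x ≠ 0) : HoldsX tag Q.abs := by
  unfold CX.e0 at h
  obtain ⟨hc, h⟩ := cond_ne h
  simp only [Bool.and_eq_true, Nat.blt_eq] at hc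
  obtain ⟨hu, hd, hg⟩ := hc
  obtain ⟨h3, hl⟩ := loop_ne (A := fun j => j < 128 → Q.n ≤ g6 Q.inp j →
    Q.abs.Excl (j / 2) (decide (j % 2 = 1)) u ∨ ∀ o p, Q.abs.Flag (j / 2) o →
      HoldsX tag (Q.abs.conn u (j / 2) (decide (j % 2 = 1)) o p)) (by
    intro j y hy
    cases hb : Q.n.ble (g6 Q.inp j)
    · rw [hb, cond_false] at hy
      refine ⟨hy, fun _ h1 => ?_⟩
      rw [Nat.ble_eq_true_of_le h1] at hb
      exact absurd hb (by decide)
    · rw [hb, cond_true] at hy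
      exact ⟨(kids_ne (P := fun R => HoldsX tag R.abs) hk hy).1,
        fun hj _ => (kids_abs hk hj (by omega) hy).2⟩) _ _ h
  obtain ⟨a1, h3⟩ := hk _ _ h3
  obtain ⟨a0, h2⟩ := hk _ _ h3
  have hnew : ∀ p : Bool, ((Q.new 1).conn u (Q.n.mul 2) 0 p.toNat).abs =
      (Q.abs.new true).conn u Q.n false false p := by
    intro p
    have e := conn_abs (Q.new 1) (u := u) (by omega) (by rw [new_kd, if_neg hu.ne]; exact hd)
      (Q.n.mul 2) false p
    have e1 : Q.n.mul 2 / 2 = Q.n := by change Q.n * 2 / 2 = _; omega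
    have e2 : decide (Q.n.mul 2 % 2 = 1) = false := by
      change decide (Q.n * 2 % 2 = 1) = false
      rw [decide_eq_false_iff_not]; omega
    rw [e1, e2] at e
    rw [← new_abs Q hn true]
    exact e
  have h1 : cond ((g4 Q.dlo u).ble (g8 Q.kd u)) (k (Q.exact u (g8 Q.kd u)) x) x ≠ 0 := by
    cases hb : (bit Q.gm u && Q.n.ble Q.out)
    · rw [hb, cond_false] at h2
      exact h2
    · rw [hb, cond_true] at h2
      exact (hk _ _ h2).2
  refine exp0 (u := u) hu hn ?_ ?_ ?_ ?_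
  · intro hle
    have hle' : (g4 Q.dlo u).ble (g8 Q.kd u) = true := Nat.ble_eq_true_of_le hle
    rw [hle', cond_true] at h1
    have := (hk _ _ h1).1
    rw [exact_abs Q u (by omega)] at this
    exact this
  · intro hgu ho
    have hb : (bit Q.gm u && Q.n.ble Q.out) = true := by
      rw [Bool.and_eq_true]
      exact ⟨hgu, Nat.ble_eq_true_of_le ho⟩
    rw [hb, cond_true] at h2
    have := (hk _ _ h2).1
    rw [setOut_abs Q hd] at this
    exact this
  · intro p
    cases p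
    · have := hnew false
      exact this ▸ a0
    · have := hnew true
      exact this ▸ a1
  · intro g hgn hgg i hi
    have hgG : g < G := lt_of_bit hg hgg
    have hi1 := toNat_le i
    have := hl (2 * g + i.toNat) (by change _ < G * 2; omega) (by omega) hi
    rwa [slot_half, slot_par] at this

theorem _root_.Pool.Agent.Lib.MP_79d702_lc.U2.e2_sound
    (hk : Snd tag k) (hn : Q.n < 63) {j x : ℕ} (h : CX.e2 k Q j x ≠ 0) :
    HoldsX tag Q.abs := by
  unfold CX.e2 at h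
  obtain ⟨hc, h⟩ := cond_ne h
  obtain ⟨s1, s2, s3⟩ := slotOk_abs hc
  have hj : j < 128 := by
    have : j / 2 < Q.n := s1
    omega
  obtain ⟨h1, hl⟩ := loop_ne (A := fun v => v < 64 →
    Q.abs.Excl (j / 2) (decide (j % 2 = 1)) v ∨ ∀ o p, Q.abs.Flag (j / 2) o →
      HoldsX tag (Q.abs.conn v (j / 2) (decide (j % 2 = 1)) o p)) (by
    intro v y hy
    exact ⟨(kids_ne (P := fun R => HoldsX tag R.abs) hk hy).1,
      fun hv => (kids_abs hk hj hv hy).2⟩) _ _ h
  obtain ⟨h2, hb⟩ := fresh_ne (P := fun R => HoldsX tag R.abs) hk h1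
  refine exp2 s1 s2 s3 hn ?_ ?_ ?_
  · intro hlt o hf
    rw [lb_abs] at hlt
    rw [Nat.blt_eq.mpr hlt, cond_true] at h2
    have := (fresh_ne (P := fun R => HoldsX tag R.abs) hk h2).2 o hf
    have e := fresh_abs Q hn false o j
    exact e ▸ this
  · intro o hf
    have := hb o hf
    have e := fresh_abs Q hn true o j
    exact e ▸ this
  · intro v hv
    have : v < Q.n := hv
    exact hl v hv (by omega)

theorem _root_.Pool.Agent.Lib.MP_79d702_lc.U2.e3_sound
    (hk : Snd tag k) (hn : Q.n < 63) {j x : ℕ} (h : CX.e3 k Q j x ≠ 0) :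
    HoldsX tag Q.abs := by
  unfold CX.e3 at h
  obtain ⟨hc, h⟩ := cond_ne h
  rw [Bool.and_eq_true, Nat.blt_eq] at hc
  obtain ⟨hc, hl8⟩ := hc
  obtain ⟨s1, s2, s3⟩ := slotOk_abs hc
  have hj : j < 128 := by
    have : j / 2 < Q.n := s1
    omega
  have hk' : ∀ (v : ℕ) (R : CX) (x : ℕ), k (R.exact v (g4 Q.lb j)) x ≠ 0 →
      HoldsX tag (R.abs.exact v (g4 Q.lb j)) ∧ x ≠ 0 := by
    intro v R x hx
    rw [← exact_abs R v (g4_lt _ _)]
    exact hk _ _ hx
  obtain ⟨h1, hl⟩ := loop_ne (A := fun v => v < 64 → Q.abs.gate v = false →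
    Q.abs.Excl (j / 2) (decide (j % 2 = 1)) v ∨
      g4 Q.lb j < Q.abs.cdeg v (j / 2) (decide (j % 2 = 1)) ∨ ∀ o p, Q.abs.Flag (j / 2) o →
      HoldsX tag ((Q.abs.conn v (j / 2) (decide (j % 2 = 1)) o p).exact v (g4 Q.lb j))) (by
    intro v y hy
    cases hb : (bit Q.gm v || (g4 Q.lb j).blt (Q.cdeg v j))
    · rw [hb, cond_false] at hy
      obtain ⟨h1, h2⟩ := kids_ne (P := fun R => HoldsX tag (R.abs.exact v (g4 Q.lb j)))
        (hk' v) hy
      refine ⟨h1, fun hv _ => ?_⟩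
      rcases h2 with h2 | ⟨h2, h3⟩
      · exact Or.inl (excl_ab hj hv h2)
      · refine Or.inr (Or.inr fun o p hf => ?_)
        rw [← conn_abs Q hv h2]
        exact h3 o p hf
    · rw [hb, cond_true] at hy
      refine ⟨hy, fun _ hg => Or.inr (Or.inl ?_)⟩
      have hg' : bit Q.gm v = false := hg
      rw [hg', Bool.false_or, Nat.blt_eq, cdeg_abs] at hb
      exact hb) _ _ h
  obtain ⟨h2, hb⟩ := fresh_ne (P := fun R => HoldsX tag (R.abs.exact Q.n (g4 Q.lb j)))
    (hk' Q.n) h1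
  refine exp3 s1 s2 s3 hn (by rw [lb_abs]; exact hl8) ?_ ?_ ?_
  · have := (hk _ _ h2).1
    rw [setLb_abs Q j (by change g4 Q.lb j + 1 < 16; omega)] at this
    rw [lb_abs]
    exact this
  · intro o hf
    have := hb o hf
    have e := fresh_abs Q hn false o j
    rw [lb_abs]
    exact e ▸ this
  · intro v hv hg
    have : v < Q.n := hv
    rw [lb_abs]
    exact hl v hv (by omega) hg

theorem _root_.Pool.Agent.Lib.MP_79d702_lc.U2.e4_sound
    (hk : Snd tag k) {u x : ℕ} (h : CX.e4 k Q u x ≠ 0) : HoldsX tag Q.abs := by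
  unfold CX.e4 at h
  obtain ⟨hc, h⟩ := cond_ne h
  simp only [Bool.and_eq_true, Nat.blt_eq] at hc
  obtain ⟨a1, h⟩ := hk _ _ h
  obtain ⟨a0, -⟩ := hk _ _ h
  rw [raise_abs Q u (by change g4 Q.dlo u + 1 < 16; omega)] at a1
  rw [exact_abs Q u (g4_lt _ _)] at a0
  exact exp4 (u := u) hc.1 a0 a1

theorem _root_.Pool.Agent.Lib.MP_79d702_lc.U2.e5_sound
    (hk : Snd tag k) {u x : ℕ} (h : CX.e5 k Q u x ≠ 0) : HoldsX tag Q.abs := by
  unfold CX.e5 at h
  obtain ⟨a1, h⟩ := hk _ _ h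
  obtain ⟨a0, -⟩ := hk _ _ h
  rw [setSg_abs Q u (by norm_num)] at a1 a0
  exact exp5 a0 a1

theorem _root_.Pool.Agent.Lib.MP_79d702_lc.U2.e6_sound
    {k : ℕ → CX → ℕ → ℕ} (hk : ∀ t, Snd t (k t)) (hn : Q.n < 63) {z x : ℕ}
    (h : CX.e6 k tag Q z x ≠ 0) : HoldsX tag Q.abs := by
  unfold CX.e6 at h
  obtain ⟨hc, h⟩ := cond_ne h
  rw [allTo_iff] at hc
  obtain ⟨a1, h⟩ := hk _ _ _ h
  obtain ⟨a0, -⟩ := hk _ _ _ h
  have e := new_abs Q hn false
  rw [exact_abs _ _ (by norm_num)] at a1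
  refine exp6 (z := z) hn ?_ ?_ (e ▸ a1)
  · intro v hv hg hz
    have := hc v hv
    have hg' : bit Q.gm v = false := hg
    simp only [hg', Bool.false_or, Bool.or_eq_true, Nat.beq_eq, Nat.ble_eq] at this
    exact this.resolve_left hz
  · have e' : cond (z.blt Q.n) 1 0 = if z < Q.abs.n then 1 else 0 := by
      by_cases hz : z < Q.n
      · rw [Nat.blt_eq.mpr hz, cond_true]
        exact (if_pos hz).symm
      · have : z.blt Q.n = false := by
          rw [← Bool.not_eq_true, Nat.blt_eq]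
          exact hz
        rw [this, cond_false]
        exact (if_neg hz).symm
    exact e' ▸ a0

theorem _root_.Pool.Agent.Lib.MP_79d702_lc.U2.e8_sound
    (hk : Snd tag k) (hn : Q.n < 63) {j v x : ℕ} (h : CX.e8 k Q j v x ≠ 0) :
    HoldsX tag Q.abs := by
  unfold CX.e8 at h
  obtain ⟨hc, h⟩ := cond_ne h
  rw [Bool.and_eq_true, Nat.blt_eq] at hc
  obtain ⟨hc, hv⟩ := hc
  obtain ⟨s1, s2, s3⟩ := slotOk_abs hc
  have hj : j < 128 := by
    have : j / 2 < Q.n := s1
    omega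
  obtain ⟨h1, hb⟩ := kids_abs hk hj (by omega) h
  have a := (hk _ _ h1).1
  rw [setNf_abs Q j (by omega)] at a
  exact exp8 s1 s2 s3 hv a hb

end ChkB

end Pool.Agent.Lib.MP_79d702_lc.U2
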