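import Pool.Agent.Lib.MP_79d702_lc.U2.LanesA1

/-!
Packed arrays: operations on all lanes at once, truth tables.
-/

namespace Pool.Agent.Lib.MP_79d702_lc.U2

namespace LA

theorem tab_congr {s k : ℕ} {f g : ℕ → ℕ} (h : ∀ j < k, f j = g j) : tab s f k = tab s g k := by
  induction k with
  | zero => rfl
  | succ k ih =>
    change (f k <<< (k * s)) ||| tab s f k = (g k <<< (k * s)) ||| tab s g k
    rw [h k (Nat.lt_succ_self k), ih fun j hj => h j (Nat.lt_succ_of_lt hj)]

theorem tab_sum {s k : ℕ} {f : ℕ → ℕ} (hf : ∀ j < k, f j < 2 ^ s) :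
    tab s f k = ∑ j ∈ Finset.range k, f j * 2 ^ (s * j) := by
  induction k with
  | zero => rfl
  | succ k ih =>
    have hf' : ∀ j < k, f j < 2 ^ s := fun j hj => hf j (Nat.lt_succ_of_lt hj)
    have h1 : tab s f k < 2 ^ (k * s) := by
      rw [mul_comm]
      exact tab_lt hf'
    change (f k <<< (k * s)) ||| tab s f k = _
    rw [← Nat.shiftLeft_add_eq_or_of_lt h1, Finset.sum_range_succ, ← ih hf', Nat.shiftLeft_eq,
      add_comm, mul_comm k s]

theorem tab_add {s k : ℕ} {f g : ℕ → ℕ} (h : ∀ j < k, f j + g j < 2 ^ s) :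
    tab s f k + tab s g k = tab s (fun j => f j + g j) k := by
  rw [tab_sum h, tab_sum fun j hj => (Nat.le_add_right _ _).trans_lt (h j hj),
    tab_sum fun j hj => (Nat.le_add_left _ _).trans_lt (h j hj), ← Finset.sum_add_distrib]
  exact Finset.sum_congr rfl fun j _ => by ring

theorem tab_mul {s k c : ℕ} {f : ℕ → ℕ} (hf : ∀ j < k, f j < 2 ^ s)
    (h : ∀ j < k, f j * c < 2 ^ s) : tab s f k * c = tab s (fun j => f j * c) k := by
  rw [tab_sum h, tab_sum hf, Finset.sum_mul]
  exact Finset.sum_congr rfl fun j _ => by ring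

theorem tab_mod {s k : ℕ} {f : ℕ → ℕ} (hf : ∀ j < k, f j < 2 ^ s)
    (h : ∑ j ∈ Finset.range k, f j < 2 ^ s - 1) :
    tab s f k % (2 ^ s - 1) = ∑ j ∈ Finset.range k, f j := by
  have h1 : 2 ^ s ≡ 1 [MOD 2 ^ s - 1] :=
    ((Nat.modEq_iff_dvd' Nat.one_le_two_pow).mpr dvd_rfl).symm
  have h2 : ∑ j ∈ Finset.range k, f j * 2 ^ (s * j) ≡ ∑ j ∈ Finset.range k, f j
      [MOD 2 ^ s - 1] := by
    refine Nat.ModEq.sum fun j _ => ?_
    have := (h1.pow j).mul_left (f j)
    rwa [one_pow, mul_one, ← pow_mul] at this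
  rw [tab_sum hf, h2, Nat.mod_eq_of_lt h]

theorem tab_xor {s k : ℕ} (hs : 0 < s) {f g : ℕ → ℕ} (hf : ∀ j < k, f j < 2 ^ s)
    (hg : ∀ j < k, g j < 2 ^ s) : tab s f k ^^^ tab s g k = tab s (fun j => f j ^^^ g j) k := by
  refine ext_lane hs fun j v hv => ?_
  rw [Nat.testBit_xor, testBit_tab hf j hv, testBit_tab hg j hv,
    testBit_tab (fun j hj => Nat.xor_lt_two_pow (hf j hj) (hg j hj)) j hv, Nat.testBit_xor]
  cases decide (j < k) <;> simp

theorem toNat_lt (b : Bool) {s : ℕ} (hs : 0 < s) : b.toNat < 2 ^ s :=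
  (Bool.toNat_le b).trans_lt (Nat.one_lt_two_pow hs.ne')

theorem testBit_toNat (b : Bool) (v : ℕ) : b.toNat.testBit v = (b && decide (v = 0)) := by
  cases b
  · simp
  · have := Nat.testBit_two_pow (n := 0) (m := v)
    simpa [eq_comm] using this

theorem toNat_mul_lt (b : Bool) {c n : ℕ} (h : c < n) : b.toNat * c < n := by
  cases b
  · simpa using Nat.zero_lt_of_lt h
  · simpa using h

theorem testBit_toNat_mul (b : Bool) (c v : ℕ) :
    (b.toNat * c).testBit v = (b && c.testBit v) := by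
  cases b <;> simp

theorem and_sel {s k : ℕ} (hs : 0 < s) (y : ℕ) (c : ℕ → Bool) :
    y &&& tab s (fun j => (c j).toNat) k
      = tab s (fun j => (c j && y.testBit (s * j)).toNat) k := by
  refine ext_lane hs fun j v hv => ?_
  rw [Nat.testBit_and, testBit_tab (fun j _ => toNat_lt _ hs) j hv,
    testBit_tab (fun j _ => toNat_lt _ hs) j hv, testBit_toNat, testBit_toNat]
  by_cases h0 : v = 0
  · subst h0
    rw [add_zero]
    cases y.testBit (s * j) <;> simp
  · simp [h0]

theorem and_mask {s w k : ℕ} (hs : 0 < s) (hw : w ≤ s) (y : ℕ) (c : ℕ → Bool) :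
    y &&& tab s (fun j => (c j).toNat * (2 ^ w - 1)) k
      = tab s (fun j => (c j).toNat * G s w y j) k := by
  have h0 : 2 ^ w ≤ 2 ^ s := Nat.pow_le_pow_right (by norm_num) hw
  have h1 : 2 ^ w - 1 < 2 ^ s := (Nat.sub_lt (Nat.two_pow_pos w) Nat.one_pos).trans_le h0
  refine ext_lane hs fun j v hv => ?_
  rw [Nat.testBit_and, testBit_tab (fun j _ => toNat_mul_lt _ h1) j hv,
    testBit_tab (fun j _ => toNat_mul_lt _ ((G_lt _ _ _ _).trans_le h0)) j hv,
    testBit_toNat_mul, testBit_toNat_mul, testBit_G, Nat.testBit_two_pow_sub_one]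
  cases y.testBit (s * j + v) <;> simp

theorem testBit_carry {x : ℕ} (hx : x < 256) : (x + 255).testBit 8 = decide (x ≠ 0) := by
  rw [Nat.testBit_eq_decide_div_mod_eq]
  refine decide_eq_decide.mpr ?_
  omega

theorem ones10_eq : ones10 = tab 10 (fun _ => true.toNat) 128 := by decide +kernel

theorem onesA_eq : onesA = tab 64 (fun r => (decide (64 ≤ r)).toNat) 192 := by decide +kernel

theorem diag_eq : diag = tab 65 (fun _ => true.toNat) 64 := by decide +kernel

theorem mask10_eq : mask10 = tab 10 (fun _ => true.toNat * (2 ^ 8 - 1)) 128 := by decide +kernel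

theorem maskA_eq : maskA = tab 64 (fun r => (decide (64 ≤ r)).toNat * (2 ^ 8 - 1)) 192 := by
  decide +kernel

theorem replL_eq (a : ℕ) {g w p : ℕ} (hg : g < 256) (hw : w < 256) (hp : p ≤ 1) :
    replL a g w p = a ^^^
      tab 10 (fun j => (decide (gi a j = g)).toNat * ((g ^^^ w) + p * 256)) 128 := by
  have hx : ∀ j, gi a j ^^^ g < 256 := fun j => Nat.xor_lt_two_pow (n := 8) (gi_lt a j) hg
  have hc : (g ^^^ w) + p * 256 < 2 ^ 10 := by
    have : g ^^^ w < 256 := Nat.xor_lt_two_pow (n := 8) hg hw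
    omega
  have e1 : a &&& mask10 = tab 10 (gi a) 128 := by
    rw [mask10_eq, and_mask (by norm_num) (by norm_num) a fun _ => true]
    exact tab_congr fun j _ => one_mul _
  have e2 : g * ones10 = tab 10 (fun _ => g) 128 := by
    rw [ones10_eq, mul_comm, tab_mul (fun j _ => toNat_lt _ (by norm_num))
      fun j _ => toNat_mul_lt _ (hg.trans (by norm_num))]
    exact tab_congr fun j _ => one_mul _
  have e3 : (tab 10 (gi a) 128 ^^^ tab 10 (fun _ => g) 128) + mask10
      = tab 10 (fun j => (gi a j ^^^ g) + 255) 128 := by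
    rw [tab_xor (by norm_num) (fun j _ => (gi_lt a j).trans (by norm_num))
      (fun j _ => hg.trans (by norm_num)), mask10_eq]
    exact tab_add fun j _ => by
      have := hx j
      change (gi a j ^^^ g) + 255 < 1024
      omega
  have e4 : (tab 10 (fun j => (gi a j ^^^ g) + 255) 128 >>> 8) &&& ones10
      = tab 10 (fun j => (decide (gi a j ^^^ g ≠ 0)).toNat) 128 := by
    rw [ones10_eq, and_sel (by norm_num) _ fun _ => true]
    refine tab_congr fun j hj => ?_
    rw [Nat.testBit_shiftRight, add_comm 8, testBit_tab (fun j _ => by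
      have := hx j
      change (gi a j ^^^ g) + 255 < 1024
      omega) j (by norm_num), testBit_carry (hx j)]
    simp [hj]
  have e5 : tab 10 (fun j => (decide (gi a j ^^^ g ≠ 0)).toNat) 128 ^^^ ones10
      = tab 10 (fun j => (decide (gi a j = g)).toNat) 128 := by
    rw [ones10_eq, tab_xor (by norm_num) (fun j _ => toNat_lt _ (by norm_num))
      fun j _ => toNat_lt _ (by norm_num)]
    refine tab_congr fun j _ => ?_
    by_cases h : gi a j = g <;> simp [h]
  change a ^^^ (((((((a &&& mask10) ^^^ (g * ones10)) + mask10) >>> 8) &&& ones10) ^^^ ones10)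
    * ((g ^^^ w) + p * 256)) = _
  rw [e1, e2, e3, e4, e5,
    tab_mul (fun j _ => toNat_lt _ (by norm_num)) fun j _ => toNat_mul_lt _ hc]

theorem testBit_replL (a : ℕ) {g w p : ℕ} (hg : g < 256) (hw : w < 256) (hp : p ≤ 1) (j : ℕ)
    {v : ℕ} (hv : v < 10) : (replL a g w p).testBit (10 * j + v) = (a.testBit (10 * j + v) ^^
      (decide (j < 128 ∧ gi a j = g) && ((g ^^^ w) + p * 256).testBit v)) := by
  have hc : (g ^^^ w) + p * 256 < 2 ^ 10 := by
    have : g ^^^ w < 256 := Nat.xor_lt_two_pow (n := 8) hg hw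
    omega
  rw [replL_eq a hg hw hp, Nat.testBit_xor, testBit_tab (fun j _ => toNat_mul_lt _ hc) j hv,
    testBit_toNat_mul, Bool.decide_and, Bool.and_assoc]

theorem selA (m u : ℕ) : (m >>> u) &&& onesA
    = tab 64 (fun r => (decide (64 ≤ r) && m.testBit (64 * r + u)).toNat) 192 := by
  rw [onesA_eq, and_sel (by norm_num)]
  refine tab_congr fun j _ => ?_
  rw [Nat.testBit_shiftRight, add_comm u]

theorem sum_Ico (f : ℕ → ℕ) (h : ∀ r < 64, f r = 0) :
    ∑ r ∈ Finset.range 192, f r = ∑ r ∈ Finset.Ico 64 192, f r := by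
  rw [← Finset.sum_range_add_sum_Ico f (by norm_num : 64 ≤ 192),
    Finset.sum_eq_zero fun r hr => h r (Finset.mem_range.mp hr), zero_add]

theorem tabA_mod {f : ℕ → ℕ} (hf : ∀ r, f r < 256) (h : ∀ r < 64, f r = 0) :
    tab 64 f 192 % 18446744073709551615 = ∑ r ∈ Finset.Ico 64 192, f r := by
  rw [← sum_Ico f h]
  refine tab_mod (s := 64) (fun j _ => (hf j).trans (by norm_num)) ?_
  refine (Finset.sum_le_card_nsmul _ _ 256 fun r _ => (hf r).le).trans_lt ?_
  rw [Finset.card_range]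
  norm_num

end LA

open LA

theorem bit_diag (i : ℕ) : bit diag i = decide (i % 65 = 0 ∧ i < 4160) := by
  have h := testBit_tab (s := 65) (k := 64) (f := fun _ => true.toNat)
    (fun j _ => toNat_lt _ (by norm_num)) (i / 65) (Nat.mod_lt i (by norm_num : 0 < 65))
  rw [Nat.div_add_mod] at h
  rw [bit_eq, diag_eq, h, testBit_toNat, Bool.true_and, ← Bool.decide_and]
  refine decide_eq_decide.mpr ?_
  omega

theorem gi_replL (a : ℕ) {g w p : ℕ} (hg : g < 256) (hw : w < 256) (hp : p ≤ 1) (j : ℕ) :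
    gi (replL a g w p) j = if j < 128 ∧ gi a j = g then w else gi a j := by
  refine Nat.eq_of_testBit_eq fun v => ?_
  have hx : g ^^^ w < 256 := Nat.xor_lt_two_pow (n := 8) hg hw
  have h0 : (gi a j).testBit v = (decide (v < 8) && a.testBit (10 * j + v)) := testBit_G 10 8 a j v
  refine (testBit_G 10 8 _ j v).trans ?_
  by_cases hv : v < 8
  · rw [testBit_replL a hg hw hp j (by omega : v < 10), testBit_lit hx, if_pos hv,
      Nat.testBit_xor]
    split_ifs with h
    · rw [h.2] at h0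
      rw [h0]
      simp [hv, h]
    · rw [h0]
      simp [h]
  · split_ifs with h
    · rw [testBit_of_lt (w := 8) hw (not_lt.mp hv)]
      simp [hv]
    · rw [h0]
      simp [hv]

theorem gp_replL (a : ℕ) {g w p : ℕ} (hg : g < 256) (hw : w < 256) (hp : p ≤ 1) (j : ℕ) :
    (gp (replL a g w p) j).beq 1 =
      ((gp a j).beq 1 ^^ (decide (j < 128 ∧ gi a j = g) && p.beq 1)) := by
  have hx : g ^^^ w < 256 := Nat.xor_lt_two_pow (n := 8) hg hw
  rw [gp_beq, gp_beq, testBit_replL a hg hw hp j (by norm_num), testBit_lit hx,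
    if_neg (by norm_num), testBit_zero_le hp]

theorem bit_replM (m : ℕ) {g : ℕ} (hg : g < 64) (w r v : ℕ) : bit (g64 (replM m g w) r) v =
    (bit (g64 m r) v || (decide (64 ≤ r ∧ r < 192) && bit (g64 m r) g && bit (g64 m w) v)) := by
  have e : replM m g w = m ||| tab 64
      (fun r => (decide (64 ≤ r) && m.testBit (64 * r + g)).toNat * g64 m w) 192 := by
    change m ||| (((m >>> g) &&& onesA) * g64 m w) = _
    rw [selA, tab_mul (fun j _ => toNat_lt _ (by norm_num)) fun j _ => toNat_mul_lt _ (g64_lt m w)]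
  rw [bit_g64, bit_g64, bit_g64 m r g]
  by_cases hv : v < 64
  · rw [bit_eq, e, Nat.testBit_or, testBit_tab (fun j _ => toNat_mul_lt _ (g64_lt m w)) r hv,
      testBit_toNat_mul, bit_eq, bit_eq, bit_eq, Bool.decide_and]
    cases decide (r < 192) <;> simp [hv, hg]
  · rw [bit_g64]
    simp [hv]

theorem extC_eq (m c : ℕ) {u : ℕ} (hu : u < 64) :
    extC m c u = ∑ r ∈ Finset.Ico 64 192, if bit (g64 m r) u then gc c r else 0 := by
  change ((((m >>> u) &&& onesA) * (2 ^ 8 - 1)) &&& c) % 18446744073709551615 = _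
  rw [selA, tab_mul (fun j _ => toNat_lt _ (by norm_num))
    (fun j _ => toNat_mul_lt _ (by norm_num)), Nat.and_comm,
    and_mask (by norm_num) (by norm_num),
    tabA_mod (fun r => toNat_mul_lt _ (G_lt 64 8 c r)) fun r hr => by simp [not_le.mpr hr]]
  refine Finset.sum_congr rfl fun r hr => ?_
  rw [bit_g64, bit_eq, gc_G]
  cases m.testBit (64 * r + u) <;> simp [hu, (Finset.mem_Ico.mp hr).1]

theorem lossC_eq (m c : ℕ) : lossC m c = ∑ r ∈ Finset.Ico 64 192,
    if 0 < gc c r then (if bit (g64 m r) 62 then 100 else if bit (g64 m r) 63 then 3 else 0)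
    else 0 := by
  have hx : ∀ r, (decide (64 ≤ r)).toNat * G 64 8 c r < 256 :=
    fun r => toNat_mul_lt _ (G_lt 64 8 c r)
  have hy : ∀ r, (decide (64 ≤ r)).toNat * G 64 8 c r + (decide (64 ≤ r)).toNat * (2 ^ 8 - 1)
      < 2 ^ 64 := fun r => by
    have h1 := hx r
    have h2 : (decide (64 ≤ r)).toNat * (2 ^ 8 - 1) < 256 := toNat_mul_lt _ (by norm_num)
    omega
  have e1 : (((c &&& maskA) + maskA) >>> 8) &&& onesA
      = tab 64 (fun r => (decide (64 ≤ r) && decide (gc c r ≠ 0)).toNat) 192 := by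
    rw [selA]
    refine tab_congr fun r hr => ?_
    by_cases h : 64 ≤ r
    · rw [maskA_eq, and_mask (by norm_num) (by norm_num), tab_add fun r _ => hy r,
        testBit_tab (fun r _ => hy r) r (by norm_num), ← testBit_carry (gc_lt c r), gc_G]
      simp [h, hr]
    · simp [h]
  change ((((m >>> 62) &&& ((((c &&& maskA) + maskA) >>> 8) &&& onesA)) * 97)
    + ((((m >>> 62) ||| (m >>> 63)) &&& ((((c &&& maskA) + maskA) >>> 8) &&& onesA)) * 3))
    % 18446744073709551615 = _
  have hz : ∀ b b' : Bool, b.toNat * 97 + b'.toNat * 3 < 256 := by decide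
  rw [e1, and_sel (by norm_num), and_sel (by norm_num),
    tab_mul (fun j _ => toNat_lt _ (by norm_num)) (fun j _ => toNat_mul_lt _ (by norm_num)),
    tab_mul (fun j _ => toNat_lt _ (by norm_num)) (fun j _ => toNat_mul_lt _ (by norm_num)),
    tab_add fun j _ => (hz _ _).trans (by norm_num),
    tabA_mod (fun r => hz _ _) fun r hr => by simp [not_le.mpr hr]]
  refine Finset.sum_congr rfl fun r hr => ?_
  rw [bit_g64, bit_g64, bit_eq, bit_eq, Nat.testBit_or, Nat.testBit_shiftRight,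
    Nat.testBit_shiftRight, add_comm 62, add_comm 63]
  have h1 := (Finset.mem_Ico.mp hr).1
  by_cases h : gc c r = 0
  · simp [h]
  · have h2 : 0 < gc c r := Nat.pos_of_ne_zero h
    cases m.testBit (64 * r + 62) <;> cases m.testBit (64 * r + 63) <;> simp [h, h1, h2]

theorem LA.tVar_all : allTo (fun j => (tVar j).blt tErr &&
    allTo (fun i => (tVar j).testBit i == i.testBit j) 256) 8 = true := by decide +kernel

theorem tVar_spec {j i : ℕ} (hj : j < 8) (hi : i < 256) :
    tVar j < tErr ∧ (tVar j).testBit i = i.testBit j := by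
  have h := (allTo_iff _ _).mp tVar_all j hj
  rw [Bool.and_eq_true] at h
  exact ⟨Nat.blt_eq.mp h.1, by simpa using (allTo_iff _ _).mp h.2 i hi⟩

theorem LA.tCut_lt (cut k r : ℕ) (h : tCut cut k r < tErr) :
    ∃ j < k, g8 cut j = r ∧ tCut cut k r = tVar j := by
  induction k with
  | zero => exact absurd h (lt_irrefl _)
  | succ k ih =>
    have e : tCut cut (k + 1) r = cond ((g8 cut k).beq r) (tVar k) (tCut cut k r) := rfl
    cases hb : (g8 cut k).beq r
    · rw [hb, cond_false] at e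
      rw [e] at h ⊢
      obtain ⟨j, hj, h1⟩ := ih h
      exact ⟨j, Nat.lt_succ_of_lt hj, h1⟩
    · rw [hb, cond_true] at e
      exact ⟨k, Nat.lt_succ_self k, Nat.eq_of_beq_eq_true hb, e⟩

/-- every valuation selects a row of the tables of a cut -/
theorem tCut_row (cut : ℕ) {k : ℕ} (hk : k ≤ 8) (val : ℕ → Bool) : ∃ i < 256, ∀ r,
    tCut cut k r < tErr → (tCut cut k r).testBit i = val r ∧ ∃ j < k, g8 cut j = r := by
  have hf : ∀ j < 8, (val (g8 cut j)).toNat < 2 ^ 1 := fun j _ => toNat_lt _ Nat.one_pos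
  have hi : tab 1 (fun j => (val (g8 cut j)).toNat) 8 < 256 := tab_lt hf
  refine ⟨_, hi, fun r hr => ?_⟩
  obtain ⟨j, hj, h1, h2⟩ := tCut_lt cut k r hr
  refine ⟨?_, j, hj, h1⟩
  have h3 := testBit_tab hf j Nat.one_pos
  rw [one_mul, add_zero, testBit_toNat, h1] at h3
  rw [h2, (tVar_spec (hj.trans_le hk) hi).2, h3]
  simp [hj.trans_le hk]

theorem LA.tErr_eq : tErr = 2 ^ 256 := one_eq 256

theorem LA.tErr2_eq : 2 * tErr = 2 ^ 257 := by rw [tErr_eq, ← pow_succ']

theorem LA.xor_lt_iff {t x n : ℕ} (hx : x < 2 ^ n) : t ^^^ x < 2 ^ n ↔ t < 2 ^ n := by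
  refine ⟨fun h => ?_, fun h => Nat.xor_lt_two_pow h hx⟩
  have := Nat.xor_lt_two_pow h hx
  rwa [Nat.xor_assoc, Nat.xor_self, Nat.xor_zero] at this

theorem tNeg_spec {t p i : ℕ} (hp : p ≤ 1) (hi : i < 256) :
    (tNeg t p).testBit i = (t.testBit i ^^ p.beq 1) ∧ (tNeg t p < 2 * tErr ↔ t < 2 * tErr) ∧
      (tNeg t p < tErr ↔ t < tErr) := by
  have hF : tFull = 2 ^ 256 - 1 := congrArg (fun x => x - 1) (one_eq 256)
  have h1 : p * tFull < 2 ^ 256 := by
    rw [hF]
    exact (Nat.mul_le_mul_right _ hp).trans_lt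
      ((one_mul _).trans_lt (Nat.sub_lt (Nat.two_pow_pos _) Nat.one_pos))
  have h2 : p * tFull < 2 ^ 257 := h1.trans (Nat.pow_lt_pow_right (by norm_num) (by norm_num))
  rw [tErr2_eq, tErr_eq]
  refine ⟨?_, xor_lt_iff h2, xor_lt_iff h1⟩
  change (t ^^^ p * tFull).testBit i = _
  rw [Nat.testBit_xor, hF]
  congr 1
  interval_cases p
  · rw [zero_mul, Nat.zero_testBit]
    rfl
  · rw [one_mul, Nat.testBit_two_pow_sub_one, decide_eq_true hi]
    rfl

theorem LA.lt_of_top {a n : ℕ} (ha : a < 2 ^ (n + 1)) (h : a.testBit n = false) : a < 2 ^ n := by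
  refine Nat.lt_pow_two_of_testBit a fun i hi => ?_
  rcases hi.eq_or_lt with rfl | hi
  · exact h
  · exact testBit_of_lt ha hi

theorem tAnd_spec {a b i : ℕ} (ha : a < 2 * tErr) (hb : b < 2 * tErr) (hi : i < 256) :
    (tAnd a b).testBit i = (a.testBit i && b.testBit i) ∧ tAnd a b < 2 * tErr ∧
      (tAnd a b < tErr → a < tErr ∧ b < tErr) := by
  have e : ∀ v, (tAnd a b).testBit v = ((a.testBit v && b.testBit v)
      || ((a.testBit v || b.testBit v) && decide (256 = v))) := fun v => by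
    change ((a &&& b) ||| ((a ||| b) &&& tErr)).testBit v = _
    rw [Nat.testBit_or, Nat.testBit_and, Nat.testBit_and, Nat.testBit_or, tErr_eq,
      Nat.testBit_two_pow]
  rw [tErr2_eq] at ha hb ⊢
  refine ⟨?_, ?_, fun h => ?_⟩
  · rw [e]
    simp [hi.ne']
  · refine Nat.lt_pow_two_of_testBit _ fun v hv => ?_
    rw [e, testBit_of_lt ha hv, testBit_of_lt hb hv]
    rfl
  · rw [tErr_eq] at h ⊢
    have h1 := testBit_of_lt h le_rfl
    rw [e] at h1
    refine ⟨lt_of_top ha ?_, lt_of_top hb ?_⟩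
    · revert h1
      cases a.testBit 256 <;> simp
    · revert h1
      cases b.testBit 256 <;> simp

end Pool.Agent.Lib.MP_79d702_lc.U2
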