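import Pool.Agent.Lib.MP_79d702_lc.U2.ChkS
import Pool.Agent.Lib.MP_79d702_lc.U2.LanesA

/-!
The packed operations of the simulation are the abstract ones.
-/

namespace Pool.Agent.Lib.MP_79d702_lc.U2

variable {S : CS}

namespace KC

theorem cond_iff {b p q : Bool} :
    cond b p q = true ↔ (b = true ∧ p = true) ∨ (b = false ∧ q = true) := by
  cases b <;> simp

theorem nbeq_false {a b : ℕ} : a.beq b = false ↔ a ≠ b := by
  rw [← Bool.not_eq_true, Nat.beq_eq]

theorem ag_iff {g : ℕ} : S.ag g = true ↔ S.abs.AG g := by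
  simp only [CS.ag, Sim.AG, CS.abs, Bool.and_eq_true, Nat.blt_eq]

theorem av_iff {g : ℕ} : S.av g = true ↔ S.abs.AV g := by
  simp only [CS.av, Sim.AV, CS.abs, Bool.and_eq_true, Nat.blt_eq, Bool.not_eq_true']

theorem slot0 (g : ℕ) : g.mul 2 = 2 * g + false.toNat := by
  simp only [Nat.mul_eq, Bool.toNat_false]; omega

theorem slot1 (g : ℕ) : (g.mul 2).add 1 = 2 * g + true.toNat := by
  simp only [Nat.mul_eq, Nat.add_eq, Bool.toNat_true]; omega

theorem slotb (g : ℕ) {i : ℕ} (hi : i ≤ 1) : (g.mul 2).add i = 2 * g + (i.beq 1).toNat := by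
  have : i = 0 ∨ i = 1 := by omega
  rcases this with rfl | rfl
  · exact slot0 g
  · exact slot1 g

theorem half (j : ℕ) : j.shiftRight 1 = j / 2 := by
  simp only [Nat.shiftRight_eq, Nat.shiftRight_eq_div_pow]

theorem slotj (j : ℕ) : 2 * (j.shiftRight 1) + (decide (j % 2 = 1)).toNat = j := by
  rw [half]
  by_cases h : j % 2 = 1
  · simp only [h, decide_true, Bool.toNat_true]; omega
  · simp only [h, decide_false, Bool.toNat_false]; omega

theorem slotx (j : ℕ) : 2 * (j.shiftRight 1) + (!decide (j % 2 = 1)).toNat = j.xor 1 := by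
  rw [half]
  have e : j.xor 1 = j ^^^ 1 := rfl
  rw [e]
  by_cases h : j % 2 = 1
  · have := Nat.xor_one_of_odd (Nat.odd_iff.2 h)
    simp only [h, decide_true, Bool.not_true, Bool.toNat_false]; omega
  · have := Nat.xor_one_of_even (n := j) (Nat.even_iff.2 (by omega))
    simp only [h, decide_false, Bool.not_false, Bool.toNat_true]; omega

theorem slot_inj {h g : ℕ} {j i : Bool} : 2 * h + j.toNat = 2 * g + i.toNat ↔ h = g ∧ j = i := by
  cases j <;> cases i <;> simp <;> omega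

theorem slot_lt (h : ℕ) (j : Bool) : 2 * h + j.toNat < 128 ↔ h < 64 := by
  cases j <;> simp <;> omega

theorem land_le (x m : ℕ) : x.land m ≤ m := Nat.and_le_right

theorem xor_one {p : ℕ} (hp : p ≤ 1) : p.xor 1 ≤ 1 ∧ (p.xor 1).beq 1 = !p.beq 1 := by
  have : p = 0 ∨ p = 1 := by omega
  rcases this with rfl | rfl <;> decide

theorem xor_two {p q : ℕ} (hp : p ≤ 1) (hq : q ≤ 1) :
    p.xor q ≤ 1 ∧ (p.xor q).beq 1 = (decide (p = 1) ^^ decide (q = 1)) := by
  have h1 : p = 0 ∨ p = 1 := by omega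
  have h2 : q = 0 ∨ q = 1 := by omega
  rcases h1 with rfl | rfl <;> rcases h2 with rfl | rfl <;> decide

theorem beq_ne {p q : ℕ} (hp : p ≤ 1) (hq : q ≤ 1) (h : p ≠ q) : p.beq 1 = !q.beq 1 := by
  have h1 : p = 0 ∨ p = 1 := by omega
  have h2 : q = 0 ∨ q = 1 := by omega
  rcases h1 with rfl | rfl <;> rcases h2 with rfl | rfl <;> first | decide | omega

theorem sat_lt (x : ℕ) : satC x < 256 := by
  rw [satC_eq]; unfold sat; omega

theorem dec_lt (a i : ℕ) : decC (gc a i) < 256 := by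
  have := gc_lt a i
  rw [decC_eq]; unfold dec; split_ifs <;> omega

theorem mn_lt (a i b : ℕ) : mn (g4 a i) b < 16 := by
  have := g4_lt a i
  rw [mn_eq]; omega

theorem cond_beq (a b u v : ℕ) : cond (a.beq b) u v = if a = b then u else v := by
  by_cases h : a = b
  · rw [if_pos h, Nat.beq_eq.mpr h]; rfl
  · rw [if_neg h, nbeq_false.2 h]; rfl

theorem tErr_pos : 0 < tErr := by
  unfold tErr; rw [one_eq]; exact Nat.two_pow_pos _

theorem sim_ext {A B : Sim} (h1 : A.n = B.n) (h2 : A.al = B.al) (h3 : A.gate = B.gate)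
    (h4 : A.uf = B.uf) (h5 : A.dex = B.dex) (h6 : A.pend = B.pend) (h7 : A.dlo = B.dlo)
    (h8 : A.c = B.c) (h9 : A.sg = B.sg) (h10 : A.sd = B.sd) (h11 : A.inp = B.inp)
    (h12 : A.pol = B.pol) (h13 : A.may = B.may) (h14 : A.out = B.out) (h15 : A.hst = B.hst)
    (h16 : A.rem = B.rem) (h17 : A.add = B.add) (h18 : A.t = B.t) (h19 : A.elim = B.elim)
    (h20 : A.rew = B.rew) : A = B := by
  cases A; cases B; simp only [Sim.mk.injEq]
  exact ⟨h1, h2, h3, h4, h5, h6, h7, h8, h9, h10, h11, h12, h13, h14, h15, h16, h17, h18, h19, h20⟩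

end KC

open KC

theorem ub_abs {u : ℕ} (hu : u < 64) : S.ub u = S.abs.ub u := by
  unfold CS.ub Sim.ub Sim.ext
  rw [extC_eq _ _ hu]
  have e : S.abs.dex u = bit S.dex u := rfl
  rw [e]
  cases bit S.dex u
  · rfl
  · rfl

namespace KC

theorem inp_repl (a : ℕ) {g w p : ℕ} (hg : g < 64) (hw : w < 256) (hp : p ≤ 1) :
    (fun (h : ℕ) (i : Bool) => gi (replL a g w p) (2 * h + i.toNat)) =
      fun h i => if h < 64 ∧ gi a (2 * h + i.toNat) = g then w else gi a (2 * h + i.toNat) := by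
  funext h i
  rw [gi_replL a (by omega) hw hp]
  simp only [slot_lt]

theorem pol_repl (a : ℕ) {g w p : ℕ} (hg : g < 64) (hw : w < 256) (hp : p ≤ 1) :
    (fun (h : ℕ) (i : Bool) => (gp (replL a g w p) (2 * h + i.toNat)).beq 1) =
      fun h i => ((gp a (2 * h + i.toNat)).beq 1 ^^
        (decide (h < 64 ∧ gi a (2 * h + i.toNat) = g) && p.beq 1)) := by
  funext h i
  rw [gp_replL a (by omega) hw hp]
  simp only [slot_lt]

theorem may_repl (m : ℕ) {g : ℕ} (hg : g < 64) (w : ℕ) :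
    (fun r v => bit (g64 (replM m g w) r) v) = fun r v =>
      (bit (g64 m r) v || (decide (64 ≤ r ∧ r < 192) && bit (g64 m r) g && bit (g64 m w) v)) := by
  funext r v
  exact bit_replM m hg w r v

theorem replG_abs {g w p : ℕ} (hg : g < 64) (hk : S.abs.gate g = true) (hw : w < 256)
    (hp : p ≤ 1) : (S.replG g w p).abs = S.abs.repl g w (p.beq 1) := by
  apply sim_ext <;> try rfl
  · exact bit_sb _ _ (by omega)
  · show gc (sc _ _ _) = if S.abs.gate g then _ else _
    rw [if_pos hk, gc_sc _ _ (dec_lt _ _), gc_sc _ _ (dec_lt _ _), gc_sc _ _ (sat_lt _),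
      decC_eq, decC_eq, satC_eq, ub_abs hg, slot1, slot0]
    rfl
  · show g4 (s4 _ _ _) = _
    rw [g4_s4 _ _ (mn_lt _ _ _), mn_eq]
    rfl
  · exact inp_repl _ hg hw hp
  · exact pol_repl _ hg hw hp
  · exact may_repl _ hg _
  · exact cond_beq _ _ _ _
  · show _ = if S.abs.gate g then _ else _
    rw [if_pos hk]; rfl
  · show _ = if S.abs.gate g then _ else _
    rw [if_pos hk]; rfl
  · show _ = if S.abs.gate g then _ else _
    rw [if_pos hk]; rfl

theorem sub_abs {g w p : ℕ} (hg : g < 64) (hk : S.abs.gate g = false) (hw : w < 256)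
    (hp : p ≤ 1) : (S.sub g w p).abs = S.abs.sub g w (p.beq 1) := by
  have hk' : ¬ S.abs.gate g = true := by rw [hk]; decide
  apply sim_ext <;> try rfl
  · exact bit_sb _ _ (by omega)
  · show gc (sc _ _ _) = if S.abs.gate g then _ else _
    rw [if_neg hk', gc_sc _ _ (sat_lt _), satC_eq, ub_abs hg]
    rfl
  · show g2 (s2 _ _ _) = _
    rw [g2_s2 _ _ (by simp only [Nat.sub_eq]; omega)]
    rfl
  · show g4 (s4 _ _ _) = _
    rw [g4_s4 _ _ (mn_lt _ _ _), mn_eq]
    rfl
  · exact inp_repl _ hg hw hp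
  · exact pol_repl _ hg hw hp
  · exact may_repl _ hg _
  · exact cond_beq _ _ _ _
  · show _ = if S.abs.gate g then _ else _
    rw [if_neg hk']; rfl
  · show _ = if S.abs.gate g then _ else _
    rw [if_neg hk']; rfl
  · show S.elim.add (crC _) = if S.abs.gate g then _ else _
    rw [if_neg hk', crC_eq]; rfl

theorem rewire_abs (g : ℕ) (b : Bool) {i p : ℕ} (hi : i ≤ 1) (hp : p ≤ 1) :
    (S.rewire (2 * g + b.toNat) i p).abs = S.abs.rewire g b (i.beq 1) (p.beq 1) := by
  apply sim_ext <;> try rfl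
  · show gc (sc _ _ _) = _
    rw [gc_sc _ _ (dec_lt _ _), gc_sc _ _ (sat_lt _), decC_eq, satC_eq, slotb _ hi]
    rfl
  · show (fun (h : ℕ) (j : Bool) => gi (sl _ _ _ _) (2 * h + j.toNat)) = _
    rw [gi_sl _ _ (gi_lt _ _) hp, slotb _ hi]
    funext h j
    simp only [upd, slot_inj]
    rfl
  · show (fun (h : ℕ) (j : Bool) => (gp (sl _ _ _ _) (2 * h + j.toNat)).beq 1) = _
    rw [gp_sl _ _ (gi_lt _ _) hp]
    funext h j
    show _ = if h = g ∧ j = b then _ else _
    simp only [upd, slot_inj]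
    split_ifs <;> rfl

theorem addG_abs (hn : S.n < 64) (h : ℕ) {a pa b pb : ℕ} (ha : a < 256) (hb : b < 256)
    (hpa : pa ≤ 1) (hpb : pb ≤ 1) :
    (S.addG h a pa b pb).abs = S.abs.addG h a (pa.beq 1) b (pb.beq 1) := by
  apply sim_ext <;> try rfl
  · exact bit_sb _ _ le_rfl
  · exact bit_sb _ _ le_rfl
  · exact bit_sb _ _ le_rfl
  · exact bit_sb _ _ le_rfl
  · funext v
    show bit (Nat.lor _ _) v = (decide (v = S.n) || (decide (S.hst = h) && bit S.pend v))
    rw [bit_lor, bit_one, cond_beq]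
    by_cases e : S.hst = h
    · simp only [e, if_true, decide_true, Bool.true_and]
    · simp only [e, if_false, decide_false, Bool.false_and, bit_zero]
  · exact g4_s4 _ _ (by omega)
  · show gc (sc _ _ _) = _
    rw [gc_sc _ _ (sat_lt _), gc_sc _ _ (sat_lt _), gc_sc _ _ (by omega : 0 < 256), satC_eq,
      satC_eq]
    rfl
  · exact g4_s4 _ _ (by omega)
  · show (fun (u : ℕ) (j : Bool) => gi (sl _ _ _ _) (2 * u + j.toNat)) = _
    rw [gi_sl _ _ hb hpb, gi_sl _ _ ha hpa, slot1, slot0]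
    funext u j
    show _ = (if u = S.n then (fun i : Bool => if i then b else a) else _) j
    simp only [upd, slot_inj]
    by_cases e : u = S.n
    · cases j <;> simp [e]
    · simp only [e, false_and, if_false]
      rfl
  · show (fun (u : ℕ) (j : Bool) => (gp (sl _ _ _ _) (2 * u + j.toNat)).beq 1) = _
    rw [gp_sl _ _ hb hpb, gp_sl _ _ ha hpa, slot1, slot0]
    funext u j
    show _ = (if u = S.n then (fun i : Bool => if i then pb.beq 1 else pa.beq 1) else _) j
    simp only [upd, slot_inj]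
    by_cases e : u = S.n
    · cases j <;> simp [e]
    · simp only [e, false_and, if_false]
      rfl
  · show (fun (r v : ℕ) => bit (g64 (s64 _ _ _) r) v) = _
    rw [g64_s64 _ _ (by rw [one_eq]; exact Nat.pow_lt_pow_right (by omega) hn)]
    funext r v
    show _ = (if r = S.n then (fun v => decide (v = S.n)) else _) v
    simp only [upd]
    split_ifs
    · exact bit_one _ _
    · rfl

theorem depG_abs (g : ℕ) : (S.depG g).abs = S.abs.depG g := by
  apply sim_ext <;> try rfl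
  show g4 (s4 _ _ _) = _
  rw [g4_s4 _ _ (mn_lt _ _ _), mn_eq, mx_eq, slot1, slot0]
  rfl

theorem pend_abs : (CS.abs { S with pend := 0 }) = { S.abs with pend := fun _ => false } := by
  apply sim_ext <;> try rfl
  funext v
  exact bit_zero v

theorem path_below (hn : S.n ≤ 61) (y h k : ℕ) (hk : S.path y h (k + 1) < 255) :
    S.abs.Below h (S.path y h (k + 1)) := by
  induction k with
  | zero =>
    have e : S.path y h (0 + 1) = cond (S.ag h) (gi S.li ((h.mul 2).add (b1 y 0))) 255 := rfl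
    rw [e] at hk ⊢
    cases hg : S.ag h
    · rw [hg] at hk; simp at hk
    · rw [slotb _ (b1_le _ _)]
      exact Sim.Below.inp _
  | succ k ih =>
    have e : S.path y h (k + 1 + 1) = cond (S.ag (S.path y h (k + 1)))
        (gi S.li (((S.path y h (k + 1)).mul 2).add (b1 y (k + 1)))) 255 := rfl
    rw [e] at hk ⊢
    cases hg : S.ag (S.path y h (k + 1))
    · rw [hg] at hk; simp at hk
    · rw [slotb _ (b1_le _ _)]
      have hA := ag_iff.1 hg
      have hlt : S.path y h (k + 1) < S.n := hA.1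
      exact Sim.Below.step _ (ih (by omega)) hA

theorem tgt_below (hn : S.n ≤ 61) (h x : ℕ) (hk : S.tgt h x < 255) :
    S.abs.Below h (S.tgt h x) := by
  unfold CS.tgt at hk ⊢
  simp only [] at hk ⊢
  generalize x.land 7 = k at hk ⊢
  generalize (x.shiftRight 3).land 255 = y at hk ⊢
  rw [cond_beq] at hk ⊢
  split_ifs at hk ⊢ with h0
  · cases hb : (y.beq 192 || (S.hst.beq h && (bit S.pend y && (y.blt S.n && bit S.al y))))
    · rw [hb] at hk; simp at hk
    · simp only [Bool.or_eq_true, Bool.and_eq_true, Nat.beq_eq, Nat.blt_eq] at hb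
      rcases hb with rfl | ⟨h1, h2, h3, h4⟩
      · exact Sim.Below.cf
      · exact Sim.Below.pend h1 h2 ⟨h3, h4⟩
  · obtain ⟨k, rfl⟩ := Nat.exists_eq_succ_of_ne_zero h0
    exact path_below hn y h k hk

end KC

theorem ev_sound (val : ℕ → Bool) (hv : S.abs.Cons val) (leaf : ℕ → ℕ) {i : ℕ} (hi : i < 256)
    (R : ℕ → Prop) (hR : ∀ r, R r → S.abs.AG r → ∀ b, R (S.abs.inp r b))
    (hl : ∀ r, R r → leaf r < tErr → (leaf r).testBit i = val r) (fuel r : ℕ) (hr : R r) :
    S.ev leaf fuel r < 2 * tErr ∧ (S.ev leaf fuel r < tErr → (S.ev leaf fuel r).testBit i = val r) := by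
  have hp := tErr_pos
  induction fuel generalizing r with
  | zero =>
    have e : S.ev leaf 0 r = tErr := rfl
    rw [e]
    exact ⟨by omega, fun h => absurd h (lt_irrefl _)⟩
  | succ f ih =>
    have e : S.ev leaf (f + 1) r = cond ((leaf r).blt tErr) (leaf r)
        (cond (r.beq 192) 0 (cond (S.ag r && bit S.uf r)
          (tAnd (tNeg (S.ev leaf f (gi S.li (r.mul 2))) (gp S.li (r.mul 2)))
            (tNeg (S.ev leaf f (gi S.li ((r.mul 2).add 1))) (gp S.li ((r.mul 2).add 1))))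
          tErr)) := rfl
    rw [e]
    cases h1 : (leaf r).blt tErr
    · rw [cond_false, cond_beq]
      split_ifs with h2
      · subst h2
        exact ⟨by omega, fun _ => by rw [Nat.zero_testBit, hv.1]⟩
      · cases h3 : (S.ag r && bit S.uf r)
        · rw [cond_false]
          exact ⟨by omega, fun h => absurd h (lt_irrefl _)⟩
        · rw [cond_true, slot1, slot0]
          rw [Bool.and_eq_true] at h3
          have hA := ag_iff.1 h3.1
          have i0 := ih _ (hR r hr hA false)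
          have i1 := ih _ (hR r hr hA true)
          have n0 := tNeg_spec (t := S.ev leaf f (S.abs.inp r false))
            (gp_le S.li (2 * r + false.toNat)) hi
          have n1 := tNeg_spec (t := S.ev leaf f (S.abs.inp r true))
            (gp_le S.li (2 * r + true.toNat)) hi
          have a := tAnd_spec (n0.2.1.2 i0.1) (n1.2.1.2 i1.1) hi
          refine ⟨a.2.1, fun h => ?_⟩
          have b := a.2.2 h
          refine a.1.trans ?_
          rw [n0.1, n1.1, i0.2 (n0.2.2.1 b.1), i1.2 (n1.2.2.1 b.2), hv.2 r hA h3.2]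
          rfl
    · rw [cond_true]
      have h1' : leaf r < tErr := Nat.blt_eq.mp h1
      exact ⟨by omega, fun _ => hl r hr h1'⟩

namespace KC

/-- a row of the tables of a cut on which all tables show the valuation -/
theorem ev_row (val : ℕ → Bool) (hv : S.abs.Cons val) (z : ℕ) {k : ℕ} (hk : k ≤ 8) :
    ∃ i < 256, ∀ fuel r, S.ev (tCut z k) fuel r < 2 * tErr ∧
      (S.ev (tCut z k) fuel r < tErr → (S.ev (tCut z k) fuel r).testBit i = val r) := by
  obtain ⟨i, hi, h⟩ := tCut_row z hk val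
  exact ⟨i, hi, fun fuel r => ev_sound val hv _ hi (fun _ => True) (fun _ _ _ _ => trivial)
    (fun r _ hr => (h r hr).1) fuel r trivial⟩

theorem cons_slot {val : ℕ → Bool} (hv : S.abs.Cons val) {g : ℕ} (hg : S.abs.AG g)
    (hu : S.abs.uf g = true) (i : Bool) : val g = ((val (S.abs.inp g i) ^^ S.abs.pol g i) &&
      (val (S.abs.inp g (!i)) ^^ S.abs.pol g (!i))) := by
  rw [hv.2 g hg hu]
  cases i
  · rfl
  · rw [Bool.and_comm]; rfl

end KC

/-- the state after the operation is `S'`, and the rest of the run succeeds -/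
theorem op_abs (hn : S.n ≤ 61) {r : CS → ℕ → Bool} {x : ℕ} (h : CS.op r S x = true) :
    ∃ S' y, S.abs.Op (CS.abs S') ∧ r S' y = true := by
  unfold CS.op at h
  simp only [] at h
  have hj : (x.shiftRight 4).land 127 ≤ 127 := land_le _ _
  generalize (x.shiftRight 4).land 127 = j at h hj
  generalize x.land 15 = c at h
  generalize x.shiftRight 11 = y at h
  have hp : j.land 1 ≤ 1 := land_le _ _
  generalize j.land 1 = p at h hp
  have hg : j.shiftRight 1 < 64 := by rw [half]; omega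
  have e1 := slotj j
  have e2 := slotx j
  generalize j.shiftRight 1 = g at h hg e1 e2
  generalize decide (j % 2 = 1) = i at e1 e2
  rw [← e2] at h
  subst e1
  have ga : ∀ u b, gi S.li (2 * u + Bool.toNat b) = S.abs.inp u b := fun _ _ => rfl
  have gb : ∀ u b, (gp S.li (2 * u + Bool.toNat b)).beq 1 = S.abs.pol u b := fun _ _ => rfl
  have lt64 : ∀ {u}, S.abs.AG u → u < 64 := fun {u} hu => by
    have : u < S.n := hu.1
    omega
  have lt64' : ∀ {u}, S.abs.AV u → u < 64 := fun {u} hu => by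
    have : u < S.n := hu.1
    omega
  have il : ∀ u b, S.abs.inp u b < 256 := fun _ _ => gi_lt _ _
  simp only [cond_iff, Bool.and_eq_true, ag_iff, av_iff, Nat.beq_eq, Nat.ble_eq, Nat.blt_eq,
    Bool.not_eq_true', nbeq_false, ga] at h
  rcases h with ⟨-, hA, hu, h⟩ | ⟨-, ⟨-, ⟨-, ⟨-, hV, ht, h⟩ | ⟨-, hA, hu, h⟩⟩ |
      ⟨-, ⟨-, hA, hw, hk, ht, he, h⟩ | ⟨-, hV, hW, hne, ht, h1, h2, h⟩⟩⟩ |
      ⟨-, ⟨-, ⟨-, hA, h⟩ | ⟨-, ⟨-, hA, hV, hu, hB, hs, h⟩ | ⟨-, hA, hn', hu, hw, h⟩⟩⟩ |
      ⟨-, ⟨-, hA, hu, hB, hk, ht, he, h⟩ |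
        ⟨-, ⟨-, hA, hB, hne, hu, hu', a1, a2, a3, a4, h⟩ | ⟨-, ho, hA, hB, hs, h⟩⟩⟩⟩⟩
  · rcases h with ⟨ha, ⟨h0, h⟩ | ⟨h0, h⟩⟩ | ⟨-, ha, ⟨h0, h⟩ | ⟨h0, h⟩⟩
    · refine ⟨_, _, ?_, h⟩
      rw [replG_abs hg hA.2.2 (by omega) (by omega)]
      refine Sim.Op.ali g 192 _ hA Sim.Below.cf fun val hv => ?_
      rw [cons_slot hv hA hu i, ha, ← gb g i, h0, hv.1]
      rfl
    · refine ⟨_, _, ?_, h⟩
      rw [replG_abs hg hA.2.2 (il _ _) (gp_le _ _), gb]
      refine Sim.Op.ali g _ _ hA (Sim.Below.inp _) fun val hv => ?_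
      have h1 : gp S.li (2 * g + i.toNat) = 1 := by
        have := gp_le S.li (2 * g + i.toNat)
        omega
      rw [cons_slot hv hA hu i, ha, ← gb g i, h1, hv.1]
      rfl
    · refine ⟨_, _, ?_, h⟩
      rw [replG_abs hg hA.2.2 (il _ _) (gp_le _ _), gb]
      refine Sim.Op.ali g _ _ hA (Sim.Below.inp _) fun val hv => ?_
      rw [cons_slot hv hA hu i, ha, ← gb g (!i), ← h0, gb, Bool.and_self]
    · refine ⟨_, _, ?_, h⟩
      rw [replG_abs hg hA.2.2 (by omega) (by omega)]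
      refine Sim.Op.ali g 192 _ hA Sim.Below.cf fun val hv => ?_
      rw [cons_slot hv hA hu i, ha, ← gb g i, beq_ne (gp_le _ _) (gp_le _ _) h0, gb, hv.1]
      cases val (S.abs.inp g (!i)) <;> cases S.abs.pol g (!i) <;> rfl
  · refine ⟨_, _, ?_, h⟩
    rw [sub_abs hg hV.2.2 (by omega) hp]
    exact Sim.Op.fix g _ hV ht
  · refine ⟨_, _, ?_, h⟩
    rw [replG_abs hg hA.2.2 (by omega) (by omega)]
    exact Sim.Op.dead g hA (ub_abs hg ▸ hu)
  · refine ⟨_, _, ?_, h⟩
    rw [replG_abs hg hA.2.2 (by omega) hp]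
    refine Sim.Op.ali g _ _ hA (tgt_below hn _ _ hw) fun val hv => ?_
    obtain ⟨q, hq, hr⟩ := ev_row val hv (y.shiftRight 15) hk
    have n0 := tNeg_spec (t := S.ev (tCut (y.shiftRight 15) ((y.shiftRight 11).land 15)) 12
      (S.tgt g y)) hp hq
    rw [← he] at n0
    rw [← (hr 12 g).2 ht, n0.1, (hr 12 _).2 (n0.2.2.1 ht)]
  · refine ⟨_, _, ?_, h⟩
    have hw := lt64' hW
    rw [sub_abs hg hV.2.2 (by omega) (xor_two h1 h2).1]
    exact Sim.Op.proj g _ _ hV hW hne ht h1 h2 (xor_two h1 h2).2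
  · refine ⟨_, _, ?_, h⟩
    rw [depG_abs]
    exact Sim.Op.dep g hA
  · refine ⟨_, _, ?_, h⟩
    rw [replG_abs (lt64 hB) hB.2.2 (by omega) (xor_one (gp_le _ _)).1, (xor_one (gp_le _ _)).2, gb]
    exact Sim.Op.sel g i hA hV (ub_abs (lt64' hV) ▸ hu) hB hs
  · refine ⟨_, _, ?_, h⟩
    rw [addG_abs (by omega) g (by omega) (by omega) (land_le _ _) hp]
    exact Sim.Op.add g _ _ _ _ hA hn' (tgt_below hn _ _ hu) (tgt_below hn _ _ hw)
  · refine ⟨_, _, ?_, h⟩
    rw [rewire_abs g i (land_le _ _) (b1_le _ _)]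
    refine Sim.Op.rew g i _ _ hA hu hB fun val hv => ?_
    obtain ⟨q, hq, hr⟩ := ev_row val hv (y.shiftRight 6) hk
    rw [slotb _ (land_le _ _), ga] at he
    have n0 := tNeg_spec (t := S.ev (tCut (y.shiftRight 6) ((y.shiftRight 2).land 15)) 12
      (S.abs.inp (S.abs.inp g i) ((y.land 1).beq 1))) (b1_le y 1) hq
    have n1 := tNeg_spec (t := S.ev (tCut (y.shiftRight 6) ((y.shiftRight 2).land 15)) 12
      (S.abs.inp g (!i))) (gp_le S.li (2 * g + (!i).toNat)) hq
    have a := tAnd_spec (n0.2.1.2 (hr 12 _).1) (n1.2.1.2 (hr 12 _).1) hq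
    rw [← he] at a
    have b := a.2.2 ht
    rw [← (hr 12 g).2 ht, a.1, n0.1, n1.1, (hr 12 _).2 (n0.2.2.1 b.1),
      (hr 12 _).2 (n1.2.2.1 b.2), gb]
  · refine ⟨_, _, ?_, h⟩
    have f1 := slotj (y.land 127)
    have f2 := slotx (y.land 127)
    have hh := lt64 hB
    generalize (y.land 127).shiftRight 1 = u at *
    generalize decide ((y.land 127) % 2 = 1) = l at f1 f2
    rw [← f2] at a2 a4
    rw [← f1] at a1 a3
    rw [ga] at a1 a2
    have b3 : S.abs.pol g i = S.abs.pol u l := by rw [← gb, ← gb, a3]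
    have b4 : S.abs.pol g (!i) = S.abs.pol u (!l) := by rw [← gb, ← gb, a4]
    rw [replG_abs (S := { S with pend := 0 }) hg hA.2.2 (by omega) (by omega), pend_abs]
    refine Sim.Op.mrg g u (i ^^ l) hA hB hne hu hu' fun m => ?_
    cases i <;> cases l <;> cases m <;> first | exact ⟨a1, b3⟩ | exact ⟨a2, b4⟩
  · refine ⟨_, _, ?_, h⟩
    rw [replG_abs (lt64 hB) hB.2.2 (by omega) (xor_one (gp_le _ _)).1, (xor_one (gp_le _ _)).2, gb]
    subst ho
    exact Sim.Op.outi i hA hB hs

end Pool.Agent.Lib.MP_79d702_lc.U2
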