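import Pool.Agent.Lib.MP_79d702_lc.U2.SimA

/-!
Soundness of the operations of the symbolic simulation.
-/

namespace Pool.Agent.Lib.MP_79d702_lc.U2

variable {s : FS} {C : Ckt} {V : (ℕ → Bool) → ℕ → Bool}
variable {S : Sim} {s' : FS} {C' : Ckt} {V' : (ℕ → Bool) → ℕ → Bool} {H : Gh}

namespace SimB

theorem ag_alive {g : ℕ} (h : S.AG g) : S.Alive g := ⟨h.1, h.2.1⟩

theorem av_alive {g : ℕ} (h : S.AV g) : S.Alive g := ⟨h.1, h.2.1⟩

theorem upd_self {α : Type} (f : ℕ → α) (u : ℕ) (v : α) : upd f u v u = v := if_pos rfl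

theorem upd_ne {α : Type} (f : ℕ → α) {u w : ℕ} (v : α) (h : w ≠ u) : upd f u v w = f w := if_neg h

theorem alive_node (I : Inv S s C s' C' V' H) {u : ℕ} (hu : S.Alive u) :
    (H.ψ u).1 ∈ s'.X ∨ (H.ψ u).1 ∈ C'.G := by
  cases h : S.gate u
  · exact Or.inl (I.var u ⟨hu.1, hu.2, h⟩)
  · exact Or.inr (I.gat u ⟨hu.1, hu.2, h⟩)

theorem alive_ne_zero (I : Inv S s C s' C' V' H) {u : ℕ} (hu : S.Alive u) : (H.ψ u).1 ≠ 0 := by
  intro e
  rcases alive_node I hu with h | h
  · exact I.model.zx (e ▸ h)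
  · exact I.model.zg (e ▸ h)

theorem alive_not_U (I : Inv S s C s' C' V' H) {u : ℕ} (hu : S.Alive u) : u ∉ H.U := by
  intro h
  have := I.usub u h
  have := I.n61
  have := hu.1
  omega

theorem big (K : Ctx s C V) (I : Inv S s C s' C' V' H) : 515 ≤ s'.X.card := by
  have := K.big
  have := I.cardX
  have := I.t80
  omega

theorem not_xor_sw (i w : Bool) : (!(i ^^ w)) = ((!i) ^^ w) := by
  cases i <;> cases w <;> rfl

/-- a gate is replaced by a literal with the same values -/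
theorem gate_repl (I : Inv S s C s' C' V' H) {g w : ℕ} {p : Bool} (hg : S.AG g)
    (hw : S.Valid H w) (hn : Node s' C' (H.ψ w).1) (hne : (H.ψ w).1 ≠ (H.ψ g).1)
    (hrk : (H.ψ w).1 ∈ C'.G → ∀ h ∈ C'.G, ∀ i, (C'.inp h i).1 = (H.ψ g).1 →
      C'.rk (H.ψ w).1 < C'.rk h)
    (hsem : (C'.deg (H.ψ g).1 = 0 ∧ (H.ψ w).1 = 0) ∨
      ∀ a, lit (V' a) (H.ψ g) = (lit (V' a) (H.ψ w) ^^ p)) : Good (S.repl g w p) s C := by
  have hG := I.gat g hg
  have key : (∀ a, lit (V' a) (H.ψ g) = (lit (V' a) (H.ψ w) ^^ p)) →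
      ∀ a, V' a (H.ψ g).1 = lit (V' a) ((H.ψ w).1, (H.ψ w).2 ^^ p ^^ (H.ψ g).2) := by
    intro h a
    have := h a
    simp only [lit] at this ⊢
    revert this
    cases V' a (H.ψ g).1 <;> cases (H.ψ g).2 <;> cases V' a (H.ψ w).1 <;> cases (H.ψ w).2 <;>
      cases p <;> simp
  have M := I.model.merge (l := ((H.ψ w).1, (H.ψ w).2 ^^ p ^^ (H.ψ g).2)) hG hn hne
    (hsem.imp And.left key) hrk
  refine I.repl (ag_alive hg) hw hne M Reach.refl ?_ ?_ (fun _ _ h => h) (hsem.imp And.right key)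
    S.sg fun u hu _ h => I.sg u hu h
  · rw [Finset.erase_eq_of_notMem fun h => I.model.dis _ h hG]
  · intro h
    rw [hg.2.2] at h
    exact absurd h (by simp)

theorem const_repl (I : Inv S s C s' C' V' H) {g : ℕ} {p : Bool} (hg : S.AG g)
    (hsem : C'.deg (H.ψ g).1 = 0 ∨ ∀ a, lit (V' a) (H.ψ g) = p) : Good (S.repl g 192 p) s C := by
  have h0 : (H.ψ 192).1 = 0 := by rw [I.cf]
  refine gate_repl I hg (Or.inr (Or.inr rfl)) (Or.inl h0) ?_ ?_ ?_
  · rw [h0]
    exact (alive_ne_zero I (ag_alive hg)).symm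
  · intro h
    exact absurd (h0 ▸ h) I.model.zg
  · refine hsem.imp (fun h => ⟨h, h0⟩) fun h a => ?_
    rw [h a, I.cf]
    simp [lit, I.model.v0]

theorem op_fix (I : Inv S s C s' C' V' H) {x : ℕ} (p : Bool) (hx : S.AV x) (ht : S.t < 80) :
    Good (S.sub x 192 p) s C := by
  have h0 : (H.ψ 192).1 = 0 := by rw [I.cf]
  have hX := I.var x hx
  have M := I.model.fix hX ((H.ψ 192).2 ^^ p ^^ (H.ψ x).2)
  refine I.repl (s'' := s'.fix (H.ψ x).1 ((H.ψ 192).2 ^^ p ^^ (H.ψ x).2)) (av_alive hx)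
    (Or.inr (Or.inr rfl)) ?_ (by rw [h0]; exact M) (Reach.refl.fix _ hX) rfl (fun _ => ht)
    (fun _ _ h => h.fix) (Or.inl h0) _ fun u hu _ h => ?_
  · rw [h0]
    exact (alive_ne_zero I (av_alive hx)).symm
  · have hu' : u ≠ 192 := by
      have := I.n61
      have := hu.1
      omega
    rw [upd_ne _ _ hu'] at h ⊢
    exact I.sg u hu h

theorem op_proj (I : Inv S s C s' C' V' H) {x y : ℕ} {p : Bool} (hx : S.AV x) (hy : S.AV y)
    (hxy : x ≠ y) (ht : S.t < 80) (sx : S.sg x ≤ 1) (sy : S.sg y ≤ 1)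
    (hp : p = (decide (S.sg x = 1) ^^ decide (S.sg y = 1))) : Good (S.sub x y p) s C := by
  have hX := I.var x hx
  have hY := I.var y hy
  have hne : (H.ψ x).1 ≠ (H.ψ y).1 := fun e => hxy (I.inj x y (av_alive hx) (av_alive hy) e)
  have M := I.model.proj hX hY hne
  have e : (s'.sg (H.ψ x).1 ^^ s'.sg (H.ψ y).1) = ((H.ψ y).2 ^^ p ^^ (H.ψ x).2) := by
    rw [I.sg x hx sx, I.sg y hy sy, hp]
    cases decide (S.sg x = 1) <;> cases decide (S.sg y = 1) <;> cases (H.ψ x).2 <;>
      cases (H.ψ y).2 <;> cases H.ε <;> rfl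
  rw [e] at M
  refine I.repl (s'' := s'.proj (H.ψ x).1 (H.ψ y).1) (av_alive hx) (Or.inl (av_alive hy)) hne.symm M
    (Reach.refl.proj hX hY hne) rfl (fun _ => ht) (fun _ _ h => h.proj) (Or.inr fun a => ?_) _
    fun u hu _ h => ?_
  · simp only [lit]
    rw [I.model.vx _ _ hX, I.model.vx _ _ hY, Function.update_self, Function.update_of_ne hne.symm]
  · change Function.update s'.sg (H.ψ y).1 (!s'.sg (H.ψ y).1) (H.ψ u).1 = _
    by_cases huy : u = y
    · subst huy
      rw [Function.update_self, upd_self, I.sg u hu sy]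
      have : S.sg u = 0 ∨ S.sg u = 1 := by omega
      rcases this with h' | h' <;> rw [h'] <;> cases (H.ψ u).2 <;> cases H.ε <;> rfl
    · rw [upd_ne _ _ huy] at h ⊢
      rw [Function.update_of_ne fun e => huy (I.inj u y (av_alive hu) (av_alive hy) e)]
      exact I.sg u hu h

theorem op_ali (I : Inv S s C s' C' V' H) {g w : ℕ} {p : Bool} (hg : S.AG g) (hw : S.Below g w)
    (hv : ∀ val, S.Cons val → val g = (val w ^^ p)) : Good (S.repl g w p) s C := by
  obtain ⟨h1, h2, h3, h4⟩ := I.below hg hw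
  refine gate_repl I hg h1 h2 h4 (fun h k hk i hi => ?_) (Or.inr fun a => hv _ (I.cons a))
  have := I.model.rk k hk i (by rw [hi]; exact I.gat g hg)
  rw [hi] at this
  exact (h3 h).trans this

theorem rsum_setrk {g r : ℕ} (hr : r ≤ C.rk g) : (C.setrk g r).rsum ≤ C.rsum := by
  refine Finset.sum_le_sum fun h _ => Finset.sum_le_sum fun i _ => ?_
  change (if (C.inp h i).1 ∈ C.G then (if (C.inp h i).1 = g then r else C.rk (C.inp h i).1) + 1
    else 0) ≤ _
  split_ifs with h1 h2
  · rw [h2]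
    omega
  · exact le_rfl
  · exact le_rfl

theorem inv_setrk (I : Inv S s C s' C' V' H) {g r : ℕ} (hr : r ≤ C'.rk g)
    (hin : ∀ i, (C'.inp g i).1 ∈ C'.G → C'.rk (C'.inp g i).1 < r) :
    Inv { S with pend := fun _ => false } s C s' (C'.setrk g r) V' H where
  n61 := I.n61
  t80 := I.t80
  usub := I.usub
  cf := I.cf
  reach := I.reach
  model := I.model.setrk hr hin
  cardX := I.cardX
  cardG := I.cardG
  inj := I.inj
  var := I.var
  gat := I.gat
  wire := I.wire
  uf := I.uf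
  out := I.out
  sg := I.sg
  sd := I.sd
  cov := I.cov
  degv := I.degv
  degh := I.degh
  link := I.link
  d0 := I.d0
  elim := I.elim
  pend := fun _ _ _ h => absurd h (by simp)
  rs := fun h => (Nat.add_le_add_right (rsum_setrk hr) _).trans (I.rs h)

theorem op_mrg (I : Inv S s C s' C' V' H) {h g : ℕ} {x : Bool} (hh : S.AG h) (hg : S.AG g)
    (hne : h ≠ g) (uh : S.uf h = true) (ug : S.uf g = true)
    (hi : ∀ i, S.inp h i = S.inp g (i ^^ x) ∧ S.pol h i = S.pol g (i ^^ x)) :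
    Good (S.merge h g) s C := by
  have Gh := I.gat h hh
  have Gg := I.gat g hg
  have hne' : (H.ψ g).1 ≠ (H.ψ h).1 := fun e =>
    hne (I.inj g h (ag_alive hg) (ag_alive hh) e).symm
  have same : ∀ i, ∃ j, (C'.inp (H.ψ g).1 i).1 = (C'.inp (H.ψ h).1 j).1 := by
    intro i
    refine ⟨(i ^^ H.sw g ^^ x) ^^ H.sw h, ?_⟩
    have e1 := (I.wire h hh (i ^^ H.sw g ^^ x)).2
    have e2 := (I.wire g hg (i ^^ H.sw g)).2
    have e3 : (i ^^ H.sw g ^^ H.sw g) = i := by simp
    have e4 : (i ^^ H.sw g ^^ x ^^ x) = (i ^^ H.sw g) := by simp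
    rw [e3] at e2
    rw [e1, e2, (hi _).1, e4]
  have hin : ∀ i, (C'.inp (H.ψ g).1 i).1 ∈ C'.G →
      C'.rk (C'.inp (H.ψ g).1 i).1 < min (C'.rk (H.ψ g).1) (C'.rk (H.ψ h).1) := by
    intro i hi
    obtain ⟨j, hj⟩ := same i
    refine lt_min (I.model.rk _ Gg i hi) ?_
    rw [hj] at hi ⊢
    exact I.model.rk _ Gh j hi
  have J := inv_setrk I (min_le_left _ _) hin
  refine gate_repl J (g := h) (w := g) (p := false) hh (Or.inl (ag_alive hg))
    (Or.inr (Or.inr Gg)) hne' (fun _ k hk i e => ?_) (Or.inr fun a => ?_)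
  · have e' : (C'.inp k i).1 = (H.ψ h).1 := e
    have h1 := I.model.rk k hk i (by rw [e']; exact Gh)
    rw [e'] at h1
    change (if (H.ψ g).1 = (H.ψ g).1 then _ else _) < if k = (H.ψ g).1 then _ else C'.rk k
    rw [if_pos rfl]
    split_ifs with h2
    · subst h2
      have h3 := hin i (by rw [e']; exact Gh)
      rw [e'] at h3
      omega
    · omega
  · have c := (I.cons a).2
    have c1 := c h hh uh
    have c2 := c g hg ug
    simp only at c1 c2
    rw [c1, c2, (hi false).1, (hi false).2, (hi true).1, (hi true).2]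
    cases x
    · simp
    · simp [Bool.and_comm]

theorem lit_of_wire (I : Inv S s C s' C' V' H) {g : ℕ} (hg : S.AG g) (i : Bool) (a : ℕ → Bool)
    (h : lit (V' a) (C'.inp (H.ψ g).1 (i ^^ H.sw g)) = true) :
    lit (V' a) (H.ψ (S.inp g i)) = !S.pol g i := by
  rw [(I.wire g hg i).2] at h
  simp only [lit] at h ⊢
  revert h
  cases V' a (H.ψ (S.inp g i)).1 <;> cases (H.ψ (S.inp g i)).2 <;> cases S.pol g i <;> simp

theorem dep_of_wire (I : Inv S s C s' C' V' H) {g : ℕ} (hg : S.AG g) (i : Bool) {d : ℕ}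
    (h : S.sd (S.inp g i) ≤ d) (hd : d ≤ 9) : Dep V' d (C'.inp (H.ψ g).1 (i ^^ H.sw g)).1 := by
  rw [(I.wire g hg i).2]
  exact (I.sd _ (I.wire g hg i).1 (h.trans hd)).mono h

theorem op_sel (K : Ctx s C V) (I : Inv S s C s' C' V' H) {g : ℕ} {i : Bool} (hg : S.AG g)
    (hx : S.AV (S.inp g i)) (hu : S.ub (S.inp g i) ≤ 1) (hk : S.AG (S.inp g (!i)))
    (hd : S.sd (S.inp g (!i)) ≤ 9) : Good (S.repl (S.inp g (!i)) 192 (!S.pol g (!i))) s C := by
  have h1 := I.ub_sound (av_alive hx) (by omega)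
  have h2 := selector I.model (K.p1 s' I.reach) (big K I) (I.var _ hx) (h1.trans hu) (I.gat g hg)
    (i := i ^^ H.sw g) (by rw [(I.wire g hg i).2])
    (by rw [not_xor_sw]; exact dep_of_wire I hg _ hd le_rfl)
  rw [not_xor_sw] at h2
  exact const_repl I hk (Or.inr fun a => lit_of_wire I hg _ a (h2 a))

theorem op_outi (K : Ctx s C V) (I : Inv S s C s' C' V' H) {i : Bool} (hg : S.AG S.out)
    (hk : S.AG (S.inp S.out i)) (hd : S.sd (S.inp S.out i) ≤ 9) :
    Good (S.repl (S.inp S.out i) 192 (!S.pol S.out i)) s C := by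
  have ho : C'.out.1 = (H.ψ S.out).1 := (I.out (by
    have := I.n61
    have := hg.1
    omega)).2
  have h2 := out_inp I.model (K.p1 s' I.reach) (big K I) (by rw [ho]; exact I.gat _ hg)
    (i ^^ H.sw S.out) (by rw [ho]; exact dep_of_wire I hg _ hd le_rfl)
  rw [ho] at h2
  exact const_repl I hk (Or.inr fun a => lit_of_wire I hg _ a (h2 a))

theorem op_dep (I : Inv S s C s' C' V' H) {g : ℕ} (hg : S.AG g) :
    Inv (S.depG g) s C s' C' V' H :=
  { I with
    sd := by
      intro r hr h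
      change upd S.sd g _ r ≤ 9 at h
      change Dep V' (upd S.sd g _ r) _
      by_cases e : r = g
      · subst e
        rw [upd_self] at h ⊢
        rcases le_total (S.sd r) (max (S.sd (S.inp r false)) (S.sd (S.inp r true)) + 1) with c | c
        · rw [min_eq_left c] at h ⊢
          exact I.sd r hr h
        · rw [min_eq_right c] at h ⊢
          refine Dep.gate I.model (I.gat r hg) fun i => ?_
          have e3 : i = (i ^^ H.sw r ^^ H.sw r) := by simp
          rw [e3]
          refine dep_of_wire I hg _ ?_ (by omega)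
          cases (i ^^ H.sw r)
          · exact le_max_left _ _
          · exact le_max_right _ _
      · rw [upd_ne _ _ e] at h ⊢
        exact I.sd r hr h }

/-- the moved wires after raising the counters of `a` and `b` -/
theorem A_bump {H H' : Gh} (hU : H'.U = H.U) (a b : ℕ) (hψ : ∀ r ∈ H.U, H'.ψ r = H.ψ r)
    (hγ : ∀ r ∈ H.U, H.γ r + (if r = a then 1 else 0) + (if r = b then 1 else 0) ≤ H'.γ r)
    (v : ℕ) : H.A v + (if a ∈ H.U ∧ (H.ψ a).1 = v then 1 else 0) +
      (if b ∈ H.U ∧ (H.ψ b).1 = v then 1 else 0) ≤ H'.A v := by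
  have one : ∀ a, (if a ∈ H.U ∧ (H.ψ a).1 = v then 1 else 0) =
      ∑ r ∈ H.U, if r = a then (if (H.ψ r).1 = v then 1 else 0) else 0 := by
    intro a
    rw [Finset.sum_ite_eq' H.U a fun r => if (H.ψ r).1 = v then 1 else 0, ite_and]
  rw [one a, one b]
  unfold Gh.A
  rw [hU, ← Finset.sum_add_distrib, ← Finset.sum_add_distrib]
  refine Finset.sum_le_sum fun r hr => ?_
  have := hγ r hr
  rw [hψ r hr]
  split_ifs at this ⊢ <;> omega

/-- a wire from the valid reference `a` to a visible node is seen directly or as a moved wire -/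
theorem wire_vis (I : Inv S s C s' C' V' H) {a u : ℕ} (ha : S.Valid H a) (hu : S.Alive u) :
    (if (H.ψ a).1 = (H.ψ u).1 then 1 else 0) ≤ (if u = a then 1 else 0) +
      (if a ∈ H.U ∧ (H.ψ a).1 = (H.ψ u).1 then 1 else 0) := by
  by_cases e : (H.ψ a).1 = (H.ψ u).1
  · rcases ha with ha | ha | rfl
    · rw [if_pos e, if_pos (I.inj a u ha hu e).symm]
      omega
    · rw [if_pos e, if_pos (⟨ha, e⟩ : _ ∧ _)]
      omega
    · rw [I.cf] at e
      exact absurd e.symm (alive_ne_zero I hu)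
  · rw [if_neg e]
    exact Nat.zero_le _

theorem wire_hid (I : Inv S s C s' C' V' H) {a v : ℕ} (ha : S.Valid H a) (hv : v ∈ s'.X)
    (hh : ∀ u, S.Alive u → (H.ψ u).1 ≠ v) :
    (if (H.ψ a).1 = v then 1 else 0) ≤ (if a ∈ H.U ∧ (H.ψ a).1 = v then 1 else 0) := by
  by_cases e : (H.ψ a).1 = v
  · rcases ha with ha | ha | rfl
    · exact absurd e (hh a ha)
    · rw [if_pos e, if_pos (⟨ha, e⟩ : _ ∧ _)]
    · rw [I.cf] at e
      have e' : 0 = v := e
      exact absurd (e' ▸ hv) I.model.zx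
  · rw [if_neg e]
    exact Nat.zero_le _

theorem op_rew (I : Inv S s C s' C' V' H) {g : ℕ} {i j p : Bool} (hg : S.AG g)
    (ug : S.uf g = true) (hh : S.AG (S.inp g i))
    (hv : ∀ val, S.Cons val → val g =
      ((val (S.inp (S.inp g i) j) ^^ p) && (val (S.inp g (!i)) ^^ S.pol g (!i)))) :
    Good (S.rewire g i j p) s C := by
  obtain ⟨h, eh⟩ : ∃ h, h = S.inp g i := ⟨_, rfl⟩
  obtain ⟨m, em⟩ : ∃ m, m = S.inp h j := ⟨_, rfl⟩
  rw [← eh] at hh hv
  rw [← em] at hv
  have Gg := I.gat g hg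
  have Gh := I.gat h hh
  obtain ⟨m1, m2, m3, m4⟩ := I.below hh (r := m) (em ▸ Sim.Below.inp j)
  have m5 := (I.below hg (r := m) (em ▸ Sim.Below.step j (eh ▸ Sim.Below.inp i) hh)).2.2.1
  have hmh : m ≠ h := fun e => m4 (by rw [e])
  have w1 : (C'.inp (H.ψ g).1 (i ^^ H.sw g)).1 = (H.ψ h).1 := by rw [(I.wire g hg i).2, eh]
  have hU := alive_not_U I (ag_alive hh)
  let l : ℕ × Bool := ((H.ψ m).1, (H.ψ m).2 ^^ p)
  let γ' : ℕ → ℕ := upd (upd H.γ m (H.γ m + 1)) h (H.γ h - 1)
  let H' : U2.Gh := { H with γ := γ' }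
  have hdeg : ∀ v, (C'.rew (H.ψ g).1 (i ^^ H.sw g) l).deg v + (if (H.ψ h).1 = v then 1 else 0) =
      C'.deg v + if (H.ψ m).1 = v then 1 else 0 := by
    intro v
    rw [← w1]
    exact deg_rew Gg
  have hA : ∀ v, H.A v + (if m ∈ H.U ∧ (H.ψ m).1 = v then 1 else 0) ≤ H'.A v := by
    intro v
    refine le_trans (Nat.le_add_right _ _) (A_bump (H := H) (H' := H') rfl m 0 (fun _ _ => rfl)
      (fun r hr => ?_) v)
    have h1 : r ≠ h := fun e => hU (e ▸ hr)
    have h2 : r ≠ 0 := by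
      have := I.usub r hr
      omega
    change _ ≤ upd (upd H.γ m (H.γ m + 1)) h (H.γ h - 1) r
    rw [upd_ne _ _ h1, if_neg h2]
    by_cases e : r = m
    · rw [e, upd_self, if_pos rfl]
    · rw [upd_ne _ _ e, if_neg e]
      omega
  have ec : (S.rewire g i j p).c = upd (upd S.c m (sat (S.c m + 1))) h (dec (S.c h)) := by
    subst eh em
    change upd _ _ (dec (upd _ _ _ _)) = _
    rw [upd_ne _ _ hmh.symm]
  have ei : (S.rewire g i j p).inp = upd2 S.inp g i m := by
    subst eh em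
    rfl
  refine ⟨s', C'.rew (H.ψ g).1 (i ^^ H.sw g) l, V', H', { I with
    model := ?_, wire := ?_, degv := ?_, degh := ?_, link := ?_, rs := ?_ }⟩
  · refine I.model.rew Gg m2 m5 fun a => ?_
    have c := hv _ (I.cons a)
    rw [not_xor_sw, (I.wire g hg (!i)).2]
    simp only [lit, I.uf g hg ug, Bool.xor_false] at c ⊢
    rw [c]
    simp only [l, Bool.xor_assoc]
  · intro k hk i'
    rw [ei]
    change S.Valid H (upd2 S.inp g i m k i') ∧ (C'.rew _ _ l).inp (H.ψ k).1 (i' ^^ H.sw k) =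
      ((H.ψ (upd2 S.inp g i m k i')).1, (H.ψ (upd2 S.inp g i m k i')).2 ^^ upd2 S.pol g i p k i')
    unfold upd2
    by_cases e : k = g ∧ i' = i
    · rw [if_pos e, if_pos e, e.1, e.2, rew_inp_self]
      exact ⟨m1, rfl⟩
    · rw [if_neg e, if_neg e, rew_inp_of_ne]
      · exact I.wire k hk i'
      · rintro ⟨e1, e2⟩
        have e3 := I.inj k g (ag_alive hk) (ag_alive hg) e1
        subst e3
        exact e ⟨rfl, by simpa using e2⟩
  · intro u hu
    have h1 := hdeg (H.ψ u).1
    have h2 := hA (H.ψ u).1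
    have h3 := I.degv u hu
    have h4 := wire_vis I m1 hu
    change (C'.rew _ _ l).deg (H.ψ u).1 + S.dlo u ≤
      H.d0 u + upd (upd H.γ m (H.γ m + 1)) h (H.γ h - 1) u + H'.A (H.ψ u).1
    by_cases e : u = h
    · subst e
      rw [upd_self]
      rw [if_pos rfl, if_neg m4] at h1
      omega
    · rw [upd_ne _ _ e]
      by_cases e' : u = m
      · subst e'
        rw [upd_self]
        rw [if_pos rfl] at h1
        omega
      · rw [upd_ne _ _ e']
        rw [if_neg e'] at h4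
        omega
  · intro v hv hh
    have h1 := hdeg v
    have h2 := hA v
    have h3 := I.degh v hv hh
    have h4 := wire_hid I m1 hv hh
    omega
  · intro r hr
    rw [ec]
    change _ → upd (upd H.γ m (H.γ m + 1)) h (H.γ h - 1) r ≤ _
    have h1 := I.link r hr
    by_cases e : r = h
    · subst e
      rw [upd_self, upd_self]
      unfold dec
      split_ifs <;> omega
    · rw [upd_ne _ _ e, upd_ne _ _ e]
      by_cases e' : r = m
      · subst e'
        rw [upd_self, upd_self]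
        unfold sat
        omega
      · rw [upd_ne _ _ e', upd_ne _ _ e']
        exact h1
  · intro h0
    have h1 := I.rs h0
    have h2 := rsum_rew (l := l) Gg (by rw [w1]; exact Gh) (by rw [w1]; exact m3)
    change _ + (S.rew + 1) ≤ _
    omega

theorem op_add (I : Inv S s C s' C' V' H) {h a b : ℕ} (pa pb : Bool) (hh : S.AG h)
    (hn : S.n < 61) (ha : S.Below h a) (hb : S.Below h b) : Good (S.addG h a pa b pb) s C := by
  obtain ⟨a1, a2, a3, -⟩ := I.below hh ha
  obtain ⟨b1, b2, b3, -⟩ := I.below hh hb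
  obtain ⟨w, hw, hT⟩ := exists_fresh s' C' (H.U.image fun r => (H.ψ r).1)
  have hwG : w ∉ C'.G := fun e => hw (Or.inr (Or.inr e))
  have vn : ∀ r, S.Valid H r → r ≠ S.n := by
    rintro r (hr | hr | rfl)
    · exact hr.1.ne
    · have := I.usub r hr
      omega
    · omega
  have vw : ∀ r, S.Valid H r → (H.ψ r).1 ≠ w := by
    rintro r (hr | hr | rfl) e
    · exact hw (Or.inr (e ▸ alive_node I hr))
    · exact hT (e ▸ Finset.mem_image_of_mem _ hr)
    · rw [I.cf] at e
      exact hw (Or.inl e.symm)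
  let l₀ : ℕ × Bool := ((H.ψ a).1, (H.ψ a).2 ^^ pa)
  let l₁ : ℕ × Bool := ((H.ψ b).1, (H.ψ b).2 ^^ pb)
  let γ' : ℕ → ℕ := fun r =>
    if r = S.n then 0 else H.γ r + (if r = a then 1 else 0) + (if r = b then 1 else 0)
  let H' : Gh := ⟨upd H.ψ S.n (w, false), upd H.sw S.n false, γ', upd H.d0 S.n 0, H.U, H.ε⟩
  let S' := S.addG h a pa b pb
  have alive : ∀ u, S'.Alive u → u = S.n ∨ (u ≠ S.n ∧ S.Alive u) := by
    intro u hu
    by_cases e : u = S.n
    · exact Or.inl e
    · have h1 : u < S.n + 1 := hu.1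
      have h2 : upd S.al S.n true u = true := hu.2
      rw [upd_ne _ _ e] at h2
      exact Or.inr ⟨e, by omega, h2⟩
  have alive' : ∀ u, S.Alive u → S'.Alive u := by
    intro u hu
    refine ⟨Nat.lt_succ_of_lt hu.1, ?_⟩
    change upd S.al S.n true u = true
    rw [upd_ne _ _ hu.1.ne]
    exact hu.2
  have ag : ∀ u, S'.AG u → u = S.n ∨ (u ≠ S.n ∧ S.AG u) := by
    intro u hu
    rcases alive u (ag_alive hu) with e | ⟨e, h1⟩
    · exact Or.inl e
    · have h2 : upd S.gate S.n true u = true := hu.2.2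
      rw [upd_ne _ _ e] at h2
      exact Or.inr ⟨e, h1.1, h1.2, h2⟩
  have av : ∀ u, S'.AV u → u ≠ S.n ∧ S.AV u := by
    intro u hu
    have h2 : upd S.gate S.n true u = false := hu.2.2
    rcases alive u (av_alive hu) with e | ⟨e, h1⟩
    · rw [e, upd_self] at h2
      exact absurd h2 (by simp)
    · rw [upd_ne _ _ e] at h2
      exact ⟨e, h1.1, h1.2, h2⟩
  have valid : ∀ r, S'.Valid H' r → r = S.n ∨ (r ≠ S.n ∧ S.Valid H r) := by
    rintro r (hr | hr | hr)
    · exact (alive r hr).imp_right fun h => ⟨h.1, Or.inl h.2⟩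
    · exact Or.inr ⟨vn r (Or.inr (Or.inl hr)), Or.inr (Or.inl hr)⟩
    · exact Or.inr ⟨vn r (Or.inr (Or.inr hr)), Or.inr (Or.inr hr)⟩
  have valid' : ∀ r, S.Valid H r → S'.Valid H' r := fun r hr => hr.imp_left (alive' r)
  have ψn : H'.ψ S.n = (w, false) := upd_self _ _ _
  have ψo : ∀ r, r ≠ S.n → H'.ψ r = H.ψ r := fun r hr => upd_ne _ _ hr
  have γo : ∀ r, r ≠ S.n →
      H'.γ r = H.γ r + (if r = a then 1 else 0) + (if r = b then 1 else 0) := fun r hr => if_neg hr
  have hdeg : ∀ v, (C'.add w (H.ψ h).1 l₀ l₁).deg v =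
      C'.deg v + (if (H.ψ a).1 = v then 1 else 0) + (if (H.ψ b).1 = v then 1 else 0) :=
    fun v => deg_add hwG
  have hA := A_bump (H := H) (H' := H') rfl a b (fun r hr => ψo r (vn r (Or.inr (Or.inl hr))))
    fun r hr => (γo r (vn r (Or.inr (Or.inl hr)))).ge
  have hid : ∀ v, (∀ u, S'.Alive u → (H'.ψ u).1 ≠ v) → ∀ u, S.Alive u → (H.ψ u).1 ≠ v := by
    intro v hv u hu
    rw [← ψo u hu.1.ne]
    exact hv u (alive' u hu)
  refine ⟨s', C'.add w (H.ψ h).1 l₀ l₁, addV V' w l₀ l₁, H',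
    { n61 := hn, t80 := I.t80, usub := I.usub, cf := ?_, reach := I.reach,
      model := I.model.add hw a2 b2 a3 b3, cardX := I.cardX, cardG := ?_, inj := ?_, var := ?_,
      gat := ?_, wire := ?_, uf := ?_, out := ?_, sg := ?_, sd := ?_, cov := ?_, degv := ?_,
      degh := ?_, link := ?_, d0 := ?_, elim := I.elim, pend := ?_, rs := ?_ }⟩
  · rw [ψo 192 (by omega), I.cf]
  · have := I.cardG
    change (insert w C'.G).card + S.rem = C.G.card + (S.add + 1)
    rw [Finset.card_insert_of_notMem hwG]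
    omega
  · intro u v hu hv e
    rcases alive u hu with rfl | ⟨u1, u2⟩ <;> rcases alive v hv with e' | ⟨v1, v2⟩
    · exact e'.symm
    · rw [ψn, ψo v v1] at e
      exact absurd e.symm (vw v (Or.inl v2))
    · rw [e', ψn, ψo u u1] at e
      exact absurd e (vw u (Or.inl u2))
    · rw [ψo u u1, ψo v v1] at e
      exact I.inj u v u2 v2 e
  · intro u hu
    obtain ⟨u1, u2⟩ := av u hu
    rw [ψo u u1]
    exact I.var u u2
  · intro g hg
    rcases ag g hg with rfl | ⟨g1, g2⟩
    · rw [ψn]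
      exact Finset.mem_insert_self _ _
    · rw [ψo g g1]
      exact Finset.mem_insert_of_mem (I.gat g g2)
  · intro g hg i
    change S'.Valid H' (upd S.inp S.n (fun i => if i then b else a) g i) ∧
      (if (H'.ψ g).1 = w then (if (i ^^ upd H.sw S.n false g) then l₁ else l₀)
        else C'.inp (H'.ψ g).1 (i ^^ upd H.sw S.n false g)) =
      ((H'.ψ (upd S.inp S.n (fun i => if i then b else a) g i)).1,
        (H'.ψ (upd S.inp S.n (fun i => if i then b else a) g i)).2 ^^
          upd S.pol S.n (fun i => if i then pb else pa) g i)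
    rcases ag g hg with rfl | ⟨g1, g2⟩
    · rw [ψn, if_pos rfl, upd_self, upd_self, upd_self]
      cases i
      · refine ⟨valid' a a1, ?_⟩
        simp only [Bool.xor_false, Bool.false_eq_true, if_false]
        rw [ψo a (vn a a1)]
      · refine ⟨valid' b b1, ?_⟩
        simp only [Bool.xor_false, if_true]
        rw [ψo b (vn b b1)]
    · obtain ⟨h1, h2⟩ := I.wire g g2 i
      rw [ψo g g1, if_neg (vw g (Or.inl (ag_alive g2))), upd_ne _ _ g1, upd_ne _ _ g1,
        upd_ne _ _ g1, ψo _ (vn _ h1)]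
      exact ⟨valid' _ h1, h2⟩
  · intro g hg ug
    rcases ag g hg with rfl | ⟨g1, g2⟩
    · rw [ψn]
    · have h2 : upd S.uf S.n true g = true := ug
      rw [upd_ne _ _ g1] at h2
      rw [ψo g g1]
      exact I.uf g g2 h2
  · intro ho
    obtain ⟨h1, h2⟩ := I.out ho
    refine ⟨valid' _ h1, ?_⟩
    change C'.out.1 = (H'.ψ S.out).1
    rw [ψo _ (vn _ h1), h2]
  · intro u hu h1
    obtain ⟨u1, u2⟩ := av u hu
    rw [ψo u u1]
    exact I.sg u u2 h1
  · intro r hr h1
    change upd S.sd S.n 15 r ≤ 9 at h1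
    change Dep _ (upd S.sd S.n 15 r) _
    rcases valid r hr with rfl | ⟨r1, r2⟩
    · rw [upd_self] at h1
      omega
    · rw [upd_ne _ _ r1] at h1 ⊢
      obtain ⟨T, hT, hd⟩ := I.sd r r2 h1
      refine ⟨T, hT, fun x y hxy => ?_⟩
      rw [ψo r r1]
      unfold addV
      rw [if_neg (vw r r2), if_neg (vw r r2)]
      exact hd x y hxy
  · intro r hr
    change S'.Cov C s' H' (upd S.may S.n (fun v => decide (v = S.n)) r) _
    rcases valid r hr with rfl | ⟨r1, r2⟩
    · rw [upd_self, ψn]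
      refine ⟨fun u hu e => ?_, fun e => absurd (Or.inl e) hw,
        fun e => absurd (Or.inr (Or.inl e)) hw⟩
      rcases alive u hu with e' | ⟨u1, u2⟩
      · simpa using e'
      · rw [ψo u u1] at e
        exact absurd e (vw u (Or.inl u2))
    · obtain ⟨c1, c2, c3⟩ := I.cov r r2
      rw [upd_ne _ _ r1, ψo r r1]
      refine ⟨fun u hu e => ?_, c2, fun h1 h2 => c3 h1 (hid _ h2)⟩
      rcases alive u hu with rfl | ⟨u1, u2⟩
      · rw [ψn] at e
        exact absurd e.symm (vw r r2)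
      · rw [ψo u u1] at e
        exact c1 u u2 e
  · intro u hu
    change _ + upd S.dlo S.n 0 u ≤ upd H.d0 S.n 0 u + _ + _
    rw [hdeg]
    rcases alive u hu with rfl | ⟨u1, u2⟩
    · rw [ψn, upd_self, deg_eq_zero I.model hw, if_neg (vw a a1), if_neg (vw b b1)]
      exact Nat.zero_le _
    · have h1 := hA (H.ψ u).1
      have h2 := I.degv u u2
      have h3 := wire_vis I a1 u2
      have h4 := wire_vis I b1 u2
      rw [ψo u u1, γo u u1, upd_ne _ _ u1, upd_ne _ _ u1]
      omega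
  · intro v hv hh
    have h0 := hid v hh
    have h1 := hA v
    have h2 := I.degh v hv h0
    have h3 := wire_hid I a1 hv h0
    have h4 := wire_hid I b1 hv h0
    rw [hdeg]
    omega
  · intro r hr
    rcases valid r hr with rfl | ⟨r1, r2⟩
    · intro _
      change (if S.n = S.n then 0 else _) ≤ _
      rw [if_pos rfl]
      exact Nat.zero_le _
    · have h1 := I.link r r2
      have an := vn a a1
      have bn := vn b b1
      rw [γo r r1]
      change upd (upd (upd S.c S.n 0) a (sat (upd S.c S.n 0 a + 1))) b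
          (sat (upd (upd S.c S.n 0) a (sat (upd S.c S.n 0 a + 1)) b + 1)) r < 60 →
        _ ≤ upd (upd (upd S.c S.n 0) a (sat (upd S.c S.n 0 a + 1))) b
          (sat (upd (upd S.c S.n 0) a (sat (upd S.c S.n 0 a + 1)) b + 1)) r
      unfold upd sat
      by_cases ea : r = a <;> by_cases eb : r = b
      · subst ea
        subst eb
        simp only [if_true, if_neg r1]
        omega
      · subst ea
        simp only [if_true, if_neg r1, if_neg eb]
        omega
      · subst eb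
        simp only [if_true, if_neg r1, if_neg ea]
        omega
      · simp only [if_neg r1, if_neg ea, if_neg eb]
        omega
  · intro u hu
    change upd S.dlo S.n 0 u ≤ upd H.d0 S.n 0 u ∧
      (upd S.dex S.n true u = true → upd H.d0 S.n 0 u ≤ upd S.dlo S.n 0 u) ∧
      (upd S.gate S.n true u = false →
        upd H.d0 S.n 0 u = C.deg (H'.ψ u).1 ∧ upd S.dlo S.n 0 u < 60)
    rcases alive u hu with rfl | ⟨u1, u2⟩
    · simp only [upd_self]
      simp
    · simp only [upd_ne _ _ u1, ψo u u1]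
      exact I.d0 u u2
  · intro u hu _ hp
    have hh' := ag_alive hh
    change (decide (u = S.n) || (decide (S.hst = h) && S.pend u)) = true at hp
    change (if (H'.ψ u).1 = w then 2 * C'.rk (H.ψ h).1 else 2 * C'.rk (H'.ψ u).1 + 1) <
      if (H'.ψ h).1 = w then 2 * C'.rk (H.ψ h).1 else 2 * C'.rk (H'.ψ h).1 + 1
    rw [ψo h hh'.1.ne, if_neg (vw h (Or.inl hh'))]
    rcases alive u hu with rfl | ⟨u1, u2⟩
    · rw [ψn, if_pos rfl]
      omega
    · rw [ψo u u1, if_neg (vw u (Or.inl u2))]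
      simp only [u1, decide_false, Bool.false_or, Bool.and_eq_true, decide_eq_true_eq] at hp
      have := I.pend u u2 (hp.1 ▸ hh') hp.2
      rw [hp.1] at this
      omega
  · intro h0
    change S.rem + (S.add + 1) + S.t = 0 at h0
    omega

end SimB

open SimB in
theorem op_sound (K : Ctx s C V) (h : Good S s C) {S' : Sim} (o : S.Op S') : Good S' s C := by
  obtain ⟨s', C', V', H, I⟩ := h
  cases o with
  | fix x p hx ht => exact op_fix I p hx ht
  | proj x y p hx hy hxy ht sx sy hp => exact op_proj I hx hy hxy ht sx sy hp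
  | ali g w p hg hw hv => exact op_ali I hg hw hv
  | dead g hg hu =>
    have := I.ub_sound (ag_alive hg) (by omega)
    exact const_repl I hg (Or.inl (by omega))
  | mrg h g x hh hg hne uh ug hi => exact op_mrg I hh hg hne uh ug hi
  | sel g i hg hx hu hk hd => exact op_sel K I hg hx hu hk hd
  | outi i hg hk hd => exact op_outi K I hg hk hd
  | rew g i j p hg ug hh hv => exact op_rew I hg ug hh hv
  | add h a pa b pb hh hn ha hb => exact op_add I pa pb hh hn ha hb
  | dep g hg => exact ⟨s', C', V', H, op_dep I hg⟩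

end Pool.Agent.Lib.MP_79d702_lc.U2
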