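import Pool.Agent.Lib.MP_79d702_lc.U2.Sim
import Pool.Agent.Lib.MP_79d702_lc.U2.CircB

/-!
Basic facts on the simulation invariant and the replacement lemma.
-/

namespace Pool.Agent.Lib.MP_79d702_lc.U2

variable {s : FS} {C : Ckt} {S : Sim} {s' : FS} {C' : Ckt} {V' : (ℕ → Bool) → ℕ → Bool} {H : Gh}

theorem SimA.upd_self {α : Type} (f : ℕ → α) (u : ℕ) (v : α) : upd f u v u = v := if_pos rfl

theorem SimA.upd_of_ne {α : Type} (f : ℕ → α) {u w : ℕ} (v : α) (h : w ≠ u) : upd f u v w = f w :=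
  if_neg h

theorem Sim.AG.alv {g : ℕ} (h : S.AG g) : S.Alive g := ⟨h.1, h.2.1⟩

theorem Sim.AV.alv {g : ℕ} (h : S.AV g) : S.Alive g := ⟨h.1, h.2.1⟩

theorem Sim.Alive.av_or_ag {u : ℕ} (h : S.Alive u) : S.AV u ∨ S.AG u := by
  cases e : S.gate u
  · exact Or.inl ⟨h.1, h.2, e⟩
  · exact Or.inr ⟨h.1, h.2, e⟩

theorem Inv.sa_mem (I : Inv S s C s' C' V' H) {u : ℕ} (hu : S.Alive u) :
    (H.ψ u).1 ∈ s'.X ∨ (H.ψ u).1 ∈ C'.G :=
  hu.av_or_ag.imp (I.var u) (I.gat u)

theorem Inv.sa_ne_zero (I : Inv S s C s' C' V' H) {u : ℕ} (hu : S.Alive u) :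
    (H.ψ u).1 ≠ 0 := by
  intro e
  rcases I.sa_mem hu with h | h
  · exact I.model.zx (e ▸ h)
  · exact I.model.zg (e ▸ h)

theorem Inv.sa_not_mem (I : Inv S s C s' C' V' H) {u : ℕ} (hu : S.Alive u) : u ∉ H.U := by
  intro h
  have h1 := (I.usub u h).1
  have h2 := I.n61
  have h3 := hu.1
  omega

theorem Inv.ext_sound (I : Inv S s C s' C' V' H) {u : ℕ} (hu : S.Alive u)
    (h : S.c u + S.ext u < 60) : C'.deg (H.ψ u).1 + S.dlo u ≤ H.d0 u + (S.c u + S.ext u) := by
  have h1 := I.degv u hu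
  have h2 := I.link u (Or.inl hu) (by omega)
  have hsub : H.U ⊆ Finset.Ico 64 192 := fun r hr => Finset.mem_Ico.2 (I.usub r hr)
  have h3 : H.A (H.ψ u).1 ≤ S.ext u := by
    refine le_trans (Finset.sum_le_sum fun r hr => ?_)
      (Finset.sum_le_sum_of_subset (f := fun r => if S.may r u then S.c r else 0) hsub)
    split_ifs with e1 e2
    · refine I.link r (Or.inr (Or.inl hr)) ?_
      have h4 := Finset.single_le_sum (f := fun r => if S.may r u then S.c r else 0)
        (fun _ _ => Nat.zero_le _) (hsub hr)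
      simp only [e2, if_true] at h4
      change S.c r ≤ S.ext u at h4
      omega
    · exact absurd ((I.cov r (Or.inr (Or.inl hr))).1 u hu e1.symm) e2
    · exact Nat.zero_le _
    · exact le_rfl
  omega

theorem Inv.ub_sound (I : Inv S s C s' C' V' H) {u : ℕ} (hu : S.Alive u) (h : S.ub u < 60) :
    C'.deg (H.ψ u).1 ≤ S.ub u := by
  unfold Sim.ub at h ⊢
  split_ifs at h ⊢ with e
  · have h1 := I.ext_sound hu h
    have h2 := (I.d0 u hu).2.1 e
    omega
  · omega

theorem Inv.cons (I : Inv S s C s' C' V' H) (a : ℕ → Bool) :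
    S.Cons fun r => lit (V' a) (H.ψ r) := by
  refine ⟨?_, fun g hg hu => ?_⟩
  · simp [I.cf, lit, I.model.v0]
  · have h0 := (I.wire g hg false).2
    have h1 := (I.wire g hg true).2
    have h2 := I.model.vg a _ (I.gat g hg)
    have h3 := I.uf g hg hu
    cases e : H.sw g
    · rw [e] at h0 h1
      simp only [Bool.xor_false] at h0 h1
      rw [h0, h1] at h2
      simp only [lit, h3, Bool.xor_false, Bool.xor_assoc] at h2 ⊢
      exact h2
    · rw [e] at h0 h1
      simp only [Bool.xor_true, Bool.not_false, Bool.not_true] at h0 h1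
      rw [h0, h1, Bool.and_comm] at h2
      simp only [lit, h3, Bool.xor_false, Bool.xor_assoc] at h2 ⊢
      exact h2

theorem Inv.sa_inp (I : Inv S s C s' C' V' H) {h : ℕ} (hh : S.AG h) (i : Bool) :
    S.Valid H (S.inp h i) ∧ Node s' C' (H.ψ (S.inp h i)).1 ∧
      ((H.ψ (S.inp h i)).1 ∈ C'.G → C'.rk (H.ψ (S.inp h i)).1 < C'.rk (H.ψ h).1) := by
  obtain ⟨h1, h2⟩ := I.wire h hh i
  have h3 : (C'.inp (H.ψ h).1 (i ^^ H.sw h)).1 = (H.ψ (S.inp h i)).1 := by rw [h2]
  refine ⟨h1, ?_, ?_⟩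
  · rw [← h3]
    exact I.model.src _ (I.gat h hh) _
  · rw [← h3]
    exact I.model.rk _ (I.gat h hh) _

theorem Inv.below (I : Inv S s C s' C' V' H) {h r : ℕ} (hh : S.AG h) (hr : S.Below h r) :
    S.Valid H r ∧ Node s' C' (H.ψ r).1 ∧
      ((H.ψ r).1 ∈ C'.G → C'.rk (H.ψ r).1 < C'.rk (H.ψ h).1) ∧ (H.ψ r).1 ≠ (H.ψ h).1 := by
  have hG := I.gat h hh
  have key : S.Valid H r ∧ Node s' C' (H.ψ r).1 ∧
      ((H.ψ r).1 ∈ C'.G → C'.rk (H.ψ r).1 < C'.rk (H.ψ h).1) := by
    induction hr with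
    | inp i => exact I.sa_inp hh i
    | step i _ hg ih =>
      obtain ⟨h1, h2, h3⟩ := I.sa_inp hg i
      exact ⟨h1, h2, fun e => (h3 e).trans (ih.2.2 (I.gat _ hg))⟩
    | cf =>
      refine ⟨Or.inr (Or.inr rfl), ?_, fun e => ?_⟩
      · rw [I.cf]; exact Or.inl rfl
      · rw [I.cf] at e; exact absurd e I.model.zg
    | pend e hp ha =>
      subst e
      exact ⟨Or.inl ha, Or.inr (I.sa_mem ha), fun _ => I.pend _ ha hh.alv hp⟩
  refine ⟨key.1, key.2.1, key.2.2, fun e => ?_⟩
  have := key.2.2 (e ▸ hG)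
  rw [e] at this
  exact lt_irrefl _ this

namespace SimA

/-- the weight of the references in `R` that are placed at the node `v` -/
def tot (R : Finset ℕ) (ψ : ℕ → ℕ × Bool) (γ : ℕ → ℕ) (v : ℕ) : ℕ :=
  ∑ r ∈ R, if (ψ r).1 = v then γ r else 0

theorem tot_add (R : Finset ℕ) (ψ : ℕ → ℕ × Bool) (γ : ℕ → ℕ) {v w : ℕ} (D : ℕ)
    (h : (ψ w).1 = v → w ∈ R) :
    tot R ψ γ v + (if (ψ w).1 = v then D else 0) ≤ tot R ψ (upd γ w (γ w + D)) v := by
  have key : ∀ r ∈ R, (if (ψ r).1 = v then γ r else 0) +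
      (if r = w then (if (ψ w).1 = v then D else 0) else 0) ≤
      if (ψ r).1 = v then upd γ w (γ w + D) r else 0 := by
    intro r _
    by_cases e : r = w
    · subst e
      rw [upd_self, if_pos rfl]
      split_ifs <;> omega
    · rw [upd_of_ne _ _ e, if_neg e, add_zero]
  have h1 := Finset.sum_le_sum key
  rw [Finset.sum_add_distrib, Finset.sum_ite_eq'] at h1
  unfold tot
  by_cases e : (ψ w).1 = v
  · rw [if_pos (h e)] at h1
    exact h1
  · simp only [if_neg e, ite_self] at h1 ⊢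
    exact h1

theorem tot_dec (R : Finset ℕ) (ψ : ℕ → ℕ × Bool) (γ : ℕ → ℕ) (v a : ℕ) :
    tot R ψ γ v ≤ tot R ψ (upd γ a (γ a - 1)) v + if (ψ a).1 = v then 1 else 0 := by
  have key : ∀ r ∈ R, (if (ψ r).1 = v then γ r else 0) ≤
      (if (ψ r).1 = v then upd γ a (γ a - 1) r else 0) +
      (if r = a then (if (ψ a).1 = v then 1 else 0) else 0) := by
    intro r _
    by_cases e : r = a
    · subst e
      rw [upd_self, if_pos rfl]
      split_ifs <;> omega
    · rw [upd_of_ne _ _ e, if_neg e, add_zero]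
  have h1 := Finset.sum_le_sum key
  rw [Finset.sum_add_distrib, Finset.sum_ite_eq'] at h1
  unfold tot
  refine h1.trans (Nat.add_le_add_left ?_ _)
  split_ifs <;> omega

theorem tot_subst (R : Finset ℕ) (ψ : ℕ → ℕ × Bool) (γ : ℕ → ℕ) {v g : ℕ} (l : ℕ × Bool)
    (hv : v ≠ g) : tot R ψ γ v ≤ tot R (fun r => subst g l (ψ r)) γ v := by
  refine Finset.sum_le_sum fun r _ => ?_
  by_cases e : (ψ r).1 = v
  · have e2 : subst g l (ψ r) = ψ r := if_neg fun e' => hv (e.symm.trans e')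
    simp only [e2, le_refl]
  · rw [if_neg e]
    exact Nat.zero_le _

/-- the true counters after the replacement -/
def gam (S : Sim) (γ : ℕ → ℕ) (g w D : ℕ) : ℕ → ℕ :=
  let c1 := upd γ w (γ w + D)
  let c2 := upd c1 (S.inp g false) (c1 (S.inp g false) - 1)
  let c3 := upd c2 (S.inp g true) (c2 (S.inp g true) - 1)
  if S.gate g then c3 else c1

theorem link_dec {P : ℕ → Prop} {c γ : ℕ → ℕ} (a : ℕ) (h : ∀ r, P r → c r < 60 → γ r ≤ c r) :
    ∀ r, P r → upd c a (dec (c a)) r < 60 → upd γ a (γ a - 1) r ≤ upd c a (dec (c a)) r := by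
  intro r hr
  by_cases e : r = a
  · subst e
    rw [upd_self, upd_self]
    have := h r hr
    unfold dec
    split_ifs <;> omega
  · rw [upd_of_ne _ _ e, upd_of_ne _ _ e]
    exact h r hr

theorem link_gam (I : Inv S s C s' C' V' H) {g : ℕ} (hg : S.Alive g) (w : ℕ) (p : Bool) :
    ∀ r, S.Valid H r → (S.repl g w p).c r < 60 →
      gam S H.γ g w (C'.deg (H.ψ g).1) r ≤ (S.repl g w p).c r := by
  have h1 : ∀ r, S.Valid H r → upd S.c w (sat (S.c w + S.ub g)) r < 60 →
      upd H.γ w (H.γ w + C'.deg (H.ψ g).1) r ≤ upd S.c w (sat (S.c w + S.ub g)) r := by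
    intro r hr
    by_cases e : r = w
    · subst e
      rw [upd_self, upd_self]
      unfold sat
      intro h
      have h2 := I.link r hr (by omega)
      have h3 := I.ub_sound hg (by omega)
      omega
    · rw [upd_of_ne _ _ e, upd_of_ne _ _ e]
      exact I.link r hr
  unfold gam Sim.repl
  cases S.gate g
  · exact h1
  · exact link_dec _ (link_dec _ h1)

theorem deg_gam (I : Inv S s C s' C' V' H) {g w v : ℕ} (hg : S.Alive g) (R : Finset ℕ) (b : Bool)
    (hv : v ≠ (H.ψ g).1) (hw : (H.ψ w).1 = v → w ∈ R) :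
    (C'.merge (H.ψ g).1 ((H.ψ w).1, b)).deg v + tot R H.ψ H.γ v ≤
      C'.deg v + tot R (fun r => subst (H.ψ g).1 ((H.ψ w).1, b) (H.ψ r))
        (gam S H.γ g w (C'.deg (H.ψ g).1)) v := by
  have h1 := deg_merge (C := C') (l := ((H.ψ w).1, b)) hv
  have h2 := tot_add R H.ψ H.γ (C'.deg (H.ψ g).1) hw
  have h3 := tot_subst R H.ψ (gam S H.γ g w (C'.deg (H.ψ g).1)) ((H.ψ w).1, b) hv
  refine le_trans ?_ (Nat.add_le_add_left h3 _)
  simp only at h1
  unfold gam
  cases e : S.gate g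
  · simp only [Bool.false_eq_true, if_false]
    omega
  · simp only [if_true]
    have hG : S.AG g := ⟨hg.1, hg.2, e⟩
    have h4 := tot_dec R H.ψ (upd H.γ w (H.γ w + C'.deg (H.ψ g).1)) v (S.inp g false)
    have h5 := tot_dec R H.ψ (upd (upd H.γ w (H.γ w + C'.deg (H.ψ g).1)) (S.inp g false)
      (upd H.γ w (H.γ w + C'.deg (H.ψ g).1) (S.inp g false) - 1)) v (S.inp g true)
    have h6 : C'.slots (H.ψ g).1 v = (if (H.ψ (S.inp g false)).1 = v then 1 else 0) +
        if (H.ψ (S.inp g true)).1 = v then 1 else 0 := by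
      have w0 := (I.wire g hG false).2
      have w1 := (I.wire g hG true).2
      unfold Ckt.slots
      rw [if_pos (I.gat g hG)]
      cases e2 : H.sw g
      · rw [e2] at w0 w1
        simp only [Bool.xor_false] at w0 w1
        rw [w0, w1]
      · rw [e2] at w0 w1
        simp only [Bool.xor_true, Bool.not_false, Bool.not_true] at w0 w1
        rw [w0, w1, add_comm]
    omega

theorem subst_fst (g : ℕ) (l : ℕ × Bool) {k k' : ℕ × Bool} (h : k.1 = k'.1) :
    (subst g l k).1 = (subst g l k').1 := by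
  unfold subst
  rw [h]
  split_ifs
  · rfl
  · exact h

theorem subst_xor (g : ℕ) (l k : ℕ × Bool) (b : Bool) :
    subst g l (k.1, k.2 ^^ b) = ((subst g l k).1, (subst g l k).2 ^^ b) := by
  unfold subst
  split_ifs
  · simp only [Bool.xor_assoc]
  · rfl

end SimA

open SimA in
/-- take `ψ' r = subst (ψ g).1 l (ψ r)`; `γ` follows `c` with the true degree of `g` in place of `ub g` -/
theorem Inv.repl (I : Inv S s C s' C' V' H) {g w : ℕ} {p : Bool} {s'' : FS}
    {V'' : (ℕ → Bool) → ℕ → Bool} (hg : S.Alive g) (hw : S.Valid H w)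
    (hne : (H.ψ w).1 ≠ (H.ψ g).1)
    (M : Model s'' (C'.merge (H.ψ g).1 ((H.ψ w).1, (H.ψ w).2 ^^ p ^^ (H.ψ g).2)) V'')
    (R : Reach s' s'') (hX : s''.X = s'.X.erase (H.ψ g).1) (ht : S.gate g = false → S.t < 80)
    (hdep : ∀ d v, Dep V' d v → Dep V'' d v)
    (hsem : (H.ψ w).1 = 0 ∨
      ∀ a, V'' a (H.ψ g).1 = lit (V'' a) ((H.ψ w).1, (H.ψ w).2 ^^ p ^^ (H.ψ g).2))
    (sg' : ℕ → ℕ) (hsg : ∀ u, S.AV u → u ≠ g → sg' u ≤ 1 →
      s''.sg (H.ψ u).1 = (decide (sg' u = 1) ^^ (H.ψ u).2 ^^ H.ε)) :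
    Good { S.repl g w p with sg := sg' } s C := by
  set l : ℕ × Bool := ((H.ψ w).1, (H.ψ w).2 ^^ p ^^ (H.ψ g).2) with hl
  set S' : Sim := { S.repl g w p with sg := sg' } with hS'
  set H' : Gh := ⟨fun r => subst (H.ψ g).1 l (H.ψ r), H.sw, gam S H.γ g w (C'.deg (H.ψ g).1), H.d0,
    H.U, H.ε⟩ with hH'
  have hn := I.n61
  have hg0 := I.sa_ne_zero hg
  have hal : ∀ u, S'.Alive u ↔ S.Alive u ∧ u ≠ g := by
    intro u
    change (u < S.n ∧ upd S.al g false u = true) ↔ _
    by_cases e : u = g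
    · subst e
      simp [upd_self]
    · rw [upd_of_ne _ _ e]
      simp [Sim.Alive, e]
  have hAG : ∀ u, S'.AG u → S.AG u ∧ u ≠ g := fun u hu =>
    ⟨⟨hu.1, ((hal u).1 hu.alv).1.2, hu.2.2⟩, ((hal u).1 hu.alv).2⟩
  have hAV : ∀ u, S'.AV u → S.AV u ∧ u ≠ g := fun u hu =>
    ⟨⟨hu.1, ((hal u).1 hu.alv).1.2, hu.2.2⟩, ((hal u).1 hu.alv).2⟩
  have hval : ∀ r, S'.Valid H' r → S.Valid H r := fun r hr =>
    Or.imp_left (fun h => ((hal r).1 h).1) hr
  have hval' : ∀ r, S.Valid H r → r ≠ g → S'.Valid H' r := fun r hr e =>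
    Or.imp_left (fun h => (hal r).2 ⟨h, e⟩) hr
  have hkeep : ∀ r, (H.ψ r).1 ≠ (H.ψ g).1 → H'.ψ r = H.ψ r := fun r e => if_neg e
  have hmove : ∀ r, (H.ψ r).1 = (H.ψ g).1 → (H'.ψ r).1 = (H.ψ w).1 := fun r e => by
    change (subst (H.ψ g).1 l (H.ψ r)).1 = _
    unfold subst
    rw [if_pos e]
  have hneq : ∀ u, S'.Alive u → (H.ψ u).1 ≠ (H.ψ g).1 := fun u hu e =>
    ((hal u).1 hu).2 (I.inj u g ((hal u).1 hu).1 hg e)
  have hψ : ∀ u, S'.Alive u → H'.ψ u = H.ψ u := fun u hu => hkeep u (hneq u hu)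
  have hwg : w ≠ g := fun e => hne (by rw [e])
  have hψw : H'.ψ w = H.ψ w := hkeep w hne
  have hfree : ∀ v, v ≠ (H.ψ g).1 → (∀ u, S'.Alive u → (H'.ψ u).1 ≠ v) →
      ∀ u, S.Alive u → (H.ψ u).1 ≠ v := by
    intro v hv h u hu
    by_cases e : u = g
    · rw [e]; exact hv.symm
    · have hu' := (hal u).2 ⟨hu, e⟩
      rw [← hψ u hu']
      exact h u hu'
  have hXs : ∀ v ∈ s''.X, v ∈ s'.X ∧ v ≠ (H.ψ g).1 := fun v hv => by
    rw [hX] at hv
    exact ⟨Finset.mem_of_mem_erase hv, Finset.ne_of_mem_erase hv⟩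
  have hcov : ∀ (m m' : ℕ → Bool) (v : ℕ), v ≠ (H.ψ g).1 → (∀ x, m x = true → m' x = true) →
      S.Cov C s' H m v → S'.Cov C s'' H' m' v := by
    intro m m' v hv hm h
    refine ⟨fun u hu e => hm _ (h.1 u ((hal u).1 hu).1 ?_), fun e => hm _ (h.2.1 e),
      fun hx hf => ?_⟩
    · rw [← hψ u hu]; exact e
    · have := h.2.2 (hXs v hx).1 (hfree v hv hf)
      exact ⟨fun e => hm _ (this.1 e), fun e => hm _ (this.2 e)⟩
  have htr : ∀ d, Dep V'' d (H.ψ g).1 → Dep V'' d (H.ψ w).1 := by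
    rintro d ⟨T, hT, h⟩
    refine ⟨T, hT, fun a b hab => ?_⟩
    rcases hsem with e | e
    · rw [e, M.v0, M.v0]
    · have h1 := h a b hab
      rw [e a, e b] at h1
      simpa [lit, hl] using h1
  refine ⟨s'', C'.merge (H.ψ g).1 l, V'', H', ?_⟩
  refine
    { n61 := hn, t80 := ?_, usub := I.usub, cf := ?_, reach := I.reach.trans R, model := M,
      cardX := ?_, cardG := ?_, inj := ?_, var := ?_, gat := ?_, wire := ?_, uf := ?_, out := ?_,
      sg := ?_, sd := ?_, cov := ?_, degv := ?_, degh := ?_, link := ?_, d0 := ?_, elim := ?_,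
      pend := ?_, rs := ?_ }
  · change (if S.gate g then S.t else S.t + 1) ≤ 80
    have := I.t80
    cases e : S.gate g
    · have := ht e
      simp only [Bool.false_eq_true, if_false]
      omega
    · simpa using this
  · rw [hkeep 192 (by rw [I.cf]; exact hg0.symm), I.cf]
  · change s''.X.card + (if S.gate g then S.t else S.t + 1) = _
    have := I.cardX
    rw [hX]
    cases e : S.gate g
    · have h1 := Finset.card_erase_add_one (I.var g ⟨hg.1, hg.2, e⟩)
      simp only [Bool.false_eq_true, if_false]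
      omega
    · rw [Finset.erase_eq_of_notMem fun h => I.model.dis _ h (I.gat g ⟨hg.1, hg.2, e⟩)]
      simpa using this
  · change (C'.G.erase (H.ψ g).1).card + (if S.gate g then S.rem + 1 else S.rem) = C.G.card + S.add
    have := I.cardG
    cases e : S.gate g
    · rw [Finset.erase_eq_of_notMem (I.model.dis _ (I.var g ⟨hg.1, hg.2, e⟩))]
      simpa using this
    · have h1 := Finset.card_erase_add_one (I.gat g ⟨hg.1, hg.2, e⟩)
      simp only [if_true]
      omega
  · intro u v hu hv e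
    rw [hψ u hu, hψ v hv] at e
    exact I.inj u v ((hal u).1 hu).1 ((hal v).1 hv).1 e
  · intro u hu
    rw [hψ u hu.alv, hX]
    exact Finset.mem_erase.2 ⟨hneq u hu.alv, I.var u (hAV u hu).1⟩
  · intro u hu
    rw [hψ u hu.alv]
    exact Finset.mem_erase.2 ⟨hneq u hu.alv, I.gat u (hAG u hu).1⟩
  · intro h hh i
    obtain ⟨h1, h2⟩ := I.wire h (hAG h hh).1 i
    have h64 : h < 64 := by
      have := (hAG h hh).1.1
      omega
    rw [hψ h hh.alv]
    change S'.Valid H' (if h < 64 ∧ S.inp h i = g then w else S.inp h i) ∧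
      subst (H.ψ g).1 l (C'.inp (H.ψ h).1 (i ^^ H.sw h)) =
        ((H'.ψ (if h < 64 ∧ S.inp h i = g then w else S.inp h i)).1,
          (H'.ψ (if h < 64 ∧ S.inp h i = g then w else S.inp h i)).2 ^^
            (S.pol h i ^^ (decide (h < 64 ∧ S.inp h i = g) && p)))
    rw [h2]
    by_cases e : S.inp h i = g
    · rw [if_pos ⟨h64, e⟩, hψw, e]
      refine ⟨hval' w hw hwg, ?_⟩
      unfold subst
      rw [if_pos rfl, hl]
      simp only [h64, and_self, decide_true, Bool.true_and]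
      cases (H.ψ w).2 <;> cases p <;> cases (H.ψ g).2 <;> cases S.pol h i <;> rfl
    · rw [if_neg fun e' => e e'.2, subst_xor]
      refine ⟨hval' _ h1 e, ?_⟩
      simp only [e, and_false, decide_false, Bool.false_and, Bool.xor_false]
      rfl
  · intro h hh hu
    rw [hψ h hh.alv]
    exact I.uf h (hAG h hh).1 hu
  · change (if S.out = g then w else S.out) ≠ 255 →
      S'.Valid H' (if S.out = g then w else S.out) ∧
        (subst (H.ψ g).1 l C'.out).1 = (H'.ψ (if S.out = g then w else S.out)).1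
    by_cases e : S.out = g
    · rw [if_pos e]
      intro _
      have h255 : S.out ≠ 255 := by
        have := hg.1
        omega
      refine ⟨hval' w hw hwg, ?_⟩
      rw [hψw, subst_fst _ _ (I.out h255).2, e]
      exact hmove g rfl
    · rw [if_neg e]
      intro h
      exact ⟨hval' _ (I.out h).1 e, subst_fst _ _ (I.out h).2⟩
  · intro u hu h
    rw [hψ u hu.alv]
    exact hsg u (hAV u hu).1 (hAV u hu).2 h
  · intro r hr
    change upd S.sd w (min (S.sd w) (S.sd g)) r ≤ 9 →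
      Dep V'' (upd S.sd w (min (S.sd w) (S.sd g)) r) (H'.ψ r).1
    by_cases e : r = w
    · rw [e, upd_self, hψw]
      rcases le_total (S.sd w) (S.sd g) with h | h
      · rw [min_eq_left h]
        exact fun h9 => hdep _ _ (I.sd w hw h9)
      · rw [min_eq_right h]
        exact fun h9 => htr _ (hdep _ _ (I.sd g (Or.inl hg) h9))
    · rw [upd_of_ne _ _ e]
      intro h9
      have h1 := hdep _ _ (I.sd r (hval r hr) h9)
      by_cases e2 : (H.ψ r).1 = (H.ψ g).1
      · rw [hmove r e2]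
        exact htr _ (e2 ▸ h1)
      · rw [hkeep r e2]
        exact h1
  · intro r hr
    have hc := I.cov r (hval r hr)
    by_cases e2 : (H.ψ r).1 = (H.ψ g).1
    · rw [hmove r e2]
      refine hcov (S.may w) _ _ hne (fun x hx => ?_) (I.cov w hw)
      have hU : r ∈ H.U := by
        rcases hr with h | h | h
        · exact absurd e2 (hneq r h)
        · exact h
        · rw [h, I.cf] at e2
          exact absurd e2.symm hg0
      change (S.may r x || (decide (64 ≤ r ∧ r < 192) && S.may r g && S.may w x)) = true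
      simp [I.usub r hU, hc.1 g hg e2.symm, hx]
    · rw [hkeep r e2]
      refine hcov (S.may r) _ _ e2 (fun x hx => ?_) hc
      change (S.may r x || _) = true
      simp [hx]
  · intro u hu
    have hu' := ((hal u).1 hu).1
    have h1 := I.degv u hu'
    have hU := I.sa_not_mem hu'
    have h2 := deg_gam I (w := w) hg (insert u H.U) ((H.ψ w).2 ^^ p ^^ (H.ψ g).2) (hneq u hu)
      fun e => by
        rcases hw with h | h | h
        · rw [I.inj w u h hu' e]; exact Finset.mem_insert_self _ _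
        · exact Finset.mem_insert_of_mem h
        · rw [h, I.cf] at e
          exact absurd e.symm (I.sa_ne_zero hu')
    unfold tot at h2
    rw [Finset.sum_insert hU, Finset.sum_insert hU, if_pos rfl] at h2
    have h3 : (subst (H.ψ g).1 l (H.ψ u)).1 = (H.ψ u).1 := congrArg Prod.fst (hψ u hu)
    rw [if_pos h3] at h2
    rw [hψ u hu]
    change (C'.merge (H.ψ g).1 l).deg (H.ψ u).1 + (H.γ u + H.A (H.ψ u).1) ≤
      C'.deg (H.ψ u).1 + (H'.γ u + H'.A (H.ψ u).1) at h2
    change _ + S.dlo u ≤ H.d0 u + _ + _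
    omega
  · intro v hv hf
    obtain ⟨hv1, hv2⟩ := hXs v hv
    have hf' := hfree v hv2 hf
    have h1 := I.degh v hv1 hf'
    have h2 := deg_gam I (w := w) hg H.U ((H.ψ w).2 ^^ p ^^ (H.ψ g).2) hv2
      fun e => by
        rcases hw with h | h | h
        · exact absurd e (hf' w h)
        · exact h
        · rw [h, I.cf] at e
          have e' : (0 : ℕ) = v := e
          exact absurd (by rw [e']; exact hv1) I.model.zx
    change (C'.merge (H.ψ g).1 l).deg v + H.A v ≤ C'.deg v + H'.A v at h2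
    omega
  · intro r hr
    exact link_gam I hg w p r (hval r hr)
  · intro u hu
    rw [hψ u hu]
    exact I.d0 u ((hal u).1 hu).1
  · change _ ≤ if S.gate g then S.elim else S.elim + cr (S.dlo g)
    have h1 := I.elim
    rw [hX]
    cases e : S.gate g
    · have hsub : s.X \ s'.X.erase (H.ψ g).1 ⊆ insert (H.ψ g).1 (s.X \ s'.X) := by
        intro x hx
        simp only [Finset.mem_sdiff, Finset.mem_erase, Finset.mem_insert] at hx ⊢
        tauto
      have h2 := Finset.sum_le_sum_of_subset (f := fun x => cr (C.deg x)) hsub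
      rw [Finset.sum_insert fun h => (Finset.mem_sdiff.1 h).2 (I.var g ⟨hg.1, hg.2, e⟩)] at h2
      have h3 := I.d0 g hg
      have h4 : cr (C.deg (H.ψ g).1) ≤ cr (S.dlo g) := cr_anti (by
        have := (h3.2.2 e).1
        omega)
      simp only [Bool.false_eq_true, if_false]
      omega
    · rw [Finset.erase_eq_of_notMem fun h => I.model.dis _ h (I.gat g ⟨hg.1, hg.2, e⟩)]
      simpa using h1
  · intro u hu hh hp
    rw [hψ u hu, hψ _ hh]
    exact I.pend u ((hal u).1 hu).1 ((hal _).1 hh).1 hp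
  · change (if S.gate g then S.rem + 1 else S.rem) + S.add + (if S.gate g then S.t else S.t + 1) = 0
      → _
    cases S.gate g
    · simp
    · simp

end Pool.Agent.Lib.MP_79d702_lc.U2
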