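import Pool.Agent.Lib.MP_79d702_lc.U2.CircB
import Pool.Agent.Lib.MP_79d702_lc.U2.SimA
import Pool.Agent.Lib.MP_79d702_lc.U2.PatA

/-!
The start and the end of a simulation, and invisible flips.
-/

namespace Pool.Agent.Lib.MP_79d702_lc.U2

variable {s : FS} {C : Ckt} {V : (ℕ → Bool) → ℕ → Bool} {Q : AX} {E : Asg} {tag : ℕ}
variable {S : Sim} {s' : FS} {C' : Ckt} {V' : (ℕ → Bool) → ℕ → Bool} {H : Gh}

namespace SimC

/-- the references of the unknown inputs -/
def U0 (Q : AX) : Finset ℕ := (Finset.Ico 64 192).filter fun r =>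
  (r - 64) / 2 < Q.n ∧ Q.gate ((r - 64) / 2) = true ∧
    Q.n ≤ Q.inp ((r - 64) / 2) (decide ((r - 64) % 2 = 1))

def H0 (Q : AX) (C : Ckt) (E : Asg) : Gh where
  ψ := fun r => if r < Q.n then (E.φ r, E.fl r) else if r ∈ U0 Q then
    C.inp (E.φ ((r - 64) / 2)) (decide ((r - 64) % 2 = 1) ^^ E.sw ((r - 64) / 2)) else (0, false)
  sw := E.sw
  γ := fun r => if r < Q.n then Q.dlo r else 0
  d0 := fun u => C.deg (E.φ u)
  U := U0 Q
  ε := E.ε

theorem div_ref (g : ℕ) (i : Bool) : (64 + 2 * g + i.toNat - 64) / 2 = g ∧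
    decide ((64 + 2 * g + i.toNat - 64) % 2 = 1) = i := by
  cases i
  · simp only [Bool.toNat_false, decide_eq_false_iff_not]; omega
  · simp only [Bool.toNat_true, decide_eq_true_eq]; omega

theorem mem_U0 {r : ℕ} (hr : r ∈ U0 Q) : 64 ≤ r ∧ r < 192 ∧ ∃ g < Q.n, Q.gate g = true ∧
    ∃ i, Q.n ≤ Q.inp g i ∧ r = Q.ref g i := by
  obtain ⟨h1, h2, h3, h4⟩ := Finset.mem_filter.1 hr
  rw [Finset.mem_Ico] at h1
  refine ⟨h1.1, h1.2, _, h2, h3, _, h4, ?_⟩
  rw [AX.ref, if_neg (Nat.not_lt.2 h4)]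
  by_cases e : (r - 64) % 2 = 1
  · rw [decide_eq_true e, Bool.toNat_true]; omega
  · rw [decide_eq_false e, Bool.toNat_false]; omega

theorem ref_mem (n61 : Q.n ≤ 61) {g : ℕ} {i : Bool} (hg : g < Q.n) (hk : Q.gate g = true)
    (hi : Q.n ≤ Q.inp g i) : Q.ref g i ∈ U0 Q ∧
      (H0 Q C E).ψ (Q.ref g i) = C.inp (E.φ g) (i ^^ E.sw g) := by
  have h1 := div_ref g i
  have h2 : i.toNat ≤ 1 := Bool.toNat_le i
  have e : Q.ref g i = 64 + 2 * g + i.toNat := if_neg (Nat.not_lt.2 hi)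
  have h3 : Q.ref g i ∈ U0 Q := by
    rw [e, U0, Finset.mem_filter, Finset.mem_Ico, h1.1, h1.2]
    exact ⟨⟨by omega, by omega⟩, hg, hk, hi⟩
  refine ⟨h3, ?_⟩
  simp only [H0]
  rw [if_neg (by omega), if_pos h3, e, h1.1, h1.2]

theorem ψ_lt {u : ℕ} (hu : u < Q.n) : (H0 Q C E).ψ u = (E.φ u, E.fl u) := if_pos hu

theorem ψ_cf (n61 : Q.n ≤ 61) : (H0 Q C E).ψ 192 = (0, false) := by
  simp only [H0]
  rw [if_neg (by omega), if_neg fun h => absurd (mem_U0 h).2.1 (by omega)]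

theorem node_φ (M : MatchX Q s C E) {u : ℕ} (hu : u < Q.n) : E.φ u ∈ s.X ∨ E.φ u ∈ C.G := by
  cases h : Q.gate u
  · exact Or.inl (M.var u hu h)
  · exact Or.inr (M.gat u hu h)

theorem φ_ne (K : Model s C V) (M : MatchX Q s C E) {u : ℕ} (hu : u < Q.n) : E.φ u ≠ 0 := by
  intro e
  rcases node_φ M hu with h | h
  · exact K.zx (e ▸ h)
  · exact K.zg (e ▸ h)

theorem alive (h : Init Q S) {u : ℕ} : S.Alive u ↔ u < Q.n :=
  ⟨fun a => h.n ▸ a.1, fun a => ⟨h.n ▸ a, h.al u a⟩⟩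

theorem ag (h : Init Q S) {u : ℕ} (a : S.AG u) : u < Q.n ∧ Q.gate u = true :=
  ⟨h.n ▸ a.1, h.gate u (h.n ▸ a.1) ▸ a.2.2⟩

theorem av (h : Init Q S) {u : ℕ} (a : S.AV u) : u < Q.n ∧ Q.gate u = false :=
  ⟨h.n ▸ a.1, h.gate u (h.n ▸ a.1) ▸ a.2.2⟩

end SimC

open SimC in
theorem init_inv (K : Ctx s C V) (M : MatchX Q s C E) (h : Init Q S) :
    ∃ H, Inv S s C s C V H ∧ (∀ u < Q.n, H.ψ u = (E.φ u, E.fl u)) ∧
      ∀ r ∈ H.U, ∃ g < Q.n, Q.gate g = true ∧ ∃ i, Q.n ≤ Q.inp g i ∧ (H.ψ r).1 = E.src C g i := by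
  obtain ⟨c1, c2, c3, c4, c5⟩ := h.cnt
  have n61 := h.n61
  refine ⟨H0 Q C E, ⟨h.n ▸ n61, by omega, fun r hr => ⟨(mem_U0 hr).1, (mem_U0 hr).2.1⟩,
    ψ_cf n61, Reach.refl, K.model, by omega, by omega, ?_, ?_, ?_, ?_, ?_, ?_, ?_, ?_, ?_, ?_,
    fun v _ _ => Nat.le_add_right _ _, ?_, ?_, by simp, ?_, fun _ => by omega⟩,
    fun u hu => ψ_lt hu, ?_⟩
  · intro u v hu hv e
    rw [alive h] at hu hv
    rw [ψ_lt hu, ψ_lt hv] at e
    exact M.inj u hu v hv e
  · intro u hu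
    obtain ⟨h1, h2⟩ := av h hu
    rw [ψ_lt h1]
    exact M.var u h1 h2
  · intro u hu
    obtain ⟨h1, h2⟩ := ag h hu
    rw [ψ_lt h1]
    exact M.gat u h1 h2
  · intro g hg i
    obtain ⟨h1, h2⟩ := ag h hg
    rw [ψ_lt h1, h.inp g h1 h2, h.pol g h1 h2]
    by_cases e : Q.inp g i < Q.n
    · have e' : Q.ref g i = Q.inp g i := if_pos e
      rw [e', ψ_lt e, decide_eq_true e, Bool.true_and]
      exact ⟨Or.inl ((alive h).2 e), (M.wire g h1 h2 i e).trans (by rw [Bool.xor_comm])⟩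
    · obtain ⟨h3, h4⟩ := ref_mem (C := C) (E := E) n61 h1 h2 (Nat.not_lt.1 e)
      rw [h4, decide_eq_false e, Bool.false_and, Bool.xor_false]
      exact ⟨Or.inr (Or.inl h3), rfl⟩
  · intro g hg hu
    obtain ⟨h1, h2⟩ := ag h hg
    obtain ⟨h3, h4⟩ := h.uf g h1 hu
    rw [ψ_lt h1]
    rcases h4 with h4 | h4
    · exact (M.flg g h1 h2 _ h4).trans h3
    · exact (M.flg g h1 h2 _ h4).trans h3
  · intro ho
    have e := h.out
    by_cases e' : Q.out < Q.n
    · rw [if_pos e'] at e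
      rw [e, ψ_lt e']
      exact ⟨Or.inl ((alive h).2 e'), M.out e'⟩
    · rw [if_neg e'] at e
      exact absurd e ho
  · intro u hu hs
    obtain ⟨h1, h2⟩ := av h hu
    rw [h.sg u h1] at hs ⊢
    rw [ψ_lt h1]
    exact M.sg u h1 h2 hs
  · rintro r (hr | hr | rfl) hs
    · rw [alive h] at hr
      rw [h.sd r hr] at hs ⊢
      rw [ψ_lt hr]
      exact (M.dep r hr hs).dep K.model (Or.inr (node_φ M hr))
    · obtain ⟨-, -, g, hg, hk, i, hi, rfl⟩ := mem_U0 hr
      obtain ⟨h1, h2⟩ := h.sda g hg hk i hi hs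
      rw [(ref_mem n61 hg hk hi).2]
      exact ((((M.dep g hg h1).inp (M.gat g hg hk)).2 _).dep K.model
        (K.model.node_inp (M.gat g hg hk) _)).mono h2
    · rw [ψ_cf n61]
      exact (Dep.zero K.model).mono (Nat.zero_le _)
  · rintro r (hr | hr | rfl)
    · have hr' := (alive h).1 hr
      refine ⟨fun u hu e => ?_, fun e => ?_, fun _ e => absurd rfl (e r hr)⟩
      · rw [alive h] at hu
        rw [ψ_lt hu, ψ_lt hr'] at e
        rw [M.inj u hu r hr' e]
        exact h.mayv r hr'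
      · rw [ψ_lt hr'] at e
        exact absurd e (φ_ne K.model M hr')
    · obtain ⟨-, -, g, hg, hk, i, hi, rfl⟩ := mem_U0 hr
      obtain ⟨h1, h2, h3⟩ := h.maya g hg hk i hi
      have hG := M.gat g hg hk
      rw [(ref_mem n61 hg hk hi).2]
      refine ⟨fun u hu e => ?_, fun e => absurd e (K.nz _ hG _), fun hx _ => ?_⟩
      · rw [alive h] at hu
        rw [ψ_lt hu] at e
        rcases h1 u hu with h4 | h4 | rfl
        · exact h4
        · exact absurd e.symm (excl_sound K M hg hk hu h4)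
        · have := K.model.rk _ hG (i ^^ E.sw u) (e ▸ hG)
          rw [← e] at this
          exact absurd this (lt_irrefl _)
      · have h4 := (M.lb g hg hk i hx).1
        exact ⟨fun e => h2 (h4.trans e), fun e => h3 (h4.trans e)⟩
    · rw [ψ_cf n61]
      refine ⟨fun u hu e => ?_, fun _ => h.may0, fun hx => absurd hx K.model.zx⟩
      rw [alive h] at hu
      rw [ψ_lt hu] at e
      exact absurd e (φ_ne K.model M hu)
  · intro u hu
    rw [alive h] at hu
    rw [ψ_lt hu, (h.dlo u hu).1]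
    have e : (H0 Q C E).γ u = Q.dlo u := if_pos hu
    rw [e]
    exact Nat.le_add_right _ _
  · intro r _ _
    by_cases e : r < Q.n
    · exact le_of_eq ((if_pos e).trans (h.c r e).symm)
    · exact (le_of_eq (if_neg e)).trans (Nat.zero_le _)
  · intro u hu
    rw [alive h] at hu
    rw [ψ_lt hu, (h.dlo u hu).1, h.dex u hu]
    exact ⟨M.dlo u hu, M.dex u hu, fun _ => ⟨rfl, (h.dlo u hu).2⟩⟩
  · intro u _ _ e
    rw [h.pend u] at e
    exact absurd e (by simp)
  · intro r hr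
    obtain ⟨-, -, g, hg, hk, i, hi, rfl⟩ := mem_U0 hr
    exact ⟨g, hg, hk, i, hi, by rw [(ref_mem n61 hg hk hi).2]; rfl⟩

namespace SimC

theorem not_xor (i w : Bool) : (!(i ^^ w)) = ((!i) ^^ w) := by cases i <;> cases w <;> rfl

theorem alv {u : ℕ} (h : S.AV u) : S.Alive u := ⟨h.1, h.2.1⟩

theorem alg {u : ℕ} (h : S.AG u) : S.Alive u := ⟨h.1, h.2.1⟩

theorem big (K : Ctx s C V) (I : Inv S s C s' C' V' H) : 520 ≤ s'.X.card := by
  have := K.big
  have := I.cardX
  have := I.t80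
  omega

theorem deg_one (I : Inv S s C s' C' V' H) {u : ℕ} (hu : S.AV u) (h : S.ub u ≤ 1) :
    C'.deg (H.ψ u).1 ≤ 1 := (I.ub_sound (alv hu) (by omega)).trans h

/-- the selector of a visible variable of degree one -/
theorem sel (K : Ctx s C V) (I : Inv S s C s' C' V' H) {g : ℕ} {i : Bool} (hg : S.AG g)
    (hx : S.AV (S.inp g i)) (hu : S.ub (S.inp g i) ≤ 1) (hd : Dep V' 9 (H.ψ (S.inp g (!i))).1)
    (a : ℕ → Bool) :
    lit (V' a) ((H.ψ (S.inp g (!i))).1, (H.ψ (S.inp g (!i))).2 ^^ S.pol g (!i)) = true := by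
  have h1 := (I.wire g hg i).2
  have h2 := (I.wire g hg (!i)).2
  have := selector I.model (K.p1 _ I.reach) (by have := big K I; omega) (I.var _ hx)
    (deg_one I hx hu) (I.gat g hg) (i := i ^^ H.sw g) (by rw [h1]) (by rw [not_xor, h2]; exact hd) a
  rwa [not_xor, h2] at this

theorem trip_ne (I : Inv S s C s' C' V' H) {g : ℕ} {i : Bool} (h : S.Trip g i) :
    (H.ψ (S.inp g (!i))).1 ≠ 0 := by
  intro e
  have := (I.cov _ (I.wire g h.1 (!i)).1).2.1 e
  rw [h.2.2.2] at this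
  exact absurd this (by simp)

theorem trip_mem (I : Inv S s C s' C' V' H) {g : ℕ} {i : Bool} (h : S.Trip g i) :
    (H.ψ (S.inp g i)).1 ∈ Degen s' C' := by
  refine Finset.mem_filter.2 ⟨I.var _ h.2.1, deg_one I h.2.1 h.2.2.1, _, I.gat g h.1,
    i ^^ H.sw g, by rw [(I.wire g h.1 i).2], ?_⟩
  rw [not_xor, (I.wire g h.1 (!i)).2]
  exact trip_ne I h

theorem trip_inj (I : Inv S s C s' C' V' H) {g g' : ℕ} {i i' : Bool} (h : S.Trip g i)
    (h' : S.Trip g' i') (e : S.inp g i ≠ S.inp g' i') :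
    (H.ψ (S.inp g i)).1 ≠ (H.ψ (S.inp g' i')).1 := fun e' =>
  e (I.inj _ _ (alv h.2.1) (alv h'.2.1) e')

theorem beta_const (h : ConstGate C V) : beta s C V = 100 := if_pos h

theorem beta_sound (K : Ctx s C V) (I : Inv S s C s' C' V' H) {b : ℕ} (h : S.Beta b) :
    b ≤ beta s' C' V' := by
  have hb := le_beta s' C' V'
  cases h with
  | zero => exact Nat.zero_le _
  | one g i h =>
    have := Finset.card_pos.2 ⟨_, trip_mem I h⟩
    omega
  | two g i g' i' h h' e =>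
    have := Finset.one_lt_card.2 ⟨_, trip_mem I h, _, trip_mem I h', trip_inj I h h' e⟩
    omega
  | three g i g' i' g'' i'' h h' h'' e e' e'' =>
    have := Finset.two_lt_card_iff.2 ⟨_, _, _, trip_mem I h, trip_mem I h', trip_mem I h'',
      trip_inj I h h' e, trip_inj I h h'' e', trip_inj I h' h'' e''⟩
    exact (beta_const (three_degen I.model (K.p1 _ I.reach) (by have := big K I; omega) this)).ge
  | early g i h hs =>
    have hw := I.wire g h.1 (!i)
    have h1 := sel K I h.1 h.2.1 h.2.2.1 ((I.sd _ hw.1 hs).mono hs)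
    have h2 := I.model.node_inp (I.gat g h.1) ((!i) ^^ H.sw g)
    rw [hw.2] at h2
    rcases h2 with h2 | h2 | h2
    · exact absurd h2 (trip_ne I h)
    · exact absurd h1 (var_not_const I.model h2 _)
    · refine (beta_const ⟨_, h2, !((H.ψ (S.inp g (!i))).2 ^^ S.pol g (!i)), fun a => ?_⟩).ge
      have := h1 a
      simp only [lit] at this ⊢
      revert this
      cases V' a (H.ψ (S.inp g (!i))).1 <;>
        cases ((H.ψ (S.inp g (!i))).2 ^^ S.pol g (!i)) <;> simp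

theorem cr_big {a : ℕ} (h : 60 ≤ a) : cr a = 0 := by
  unfold cr
  split_ifs <;> omega

theorem vis (I : Inv S s C s' C' V' H) {u : ℕ} (hu : S.AV u) :
    cr (C.deg (H.ψ u).1) + S.hi u ≤ cr (S.dlo u) + cr (C'.deg (H.ψ u).1) := by
  obtain ⟨h1, h2, h3⟩ := I.d0 u (alv hu)
  obtain ⟨h3, h4⟩ := h3 hu.2.2
  have h5 := I.ext_sound (alv hu)
  rw [h3] at h1 h2 h5
  have h6 := cr_anti h1
  unfold Sim.hi
  split_ifs with e e'
  · by_cases e' : S.c u + S.ext u < 60
    · have := cr_anti (show C'.deg (H.ψ u).1 ≤ S.c u + S.ext u by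
        have := h5 e'; have := h2 e; omega)
      omega
    · rw [cr_big (Nat.not_lt.1 e')]; omega
  · have := cr_anti (show C'.deg (H.ψ u).1 ≤ C.deg (H.ψ u).1 by have := h5 (by omega); omega)
    omega
  · omega

/-- the charge of an unknown input -/
def chg (S : Sim) (r : ℕ) : ℕ :=
  if 0 < S.c r then (if S.may r 62 then 100 else if S.may r 63 then 3 else 0) else 0

theorem hid (I : Inv S s C s' C' V' H) {v : ℕ} (hv : v ∈ s'.X)
    (hn : ∀ u, S.Alive u → (H.ψ u).1 ≠ v) :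
    cr (C.deg v) ≤ cr (C'.deg v) + ∑ r ∈ H.U, if (H.ψ r).1 = v then chg S r else 0 := by
  have h1 := I.degh v hv hn
  by_cases e : H.A v = 0
  · exact (cr_anti (by omega)).trans (Nat.le_add_right _ _)
  · obtain ⟨r, hr, h2⟩ := Finset.exists_ne_zero_of_sum_ne_zero e
    have h3 : (H.ψ r).1 = v := by
      by_contra h3
      exact h2 (if_neg h3)
    rw [if_pos h3] at h2
    have h4 := I.link r (Or.inr (Or.inl hr))
    have h5 := (I.cov r (Or.inr (Or.inl hr))).2.2
    rw [h3] at h5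
    obtain ⟨h5, h6⟩ := h5 hv hn
    have h7 : cr (C.deg v) ≤ chg S r := by
      rw [chg, if_pos (by omega), cr]
      split_ifs with a1 a2 a3 a4 a5 a6 <;> first
        | omega
        | exact absurd (h5 a1) a2
        | exact absurd (h6 (by omega)) ‹_›
    have h8 := Finset.single_le_sum (f := fun r => if (H.ψ r).1 = v then chg S r else 0)
      (fun _ _ => Nat.zero_le _) hr
    simp only [if_pos h3] at h8
    omega

theorem credit_le' (I : Inv S s C s' C' V' H) :
    credit s C + S.gainV ≤ S.elim + S.lossV + S.lossA + credit s' C' := by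
  classical
  set A := (Finset.range S.n).filter fun u => (S.al u && !S.gate u) = true with hA
  have mA : ∀ u ∈ A, S.AV u := fun u hu => by
    obtain ⟨h1, h2⟩ := Finset.mem_filter.1 hu
    rw [Bool.and_eq_true, Bool.not_eq_true'] at h2
    exact ⟨Finset.mem_range.1 h1, h2⟩
  set B := A.image fun u => (H.ψ u).1 with hB
  have hBX : B ⊆ s'.X := fun v hv => by
    obtain ⟨u, hu, rfl⟩ := Finset.mem_image.1 hv
    exact I.var u (mA u hu)
  have hinj : Set.InjOn (fun u => (H.ψ u).1) A := fun u hu v hv e =>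
    I.inj u v (alv (mA u hu)) (alv (mA v hv)) e
  have e1 : credit s C = ∑ x ∈ s.X \ s'.X, cr (C.deg x) + (∑ x ∈ s'.X \ B, cr (C.deg x) +
      ∑ u ∈ A, cr (C.deg (H.ψ u).1)) := by
    rw [credit, ← Finset.sum_sdiff I.reach.subset, ← Finset.sum_sdiff hBX,
      Finset.sum_image hinj]
  have e2 : credit s' C' = ∑ x ∈ s'.X \ B, cr (C'.deg x) + ∑ u ∈ A, cr (C'.deg (H.ψ u).1) := by
    rw [credit, ← Finset.sum_sdiff hBX, Finset.sum_image hinj]
  have e3 : S.gainV = ∑ u ∈ A, S.hi u := (Finset.sum_filter _ _).symm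
  have e4 : S.lossV = ∑ u ∈ A, cr (S.dlo u) := (Finset.sum_filter _ _).symm
  have h1 : ∑ u ∈ A, cr (C.deg (H.ψ u).1) + ∑ u ∈ A, S.hi u ≤
      ∑ u ∈ A, cr (S.dlo u) + ∑ u ∈ A, cr (C'.deg (H.ψ u).1) := by
    rw [← Finset.sum_add_distrib, ← Finset.sum_add_distrib]
    exact Finset.sum_le_sum fun u hu => vis I (mA u hu)
  have h2 : ∑ x ∈ s'.X \ B, cr (C.deg x) ≤ ∑ x ∈ s'.X \ B, cr (C'.deg x) +
      ∑ x ∈ s'.X \ B, ∑ r ∈ H.U, if (H.ψ r).1 = x then chg S r else 0 := by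
    rw [← Finset.sum_add_distrib]
    refine Finset.sum_le_sum fun v hv => ?_
    obtain ⟨hv, hv'⟩ := Finset.mem_sdiff.1 hv
    refine hid I hv fun u hu e => ?_
    cases hg : S.gate u
    · exact hv' (Finset.mem_image.2 ⟨u, Finset.mem_filter.2 ⟨Finset.mem_range.2 hu.1,
        by rw [hu.2, hg]; rfl⟩, e⟩)
    · exact I.model.dis v hv (e ▸ I.gat u ⟨hu.1, hu.2, hg⟩)
  have h3 : (∑ x ∈ s'.X \ B, ∑ r ∈ H.U, if (H.ψ r).1 = x then chg S r else 0) ≤ S.lossA := by
    rw [Finset.sum_comm]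
    refine (Finset.sum_le_sum (g := chg S) fun r _ => ?_).trans
      (Finset.sum_le_sum_of_subset fun r hr => Finset.mem_Ico.2 (I.usub r hr))
    rw [Finset.sum_ite_eq]
    split_ifs
    · exact le_rfl
    · exact Nat.zero_le _
  have h4 := I.elim
  omega

end SimC

open SimC in
theorem done_sound (K : Ctx s C V) (T : (Degen s C).card ≤ tag) (h : Good S s C)
    (d : S.Done tag) : Win s C V := by
  obtain ⟨s', C', V', H, I⟩ := h
  have hb := big K I
  have h1 := K.p1 _ I.reach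
  cases d with
  | out ho hs =>
    obtain ⟨h2, h3⟩ := I.out ho
    exact absurd (h3 ▸ (I.sd _ h2 hs).mono hs) (out_late I.model h1 (by omega))
  | selv g i hg hx hu hy =>
    exact absurd (sel K I hg hx hu ((Dep.var I.model (I.var _ hy)).mono (by omega)))
      (var_not_const I.model (I.var _ hy) _)
  | outv i ho hx =>
    have h2 := (I.out (by have := ho.1; have := I.n61; omega)).2
    have h3 := (I.wire _ ho i).2
    rw [← h2] at h3
    have h4 := out_inp I.model h1 (by omega) (h2 ▸ I.gat _ ho) (i ^^ H.sw S.out)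
      (by rw [h3]; exact (Dep.var I.model (I.var _ hx)).mono (by omega))
    rw [h3] at h4
    exact absurd h4 (var_not_const I.model (I.var _ hx) _)
  | zero u hu h0 =>
    have h2 := I.ub_sound (alv hu) (by omega)
    have h3 := var_deg_pos I.model h1 (by omega) (I.var u hu)
    omega
  | gain b hβ hg hp =>
    have h2 := beta_sound K I hβ
    have h3 := credit_le' I
    have h4 := beta_of_not (s := s) K.nconst
    have h5 := I.cardX
    have h6 := I.cardG
    have h7 := I.rs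
    exact ⟨s', C', V', I.reach, I.model, by omega, by omega⟩

open SimC in
theorem holdsX_iso {x y : ℕ} {T A a : ℕ → Bool} (h : Init Q S) (hi : Iso Q S x y T A a) :
    HoldsX tag Q := by
  classical
  intro s C V E K _ M
  obtain ⟨H, I, hψ, hU⟩ := init_inv K M h
  obtain ⟨x1, x2, x3⟩ := hi.hx
  obtain ⟨y1, y2, y3⟩ := hi.hy
  set A' := ((Finset.range Q.n).filter fun v => A v = true).image E.φ with hA'
  have hc : A'.card ≤ 64 := by
    have h1 := Finset.card_filter_le (Finset.range Q.n) fun v => A v = true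
    rw [Finset.card_range] at h1
    have := h.n61
    exact Finset.card_image_le.trans (by omega)
  set a' : ℕ → Bool := fun w => decide (∃ v < Q.n, E.φ v = w ∧ (a v ^^ E.fl v) = true) with ha'
  have ha : ∀ v < Q.n, a' (E.φ v) = (a v ^^ E.fl v) := fun v hv => by
    rw [Bool.eq_iff_iff, ha', decide_eq_true_eq]
    exact ⟨fun ⟨u, hu, e, e'⟩ => M.inj u hu v hv e ▸ e', fun e => ⟨v, hv, rfl, e⟩⟩
  obtain ⟨b, b', hb, hb', hne⟩ : ∃ b b' : ℕ → Bool, (∀ i ∈ A', b i = a' i) ∧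
      (∀ w, b' w = (b w ^^ decide (w = E.φ x ∨ w = E.φ y))) ∧ s.f b ≠ s.f b' := by
    by_cases e : x = y
    · obtain ⟨b, h1, h2⟩ := (K.p1 s Reach.refl).single (by have := K.big; omega)
        (M.var x x1 x2) A' hc a'
      refine ⟨b, _, h1, fun w => ?_, h2⟩
      by_cases e' : w = E.φ x
      · simp [flip, e']
      · simp [flip_ne b e', ← e, e']
    · have e1 : E.φ x ≠ E.φ y := fun e1 => e (M.inj x x1 y y1 e1)
      obtain ⟨b, h1, h2⟩ := K.p2 _ (M.var x x1 x2) _ (M.var y y1 y2) e1 A' hc a'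
      refine ⟨b, _, h1, fun w => ?_, h2⟩
      by_cases e' : w = E.φ y
      · subst e'
        simp [flip, Function.update_of_ne e1.symm]
      · rw [flip_ne _ e']
        by_cases e'' : w = E.φ x
        · simp [flip, e'']
        · simp [flip_ne b e'', e', e'']
  have key := agree K.model {w | ∃ v < Q.n, T v = true ∧ E.φ v = w} b b' ?_ ?_ _ K.model.node_out ?_
  · exact absurd (K.model.f_eq key) hne
  · intro w _ hw
    rw [hb', decide_eq_false, Bool.xor_false]
    rintro (e | e)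
    · exact hw ⟨x, x1, x3, e.symm⟩
    · exact hw ⟨y, y1, y3, e.symm⟩
  · rintro g hg hgT ⟨j, v, hv, hT, e⟩ hag
    obtain ⟨k, hk, hkg, rfl, hin⟩ := M.closed_wire hv (hi.tv v hv hT).1 hg e.symm
    have hTk : T k = false := by
      by_contra e'
      exact hgT ⟨k, hk, Bool.eq_true_of_not_eq_false e', rfl⟩
    have hAG : S.AG k := ⟨h.n ▸ hk, h.al k hk, (h.gate k hk).trans hkg⟩
    have := hi.ex k hk hkg hTk ⟨_, hin ▸ hv, hin ▸ hT⟩ _ _ (I.cons b) (I.cons b') ?_ ?_
    · simp only [hψ k hk, lit] at this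
      exact Bool.xor_left_inj.1 this
    · intro u hu hA
      have hx := M.var u hu (hi.av u hu hA)
      have h1 := hb _ (Finset.mem_image_of_mem E.φ
        (Finset.mem_filter.2 ⟨Finset.mem_range.2 hu, hA⟩))
      have h2 : decide (E.φ u = E.φ x ∨ E.φ u = E.φ y) = decide (u = x ∨ u = y) :=
        decide_eq_decide.2 (or_congr ⟨M.inj u hu x x1, fun e => e ▸ rfl⟩
          ⟨M.inj u hu y y1, fun e => e ▸ rfl⟩)
      simp only [hψ u hu, lit, K.model.vx _ _ hx, hb', h1, ha u hu, h2]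
      cases a u <;> cases E.fl u <;> simp
    · intro r hr hrT
      obtain ⟨h1, h2, h3, -⟩ := I.below hAG hr
      rw [hψ k hk] at h3
      refine lit_congr (hag _ h2 ?_ h3)
      rintro ⟨u, hu, hTu, e'⟩
      rcases h1 with h1 | h1 | rfl
      · rw [alive h] at h1
        rw [hψ r h1] at e'
        exact hrT ⟨h1, M.inj u hu r h1 e' ▸ hTu⟩
      · obtain ⟨g', hg', hk', i', hi', e''⟩ := hU r h1
        exact excl_sound K M hg' hk' hu (Or.inr (Or.inr (Or.inl ⟨hi', (hi.tv u hu hTu).1⟩)))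
          (e''.symm.trans e'.symm)
      · rw [I.cf] at e'
        exact φ_ne K.model M hu e'
  · rintro ⟨v, hv, hT, e⟩
    exact (hi.tv v hv hT).2.1 (M.closed_out hv (hi.tv v hv hT).1 e.symm)

end Pool.Agent.Lib.MP_79d702_lc.U2
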