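import Pool.Agent.Lib.MP_79d702_lc.U2.ChkA
import Pool.Agent.Lib.MP_79d702_lc.U2.ChkB
import Pool.Agent.Lib.MP_79d702_lc.U2.ChkC
import Pool.Agent.Lib.MP_79d702_lc.U2.SimB
import Pool.Agent.Lib.MP_79d702_lc.U2.SimC

/-!
Soundness of the checker: start and end of a simulation, invisible flips, whole lemmas.
-/

namespace Pool.Agent.Lib.MP_79d702_lc.U2

variable {tag : ℕ} {db : ℕ → ℕ} {Q : CX} {S : CS}

namespace KD

theorem shr1 (j : ℕ) : j.shiftRight 1 = j / 2 := by
  show j >>> 1 = j / 2
  rw [Nat.shiftRight_eq_div_pow]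

theorem slot (j : ℕ) : 2 * (j / 2) + (decide (j % 2 = 1)).toNat = j := by
  rcases Nat.mod_two_eq_zero_or_one j with h | h <;> simp [h] <;> omega

theorem xor1 (g : ℕ) (i : Bool) : (2 * g + i.toNat).xor 1 = 2 * g + (!i).toNat := by
  show (2 * g + i.toNat) ^^^ 1 = _
  cases i
  · simp only [Bool.toNat_false, Nat.add_zero, Bool.not_false, Bool.toNat_true]
    exact Nat.xor_one_of_even (even_two_mul g)
  · simp only [Bool.toNat_true, Bool.not_true, Bool.toNat_false, Nat.add_zero]
    rw [Nat.xor_one_of_odd (odd_two_mul_add_one g)]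
    rfl

theorem slot' (j : ℕ) : j.xor 1 = 2 * (j / 2) + (!decide (j % 2 = 1)).toNat := by
  rw [← xor1, slot]

theorem half (g : ℕ) (i : Bool) : (2 * g + i.toNat).shiftRight 1 = g := by
  rw [shr1]; cases i <;> (simp; try omega)

theorem cond_true_iff {c : Bool} {a b : Bool} :
    cond c a b = true ↔ (c = true ∧ a = true) ∨ (c = false ∧ b = true) := by
  cases c <;> simp

theorem blt_t {a b : ℕ} (h : a < b) : a.blt b = true := by
  rw [Nat.blt_eq]; exact h

theorem of_blt {a b : ℕ} (h : a.blt b = true) : a < b := by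
  rw [Nat.blt_eq] at h; exact h

theorem blt_f {a b : ℕ} (h : ¬ a < b) : a.blt b = false :=
  Bool.eq_false_iff.2 fun h' => h (of_blt h')

theorem ag_abs {g : ℕ} (h : S.ag g = true) : S.abs.AG g := by
  simp only [CS.ag, Bool.and_eq_true, Nat.blt_eq] at h
  exact ⟨h.1, h.2.1, h.2.2⟩

theorem av_abs {u : ℕ} (h : S.av u = true) : S.abs.AV u := by
  simp only [CS.av, Bool.and_eq_true, Nat.blt_eq, Bool.not_eq_true'] at h
  exact ⟨h.1, h.2.1, h.2.2⟩

theorem inp_abs (S : CS) (j : ℕ) : S.abs.inp (j / 2) (decide (j % 2 = 1)) = gi S.li j := by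
  show gi S.li (2 * (j / 2) + (decide (j % 2 = 1)).toNat) = _
  rw [slot]

theorem inp_abs' (S : CS) (j : ℕ) :
    S.abs.inp (j / 2) (!decide (j % 2 = 1)) = gi S.li (j.xor 1) := by
  show gi S.li (2 * (j / 2) + (!decide (j % 2 = 1)).toNat) = _
  rw [slot']

theorem ub_av (hn : S.n ≤ 61) {u : ℕ} (h : S.av u = true) : S.ub u = S.abs.ub u :=
  ub_abs (lt_of_lt_of_le (av_abs h).1 (hn.trans (by norm_num)))

theorem trip_abs (hn : S.n ≤ 61) {j : ℕ} (h : S.trip j = true) :
    S.abs.Trip (j / 2) (decide (j % 2 = 1)) := by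
  simp only [CS.trip, Bool.and_eq_true, Nat.ble_eq, Bool.not_eq_true', shr1] at h
  obtain ⟨h1, h2, h3, h4⟩ := h
  refine ⟨ag_abs h1, ?_, ?_, ?_⟩
  · rw [inp_abs]; exact av_abs h2
  · rw [inp_abs, ← ub_av hn h2]; exact h3
  · rw [inp_abs']
    show bit (g64 S.may (gi S.li (j.xor 1))) 61 = false
    rw [bit_g64, Nat.mul_comm]
    exact (Bool.and_eq_false_iff).2 (Or.inr h4)

theorem lossV_abs (S : CS) : S.lossV = S.abs.lossV := by
  unfold CS.lossV Sim.lossV
  rw [sumTo_eq]
  refine Finset.sum_congr rfl fun u _ => ?_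
  rw [crC_eq, Bool.cond_eq_ite]
  rfl

theorem hi_abs (S : CS) {u : ℕ} (hu : u < 64) : S.hi u = S.abs.hi u := by
  unfold CS.hi Sim.hi Sim.ext
  simp only [crC_eq, Bool.cond_eq_ite, extC_eq _ _ hu, Nat.ble_eq]
  rfl

theorem gainV_abs (hn : S.n ≤ 61) : S.gainV = S.abs.gainV := by
  unfold CS.gainV Sim.gainV
  rw [sumTo_eq]
  refine Finset.sum_congr rfl fun u hu => ?_
  rw [hi_abs S (lt_of_lt_of_le (Finset.mem_range.1 hu) (hn.trans (by norm_num))),
    Bool.cond_eq_ite]
  rfl

theorem gain_abs (hn : S.n ≤ 61) {b : ℕ} (hb : S.abs.Beta b) (h : S.gain tag b = true) :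
    S.abs.Done tag := by
  simp only [CS.gain, Bool.and_eq_true, Bool.or_eq_true, Nat.ble_eq, Nat.blt_eq, Nat.beq_eq,
    Nat.add_eq, Nat.mul_eq] at h
  obtain ⟨h1, h2⟩ := h
  rw [lossV_abs, gainV_abs hn, lossC_eq] at h1
  refine Sim.Done.gain b hb ?_ h2
  have e : S.abs.lossA = ∑ r ∈ Finset.Ico 64 192, if 0 < gc S.c r then
      (if bit (g64 S.may r) 62 then 100 else if bit (g64 S.may r) 63 then 3 else 0) else 0 := rfl
  rw [← e] at h1
  show 100 * S.add + S.elim + S.abs.lossV + S.abs.lossA + 33 * tag + 501 * S.t ≤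
    100 * S.rem + S.abs.gainV + b
  omega

theorem bit_shl (a k i : ℕ) : bit (a.shiftLeft k) (k + i) = bit a i := by
  rw [bit_eq, bit_eq]
  show (a <<< k).testBit (k + i) = _
  rw [Nat.testBit_shiftLeft]
  simp

theorem b1_full (a r : ℕ) {i : ℕ} (hi : i < 256) : ((b1 a r).mul tFull).testBit i = bit a r := by
  have e : tFull = 2 ^ 256 - 1 := by
    show (one 256).sub 1 = _
    rw [one_eq]; rfl
  rw [b1_eq, e]
  cases bit a r
  · simp
  · simp only [Bool.toNat_true, Nat.mul_eq, Nat.one_mul, Nat.testBit_two_pow_sub_one]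
    simpa using hi

theorem ok_abs {G : ℕ} (h : Q.initOk G = true) :
    Q.n ≤ 61 ∧ G ≤ Q.n ∧ Q.ng = 0 ∧ ∀ g, bit Q.gm g = true → g < G := by
  simp only [CX.initOk, Bool.and_eq_true, Nat.ble_eq, Nat.blt_eq, Nat.beq_eq] at h
  exact ⟨h.1, h.2.1, h.2.2.1, fun g hg => lt_of_bit h.2.2.2 hg⟩

theorem bit_tab1 (p : ℕ → Bool) (k j : ℕ) :
    bit (tab 1 (fun u => cond (p u) 1 0) k) j = (decide (j < k) && p j) := by
  have h := bit_tab (s := 1) (k := k) (f := fun u => cond (p u) 1 0)
    (fun u _ => by cases p u <;> simp) j (v := 0) one_pos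
  rw [Nat.one_mul, Nat.add_zero] at h
  rw [h]
  cases p j <;> rfl

theorem bit_tab1' (p : ℕ → Bool) (k j : ℕ) :
    bit (tab 1 (fun u => cond (p u) 0 1) k) j = (decide (j < k) && !p j) := by
  have h := bit_tab (s := 1) (k := k) (f := fun u => cond (p u) 0 1)
    (fun u _ => by cases p u <;> simp) j (v := 0) one_pos
  rw [Nat.one_mul, Nat.add_zero] at h
  rw [h]
  cases p j <;> rfl

theorem closed_abs {v : ℕ} (h : Q.closed v = true) : Q.abs.Closed v := by
  simp only [CX.closed, Bool.and_eq_true, Nat.ble_eq] at h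
  exact h

theorem sdA_lt (Q : CX) (j : ℕ) : Q.sdA j < 16 := by
  unfold CX.sdA
  have := g4_lt Q.dep (j.shiftRight 1)
  cases (g4 Q.dep (j.shiftRight 1)).ble 9
  · simp
  · simp only [cond_true, Nat.sub_eq]; omega

theorem mayA_lt (hn : Q.n ≤ 61) (j : ℕ) : Q.mayA j < 2 ^ 64 := by
  unfold CX.mayA
  cases (g6 Q.inp j).blt Q.n
  · simp only [cond_false]
    have h1 : (one Q.n).sub 1 < 2 ^ 64 := by
      rw [one_eq]
      have : 2 ^ Q.n ≤ 2 ^ 61 := Nat.pow_le_pow_right (by norm_num) hn
      show 2 ^ Q.n - 1 < 2 ^ 64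
      omega
    refine Nat.or_lt_two_pow (Nat.xor_lt_two_pow h1 (lt_of_le_of_lt Nat.and_le_left h1)) ?_
    show (g2 47 (g4 Q.lb j)) <<< 62 < 2 ^ 64
    rw [Nat.shiftLeft_eq]
    have := g2_lt 47 (g4 Q.lb j)
    omega
  · simp

end KD

open KD

theorem done_abs (hn : S.n ≤ 61) {x : ℕ} (h : CS.done tag S x = true) : S.abs.Done tag := by
  unfold CS.done at h
  generalize x.land 15 = c at h
  generalize (x.shiftRight 4).land 127 = j at h
  generalize (x.shiftRight 11).land 127 = k at h
  generalize (x.shiftRight 18).land 127 = l at h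
  simp only [cond_true_iff, Bool.and_eq_true, Nat.ble_eq, Nat.beq_eq, Bool.not_eq_true', shr1] at h
  have nb : ∀ {a b : ℕ}, a.beq b = false → a ≠ b := fun h => Nat.ne_of_beq_eq_false h
  rcases h with ⟨-, h⟩ | ⟨-, h⟩
  · rcases h with ⟨-, h⟩ | ⟨-, hj, h⟩
    · exact gain_abs hn .zero h
    have tj := trip_abs hn hj
    rcases h with ⟨-, h⟩ | ⟨-, h⟩
    · exact gain_abs hn (.one _ _ tj) h
    rcases h with ⟨-, h1, h⟩ | ⟨-, hk, h1, h⟩
    · refine gain_abs hn (.early _ _ tj ?_) h
      rw [inp_abs']; exact h1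
    have tk := trip_abs hn hk
    rcases h with ⟨-, h⟩ | ⟨-, hl, h2, h3, h⟩
    · refine gain_abs hn (.two _ _ _ _ tj tk ?_) h
      rw [inp_abs, inp_abs]; exact nb h1
    · refine gain_abs hn (.three _ _ _ _ _ _ tj tk (trip_abs hn hl) ?_ ?_ ?_) h
      · rw [inp_abs, inp_abs]; exact nb h1
      · rw [inp_abs, inp_abs]; exact nb h2
      · rw [inp_abs, inp_abs]; exact nb h3
  · rcases h with ⟨-, h⟩ | ⟨-, h⟩
    · rcases h with ⟨-, h1, h2⟩ | ⟨-, h1, h2, h3, h4⟩
      · exact .out (nb h1) h2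
      · refine .selv (j / 2) (decide (j % 2 = 1)) (ag_abs h1) ?_ ?_ ?_
        · rw [inp_abs]; exact av_abs h2
        · rw [inp_abs, ← ub_av hn h2]; exact h3
        · rw [inp_abs']; exact av_abs h4
    · rcases h with ⟨-, h1, h2, h3⟩ | ⟨-, h1, h2⟩
      · have e : S.abs.out = j / 2 := h1
        refine .outv (decide (j % 2 = 1)) ?_ ?_
        · rw [e]; exact ag_abs h2
        · rw [e, inp_abs]; exact av_abs h3
      · refine .zero j (av_abs h1) ?_
        rw [← ub_av hn h1]; exact h2

theorem init_abs {G : ℕ} (h : Q.initOk G = true) : Init Q.abs (Q.init G).abs := by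
  obtain ⟨hn, hG, hng, hgm⟩ := ok_abs h
  have hs : ∀ g, bit Q.gm g = true → ∀ i : Bool, 2 * g + i.toNat < G.mul 2 := fun g hg i => by
    have := hgm g hg
    have := Bool.toNat_le i
    show _ < G * 2
    omega
  have hli : ∀ j < G.mul 2, cond ((g6 Q.inp j).blt Q.n)
      ((g6 Q.inp j).add ((b1 Q.pol j).mul 256)) (j.add 64) < 512 := fun j hj => by
    have h1 := g6_lt Q.inp j
    have h2 := b1_le Q.pol j
    have h3 : j < G * 2 := hj
    cases (g6 Q.inp j).blt Q.n <;> simp only [cond_true, cond_false, Nat.add_eq, Nat.mul_eq] <;>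
      omega
  have href : ∀ g (i : Bool), Q.n ≤ g6 Q.inp (2 * g + i.toNat) →
      Q.abs.ref g i = 64 + (2 * g + i.toNat) := fun g i hi =>
    (if_neg (not_lt.2 hi)).trans (Nat.add_assoc ..)
  refine ⟨rfl, hn, fun u hu => ?_, fun _ _ => rfl, fun g _ hg => ?_, fun _ _ => rfl,
    fun u _ => ⟨rfl, (g4_lt _ _).trans (by norm_num)⟩, fun u hu => ?_, fun _ _ => rfl,
    fun u hu => ?_, fun g _ hg i hi hsd => ?_, fun g _ hg i => ?_, fun g _ hg i => ?_,
    fun u hu => ?_, ?_, fun g _ hg i hi => ?_, ?_, fun u => bit_zero u, rfl, rfl, rfl, rfl, rfl⟩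
  · show bit ((one Q.n).sub 1) u = true
    rw [bit_mask]; exact decide_eq_true hu
  · have hg' : bit (tab 1 (fun g => cond (Q.opq (g.mul 2)) 0 1) G) g = true := hg
    rw [bit_tab1' (fun g => Q.opq (g.mul 2))] at hg'
    simp only [CX.opq, Bool.and_eq_true, decide_eq_true_eq, Bool.not_eq_true',
      Bool.and_eq_false_iff, Nat.mul_eq] at hg'
    refine ⟨?_, ?_⟩
    · show bit Q.ng g = false
      rw [hng, bit_zero]
    · have e := xor1 g false
      simp only [Bool.toNat_false, Nat.add_zero, Bool.not_false] at e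
      rw [Nat.mul_comm, e] at hg'
      rcases hg'.2 with h1 | h1
      · exact Or.inl (Nat.lt_of_not_le fun h2 => by
          have h2' : Q.n ≤ g6 Q.inp (2 * g) := h2
          rw [Nat.ble_eq_true_of_le h2'] at h1; cases h1)
      · exact Or.inr (Nat.lt_of_not_le fun h2 => by
          have h2' : Q.n ≤ g6 Q.inp (2 * g + true.toNat) := h2
          rw [Nat.ble_eq_true_of_le h2'] at h1; cases h1)
  · exact gc_tab (fun j _ => (g4_lt _ _).trans (by norm_num)) hu
  · show g4 ((Q.dep.land tFull).lor ((tab 4 Q.sdA (G.mul 2)).shiftLeft 256)) u = g4 Q.dep u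
    have : u < 64 := lt_of_lt_of_le hu (hn.trans (by norm_num))
    rw [g4_join, if_pos this]
  · rw [href g i hi] at hsd ⊢
    have e : (Q.init G).abs.sd (64 + (2 * g + i.toNat)) = Q.sdA (2 * g + i.toNat) := by
      show g4 ((Q.dep.land tFull).lor ((tab 4 Q.sdA (G.mul 2)).shiftLeft 256)) _ = _
      rw [g4_join, if_neg (by omega), Nat.add_sub_cancel_left,
        g4_tab (fun j _ => sdA_lt Q j) (hs g hg i)]
    rw [e] at hsd ⊢
    unfold CX.sdA at hsd ⊢
    rw [half] at hsd ⊢
    show g4 Q.dep g ≤ 9 ∧ g4 Q.dep g - 1 ≤ _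
    cases h9 : (g4 Q.dep g).ble 9
    · rw [h9] at hsd; simp at hsd
    · exact ⟨Nat.le_of_ble_eq_true h9, le_rfl⟩
  · show gi (tab 10 _ _) (2 * g + i.toNat) = _
    rw [(gi_tab hli (hs g hg i)).1]
    have h1 := g6_lt Q.inp (2 * g + i.toNat)
    have h3 : 2 * g + i.toNat < G * 2 := hs g hg i
    by_cases hi : g6 Q.inp (2 * g + i.toNat) < Q.n
    · have e : Q.abs.ref g i = g6 Q.inp (2 * g + i.toNat) := if_pos hi
      rw [e, blt_t hi]
      simp only [cond_true, Nat.add_eq, Nat.mul_eq]
      omega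
    · rw [href g i (not_lt.1 hi), blt_f hi]
      simp only [cond_false, Nat.add_eq]
      omega
  · show (gp (tab 10 _ _) (2 * g + i.toNat)).beq 1 =
      (decide (g6 Q.inp (2 * g + i.toNat) < Q.n) && bit Q.pol (2 * g + i.toNat))
    rw [(gi_tab hli (hs g hg i)).2]
    have h1 := g6_lt Q.inp (2 * g + i.toNat)
    have h3 : 2 * g + i.toNat < G * 2 := hs g hg i
    by_cases hi : g6 Q.inp (2 * g + i.toNat) < Q.n
    · rw [blt_t hi, decide_eq_true hi, b1_eq]
      simp only [cond_true, Nat.add_eq, Nat.mul_eq, Bool.true_and]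
      cases bit Q.pol (2 * g + i.toNat)
      · have : (g6 Q.inp (2 * g + i.toNat) + false.toNat * 256) / 256 = 0 := by simp; omega
        rw [this]; rfl
      · have : (g6 Q.inp (2 * g + i.toNat) + true.toNat * 256) / 256 = 1 := by simp; omega
        rw [this]; rfl
    · rw [blt_f hi, decide_eq_false hi]
      simp only [cond_false, Nat.add_eq, Bool.false_and]
      have : (2 * g + i.toNat + 64) / 256 = 0 := by omega
      rw [this]; rfl
  · show bit (g64 (diag.lor _) u) u = true
    have h1 : u < 61 := lt_of_lt_of_le hu hn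
    rw [bit_g64, bit_lor, bit_diag, decide_eq_true (by omega : u < 64),
      decide_eq_true (by omega : (64 * u + u) % 65 = 0 ∧ 64 * u + u < 4160)]
    rfl
  · show bit (g64 (diag.lor (Nat.lor _ (one 12349))) 192) 61 = true
    rw [bit_g64, bit_lor, bit_lor, bit_one]
    simp
  · have hi' : Q.n ≤ g6 Q.inp (2 * g + i.toNat) := hi
    have key : ∀ v < 64, bit (Q.mayA (2 * g + i.toNat)) v = true →
        (Q.init G).abs.may (Q.abs.ref g i) v = true := fun v hv hb => by
      rw [href g i hi]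
      show bit (g64 (diag.lor (Nat.lor ((tab 64 Q.mayA (G.mul 2)).shiftLeft 4096) _)) _) v = true
      rw [bit_g64, bit_lor, bit_lor, decide_eq_true hv,
        show 64 * (64 + (2 * g + i.toNat)) + v = 4096 + (64 * (2 * g + i.toNat) + v) by ring,
        bit_shl, bit_tab (fun j _ => mayA_lt hn j) _ hv, hb, decide_eq_true (hs g hg i)]
      simp
    have hm : ∀ v, bit (Q.mayA (2 * g + i.toNat)) v =
        ((decide (v < Q.n) ^^ (decide (v < Q.n) && ((bit (g64 Q.nf (2 * g + i.toNat)) v ||
          (decide (v < Q.n) && Q.closed v)) || (decide (v = g) ||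
            decide (v = g6 Q.inp (2 * g + (!i).toNat)))))) ||
          bit ((g2 47 (g4 Q.lb (2 * g + i.toNat))).shiftLeft 62) v) := fun v => by
      unfold CX.mayA
      simp only [blt_f (not_lt.2 hi'), cond_false]
      rw [bit_lor, bit_xor, bit_land, bit_lor, bit_lor, bit_lor, bit_mask, bit_one, bit_one, half,
        xor1, CX.cm, bit_tab1]
    refine ⟨fun v hv => ?_, fun hl => key 62 (by norm_num) ?_, fun hl => key 63 (by norm_num) ?_⟩
    · have hv' : v < Q.n := hv
      by_cases h1 : bit (g64 Q.nf (2 * g + i.toNat)) v = true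
      · exact Or.inr (Or.inl (Or.inl h1))
      by_cases h2 : Q.closed v = true
      · exact Or.inr (Or.inl (Or.inr (Or.inr (Or.inl ⟨hi, closed_abs h2⟩))))
      by_cases h3 : v = g
      · exact Or.inr (Or.inr h3)
      by_cases h4 : v = g6 Q.inp (2 * g + (!i).toNat)
      · exact Or.inr (Or.inl (Or.inr (Or.inr (Or.inr (Or.inl h4.symm)))))
      refine Or.inl (key v (by omega) ?_)
      rw [hm, decide_eq_true hv', decide_eq_false h3, decide_eq_false h4,
        Bool.eq_false_iff.2 h1, Bool.eq_false_iff.2 h2]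
      rfl
    · have hl' : g4 Q.lb (2 * g + i.toNat) ≤ 1 := hl
      rw [hm, Bool.or_eq_true]
      right
      rw [show (62 : ℕ) = 62 + 0 from rfl, bit_shl]
      generalize g4 Q.lb (2 * g + i.toNat) = l at hl'
      interval_cases l <;> rfl
    · have hl' : g4 Q.lb (2 * g + i.toNat) ≤ 2 := hl
      rw [hm, Bool.or_eq_true]
      right
      rw [show (63 : ℕ) = 62 + 1 from rfl, bit_shl]
      generalize g4 Q.lb (2 * g + i.toNat) = l at hl'
      interval_cases l <;> rfl
  · show cond (Q.out.blt Q.n) Q.out 255 = if Q.out < Q.n then Q.out else 255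
    simp only [Bool.cond_eq_ite, Nat.blt_eq]

theorem iso_abs {G z : ℕ} (h0 : Q.initOk G = true) (h : Q.iso G z = true) :
    ∃ x y T A a, Iso Q.abs (Q.init G).abs x y T A a := by
  obtain ⟨-, -, -, hgm⟩ := ok_abs h0
  unfold CX.iso at h
  generalize z.land 63 = x at h
  generalize (z.shiftRight 6).land 63 = y at h
  generalize (z.shiftRight 12).land 15 = k at h
  generalize z.shiftRight 16 = T at h
  simp only [] at h
  generalize T.shiftRight Q.n = A at h
  generalize A.shiftRight Q.n = a at h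
  generalize a.shiftRight Q.n = cut at h
  simp only [Bool.and_eq_true, allTo_iff, Nat.blt_eq, Nat.ble_eq, Bool.not_eq_true',
    Bool.or_eq_true, Nat.beq_eq, cond_true_iff, Bool.and_eq_false_iff, Bool.or_eq_false_iff] at h
  obtain ⟨hx, hy, gx, gy, tx, ty, hk, h1, h2, h3⟩ := h
  refine ⟨x, y, bit T, bit A, bit a, ⟨hx, gx, tx⟩, ⟨hy, gy, ty⟩, fun v hv hA => ?_,
    fun v hv hT => ?_, fun e he hg hT hin val val' c c' hA hB => ?_⟩
  · rcases (h1 v hv).1 with h | h
    · rw [hA] at h; cases h
    · exact h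
  · rcases (h1 v hv).2 with h | ⟨h4, h5, h6⟩
    · rw [hT] at h; cases h
    · refine ⟨closed_abs h4, Nat.ne_of_beq_eq_false h5, fun hv => ?_⟩
      rcases h6 with h6 | h6
      · have hv' : bit Q.gm v = false := hv
        rw [hv'] at h6; cases h6
      · exact h6
  · have hE : tErr ≤ tCut cut k e ∧ (Q.init G).ev (Q.isoLeaf A a cut k) 14 e < tErr ∧
        (Q.init G).ev (Q.isoLeaf A a cut k) 14 e =
          (Q.init G).ev (Q.isoLeaf A (a.xor ((one x).lor (one y))) cut k) 14 e := by
      rcases h3 e (hgm e hg) with h | ⟨-, h⟩ | ⟨⟨h4, h5⟩, -⟩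
      · rw [hT] at h; cases h
      · exact h
      · exfalso
        obtain ⟨i, i1, i2⟩ := hin
        simp only [Nat.mul_eq, Nat.add_eq, Nat.mul_comm e 2] at h4 h5
        cases i
        · have i1' : g6 Q.inp (2 * e) < Q.n := i1
          have i2' : bit T (g6 Q.inp (2 * e)) = true := i2
          rcases h4 with h | h
          · rw [blt_t i1'] at h; cases h
          · rw [i2'] at h; cases h
        · have i1' : g6 Q.inp (2 * e + 1) < Q.n := i1
          have i2' : bit T (g6 Q.inp (2 * e + 1)) = true := i2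
          rcases h5 with h | h
          · rw [blt_t i1'] at h; cases h
          · rw [i2'] at h; cases h
    obtain ⟨i, hi, hrow⟩ := tCut_row cut hk val
    have e1 := (ev_sound (S := Q.init G) val c (Q.isoLeaf A a cut k) hi (fun _ => True)
      (fun _ _ _ _ => trivial) (fun r _ hr => ?_) 14 e trivial).2 hE.2.1
    have e2 := (ev_sound (S := Q.init G) val' c' (Q.isoLeaf A (a.xor ((one x).lor (one y))) cut k)
      hi (fun r => r = e ∨ (Q.init G).abs.Below e r) (fun r hr hg b => ?_) (fun r hR hr => ?_)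
      14 e (Or.inl rfl)).2 (hE.2.2 ▸ hE.2.1)
    · rw [← e1, ← e2, hE.2.2]
    · rcases hr with rfl | hr
      · exact Or.inr (.inp b)
      · exact Or.inr (.step b hr hg)
    · unfold CX.isoLeaf at hr ⊢
      cases hc : (r.blt Q.n && bit A r)
      · rw [hc] at hr
        simp only [cond_false] at hr ⊢
        obtain ⟨r1, j, hj, r2⟩ := hrow r hr
        rw [r1]
        rcases hR with rfl | hR
        · exact absurd hr (not_lt.2 hE.1)
        · refine hB r hR fun ⟨q1, q2⟩ => ?_
          rcases h2 j hj with h | h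
          · rw [r2, blt_t (b := Q.n) q1] at h; cases h
          · rw [r2, q2] at h; cases h
      · simp only [cond_true]
        rw [Bool.and_eq_true, Nat.blt_eq] at hc
        rw [b1_full _ _ hi, (hA r hc.1 hc.2).2, bit_xor, bit_lor, bit_one, bit_one,
          Bool.decide_or]
    · unfold CX.isoLeaf at hr ⊢
      cases hc : (r.blt Q.n && bit A r)
      · rw [hc] at hr
        simp only [cond_false] at hr ⊢
        exact (hrow r hr).1
      · simp only [cond_true]
        rw [Bool.and_eq_true, Nat.blt_eq] at hc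
        rw [b1_full _ _ hi, (hA r hc.1 hc.2).1]

theorem run_sound {G m x : ℕ} (h0 : Q.initOk G = true) (h : CS.run tag m (Q.init G) x = true) :
    HoldsX tag Q.abs := by
  intro s C V E K T M
  have key : ∀ (m : ℕ) (S : CS) (x : ℕ), CS.run tag m S x = true → Good S.abs s C → Win s C V := by
    intro m
    induction m with
    | zero =>
      intro S x h g
      obtain ⟨s', C', V', H, I⟩ := id g
      exact done_sound K T g (done_abs I.n61 h)
    | succ m ih =>
      intro S x h g
      obtain ⟨s', C', V', H, I⟩ := id g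
      obtain ⟨S', y, o, hr⟩ := op_abs (r := CS.run tag m) I.n61 h
      exact ih S' y hr (op_sound K g o)
  obtain ⟨H, I, -⟩ := init_inv K M (init_abs h0)
  exact key m _ x h ⟨s, C, V, H, I⟩

theorem KD.top_sound {lim G : ℕ} (hdb : ∀ j < lim, Lem db j) (hG : G ≤ 63) (Q : CX) (x : ℕ)
    (h : top db lim tag G Q x ≠ 0) : HoldsX tag Q.abs := by
  have hk := chk_sound hdb
  unfold top at h
  generalize x.land 15 = c at h
  generalize (x.shiftRight 4).land 127 = a at h
  generalize x.shiftRight 11 = y at h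
  simp only [] at h
  cases h1 : c.ble 1 <;> rw [h1] at h <;> simp only [cond_true, cond_false] at h
  · cases hn : Q.n.blt 63 <;> rw [hn] at h <;> simp only [cond_true, cond_false] at h
    · exact absurd rfl h
    have hn' : Q.n < 63 := of_blt hn
    cases h4 : c.ble 4 <;> rw [h4] at h <;> simp only [cond_true, cond_false] at h
    · cases h6 : c.ble 6 <;> rw [h6] at h <;> simp only [cond_true, cond_false] at h
      · cases h7 : c.beq 7 <;> rw [h7] at h <;> simp only [cond_true, cond_false] at h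
        · cases h8 : c.beq 8 <;> rw [h8] at h <;> simp only [cond_true, cond_false] at h
          · exact (hk tag Q y h).1
          · exact e6_sound hk hn' h
        · exact e5_sound (hk tag) h
      · cases h5 : c.beq 5 <;> rw [h5] at h <;> simp only [cond_true, cond_false] at h
        · exact e2_sound (hk tag) hn' h
        · exact e4_sound (hk tag) h
    · cases h2 : c.beq 2 <;> rw [h2] at h <;> simp only [cond_true, cond_false] at h
      · cases h3 : c.beq 3 <;> rw [h3] at h <;> simp only [cond_true, cond_false] at h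
        · exact e3_sound (hk tag) hn' h
        · exact e8_sound (hk tag) hn' h
      · exact e0_sound (hk tag) hn' hG h
  · cases h2 : (Q.initOk G && cond (c.beq 0) (CS.run tag a (Q.init G) y) (Q.iso G y)) <;>
      rw [h2] at h
    · exact absurd rfl h
    rw [Bool.and_eq_true, cond_true_iff] at h2
    obtain ⟨h0, ⟨-, h3⟩ | ⟨-, h3⟩⟩ := h2
    · exact run_sound h0 h3
    · obtain ⟨x, y, T, A, a, I⟩ := iso_abs h0 h3
      exact holdsX_iso (init_abs h0) I

theorem lem_sound {i x : ℕ} (hdb : ∀ j < i, Lem db j) (h : lem db i x = true) : Lem db i := by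
  unfold lem at h
  simp only [Bool.and_eq_true, Bool.not_eq_true'] at h
  have hn : (decP (db i)).n ≤ 63 := Nat.and_le_right
  have hG : (decP (db i)).G ≤ 63 := Nat.and_le_right
  exact load_sound hn h.1
    (steps_sound (KD.top_sound hdb hG) _ _ _ (Nat.ne_of_beq_eq_false h.2))

theorem cert_of_lems (l : List ℕ) (a b : ℕ) (hb : Nat.add a l.length = b) (h : lems db l a = true) :
    Cert db a b := by
  induction l generalizing a with
  | nil =>
    intro i h1 h2
    simp only [List.length_nil, Nat.add_eq] at hb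
    omega
  | cons x l ih =>
    have h' : (lem db a x && lems db l (a.add 1)) = true := h
    rw [Bool.and_eq_true] at h'
    simp only [List.length_cons, Nat.add_eq] at hb
    intro i h1 h2
    rcases Nat.eq_or_lt_of_le h1 with rfl | h3
    · exact ⟨x, h'.1⟩
    · exact ih (a.add 1) (by simp only [Nat.add_eq]; omega) h'.2 i h3 h2

theorem Cert.trans {a b c : ℕ} (h₁ : Cert db a b) (h₂ : Cert db b c) : Cert db a c :=
  fun i h1 h2 => if h : i < b then h₁ i h1 h else h₂ i (not_lt.1 h) h2

theorem lem_of_cert {b : ℕ} (h : Cert db 0 b) : ∀ i < b, Lem db i := by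
  intro i
  induction i using Nat.strong_induction_on with
  | _ i ih =>
    intro hi
    obtain ⟨x, hx⟩ := h i (Nat.zero_le i) hi
    exact lem_sound (fun j hj => ih j hj (hj.trans hi)) hx

end Pool.Agent.Lib.MP_79d702_lc.U2
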