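import Pool.Agent.Lib.MP_79d702_lc.U2.Chk

/-!
The checker, second part: packed simulation states, invisible flips and whole lemmas.
-/

namespace Pool.Agent.Lib.MP_79d702_lc.U2

structure CS where
  n : ℕ
  al : ℕ
  gm : ℕ
  uf : ℕ
  dex : ℕ
  pend : ℕ
  dlo : ℕ
  c : ℕ
  sg : ℕ
  sd : ℕ
  li : ℕ
  may : ℕ
  out : ℕ
  hst : ℕ
  rem : ℕ
  add : ℕ
  t : ℕ
  elim : ℕ
  rew : ℕ

namespace CS

def abs (S : CS) : Sim where
  n := S.n
  al := bit S.al
  gate := bit S.gm
  uf := bit S.uf
  dex := bit S.dex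
  pend := bit S.pend
  dlo := g4 S.dlo
  c := gc S.c
  sg := g2 S.sg
  sd := g4 S.sd
  inp := fun g i => gi S.li (2 * g + i.toNat)
  pol := fun g i => (gp S.li (2 * g + i.toNat)).beq 1
  may := fun r v => bit (g64 S.may r) v
  out := S.out
  hst := S.hst
  rem := S.rem
  add := S.add
  t := S.t
  elim := S.elim
  rew := S.rew

def ag (S : CS) (g : ℕ) : Bool := g.blt S.n && (bit S.al g && bit S.gm g)
def av (S : CS) (u : ℕ) : Bool := u.blt S.n && (bit S.al u && !bit S.gm u)

/-- for `u < 64` -/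
def ub (S : CS) (u : ℕ) : ℕ := cond (bit S.dex u) ((gc S.c u).add (extC S.may S.c u)) 60

/-- replace a gate `g < 64` by `(w, p)`, `w < 256`, `p ≤ 1` -/
def replG (S : CS) (g w p : ℕ) : CS :=
  let a := gi S.li (g.mul 2)
  let b := gi S.li ((g.mul 2).add 1)
  let c1 := sc S.c w (satC ((gc S.c w).add (S.ub g)))
  let c2 := sc c1 a (decC (gc c1 a))
  { S with
    al := sb S.al g 0, c := sc c2 b (decC (gc c2 b)), may := replM S.may g w,
    sd := s4 S.sd w (mn (g4 S.sd w) (g4 S.sd g)), li := replL S.li g w p,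
    out := cond (S.out.beq g) w S.out, rem := S.rem.add 1 }

/-- substitute `(w, p)` for a variable `g` -/
def sub (S : CS) (g w p : ℕ) : CS :=
  { S with
    al := sb S.al g 0, c := sc S.c w (satC ((gc S.c w).add (S.ub g))), may := replM S.may g w,
    sd := s4 S.sd w (mn (g4 S.sd w) (g4 S.sd g)), li := replL S.li g w p,
    out := cond (S.out.beq g) w S.out, t := S.t.add 1, elim := S.elim.add (crC (g4 S.dlo g)),
    sg := s2 S.sg w (Nat.sub 1 (g2 S.sg w)) }

/-- the slot `j` is fed by the input `i ≤ 1` of its present source -/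
def rewire (S : CS) (j i p : ℕ) : CS :=
  let h := gi S.li j
  let m := gi S.li ((h.mul 2).add i)
  let c1 := sc S.c m (satC ((gc S.c m).add 1))
  { S with c := sc c1 h (decC (gc c1 h)), li := sl S.li j m p, rew := S.rew.add 1 }

def addG (S : CS) (h a pa b pb : ℕ) : CS :=
  let c0 := sc S.c S.n 0
  let c1 := sc c0 a (satC ((gc c0 a).add 1))
  { S with
    n := S.n.add 1, al := sb S.al S.n 1, gm := sb S.gm S.n 1, uf := sb S.uf S.n 1,
    dex := sb S.dex S.n 1, dlo := s4 S.dlo S.n 0, c := sc c1 b (satC ((gc c1 b).add 1)),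
    sd := s4 S.sd S.n 15, li := sl (sl S.li (S.n.mul 2) a pa) ((S.n.mul 2).add 1) b pb,
    may := s64 S.may S.n (one S.n),
    pend := (one S.n).lor (cond (S.hst.beq h) S.pend 0), hst := h, add := S.add.add 1 }

def depG (S : CS) (g : ℕ) : CS :=
  { S with sd := s4 S.sd g (mn (g4 S.sd g)
      ((mx (g4 S.sd (gi S.li (g.mul 2))) (g4 S.sd (gi S.li ((g.mul 2).add 1)))).add 1)) }

/-- truth table of the reference `r`; `leaf r < 2 ^ 256` gives the table of a leaf -/
def ev (S : CS) (leaf : ℕ → ℕ) (fuel : ℕ) : ℕ → ℕ :=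
  Nat.rec (fun _ => tErr) (fun _ f r => cond ((leaf r).blt tErr) (leaf r)
    (cond (r.beq 192) 0 (cond (S.ag r && bit S.uf r)
      (tAnd (tNeg (f (gi S.li (r.mul 2))) (gp S.li (r.mul 2)))
        (tNeg (f (gi S.li ((r.mul 2).add 1))) (gp S.li ((r.mul 2).add 1)))) tErr))) fuel

/-- follow `k` further inputs downwards from `r`, chosen by the bits of `y`; `255` on failure -/
def path (S : CS) (y r k : ℕ) : ℕ :=
  Nat.rec r (fun i q => cond (S.ag q) (gi S.li ((q.mul 2).add (b1 y i))) 255) k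

/-- a reference below the gate `h`, given by 11 bits; `255` on failure -/
def tgt (S : CS) (h x : ℕ) : ℕ :=
  let k := x.land 7
  let y := (x.shiftRight 3).land 255
  cond (k.beq 0)
    (cond (y.beq 192 || (S.hst.beq h && (bit S.pend y && (y.blt S.n && bit S.al y)))) y 255)
    (S.path y h k)

/-- one operation; `r` continues -/
def op (r : CS → ℕ → Bool) (S : CS) (x : ℕ) : Bool :=
  let c := x.land 15
  let j := (x.shiftRight 4).land 127
  let y := x.shiftRight 11
  let g := j.shiftRight 1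
  let a := gi S.li j
  let b := gi S.li (j.xor 1)
  cond (c.beq 0)
    (S.ag g && (bit S.uf g &&
      cond (a.beq 192)
        (cond ((gp S.li j).beq 0) (r (S.replG g 192 0) y) (r (S.replG g b (gp S.li (j.xor 1))) y))
        (a.beq b && cond ((gp S.li j).beq (gp S.li (j.xor 1)))
          (r (S.replG g b (gp S.li j)) y) (r (S.replG g 192 0) y))))
  (cond (c.ble 4)
    (cond (c.ble 2)
      (cond (c.beq 1)
        (S.av g && (S.t.blt 80 && r (S.sub g 192 (j.land 1)) y))
        (S.ag g && ((S.ub g).beq 0 && r (S.replG g 192 0) y)))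
      (cond (c.beq 3)
        (let w := S.tgt g y
         let k := (y.shiftRight 11).land 15
         let z := y.shiftRight 15
         let t := S.ev (tCut z k) 12 g
         S.ag g && (w.blt 255 && (k.ble 8 && (t.blt tErr &&
           (t.beq (tNeg (S.ev (tCut z k) 12 w) (j.land 1)) &&
             r (S.replG g w (j.land 1)) (z.shiftRight (k.mul 8)))))))
        (let w := y.land 63
         S.av g && (S.av w && (!g.beq w && (S.t.blt 80 && ((g2 S.sg g).ble 1 &&
           ((g2 S.sg w).ble 1 && r (S.sub g w ((g2 S.sg g).xor (g2 S.sg w))) (y.shiftRight 6)))))))))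
    (cond (c.ble 7)
      (cond (c.beq 5)
        (S.ag g && r (S.depG g) y)
        (cond (c.beq 6)
          (S.ag g && (S.av a && ((S.ub a).ble 1 && (S.ag b && ((g4 S.sd b).ble 9 &&
            r (S.replG b 192 ((gp S.li (j.xor 1)).xor 1)) y)))))
          (let pa := y.land 1
           let u := S.tgt g (y.shiftRight 1)
           let w := S.tgt g (y.shiftRight 12)
           S.ag g && (S.n.blt 61 && (u.blt 255 && (w.blt 255 &&
             r (S.addG g u pa w (j.land 1)) (y.shiftRight 23)))))))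
      (cond (c.beq 8)
        (let i := y.land 1
         let p := b1 y 1
         let k := (y.shiftRight 2).land 15
         let z := y.shiftRight 6
         let t := S.ev (tCut z k) 12 g
         S.ag g && (bit S.uf g && (S.ag a && (k.ble 8 && (t.blt tErr &&
           (t.beq (tAnd (tNeg (S.ev (tCut z k) 12 (gi S.li ((a.mul 2).add i))) p)
              (tNeg (S.ev (tCut z k) 12 b) (gp S.li (j.xor 1)))) &&
             r (S.rewire j i p) (z.shiftRight (k.mul 8))))))))
        (cond (c.beq 9)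
          (let k := y.land 127
           let h := k.shiftRight 1
           S.ag g && (S.ag h && (!g.beq h && (bit S.uf g && (bit S.uf h &&
             (a.beq (gi S.li k) && (b.beq (gi S.li (k.xor 1)) &&
               ((gp S.li j).beq (gp S.li k) && ((gp S.li (j.xor 1)).beq (gp S.li (k.xor 1)) &&
                 r (replG { S with pend := 0 } g h 0) (y.shiftRight 7))))))))))
          (S.out.beq g && (S.ag g && (S.ag a && ((g4 S.sd a).ble 9 &&
            r (S.replG a 192 ((gp S.li j).xor 1)) y))))))))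

def trip (S : CS) (j : ℕ) : Bool :=
  S.ag (j.shiftRight 1) && (S.av (gi S.li j) && ((S.ub (gi S.li j)).ble 1 &&
    !bit S.may (((gi S.li (j.xor 1)).mul 64).add 61)))

def lossV (S : CS) : ℕ := sumTo (fun u => cond (bit S.al u && !bit S.gm u) (crC (g4 S.dlo u)) 0) S.n

def hi (S : CS) (u : ℕ) : ℕ :=
  let e := (gc S.c u).add (extC S.may S.c u)
  cond (bit S.dex u) (crC e) (cond (e.ble (g4 S.dlo u)) (crC (g4 S.dlo u)) 0)

def gainV (S : CS) : ℕ := sumTo (fun u => cond (bit S.al u && !bit S.gm u) (S.hi u) 0) S.n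

def gain (tag : ℕ) (S : CS) (b : ℕ) : Bool :=
  ((((((S.add.mul 100).add S.elim).add S.lossV).add (lossC S.may S.c)).add (tag.mul 33)).add
    (S.t.mul 501)).ble (((S.rem.mul 100).add S.gainV).add b) &&
  (Nat.ble 1 S.t || (S.add.blt S.rem || (S.rem.beq 0 && (S.add.beq 0 && Nat.ble 1 S.rew))))

def done (tag : ℕ) (S : CS) (x : ℕ) : Bool :=
  let c := x.land 15
  let j := (x.shiftRight 4).land 127
  let k := (x.shiftRight 11).land 127
  let l := (x.shiftRight 18).land 127
  let g := j.shiftRight 1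
  cond (c.ble 4)
    (cond (c.beq 0) (S.gain tag 0)
      (S.trip j && cond (c.beq 1) (S.gain tag 33)
        (cond (c.beq 4) ((g4 S.sd (gi S.li (j.xor 1))).ble 9 && S.gain tag 100)
          (S.trip k && (!(gi S.li j).beq (gi S.li k) && cond (c.beq 2) (S.gain tag 66)
            (S.trip l && (!(gi S.li j).beq (gi S.li l) && (!(gi S.li k).beq (gi S.li l) &&
              S.gain tag 100))))))))
    (cond (c.ble 6)
      (cond (c.beq 5) (!S.out.beq 255 && (g4 S.sd S.out).ble 9)
        (S.ag g && (S.av (gi S.li j) && ((S.ub (gi S.li j)).ble 1 && S.av (gi S.li (j.xor 1))))))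
      (cond (c.beq 7) (S.out.beq g && (S.ag g && S.av (gi S.li j)))
        (S.av j && (S.ub j).beq 0)))

def run (tag m : ℕ) : CS → ℕ → Bool := Nat.rec (done tag) (fun _ r => op r) m

end CS

namespace CX

def cm (Q : CX) : ℕ := tab 1 (fun u => cond (Q.closed u) 1 0) Q.n

def mayA (Q : CX) (j : ℕ) : ℕ :=
  let al := (one Q.n).sub 1
  cond ((g6 Q.inp j).blt Q.n) 0
    ((al.xor (al.land (((g64 Q.nf j).lor Q.cm).lor
      ((one (j.shiftRight 1)).lor (one (g6 Q.inp (j.xor 1))))))).lor
      ((g2 47 (g4 Q.lb j)).shiftLeft 62))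

def sdA (Q : CX) (j : ℕ) : ℕ :=
  cond ((g4 Q.dep (j.shiftRight 1)).ble 9) ((g4 Q.dep (j.shiftRight 1)).sub 1) 15

def init (G : ℕ) (Q : CX) : CS where
  n := Q.n
  al := (one Q.n).sub 1
  gm := Q.gm
  uf := tab 1 (fun g => cond (Q.opq (g.mul 2)) 0 1) G
  dex := Q.dex
  pend := 0
  dlo := Q.dlo
  c := tab 64 (g4 Q.dlo) Q.n
  sg := Q.sg
  sd := (Q.dep.land tFull).lor ((tab 4 Q.sdA (G.mul 2)).shiftLeft 256)
  li := tab 10 (fun j => cond ((g6 Q.inp j).blt Q.n)
    ((g6 Q.inp j).add ((b1 Q.pol j).mul 256)) (j.add 64)) (G.mul 2)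
  may := diag.lor (((tab 64 Q.mayA (G.mul 2)).shiftLeft 4096).lor (one 12349))
  out := cond (Q.out.blt Q.n) Q.out 255
  hst := 0
  rem := 0
  add := 0
  t := 0
  elim := 0
  rew := 0

def initOk (G : ℕ) (Q : CX) : Bool :=
  Q.n.ble 61 && (G.ble Q.n && (Q.ng.beq 0 && Q.gm.blt (one G)))

def isoLeaf (Q : CX) (A a cut k r : ℕ) : ℕ :=
  cond (r.blt Q.n && bit A r) ((b1 a r).mul tFull) (tCut cut k r)

def iso (G : ℕ) (Q : CX) (z : ℕ) : Bool :=
  let S := Q.init G
  let x := z.land 63
  let y := (z.shiftRight 6).land 63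
  let k := (z.shiftRight 12).land 15
  let T := z.shiftRight 16
  let A := T.shiftRight Q.n
  let a := A.shiftRight Q.n
  let cut := a.shiftRight Q.n
  let a' := a.xor ((one x).lor (one y))
  x.blt Q.n && (y.blt Q.n && (!bit Q.gm x && (!bit Q.gm y && (bit T x && (bit T y && (k.ble 8 &&
    (allTo (fun v => (!bit A v || !bit Q.gm v) && (!bit T v || (Q.closed v && (!Q.out.beq v &&
        (bit Q.gm v || (v.beq x || v.beq y)))))) Q.n &&
      (allTo (fun i => !((g8 cut i).blt Q.n && bit T (g8 cut i))) k &&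
        allTo (fun e => bit T e ||
          cond (((g6 Q.inp (e.mul 2)).blt Q.n && bit T (g6 Q.inp (e.mul 2))) ||
              ((g6 Q.inp ((e.mul 2).add 1)).blt Q.n && bit T (g6 Q.inp ((e.mul 2).add 1))))
            (tErr.ble (tCut cut k e) && ((S.ev (Q.isoLeaf A a cut k) 14 e).blt tErr &&
              (S.ev (Q.isoLeaf A a cut k) 14 e).beq (S.ev (Q.isoLeaf A a' cut k) 14 e)))
            true) G))))))))

end CX

def top (db : ℕ → ℕ) (lim tag G : ℕ) (Q : CX) (x : ℕ) : ℕ :=
  let c := x.land 15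
  let a := (x.shiftRight 4).land 127
  let y := x.shiftRight 11
  let k := chk db lim tag
  cond (c.ble 1)
    (cond (Q.initOk G && cond (c.beq 0) (CS.run tag a (Q.init G) y) (Q.iso G y)) 1 0)
    (cond (Q.n.blt 63)
      (cond (c.ble 4)
        (cond (c.beq 2) (CX.e0 k G Q a y)
          (cond (c.beq 3) (CX.e8 k Q a (y.land 63) (y.shiftRight 6)) (CX.e3 k Q a y)))
        (cond (c.ble 6)
          (cond (c.beq 5) (CX.e4 k Q a y) (CX.e2 k Q a y))
          (cond (c.beq 7) (CX.e5 k Q a y)
            (cond (c.beq 8) (CX.e6 (chk db lim) tag Q a y) (k Q y)))))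
      0)

/-- the check of the lemma number `i` with the certificate `x` -/
def lem (db : ℕ → ℕ) (i x : ℕ) : Bool :=
  let P := decP (db i)
  P.wf && !(CX.steps P.tag (top db i P.tag P.G) (x.land 31) (P.load (P.G.mul 2))
    (x.shiftRight 5)).beq 0

noncomputable def lems (db : ℕ → ℕ) (l : List ℕ) : ℕ → Bool :=
  List.rec (fun _ => true) (fun x _ r i => lem db i x && r (i.add 1)) l

/-- the stored lemma number `i` -/
def Lem (db : ℕ → ℕ) (i : ℕ) : Prop := Holds (decP (db i)).tag (decP (db i)).abs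

/-- a sound check of one case that fails on the empty stream -/
def Snd (tag : ℕ) (k : CX → ℕ → ℕ) : Prop := ∀ Q x, k Q x ≠ 0 → HoldsX tag Q.abs ∧ x ≠ 0

/-- all lemmas in a range have a certificate -/
def Cert (db : ℕ → ℕ) (a b : ℕ) : Prop := ∀ i, a ≤ i → i < b → ∃ x, lem db i x = true

end Pool.Agent.Lib.MP_79d702_lc.U2
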