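import Pool.Agent.Lib.MP_79d702_lc.U2.Ops

/-!
Bookkeeping for the elementary circuit operations.
-/

namespace Pool.Agent.Lib.MP_79d702_lc.U2

variable {s : FS} {C : Ckt} {V : (ℕ → Bool) → ℕ → Bool}

theorem Reach.trans {s₀ s₁ s₂ : FS} (h₁ : Reach s₀ s₁) (h₂ : Reach s₁ s₂) : Reach s₀ s₂ := by
  induction h₂ with
  | refl => exact h₁
  | fix c _ hx ih => exact ih.fix c hx
  | proj _ hx hy hxy ih => exact ih.proj hx hy hxy

theorem Reach.subset {s' : FS} (h : Reach s s') : s'.X ⊆ s.X := by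
  induction h with
  | refl => exact Finset.Subset.refl _
  | fix c _ _ ih => exact (Finset.erase_subset _ _).trans ih
  | proj _ _ _ _ ih => exact (Finset.erase_subset _ _).trans ih

theorem Reach.wt_le {s' : FS} (h : Reach s s') : ∑ x ∈ s'.X, s'.wt x ≤ ∑ x ∈ s.X, s.wt x := by
  induction h with
  | refl => exact le_rfl
  | fix c _ _ ih => exact (Finset.sum_le_sum_of_subset (Finset.erase_subset _ _)).trans ih
  | @proj t x y _ hx hy hxy ih =>
    refine le_trans (le_of_eq ?_) ih
    have hy' : y ∈ t.X.erase x := Finset.mem_erase.2 ⟨hxy.symm, hy⟩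
    change ∑ z ∈ t.X.erase x, Function.update t.wt y (t.wt x + t.wt y) z = _
    rw [Finset.sum_update_of_mem hy', ← Finset.add_sum_erase _ _ hx, ← Finset.add_sum_erase _ _ hy',
      Finset.sdiff_singleton_eq_erase, add_assoc]

theorem cr_anti {a b : ℕ} (h : a ≤ b) : cr b ≤ cr a := by
  unfold cr
  split_ifs <;> omega

theorem cr_le (a : ℕ) : cr a ≤ 100 := by
  unfold cr
  split_ifs <;> omega

theorem lit_subst (v : ℕ → Bool) {g : ℕ} {l : ℕ × Bool} (h : v g = lit v l) (k : ℕ × Bool) :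
    lit v (subst g l k) = lit v k := by
  unfold subst
  split_ifs with hk
  · simp only [lit] at h ⊢
    rw [hk, h, Bool.xor_assoc]
  · rfl

theorem deg_eq (C : Ckt) (v : ℕ) : C.deg v = ∑ g ∈ C.G,
    ((if (C.inp g false).1 = v then 1 else 0) + (if (C.inp g true).1 = v then 1 else 0)) +
      if C.out.1 = v then 1 else 0 := by
  unfold Ckt.deg
  rw [Finset.card_filter, Finset.sum_product]
  congr 1
  refine Finset.sum_congr rfl fun g _ => ?_
  rw [Fintype.sum_bool, add_comm]

/-- a set of wires leaving `v` (plus possibly the output wire) bounds the degree from below -/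
theorem card_le_deg {v : ℕ} (T : Finset (ℕ × Bool))
    (hT : ∀ w ∈ T, w.1 ∈ C.G ∧ (C.inp w.1 w.2).1 = v) :
    T.card + (if C.out.1 = v then 1 else 0) ≤ C.deg v := by
  unfold Ckt.deg
  refine Nat.add_le_add_right (Finset.card_le_card fun w hw => ?_) _
  rw [Finset.mem_filter, Finset.mem_product]
  exact ⟨⟨(hT w hw).1, Finset.mem_univ _⟩, (hT w hw).2⟩

theorem deg_pos_of_inp {g : ℕ} (hg : g ∈ C.G) (i : Bool) : 1 ≤ C.deg (C.inp g i).1 := by
  have := card_le_deg (C := C) (v := (C.inp g i).1) {(g, i)} (by simp [hg])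
  rw [Finset.card_singleton] at this
  omega

theorem deg_pos_of_out : 1 ≤ C.deg C.out.1 := by
  simp [Ckt.deg]

theorem slots_le_deg (g v : ℕ) : C.slots g v ≤ C.deg v := by
  unfold Ckt.slots
  split_ifs with hg
  all_goals first
    | exact Nat.zero_le _
    | (have h := Finset.single_le_sum (f := fun g => (if (C.inp g false).1 = v then 1 else 0) +
        (if (C.inp g true).1 = v then 1 else 0)) (fun _ _ => Nat.zero_le _) hg
       rw [deg_eq]
       simp only [*, if_true, if_false] at h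
       omega)

theorem deg_eq_zero (M : Model s C V) {w : ℕ} (hw : ¬ Node s C w) : C.deg w = 0 := by
  unfold Ckt.deg
  rw [if_neg fun h : C.out.1 = w => hw (h ▸ M.osrc), add_zero, Finset.card_eq_zero,
    Finset.filter_eq_empty_iff]
  intro p hp h
  exact hw (h ▸ M.src p.1 (Finset.mem_product.1 hp).1 p.2)

/-- if such a set has fewer elements than the degree, there is one more wire -/
theorem exists_wire {v : ℕ} (T : Finset (ℕ × Bool))
    (h : T.card + (if C.out.1 = v then 1 else 0) < C.deg v) :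
    ∃ g ∈ C.G, ∃ i, (g, i) ∉ T ∧ (C.inp g i).1 = v := by
  unfold Ckt.deg at h
  obtain ⟨p, hp, hT⟩ := Finset.exists_mem_notMem_of_card_lt_card (Nat.lt_of_add_lt_add_right h)
  rw [Finset.mem_filter, Finset.mem_product] at hp
  exact ⟨p.1, hp.1.1, p.2, hT, hp.2⟩

theorem subst_ind {g v : ℕ} (l k : ℕ × Bool) :
    (if (subst g l k).1 = v then 1 else 0) ≤ (if k.1 = v then 1 else 0) +
      (if l.1 = v then 1 else 0) * (if k.1 = g then 1 else 0) := by
  unfold subst
  by_cases h : k.1 = g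
  · simp only [h, if_true, mul_one]
    exact Nat.le_add_left _ _
  · simp only [h, if_false, mul_zero, add_zero, le_refl]

theorem deg_merge {g v : ℕ} {l : ℕ × Bool} (hv : v ≠ g) :
    (C.merge g l).deg v + C.slots g v ≤ C.deg v + if l.1 = v then C.deg g else 0 := by
  have e : (if l.1 = v then C.deg g else 0) = (if l.1 = v then 1 else 0) * C.deg g := by
    split_ifs <;> simp
  have h1 : ∑ h ∈ C.G.erase g, ((if (subst g l (C.inp h false)).1 = v then 1 else 0) +
      (if (subst g l (C.inp h true)).1 = v then 1 else 0)) ≤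
      ∑ h ∈ C.G.erase g, ((if (C.inp h false).1 = v then 1 else 0) +
        (if (C.inp h true).1 = v then 1 else 0)) + (if l.1 = v then 1 else 0) *
      ∑ h ∈ C.G.erase g, ((if (C.inp h false).1 = g then 1 else 0) +
        (if (C.inp h true).1 = g then 1 else 0)) := by
    rw [Finset.mul_sum, ← Finset.sum_add_distrib]
    refine Finset.sum_le_sum fun h _ => ?_
    have a := subst_ind (g := g) (v := v) l (C.inp h false)
    have b := subst_ind (g := g) (v := v) l (C.inp h true)
    rw [mul_add]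
    omega
  have h2 : ∑ h ∈ C.G.erase g, ((if (C.inp h false).1 = v then 1 else 0) +
      (if (C.inp h true).1 = v then 1 else 0)) + C.slots g v =
      ∑ h ∈ C.G, ((if (C.inp h false).1 = v then 1 else 0) +
        (if (C.inp h true).1 = v then 1 else 0)) := by
    unfold Ckt.slots
    by_cases hg : g ∈ C.G
    · rw [if_pos hg, ← Finset.add_sum_erase _ _ hg, add_comm]
    · rw [if_neg hg, Finset.erase_eq_of_notMem hg, add_zero]
  have h3 : (if l.1 = v then 1 else 0) * ∑ h ∈ C.G.erase g,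
      ((if (C.inp h false).1 = g then 1 else 0) + (if (C.inp h true).1 = g then 1 else 0)) ≤
      (if l.1 = v then 1 else 0) * ∑ h ∈ C.G,
      ((if (C.inp h false).1 = g then 1 else 0) + (if (C.inp h true).1 = g then 1 else 0)) :=
    Nat.mul_le_mul_left _ (Finset.sum_le_sum_of_subset (Finset.erase_subset _ _))
  have h4 := subst_ind (g := g) (v := v) l C.out
  rw [e, deg_eq, deg_eq C v, deg_eq C g, mul_add]
  change ∑ h ∈ C.G.erase g, ((if (subst g l (C.inp h false)).1 = v then 1 else 0) +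
      (if (subst g l (C.inp h true)).1 = v then 1 else 0)) +
      (if (subst g l C.out).1 = v then 1 else 0) + _ ≤ _
  omega

theorem merge_gen (M : Model s C V) {s' : FS} {g : ℕ} {l : ℕ × Bool}
    (φ : (ℕ → Bool) → ℕ → Bool) (hX : ∀ y ∈ s.X, y ≠ g → y ∈ s'.X)
    (hX' : ∀ y ∈ s'.X, y ∈ s.X ∧ ∀ a, φ a y = a y) (hf : ∀ a, s'.f a = s.f (φ a))
    (hl : l.1 = 0 ∨ l.1 ∈ s'.X ∨ l.1 ∈ C.G.erase g)
    (hsem : C.deg g = 0 ∨ ∀ a, V (φ a) g = lit (V (φ a)) l)
    (hrk : l.1 ∈ C.G → ∀ h ∈ C.G, ∀ i, (C.inp h i).1 = g → C.rk l.1 < C.rk h) :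
    Model s' (C.merge g l) (fun a => V (φ a)) := by
  have hn : ∀ k : ℕ × Bool, k.1 = 0 ∨ k.1 ∈ s.X ∨ k.1 ∈ C.G →
      (subst g l k).1 = 0 ∨ (subst g l k).1 ∈ s'.X ∨ (subst g l k).1 ∈ C.G.erase g := by
    intro k hk
    unfold subst
    split_ifs with h
    · exact hl
    · exact hk.imp_right fun hk => hk.imp (fun hk => hX _ hk h) fun hk => Finset.mem_erase.2 ⟨h, hk⟩
  have hv : ∀ a (k : ℕ × Bool), 1 ≤ C.deg k.1 → lit (V (φ a)) (subst g l k) = lit (V (φ a)) k := by
    intro a k hk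
    rcases hsem with h | h
    · unfold subst
      rw [if_neg]
      rintro rfl
      omega
    · exact lit_subst _ (h a) k
  refine ⟨fun h => M.zx (hX' 0 h).1, fun h => M.zg (Finset.mem_of_mem_erase h),
    fun x hx h => M.dis x (hX' x hx).1 (Finset.mem_of_mem_erase h),
    fun h hh i => hn _ (M.src h (Finset.mem_of_mem_erase hh) i), fun h hh i hi => ?_,
    hn _ M.osrc, fun a => M.v0 _, fun a x hx => (M.vx _ x (hX' x hx).1).trans ((hX' x hx).2 a),
    fun a h hh => ?_, fun a => ?_⟩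
  · have hh' := Finset.mem_of_mem_erase hh
    have hi' : (subst g l (C.inp h i)).1 ∈ C.G := Finset.mem_of_mem_erase hi
    change C.rk (subst g l (C.inp h i)).1 < C.rk h
    unfold subst at hi' ⊢
    split_ifs at hi' ⊢ with e
    · exact hrk hi' h hh' i e
    · exact M.rk h hh' i hi'
  · have hh' := Finset.mem_of_mem_erase hh
    change V (φ a) h = (lit (V (φ a)) (subst g l (C.inp h false)) &&
      lit (V (φ a)) (subst g l (C.inp h true)))
    rw [hv a _ (deg_pos_of_inp hh' _), hv a _ (deg_pos_of_inp hh' _)]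
    exact M.vg _ h hh'
  · change lit (V (φ a)) (subst g l C.out) = _
    rw [hv a _ deg_pos_of_out, hf]
    exact M.vout _

theorem Model.merge (M : Model s C V) {g : ℕ} {l : ℕ × Bool} (hg : g ∈ C.G) (hl : Node s C l.1)
    (hne : l.1 ≠ g) (hsem : C.deg g = 0 ∨ ∀ a, V a g = lit (V a) l)
    (hrk : l.1 ∈ C.G → ∀ h ∈ C.G, ∀ i, (C.inp h i).1 = g → C.rk l.1 < C.rk h) :
    Model s (C.merge g l) V :=
  merge_gen M (fun a => a) (fun _ h _ => h) (fun _ h => ⟨h, fun _ => rfl⟩) (fun _ => rfl)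
    (Or.imp_right (Or.imp_right fun h => Finset.mem_erase.2 ⟨hne, h⟩) hl) hsem hrk

theorem Model.fix (M : Model s C V) {x : ℕ} (hx : x ∈ s.X) (c : Bool) :
    Model (s.fix x c) (C.merge x (0, c)) (fun a => V (Function.update a x c)) := by
  refine merge_gen M (fun a => Function.update a x c) (fun y h e => Finset.mem_erase.2 ⟨e, h⟩)
    (fun y h => ⟨Finset.mem_of_mem_erase h, fun a =>
      Function.update_of_ne (Finset.ne_of_mem_erase h) _ _⟩) (fun _ => rfl) (Or.inl rfl)
    (Or.inr fun a => ?_) fun h => absurd h M.zg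
  rw [M.vx _ x hx, Function.update_self, lit, M.v0, Bool.false_xor]

theorem Model.proj (M : Model s C V) {x y : ℕ} (hx : x ∈ s.X) (hy : y ∈ s.X) (hxy : x ≠ y) :
    Model (s.proj x y) (C.merge x (y, s.sg x ^^ s.sg y))
      (fun a => V (Function.update a x (a y ^^ (s.sg x ^^ s.sg y)))) := by
  refine merge_gen M (fun a => Function.update a x (a y ^^ (s.sg x ^^ s.sg y)))
    (fun z h e => Finset.mem_erase.2 ⟨e, h⟩)
    (fun z h => ⟨Finset.mem_of_mem_erase h, fun a =>
      Function.update_of_ne (Finset.ne_of_mem_erase h) _ _⟩) (fun _ => rfl)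
    (Or.inr (Or.inl (Finset.mem_erase.2 ⟨hxy.symm, hy⟩)))
    (Or.inr fun a => ?_) fun h => absurd h (M.dis y hy)
  rw [M.vx _ x hx, Function.update_self, lit, M.vx _ y hy, Function.update_of_ne hxy.symm]

theorem deg_add {w h v : ℕ} {l₀ l₁ : ℕ × Bool} (hw : w ∉ C.G) :
    (C.add w h l₀ l₁).deg v =
      C.deg v + (if l₀.1 = v then 1 else 0) + (if l₁.1 = v then 1 else 0) := by
  have e : ∀ g ∈ C.G, ∀ i, (C.add w h l₀ l₁).inp g i = C.inp g i := fun g hg i =>
    if_neg fun e : g = w => hw (e ▸ hg)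
  have e0 : (C.add w h l₀ l₁).inp w false = l₀ := if_pos rfl
  have e1 : (C.add w h l₀ l₁).inp w true = l₁ := if_pos rfl
  rw [deg_eq, deg_eq]
  change ∑ g ∈ insert w C.G, _ + (if C.out.1 = v then 1 else 0) = _
  rw [Finset.sum_insert hw, e0, e1, Finset.sum_congr rfl fun g hg => by rw [e g hg, e g hg]]
  omega

theorem Model.add (M : Model s C V) {w h : ℕ} {l₀ l₁ : ℕ × Bool} (hw : ¬ Node s C w)
    (h₀ : Node s C l₀.1) (h₁ : Node s C l₁.1) (r₀ : l₀.1 ∈ C.G → C.rk l₀.1 < C.rk h)
    (r₁ : l₁.1 ∈ C.G → C.rk l₁.1 < C.rk h) : Model s (C.add w h l₀ l₁) (addV V w l₀ l₁) := by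
  have hne : ∀ v, Node s C v → v ≠ w := fun v hv e => hw (e ▸ hv)
  have hG : ∀ g ∈ C.G, g ≠ w := fun g hg => hne g (Or.inr (Or.inr hg))
  have e : ∀ g ∈ C.G, ∀ i, (C.add w h l₀ l₁).inp g i = C.inp g i := fun g hg i =>
    if_neg (hG g hg)
  have e0 : (C.add w h l₀ l₁).inp w false = l₀ := if_pos rfl
  have e1 : (C.add w h l₀ l₁).inp w true = l₁ := if_pos rfl
  have hV : ∀ a v, Node s C v → addV V w l₀ l₁ a v = V a v := fun a v hv => if_neg (hne v hv)
  have hL : ∀ a (k : ℕ × Bool), Node s C k.1 → lit (addV V w l₀ l₁ a) k = lit (V a) k := by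
    intro a k hk
    rw [lit, hV a _ hk, lit]
  have hN : ∀ v, Node s C v → v = 0 ∨ v ∈ s.X ∨ v ∈ insert w C.G := fun v hv =>
    Or.imp_right (Or.imp_right Finset.mem_insert_of_mem) hv
  have hr : ∀ v, v ≠ w → (C.add w h l₀ l₁).rk v = 2 * C.rk v + 1 := fun v hv => if_neg hv
  have hrw : (C.add w h l₀ l₁).rk w = 2 * C.rk h := if_pos rfl
  refine ⟨M.zx, fun h0 => ?_, fun x hx h0 => ?_, fun g hg i => ?_, fun g hg i hi => ?_,
    hN _ M.osrc, fun a => (hV a 0 (Or.inl rfl)).trans (M.v0 a),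
    fun a x hx => (hV a x (Or.inr (Or.inl hx))).trans (M.vx a x hx), fun a g hg => ?_,
    fun a => (hL a _ M.osrc).trans (M.vout a)⟩
  · rcases Finset.mem_insert.1 h0 with h0 | h0
    exacts [hne 0 (Or.inl rfl) h0, M.zg h0]
  · rcases Finset.mem_insert.1 h0 with h0 | h0
    exacts [hne x (Or.inr (Or.inl hx)) h0, M.dis x hx h0]
  · rcases Finset.mem_insert.1 hg with rfl | hg
    · cases i
      · rw [e0]; exact hN _ h₀
      · rw [e1]; exact hN _ h₁
    · rw [e g hg]; exact hN _ (M.src g hg i)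
  · rcases Finset.mem_insert.1 hg with rfl | hg
    · cases i
      · rw [e0] at hi ⊢
        have := r₀ ((Finset.mem_insert.1 hi).resolve_left (hne _ h₀))
        rw [hr _ (hne _ h₀), hrw]
        omega
      · rw [e1] at hi ⊢
        have := r₁ ((Finset.mem_insert.1 hi).resolve_left (hne _ h₁))
        rw [hr _ (hne _ h₁), hrw]
        omega
    · rw [e g hg] at hi ⊢
      have n := hne _ (M.src g hg i)
      have := M.rk g hg i ((Finset.mem_insert.1 hi).resolve_left n)
      rw [hr _ n, hr _ (hG g hg)]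
      omega
  · rcases Finset.mem_insert.1 hg with rfl | hg
    · rw [e0, e1, hL a _ h₀, hL a _ h₁]
      exact if_pos rfl
    · rw [e g hg, e g hg, hL a _ (M.src g hg _), hL a _ (M.src g hg _),
        hV a g (Or.inr (Or.inr hg))]
      exact M.vg a g hg

theorem rew_inp_self (C : Ckt) (g : ℕ) (i : Bool) (l : ℕ × Bool) : (C.rew g i l).inp g i = l :=
  if_pos ⟨rfl, rfl⟩

theorem rew_inp_of_ne (C : Ckt) {g h : ℕ} {i j : Bool} (l : ℕ × Bool) (hn : ¬ (h = g ∧ j = i)) :
    (C.rew g i l).inp h j = C.inp h j := if_neg hn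

theorem deg_rew {g v : ℕ} {i : Bool} {l : ℕ × Bool} (hg : g ∈ C.G) :
    (C.rew g i l).deg v + (if (C.inp g i).1 = v then 1 else 0) =
      C.deg v + if l.1 = v then 1 else 0 := by
  rw [deg_eq, deg_eq]
  change ∑ h ∈ C.G, _ + (if C.out.1 = v then 1 else 0) + _ = _
  rw [← Finset.add_sum_erase _ _ hg, ← Finset.add_sum_erase _ _ hg,
    Finset.sum_congr rfl fun h hh => by
      rw [rew_inp_of_ne C l fun e => Finset.ne_of_mem_erase hh e.1,
        rew_inp_of_ne C l fun e => Finset.ne_of_mem_erase hh e.1]]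
  cases i
  · rw [rew_inp_self, rew_inp_of_ne C l (by simp)]
    omega
  · rw [rew_inp_self, rew_inp_of_ne C l (by simp)]
    omega

theorem Model.rew (M : Model s C V) {g : ℕ} {i : Bool} {l : ℕ × Bool} (hg : g ∈ C.G)
    (hl : Node s C l.1) (hrk : l.1 ∈ C.G → C.rk l.1 < C.rk g)
    (hsem : ∀ a, V a g = (lit (V a) l && lit (V a) (C.inp g (!i)))) :
    Model s (C.rew g i l) V := by
  refine ⟨M.zx, M.zg, M.dis, fun h hh j => ?_, fun h hh j hj => ?_, M.osrc, M.v0, M.vx,
    fun a h hh => ?_, M.vout⟩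
  · by_cases e : h = g ∧ j = i
    · obtain ⟨rfl, rfl⟩ := e
      rw [rew_inp_self]
      exact hl
    · rw [rew_inp_of_ne C l e]
      exact M.src h hh j
  · by_cases e : h = g ∧ j = i
    · obtain ⟨rfl, rfl⟩ := e
      rw [rew_inp_self] at hj ⊢
      exact hrk hj
    · rw [rew_inp_of_ne C l e] at hj ⊢
      exact M.rk h hh j hj
  · by_cases e : h = g
    · subst e
      rw [hsem a]
      cases i
      · rw [rew_inp_self, rew_inp_of_ne C l (by simp)]
        rfl
      · rw [rew_inp_self, rew_inp_of_ne C l (by simp), Bool.and_comm]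
        rfl
    · rw [rew_inp_of_ne C l fun e' => e e'.1, rew_inp_of_ne C l fun e' => e e'.1]
      exact M.vg a h hh

theorem rsum_rew {g : ℕ} {i : Bool} {l : ℕ × Bool} (hg : g ∈ C.G) (hi : (C.inp g i).1 ∈ C.G)
    (hrk : l.1 ∈ C.G → C.rk l.1 < C.rk (C.inp g i).1) : (C.rew g i l).rsum < C.rsum := by
  have key : ∀ h j, (if ((C.rew g i l).inp h j).1 ∈ C.G then C.rk ((C.rew g i l).inp h j).1 + 1
      else 0) + (if h = g ∧ j = i then 1 else 0) ≤
      if (C.inp h j).1 ∈ C.G then C.rk (C.inp h j).1 + 1 else 0 := by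
    intro h j
    by_cases e : h = g ∧ j = i
    · rw [if_pos e]
      obtain ⟨rfl, rfl⟩ := e
      rw [rew_inp_self, if_pos hi]
      split_ifs with hl
      · have := hrk hl
        omega
      · omega
    · rw [if_neg e, rew_inp_of_ne C l e, add_zero]
  refine Finset.sum_lt_sum (fun h _ => Finset.sum_le_sum fun j _ =>
    (Nat.le_add_right _ _).trans (key h j)) ⟨g, hg, Finset.sum_lt_sum
      (fun j _ => (Nat.le_add_right _ _).trans (key g j)) ⟨i, Finset.mem_univ _, ?_⟩⟩
  have := key g i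
  rw [if_pos (⟨rfl, rfl⟩ : g = g ∧ i = i)] at this
  exact this

theorem Model.setrk (M : Model s C V) {g r : ℕ} (hr : r ≤ C.rk g)
    (hin : ∀ i, (C.inp g i).1 ∈ C.G → C.rk (C.inp g i).1 < r) : Model s (C.setrk g r) V := by
  refine ⟨M.zx, M.zg, M.dis, M.src, fun h hh i hi => ?_, M.osrc, M.v0, M.vx, M.vg, M.vout⟩
  have h1 := M.rk h hh i hi
  change (if (C.inp h i).1 = g then r else C.rk (C.inp h i).1) < if h = g then r else C.rk h
  split_ifs with e1 e2 e2
  · rw [e1, e2] at h1
    omega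
  · rw [e1] at h1
    omega
  · subst e2
    exact hin i hi
  · exact h1

theorem exists_fresh (s : FS) (C : Ckt) (T : Finset ℕ) : ∃ w, ¬ Node s C w ∧ w ∉ T := by
  obtain ⟨w, hw⟩ := Infinite.exists_notMem_finset (insert 0 (s.X ∪ C.G ∪ T))
  simp only [Finset.mem_insert, Finset.mem_union, not_or] at hw
  exact ⟨w, fun h => h.elim hw.1 fun h => h.elim hw.2.1.1 hw.2.1.2, hw.2.2⟩

theorem Early.mono {d e v : ℕ} (h : Early C d v) (hde : d ≤ e) : Early C e v := by
  induction h generalizing e with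
  | base hv => exact Early.base hv
  | step hg _ ih =>
    obtain ⟨e, rfl⟩ : ∃ e', e = e' + 1 := ⟨e - 1, by omega⟩
    exact Early.step hg fun i => ih i (by omega)

theorem Early.inp {d g : ℕ} (h : Early C d g) (hg : g ∈ C.G) :
    1 ≤ d ∧ ∀ i, Early C (d - 1) (C.inp g i).1 := by
  cases h with
  | base hv => exact absurd hg hv
  | step _ h => exact ⟨by omega, h⟩

theorem Dep.mono {d e v : ℕ} (h : Dep V d v) (hde : d ≤ e) : Dep V e v := by
  obtain ⟨S, hS, h⟩ := h
  exact ⟨S, hS.trans (Nat.pow_le_pow_right (by norm_num) hde), h⟩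

theorem Dep.zero (M : Model s C V) : Dep V 0 0 :=
  ⟨∅, by simp, fun a b _ => by rw [M.v0, M.v0]⟩

theorem Dep.var (M : Model s C V) {x : ℕ} (hx : x ∈ s.X) : Dep V 0 x :=
  ⟨{x}, by simp, fun a b h => by rw [M.vx a x hx, M.vx b x hx, h x (Finset.mem_singleton_self x)]⟩

theorem Dep.gate (M : Model s C V) {d g : ℕ} (hg : g ∈ C.G) (h : ∀ i, Dep V d (C.inp g i).1) :
    Dep V (d + 1) g := by
  obtain ⟨S, hS, h0⟩ := h false
  obtain ⟨T, hT, h1⟩ := h true
  refine ⟨S ∪ T, (Finset.card_union_le _ _).trans (by rw [pow_succ]; omega), fun a b hab => ?_⟩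
  rw [M.vg a g hg, M.vg b g hg, lit, lit, lit, lit,
    h0 a b fun i hi => hab i (Finset.mem_union_left _ hi),
    h1 a b fun i hi => hab i (Finset.mem_union_right _ hi)]

theorem Early.dep (M : Model s C V) {d v : ℕ} (h : Early C d v) (hv : Node s C v) : Dep V d v := by
  induction h with
  | base hn =>
    rcases hv with rfl | hv | hv
    · exact (Dep.zero M).mono (Nat.zero_le _)
    · exact (Dep.var M hv).mono (Nat.zero_le _)
    · exact absurd hv hn
  | step hg _ ih => exact Dep.gate M hg fun i => ih i (M.src _ hg i)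

theorem Dep.congr {d v w : ℕ} {c : Bool} (h : Dep V d v) (e : ∀ a, V a w = (V a v ^^ c)) :
    Dep V d w := by
  obtain ⟨S, hS, h⟩ := h
  exact ⟨S, hS, fun a b hab => by rw [e, e, h a b hab]⟩

theorem Dep.fix {d v x : ℕ} {c : Bool} (h : Dep V d v) :
    Dep (fun a => V (Function.update a x c)) d v := by
  obtain ⟨S, hS, h⟩ := h
  refine ⟨S, hS, fun a b hab => h _ _ fun i hi => ?_⟩
  by_cases e : i = x
  · rw [e, Function.update_self, Function.update_self]
  · rw [Function.update_of_ne e, Function.update_of_ne e, hab i hi]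

theorem Dep.proj {d v x y : ℕ} {c : Bool} (h : Dep V d v) :
    Dep (fun a => V (Function.update a x (a y ^^ c))) d v := by
  obtain ⟨S, hS, h⟩ := h
  refine ⟨S.image fun i => if i = x then y else i, Finset.card_image_le.trans hS,
    fun a b hab => h _ _ fun i hi => ?_⟩
  have := hab _ (Finset.mem_image_of_mem _ hi)
  by_cases e : i = x
  · rw [if_pos e] at this
    rw [e, Function.update_self, Function.update_self, this]
  · rw [if_neg e] at this
    rw [Function.update_of_ne e, Function.update_of_ne e, this]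

end Pool.Agent.Lib.MP_79d702_lc.U2
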