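import Pool.Agent.Lib.MP_79d702_lc.U2.State
import Pool.Agent.Lib.MP_79d702_lc.Neg.Defs
import Pool.Agent.Shared.PolyTime
import Pool.Agent.Shared.PolyTimeConv

/-!
Conversion of AND / OR / NOT circuits with a fixed seed into AND-inverter circuits, and the
asymptotic assembly of the lower bound.
-/

namespace Pool.Agent.Lib.MP_79d702_lc.U2

open Pool.Agent.Lib.MP_79d702_lc

/-- the node of the literal is the constant, a variable or a gate -/
def FGood (m : ℕ) (G : Finset ℕ) (l : ℕ × Bool) : Prop :=
  l.1 = 0 ∨ l.1 ∈ Finset.Icc 1 m ∨ l.1 ∈ G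

/-- an AND-inverter circuit under construction whose gates lie strictly between `m` and `k` -/
structure FInv (m k : ℕ) (G : Finset ℕ) (inp : ℕ → Bool → ℕ × Bool)
    (V : (ℕ → Bool) → ℕ → Bool) : Prop where
  lo : ∀ g ∈ G, m < g
  hi : ∀ g ∈ G, g < k
  src : ∀ g ∈ G, ∀ i, FGood m G (inp g i)
  rk : ∀ g ∈ G, ∀ i, (inp g i).1 < g
  v0 : ∀ a, V a 0 = false
  vx : ∀ a, ∀ x ∈ Finset.Icc 1 m, V a x = a x
  vg : ∀ a, ∀ g ∈ G, V a g = (lit (V a) (inp g false) && lit (V a) (inp g true))

theorem FGood.mono {m : ℕ} {G G' : Finset ℕ} {l : ℕ × Bool} (h : FGood m G l) (hG : G ⊆ G') :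
    FGood m G' l := by
  rcases h with h | h | h
  · exact Or.inl h
  · exact Or.inr (Or.inl h)
  · exact Or.inr (Or.inr (hG h))

theorem FInv.succ {m k : ℕ} {G : Finset ℕ} {inp : ℕ → Bool → ℕ × Bool}
    {V : (ℕ → Bool) → ℕ → Bool} (h : FInv m k G inp V) : FInv m (k + 1) G inp V :=
  ⟨h.lo, fun g hg => Nat.lt_succ_of_lt (h.hi g hg), h.src, h.rk, h.v0, h.vx, h.vg⟩

theorem FInv.good_lt {m k : ℕ} {G : Finset ℕ} {inp : ℕ → Bool → ℕ × Bool}
    {V : (ℕ → Bool) → ℕ → Bool} (h : FInv m k G inp V) (hk : m < k) {l : ℕ × Bool}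
    (hl : FGood m G l) : l.1 < k := by
  rcases hl with hl | hl | hl
  · omega
  · have := (Finset.mem_Icc.1 hl).2
    omega
  · exact h.hi _ hl

theorem FInv.add {m k : ℕ} {G : Finset ℕ} {inp : ℕ → Bool → ℕ × Bool}
    {V : (ℕ → Bool) → ℕ → Bool} (h : FInv m k G inp V) (hk : m < k) {l0 l1 : ℕ × Bool}
    (h0 : FGood m G l0) (h1 : FGood m G l1) :
    ∃ (inp' : ℕ → Bool → ℕ × Bool) (V' : (ℕ → Bool) → ℕ → Bool),
      FInv m (k + 1) (insert k G) inp' V' ∧
      (∀ a l, FGood m G l → lit (V' a) l = lit (V a) l) ∧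
      ∀ a, V' a k = (lit (V a) l0 && lit (V a) l1) := by
  classical
  let inp' : ℕ → Bool → ℕ × Bool := Function.update inp k fun i => if i then l1 else l0
  let V' : (ℕ → Bool) → ℕ → Bool := fun a =>
    Function.update (V a) k (lit (V a) l0 && lit (V a) l1)
  have hV : ∀ a j, j < k → V' a j = V a j := fun a j hj =>
    Function.update_of_ne (Nat.ne_of_lt hj) _ _
  have hl : ∀ a l, FGood m G l → lit (V' a) l = lit (V a) l := by
    intro a l hl
    unfold lit
    rw [hV a _ (h.good_lt hk hl)]
  have hk' : ∀ a, V' a k = (lit (V a) l0 && lit (V a) l1) := fun a => Function.update_self _ _ _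
  have hi : ∀ g ∈ G, inp' g = inp g := fun g hg =>
    Function.update_of_ne (Nat.ne_of_lt (h.hi g hg)) _ _
  have hik0 : inp' k false = l0 := by simp [inp']
  have hik1 : inp' k true = l1 := by simp [inp']
  have hik : ∀ i, FGood m G (inp' k i) := by
    intro i
    cases i
    · rw [hik0]; exact h0
    · rw [hik1]; exact h1
  refine ⟨inp', V', ⟨?_, ?_, ?_, ?_, ?_, ?_, ?_⟩, hl, hk'⟩
  · intro g hg
    rcases Finset.mem_insert.1 hg with rfl | hg
    · exact hk
    · exact h.lo g hg
  · intro g hg
    rcases Finset.mem_insert.1 hg with rfl | hg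
    · omega
    · exact Nat.lt_succ_of_lt (h.hi g hg)
  · intro g hg i
    rcases Finset.mem_insert.1 hg with rfl | hg
    · exact (hik i).mono (Finset.subset_insert _ _)
    · rw [hi g hg]
      exact (h.src g hg i).mono (Finset.subset_insert _ _)
  · intro g hg i
    rcases Finset.mem_insert.1 hg with rfl | hg
    · exact h.good_lt hk (hik i)
    · rw [hi g hg]
      exact h.rk g hg i
  · intro a
    rw [hV a 0 (by omega), h.v0]
  · intro a x hx
    have := (Finset.mem_Icc.1 hx).2
    rw [hV a x (by omega), h.vx a x hx]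
  · intro a g hg
    rcases Finset.mem_insert.1 hg with rfl | hg
    · rw [hk', hik0, hik1, hl a _ h0, hl a _ h1]
    · rw [hV a g (h.hi g hg), hi g hg, hl a _ (h.src g hg _), hl a _ (h.src g hg _), h.vg a g hg]

theorem values_snoc' {n : ℕ} (x : Fin n → Bool) (gs : List (Neg.Gate n)) (g : Neg.Gate n) :
    Neg.values x (gs ++ [g]) = Neg.values x gs ++ [g.value x (Neg.values x gs)] := by
  simp [Neg.values, List.foldl_append]

theorem length_values' {n : ℕ} (x : Fin n → Bool) (gs : List (Neg.Gate n)) :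
    (Neg.values x gs).length = gs.length := by
  induction gs using List.reverseRecOn with
  | nil => rfl
  | append_singleton gs g ih => rw [values_snoc']; simp [ih]

theorem getD_snoc' (v : List Bool) (b : Bool) (j : ℕ) :
    (v ++ [b]).getD j false = if j = v.length then b else v.getD j false := by
  by_cases h : j < v.length
  · rw [if_neg (by omega), List.getD_append _ _ _ _ h]
  · rw [List.getD_append_right _ _ _ _ (by omega)]
    by_cases h2 : j = v.length
    · simp [h2]
    · rw [if_neg h2, List.getD_eq_default _ _ (by simp; omega),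
        List.getD_eq_default _ _ (by omega)]

/-- the input of the circuit given by the seed `p` and the assignment `a` -/
def seeded (n : ℕ) (p : List Bool) (a : ℕ → Bool) : Fin n → Bool := fun i =>
  if i.val < p.length then p.getD i.val false else a (i.val - p.length + 1)

theorem ofFn_seeded {n m : ℕ} (p : List Bool) (hp : p.length + m = n) (a : ℕ → Bool) :
    List.ofFn (seeded n p a) = p ++ List.ofFn fun i : Fin m => a (i.val + 1) := by
  apply List.ext_getElem
  · simp [hp]
  · intro i h1 h2
    rw [List.getElem_ofFn]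
    by_cases h : i < p.length
    · rw [List.getElem_append_left h]
      simp [seeded, h]
    · rw [List.getElem_append_right (by omega), List.getElem_ofFn]
      simp [seeded, h]

theorem lit_neg (v : ℕ → Bool) (l : ℕ × Bool) : lit v (l.1, !l.2) = !lit v l := by
  unfold lit
  cases v l.1 <;> cases l.2 <;> rfl

theorem exists_inv {n m : ℕ} (p : List Bool) (hp : p.length + m = n) (gs : List (Neg.Gate n)) :
    ∃ (G : Finset ℕ) (inp : ℕ → Bool → ℕ × Bool) (V : (ℕ → Bool) → ℕ → Bool)
      (l : ℕ → ℕ × Bool), FInv m (m + 1 + gs.length) G inp V ∧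
      G.card ≤ gs.countP Neg.Gate.isAndOr ∧ (∀ j, FGood m G (l j)) ∧
      ∀ a j, lit (V a) (l j) = (Neg.values (seeded n p a) gs).getD j false := by
  classical
  induction gs using List.reverseRecOn with
  | nil =>
    refine ⟨∅, fun _ _ => (0, false), fun a j => if j = 0 then false else a j,
      fun _ => (0, false), ⟨by simp, by simp, by simp, by simp, by simp, ?_, by simp⟩, by simp,
      fun _ => Or.inl rfl, fun a j => by simp [lit, Neg.values]⟩
    intro a x hx
    have := (Finset.mem_Icc.1 hx).1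
    rw [if_neg (by omega)]
  | append_singleton gs g ih =>
    obtain ⟨G, inp, V, l, hI, hc, hl, hv⟩ := ih
    have hlen : m + 1 + (gs ++ [g]).length = m + 1 + gs.length + 1 := by simp; omega
    have fin : ∀ (G' : Finset ℕ) (inp' : ℕ → Bool → ℕ × Bool) (V' : (ℕ → Bool) → ℕ → Bool)
        (l' : ℕ × Bool), FInv m (m + 1 + gs.length + 1) G' inp' V' → G ⊆ G' →
        G'.card ≤ (gs ++ [g]).countP Neg.Gate.isAndOr → FGood m G' l' →
        (∀ a j, lit (V' a) (l j) = lit (V a) (l j)) →
        (∀ a, lit (V' a) l' = g.value (seeded n p a) (Neg.values (seeded n p a) gs)) →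
        ∃ (G : Finset ℕ) (inp : ℕ → Bool → ℕ × Bool) (V : (ℕ → Bool) → ℕ → Bool)
          (l : ℕ → ℕ × Bool), FInv m (m + 1 + (gs ++ [g]).length) G inp V ∧
          G.card ≤ (gs ++ [g]).countP Neg.Gate.isAndOr ∧ (∀ j, FGood m G (l j)) ∧
          ∀ a j, lit (V a) (l j) = (Neg.values (seeded n p a) (gs ++ [g])).getD j false := by
      intro G' inp' V' l' hI' hG hc' hg hold hnew
      refine ⟨G', inp', V', Function.update l gs.length l', hlen ▸ hI', hc', ?_, ?_⟩
      · intro j
        by_cases hj : j = gs.length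
        · rw [hj, Function.update_self]; exact hg
        · rw [Function.update_of_ne hj]; exact (hl j).mono hG
      · intro a j
        rw [values_snoc', getD_snoc', length_values']
        by_cases hj : j = gs.length
        · rw [if_pos hj, hj, Function.update_self, hnew]
        · rw [if_neg hj, Function.update_of_ne hj, hold, hv]
    have hc0 : G.card ≤ (gs ++ [g]).countP Neg.Gate.isAndOr := by
      rw [List.countP_append]; omega
    have hk : m < m + 1 + gs.length := by omega
    cases g with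
    | const b =>
      refine fin G inp V (0, b) hI.succ subset_rfl hc0 (Or.inl rfl) (fun _ _ => rfl) fun a => ?_
      simp [lit, hI.v0, Neg.Gate.value]
    | input i =>
      by_cases h : i.val < p.length
      · refine fin G inp V (0, p.getD i.val false) hI.succ subset_rfl hc0 (Or.inl rfl)
          (fun _ _ => rfl) fun a => ?_
        simp [lit, hI.v0, Neg.Gate.value, seeded, h]
      · have hi : i.val - p.length + 1 ∈ Finset.Icc 1 m := by
          have := i.isLt
          rw [Finset.mem_Icc]; omega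
        refine fin G inp V (i.val - p.length + 1, false) hI.succ subset_rfl hc0
          (Or.inr (Or.inl hi)) (fun _ _ => rfl) fun a => ?_
        simp [lit, hI.vx a _ hi, Neg.Gate.value, seeded, h]
    | not j =>
      refine fin G inp V ((l j).1, !(l j).2) hI.succ subset_rfl hc0 (hl j)
        (fun _ _ => rfl) fun a => ?_
      rw [lit_neg, hv]; rfl
    | and j j' =>
      obtain ⟨inp', V', hI', hold, hnew⟩ := hI.add hk (hl j) (hl j')
      refine fin _ inp' V' (m + 1 + gs.length, false) hI' (Finset.subset_insert _ _) ?_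
        (Or.inr (Or.inr (Finset.mem_insert_self _ _))) (fun a j => hold a _ (hl j)) fun a => ?_
      · refine (Finset.card_insert_le _ _).trans ?_
        rw [List.countP_append]
        simp [Neg.Gate.isAndOr]
        omega
      · have : lit (V' a) (m + 1 + gs.length, false) = V' a (m + 1 + gs.length) := by simp [lit]
        rw [this, hnew, hv, hv]; rfl
    | or j j' =>
      obtain ⟨inp', V', hI', hold, hnew⟩ := hI.add hk (l0 := ((l j).1, !(l j).2))
        (l1 := ((l j').1, !(l j').2)) (hl j) (hl j')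
      refine fin _ inp' V' (m + 1 + gs.length, true) hI' (Finset.subset_insert _ _) ?_
        (Or.inr (Or.inr (Finset.mem_insert_self _ _))) (fun a j => hold a _ (hl j)) fun a => ?_
      · refine (Finset.card_insert_le _ _).trans ?_
        rw [List.countP_append]
        simp [Neg.Gate.isAndOr]
        omega
      · have : lit (V' a) (m + 1 + gs.length, true) = !V' a (m + 1 + gs.length) := by simp [lit]
        rw [this, hnew, lit_neg, lit_neg, hv, hv]
        simp [Neg.Gate.value]

theorem to_model {n m : ℕ} {L : List Bool → Bool} (C : Neg.Circuit n) (h : C.Decides L)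
    (p : List Bool) (hp : p.length + m = n) :
    ∃ (D : Ckt) (V : (ℕ → Bool) → ℕ → Bool),
      Model (start m fun x => L (p ++ x)) D V ∧ D.G.card ≤ C.size := by
  obtain ⟨G, inp, V, l, hI, hc, hl, hv⟩ := exists_inv p hp C.gates
  refine ⟨⟨G, inp, id, l C.out⟩, V, ⟨by simp [start], ?_, ?_, hI.src, ?_, hl _, hI.v0, hI.vx,
    hI.vg, ?_⟩, hc⟩
  · intro h0
    have := hI.lo 0 h0
    omega
  · intro x hx hG
    have h1 := hI.lo x hG
    have h2 : x ≤ m := (Finset.mem_Icc.1 hx).2
    omega
  · intro g hg i _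
    exact hI.rk g hg i
  · intro a
    have h1 := h (seeded n p a)
    rw [ofFn_seeded p hp] at h1
    exact (hv a C.out).trans h1

theorem P_subset_NP : N68a2faeb.P ⊆ N68a2faeb.NP := by
  intro L hL
  have h : Pool.Agent.Shared.PolyTime.PT L := Pool.Agent.Shared.PolyTime.PT.ofIsPolyTime hL
  exact ⟨0, fun p => L p.1, Pool.Agent.Shared.PolyTime.PT.isPolyTime
    (h.comp' (Pool.Agent.Shared.PolyTime.PT.fst Pool.Agent.Shared.PolyTime.PT.id')),
    fun x => ⟨fun h => ⟨[], by simp, h⟩, fun ⟨_, _, h⟩ => h⟩⟩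

theorem final (hB : Bound)
    (hH : ∃ L ∈ N68a2faeb.P, ∀ W k : ℕ, ∃ n₀, ∀ n ≥ n₀, ∃ (p : List Bool) (m N : ℕ),
      p.length + m = n ∧ k * (p.length + N) ≤ n ∧ Hard (start m fun x => L (p ++ x)) W N) :
    ∃ L ∈ N68a2faeb.P, L ∈ N68a2faeb.NP ∧ ∀ c : ℝ, c < 5.01 →
      ∀ᶠ n : ℕ in Filter.atTop, ∀ C : Neg.Circuit n, C.Decides L → c * n ≤ C.size := by
  obtain ⟨L, hL, hH⟩ := hH
  refine ⟨L, hL, P_subset_NP hL, fun c hc => ?_⟩
  set e : ℝ := 5.01 - c with he
  have he0 : 0 < e := by linarith
  obtain ⟨k, hk⟩ := exists_nat_gt (1302 / (50 * e))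
  have hk0 : (0 : ℝ) < k := lt_of_le_of_lt (by positivity) hk
  have hk1 : (1302 : ℝ) < k * (50 * e) := by rwa [div_lt_iff₀ (by positivity)] at hk
  obtain ⟨n₁, hn₁⟩ := exists_nat_gt (360600 / (50 * e))
  obtain ⟨n₀, hn₀⟩ := hH k k
  filter_upwards [Filter.eventually_ge_atTop n₀, Filter.eventually_ge_atTop n₁] with n h0 h1 C hC
  obtain ⟨p, m, N, hp, hkn, hard⟩ := hn₀ n h0
  obtain ⟨D, V, hM, hs⟩ := to_model C hC p hp
  have hb := hB _ k N D V (by exact_mod_cast hk0) hard hM
  have hX : (start m fun x => L (p ++ x)).X.card = m := by simp [start]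
  have hw : ∑ x ∈ (start m fun x => L (p ++ x)).X, (start m fun x => L (p ++ x)).wt x = m := by
    simp [start]
  rw [hX, hw] at hb
  have hb' : (k : ℝ) * (501 * m) ≤ k * (100 * D.G.card) + 701 * m + k * (601 * (N + 600)) := by
    exact_mod_cast hb
  have hkn' : (k : ℝ) * (p.length + N) ≤ n := by exact_mod_cast hkn
  have hp' : (p.length : ℝ) + m = n := by exact_mod_cast hp
  have hs' : (D.G.card : ℝ) ≤ C.size := by exact_mod_cast hs
  have h1' : (n₁ : ℝ) ≤ n := by exact_mod_cast h1
  have hn2 : (360600 : ℝ) < n * (50 * e) := by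
    have := hn₁.trans_le h1'
    rwa [div_lt_iff₀ (by positivity)] at this
  have hP0 : (0 : ℝ) ≤ p.length := Nat.cast_nonneg _
  have hN0 : (0 : ℝ) ≤ N := Nat.cast_nonneg _
  have hn0 : (0 : ℝ) ≤ n := Nat.cast_nonneg _
  have a1 : (k : ℝ) * (100 * D.G.card) ≤ k * (100 * C.size) := by gcongr
  have a2 : (1302 : ℝ) * n ≤ k * (50 * e) * n := by gcongr
  have a3 : (k : ℝ) * 360600 ≤ k * (n * (50 * e)) := by gcongr
  have a4 : (0 : ℝ) ≤ k * p.length := by positivity
  have hm : (m : ℝ) = n - p.length := by linarith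
  have key : (k : ℝ) * (100 * (c * n)) ≤ k * (100 * C.size) := by
    have hc' : c = 5.01 - e := by linarith
    rw [hm] at hb'
    rw [hc']
    nlinarith
  have := le_of_mul_le_mul_left key hk0
  linarith

end Pool.Agent.Lib.MP_79d702_lc.U2
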