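import Pool.Agent.Lib.MP_79d702_lc.U2.Hard2
import Pool.Agent.Shared.PolyTime

/-!
An explicit polynomial-time language with short seeds whose slices are hard for gate elimination.
-/

namespace Pool.Agent.Lib.MP_79d702_lc.U2

open Finset Pool.Agent.Shared.PolyTime

/-- the sum of the weights of the positions holding a one -/
def hdSum (w : ℕ → ℕ) (x : List Bool) : ℕ :=
  ((List.range x.length).map fun i => if x.getD i false then w i else 0).sum

/-- parity of the table entries addressed by `u` -/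
def hdHash (L : ℕ) (T : List Bool) (u : ℕ) : Bool :=
  ((List.range (L ^ 17)).map fun q =>
    if T.getD (q * L ^ 17 + u % (q + 1)) false then 1 else 0).sum % 2 == 1

def hdF (L : ℕ) (T x : List Bool) : Bool :=
  if hdSum (fun _ => 1) x % 3 = 0 then false
  else if hdSum (fun _ => 1) x % 3 = 1 then true else hdHash L T (hdSum (hdW L) x)

/-- the language: a unary parameter, a table, and the argument -/
def hdLang (z : List Bool) : Bool :=
  hdF (z.takeWhile id).length
    ((z.drop ((z.takeWhile id).length + 1)).take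
      ((z.takeWhile id).length ^ 17 * (z.takeWhile id).length ^ 17))
    ((z.drop ((z.takeWhile id).length + 1)).drop
      ((z.takeWhile id).length ^ 17 * (z.takeWhile id).length ^ 17))

theorem hdLang_mem : hdLang ∈ N68a2faeb.P := by
  refine PT.isPolyTime ?_
  unfold hdLang hdF hdHash hdSum hdW
  fun_prop

theorem hdLang_seed (L : ℕ) (T x : List Bool) (hT : T.length = L ^ 17 * L ^ 17) :
    hdLang ((List.replicate L true ++ false :: T) ++ x) = hdF L T x := by
  have h1 : (((List.replicate L true ++ false :: T) ++ x).takeWhile id).length = L := by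
    induction L with
    | zero => simp
    | succ n _ => simp
  have h2 : ((List.replicate L true ++ false :: T) ++ x).drop (L + 1) = T ++ x := by
    rw [List.append_assoc, List.drop_append]
    simp
  unfold hdLang
  rw [h1, h2, ← hT, List.take_left, List.drop_left]

theorem hdSum_ofFn {m : ℕ} (w : ℕ → ℕ) (x : Fin m → Bool) :
    hdSum w (List.ofFn x) = ∑ i, if x i then w i else 0 := by
  unfold hdSum
  rw [List.length_ofFn, ← List.sum_toFinset _ List.nodup_range, List.toFinset_range,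
    Finset.sum_range]
  refine Finset.sum_congr rfl fun i _ => ?_
  simp [List.getD_eq_getElem?_getD]

theorem hdHash_eq (L : ℕ) (T : Fin (L ^ 17 * L ^ 17) → ZMod 2) (u : ℕ) :
    hdHash L (List.ofFn fun i => decide (T i = 1)) u = decide (hdH (L ^ 17) T u = 1) := by
  have h : ((((List.range (L ^ 17)).map fun q => if (List.ofFn fun i => decide (T i = 1)).getD
      (q * L ^ 17 + u % (q + 1)) false then 1 else 0).sum : ℕ) : ZMod 2) = hdH (L ^ 17) T u := by
    rw [← List.sum_toFinset _ List.nodup_range, List.toFinset_range, Nat.cast_sum]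
    refine Finset.sum_congr rfl fun q _ => ?_
    unfold hdE
    rw [List.getD_eq_getElem?_getD, List.getElem?_ofFn]
    split_ifs with h1 h2 h3
    · simp only [Option.getD_some, decide_eq_true_eq] at h2
      rw [h2]; rfl
    · simp only [Option.getD_some, decide_eq_true_eq] at h2
      revert h2
      generalize T _ = t
      revert t
      decide
    · simp at h3
    · rfl
  unfold hdHash
  rw [← h]
  generalize ((List.range (L ^ 17)).map fun q => if (List.ofFn fun i => decide (T i = 1)).getD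
      (q * L ^ 17 + u % (q + 1)) false then 1 else 0).sum = n
  rw [Bool.eq_iff_iff, beq_iff_eq, decide_eq_true_eq]
  exact (ZMod.natCast_eq_one_iff_odd.trans Nat.odd_iff).symm

theorem hdF_eq (L : ℕ) (T x : List Bool) :
    hdF L T x = hdOut (hdSum (fun _ => 1) x : ℕ) (hdHash L T (hdSum (hdW L) x)) := by
  unfold hdF hdOut
  generalize hdSum (fun _ => 1) x = n
  rw [← ZMod.natCast_mod n 3]
  have : n % 3 = 0 ∨ n % 3 = 1 ∨ n % 3 = 2 := by omega
  rcases this with h | h | h <;> rw [h] <;> rfl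

theorem hd_hard {L m W : ℕ} (hL : 400 ≤ L) (hm : m ≤ 2 ^ (L - 3)) (hW : 6 * W ≤ L) :
    ∃ T : List Bool, T.length = L ^ 17 * L ^ 17 ∧
      Hard (start m (hdF L T)) W (16 * L ^ 3 + 68) := by
  have hL0 : 0 < L := by omega
  obtain ⟨T, hT⟩ := hd_table (8 * L ^ 3) (2 * L ^ 3) (L ^ 17) (by
    have : 0 < L ^ 3 := by positivity
    nlinarith) (by
    have h1 : 160000 ≤ L ^ 2 := by nlinarith
    have h2 : 1 ≤ L ^ 3 := Nat.one_le_pow _ _ hL0
    have h3 : 400 ≤ L ^ 3 := hL.trans (Nat.le_self_pow (by norm_num) L)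
    have h4 : 1 ≤ L ^ 12 := Nat.one_le_pow _ _ hL0
    have e1 : L ^ 17 = L ^ 12 * L ^ 3 * L ^ 2 := by ring
    have e2 : (8 * L ^ 3) ^ 4 = 4096 * L ^ 12 := by ring
    rw [e1, e2]
    have h5 : L ^ 12 * L ^ 3 * 160000 ≤ L ^ 12 * L ^ 3 * L ^ 2 := Nat.mul_le_mul_left _ h1
    have h6 : L ^ 12 * 400 ≤ L ^ 12 * L ^ 3 := Nat.mul_le_mul_left _ h3
    nlinarith)
  refine ⟨List.ofFn fun i => decide (T i = 1), List.length_ofFn, fun s hs => ?_⟩
  obtain ⟨ρ, hρ⟩ := hd_inv hs
  have hf : ∀ a, s.f a = hdOut (∑ i, if hdEv s.X ρ a i then (1 : ZMod 3) else 0)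
      (decide (hdH (L ^ 17) T (∑ i : Fin m, if hdEv s.X ρ a i then hdW L i else 0) = 1)) := by
    intro a
    rw [hρ.f, hdF_eq, hdHash_eq, hdSum_ofFn, hdSum_ofFn]
    push_cast
    rfl
  have he : ∀ y ∈ s.X, hdD ρ (fun _ => (1 : ZMod 3)) y ≠ 0 := by
    intro y hy
    rw [hρ.sg y hy]
    split_ifs <;> decide
  refine ⟨hd_p1 hf (hd_lin s.X ρ _) he, fun hw hN => ?_⟩
  refine hd_p2 (K := 8 * L ^ 3) (U := 2 ^ (2 * L ^ 3))
    (u := fun a => ∑ i : Fin m, if hdEv s.X ρ a i then hdW L i else 0)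
    (H := fun u => decide (hdH (L ^ 17) T u = 1)) (δ := hdD ρ fun i => (hdW L i : ℤ))
    hf (hd_lin s.X ρ _) he ?_ ?_ ?_ ?_ (by omega)
  · have := hd_lin s.X ρ fun i => (hdW L i : ℤ)
    intro y hy a
    have h1 := this y hy a
    push_cast
    exact h1
  · intro a
    have h1 : ∀ i : Fin m, (if hdEv s.X ρ a i then hdW L i else 0) ≤ 2 ^ ((L * L + 1) * L) := by
      intro i
      have h2 : i.val ≤ 2 ^ (L * L) := i.isLt.le.trans (hm.trans
        (Nat.pow_le_pow_right (by norm_num) (by nlinarith [Nat.sub_le L 3])))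
      have h3 : hdW L i ≤ 2 ^ ((L * L + 1) * L) := by
        unfold hdW
        rw [pow_mul 2 (L * L + 1)]
        exact Nat.pow_le_pow_left (by rw [pow_succ]; omega) _
      split_ifs
      · exact h3
      · exact Nat.zero_le _
    have h2 := Finset.sum_le_card_nsmul univ _ _ fun i _ => h1 i
    simp only [Finset.card_univ, Fintype.card_fin, smul_eq_mul] at h2
    refine lt_of_le_of_lt (h2.trans (Nat.mul_le_mul_right _ hm)) ?_
    rw [← pow_add]
    refine Nat.pow_lt_pow_right (by norm_num) ?_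
    have h3 : 3 * L ≤ L * L * L := Nat.mul_le_mul_right _ (by nlinarith)
    have h4 : L ^ 3 = L * L * L := by ring
    have h5 : (L * L + 1) * L = L * L * L + L := by ring
    omega
  · intro θ C A B h1 h2 h3 h4 h5
    obtain ⟨j, hj⟩ := hT θ C A B h1 h2 h3 h4 h5
    refine ⟨j, ?_⟩
    beta_reduce
    revert hj
    generalize hdH _ T _ = t
    generalize hdH _ T _ = t'
    revert t t'
    decide
  · intro a a' D hD hoff y hy hne hu
    let S : Finset (Fin m) := univ.filter fun i => hdEv s.X ρ a i ≠ hdEv s.X ρ a' i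
    have hS : S.card ≤ L := by
      have h1 : S ⊆ (D ∩ s.X).biUnion fun v => univ.filter fun i => (ρ i).1 = v := by
        intro i hi
        have h2 := (Finset.mem_filter.1 hi).2
        unfold hdEv at h2
        by_cases h3 : (ρ i).1 ∈ s.X
        · refine Finset.mem_biUnion.2 ⟨(ρ i).1, Finset.mem_inter.2 ⟨?_, h3⟩, by simp⟩
          by_contra h4
          rw [hoff _ h4] at h2
          exact h2 rfl
        · rw [if_neg h3, if_neg h3] at h2
          exact absurd rfl h2
      have h2 := Finset.card_biUnion_le_card_mul (D ∩ s.X)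
        (fun v => univ.filter fun i => (ρ i).1 = v) W fun v hv => by
          have h3 := (Finset.mem_inter.1 hv).2
          rw [hρ.wt v h3]
          exact hw v h3
      have h3 : (D ∩ s.X).card ≤ 6 := (Finset.card_le_card Finset.inter_subset_left).trans hD
      exact ((Finset.card_le_card h1).trans h2).trans ((Nat.mul_le_mul_right _ h3).trans hW)
    obtain ⟨i0, hi0⟩ : ∃ i, (ρ i).1 = y := by
      by_contra hc
      push Not at hc
      exact he y hy (Finset.sum_eq_zero fun i _ => if_neg (hc i))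
    have hi1 : i0 ∈ S := by
      refine Finset.mem_filter.2 ⟨Finset.mem_univ _, ?_⟩
      unfold hdEv
      rw [hi0, if_pos hy, if_pos hy]
      revert hne
      cases a y <;> cases a' y <;> simp
    let ε : ℕ → ℤ := fun n => if h : n < m then (if hdEv s.X ρ a ⟨n, h⟩ then 1 else -1) else 0
    have hε : ∀ i : Fin m, ε i = if hdEv s.X ρ a i then 1 else -1 := fun i => dif_pos i.isLt
    have h1 := hd_dissoc (L := L) (by omega) (S.map Fin.valEmbedding) ε (by simpa using hS)
      (fun i hi => by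
        obtain ⟨j, -, rfl⟩ := Finset.mem_map.1 hi
        exact j.isLt.le.trans hm)
      (fun i => by
        simp only [ε]
        split_ifs <;> simp) ?_ i0 (Finset.mem_map.2 ⟨i0, hi1, rfl⟩)
    · rw [hε] at h1
      split_ifs at h1 <;> omega
    · rw [Finset.sum_map, Finset.sum_filter]
      have h2 : ((∑ i : Fin m, if hdEv s.X ρ a i then hdW L i else 0 : ℕ) : ℤ) -
          ((∑ i : Fin m, if hdEv s.X ρ a' i then hdW L i else 0 : ℕ) : ℤ) = 0 := by
        rw [sub_eq_zero]
        exact_mod_cast hu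
      push_cast at h2
      refine Eq.trans ?_ h2
      rw [← Finset.sum_sub_distrib]
      refine Finset.sum_congr rfl fun i _ => ?_
      rw [Fin.valEmbedding_apply, hε]
      cases hdEv s.X ρ a i <;> cases hdEv s.X ρ a' i <;> simp

theorem hd_growth (k : ℕ) : ∃ L₀, ∀ L ≥ L₀, 16 * k * L ^ 35 ≤ 2 ^ L := by
  have h := tendsto_pow_const_div_const_pow_of_one_lt 35 (r := 2) (by norm_num)
  have hk : (0 : ℝ) < 1 / (16 * k + 1) := by positivity
  obtain ⟨L₀, hL⟩ := Filter.eventually_atTop.1 (h.eventually (gt_mem_nhds hk))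
  refine ⟨L₀, fun L hl => ?_⟩
  have h1 := hL L hl
  rw [div_lt_div_iff₀ (by positivity) (by positivity)] at h1
  have h2 : (0 : ℝ) ≤ (L : ℝ) ^ 35 := by positivity
  have h3 : (16 * k * L ^ 35 : ℝ) ≤ 2 ^ L := by nlinarith
  exact_mod_cast h3

theorem exists_hard : ∃ L ∈ N68a2faeb.P, ∀ W k : ℕ, ∃ n₀, ∀ n ≥ n₀, ∃ (p : List Bool) (m N : ℕ),
    p.length + m = n ∧ k * (p.length + N) ≤ n ∧ Hard (start m fun x => L (p ++ x)) W N := by
  refine ⟨hdLang, hdLang_mem, fun W k => ?_⟩
  obtain ⟨L₀, hL₀⟩ := hd_growth (k + 1)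
  refine ⟨2 ^ (L₀ + 400 + 6 * W), fun n hn => ?_⟩
  have hn0 : n ≠ 0 := by
    have : 0 < 2 ^ (L₀ + 400 + 6 * W) := by positivity
    omega
  have h1 : L₀ + 400 + 6 * W ≤ Nat.log 2 n := Nat.le_log_of_pow_le (by norm_num) hn
  have h2 : n < 2 ^ (Nat.log 2 n + 1) := Nat.lt_pow_succ_log_self (by norm_num) n
  have h3 : 2 ^ Nat.log 2 n ≤ n := Nat.pow_log_le_self 2 hn0
  obtain ⟨L, hL⟩ : ∃ L, L = Nat.log 2 n + 4 := ⟨_, rfl⟩
  have h4 := hL₀ L (by omega)
  have h5 : 2 ^ L = 16 * 2 ^ Nat.log 2 n := by rw [hL]; ring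
  have h6 : (k + 1) * L ^ 35 ≤ n := by nlinarith
  have h7 : L + (L ^ 17 * L ^ 17 + 1) + (16 * L ^ 3 + 68) ≤ L ^ 35 := by
    have a0 : 400 ≤ L := by omega
    have a1 : L ≤ L ^ 34 := Nat.le_self_pow (by norm_num) L
    have a2 : L ^ 3 ≤ L ^ 34 := Nat.pow_le_pow_right (by omega) (by norm_num)
    have a3 : L ^ 17 * L ^ 17 = L ^ 34 := by ring
    have a4 : 400 * L ^ 34 ≤ L * L ^ 34 := Nat.mul_le_mul_right _ a0
    have a5 : L ^ 35 = L * L ^ 34 := by ring
    omega
  obtain ⟨T, hT, hH⟩ := hd_hard (L := L) (m := n - (L + (L ^ 17 * L ^ 17 + 1))) (W := W) (by omega)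
    (by rw [show L - 3 = Nat.log 2 n + 1 by omega]; omega) (by omega)
  have hp : (List.replicate L true ++ false :: T).length = L + (L ^ 17 * L ^ 17 + 1) := by
    simp [hT]
  refine ⟨List.replicate L true ++ false :: T, n - (L + (L ^ 17 * L ^ 17 + 1)), 16 * L ^ 3 + 68,
    ?_, ?_, ?_⟩
  · rw [hp]
    have : L ^ 35 ≤ (k + 1) * L ^ 35 := Nat.le_mul_of_pos_left _ (by omega)
    omega
  · rw [hp]
    exact ((Nat.mul_le_mul_left k h7).trans (Nat.mul_le_mul_right _ (by omega))).trans h6
  · have e : (fun x => hdLang ((List.replicate L true ++ false :: T) ++ x)) = hdF L T :=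
      funext fun x => hdLang_seed L T x hT
    rw [e]
    exact hH

end Pool.Agent.Lib.MP_79d702_lc.U2
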