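import Mathlib

/-!
Arithmetic for the hard function: a small modulus separating finitely many numbers, small weights
without short signed relations, and a table of bits that is good for all grids of points.
-/

namespace Pool.Agent.Lib.MP_79d702_lc.U2

open Finset

theorem hd_two_pow_le (M : ℕ) : 2 ^ M ≤ Nat.centralBinom M := by
  induction M with
  | zero => simp
  | succ n ih =>
    have h := Nat.succ_mul_centralBinom_succ n
    have h2 : (n + 1) * 2 ^ (n + 1) ≤ (n + 1) * Nat.centralBinom (n + 1) := by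
      rw [h, pow_succ]
      nlinarith [Nat.zero_le (n * 2 ^ n), Nat.zero_le (n * Nat.centralBinom n),
        Nat.mul_le_mul_left n ih]
    exact Nat.le_of_mul_le_mul_left h2 (Nat.succ_pos n)

theorem hd_modulus {I : Type} [Fintype I] (D : I → ℕ) (s M : ℕ) (h0 : ∀ i, 0 < D i)
    (h1 : ∀ i, D i ≤ 2 ^ s) (hM : Fintype.card I * s < M) :
    ∃ q < 2 * M, ∀ i, ¬ q + 1 ∣ D i := by
  by_contra hc
  push Not at hc
  have hpos : 0 < ∏ i, D i := Finset.prod_pos fun i _ => h0 i
  have hle : ∏ i, D i ≤ (2 ^ s) ^ Fintype.card I := by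
    have := Finset.prod_le_pow_card Finset.univ D (2 ^ s) fun i _ => h1 i
    simpa using this
  have hlt : ∏ i, D i < Nat.centralBinom M := by
    refine lt_of_le_of_lt hle (lt_of_lt_of_le ?_ (hd_two_pow_le M))
    rw [← pow_mul]
    exact Nat.pow_lt_pow_right (by norm_num) (by rw [mul_comm]; exact hM)
  have hdvd : Nat.centralBinom M ∣ ∏ i, D i := by
    rw [Nat.dvd_iff_prime_pow_dvd_dvd]
    intro p k hp hk
    have hne : Nat.centralBinom M ≠ 0 := (Nat.centralBinom_pos M).ne'
    have hk' : k ≤ (Nat.centralBinom M).factorization p :=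
      (hp.pow_dvd_iff_le_factorization hne).1 hk
    have h2 : p ^ (Nat.centralBinom M).factorization p ≤ 2 * M :=
      Nat.pow_factorization_choose_le (by omega)
    have h3 : p ^ k ≤ 2 * M := (Nat.pow_le_pow_right hp.pos hk').trans h2
    have h4 : 0 < p ^ k := pow_pos hp.pos k
    obtain ⟨i, hi⟩ := hc (p ^ k - 1) (by omega)
    rw [Nat.sub_add_cancel h4] at hi
    exact hi.trans (Finset.dvd_prod_of_mem D (Finset.mem_univ i))
  exact absurd (Nat.le_of_dvd hpos hdvd) (by omega)

theorem hd_separate {I : Type} [Fintype I] [DecidableEq I] (v : I → ℕ) (hv : Function.Injective v)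
    (s M : ℕ) (h1 : ∀ i, v i ≤ 2 ^ s) (hM : Fintype.card I * Fintype.card I * s < M) :
    ∃ q < 2 * M, ∀ i j, v i % (q + 1) = v j % (q + 1) → i = j := by
  obtain ⟨q, hq, h⟩ := hd_modulus (I := I × I)
    (fun p => if v p.2 < v p.1 then v p.1 - v p.2 else 1) s M
    (fun p => by split_ifs <;> omega)
    (fun p => by
      have := h1 p.1
      have : 0 < 2 ^ s := by positivity
      split_ifs <;> omega) (by simpa using hM)
  refine ⟨q, hq, fun i j hij => ?_⟩
  by_contra hne
  rcases lt_or_gt_of_ne (hv.ne hne) with hlt | hlt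
  · have := h (j, i)
    simp only [if_pos hlt] at this
    exact this ((Nat.modEq_iff_dvd' hlt.le).1 hij)
  · have := h (i, j)
    simp only [if_pos hlt] at this
    exact this ((Nat.modEq_iff_dvd' hlt.le).1 hij.symm)

theorem hd_digits (B : ℤ) (n : ℕ) : ∀ c : ℕ → ℤ, (∀ t < n, |c t| < B) →
    ∑ t ∈ range n, B ^ t * c t = 0 → ∀ t < n, c t = 0 := by
  induction n with
  | zero => intro c _ _ t ht; omega
  | succ n ih =>
    intro c hc hs
    rw [Finset.sum_range_succ'] at hs
    have e : ∑ t ∈ range n, B ^ (t + 1) * c (t + 1) = B * ∑ t ∈ range n, B ^ t * c (t + 1) := by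
      rw [Finset.mul_sum]
      exact Finset.sum_congr rfl fun t _ => by ring
    rw [e, pow_zero, one_mul] at hs
    have h0 := hc 0 (by omega)
    have hB : 0 < B := lt_of_le_of_lt (abs_nonneg _) h0
    have hd : B ∣ c 0 := ⟨-∑ t ∈ range n, B ^ t * c (t + 1), by linarith⟩
    have hz : c 0 = 0 := Int.eq_zero_of_abs_lt_dvd hd h0
    rw [hz, add_zero] at hs
    have h2 := ih (fun t => c (t + 1)) (fun t ht => hc _ (by omega))
      ((mul_eq_zero.1 hs).resolve_left hB.ne')
    intro t ht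
    rcases t with _ | t
    · exact hz
    · exact h2 t (by omega)

theorem hd_vander (D : Finset ℕ) (ε : ℕ → ℤ) (L : ℕ) (hD : D.card ≤ L)
    (h : ∀ r ≤ L, ∑ i ∈ D, ε i * (i : ℤ) ^ r = 0) : ∀ i ∈ D, ε i = 0 := by
  intro i0 hi0
  let R : Polynomial ℤ := ∏ j ∈ D.erase i0, (Polynomial.X - Polynomial.C (j : ℤ))
  have hdeg : R.natDegree < L + 1 := by
    have h1 : R.natDegree ≤ ∑ j ∈ D.erase i0,
        (Polynomial.X - Polynomial.C (j : ℤ)).natDegree := Polynomial.natDegree_prod_le _ _
    simp only [Polynomial.natDegree_X_sub_C, Finset.sum_const, smul_eq_mul, mul_one] at h1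
    have := Finset.card_erase_le (s := D) (a := i0)
    omega
  have h1 : ∑ i ∈ D, ε i * R.eval (i : ℤ) = 0 := by
    simp only [Polynomial.eval_eq_sum_range' hdeg, Finset.mul_sum]
    rw [Finset.sum_comm]
    refine Finset.sum_eq_zero fun r hr => ?_
    have := h r (by simpa [Nat.lt_succ_iff] using hr)
    calc ∑ i ∈ D, ε i * (R.coeff r * (i : ℤ) ^ r) = R.coeff r * ∑ i ∈ D, ε i * (i : ℤ) ^ r := by
          rw [Finset.mul_sum]; exact Finset.sum_congr rfl fun i _ => by ring
      _ = 0 := by rw [this, mul_zero]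
  rw [Finset.sum_eq_single i0] at h1
  · refine (mul_eq_zero.1 h1).resolve_right ?_
    simp only [R, Polynomial.eval_prod, Polynomial.eval_sub, Polynomial.eval_X, Polynomial.eval_C]
    refine Finset.prod_ne_zero_iff.2 fun j hj => sub_ne_zero.2 ?_
    exact_mod_cast (Finset.ne_of_mem_erase hj).symm
  · intro i hi hne
    simp only [R, Polynomial.eval_prod, Polynomial.eval_sub, Polynomial.eval_X, Polynomial.eval_C]
    rw [Finset.prod_eq_zero (Finset.mem_erase.2 ⟨hne, hi⟩) (sub_self _), mul_zero]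
  · intro h; exact absurd hi0 h

/-- the weight of position `i` -/
def hdW (L i : ℕ) : ℕ := (2 ^ (L * L) + i) ^ L

theorem hd_dissoc {L : ℕ} (hL : 3 ≤ L) (D : Finset ℕ) (ε : ℕ → ℤ) (hD : D.card ≤ L)
    (hi : ∀ i ∈ D, i ≤ 2 ^ (L - 3)) (hε : ∀ i, |ε i| ≤ 1)
    (h : ∑ i ∈ D, ε i * (hdW L i : ℤ) = 0) : ∀ i ∈ D, ε i = 0 := by
  have h1 := hd_digits (2 ^ (L * L)) (L + 1)
    (fun t => (L.choose t : ℤ) * ∑ i ∈ D, ε i * (i : ℤ) ^ (L - t)) ?_ ?_
  · refine hd_vander D ε L hD fun r hr => ?_
    have h2 := h1 (L - r) (by omega)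
    have h3 : (L.choose (L - r) : ℤ) ≠ 0 := by
      exact_mod_cast (Nat.choose_pos (by omega)).ne'
    have h4 := (mul_eq_zero.1 h2).resolve_left h3
    rwa [show L - (L - r) = r by omega] at h4
  · intro t _
    have a1 : (L.choose t : ℤ) ≤ 2 ^ L := by exact_mod_cast Nat.choose_le_two_pow L t
    have a2 : |∑ i ∈ D, ε i * (i : ℤ) ^ (L - t)| ≤ D.card • (2 ^ ((L - 3) * L) : ℤ) := by
      refine (Finset.abs_sum_le_sum_abs _ _).trans (Finset.sum_le_card_nsmul _ _ _ fun i hiD => ?_)
      rw [abs_mul, abs_of_nonneg (by positivity : (0 : ℤ) ≤ (i : ℤ) ^ (L - t))]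
      have b1 : i ^ (L - t) ≤ 2 ^ ((L - 3) * L) := by
        refine (Nat.pow_le_pow_left (hi i hiD) _).trans ?_
        rw [← pow_mul]
        exact Nat.pow_le_pow_right (by norm_num) (Nat.mul_le_mul_left _ (by omega))
      have b2 : ((i : ℤ)) ^ (L - t) ≤ 2 ^ ((L - 3) * L) := by exact_mod_cast b1
      have b3 : (0 : ℤ) ≤ (i : ℤ) ^ (L - t) := by positivity
      nlinarith [hε i, abs_nonneg (ε i)]
    have a3 : (D.card : ℤ) < 2 ^ L := by exact_mod_cast lt_of_le_of_lt hD Nat.lt_two_pow_self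
    rw [nsmul_eq_mul] at a2
    rw [abs_mul, abs_of_nonneg (by positivity : (0 : ℤ) ≤ (L.choose t : ℤ))]
    have a4 : (2 : ℤ) ^ L * (2 ^ L * 2 ^ ((L - 3) * L)) ≤ 2 ^ (L * L) := by
      rw [← pow_add, ← pow_add]
      refine pow_le_pow_right₀ (by norm_num) ?_
      obtain ⟨l, rfl⟩ : ∃ l, L = l + 3 := ⟨L - 3, by omega⟩
      rw [Nat.add_sub_cancel]
      nlinarith
    have a5 : (0 : ℤ) < 2 ^ ((L - 3) * L) := by positivity
    have a6 : (0 : ℤ) < 2 ^ L := by positivity
    calc _ ≤ (2 : ℤ) ^ L * (D.card * 2 ^ ((L - 3) * L)) :=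
          mul_le_mul a1 a2 (abs_nonneg _) a6.le
      _ < 2 ^ L * (2 ^ L * 2 ^ ((L - 3) * L)) :=
          mul_lt_mul_of_pos_left (mul_lt_mul_of_pos_right a3 a5) a6
      _ ≤ _ := a4
  · rw [← h]
    simp only [hdW, Finset.mul_sum]
    rw [Finset.sum_comm]
    refine Finset.sum_congr rfl fun i _ => ?_
    push_cast
    rw [add_pow, Finset.mul_sum]
    exact Finset.sum_congr rfl fun t _ => by ring

/-- a table entry -/
def hdE {R : ℕ} (T : Fin R → ZMod 2) (n : ℕ) : ZMod 2 := if h : n < R then T ⟨n, h⟩ else 0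

/-- the sum of the table entries addressed by `u` -/
def hdH (Q : ℕ) (T : Fin (Q * Q) → ZMod 2) (u : ℕ) : ZMod 2 :=
  ∑ q ∈ range Q, hdE T (q * Q + u % (q + 1))

theorem hdH_add (Q : ℕ) (T T' : Fin (Q * Q) → ZMod 2) (u : ℕ) :
    hdH Q (T + T') u = hdH Q T u + hdH Q T' u := by
  unfold hdH
  rw [← Finset.sum_add_distrib]
  refine Finset.sum_congr rfl fun q _ => ?_
  unfold hdE
  split_ifs <;> simp

theorem hdH_unit {Q q r : ℕ} (hq : q < Q) (hr : r ≤ q) (c : ZMod 2) (u : ℕ) :
    hdH Q (fun i => if i.val = q * Q + r then c else 0) u = if u % (q + 1) = r then c else 0 := by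
  unfold hdH
  rw [Finset.sum_eq_single q]
  · have h1 : u % (q + 1) < q + 1 := Nat.mod_lt _ (by omega)
    have h2 : q * Q + u % (q + 1) < Q * Q := by nlinarith
    simp [hdE, h2]
  · intro q' hq' hne
    have h1 : u % (q' + 1) < q' + 1 := Nat.mod_lt _ (by omega)
    have hq'' := Finset.mem_range.1 hq'
    have h3 : q' * Q + u % (q' + 1) ≠ q * Q + r := by
      rcases lt_or_gt_of_ne hne with h | h
      · have := Nat.mul_le_mul_right Q (Nat.succ_le_of_lt h)
        rw [Nat.succ_mul] at this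
        omega
      · have := Nat.mul_le_mul_right Q (Nat.succ_le_of_lt h)
        rw [Nat.succ_mul] at this
        omega
    simp [hdE, h3]
  · intro h; exact absurd (Finset.mem_range.2 hq) h

theorem hd_bad_card {J : Type} [Fintype J] [DecidableEq J] {Q q : ℕ} (hq : q < Q)
    (v : J × Bool → ℕ) (hv : ∀ i j, v i % (q + 1) = v j % (q + 1) → i = j) :
    (univ.filter fun T : Fin (Q * Q) → ZMod 2 =>
      ∀ j, hdH Q T (v (j, false)) = hdH Q T (v (j, true))).card *
      2 ^ Fintype.card J ≤ 2 ^ (Q * Q) := by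
  let Φ : (Fin (Q * Q) → ZMod 2) →+ (J → ZMod 2) := AddMonoidHom.mk'
    (fun T j => hdH Q T (v (j, false)) - hdH Q T (v (j, true))) fun T T' => by
      funext j
      simp only [hdH_add, Pi.add_apply]
      ring
  have hsurj : ∀ S, ∃ T, Φ T = S := by
    intro S
    refine ⟨∑ j, fun i => if i.val = q * Q + v (j, false) % (q + 1) then S j else 0, ?_⟩
    rw [map_sum]
    funext j
    rw [Finset.sum_apply, Finset.sum_eq_single j]
    · have h1 : v (j, false) % (q + 1) < q + 1 := Nat.mod_lt _ (by omega)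
      show hdH Q _ _ - hdH Q _ _ = _
      rw [hdH_unit hq (by omega), hdH_unit hq (by omega), if_pos rfl, if_neg, sub_zero]
      intro h
      simpa using hv _ _ h
    · intro j' _ hne
      have h1 : v (j', false) % (q + 1) < q + 1 := Nat.mod_lt _ (by omega)
      show hdH Q _ _ - hdH Q _ _ = _
      rw [hdH_unit hq (by omega), hdH_unit hq (by omega), if_neg, if_neg, sub_zero]
      · intro h
        simpa using hv _ _ h
      · intro h
        have := hv _ _ h
        simp only [Prod.mk.injEq, and_true] at this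
        exact hne this.symm
    · intro h; exact absurd (Finset.mem_univ j) h
  choose E hE using hsurj
  have h := Finset.card_le_card_of_injOn (s := ({T : Fin (Q * Q) → ZMod 2 |
      ∀ j, hdH Q T (v (j, false)) = hdH Q T (v (j, true))} : Finset _) ×ˢ (univ : Finset (J → ZMod 2)))
    (t := (univ : Finset (Fin (Q * Q) → ZMod 2))) (fun p => p.1 + E p.2) (fun _ _ => by simp) ?_
  · simpa using h
  · intro p hp p' hp' hpp
    have z : ∀ p : (Fin (Q * Q) → ZMod 2) × (J → ZMod 2), p ∈ (({T : Fin (Q * Q) → ZMod 2 |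
        ∀ j, hdH Q T (v (j, false)) = hdH Q T (v (j, true))} : Finset _) ×ˢ
          (univ : Finset (J → ZMod 2)) : Finset _) → Φ (p.1 + E p.2) = p.2 := by
      intro p hp
      simp only [Finset.mem_product, Finset.mem_filter, Finset.mem_univ, true_and, and_true] at hp
      rw [map_add, hE]
      have : Φ p.1 = 0 := funext fun j => sub_eq_zero.2 (hp j)
      rw [this, zero_add]
    have h2 : p.2 = p'.2 := by
      rw [← z p (Finset.mem_coe.1 hp), ← z p' (Finset.mem_coe.1 hp')]
      exact congrArg Φ hpp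
    have h1 : p.1 = p'.1 := by
      have : p.1 + E p.2 = p'.1 + E p'.2 := hpp
      rw [h2] at this
      exact add_right_cancel this
    exact Prod.ext h1 h2

/-- a point of the grid described by `θ, C, A, B` -/
def hdPt {K : ℕ} (θ C : ℕ) (A B : Fin K → ℕ) (p : (Fin K × Fin K) × Bool) : ℕ :=
  A p.1.1 + B p.1.2 + (if p.2 then C else θ) - 2 * θ

/-- `h` separates one of the pairs of every grid of distinct points below `U` -/
def HdGood {β : Type} (K U : ℕ) (h : ℕ → β) : Prop :=
  ∀ (θ C : ℕ) (A B : Fin K → ℕ), θ < U → C < U → (∀ i, A i < U) → (∀ i, B i < U) →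
    Function.Injective (hdPt θ C A B) →
    ∃ j, h (hdPt θ C A B (j, false)) ≠ h (hdPt θ C A B (j, true))

theorem hd_table (K s Q : ℕ) (h1 : s * (2 * K + 2) < K * K)
    (h2 : 2 * (4 * K ^ 4 * (s + 2) + 1) ≤ Q) :
    ∃ T : Fin (Q * Q) → ZMod 2, HdGood K (2 ^ s) (hdH Q T) := by
  classical
  let Cf := Fin (2 ^ s) × Fin (2 ^ s) × (Fin K → Fin (2 ^ s)) × (Fin K → Fin (2 ^ s))
  let pt : Cf → (Fin K × Fin K) × Bool → ℕ := fun c =>
    hdPt c.1.val c.2.1.val (fun i => (c.2.2.1 i).val) fun i => (c.2.2.2 i).val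
  let bad : Cf → Finset (Fin (Q * Q) → ZMod 2) := fun c =>
    if Function.Injective (pt c) then
      univ.filter fun T => ∀ j, hdH Q T (pt c (j, false)) = hdH Q T (pt c (j, true)) else ∅
  have hb : ∀ c, (bad c).card * 2 ^ (K * K) ≤ 2 ^ (Q * Q) := by
    intro c
    simp only [bad]
    split_ifs with hi
    · obtain ⟨q, hq, hs⟩ := hd_separate (pt c) hi (s + 2) (4 * K ^ 4 * (s + 2) + 1) (fun p => by
        have a1 := c.1.isLt
        have a2 := c.2.1.isLt
        have a3 := (c.2.2.1 p.1.1).isLt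
        have a4 := (c.2.2.2 p.1.2).isLt
        simp only [pt, hdPt, pow_add]
        split_ifs <;> omega) (by
        simp only [Fintype.card_prod, Fintype.card_fin, Fintype.card_bool]
        nlinarith)
      have := hd_bad_card (Q := Q) (by omega) (pt c) hs
      simpa using this
    · simp
  have hc : (univ.biUnion bad).card < (univ : Finset (Fin (Q * Q) → ZMod 2)).card := by
    have a1 : (univ.biUnion bad).card * 2 ^ (K * K) ≤ Fintype.card Cf * 2 ^ (Q * Q) := by
      refine (Nat.mul_le_mul_right _ Finset.card_biUnion_le).trans ?_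
      rw [Finset.sum_mul]
      exact (Finset.sum_le_card_nsmul _ _ _ fun c _ => hb c).trans (by simp)
    have a2 : Fintype.card Cf < 2 ^ (K * K) := by
      have : Fintype.card Cf = 2 ^ (s * (2 * K + 2)) := by
        simp only [Cf, Fintype.card_prod, Fintype.card_fin, Fintype.card_fun]
        ring
      rw [this]
      exact Nat.pow_lt_pow_right (by norm_num) h1
    have a3 : (univ : Finset (Fin (Q * Q) → ZMod 2)).card = 2 ^ (Q * Q) := by simp
    rw [a3]
    have a4 : Fintype.card Cf * 2 ^ (Q * Q) < 2 ^ (Q * Q) * 2 ^ (K * K) := by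
      rw [mul_comm]
      exact Nat.mul_lt_mul_of_pos_left a2 (by positivity)
    exact Nat.lt_of_mul_lt_mul_right (lt_of_le_of_lt a1 a4)
  obtain ⟨T, -, hT⟩ := Finset.exists_mem_notMem_of_card_lt_card hc
  refine ⟨T, fun θ C A B hθ hC hA hB hi => ?_⟩
  by_contra hn
  push Not at hn
  refine hT (Finset.mem_biUnion.2 ⟨(⟨θ, hθ⟩, ⟨C, hC⟩, fun i => ⟨A i, hA i⟩, fun i => ⟨B i, hB i⟩),
    Finset.mem_univ _, ?_⟩)
  simp only [bad]
  rw [if_pos hi]
  exact Finset.mem_filter.2 ⟨Finset.mem_univ _, hn⟩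

end Pool.Agent.Lib.MP_79d702_lc.U2
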