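import Pool.Agent.Lib.MP_79d702_lc.U2.State
import Pool.Agent.Lib.MP_79d702_lc.U2.Hard1

/-!
The shape of the subfunctions reached from a start state, and the two hardness properties for
functions that depend on a count modulo three and on a weighted sum.
-/

namespace Pool.Agent.Lib.MP_79d702_lc.U2

open Finset

theorem hd_flip_self (a : ℕ → Bool) (x : ℕ) : flip a x x = !a x := by simp [flip]

theorem hd_flip_ne (a : ℕ → Bool) {x v : ℕ} (h : v ≠ x) : flip a x v = a v := by simp [flip, h]

/-- the original input described by the substitution `ρ` -/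
def hdEv {m : ℕ} (X : Finset ℕ) (ρ : Fin m → ℕ × Bool) (a : ℕ → Bool) (i : Fin m) : Bool :=
  if (ρ i).1 ∈ X then a (ρ i).1 ^^ (ρ i).2 else (ρ i).2

/-- the signed weight of the block of `y` -/
def hdD {A : Type} [AddCommGroup A] {m : ℕ} (ρ : Fin m → ℕ × Bool) (c : Fin m → A) (y : ℕ) : A :=
  ∑ i, if (ρ i).1 = y then (if (ρ i).2 then -c i else c i) else 0

structure HdInv {m : ℕ} (F : List Bool → Bool) (s : FS) (ρ : Fin m → ℕ × Bool) : Prop where
  f : ∀ a, s.f a = F (List.ofFn (hdEv s.X ρ a))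
  wt : ∀ y ∈ s.X, (univ.filter fun i => (ρ i).1 = y).card = s.wt y
  sg : ∀ y ∈ s.X, hdD ρ (fun _ => (1 : ZMod 3)) y = if s.sg y then -1 else 1

theorem hd_inv {m : ℕ} {F : List Bool → Bool} {s : FS} (h : Reach (start m F) s) :
    ∃ ρ : Fin m → ℕ × Bool, HdInv F s ρ := by
  induction h with
  | refl =>
    have key : ∀ y ∈ Finset.Icc 1 m, ∃ j : Fin m, ∀ i : Fin m, (i.val + 1 = y ↔ i = j) := by
      intro y hy
      have := Finset.mem_Icc.1 hy
      exact ⟨⟨y - 1, by omega⟩, fun i => ⟨fun h => Fin.ext (by simp only; omega), fun h => by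
        rw [h]; simp only; omega⟩⟩
    refine ⟨fun i => (i.val + 1, false), fun a => ?_, fun y hy => ?_, fun y hy => ?_⟩
    · show F _ = F _
      congr 2
      funext i
      have := i.isLt
      simp only [hdEv, start]
      rw [if_pos (Finset.mem_Icc.2 ⟨by omega, by omega⟩), Bool.xor_false]
    · obtain ⟨j, hj⟩ := key y hy
      simp only [hj, start]
      rw [Finset.filter_eq', if_pos (Finset.mem_univ j), Finset.card_singleton]
    · obtain ⟨j, hj⟩ := key y hy
      simp [hdD, hj, start]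
  | @fix s x c _ hx ih =>
    obtain ⟨ρ, h⟩ := ih
    refine ⟨fun i => if (ρ i).1 = x then (x, c ^^ (ρ i).2) else ρ i, fun a => ?_,
      fun y hy => ?_, fun y hy => ?_⟩
    · show s.f _ = F _
      rw [h.f]
      congr 2
      funext i
      by_cases e : (ρ i).1 = x
      · simp [hdEv, FS.fix, e, hx]
      · simp [hdEv, FS.fix, e]
    · obtain ⟨h1, h2⟩ := Finset.mem_erase.1 hy
      show _ = s.wt y
      rw [← h.wt y h2]
      congr 1
      refine Finset.filter_congr fun i _ => ?_
      by_cases e : (ρ i).1 = x <;> simp [e]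
    · obtain ⟨h1, h2⟩ := Finset.mem_erase.1 hy
      show _ = if s.sg y then -1 else 1
      rw [← h.sg y h2]
      refine Finset.sum_congr rfl fun i _ => ?_
      by_cases e : (ρ i).1 = x
      · simp [e, h1.symm]
      · simp [e]
  | @proj s x y _ hx hy hxy ih =>
    obtain ⟨ρ, h⟩ := ih
    refine ⟨fun i => if (ρ i).1 = x then (y, (s.sg x ^^ s.sg y) ^^ (ρ i).2) else ρ i,
      fun a => ?_, fun z hz => ?_, fun z hz => ?_⟩
    · show s.f _ = F _
      rw [h.f]
      congr 2
      funext i
      by_cases e : (ρ i).1 = x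
      · simp [hdEv, FS.proj, e, hx, hy, hxy.symm]
      · simp [hdEv, FS.proj, e]
    · obtain ⟨h1, h2⟩ := Finset.mem_erase.1 hz
      show _ = Function.update s.wt y (s.wt x + s.wt y) z
      by_cases ez : z = y
      · subst ez
        rw [Function.update_self, ← h.wt x hx, ← h.wt z hy, ← Finset.card_union_of_disjoint]
        · congr 1
          ext i
          by_cases e : (ρ i).1 = x <;> simp [e]
        · exact Finset.disjoint_filter.2 fun i _ e1 e2 => hxy (e1.symm.trans e2)
      · rw [Function.update_of_ne ez, ← h.wt z h2]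
        congr 1
        refine Finset.filter_congr fun i _ => ?_
        by_cases e : (ρ i).1 = x
        · simp [e, h1.symm, Ne.symm ez]
        · simp [e]
    · obtain ⟨h1, h2⟩ := Finset.mem_erase.1 hz
      show _ = if Function.update s.sg y (!s.sg y) z then -1 else 1
      by_cases ez : z = y
      · subst ez
        have e1 := h.sg x hx
        have e2 := h.sg z hy
        have e3 : hdD (fun i => if (ρ i).1 = x then (z, (s.sg x ^^ s.sg z) ^^ (ρ i).2) else ρ i)
            (fun _ => (1 : ZMod 3)) z = (if (s.sg x ^^ s.sg z) then -1 else 1) *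
              hdD ρ (fun _ => (1 : ZMod 3)) x + hdD ρ (fun _ => (1 : ZMod 3)) z := by
          unfold hdD
          rw [Finset.mul_sum, ← Finset.sum_add_distrib]
          refine Finset.sum_congr rfl fun i _ => ?_
          by_cases e : (ρ i).1 = x
          · simp only [e, if_true, if_neg hxy]
            generalize (s.sg x ^^ s.sg z) = t
            generalize (ρ i).2 = r
            cases t <;> cases r <;> decide
          · simp [e]
        rw [e3, e1, e2, Function.update_self]
        generalize s.sg x = t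
        generalize s.sg z = r
        cases t <;> cases r <;> decide
      · rw [Function.update_of_ne ez, ← h.sg z h2]
        refine Finset.sum_congr rfl fun i _ => ?_
        by_cases e : (ρ i).1 = x
        · simp [e, h1.symm, Ne.symm ez]
        · simp [e]

/-- flipping a variable of `X` changes `σ` by plus or minus `e` -/
def HdLin {A : Type} [AddCommGroup A] (X : Finset ℕ) (σ : (ℕ → Bool) → A) (e : ℕ → A) : Prop :=
  ∀ y ∈ X, ∀ a, σ (flip a y) = σ a + if a y then -e y else e y

theorem hd_lin {A : Type} [AddCommGroup A] {m : ℕ} (X : Finset ℕ) (ρ : Fin m → ℕ × Bool)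
    (c : Fin m → A) : HdLin X (fun a => ∑ i, if hdEv X ρ a i then c i else 0) (hdD ρ c) := by
  intro y hy a
  have e : (if a y then -hdD ρ c y else hdD ρ c y) = ∑ i, if (ρ i).1 = y then
      (if (a y ^^ (ρ i).2) then -c i else c i) else 0 := by
    unfold hdD
    cases a y
    · simp
    · simp only [if_true, ← Finset.sum_neg_distrib]
      refine Finset.sum_congr rfl fun i _ => ?_
      by_cases e : (ρ i).1 = y
      · cases (ρ i).2 <;> simp [e]
      · simp [e]
  show ∑ i, _ = ∑ i, _ + _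
  rw [e, ← Finset.sum_add_distrib]
  refine Finset.sum_congr rfl fun i _ => ?_
  by_cases e : (ρ i).1 = y
  · simp only [hdEv, e, if_pos hy, hd_flip_self, if_true]
    cases a y <;> cases (ρ i).2 <;> simp
  · have : hdEv X ρ (flip a y) i = hdEv X ρ a i := by simp only [hdEv, hd_flip_ne a e]
    rw [this, if_neg e, add_zero]

theorem hd_reach {X : Finset ℕ} {σ : (ℕ → Bool) → ZMod 3} {e : ℕ → ZMod 3} (h : HdLin X σ e)
    (he : ∀ y ∈ X, e y ≠ 0) {y z : ℕ} (hy : y ∈ X) (hz : z ∈ X) (hyz : y ≠ z) (a : ℕ → Bool)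
    (τ : ZMod 3) : ∃ b : ℕ → Bool, (∀ i, i ≠ y → i ≠ z → b i = a i) ∧ σ b = τ := by
  have h1 := h y hy a
  have h2 := h z hz a
  have h3 := h z hz (flip a y)
  rw [hd_flip_ne a hyz.symm, h1] at h3
  have d1 : (if a y then -e y else e y) ≠ 0 := by
    split_ifs
    · exact neg_ne_zero.2 (he y hy)
    · exact he y hy
  have d2 : (if a z then -e z else e z) ≠ 0 := by
    split_ifs
    · exact neg_ne_zero.2 (he z hz)
    · exact he z hz
  have key : ∀ c p q t : ZMod 3, p ≠ 0 → q ≠ 0 → c = t ∨ c + p = t ∨ c + q = t ∨ c + p + q = t := by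
    decide
  rcases key (σ a) _ _ τ d1 d2 with k | k | k | k
  · exact ⟨a, fun _ _ _ => rfl, k⟩
  · exact ⟨flip a y, fun i i1 _ => hd_flip_ne a i1, h1.trans k⟩
  · exact ⟨flip a z, fun i _ i2 => hd_flip_ne a i2, h2.trans k⟩
  · exact ⟨flip (flip a y) z, fun i i1 i2 => (hd_flip_ne _ i2).trans (hd_flip_ne a i1), h3.trans k⟩

/-- the output rule -/
def hdOut (σ : ZMod 3) (β : Bool) : Bool := if σ = 0 then false else if σ = 1 then true else β

theorem hd_out_ne : ∀ d : ZMod 3, d ≠ 0 → ∃ τ : ZMod 3, ∀ β β', hdOut τ β ≠ hdOut (τ + d) β' := by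
  decide

theorem hd_p1 {s : FS} {σ : (ℕ → Bool) → ZMod 3} {e : ℕ → ZMod 3} {β : (ℕ → Bool) → Bool}
    (hf : ∀ a, s.f a = hdOut (σ a) (β a)) (h : HdLin s.X σ e) (he : ∀ y ∈ s.X, e y ≠ 0) :
    P1 s := by
  intro x hx y hy z hz hxy hxz hyz a
  have d1 : (if a x then -e x else e x) ≠ 0 := by
    split_ifs
    · exact neg_ne_zero.2 (he x hx)
    · exact he x hx
  obtain ⟨τ, hτ⟩ := hd_out_ne _ d1
  obtain ⟨b, hb, hσ⟩ := hd_reach h he hy hz hyz a τ
  refine ⟨b, hb, ?_⟩
  rw [hf, hf, h x hx, hσ, hb x hxy hxz]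
  exact hτ _ _

theorem hd_p2 {s : FS} {σ : (ℕ → Bool) → ZMod 3} {e : ℕ → ZMod 3} {u : (ℕ → Bool) → ℕ}
    {δ : ℕ → ℤ} {H : ℕ → Bool} {K U : ℕ}
    (hf : ∀ a, s.f a = hdOut (σ a) (H (u a))) (h : HdLin s.X σ e) (he : ∀ y ∈ s.X, e y ≠ 0)
    (hu : HdLin s.X (fun a => (u a : ℤ)) δ) (hU : ∀ a, u a < U) (hH : HdGood K U H)
    (sep : ∀ (a a' : ℕ → Bool) (D : Finset ℕ), D.card ≤ 6 → (∀ v, v ∉ D → a v = a' v) →
      ∀ y ∈ s.X, a y ≠ a' y → u a ≠ u a')
    (hN : 2 * K + 68 ≤ s.X.card) : P2 s := by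
  classical
  intro x hx y hy hxy A hA a
  have hY : Fintype.card ((Fin K ⊕ Fin K) ⊕ Bool) ≤ (s.X \ (A ∪ {x, y})).card := by
    have h1 := Finset.le_card_sdiff (A ∪ {x, y}) s.X
    have h2 := Finset.card_union_le A {x, y}
    have h3 : ({x, y} : Finset ℕ).card ≤ 2 := Finset.card_le_two
    simp only [Fintype.card_sum, Fintype.card_fin, Fintype.card_bool]
    omega
  obtain ⟨g, hg⟩ := Function.Embedding.exists_of_card_le_finset hY
  have hg' : ∀ w, g w ∈ s.X ∧ g w ∉ A ∧ g w ≠ x ∧ g w ≠ y := fun w => by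
    have := hg (Set.mem_range_self w)
    simp only [Finset.coe_sdiff, Finset.coe_union, Finset.coe_insert, Finset.coe_singleton,
      Set.mem_sdiff, Finset.mem_coe, Set.mem_union, Set.mem_insert_iff, Set.mem_singleton_iff,
      not_or] at this
    exact this
  have gx : ∀ w, x ≠ g w := fun w => (hg' w).2.2.1.symm
  have gy : ∀ w, y ≠ g w := fun w => (hg' w).2.2.2.symm
  have hz : g (.inr false) ≠ g (.inr true) := g.injective.ne (by simp)
  have joint : ∀ b : ℕ → Bool, b x = a x → b y = a y → σ (flip (flip b x) y) =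
      σ b + ((if a x then -e x else e x) + if a y then -e y else e y) := by
    intro b b1 b2
    rw [h y hy, h x hx, hd_flip_ne b hxy.symm, b1, b2, add_assoc]
  by_cases hd : ((if a x then -e x else e x) + if a y then -e y else e y) = 0
  swap
  · obtain ⟨τ, hτ⟩ := hd_out_ne _ hd
    obtain ⟨b, hb, hσ⟩ := hd_reach h he (hg' _).1 (hg' _).1 hz a τ
    refine ⟨b, fun i hi => hb i ?_ ?_, ?_⟩
    · rintro rfl; exact (hg' _).2.1 hi
    · rintro rfl; exact (hg' _).2.1 hi
    · rw [hf, hf, joint b (hb x (gx _) (gx _)) (hb y (gy _) (gy _)), hσ]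
      exact hτ _ _
  let p : Fin K → ℕ := fun i => g (.inl (.inl i))
  let r : Fin K → ℕ := fun i => g (.inl (.inr i))
  have pr : ∀ i j, p i ≠ r j := fun i j => g.injective.ne (by simp)
  have pp : ∀ i j, i ≠ j → p i ≠ p j := fun i j hij => g.injective.ne (by simpa using hij)
  have rr : ∀ i j, i ≠ j → r i ≠ r j := fun i j hij => g.injective.ne (by simpa using hij)
  let b1 : ℕ → Bool := fun v => if ∃ i, p i = v then decide (e v = -1)
    else if ∃ j, r j = v then decide (e v = 1) else a v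
  obtain ⟨b0, hb0, hσ⟩ := hd_reach h he (hg' _).1 (hg' _).1 hz b1 2
  have out : ∀ v, (∀ w, v ≠ g w) → b0 v = a v := by
    intro v hv
    rw [hb0 v (hv _) (hv _)]
    simp only [b1]
    rw [if_neg, if_neg]
    · rintro ⟨i, hi⟩; exact hv _ hi.symm
    · rintro ⟨i, hi⟩; exact hv _ hi.symm
  have bp : ∀ i, (if b0 (p i) then -e (p i) else e (p i)) = 1 := by
    intro i
    have e1 : b1 (p i) = decide (e (p i) = -1) := if_pos ⟨i, rfl⟩
    rw [hb0 (p i) (g.injective.ne (by simp)) (g.injective.ne (by simp)), e1]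
    have := he (p i) (hg' _).1
    revert this
    generalize e (p i) = t
    revert t
    decide
  have br : ∀ i, (if b0 (r i) then -e (r i) else e (r i)) = -1 := by
    intro i
    have e1 : b1 (r i) = decide (e (r i) = 1) :=
      (if_neg (by rintro ⟨j, hj⟩; exact pr _ _ hj)).trans (if_pos ⟨i, rfl⟩)
    rw [hb0 (r i) (g.injective.ne (by simp)) (g.injective.ne (by simp)), e1]
    have := he (r i) (hg' _).1
    revert this
    generalize e (r i) = t
    revert t
    decide
  let bb : Fin K × Fin K → ℕ → Bool := fun j => flip (flip b0 (p j.1)) (r j.2)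
  let pt : (Fin K × Fin K) × Bool → ℕ → Bool := fun q =>
    if q.2 then flip (flip (bb q.1) x) y else bb q.1
  have bbo : ∀ j v, v ≠ p j.1 → v ≠ r j.2 → bb j v = b0 v := fun j v h1 h2 =>
    (hd_flip_ne _ h2).trans (hd_flip_ne _ h1)
  have pto : ∀ q v, v ≠ x → v ≠ y → pt q v = bb q.1 v := by
    intro q v h1 h2
    simp only [pt]
    split_ifs
    · exact (hd_flip_ne _ h2).trans (hd_flip_ne _ h1)
    · rfl
  have σb : ∀ j, σ (bb j) = 2 := by
    intro j
    simp only [bb]
    rw [h _ (hg' _).1, h _ (hg' _).1, hd_flip_ne _ (pr _ _).symm, bp, br, hσ]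
    decide
  have upt : ∀ q, hdPt (u b0) (u (flip (flip b0 x) y)) (fun i => u (flip b0 (p i)))
      (fun i => u (flip b0 (r i))) q = u (pt q) := by
    rintro ⟨j, β⟩
    have e1 := hu _ (hg' (.inl (.inl j.1))).1 b0
    have e2 := hu _ (hg' (.inl (.inr j.2))).1 b0
    have e3 := hu _ (hg' (.inl (.inr j.2))).1 (flip b0 (p j.1))
    rw [hd_flip_ne _ (pr _ _).symm] at e3
    have e4 := hu x hx b0
    have e5 := hu y hy (flip b0 x)
    have e6 := hu x hx (bb j)
    have e7 := hu y hy (flip (bb j) x)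
    rw [hd_flip_ne _ hxy.symm] at e5 e7
    rw [bbo j x (gx _) (gx _)] at e6
    rw [bbo j y (gy _) (gy _)] at e7
    simp only at e1 e2 e3 e4 e5 e6 e7
    cases β
    · simp only [hdPt, pt, bb, p, r, Bool.false_eq_true, if_false] at *
      omega
    · simp only [hdPt, pt, bb, p, r, if_true] at *
      omega
  obtain ⟨j, hj⟩ := hH (u b0) (u (flip (flip b0 x) y)) (fun i => u (flip b0 (p i)))
    (fun i => u (flip b0 (r i))) (hU _) (hU _) (fun _ => hU _) (fun _ => hU _) (by
      intro q q' hq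
      rw [upt, upt] at hq
      by_contra hne
      have hD : ({p q.1.1, p q'.1.1, r q.1.2, r q'.1.2, x, y} : Finset ℕ).card ≤ 6 :=
        Finset.card_le_six
      have hoff : ∀ v, v ∉ ({p q.1.1, p q'.1.1, r q.1.2, r q'.1.2, x, y} : Finset ℕ) →
          pt q v = pt q' v := by
        intro v hv
        simp only [Finset.mem_insert, Finset.mem_singleton, not_or] at hv
        obtain ⟨v1, v2, v3, v4, v5, v6⟩ := hv
        rw [pto q v v5 v6, pto q' v v5 v6, bbo _ v v1 v3, bbo _ v v2 v4]
      by_cases c1 : q.1.1 = q'.1.1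
      · by_cases c2 : q.1.2 = q'.1.2
        · have c3 : q.2 ≠ q'.2 := fun c => hne (Prod.ext (Prod.ext c1 c2) c)
          have c4 : q.1 = q'.1 := Prod.ext c1 c2
          refine sep _ _ _ hD hoff x hx ?_ hq
          simp only [pt, c4]
          revert c3
          cases q.2 <;> cases q'.2 <;> simp [hd_flip_ne _ hxy, hd_flip_self]
        · refine sep _ _ _ hD hoff (r q.1.2) (hg' _).1 ?_ hq
          rw [pto q _ (gx _).symm (gy _).symm, pto q' _ (gx _).symm (gy _).symm,
            bbo q'.1 _ (pr _ _).symm (rr _ _ c2)]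
          simp only [bb]
          rw [hd_flip_self, hd_flip_ne _ (pr _ _).symm]
          simp
      · refine sep _ _ _ hD hoff (p q.1.1) (hg' _).1 ?_ hq
        rw [pto q _ (gx _).symm (gy _).symm, pto q' _ (gx _).symm (gy _).symm,
          bbo q'.1 _ (pp _ _ c1) (pr _ _)]
        simp only [bb]
        rw [hd_flip_ne _ (pr _ _), hd_flip_self]
        simp)
  rw [upt, upt] at hj
  have bx : bb j x = a x := (bbo j x (gx _) (gx _)).trans (out x gx)
  have by' : bb j y = a y := (bbo j y (gy _) (gy _)).trans (out y gy)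
  refine ⟨bb j, fun i hi => ?_, ?_⟩
  · have : ∀ w, i ≠ g w := fun w hw => (hg' w).2.1 (hw ▸ hi)
    exact (bbo j i (this _) (this _)).trans (out i this)
  · rw [hf, hf, joint _ bx by', hd, add_zero, σb]
    exact hj

end Pool.Agent.Lib.MP_79d702_lc.U2
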