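import Pool.Agent.Lib.MP_79d702_lc.U2.State

/-!
Degrees, the potential, elementary circuit operations and the reduced situation.
-/

namespace Pool.Agent.Lib.MP_79d702_lc.U2

/-- `v` is a node: the constant, a variable or a gate -/
def Node (s : FS) (C : Ckt) (v : ℕ) : Prop := v = 0 ∨ v ∈ s.X ∨ v ∈ C.G

/-- number of wires leaving `v`; the output counts as a wire -/
def Ckt.deg (C : Ckt) (v : ℕ) : ℕ :=
  ((C.G ×ˢ (Finset.univ : Finset Bool)).filter fun w => (C.inp w.1 w.2).1 = v).card +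
    if C.out.1 = v then 1 else 0

/-- number of inputs of the gate `g` that come from `v` -/
def Ckt.slots (C : Ckt) (g v : ℕ) : ℕ :=
  if g ∈ C.G then (if (C.inp g false).1 = v then 1 else 0) + (if (C.inp g true).1 = v then 1 else 0)
  else 0

/-- credit of a variable of degree `d` -/
def cr (d : ℕ) : ℕ := if d ≤ 1 then 100 else if d = 2 then 3 else 0

def credit (s : FS) (C : Ckt) : ℕ := ∑ x ∈ s.X, cr (C.deg x)

/-- some gate computes a constant -/
def ConstGate (C : Ckt) (V : (ℕ → Bool) → ℕ → Bool) : Prop := ∃ g ∈ C.G, ∃ c, ∀ a, V a g = c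

/-- variables of degree one whose gate does not read the constant node -/
def Degen (s : FS) (C : Ckt) : Finset ℕ :=
  s.X.filter fun x => C.deg x ≤ 1 ∧ ∃ g ∈ C.G, ∃ i, (C.inp g i).1 = x ∧ (C.inp g (!i)).1 ≠ 0

open Classical in
noncomputable def beta (s : FS) (C : Ckt) (V : (ℕ → Bool) → ℕ → Bool) : ℕ :=
  if ConstGate C V then 100 else 33 * min 2 (Degen s C).card

def Ckt.rsum (C : Ckt) : ℕ :=
  ∑ g ∈ C.G, ∑ i : Bool, if (C.inp g i).1 ∈ C.G then C.rk (C.inp g i).1 + 1 else 0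

/-- a move to a smaller situation that lowers `100 * size - credit - beta` by `501` per variable -/
def Win (s : FS) (C : Ckt) (V : (ℕ → Bool) → ℕ → Bool) : Prop :=
  ∃ s' C' V', Reach s s' ∧ Model s' C' V' ∧
    100 * C'.G.card + credit s C + beta s C V + 501 * s.X.card ≤
      100 * C.G.card + credit s' C' + beta s' C' V' + 501 * s'.X.card ∧
    (s'.X.card < s.X.card ∨ C'.G.card < C.G.card ∨ (C'.G.card = C.G.card ∧ C'.rsum < C.rsum))

/-- the reduced situation -/
structure Ctx (s : FS) (C : Ckt) (V : (ℕ → Bool) → ℕ → Bool) : Prop where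
  model : Model s C V
  big : 600 ≤ s.X.card
  p1 : ∀ s', Reach s s' → P1 s'
  p2 : P2 s
  nconst : ¬ ConstGate C V
  nz : ∀ g ∈ C.G, ∀ i, (C.inp g i).1 ≠ 0
  ne : ∀ g ∈ C.G, (C.inp g false).1 ≠ (C.inp g true).1
  live : ∀ g ∈ C.G, 1 ≤ C.deg g

def Core : Prop := ∀ s C V, Ctx s C V → Win s C V

/-- replace the node `g` by the literal `l` inside a literal -/
def subst (g : ℕ) (l k : ℕ × Bool) : ℕ × Bool := if k.1 = g then (l.1, l.2 ^^ k.2) else k

/-- delete `g` and feed the literal `l` to its successors -/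
def Ckt.merge (C : Ckt) (g : ℕ) (l : ℕ × Bool) : Ckt :=
  ⟨C.G.erase g, fun h i => subst g l (C.inp h i), C.rk, subst g l C.out⟩

/-- add the gate `w = l₀ ∧ l₁` just below the gate `h` -/
def Ckt.add (C : Ckt) (w h : ℕ) (l₀ l₁ : ℕ × Bool) : Ckt :=
  ⟨insert w C.G, fun g i => if g = w then (if i then l₁ else l₀) else C.inp g i,
    fun v => if v = w then 2 * C.rk h else 2 * C.rk v + 1, C.out⟩

def addV (V : (ℕ → Bool) → ℕ → Bool) (w : ℕ) (l₀ l₁ : ℕ × Bool) : (ℕ → Bool) → ℕ → Bool :=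
  fun a v => if v = w then lit (V a) l₀ && lit (V a) l₁ else V a v

/-- replace input `i` of the gate `g` by the literal `l` -/
def Ckt.rew (C : Ckt) (g : ℕ) (i : Bool) (l : ℕ × Bool) : Ckt :=
  ⟨C.G, fun h j => if h = g ∧ j = i then l else C.inp h j, C.rk, C.out⟩

def Ckt.setrk (C : Ckt) (g r : ℕ) : Ckt :=
  ⟨C.G, C.inp, fun v => if v = g then r else C.rk v, C.out⟩

/-- the node has depth at most `d` -/
inductive Early (C : Ckt) : ℕ → ℕ → Prop
  | base {d v : ℕ} : v ∉ C.G → Early C d v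
  | step {d g : ℕ} : g ∈ C.G → (∀ i, Early C d (C.inp g i).1) → Early C (d + 1) g

/-- the value of the node depends on at most `2 ^ d` variables -/
def Dep (V : (ℕ → Bool) → ℕ → Bool) (d v : ℕ) : Prop :=
  ∃ S : Finset ℕ, S.card ≤ 2 ^ d ∧ ∀ a b : ℕ → Bool, (∀ i ∈ S, a i = b i) → V a v = V b v

end Pool.Agent.Lib.MP_79d702_lc.U2
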