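import Pool.Agent.Lib.MP_79d702_lc.U2.Ops

/-!
Patterns: finite descriptions of a piece of a circuit, their matches, embeddings and refinements.
-/

namespace Pool.Agent.Lib.MP_79d702_lc.U2

def upd {α : Type} (f : ℕ → α) (u : ℕ) (v : α) : ℕ → α := fun w => if w = u then v else f w

def upd2 {α : Type} (f : ℕ → Bool → α) (g : ℕ) (i : Bool) (v : α) : ℕ → Bool → α :=
  fun h j => if h = g ∧ j = i then v else f h j

/-- a pattern on the nodes `0, …, n - 1`; an input or output entry `≥ n` means unknown -/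
structure AP where
  n : ℕ
  gate : ℕ → Bool
  dlo : ℕ → ℕ
  dex : ℕ → Bool
  dep : ℕ → ℕ
  sg : ℕ → ℕ
  ng : ℕ → Bool
  inp : ℕ → Bool → ℕ
  pol : ℕ → Bool → Bool
  lb : ℕ → Bool → ℕ
  nf : ℕ → Bool → ℕ → Bool
  out : ℕ

/-- a pattern with derived data -/
structure AX extends AP where
  kd : ℕ → ℕ
  cn : ℕ → ℕ → Bool
  z1 : ℕ
  z2 : ℕ
  full : Bool

/-- placement of a pattern: nodes, negation of a node, swap of the two inputs, global sign -/
structure Asg where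
  φ : ℕ → ℕ
  fl : ℕ → Bool
  sw : ℕ → Bool
  ε : Bool

/-- the node of the circuit that feeds input `i` of the pattern gate `g` -/
def Asg.src (E : Asg) (C : Ckt) (g : ℕ) (i : Bool) : ℕ := (C.inp (E.φ g) (i ^^ E.sw g)).1

structure Match (A : AP) (s : FS) (C : Ckt) (E : Asg) : Prop where
  inj : ∀ u < A.n, ∀ v < A.n, E.φ u = E.φ v → u = v
  var : ∀ u < A.n, A.gate u = false → E.φ u ∈ s.X
  gat : ∀ u < A.n, A.gate u = true → E.φ u ∈ C.G
  wire : ∀ g < A.n, A.gate g = true → ∀ i, A.inp g i < A.n →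
    C.inp (E.φ g) (i ^^ E.sw g) = (E.φ (A.inp g i), A.pol g i ^^ E.fl (A.inp g i))
  flg : ∀ g < A.n, A.gate g = true → ∀ i, A.inp g i < A.n → E.fl g = A.ng g
  dlo : ∀ u < A.n, A.dlo u ≤ C.deg (E.φ u)
  dex : ∀ u < A.n, A.dex u = true → C.deg (E.φ u) ≤ A.dlo u
  dep : ∀ u < A.n, A.dep u ≤ 9 → Early C (A.dep u) (E.φ u)
  sg : ∀ u < A.n, A.gate u = false → A.sg u ≤ 1 →
    s.sg (E.φ u) = (decide (A.sg u = 1) ^^ E.fl u ^^ E.ε)
  lb : ∀ g < A.n, A.gate g = true → ∀ i, E.src C g i ∈ s.X →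
    A.lb g i ≤ C.deg (E.src C g i) ∧ A.lb g i < 9
  nf : ∀ g < A.n, A.gate g = true → ∀ i, ∀ v < A.n, A.nf g i v = true → E.src C g i ≠ E.φ v
  out : A.out < A.n → C.out.1 = E.φ A.out

/-- number of known wires leaving `u` -/
def AP.kdS (A : AP) (u : ℕ) : ℕ :=
  ((Finset.range A.n ×ˢ (Finset.univ : Finset Bool)).filter
    fun w => A.gate w.1 = true ∧ A.inp w.1 w.2 = u).card + if A.out = u then 1 else 0

structure MatchX (Q : AX) (s : FS) (C : Ckt) (E : Asg) : Prop extends Match Q.toAP s C E where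
  n63 : Q.n ≤ 63
  wfi : ∀ g < Q.n, Q.gate g = true → ∀ i, Q.inp g i < Q.n ∨ Q.inp g i = 63
  wfo : Q.out < Q.n ∨ Q.out = 63
  kd : ∀ u < Q.n, Q.kd u = Q.toAP.kdS u
  nfw : ∀ g < Q.n, ∀ i v, Q.n ≤ v → Q.nf g i v = false
  cnw : ∀ g < Q.n, ∀ v, Q.n ≤ v → Q.cn g v = false
  cn : ∀ v < Q.n, ∀ h < Q.n, Q.cn v h = true → E.φ v ∈ C.G ∧ C.rk (E.φ h) ≤ C.rk (E.φ v)
  full : Q.full = true → ∀ x ∈ s.X, C.deg x ≤ 1 →
    (Q.z1 < Q.n ∧ E.φ Q.z1 = x) ∨ (Q.z2 < Q.n ∧ E.φ Q.z2 = x)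

def Holds (tag : ℕ) (A : AP) : Prop :=
  ∀ s C V E, Ctx s C V → (Degen s C).card ≤ tag → Match A s C E → Win s C V

def HoldsX (tag : ℕ) (Q : AX) : Prop :=
  ∀ s C V E, Ctx s C V → (Degen s C).card ≤ tag → MatchX Q s C E → Win s C V

/-- all wires leaving `v` are known -/
def AX.Closed (Q : AX) (v : ℕ) : Prop := Q.dex v = true ∧ Q.dlo v ≤ Q.kd v

/-- `v` is a variable of degree one -/
def AX.Dgn (Q : AX) (v : ℕ) : Prop := v < Q.n ∧ Q.gate v = false ∧ Q.dex v = true ∧ Q.dlo v ≤ 1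

/-- the negation flag `o` is possible for the gate `h` -/
def AX.Flag (Q : AX) (h : ℕ) (o : Bool) : Prop :=
  (Q.n ≤ Q.inp h false ∧ Q.n ≤ Q.inp h true) ∨ o = Q.ng h

/-- input `i` of the gate `h` does not come from `v` -/
def AX.Excl (Q : AX) (h : ℕ) (i : Bool) (v : ℕ) : Prop :=
  Q.nf h i v = true ∨ (Q.inp h i < Q.n ∧ Q.inp h i ≠ v) ∨ (Q.n ≤ Q.inp h i ∧ Q.Closed v) ∨
    Q.inp h (!i) = v ∨ Q.cn v h = true ∨ (Q.Dgn (Q.inp h (!i)) ∧ Q.dep v ≤ 9) ∨
    (Q.gate v = false ∧ (9 ≤ Q.lb h i ∨ (Q.dex v = true ∧ Q.dlo v < Q.lb h i)))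

/-- `L` sits inside `Q` -/
structure Emb (L : AP) (Q : AX) (m : ℕ → ℕ) (f w : ℕ → Bool) (e : Bool) : Prop where
  lt : ∀ u < L.n, m u < Q.n
  inj : ∀ u < L.n, ∀ v < L.n, m u = m v → u = v
  gate : ∀ u < L.n, Q.gate (m u) = L.gate u
  dlo : ∀ u < L.n, L.dlo u ≤ Q.dlo (m u)
  dex : ∀ u < L.n, L.dex u = true → Q.dex (m u) = true ∧ Q.dlo (m u) ≤ L.dlo u
  dep : ∀ u < L.n, Q.dep (m u) ≤ L.dep u
  sg : ∀ u < L.n, L.gate u = false → L.sg u ≤ 1 →
    Q.sg (m u) ≤ 1 ∧ decide (Q.sg (m u) = 1) = (decide (L.sg u = 1) ^^ f u ^^ e)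
  wire : ∀ g < L.n, L.gate g = true → ∀ i, L.inp g i < L.n →
    Q.inp (m g) (i ^^ w g) = m (L.inp g i) ∧
    Q.pol (m g) (i ^^ w g) = (L.pol g i ^^ f (L.inp g i)) ∧ f g = (L.ng g ^^ Q.ng (m g))
  lb : ∀ g < L.n, L.gate g = true → ∀ i, L.lb g i ≤ Q.lb (m g) (i ^^ w g)
  nf : ∀ g < L.n, L.gate g = true → ∀ i, ∀ v < L.n, L.nf g i v = true →
    Q.Excl (m g) (i ^^ w g) (m v)
  out : L.out < L.n → Q.out = m L.out

def AP.load (A : AP) : AX :=
  { A with kd := A.kdS, cn := fun v h => A.gate v && decide (h = v) && decide (v < A.n),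
           z1 := 63, z2 := 63, full := false }

/-- a new node with number `Q.n`: a gate if `k`, else a variable -/
def AX.new (Q : AX) (k : Bool) : AX :=
  { Q with
    n := Q.n + 1, gate := upd Q.gate Q.n k, dlo := upd Q.dlo Q.n 1, dex := upd Q.dex Q.n false,
    dep := upd Q.dep Q.n (if k then 15 else 0), sg := upd Q.sg Q.n 2, ng := upd Q.ng Q.n false,
    inp := upd Q.inp Q.n fun _ => 63, pol := upd Q.pol Q.n fun _ => false,
    lb := upd Q.lb Q.n fun _ => 1, nf := upd Q.nf Q.n fun _ _ => false,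
    kd := upd Q.kd Q.n 0, cn := upd Q.cn Q.n fun h => k && decide (h = Q.n) }

/-- the degree bound of `u` after one more wire, into input `i` of `h` -/
def AX.cdeg (Q : AX) (u h : ℕ) (i : Bool) : ℕ :=
  max (max (Q.dlo u) (Q.kd u + 1)) (if Q.gate u then 0 else Q.lb h i)

/-- input `i` of `h` comes from `u` with polarity `p`; `h` has negation flag `o` -/
def AX.conn (Q : AX) (u h : ℕ) (i o p : Bool) : AX :=
  { Q with
    inp := upd2 Q.inp h i u, pol := upd2 Q.pol h i p, ng := upd Q.ng h o,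
    kd := upd Q.kd u (Q.kd u + 1), dlo := upd Q.dlo u (Q.cdeg u h i),
    lb := upd2 Q.lb h i (if Q.gate u then 9 else min (Q.cdeg u h i) 8),
    cn := upd Q.cn h fun v => Q.cn h v || Q.cn u v }

def AX.exact (Q : AX) (u d : ℕ) : AX := { Q with dlo := upd Q.dlo u d, dex := upd Q.dex u true }

def AX.raise (Q : AX) (u d : ℕ) : AX := { Q with dlo := upd Q.dlo u d }

def AX.setOut (Q : AX) (u : ℕ) : AX :=
  { Q with out := u, kd := upd Q.kd u (Q.kd u + 1),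
           dlo := upd Q.dlo u (max (Q.dlo u) (Q.kd u + 1)) }

def AX.setLb (Q : AX) (g : ℕ) (i : Bool) (l : ℕ) : AX := { Q with lb := upd2 Q.lb g i l }

def AX.setNf (Q : AX) (g : ℕ) (i : Bool) (v : ℕ) : AX :=
  { Q with nf := upd2 Q.nf g i (upd (Q.nf g i) v true) }

def AX.setSg (Q : AX) (u b : ℕ) : AX := { Q with sg := upd Q.sg u b }

def AX.setDep (Q : AX) (u d : ℕ) : AX := { Q with dep := upd Q.dep u d }

def AX.joinCn (Q : AX) (h u : ℕ) : AX := { Q with cn := upd Q.cn h fun v => Q.cn h v || Q.cn u v }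

def AX.setFull (Q : AX) (a b : ℕ) : AX := { Q with z1 := a, z2 := b, full := true }

/-- sound local deductions -/
inductive Step (tag : ℕ) (Q : AX) : AX → Prop
  | down (g : ℕ) (i : Bool) : g < Q.n → Q.gate g = true → Q.dep g ≤ 9 → Q.inp g i < Q.n →
      Step tag Q (Q.setDep (Q.inp g i) (min (Q.dep (Q.inp g i)) (Q.dep g - 1)))
  | up (g : ℕ) : g < Q.n → Q.gate g = true → Q.inp g false < Q.n → Q.inp g true < Q.n →
      Step tag Q (Q.setDep g
        (min (Q.dep g) (max (Q.dep (Q.inp g false)) (Q.dep (Q.inp g true)) + 1)))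
  | lb9 (g : ℕ) (i : Bool) : g < Q.n → Q.gate g = true → Q.Dgn (Q.inp g (!i)) →
      Step tag Q (Q.setLb g i 9)
  | lbr (g : ℕ) (i : Bool) : g < Q.n → Q.gate g = true → Q.inp g i < Q.n →
      Step tag Q (Q.setLb g i (if Q.gate (Q.inp g i) then 9 else min (Q.dlo (Q.inp g i)) 8))
  | cn (g : ℕ) (i : Bool) : g < Q.n → Q.gate g = true → Q.inp g i < Q.n →
      Step tag Q (Q.joinCn g (Q.inp g i))
  | full (a b : ℕ) : (tag = 0 ∨ (tag = 1 ∧ Q.Dgn a) ∨ (tag = 2 ∧ Q.Dgn a ∧ Q.Dgn b ∧ a ≠ b)) →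
      Step tag Q (Q.setFull a b)
  | vlo (x : ℕ) : Q.full = true → x < Q.n → Q.gate x = false → x ≠ Q.z1 → x ≠ Q.z2 →
      Step tag Q (Q.raise x (max (Q.dlo x) 2))
  | lb2 (g : ℕ) (i : Bool) : Q.full = true → g < Q.n → Q.gate g = true →
      (Q.n ≤ Q.z1 ∨ Q.Excl g i Q.z1) → (Q.n ≤ Q.z2 ∨ Q.Excl g i Q.z2) →
      Step tag Q (Q.setLb g i (max (Q.lb g i) 2))

/-- patterns that never match in the reduced situation -/
inductive Bad (Q : AX) : Prop
  | dep0 (g : ℕ) : g < Q.n → Q.gate g = true → Q.dep g = 0 → Bad Q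
  | outE : Q.out < Q.n → Q.dep Q.out ≤ 9 → Bad Q
  | outI (i : Bool) : Q.out < Q.n → Q.gate Q.out = true → Q.inp Q.out i < Q.n →
      Q.dep (Q.inp Q.out i) ≤ 9 → Bad Q
  | sel (g : ℕ) (i : Bool) : g < Q.n → Q.gate g = true → Q.Dgn (Q.inp g i) →
      (Q.dep g ≤ 9 ∨ (Q.inp g (!i) < Q.n ∧ Q.dep (Q.inp g (!i)) ≤ 9)) → Bad Q
  | many (x : ℕ) : Q.full = true → Q.Dgn x → x ≠ Q.z1 → x ≠ Q.z2 → Bad Q

/-- the start patterns: gates `0, 1, 2` of depth at most `1, 2, 3` in a chain, variables `3, 4` -/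
def rootAP (p q : Bool) : AP where
  n := 5
  gate := fun u => decide (u < 3)
  dlo := fun _ => 1
  dex := fun _ => false
  dep := fun u => if u < 3 then u + 1 else 0
  sg := fun _ => 2
  ng := fun _ => false
  inp := fun g i => if g = 0 then (if i then 4 else 3) else if i then 63 else g - 1
  pol := fun g i => if i then false else if g = 1 then p else if g = 2 then q else false
  lb := fun _ _ => 0
  nf := fun _ _ _ => false
  out := 63

end Pool.Agent.Lib.MP_79d702_lc.U2
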