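import Mathlib

/-!
Subfunctions reached by fixing variables and by identifying two variables, the two hardness
properties used by gate elimination, and AND-inverter circuits with an explicit valuation.
-/

namespace Pool.Agent.Lib.MP_79d702_lc.U2

/-- flip the variable `x` -/
def flip (a : ℕ → Bool) (x : ℕ) : ℕ → Bool := Function.update a x (!a x)

/-- a function of the variables in `X`; every variable has a sign and a weight -/
structure FS where
  X : Finset ℕ
  sg : ℕ → Bool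
  wt : ℕ → ℕ
  f : (ℕ → Bool) → Bool

/-- substitute the constant `c` for `x` -/
def FS.fix (s : FS) (x : ℕ) (c : Bool) : FS :=
  ⟨s.X.erase x, s.sg, s.wt, fun a => s.f (Function.update a x c)⟩

/-- substitute `y` (equal signs) or its negation (different signs) for `x` -/
def FS.proj (s : FS) (x y : ℕ) : FS :=
  ⟨s.X.erase x, Function.update s.sg y (!s.sg y), Function.update s.wt y (s.wt x + s.wt y),
    fun a => s.f (Function.update a x (a y ^^ (s.sg x ^^ s.sg y)))⟩

inductive Reach (s₀ : FS) : FS → Prop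
  | refl : Reach s₀ s₀
  | fix {s : FS} {x : ℕ} (c : Bool) : Reach s₀ s → x ∈ s.X → Reach s₀ (s.fix x c)
  | proj {s : FS} {x y : ℕ} : Reach s₀ s → x ∈ s.X → y ∈ s.X → x ≠ y → Reach s₀ (s.proj x y)

/-- two further variables always suffice to make the function sensitive to `x` -/
def P1 (s : FS) : Prop :=
  ∀ x ∈ s.X, ∀ y ∈ s.X, ∀ z ∈ s.X, x ≠ y → x ≠ z → y ≠ z → ∀ a : ℕ → Bool,
    ∃ b : ℕ → Bool, (∀ i, i ≠ y → i ≠ z → b i = a i) ∧ s.f b ≠ s.f (flip b x)

/-- a joint flip of two variables is visible on every subcube of bounded codimension -/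
def P2 (s : FS) : Prop :=
  ∀ x ∈ s.X, ∀ y ∈ s.X, x ≠ y → ∀ A : Finset ℕ, A.card ≤ 64 → ∀ a : ℕ → Bool,
    ∃ b : ℕ → Bool, (∀ i ∈ A, b i = a i) ∧ s.f b ≠ s.f (flip (flip b x) y)

def Hard (s₀ : FS) (W N : ℕ) : Prop :=
  ∀ s, Reach s₀ s → P1 s ∧ ((∀ x ∈ s.X, s.wt x ≤ W) → N ≤ s.X.card → P2 s)

/-- the start state of a function `F` of `m` bits; its variables are `1, …, m` -/
def start (m : ℕ) (F : List Bool → Bool) : FS :=
  ⟨Finset.Icc 1 m, fun _ => false, fun _ => 1, fun a => F (List.ofFn fun i : Fin m => a (i.val + 1))⟩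

/-- value of a literal (node, negation flag) -/
def lit (v : ℕ → Bool) (l : ℕ × Bool) : Bool := v l.1 ^^ l.2

/-- an AND-inverter circuit: node `0` is the constant `false`, `G` is the set of AND gates -/
structure Ckt where
  G : Finset ℕ
  inp : ℕ → Bool → ℕ × Bool
  rk : ℕ → ℕ
  out : ℕ × Bool

/-- `C` is a circuit in the variables of `s`, `V a` lists the values of its nodes on the input `a`,
and the output is `s.f`. -/
structure Model (s : FS) (C : Ckt) (V : (ℕ → Bool) → ℕ → Bool) : Prop where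
  zx : 0 ∉ s.X
  zg : 0 ∉ C.G
  dis : ∀ x ∈ s.X, x ∉ C.G
  src : ∀ g ∈ C.G, ∀ i, (C.inp g i).1 = 0 ∨ (C.inp g i).1 ∈ s.X ∨ (C.inp g i).1 ∈ C.G
  rk : ∀ g ∈ C.G, ∀ i, (C.inp g i).1 ∈ C.G → C.rk (C.inp g i).1 < C.rk g
  osrc : C.out.1 = 0 ∨ C.out.1 ∈ s.X ∨ C.out.1 ∈ C.G
  v0 : ∀ a, V a 0 = false
  vx : ∀ a, ∀ x ∈ s.X, V a x = a x
  vg : ∀ a, ∀ g ∈ C.G, V a g = (lit (V a) (C.inp g false) && lit (V a) (C.inp g true))
  vout : ∀ a, lit (V a) C.out = s.f a

/-- the gate-elimination bound -/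
def Bound : Prop :=
  ∀ (s : FS) (W N : ℕ) (C : Ckt) (V : (ℕ → Bool) → ℕ → Bool), 0 < W → Hard s W N → Model s C V →
    W * (501 * s.X.card) ≤ W * (100 * C.G.card) + 701 * ∑ x ∈ s.X, s.wt x + W * (601 * (N + 600))

end Pool.Agent.Lib.MP_79d702_lc.U2
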