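import Pool.Agent.Lib.MP_79d702_lc.U2.V2S
import Pool.Agent.Lib.MP_79d702_lc.U2.LanesA

/-!
Basic facts about packed states.
-/

namespace Pool.Agent.Lib.MP_79d702_lc.U2.V2

theorem ok_ne {e x : ℕ} (h : ok e x ≠ 0) : e = 0 ∧ x ≠ 0 := by
  cases e with
  | zero => exact ⟨rfl, h⟩
  | succ e => exact absurd rfl h

theorem ok_zero (x : ℕ) : ok 0 x = x := rfl

theorem sel_eq (b : Bool) (x y : ℕ) : sel b x y = if b = true then x else y := by
  cases b <;> rfl

theorem lor_eq_zero {a b : ℕ} : a.lor b = 0 ↔ a = 0 ∧ b = 0 := Nat.or_eq_zero_iff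

theorem xor_eq_zero {a b : ℕ} : a.xor b = 0 ↔ a = b := Nat.xor_eq_zero_iff

theorem shr_ne {x k : ℕ} (h : x.shiftRight k ≠ 0) : x ≠ 0 := by
  rintro rfl
  exact h (Nat.zero_shiftRight k)

theorem msk_eq (k : ℕ) : msk k = 2 ^ k - 1 := congrArg (fun x => x - 1) (one_eq k)

theorem testBit_msk (k i : ℕ) : (msk k).testBit i = decide (i < k) := by
  rw [msk_eq, Nat.testBit_two_pow_sub_one]

theorem testBit_one (k i : ℕ) : (one k).testBit i = decide (i = k) := by
  rw [one_eq, Nat.testBit_two_pow]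
  exact decide_eq_decide.mpr eq_comm

/-- inclusion test -/
theorem sub_of_cov {a c : ℕ} (h : (a.land c).xor a = 0) {i : ℕ} (hi : a.testBit i = true) :
    c.testBit i = true := by
  have h1 : a &&& c = a := xor_eq_zero.mp h
  have h2 := congrArg (fun x => x.testBit i) h1
  simp only [Nat.testBit_and, hi, Bool.true_and] at h2
  exact h2

theorem o128_eq : o128 = tab 128 (fun _ => 1) 64 := by decide +kernel

theorem o64_eq : o64 = tab 64 (fun _ => 1) 128 := by decide +kernel

theorem on1_eq {n : ℕ} (hn : n ≤ 64) : on1 n = tab 128 (fun u => (decide (u < n)).toNat) 64 := by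
  change o128 &&& msk (n * 128) = _
  refine LA.ext_lane (s := 128) (by norm_num) fun j v hv => ?_
  rw [Nat.testBit_and, o128_eq, testBit_msk, LA.testBit_tab (fun _ _ => by norm_num) j hv,
    LA.testBit_tab (fun _ _ => LA.toNat_lt _ (by norm_num)) j hv, LA.testBit_toNat,
    show (1 : ℕ) = true.toNat from rfl, LA.testBit_toNat]
  have h1 : 128 * j + v < n * 128 ↔ j < n := by omega
  simp only [h1]
  cases decide (j < 64) <;> cases decide (j < n) <;> cases decide (v = 0) <;> rfl

theorem on2_eq {n : ℕ} (hn : n ≤ 64) :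
    on2 n = tab 64 (fun j => (decide (j < 2 * n)).toNat) 128 := by
  change o64 &&& msk (n * 128) = _
  refine LA.ext_lane (s := 64) (by norm_num) fun j v hv => ?_
  rw [Nat.testBit_and, o64_eq, testBit_msk, LA.testBit_tab (fun _ _ => by norm_num) j hv,
    LA.testBit_tab (fun _ _ => LA.toNat_lt _ (by norm_num)) j hv, LA.testBit_toNat,
    show (1 : ℕ) = true.toNat from rfl, LA.testBit_toNat]
  have h1 : 64 * j + v < n * 128 ↔ j < 2 * n := by omega
  simp only [h1]
  cases decide (j < 128) <;> cases decide (j < 2 * n) <;> cases decide (v = 0) <;> rfl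

theorem a_cmp_tab (c : ℕ → Bool) :
    cmp (tab 128 (fun u => (c u).toNat) 64) = tab 1 (fun u => (c u).toNat) 64 := by
  have h0 : tab 1 (fun u => (c u).toNat) 64 < 2 ^ (1 * 64) :=
    tab_lt fun _ _ => LA.toNat_lt _ Nat.one_pos
  have h1 : 2 ^ 128 ≡ 2 ^ 1 [MOD 170141183460469231731687303715884105727] := by
    unfold Nat.ModEq
    norm_num
  have h2 : ∑ j ∈ Finset.range 64, (c j).toNat * 2 ^ (128 * j) ≡
      ∑ j ∈ Finset.range 64, (c j).toNat * 2 ^ (1 * j)
      [MOD 170141183460469231731687303715884105727] := by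
    refine Nat.ModEq.sum fun j _ => ?_
    have := (h1.pow j).mul_left (c j).toNat
    rwa [← pow_mul, ← pow_mul] at this
  change _ % 170141183460469231731687303715884105727 = _
  rw [LA.tab_sum (s := 128) fun _ _ => LA.toNat_lt _ (by norm_num), h2,
    ← LA.tab_sum (s := 1) fun _ _ => LA.toNat_lt _ Nat.one_pos]
  exact Nat.mod_eq_of_lt (h0.trans (by norm_num))

theorem a_and_o128 (x : ℕ) :
    x.land o128 = tab 128 (fun u => (x.testBit (128 * u)).toNat) 64 := by
  change x &&& o128 = _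
  rw [o128_eq]
  exact LA.and_sel (s := 128) (k := 64) (by norm_num) x fun _ => true

/-- `cmp` collects the flags of 64 lanes -/
theorem testBit_cmp (c : ℕ → Bool) (v : ℕ) :
    (cmp (tab 128 (fun u => (c u).toNat) 64)).testBit v = (decide (v < 64) && c v) := by
  have h := LA.testBit_tab (s := 1) (k := 64) (f := fun u => (c u).toNat)
    (fun _ _ => LA.toNat_lt _ Nat.one_pos) v Nat.one_pos
  rw [one_mul, add_zero, LA.testBit_toNat] at h
  rw [a_cmp_tab, h]
  simp

theorem testBit_cmp' (x v : ℕ) :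
    (cmp (x.land o128)).testBit v = (decide (v < 64) && x.testBit (128 * v)) := by
  rw [a_and_o128, testBit_cmp]

theorem cmp_lt (x : ℕ) : cmp (x.land o128) < 2 ^ 64 := by
  rw [a_and_o128, a_cmp_tab]
  exact tab_lt (s := 1) fun _ _ => LA.toNat_lt _ Nat.one_pos

/-! ### records -/

theorem rcd_G (R u : ℕ) : rcd R u = LA.G 128 128 R u := by
  unfold rcd LA.G
  rw [Nat.and_two_pow_sub_one_eq_mod, Nat.shiftRight_eq_div_pow, mul_comm u]

theorem ln_G (L j : ℕ) : ln L j = LA.G 64 64 L j := by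
  unfold ln LA.G
  rw [Nat.and_two_pow_sub_one_eq_mod, Nat.shiftRight_eq_div_pow, mul_comm j]

theorem rcd_lt (R u : ℕ) : rcd R u < 2 ^ 128 := Nat.mod_lt _ (Nat.two_pow_pos _)

theorem testBit_rcd (R u : ℕ) {p : ℕ} (hp : p < 128) :
    (rcd R u).testBit p = R.testBit (128 * u + p) := by
  rw [rcd_G, LA.testBit_G, decide_eq_true hp, Bool.true_and]

theorem testBit_ln (L j : ℕ) {p : ℕ} (hp : p < 64) :
    (ln L j).testBit p = L.testBit (64 * j + p) := by
  rw [ln_G, LA.testBit_G, decide_eq_true hp, Bool.true_and]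

theorem rcd_add (R u : ℕ) {c : ℕ} (h : rcd R u + c < 2 ^ 128) :
    rcd (R.add (c.shiftLeft (u.mul 128))) = upd (rcd R) u (rcd R u + c) := by
  funext j
  change rcd (R + c <<< (u * 128)) j = if j = u then _ else _
  rw [Nat.shiftLeft_eq, mul_comm u]
  unfold rcd at h ⊢
  rcases lt_trichotomy j u with hj | hj | hj
  · rw [if_neg hj.ne]
    obtain ⟨d, rfl⟩ := Nat.exists_eq_add_of_lt hj
    rw [show c * 2 ^ (128 * (j + d + 1)) = 2 ^ (128 * j) * (2 ^ 128 * (c * 2 ^ (128 * d))) by ring,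
      Nat.add_mul_div_left _ _ (Nat.two_pow_pos _)]
    exact Nat.add_mul_mod_self_left _ _ _
  · subst hj
    rw [if_pos rfl, Nat.add_mul_div_right _ _ (Nat.two_pow_pos _), ← Nat.mod_add_mod]
    exact Nat.mod_eq_of_lt h
  · rw [if_neg hj.ne']
    obtain ⟨d, rfl⟩ := Nat.exists_eq_add_of_lt hj
    rw [show 128 * (u + d + 1) = 128 * u + (128 + 128 * d) by ring, pow_add, pow_add,
      ← Nat.div_div_eq_div_mul, ← Nat.div_div_eq_div_mul, ← Nat.div_div_eq_div_mul,
      ← Nat.div_div_eq_div_mul, Nat.add_mul_div_right _ _ (Nat.two_pow_pos _)]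
    generalize R / 2 ^ (128 * u) = a at h ⊢
    have : (a + c) / 2 ^ 128 = a / 2 ^ 128 := by omega
    rw [this]

theorem a_shl (c u p : ℕ) : c.shiftLeft (128 * u + p) = (c * 2 ^ p).shiftLeft (u.mul 128) := by
  change c <<< (128 * u + p) = (c * 2 ^ p) <<< (u * 128)
  rw [Nat.shiftLeft_eq, Nat.shiftLeft_eq]
  ring

/-- addition at the position `p` of the record `u` -/
theorem rcd_add' (R u p : ℕ) {c : ℕ} (h : rcd R u + c * 2 ^ p < 2 ^ 128) :
    rcd (R.add (c.shiftLeft (128 * u + p))) = upd (rcd R) u (rcd R u + c * 2 ^ p) := by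
  rw [← rcd_add R u h, a_shl]

theorem rcd_xor (R u : ℕ) {c : ℕ} (h : c < 2 ^ 128) :
    rcd (R.xor (c.shiftLeft (u.mul 128))) = upd (rcd R) u (rcd R u ^^^ c) := by
  funext j
  change rcd (R ^^^ c <<< (u * 128)) j = if j = u then _ else _
  rw [rcd_G, LA.G_xor_shl le_rfl h, Nat.mod_eq_of_lt h, rcd_G, rcd_G]

theorem rcd_xor' (R u p : ℕ) {c : ℕ} (h : c * 2 ^ p < 2 ^ 128) :
    rcd (R.xor (c.shiftLeft (128 * u + p))) = upd (rcd R) u (rcd R u ^^^ c * 2 ^ p) := by
  rw [← rcd_xor R u h, a_shl]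

theorem rcd_lor (R u : ℕ) {c : ℕ} (h : c < 2 ^ 128) :
    rcd (R.lor (c.shiftLeft (u.mul 128))) = upd (rcd R) u (rcd R u ||| c) := by
  funext j
  change rcd (R ||| c <<< (u * 128)) j = if j = u then _ else _
  refine Nat.eq_of_testBit_eq fun v => ?_
  by_cases hv : v < 128
  · rw [testBit_rcd _ _ hv, Nat.testBit_or, LA.testBit_shl h hv]
    split_ifs with hj
    · subst hj
      rw [Nat.testBit_or, testBit_rcd _ _ hv, decide_eq_true rfl, Bool.true_and]
    · rw [testBit_rcd _ _ hv, decide_eq_false hj, Bool.false_and, Bool.or_false]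
  · rw [LA.testBit_of_lt (rcd_lt _ _) (not_lt.mp hv)]
    split_ifs with hj
    · exact (LA.testBit_of_lt (Nat.or_lt_two_pow (rcd_lt _ _) h) (not_lt.mp hv)).symm
    · exact (LA.testBit_of_lt (rcd_lt _ _) (not_lt.mp hv)).symm

/-- overwriting the field of width `w` at position `p` -/
theorem xor_field (r p w : ℕ) {v : ℕ} (hv : v < 2 ^ w) :
    (r ^^^ ((r / 2 ^ p % 2 ^ w) ^^^ v) * 2 ^ p) + (r / 2 ^ p % 2 ^ w) * 2 ^ p =
      r + v * 2 ^ p := by
  have h0 : r ^^^ ((r / 2 ^ p % 2 ^ w) ^^^ v) * 2 ^ p =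
      2 ^ p * (2 ^ w * (r / 2 ^ p / 2 ^ w) + v) + r % 2 ^ p := by
    refine Nat.eq_of_testBit_eq fun j => ?_
    rw [Nat.testBit_xor, Nat.testBit_mul_two_pow, Nat.testBit_xor, Nat.testBit_mod_two_pow,
      Nat.testBit_div_two_pow,
      Nat.testBit_two_pow_mul_add _ (Nat.mod_lt _ (Nat.two_pow_pos p)),
      Nat.testBit_two_pow_mul_add _ hv, Nat.testBit_mod_two_pow, Nat.testBit_div_two_pow,
      Nat.testBit_div_two_pow]
    by_cases h1 : j < p
    · simp [h1, not_le.mpr h1]
    · have h2 : p ≤ j := not_lt.mp h1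
      have h3 : j - p + p = j := by omega
      by_cases h4 : j - p < w
      · simp [h1, h2, h3, h4]
      · have h5 : j - p - w + w + p = j := by omega
        simp [h1, h2, h4, h5, LA.testBit_of_lt hv (not_lt.mp h4)]
  have h1 := Nat.div_add_mod r (2 ^ p)
  have h2 := Nat.div_add_mod (r / 2 ^ p) (2 ^ w)
  rw [h0]
  generalize r / 2 ^ p / 2 ^ w = a at h2 ⊢
  generalize r / 2 ^ p % 2 ^ w = b at h2 ⊢
  generalize r % 2 ^ p = c at h1 ⊢
  rw [← h2] at h1
  rw [← h1]
  ring

theorem a_fld (R u : ℕ) {p w : ℕ} (h : p + w ≤ 128) :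
    (R >>> (128 * u + p)) &&& (2 ^ w - 1) = rcd R u / 2 ^ p % 2 ^ w := by
  refine Nat.eq_of_testBit_eq fun v => ?_
  rw [Nat.testBit_and, Nat.testBit_two_pow_sub_one, Nat.testBit_shiftRight,
    Nat.testBit_mod_two_pow, Nat.testBit_div_two_pow, Bool.and_comm]
  by_cases hv : v < w
  · rw [testBit_rcd R u (by omega : v + p < 128), add_assoc, add_comm p v]
  · simp [hv]

/-- reading `w` bits at position `p` of the record `u` -/
theorem rc_field (R u : ℕ) {p w : ℕ} (h : p + w ≤ 128) :
    ((rc R u).shiftRight p).land (2 ^ w - 1) = rcd R u / 2 ^ p % 2 ^ w := by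
  change ((R >>> (u * 128)) >>> p) &&& (2 ^ w - 1) = _
  rw [← Nat.shiftRight_add, mul_comm u, a_fld R u h]

theorem rc_land (R u : ℕ) {c : ℕ} (h : c < 2 ^ 128) : (rc R u).land c = rcd R u &&& c := by
  change (R >>> (u * 128)) &&& c = _
  refine Nat.eq_of_testBit_eq fun v => ?_
  rw [Nat.testBit_and, Nat.testBit_and, Nat.testBit_shiftRight]
  by_cases hv : v < 128
  · rw [testBit_rcd R u hv, mul_comm u]
  · rw [LA.testBit_of_lt h (not_lt.mp hv), Bool.and_false, Bool.and_false]

theorem pos_eq (g : ℕ) (i : Bool) : pos (2 * g + i.toNat) = 128 * g + so i := by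
  change (2 * g + i.toNat) * 64 + 6 - ((2 * g + i.toNat) &&& 1) * 52 = _
  rw [Nat.and_one_is_mod]
  cases i
  · change (2 * g + 0) * 64 + 6 - (2 * g + 0) % 2 * 52 = 128 * g + 6
    omega
  · change (2 * g + 1) * 64 + 6 - (2 * g + 1) % 2 * 52 = 128 * g + 18
    omega

theorem a_slot_shr (g : ℕ) (i : Bool) : (2 * g + i.toNat).shiftRight 1 = g := by
  change (2 * g + i.toNat) >>> 1 = g
  have := Bool.toNat_le i
  rw [Nat.shiftRight_eq_div_pow]
  omega

theorem a_slot_xor (g : ℕ) (i : Bool) : (2 * g + i.toNat).xor 1 = 2 * g + (!i).toNat := by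
  change (2 * g + i.toNat) ^^^ 1 = _
  cases i
  · exact Nat.xor_one_of_even (even_two_mul g)
  · exact Nat.xor_one_of_odd (odd_two_mul_add_one g)

theorem a_slot_land (g : ℕ) (i : Bool) : (2 * g + i.toNat).land 1 = i.toNat := by
  change (2 * g + i.toNat) &&& 1 = _
  have := Bool.toNat_le i
  rw [Nat.and_one_is_mod]
  omega

/-- every slot number has the form `2 g + i` -/
theorem slot_eq (j : ℕ) : ∃ g, ∃ i : Bool, j = 2 * g + i.toNat ∧ j.shiftRight 1 = g ∧
    j.land 1 = i.toNat ∧ j.xor 1 = 2 * g + (!i).toNat := by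
  obtain ⟨g, i, rfl⟩ : ∃ g, ∃ i : Bool, j = 2 * g + i.toNat := by
    rcases Nat.mod_two_eq_zero_or_one j with h | h
    · exact ⟨j / 2, false, by change j = 2 * (j / 2) + 0; omega⟩
    · exact ⟨j / 2, true, by change j = 2 * (j / 2) + 1; omega⟩
  exact ⟨g, i, rfl, a_slot_shr g i, a_slot_land g i, a_slot_xor g i⟩

theorem slot_shr (g : ℕ) (i : Bool) : (2 * g + i.toNat).shiftRight 1 = g := a_slot_shr g i

theorem slot_xor (g : ℕ) (i : Bool) : (2 * g + i.toNat).xor 1 = 2 * g + (!i).toNat := a_slot_xor g i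

theorem slot_land (g : ℕ) (i : Bool) : (2 * g + i.toNat).land 1 = i.toNat := a_slot_land g i

theorem a_so_le (i : Bool) : so i ≤ 18 := by cases i <;> decide

theorem sl_field (R g : ℕ) (i : Bool) {p w : ℕ} (h : p + w ≤ 12) :
    ((sl R (2 * g + i.toNat)).shiftRight p).land (2 ^ w - 1) =
      rcd R g / 2 ^ (so i + p) % 2 ^ w := by
  change ((R >>> pos (2 * g + i.toNat)) >>> p) &&& (2 ^ w - 1) = _
  have := a_so_le i
  rw [← Nat.shiftRight_add, pos_eq, add_assoc, a_fld R g (by omega)]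

theorem a_mask {c : ℕ} (hc : c < 2 ^ 128) (k : ℕ) : (tab 128 (fun _ => c) 64).testBit k =
    (decide (k / 128 < 64) && c.testBit (k % 128)) := by
  have h := LA.testBit_tab (s := 128) (k := 64) (f := fun _ => c) (fun _ _ => hc) (k / 128)
    (Nat.mod_lt k (by norm_num : 0 < 128))
  rwa [Nat.div_add_mod] at h

theorem a_mR (k : ℕ) : mR.testBit k =
    (decide (k / 128 < 64) && decide (k % 128 < 6 ∨ (30 ≤ k % 128 ∧ k % 128 < 48))) := by
  have h1 : mR = tab 128 (fun _ => 281473902968895) 64 := by decide +kernel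
  have h2 : ∀ q < 128, Nat.testBit 281473902968895 q = decide (q < 6 ∨ (30 ≤ q ∧ q < 48)) := by
    decide +kernel
  rw [h1, a_mask (by norm_num), h2 _ (Nat.mod_lt k (by norm_num))]

theorem a_mA (k : ℕ) : mA.testBit k =
    (decide (k / 128 < 64) && decide (6 ≤ k % 128 ∧ k % 128 < 18)) := by
  have h1 : mA = tab 128 (fun _ => 262080) 64 := by decide +kernel
  have h2 : ∀ q < 128, Nat.testBit 262080 q = decide (6 ≤ q ∧ q < 18) := by decide +kernel
  rw [h1, a_mask (by norm_num), h2 _ (Nat.mod_lt k (by norm_num))]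

theorem a_mB (k : ℕ) : mB.testBit k =
    (decide (k / 128 < 64) && decide (18 ≤ k % 128 ∧ k % 128 < 30)) := by
  have h1 : mB = tab 128 (fun _ => 1073479680) 64 := by decide +kernel
  have h2 : ∀ q < 128, Nat.testBit 1073479680 q = decide (18 ≤ q ∧ q < 30) := by decide +kernel
  rw [h1, a_mask (by norm_num), h2 _ (Nat.mod_lt k (by norm_num))]

/-- the lanes of `sw R` -/
theorem sw_bit {R : ℕ} (hl : ∀ u, rcd R u < 2 ^ 48) {g : ℕ} (hg : g < 64) (i : Bool) {p : ℕ}
    (hp : p < 64) : (sw R).testBit (64 * (2 * g + i.toNat) + p) =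
      (rcd R g).testBit (if 6 ≤ p ∧ p < 18 then so i + (p - 6)
        else if 18 ≤ p ∧ p < 30 then so (!i) + (p - 18) else p) := by
  have hz : ∀ q, 48 ≤ q → (rcd R g).testBit q = false := fun q hq => LA.testBit_of_lt (hl g) hq
  change (((R ||| (R &&& mR) <<< 64) ||| (R &&& mA) <<< 76) ||| (R &&& mB) <<< 52).testBit _ = _
  rw [Nat.testBit_or, Nat.testBit_or, Nat.testBit_or, Nat.testBit_shiftLeft,
    Nat.testBit_shiftLeft, Nat.testBit_shiftLeft, Nat.testBit_and, Nat.testBit_and,
    Nat.testBit_and, a_mR, a_mA, a_mB]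
  cases i
  · have e : (if 6 ≤ p ∧ p < 18 then so false + (p - 6)
        else if 18 ≤ p ∧ p < 30 then so (!false) + (p - 18) else p) = p := by
      change (if 6 ≤ p ∧ p < 18 then 6 + (p - 6)
        else if 18 ≤ p ∧ p < 30 then 18 + (p - 18) else p) = p
      split_ifs <;> omega
    have e0 : 64 * (2 * g + false.toNat) + p = 128 * g + p := by
      change 64 * (2 * g + 0) + p = _
      omega
    rw [e, e0, testBit_rcd R g (by omega : p < 128)]
    have k1 : ∀ a b : Bool, ∀ P Q : Prop, [Decidable P] → [Decidable Q] → (P → ¬ Q) →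
        (decide P && (a && (b && decide Q))) = false := by
      intro a b P Q _ _ hPQ
      by_cases hP : P
      · simp [hPQ hP]
      · simp [hP]
    rw [k1 _ _ _ _ (by omega), k1 _ _ _ _ (by omega), k1 _ _ _ _ (by omega)]
    simp
  · have e0 : 64 * (2 * g + true.toNat) + p = 128 * g + (64 + p) := by
      change 64 * (2 * g + 1) + p = _
      omega
    have k1 : ∀ a b : Bool, ∀ P Q : Prop, [Decidable P] → [Decidable Q] → (P → ¬ Q) →
        (decide P && (a && (b && decide Q))) = false := by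
      intro a b P Q _ _ hPQ
      by_cases hP : P
      · simp [hPQ hP]
      · simp [hP]
    have k2 : ∀ a : Bool, ∀ P Q S : Prop, [Decidable P] → [Decidable Q] → [Decidable S] →
        P → Q → S → (decide P && (a && (decide S && decide Q))) = a := by
      intro a P Q S _ _ _ hP hQ hS
      simp [hP, hQ, hS]
    rw [e0, ← testBit_rcd R g (by omega : 64 + p < 128), hz _ (by omega), Bool.false_or]
    change _ = (rcd R g).testBit (if 6 ≤ p ∧ p < 18 then 18 + (p - 6)
        else if 18 ≤ p ∧ p < 30 then 6 + (p - 18) else p)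
    split_ifs with h1 h2
    · rw [k1 _ _ _ _ (by omega), k1 _ _ _ _ (by omega), k2 _ _ _ _ (by omega) (by omega) (by omega),
        testBit_rcd R g (by omega : 18 + (p - 6) < 128), Bool.false_or, Bool.false_or]
      congr 1
      omega
    · rw [k1 _ _ _ _ (by omega), k2 _ _ _ _ (by omega) (by omega) (by omega), k1 _ _ _ _ (by omega),
        testBit_rcd R g (by omega : 6 + (p - 18) < 128), Bool.false_or, Bool.or_false]
      congr 1
      omega
    · by_cases h3 : 48 ≤ p
      · rw [k1 _ _ _ _ (by omega), k1 _ _ _ _ (by omega), k1 _ _ _ _ (by omega), hz _ h3]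
        rfl
      · rw [k2 _ _ _ _ (by omega) (by omega) (by omega), k1 _ _ _ _ (by omega),
          k1 _ _ _ _ (by omega), testBit_rcd R g (by omega : p < 128), Bool.or_false, Bool.or_false]
        congr 1
        omega

section

variable {n R X D o f : ℕ}

theorem dlo_eq (u : ℕ) : (rc R u).land 15 = (abs n R X D o f).dlo u := by
  rw [rc_land R u (by norm_num)]
  exact Nat.and_two_pow_sub_one_eq_mod _ 4

theorem kdq_eq (u : ℕ) : kdq R u = (abs n R X D o f).kd u := rc_field R u (p := 40) (w := 8) (by norm_num)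

theorem lbq_eq (g : ℕ) (i : Bool) : lbq R (2 * g + i.toNat) = (abs n R X D o f).lb g i :=
  sl_field R g i (p := 8) (w := 4) (by norm_num)

theorem dc_eq (u : ℕ) : dc R u = rcd R u / 2 ^ 31 % 16 := rc_field R u (p := 31) (w := 4) (by norm_num)

theorem a_and_pow (r k : ℕ) : r &&& 2 ^ k = 2 ^ k ↔ r.testBit k = true := by
  rw [Nat.and_two_pow]
  have := Nat.two_pow_pos k
  cases r.testBit k
  · simp only [Bool.toNat_false, zero_mul, Bool.false_eq_true, iff_false]
    omega
  · simp

theorem a_and_pow0 (r k : ℕ) : r &&& 2 ^ k = 0 ↔ r.testBit k = false := by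
  rw [Nat.and_two_pow]
  cases r.testBit k <;> simp

theorem a_sl_bit (R g : ℕ) (i : Bool) :
    (sl R (2 * g + i.toNat)).testBit 1 = (rcd R g).testBit (so i + 1) := by
  change (R >>> pos (2 * g + i.toNat)).testBit 1 = _
  have := a_so_le i
  rw [Nat.testBit_shiftRight, pos_eq, testBit_rcd R g (by omega), add_assoc]

theorem nG_eq (g : ℕ) : nG R g = 0 ↔ (abs n R X D o f).gate g = true := by
  unfold nG
  rw [xor_eq_zero, rc_land R g (by norm_num)]
  exact a_and_pow (rcd R g) 30

theorem wf_lt_of_ne (W : Wf n R X D) {u : ℕ} (h : rcd R u ≠ 0) : u < n := by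
  by_contra hu
  exact h (W.top u (not_lt.mp hu))

theorem wf_gate_lt (W : Wf n R X D) {g : ℕ} (h : (abs n R X D o f).gate g = true) : g < n := by
  refine wf_lt_of_ne W fun h0 => ?_
  change (rcd R g).testBit 30 = true at h
  rw [h0, Nat.zero_testBit] at h
  exact Bool.false_ne_true h

/-- known means smaller than `n` -/
theorem wf_known (W : Wf n R X D) (g : ℕ) (i : Bool) :
    (rcd R g).testBit (so i + 1) = true ↔ (abs n R X D o f).inp g i < n := by
  change _ ↔ (if (rcd R g).testBit (so i + 1) = true then rcd R g / 2 ^ (so i + 2) % 64 else 63) < n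
  split_ifs with h
  · exact ⟨fun _ => W.src g i h, fun _ => h⟩
  · have := W.n63
    exact ⟨fun h1 => absurd h1 h, fun h1 => by omega⟩

theorem wf_nU (W : Wf n R X D) {g : ℕ} {i : Bool} (h : nU R (2 * g + i.toNat) = 0) :
    g < n ∧ (abs n R X D o f).gate g = true ∧ n ≤ (abs n R X D o f).inp g i := by
  unfold nU at h
  rw [lor_eq_zero, slot_shr, nG_eq (n := n) (X := X) (D := D) (o := o) (f := f)] at h
  have h2 := (a_and_pow0 _ 1).mp h.2
  rw [a_sl_bit] at h2
  refine ⟨wf_gate_lt W h.1, h.1, not_lt.mp fun h3 => ?_⟩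
  rw [(wf_known W g i).mpr h3] at h2
  exact Bool.noConfusion h2

theorem a_kn2 (W : Wf n R X D) {g : ℕ} {i : Bool}
    (h : ((sl R (2 * g + i.toNat)).land 2).xor 2 = 0) : (abs n R X D o f).inp g i < n ∧
      src R (2 * g + i.toNat) = (abs n R X D o f).inp g i := by
  have h2 := (a_and_pow _ 1).mp (xor_eq_zero.mp h)
  rw [a_sl_bit] at h2
  refine ⟨(wf_known W g i).mp h2, ?_⟩
  change _ = if (rcd R g).testBit (so i + 1) = true then rcd R g / 2 ^ (so i + 2) % 64 else 63
  rw [if_pos h2]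
  exact sl_field R g i (p := 2) (w := 6) (by norm_num)

theorem wf_nK (W : Wf n R X D) {g : ℕ} {i : Bool} (h : nK R (2 * g + i.toNat) = 0) :
    g < n ∧ (abs n R X D o f).gate g = true ∧ (abs n R X D o f).inp g i < n ∧
      src R (2 * g + i.toNat) = (abs n R X D o f).inp g i := by
  unfold nK at h
  rw [lor_eq_zero, slot_shr, nG_eq (n := n) (X := X) (D := D) (o := o) (f := f)] at h
  exact ⟨wf_gate_lt W h.1, h.1, a_kn2 W h.2⟩

theorem wf_kn2 (W : Wf n R X D) {g : ℕ} {i : Bool}
    (h : ((sl R (2 * g + i.toNat)).land 2).xor 2 = 0) : (abs n R X D o f).inp g i < n ∧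
      src R (2 * g + i.toNat) = (abs n R X D o f).inp g i := a_kn2 W h

theorem wf_nDgn (W : Wf n R X D) {v : ℕ} (h : nDgn R v = 0) : (abs n R X D o f).Dgn v := by
  unfold nDgn at h
  rw [xor_eq_zero, rc_land R v (by norm_num)] at h
  have hb : ∀ k, ((rcd R v).testBit k && Nat.testBit 1073741854 k) = Nat.testBit 16 k :=
    fun k => by rw [← Nat.testBit_and, h]
  have h1 : (rcd R v).testBit 1 = false := (Bool.and_true _).symm.trans (hb 1)
  have h2 : (rcd R v).testBit 2 = false := (Bool.and_true _).symm.trans (hb 2)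
  have h3 : (rcd R v).testBit 3 = false := (Bool.and_true _).symm.trans (hb 3)
  have h4 : (rcd R v).testBit 4 = true := (Bool.and_true _).symm.trans (hb 4)
  have h30 : (rcd R v).testBit 30 = false := (Bool.and_true _).symm.trans (hb 30)
  refine ⟨wf_lt_of_ne W fun h0 => ?_, h30, h4, ?_⟩
  · rw [h0, Nat.zero_testBit] at h4
    exact Bool.false_ne_true h4
  · change rcd R v % 16 ≤ 1
    rw [Nat.testBit_eq_decide_div_mod_eq, decide_eq_false_iff_not] at h1 h2 h3
    omega

theorem gmOf_bit (v : ℕ) :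
    (gmOf R).testBit v = (decide (v < 64) && (abs n R X D o f).gate v) := by
  unfold gmOf
  rw [testBit_cmp']
  change (_ && (R >>> 30).testBit _) = (_ && (rcd R v).testBit 30)
  rw [Nat.testBit_shiftRight, testBit_rcd R v (by norm_num), add_comm 30]

theorem a_m15 (R : ℕ) {p : ℕ} (hp : p + 4 ≤ 128) :
    (R >>> p) &&& m15 = tab 128 (fun u => rcd R u / 2 ^ p % 16) 64 := by
  have h15 : m15 = tab 128 (fun _ => true.toNat * (2 ^ 4 - 1)) 64 := by decide +kernel
  rw [h15, LA.and_mask (by norm_num) (by norm_num) _ fun _ => true]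
  refine LA.tab_congr fun j _ => (one_mul _).trans ?_
  unfold LA.G
  rw [← Nat.shiftRight_add, add_comm p, mul_comm j]
  exact a_fld R j hp

theorem a_tab_or {s k : ℕ} (hs : 0 < s) {f g : ℕ → ℕ} (hf : ∀ j < k, f j < 2 ^ s)
    (hg : ∀ j < k, g j < 2 ^ s) : tab s f k ||| tab s g k = tab s (fun j => f j ||| g j) k := by
  refine LA.ext_lane hs fun j v hv => ?_
  rw [Nat.testBit_or, LA.testBit_tab hf j hv, LA.testBit_tab hg j hv,
    LA.testBit_tab (fun j hj => Nat.or_lt_two_pow (hf j hj) (hg j hj)) j hv, Nat.testBit_or]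
  cases decide (j < k) <;> simp

theorem a_tab_sub {s k : ℕ} {f g : ℕ → ℕ} (hf : ∀ j < k, f j < 2 ^ s) (hg : ∀ j < k, g j ≤ f j) :
    tab s f k - tab s g k = tab s (fun j => f j - g j) k := by
  refine Nat.sub_eq_of_eq_add ?_
  rw [LA.tab_add fun j hj => by rw [Nat.sub_add_cancel (hg j hj)]; exact hf j hj]
  exact LA.tab_congr fun j hj => (Nat.sub_add_cancel (hg j hj)).symm

theorem a_cmOf (R : ℕ) : cmOf R =
    cmp ((((((R >>> 40) &&& m15 ||| m16) - (R &&& m15)) &&& R) >>> 4).land o128) := by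
  have h : m16 >>> 4 = o128 := by decide +kernel
  rw [← h]
  exact congrArg cmp Nat.shiftRight_and_distrib

/-- the carry into bit four of the lane `v` -/
theorem a_carry (R : ℕ) {p c v : ℕ} (hp : p + 4 ≤ 128) (hc : c ≤ 16)
    (h : (((R >>> p) &&& m15) + o128 * c).testBit (128 * v + 4) = true) :
    16 ≤ rcd R v / 2 ^ p % 16 + c := by
  rw [a_m15 R hp, o128_eq, LA.tab_mul (fun j _ => by norm_num) (fun j _ => by omega),
    LA.tab_add (fun j _ => by omega), LA.testBit_tab (fun j _ => by omega) v (by norm_num),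
    Bool.and_eq_true] at h
  have h3 := Nat.ge_two_pow_of_testBit h.2
  omega

theorem cmOf_bit {v : ℕ} (h : (cmOf R).testBit v = true) :
    v < 64 ∧ (abs n R X D o f).Closed v := by
  rw [a_cmOf, testBit_cmp', Bool.and_eq_true, decide_eq_true_eq] at h
  obtain ⟨hv, h⟩ := h
  refine ⟨hv, ?_⟩
  have e1 : (R >>> 40) &&& m15 ||| m16 = tab 128 (fun u => rcd R u / 2 ^ 40 % 16 + 16) 64 := by
    have h16 : m16 = tab 128 (fun _ => 16) 64 := by decide +kernel
    have hx : ∀ x < 16, x ||| 16 = x + 16 := by decide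
    rw [a_m15 R (by norm_num), h16, a_tab_or (by norm_num) (fun j _ => by omega)
      (fun j _ => by norm_num)]
    exact LA.tab_congr fun j _ => hx _ (Nat.mod_lt _ (by norm_num))
  have e2 : R &&& m15 = tab 128 (fun u => rcd R u / 2 ^ 0 % 16) 64 := a_m15 R (p := 0) (by norm_num)
  rw [Nat.testBit_shiftRight, add_comm 4, Nat.testBit_and, e1, e2,
    a_tab_sub (fun j _ => by omega) (fun j _ => by omega),
    LA.testBit_tab (fun j _ => by omega) v (by norm_num), ← testBit_rcd R v (by norm_num),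
    Bool.and_eq_true, Bool.and_eq_true] at h
  refine ⟨h.2, ?_⟩
  have h3 := Nat.ge_two_pow_of_testBit h.1.2
  change rcd R v % 16 ≤ rcd R v / 2 ^ 40 % 256
  omega

theorem cmOf_lt (R : ℕ) : cmOf R < 2 ^ 64 := by
  rw [a_cmOf]
  exact cmp_lt _

theorem emOf_bit {v : ℕ} (h : (emOf R).testBit v = true) :
    v < 64 ∧ rcd R v ≠ 0 ∧ (abs n R X D o f).dep v ≤ 9 := by
  unfold emOf at h
  rw [testBit_cmp', Bool.and_eq_true, decide_eq_true_eq] at h
  obtain ⟨hv, h⟩ := h
  change ((((R >>> 31) &&& m15) + o128 * 10) >>> 4).testBit _ = true at h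
  rw [Nat.testBit_shiftRight, add_comm 4] at h
  have h1 := a_carry R (by norm_num) (by norm_num) h
  refine ⟨hv, by omega, ?_⟩
  change 15 - rcd R v / 2 ^ 31 % 16 ≤ 9
  omega

theorem hiOf_bit {l v : ℕ} (hl : l ≤ 15) (h : (hiOf R l).testBit v = true) :
    l < (abs n R X D o f).dlo v ∨ l ≤ (abs n R X D o f).kd v := by
  unfold hiOf at h
  rw [testBit_cmp', Bool.and_eq_true] at h
  have h1 := h.2
  change (((((R >>> 0) &&& m15) + o128 * (15 - l)) |||
    (((R >>> 40) &&& m15) + o128 * (16 - l))) >>> 4).testBit _ = true at h1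
  rw [Nat.testBit_shiftRight, add_comm 4, Nat.testBit_or, Bool.or_eq_true] at h1
  change l < rcd R v % 16 ∨ l ≤ rcd R v / 2 ^ 40 % 256
  rcases h1 with h1 | h1
  · have h2 := a_carry R (by norm_num) (by omega) h1
    omega
  · have h2 := a_carry R (by norm_num) (by omega) h1
    omega

theorem two_bit {v : ℕ} (h : (cmp ((((R.land m15).add (o128.mul 14)).shiftRight 4).land
    o128)).testBit v = true) : 2 ≤ (abs n R X D o f).dlo v := by
  rw [testBit_cmp', Bool.and_eq_true] at h
  have h1 := h.2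
  change ((((R >>> 0) &&& m15) + o128 * 14) >>> 4).testBit _ = true at h1
  rw [Nat.testBit_shiftRight, add_comm 4] at h1
  have h2 := a_carry R (by norm_num) (by norm_num) h1
  change 2 ≤ rcd R v % 16
  omega

theorem wf_exAll (W : Wf n R X D) {g v : ℕ} {i : Bool} (hg : g < n) (hv : v < n)
    (h : (exAll n R X D).testBit (64 * (2 * g + i.toNat) + v) = true) :
    (abs n R X D o f).Excl g i v := by
  have hn := W.n63
  have hi := Bool.toNat_le i
  change ((X ||| D) ||| ((((sw R >>> 7) &&& on2 n) ^^^ on2 n) * cmOf R)).testBit _ = true at h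
  rw [Nat.testBit_or, Nat.testBit_or, Bool.or_eq_true, Bool.or_eq_true] at h
  rcases h with (h | h) | h
  · refine Or.inl ?_
    change (decide (v < n) && X.testBit _) = true
    rw [h, decide_eq_true hv]
    rfl
  · refine Or.inr (Or.inr (Or.inr (Or.inr (Or.inl ?_))))
    change (decide (g < n) && (D.testBit _ || D.testBit _)) = true
    rw [decide_eq_true hg, Bool.true_and, Bool.or_eq_true]
    cases i
    · exact Or.inl h
    · exact Or.inr h
  · refine Or.inr (Or.inr (Or.inl ?_))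
    have hx : ∀ a b : Bool, a.toNat ^^^ b.toNat = (a ^^ b).toNat := by decide
    rw [on2_eq (by omega), LA.and_sel (by norm_num),
      LA.tab_xor (by norm_num) (fun j _ => LA.toNat_lt _ (by norm_num))
        (fun j _ => LA.toNat_lt _ (by norm_num)), LA.tab_congr fun j _ => hx _ _,
      LA.tab_mul (fun j _ => LA.toNat_lt _ (by norm_num))
        (fun j _ => LA.toNat_mul_lt _ (cmOf_lt R)),
      LA.testBit_tab (fun j _ => LA.toNat_mul_lt _ (cmOf_lt R)) _ (by omega),
      LA.testBit_toNat_mul, Nat.testBit_shiftRight, add_comm 7,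
      sw_bit W.lane (by omega) i (by norm_num), if_pos (by norm_num),
      decide_eq_true (by omega : 2 * g + i.toNat < 2 * n), Bool.and_eq_true,
      Bool.and_eq_true] at h
    refine ⟨not_lt.mp fun h1 => ?_, (cmOf_bit h.2.2).2⟩
    have h2 := h.2.1
    rw [(wf_known W g i).mpr h1] at h2
    exact Bool.noConfusion h2

theorem wf_row (W : Wf n R X D) {g v : ℕ} {i : Bool} (hg : g < n) (hv : v < n)
    (h : (row n R X D (2 * g + i.toNat)).testBit v = true) : (abs n R X D o f).Excl g i v := by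
  change (exAll n R X D >>> ((2 * g + i.toNat) * 64)).testBit v = true at h
  rw [Nat.testBit_shiftRight, mul_comm _ 64] at h
  exact wf_exAll W hg hv h

end

end Pool.Agent.Lib.MP_79d702_lc.U2.V2
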