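import Pool.Agent.Lib.MP_79d702_lc.U2.V2A

/-!
Fields of the records of packed states.
-/

namespace Pool.Agent.Lib.MP_79d702_lc.U2.V2

/-- `r'` agrees with `r` outside the bits `p, …, q - 1` -/
def VBAg (r r' p q : ℕ) : Prop := ∀ k, k < p ∨ q ≤ k → r'.testBit k = r.testBit k

theorem VBAg.fld {r r' p q : ℕ} (h : VBAg r r' p q) (a b : ℕ) (hk : a + b ≤ p ∨ q ≤ a) :
    r' / 2 ^ a % 2 ^ b = r / 2 ^ a % 2 ^ b := by
  refine Nat.eq_of_testBit_eq fun k => ?_
  rw [Nat.testBit_mod_two_pow, Nat.testBit_mod_two_pow, Nat.testBit_div_two_pow,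
    Nat.testBit_div_two_pow]
  by_cases hb : k < b
  · rw [h _ (by omega)]
  · simp [hb]

theorem VBAg.lt {r r' p q : ℕ} (h : VBAg r r' p q) (hq : q ≤ 48) (hr : r < 2 ^ 48) :
    r' < 2 ^ 48 := by
  refine Nat.lt_pow_two_of_testBit _ fun k hk => ?_
  rw [h k (by omega)]
  exact LA.testBit_of_lt hr hk

theorem vb_split (r p w : ℕ) :
    r = 2 ^ p * (2 ^ w * (r / 2 ^ p / 2 ^ w) + r / 2 ^ p % 2 ^ w) + r % 2 ^ p := by
  rw [Nat.div_add_mod, Nat.div_add_mod]

theorem vb_bit {p w hi v lo : ℕ} (hv : v < 2 ^ w) (hlo : lo < 2 ^ p) (k : ℕ) :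
    (2 ^ p * (2 ^ w * hi + v) + lo).testBit k =
      if k < p then lo.testBit k else if k - p < w then v.testBit (k - p)
        else hi.testBit (k - p - w) := by
  rw [Nat.testBit_two_pow_mul_add _ hlo, Nat.testBit_two_pow_mul_add _ hv]

/-- the field of width `w` at the position `p` is replaced by `v` -/
theorem vb_edit {r r' p w v : ℕ} (hv : v < 2 ^ w)
    (h : r' + r / 2 ^ p % 2 ^ w * 2 ^ p = r + v * 2 ^ p) :
    VBAg r r' p (p + w) ∧ r' / 2 ^ p % 2 ^ w = v := by
  have e := vb_split r p w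
  have hlo : r % 2 ^ p < 2 ^ p := Nat.mod_lt _ (Nat.two_pow_pos p)
  have hf : r / 2 ^ p % 2 ^ w < 2 ^ w := Nat.mod_lt _ (Nat.two_pow_pos w)
  generalize r / 2 ^ p / 2 ^ w = hi at e
  generalize r / 2 ^ p % 2 ^ w = a at e h hf
  generalize r % 2 ^ p = lo at e hlo
  have e' : r' = 2 ^ p * (2 ^ w * hi + v) + lo := by
    rw [e] at h
    nlinarith
  constructor
  · intro k hk
    rw [e', e, vb_bit hv hlo, vb_bit hf hlo]
    split_ifs with h1 h2
    · rfl
    · omega
    · rfl
  · rw [e', Nat.mul_add_div (Nat.two_pow_pos p), Nat.div_eq_of_lt hlo, Nat.add_zero,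
      Nat.mul_add_mod, Nat.mod_eq_of_lt hv]

/-- the fields of a record -/
@[ext] structure VB where
  dlo : ℕ
  dex : Bool
  ng : Bool
  pol : Bool → Bool
  kn : Bool → Bool
  src : Bool → ℕ
  lb : Bool → ℕ
  gate : Bool
  dp : ℕ
  sk : Bool
  kd : ℕ

def vw (r : ℕ) : VB where
  dlo := r % 16
  dex := r.testBit 4
  ng := r.testBit 5
  pol := fun i => r.testBit (so i)
  kn := fun i => r.testBit (so i + 1)
  src := fun i => r / 2 ^ (so i + 2) % 64
  lb := fun i => r / 2 ^ (so i + 8) % 16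
  gate := r.testBit 30
  dp := r / 2 ^ 31 % 16
  sk := r.testBit 35
  kd := r / 2 ^ 40 % 256

def vbU {α : Type} (f : Bool → α) (i : Bool) (v : α) : Bool → α := fun j => if j = i then v else f j

theorem vb_so (i : Bool) : so i = 6 ∨ so i = 18 := by cases i <;> simp [so]

theorem vb_so_ne {i j : Bool} (h : j ≠ i) : so j + 12 ≤ so i ∨ so i + 12 ≤ so j := by
  cases i <;> cases j <;> simp_all [so]

section
variable {r r' p q : ℕ} (h : VBAg r r' p q)
include h

theorem VBAg.dlo (hk : 4 ≤ p) : r' % 16 = r % 16 := by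
  simpa using h.fld 0 4 (Or.inl hk)

theorem VBAg.src (i : Bool) (hk : so i + 8 ≤ p ∨ q ≤ so i + 2) :
    r' / 2 ^ (so i + 2) % 64 = r / 2 ^ (so i + 2) % 64 := h.fld _ 6 (by omega)

theorem VBAg.lb (i : Bool) (hk : so i + 12 ≤ p ∨ q ≤ so i + 8) :
    r' / 2 ^ (so i + 8) % 16 = r / 2 ^ (so i + 8) % 16 := h.fld _ 4 (by omega)

theorem VBAg.dp (hk : 35 ≤ p ∨ q ≤ 31) : r' / 2 ^ 31 % 16 = r / 2 ^ 31 % 16 := h.fld _ 4 hk

theorem VBAg.kd (hk : q ≤ 40) : r' / 2 ^ 40 % 256 = r / 2 ^ 40 % 256 := h.fld _ 8 (Or.inr hk)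

end

theorem vw_dlo {r r' : ℕ} (h : VBAg r r' 0 4) : vw r' = { vw r with dlo := r' % 16 } := by
  refine VB.ext rfl (h _ (by omega)) (h _ (by omega)) (funext fun i => ?_) (funext fun i => ?_)
    (funext fun i => ?_) (funext fun i => ?_) (h _ (by omega)) (h.dp (by omega)) (h _ (by omega))
    (h.kd (by omega)) <;> have := vb_so i
  exacts [h _ (by omega), h _ (by omega), h.src i (by omega), h.lb i (by omega)]

theorem vw_dex {r r' : ℕ} (h : VBAg r r' 4 5) : vw r' = { vw r with dex := r'.testBit 4 } := by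
  refine VB.ext (h.dlo (by omega)) rfl (h _ (by omega)) (funext fun i => ?_) (funext fun i => ?_)
    (funext fun i => ?_) (funext fun i => ?_) (h _ (by omega)) (h.dp (by omega)) (h _ (by omega))
    (h.kd (by omega)) <;> have := vb_so i
  exacts [h _ (by omega), h _ (by omega), h.src i (by omega), h.lb i (by omega)]

theorem vw_ng {r r' : ℕ} (h : VBAg r r' 5 6) : vw r' = { vw r with ng := r'.testBit 5 } := by
  refine VB.ext (h.dlo (by omega)) (h _ (by omega)) rfl (funext fun i => ?_) (funext fun i => ?_)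
    (funext fun i => ?_) (funext fun i => ?_) (h _ (by omega)) (h.dp (by omega)) (h _ (by omega))
    (h.kd (by omega)) <;> have := vb_so i
  exacts [h _ (by omega), h _ (by omega), h.src i (by omega), h.lb i (by omega)]

theorem vw_dp {r r' : ℕ} (h : VBAg r r' 31 35) :
    vw r' = { vw r with dp := r' / 2 ^ 31 % 16 } := by
  refine VB.ext (h.dlo (by omega)) (h _ (by omega)) (h _ (by omega)) (funext fun i => ?_)
    (funext fun i => ?_) (funext fun i => ?_) (funext fun i => ?_) (h _ (by omega)) rfl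
    (h _ (by omega)) (h.kd (by omega)) <;> have := vb_so i
  exacts [h _ (by omega), h _ (by omega), h.src i (by omega), h.lb i (by omega)]

theorem vw_sk {r r' : ℕ} (h : VBAg r r' 35 36) : vw r' = { vw r with sk := r'.testBit 35 } := by
  refine VB.ext (h.dlo (by omega)) (h _ (by omega)) (h _ (by omega)) (funext fun i => ?_)
    (funext fun i => ?_) (funext fun i => ?_) (funext fun i => ?_) (h _ (by omega))
    (h.dp (by omega)) rfl (h.kd (by omega)) <;> have := vb_so i
  exacts [h _ (by omega), h _ (by omega), h.src i (by omega), h.lb i (by omega)]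

theorem vw_kd {r r' : ℕ} (h : VBAg r r' 40 48) :
    vw r' = { vw r with kd := r' / 2 ^ 40 % 256 } := by
  refine VB.ext (h.dlo (by omega)) (h _ (by omega)) (h _ (by omega)) (funext fun i => ?_)
    (funext fun i => ?_) (funext fun i => ?_) (funext fun i => ?_) (h _ (by omega))
    (h.dp (by omega)) (h _ (by omega)) rfl <;> have := vb_so i
  exacts [h _ (by omega), h _ (by omega), h.src i (by omega), h.lb i (by omega)]

theorem vw_lb {r r' : ℕ} {i : Bool} (h : VBAg r r' (so i + 8) (so i + 8 + 4)) :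
    vw r' = { vw r with lb := vbU (vw r).lb i (r' / 2 ^ (so i + 8) % 16) } := by
  have := vb_so i
  refine VB.ext (h.dlo (by omega)) (h _ (by omega)) (h _ (by omega)) (funext fun j => ?_)
    (funext fun j => ?_) (funext fun j => ?_) (funext fun j => ?_) (h _ (by omega))
    (h.dp (by omega)) (h _ (by omega)) (h.kd (by omega)) <;> have := vb_so j
  · exact h _ (by omega)
  · exact h _ (by omega)
  · exact h.src j (by omega)
  · by_cases e : j = i
    · subst e
      simp [vw, vbU]
    · have := vb_so_ne e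
      simp only [vw, vbU, if_neg e]
      exact h.lb j (by omega)

theorem vw_pol {r r' : ℕ} {i : Bool} (h : VBAg r r' (so i) (so i + 1)) :
    vw r' = { vw r with pol := vbU (vw r).pol i (r'.testBit (so i)) } := by
  have := vb_so i
  refine VB.ext (h.dlo (by omega)) (h _ (by omega)) (h _ (by omega)) (funext fun j => ?_)
    (funext fun j => ?_) (funext fun j => ?_) (funext fun j => ?_) (h _ (by omega))
    (h.dp (by omega)) (h _ (by omega)) (h.kd (by omega)) <;> have := vb_so j
  · by_cases e : j = i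
    · subst e
      simp [vw, vbU]
    · have := vb_so_ne e
      simp only [vw, vbU, if_neg e]
      exact h _ (by omega)
  · exact h _ (by omega)
  · exact h.src j (by omega)
  · exact h.lb j (by omega)

theorem vw_slot {r r' l u : ℕ} {i : Bool} (h : VBAg r r' (so i) (so i + 12)) (_hl : l < 16)
    (hu : u < 64) (hv : r' / 2 ^ so i % 2 ^ 12 = l * 256 + u * 4 + 2) :
    vw r' = { vw r with pol := vbU (vw r).pol i false, kn := vbU (vw r).kn i true,
                        src := vbU (vw r).src i u, lb := vbU (vw r).lb i l } := by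
  have := vb_so i
  refine VB.ext (h.dlo (by omega)) (h _ (by omega)) (h _ (by omega)) (funext fun j => ?_)
    (funext fun j => ?_) (funext fun j => ?_) (funext fun j => ?_) (h _ (by omega))
    (h.dp (by omega)) (h _ (by omega)) (h.kd (by omega)) <;> by_cases e : j = i
  · subst e
    simp only [vw, vbU, if_true, Nat.testBit_eq_decide_div_mod_eq, decide_eq_false_iff_not]
    omega
  · have := vb_so_ne e
    simp only [vw, vbU, if_neg e]
    exact h _ (by omega)
  · subst e
    simp only [vw, vbU, if_true, Nat.testBit_eq_decide_div_mod_eq, decide_eq_true_eq, pow_add,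
      ← Nat.div_div_eq_div_mul]
    omega
  · have := vb_so_ne e
    simp only [vw, vbU, if_neg e]
    exact h _ (by omega)
  · subst e
    simp only [vw, vbU, if_true, pow_add, ← Nat.div_div_eq_div_mul]
    omega
  · have := vb_so_ne e
    simp only [vw, vbU, if_neg e]
    exact h.src j (by omega)
  · subst e
    simp only [vw, vbU, if_true, pow_add, ← Nat.div_div_eq_div_mul]
    omega
  · have := vb_so_ne e
    simp only [vw, vbU, if_neg e]
    exact h.lb j (by omega)

theorem vb_flip (r k : ℕ) : VBAg r (r ^^^ 1 * 2 ^ k) k (k + 1) ∧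
    (r ^^^ 1 * 2 ^ k).testBit k = !r.testBit k := by
  constructor
  · intro j hj
    rw [Nat.testBit_xor, one_mul, Nat.testBit_two_pow, decide_eq_false (by omega), Bool.xor_false]
  · rw [Nat.testBit_xor, one_mul, Nat.testBit_two_pow_self, Bool.xor_true]

theorem vb_set (r k : ℕ) : VBAg r (r ||| 2 ^ k) k (k + 1) ∧ (r ||| 2 ^ k).testBit k = true := by
  constructor
  · intro j hj
    rw [Nat.testBit_or, Nat.testBit_two_pow, decide_eq_false (by omega), Bool.or_false]
  · rw [Nat.testBit_or, Nat.testBit_two_pow_self, Bool.or_true]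

/-- the pattern with the given fields -/
def absV (n : ℕ) (ρ : ℕ → VB) (X D o f : ℕ) : AX where
  n := n
  gate := fun u => (ρ u).gate
  dlo := fun u => (ρ u).dlo
  dex := fun u => (ρ u).dex
  dep := fun u => 15 - (ρ u).dp
  sg := fun u => if (ρ u).sk then (ρ u).ng.toNat else 2
  ng := fun u => (ρ u).ng
  inp := fun g i => if (ρ g).kn i then (ρ g).src i else 63
  pol := fun g i => (ρ g).pol i
  lb := fun g i => (ρ g).lb i
  nf := fun g i v => decide (v < n) && X.testBit (64 * (2 * g + i.toNat) + v)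
  out := o
  kd := fun u => (ρ u).kd
  cn := fun v h => decide (h < n) &&
    (D.testBit (64 * (2 * h) + v) || D.testBit (64 * (2 * h + 1) + v))
  z1 := f % 64
  z2 := f / 64 % 64
  full := f.testBit 12

def vR (R : ℕ) : ℕ → VB := fun u => vw (rcd R u)

theorem abs_absV (n R X D o f : ℕ) : abs n R X D o f = absV n (vR R) X D o f := rfl

/-- `R'` is `R` with the fields of the node `u` replaced by `F` -/
structure VBEd (R R' u : ℕ) (F : VB) : Prop where
  top : ∀ w, w ≠ u → rcd R' w = rcd R w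
  lt : rcd R' u < 2 ^ 48
  eq : vR R' u = F

theorem VBEd.of {R R' u r' : ℕ} {F : VB} (hR : rcd R' = upd (rcd R) u r') (hlt : r' < 2 ^ 48)
    (hF : vw r' = F) : VBEd R R' u F := by
  refine ⟨fun w hw => ?_, ?_, ?_⟩
  · rw [hR, upd, if_neg hw]
  · rw [hR, upd, if_pos rfl]
    exact hlt
  · rw [vR, hR, upd, if_pos rfl, hF]

theorem VBEd.vR {R R' u : ℕ} {F : VB} (h : VBEd R R' u F) : vR R' = upd (vR R) u F := by
  funext w
  by_cases e : w = u
  · rw [upd, if_pos e, e, h.eq]
  · rw [upd, if_neg e, V2.vR, h.top w e, V2.vR]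

theorem VBEd.trans {R R' R'' u : ℕ} {F G : VB} (h : VBEd R R' u F) (h' : VBEd R' R'' u G) :
    VBEd R R'' u G :=
  ⟨fun w hw => (h'.top w hw).trans (h.top w hw), h'.lt, h'.eq⟩

theorem VBEd.lane {R R' u : ℕ} {F : VB} (h : VBEd R R' u F) (hl : ∀ w, rcd R w < 2 ^ 48)
    (w : ℕ) : rcd R' w < 2 ^ 48 := by
  by_cases e : w = u
  · rw [e]
    exact h.lt
  · rw [h.top w e]
    exact hl w

theorem VBEd.wf {n R X D R' u : ℕ} {F : VB} (h : VBEd R R' u F) (W : Wf n R X D) (hu : u < n)
    (hk : ∀ i, (V2.vR R u).kn i = true → F.kn i = true) (hs : ∀ i, F.kn i = true → F.src i < n) :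
    Wf n R' X D := by
  refine ⟨W.n63, fun w hw => ?_, h.lane W.lane, fun g i hg => ?_, fun g i v hv hx => ?_, W.d⟩
  · rw [h.top w (by omega)]
    exact W.top w hw
  · by_cases e : g = u
    · subst e
      have := hs i
      rw [← h.eq] at this
      exact this hg
    · rw [h.top g e] at hg ⊢
      exact W.src g i hg
  · obtain ⟨h1, h2⟩ := W.x g i v hv hx
    refine ⟨h1, h2.imp_right fun h3 => ?_⟩
    by_cases e : g = u
    · subst e
      have := hk i h3
      rw [← h.eq] at this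
      exact this
    · rw [h.top g e]
      exact h3

/-- an edit that leaves the wires alone -/
theorem VBEd.wf' {n R X D R' u : ℕ} {F : VB} (h : VBEd R R' u F) (W : Wf n R X D) (hu : u < n)
    (hk : F.kn = (V2.vR R u).kn) (hs : F.src = (V2.vR R u).src) : Wf n R' X D :=
  h.wf W hu (fun i hi => by rw [hk]; exact hi) fun i hi => by
    rw [hk] at hi
    rw [hs]
    exact W.src u i hi

section
variable {R u : ℕ} (hl : rcd R u < 2 ^ 48)
include hl

theorem ed_dlo {c : ℕ} (h : (vR R u).dlo + c ≤ 15) :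
    VBEd R (R.add (c.shiftLeft (u.mul 128))) u { vR R u with dlo := (vR R u).dlo + c } := by
  change rcd R u % 16 + c ≤ 15 at h
  obtain ⟨h1, h2⟩ := vb_edit (r := rcd R u) (r' := rcd R u + c) (p := 0) (w := 4)
    (v := rcd R u % 16 + c) (by omega) (by omega)
  refine .of (rcd_add R u (by omega)) (h1.lt (by omega) hl) ?_
  rw [vw_dlo h1, show (rcd R u + c) % 16 = rcd R u % 16 + c by omega]
  rfl

theorem ed_dlo_kd {c : ℕ} (h : (vR R u).dlo + c ≤ 15) (h' : (vR R u).kd ≤ 14) :
    VBEd R (R.add ((c.add 1099511627776).shiftLeft (u.mul 128))) u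
      { vR R u with dlo := (vR R u).dlo + c, kd := (vR R u).kd + 1 } := by
  change rcd R u % 16 + c ≤ 15 at h
  change rcd R u / 2 ^ 40 % 256 ≤ 14 at h'
  obtain ⟨h1, h2⟩ := vb_edit (r := rcd R u) (r' := rcd R u + c) (p := 0) (w := 4)
    (v := rcd R u % 16 + c) (by omega) (by omega)
  have k1 := h1.kd (by omega)
  obtain ⟨h3, h4⟩ := vb_edit (r := rcd R u + c) (r' := rcd R u + (c + 1099511627776)) (p := 40)
    (w := 8) (v := rcd R u / 2 ^ 40 % 256 + 1) (by omega) (by omega)
  refine .of (rcd_add R u (c := c + 1099511627776) (by omega))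
    (h3.lt (by omega) (h1.lt (by omega) hl)) ?_
  rw [vw_kd h3, vw_dlo h1, show (rcd R u + c) % 16 = rcd R u % 16 + c by omega,
    show (rcd R u + (c + 1099511627776)) / 2 ^ 40 % 256 = rcd R u / 2 ^ 40 % 256 + 1 from h4]
  rfl

theorem ed_setdlo {d : ℕ} (hd : d < 16) :
    VBEd R (R.xor ((((rc R u).land 15).xor d).shiftLeft (u.mul 128))) u
      { vR R u with dlo := d } := by
  have e : (rc R u).land 15 = rcd R u % 16 := dlo_eq (n := 0) (X := 0) (D := 0) (o := 0) (f := 0) u
  have hx : rcd R u % 16 ^^^ d < 2 ^ 4 := Nat.xor_lt_two_pow (by omega) hd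
  have h0 := xor_field (rcd R u) 0 4 (v := d) hd
  simp only [pow_zero, Nat.div_one, mul_one] at h0
  obtain ⟨h1, h2⟩ := vb_edit (r := rcd R u) (r' := rcd R u ^^^ (rcd R u % 16 ^^^ d)) (p := 0)
    (w := 4) (v := d) hd (by simpa using h0)
  rw [e]
  refine .of (rcd_xor R u (c := rcd R u % 16 ^^^ d) (by omega)) (h1.lt (by omega) hl) ?_
  rw [vw_dlo h1, show (rcd R u ^^^ (rcd R u % 16 ^^^ d)) % 16 = d by simpa using h2]
  rfl

theorem ed_dex : VBEd R (R.lor (Nat.shiftLeft 16 (u.mul 128))) u { vR R u with dex := true } := by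
  obtain ⟨h1, h2⟩ := vb_set (rcd R u) 4
  refine .of (rcd_lor R u (c := 2 ^ 4) (by omega)) (h1.lt (by omega) hl) ?_
  rw [vw_dex h1, h2]
  rfl

theorem ed_lb {c : ℕ} (i : Bool) (h : (vR R u).lb i + c ≤ 15) :
    VBEd R (R.add (c.shiftLeft ((pos (2 * u + i.toNat)).add 8))) u
      { vR R u with lb := vbU (vR R u).lb i ((vR R u).lb i + c) } := by
  change rcd R u / 2 ^ (so i + 8) % 16 + c ≤ 15 at h
  have := vb_so i
  obtain ⟨h1, h2⟩ := vb_edit (r := rcd R u) (r' := rcd R u + c * 2 ^ (so i + 8)) (p := so i + 8)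
    (w := 4) (v := rcd R u / 2 ^ (so i + 8) % 16 + c) (by omega) (by ring_nf)
  have hlt := h1.lt (by omega) hl
  rw [pos_eq]
  refine .of (rcd_add' R u (so i + 8) (c := c) (by omega)) hlt ?_
  rw [vw_lb h1, show (rcd R u + c * 2 ^ (so i + 8)) / 2 ^ (so i + 8) % 16 = _ from h2]
  rfl

theorem ed_dp {c : ℕ} (h : (vR R u).dp + c ≤ 15) :
    VBEd R (R.add (c.shiftLeft ((u.mul 128).add 31))) u
      { vR R u with dp := (vR R u).dp + c } := by
  change rcd R u / 2 ^ 31 % 16 + c ≤ 15 at h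
  obtain ⟨h1, h2⟩ := vb_edit (r := rcd R u) (r' := rcd R u + c * 2 ^ 31) (p := 31)
    (w := 4) (v := rcd R u / 2 ^ 31 % 16 + c) (by omega) (by omega)
  have hlt := h1.lt (by omega) hl
  rw [show (u.mul 128).add 31 = 128 * u + 31 by simp [Nat.mul_comm]]
  refine .of (rcd_add' R u 31 (c := c) (by omega)) hlt ?_
  rw [vw_dp h1, show (rcd R u + c * 2 ^ 31) / 2 ^ 31 % 16 = _ from h2]
  rfl

theorem ed_sg (b : Bool) (h5 : (rcd R u).testBit 5 = false) (h35 : (rcd R u).testBit 35 = false) :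
    VBEd R (R.add (Nat.shiftLeft (34359738368 + 32 * b.toNat) (u.mul 128))) u
      { vR R u with ng := b, sk := true } := by
  have hb : b.toNat < 2 := by cases b <;> simp
  rw [Nat.testBit_eq_decide_div_mod_eq, decide_eq_false_iff_not] at h5 h35
  obtain ⟨h1, h2⟩ := vb_edit (r := rcd R u) (r' := rcd R u + 32 * b.toNat) (p := 5)
    (w := 1) (v := b.toNat) (by omega) (by omega)
  obtain ⟨h3, h4⟩ := vb_edit (r := rcd R u + 32 * b.toNat)
    (r' := rcd R u + (34359738368 + 32 * b.toNat)) (p := 35) (w := 1) (v := 1) (by omega)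
    (by have := h1.fld 35 1 (by omega); omega)
  refine .of (rcd_add R u (c := 34359738368 + 32 * b.toNat) (by omega))
    (h3.lt (by omega) (h1.lt (by omega) hl)) ?_
  have e1 : (rcd R u + (34359738368 + 32 * b.toNat)).testBit 35 = true := by
    rw [Nat.testBit_eq_decide_div_mod_eq, decide_eq_true_eq]
    exact h4
  have e2 : (rcd R u + 32 * b.toNat).testBit 5 = b := by
    rw [Nat.testBit_eq_decide_div_mod_eq, show (rcd R u + 32 * b.toNat) / 2 ^ 5 % 2 = _ from h2]
    cases b <;> simp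
  rw [vw_sk h3, vw_ng h1, e1, e2]
  rfl

theorem ed_ng : VBEd R (R.xor (one (128 * u + 5))) u { vR R u with ng := !(vR R u).ng } := by
  obtain ⟨h1, h2⟩ := vb_flip (rcd R u) 5
  refine .of (rcd_xor' R u 5 (c := 1) (by omega)) (h1.lt (by omega) hl) ?_
  rw [vw_ng h1, h2]
  rfl

theorem ed_pol (i : Bool) : VBEd R (R.xor (one (128 * u + so i))) u
    { vR R u with pol := vbU (vR R u).pol i (!(vR R u).pol i) } := by
  have := vb_so i
  obtain ⟨h1, h2⟩ := vb_flip (rcd R u) (so i)
  refine .of (rcd_xor' R u (so i) (c := 1) ?_) (h1.lt (by omega) hl) ?_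
  · rw [one_mul]
    exact Nat.pow_lt_pow_right (by omega) (by omega)
  · rw [vw_pol h1, h2]
    rfl

theorem ed_slot (i : Bool) {l a : ℕ} (hl' : l < 16) (ha : a < 64) :
    VBEd R (R.xor (Nat.shiftLeft (rcd R u / 2 ^ so i % 2 ^ 12 ^^^ (l * 256 + a * 4 + 2))
      (pos (2 * u + i.toNat)))) u
      { vR R u with pol := vbU (vR R u).pol i false, kn := vbU (vR R u).kn i true,
                    src := vbU (vR R u).src i a, lb := vbU (vR R u).lb i l } := by
  have := vb_so i
  have hv : l * 256 + a * 4 + 2 < 2 ^ 12 := by omega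
  have hx : rcd R u / 2 ^ so i % 2 ^ 12 ^^^ (l * 256 + a * 4 + 2) < 2 ^ 12 :=
    Nat.xor_lt_two_pow (by omega) hv
  obtain ⟨h1, h2⟩ := vb_edit hv (xor_field (rcd R u) (so i) 12 hv)
  rw [pos_eq]
  refine .of (rcd_xor' R u (so i) ?_) (h1.lt (by omega) hl) (vw_slot h1 hl' ha h2)
  calc _ < 2 ^ 12 * 2 ^ so i := Nat.mul_lt_mul_of_pos_right hx (Nat.two_pow_pos _)
    _ = 2 ^ (12 + so i) := (pow_add _ _ _).symm
    _ ≤ 2 ^ 128 := Nat.pow_le_pow_right (by omega) (by omega)

end

end Pool.Agent.Lib.MP_79d702_lc.U2.V2
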