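import Pool.Agent.Lib.MP_79d702_lc.U2.V2S
import Pool.Agent.Lib.MP_79d702_lc.U2.PatB
import Pool.Agent.Lib.MP_79d702_lc.U2.SimC

/-!
Consequence relations between patterns, and the start patterns.
-/

namespace Pool.Agent.Lib.MP_79d702_lc.U2

variable {A B Q : AX} {s : FS} {C : Ckt} {V : (ℕ → Bool) → ℕ → Bool} {E : Asg} {tag : ℕ}

theorem AX.Ab.sound (K : Ctx s C V) (M : MatchX A s C E) {v h : ℕ} (a : A.Ab v h) :
    E.φ v ∈ C.G ∧ C.rk (E.φ h) ≤ C.rk (E.φ v) := by
  induction a with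
  | cn hv hh e => exact M.cn _ hv _ hh e
  | trans _ _ h1 h2 => exact ⟨h1.1, h2.2.trans h1.2⟩
  | @wire v h i hv hk hi _ ih =>
    have e1 := M.src_eq hv hk hi
    have := K.model.rk _ (M.gat v hv hk) (i ^^ E.sw v) (by rw [← e1] at ih; exact ih.1)
    rw [show (C.inp (E.φ v) (i ^^ E.sw v)).1 = E.φ (A.inp v i) from e1] at this
    exact ⟨M.gat v hv hk, ih.2.trans this.le⟩

theorem AX.Ab.map (hn : B.n = A.n) (hc : ∀ v < A.n, ∀ h < A.n, B.cn v h = true → A.Ab v h)
    (hw : ∀ v < A.n, B.gate v = true → ∀ i, B.inp v i < A.n →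
      A.gate v = true ∧ A.inp v i = B.inp v i) {v h : ℕ} (a : B.Ab v h) : A.Ab v h := by
  induction a with
  | cn hv hh e => exact hc _ (hn ▸ hv) _ (hn ▸ hh) e
  | trans _ _ h1 h2 => exact h1.trans h2
  | @wire v h i hv hk hi _ ih =>
    rw [hn] at hv hi
    obtain ⟨e1, e2⟩ := hw v hv hk i hi
    exact AX.Ab.wire i hv e1 (e2 ▸ hi) (e2 ▸ ih)

theorem der_match (K : Ctx s C V) (M : MatchX A s C E) (h : Der A B) : MatchX B s C E := by
  have hg : ∀ {g b}, g < A.n → B.gate g = b → A.gate g = b := fun hg k => (h.gate _ hg).symm.trans k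
  refine ⟨⟨?_, ?_, ?_, ?_, ?_, ?_, ?_, ?_, ?_, ?_, ?_, ?_⟩, ?_, ?_, ?_, ?_, ?_, ?_, ?_, ?_⟩ <;>
    rw [h.n]
  · exact M.inj
  · exact fun u hu k => M.var u hu (hg hu k)
  · exact fun u hu k => M.gat u hu (hg hu k)
  · intro g hg' k i hi
    rw [h.inp g hg' (hg hg' k)] at hi ⊢
    rw [h.pol g hg' (hg hg' k) i hi]
    exact M.wire g hg' (hg hg' k) i hi
  · intro g hg' k i hi
    rw [h.inp g hg' (hg hg' k)] at hi
    rw [h.ng g hg' (hg hg' k)]
    exact M.flg g hg' (hg hg' k) i hi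
  · exact fun u hu => (h.dlo u hu).trans (M.dlo u hu)
  · exact fun u hu k => (M.dex u hu (h.dex u hu k).1).trans (h.dex u hu k).2
  · exact fun u hu k => (M.dep u hu ((h.dep u hu).trans k)).mono (h.dep u hu)
  · intro u hu k k'
    have e := h.sg u hu (hg hu k) k'
    rw [e] at k' ⊢
    exact M.sg u hu (hg hu k) k'
  · intro g hg' k i hx
    have h1 := M.lb g hg' (hg hg' k) i hx
    rcases h.lb g hg' (hg hg' k) i with e | e | ⟨hi, e⟩
    · omega
    · omega
    · rw [M.src_eq hg' (hg hg' k) hi] at hx ⊢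
      rcases e with e | e
      · exact absurd (M.gat _ hi e) (K.model.dis _ hx)
      · have := M.dlo _ hi
        omega
  · exact fun g hg' k i v hv e => excl_sound K M hg' (hg hg' k) hv (h.nf g hg' (hg hg' k) i v hv e)
  · rw [h.out]
    exact M.out
  · exact M.n63
  · intro g hg' k i
    rw [h.inp g hg' (hg hg' k)]
    exact M.wfi g hg' (hg hg' k) i
  · rw [h.out]
    exact M.wfo
  · intro u hu
    rw [h.kd u hu, M.kd u hu, AP.kdS, AP.kdS, h.out, h.n]
    refine congrArg (· + _) (congrArg Finset.card (Finset.filter_congr fun w hw => ?_))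
    have hw' := Finset.mem_range.1 (Finset.mem_product.1 hw).1
    rw [h.gate _ hw']
    exact and_congr_right fun k => by rw [h.inp _ hw' k]
  · exact h.nfw
  · exact h.cnw
  · exact fun v hv k hk e => (h.cn v hv k hk e).sound K M
  · intro e
    obtain ⟨e1, e2, e3⟩ := h.full e
    rw [e2, e3]
    exact M.full e1

theorem holdsX_der (h : Der A B) (h' : HoldsX tag B) : HoldsX tag A :=
  fun s C V E K T M => h' s C V E K T (der_match K M h)

theorem Eqv.der (h : Eqv A B) : Der A B := by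
  refine ⟨h.n, h.gate, fun u hu => (h.dlo u hu).le,
    fun u hu k => ⟨(h.dex u hu).symm.trans k, (h.dlo u hu).ge⟩, fun u hu => (h.dep u hu).ge,
    fun u hu k _ => h.sg u hu k, h.ng, h.inp, h.pol, fun g hg k i => Or.inl (h.lb g hg k i).le,
    fun g hg k i v hv e => ?_, h.nfw, h.out, h.kd, h.cn, h.cnw,
    fun e => ⟨h.full.1.symm.trans e, h.full.2⟩⟩
  rcases h.nf g hg k i v hv e with e | e | e
  exacts [Or.inl e, Or.inr (Or.inl e), Or.inr (Or.inr (Or.inr (Or.inl e)))]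

theorem Eqv.ab (h : Eqv A B) {v w : ℕ} (a : B.Ab v w) : A.Ab v w :=
  a.map h.n h.cn fun v hv k i _ =>
    ⟨(h.gate v hv).symm.trans k, (h.inp v hv ((h.gate v hv).symm.trans k) i).symm⟩

theorem Eqv.trans (h : Eqv A B) (h' : Eqv B Q) : Eqv A Q := by
  have l : ∀ {u}, u < A.n → u < B.n := fun hu => h.n ▸ hu
  have l' : ∀ {u}, A.n ≤ u → B.n ≤ u := fun hu => h.n ▸ hu
  have k : ∀ {u b}, u < A.n → A.gate u = b → B.gate u = b := fun hu e => (h.gate _ hu).trans e
  refine ⟨h'.n.trans h.n, fun u hu => (h'.gate u (l hu)).trans (h.gate u hu),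
    fun u hu => (h'.dlo u (l hu)).trans (h.dlo u hu),
    fun u hu => (h'.dex u (l hu)).trans (h.dex u hu),
    fun u hu => (h'.dep u (l hu)).trans (h.dep u hu),
    fun u hu e => (h'.sg u (l hu) (k hu e)).trans (h.sg u hu e),
    fun u hu e => (h'.ng u (l hu) (k hu e)).trans (h.ng u hu e),
    fun u hu e i => (h'.inp u (l hu) (k hu e) i).trans (h.inp u hu e i),
    fun u hu e i hi => (h'.pol u (l hu) (k hu e) i (l (h.inp u hu e i ▸ hi))).trans
      (h.pol u hu e i hi),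
    fun u hu e i => (h'.lb u (l hu) (k hu e) i).trans (h.lb u hu e i),
    fun g hg e i v hv e' => ?_, fun g hg i v hv => h'.nfw g (l hg) i v (l' hv),
    h'.out.trans h.out, fun u hu => (h'.kd u (l hu)).trans (h.kd u hu),
    fun v hv w hw e => h.ab (h'.cn v (l hv) w (l hw) e),
    fun g hg v hv => h'.cnw g (l hg) v (l' hv), h'.full.1.trans h.full.1,
    h'.full.2.1.trans h.full.2.1, h'.full.2.2.trans h.full.2.2⟩
  have := h'.nf g (l hg) (k hg e) i v (l hv) e'
  rw [h.inp g hg e, h.inp g hg e, h.n] at this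
  exact this.elim (h.nf g hg e i v hv) Or.inr

theorem AX.Ab.conn {u g v w : ℕ} {i : Bool} (o p : Bool) (hi : A.n ≤ A.inp g i) (a : A.Ab v w) :
    (A.conn u g i o p).Ab v w := by
  refine AX.Ab.map (A := A.conn u g i o p) (B := A) rfl (fun v hv w hw e => AX.Ab.cn hv hw ?_)
    (fun v _ k j hj => ⟨k, if_neg ?_⟩) a
  · change upd A.cn g (fun v => A.cn g v || A.cn u v) v w = true
    unfold upd
    split_ifs with e'
    · exact Bool.or_eq_true_iff.2 (Or.inl (e' ▸ e))
    · exact e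
  · rintro ⟨rfl, rfl⟩
    exact absurd hj (not_lt.2 hi)

theorem Eqv.conn (h : Eqv A B) {u g : ℕ} (hu : u < A.n) (hg : g < A.n) (hk : A.gate g = true)
    (i o p : Bool) (hi : A.n ≤ A.inp g i) : Eqv (A.conn u g i o p) (B.conn u g i o p) := by
  have hc : B.cdeg u g i = A.cdeg u g i := by
    rw [AX.cdeg, AX.cdeg, h.dlo u hu, h.kd u hu, h.gate u hu, h.lb g hg hk]
  refine ⟨h.n, h.gate, fun v hv => ?_, h.dex, h.dep, h.sg, fun v hv k => ?_, fun v hv k j => ?_,
    fun v hv k j hj => ?_, fun v hv k j => ?_, fun v hv k j w hw e => ?_, h.nfw, h.out,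
    fun v hv => ?_, fun v hv w hw => ?_, fun v hv w hw => ?_, h.full⟩
  · change upd B.dlo u _ v = upd A.dlo u _ v
    rw [upd, upd, hc, h.dlo v hv]
  · change upd B.ng g _ v = upd A.ng g _ v
    rw [upd, upd, h.ng v hv k]
  · change upd2 B.inp g i _ v j = upd2 A.inp g i _ v j
    rw [upd2, upd2, h.inp v hv k]
  · change upd2 B.pol g i _ v j = upd2 A.pol g i _ v j
    change upd2 A.inp g i _ v j < A.n at hj
    rw [upd2] at hj
    rw [upd2, upd2]
    split_ifs at hj ⊢ with e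
    exacts [rfl, h.pol v hv k j hj]
  · change upd2 B.lb g i _ v j = upd2 A.lb g i _ v j
    rw [upd2, upd2, hc, h.gate u hu, h.lb v hv k]
  · have hw' : w < A.n := hw
    rcases h.nf v hv k j w hw e with f | f | f
    · exact Or.inl f
    · have e1 : (A.conn u g i o p).inp v j = A.inp v j := if_neg (by
        rintro ⟨rfl, rfl⟩
        exact absurd f.1 (not_lt.2 hi))
      exact Or.inr (Or.inl (e1 ▸ f))
    · have e1 : (A.conn u g i o p).inp v (!j) = A.inp v (!j) := if_neg (by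
        rintro ⟨rfl, rfl⟩
        omega)
      exact Or.inr (Or.inr (e1.trans f))
  · change upd B.kd u _ v = upd A.kd u _ v
    rw [upd, upd, h.kd u hu, h.kd v hv]
  · change upd B.cn g (fun v => B.cn g v || B.cn u v) v w = true → _
    unfold upd
    split_ifs with e
    · subst e
      intro e
      have e1 : (A.conn u v i o p).inp v i = u := if_pos ⟨rfl, rfl⟩
      rcases Bool.or_eq_true_iff.1 e with e | e
      · exact (h.cn v hv w hw e).conn o p hi
      · exact AX.Ab.wire i hv hk (e1.symm ▸ hu) (e1.symm ▸ (h.cn u hu w hw e).conn o p hi)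
    · exact fun e => (h.cn v hv w hw e).conn o p hi
  · change upd B.cn g (fun v => B.cn g v || B.cn u v) v w = false
    unfold upd
    split_ifs with e
    · simp only [h.cnw g hg w hw, h.cnw u hu w hw, Bool.or_self]
    · exact h.cnw v hv w hw

theorem Eqv.exact (h : Eqv A B) (u d : ℕ) : Eqv (A.exact u d) (B.exact u d) := by
  refine ⟨h.n, h.gate, fun v hv => ?_, fun v hv => ?_, h.dep, h.sg, h.ng, h.inp, h.pol, h.lb, h.nf,
    h.nfw, h.out, h.kd, fun v hv w hw e => ?_, h.cnw, h.full⟩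
  · change upd B.dlo u _ v = upd A.dlo u _ v
    rw [upd, upd, h.dlo v hv]
  · change upd B.dex u _ v = upd A.dex u _ v
    rw [upd, upd, h.dex v hv]
  · exact AX.Ab.map (A := A.exact u d) (B := A) rfl (fun v hv w hw e => AX.Ab.cn hv hw e)
      (fun v _ k j _ => ⟨k, rfl⟩) (h.cn v hv w hw e)

theorem good_sle {S S' : Sim} (h : SLe S S') (g : Good S s C) : Good S' s C := by
  obtain ⟨s', C', V', H, I⟩ := g
  have n61 := I.n61
  obtain ⟨c1, c2, c3, c4, c5⟩ := h.cnt
  have al : ∀ {u}, S'.Alive u ↔ S.Alive u := fun {u} => by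
    rw [Sim.Alive, Sim.Alive, h.n]
    exact and_congr_right fun hu => by rw [h.al u (by omega)]
  have ag : ∀ {u}, S'.AG u → S.AG u := fun {u} a =>
    have a' := al.1 ⟨a.1, a.2.1⟩
    ⟨a'.1, a'.2, (h.gate u a').symm.trans a.2.2⟩
  have av : ∀ {u}, S'.AV u → S.AV u := fun {u} a =>
    have a' := al.1 ⟨a.1, a.2.1⟩
    ⟨a'.1, a'.2, (h.gate u a').symm.trans a.2.2⟩
  have va : ∀ {r}, S'.Valid H r ↔ S.Valid H r := or_congr_left al
  have le : ∀ {r}, S.Valid H r → r ≤ 192 := fun {r} a => by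
    rcases a with a | a | a
    · have := a.1
      omega
    · exact (I.usub r a).2.le
    · exact a.le
  refine ⟨s', C', V', H, h.n ▸ n61, c3 ▸ I.t80, I.usub, I.cf, I.reach, I.model, c3 ▸ I.cardX,
    c1 ▸ c2 ▸ I.cardG, fun u v a b => I.inj u v (al.1 a) (al.1 b), fun u a => I.var u (av a),
    fun u a => I.gat u (ag a), fun g a i => ?_, fun g a e => ?_, ?_, fun u a => ?_,
    fun r a e => ?_, fun r a => ?_, fun u a => ?_,
    fun v hv e => I.degh v hv fun u a => e u (al.2 a), fun r a e => ?_, fun u a => ?_,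
    c4 ▸ I.elim, fun u a => ?_, ?_⟩
  · rw [(h.inp g (ag a) i).1, (h.inp g (ag a) i).2, va]
    exact I.wire g (ag a) i
  · exact I.uf g (ag a) ((h.uf g ⟨(ag a).1, (ag a).2.1⟩).symm.trans e)
  · rw [h.out, va]
    exact I.out
  · rw [h.sg u (av a)]
    exact I.sg u (av a)
  · have := h.sd r (le (va.1 a))
    exact (I.sd r (va.1 a) (this.trans e)).mono this
  · obtain ⟨b1, b2, b3⟩ := I.cov r (va.1 a)
    have m := h.may r (le (va.1 a))
    refine ⟨fun u a' e => m u ?_ (b1 u (al.1 a') e), fun e => m 61 (by omega) (b2 e),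
      fun hv e => ?_⟩
    · have := (al.1 a').1
      omega
    · obtain ⟨b4, b5⟩ := b3 hv fun u a' => e u (al.2 a')
      exact ⟨fun e => m 62 (by omega) (b4 e), fun e => m 63 (by omega) (b5 e)⟩
  · rw [h.dlo u (al.1 a)]
    exact I.degv u (al.1 a)
  · rcases h.c r (le (va.1 a)) with e' | e'
    · rw [e'] at e ⊢
      exact I.link r (va.1 a) e
    · omega
  · rw [h.dlo u (al.1 a), h.dex u (al.1 a), h.gate u (al.1 a)]
    exact I.d0 u (al.1 a)
  · rw [al, h.hst, h.pend u (al.1 a)]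
    exact I.pend u (al.1 a)
  · rw [c1, c2, c3, c5]
    exact I.rs

/-- a gate of least rank among those of depth larger than three starts a chain of four gates -/
theorem Ctx.chain4 (K : Ctx s C V) : ∃ g₅ ∈ C.G, ∃ g₄ ∈ C.G, ∃ g₃ ∈ C.G, ∃ g₂ ∈ C.G,
    ∃ i₅ i₄ i₃ : Bool, (C.inp g₅ i₅).1 = g₄ ∧ (C.inp g₄ i₄).1 = g₃ ∧ (C.inp g₃ i₃).1 = g₂ ∧
    (∀ i, (C.inp g₂ i).1 ∈ s.X) ∧ Early C 4 g₅ ∧ Early C 3 g₄ ∧ Early C 2 g₃ ∧ Early C 1 g₂ := by
  classical
  have hb := K.big
  have M := K.model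
  have ho : ¬ Early C 3 C.out.1 := fun h =>
    out_late M (K.p1 s Reach.refl) (by omega) ((h.dep M M.node_out).mono (by omega))
  obtain ⟨g₅, h₅, hmin⟩ := (C.G.filter fun g => ¬ Early C 3 g).exists_min_image C.rk
    ⟨C.out.1, Finset.mem_filter.2 ⟨(not_early ho).1, ho⟩⟩
  obtain ⟨G₅, n₅⟩ := Finset.mem_filter.1 h₅
  have hin : ∀ i, Early C 3 (C.inp g₅ i).1 := by
    intro i
    by_contra hn
    have hG := (not_early hn).1
    have := hmin _ (Finset.mem_filter.2 ⟨hG, hn⟩)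
    have := M.rk g₅ G₅ i hG
    omega
  obtain ⟨-, i₅, n₄⟩ := not_early n₅
  obtain ⟨G₄, i₄, n₃⟩ := not_early n₄
  obtain ⟨G₃, i₃, n₂⟩ := not_early n₃
  have G₂ := by_contra fun hv => n₂ (Early.base hv)
  have e₃ : Early C 2 _ := ((hin i₅).inp G₄).2 i₄
  have e₂ : Early C 1 _ := (e₃.inp G₃).2 i₃
  refine ⟨g₅, G₅, _, G₄, _, G₃, _, G₂, i₅, i₄, i₃, rfl, rfl, rfl, fun i => ?_, Early.step G₅ hin,
    hin i₅, e₃, e₂⟩
  have e₁ : Early C 0 _ := (e₂.inp G₂).2 i
  rcases M.src _ G₂ i with h | h | h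
  · exact absurd h (K.nz _ G₂ i)
  · exact h
  · exact absurd h e₁.not_mem

theorem core_of_roots4 (h : ∀ p q r, Holds 2 (rootAP4 p q r)) : Core := by
  intro s C V K
  have hb := K.big
  have M := K.model
  have T : (Degen s C).card ≤ 2 := by
    by_contra hn
    exact K.nconst (three_degen M (K.p1 s Reach.refl) (by omega) (by omega))
  obtain ⟨g₅, G₅, g₄, G₄, g₃, G₃, g₂, G₂, i₅, i₄, i₃, e₅, e₄, e₃, hx, E₅, E₄, E₃, E₂⟩ := K.chain4
  have r₅ := M.rk g₅ G₅ i₅ (e₅ ▸ G₄)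
  have r₄ := M.rk g₄ G₄ i₄ (e₄ ▸ G₃)
  have r₃ := M.rk g₃ G₃ i₃ (e₃ ▸ G₂)
  rw [e₅] at r₅
  rw [e₄] at r₄
  rw [e₃] at r₃
  have ne : ∀ {a b}, C.rk a < C.rk b → a ≠ b := fun r e => r.ne (congrArg _ e)
  have n₁ := ne r₃
  have n₂ := ne r₄
  have n₃ := ne r₅
  have n₄ := ne (r₃.trans r₄)
  have n₅ := ne (r₄.trans r₅)
  have n₆ := ne ((r₃.trans r₄).trans r₅)
  have nx : ∀ i, ∀ g ∈ C.G, (C.inp g₂ i).1 ≠ g := fun i g hg e => M.dis _ (hx i) (e ▸ hg)
  have n₇ := K.ne g₂ G₂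
  have a1 := nx false g₂ G₂
  have a2 := nx false g₃ G₃
  have a3 := nx false g₄ G₄
  have a4 := nx false g₅ G₅
  have a5 := nx true g₂ G₂
  have a6 := nx true g₃ G₃
  have a7 := nx true g₄ G₄
  have a8 := nx true g₅ G₅
  refine h (C.inp g₃ i₃).2 (C.inp g₄ i₄).2 (C.inp g₅ i₅).2 s C V
    ⟨fun u => if u = 0 then g₂ else if u = 1 then g₃ else if u = 2 then g₄ else if u = 3 then g₅
        else if u = 4 then (C.inp g₂ false).1 else (C.inp g₂ true).1,
      fun u => if u = 4 then (C.inp g₂ false).2 else if u = 5 then (C.inp g₂ true).2 else false,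
      fun u => if u = 1 then i₃ else if u = 2 then i₄ else if u = 3 then i₅ else false, false⟩ K T
    ⟨fun u hu v hv => ?_, fun u hu k => ?_, fun u hu k => ?_, fun g hg k i hi => ?_,
      fun g hg k i _ => ?_, fun u hu => ?_, fun u _ k => ?_, fun u hu _ => ?_, fun u _ _ k => ?_,
      fun g _ _ i _ => ?_, fun g _ _ i v _ k => ?_, fun k => ?_⟩
  · change u < 6 at hu
    change v < 6 at hv
    interval_cases u <;> interval_cases v <;> simp <;> omega
  · change u < 6 at hu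
    interval_cases u <;> simp_all [rootAP4]
  · change u < 6 at hu
    interval_cases u <;> simp_all [rootAP4]
  · change g < 6 at hg
    interval_cases g <;> cases i <;> simp [rootAP4] at k hi ⊢
    · rw [← e₃]
    · rw [← e₄]
    · rw [← e₅]
  · change g < 6 at hg
    interval_cases g <;> simp [rootAP4] at k ⊢
  · change u < 6 at hu
    interval_cases u
    exacts [K.live _ G₂, K.live _ G₃, K.live _ G₄, K.live _ G₅, deg_pos_of_inp G₂ _,
      deg_pos_of_inp G₂ _]
  · simp [rootAP4] at k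
  · change u < 6 at hu
    interval_cases u
    exacts [E₂, E₃, E₄, E₅, Early.base (M.dis _ (hx _)), Early.base (M.dis _ (hx _))]
  · simp [rootAP4] at k
  · simp [rootAP4]
  · simp [rootAP4] at k
  · simp [rootAP4] at k

end Pool.Agent.Lib.MP_79d702_lc.U2
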