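import Pool.Agent.Lib.MP_79d702_lc.U2.V2A
import Pool.Agent.Lib.MP_79d702_lc.U2.V2D
import Pool.Agent.Lib.MP_79d702_lc.U2.V2B1

/-!
The operations on packed states.
-/

namespace Pool.Agent.Lib.MP_79d702_lc.U2.V2

variable {n R X D o f : ℕ}

/-- the fields `F` describe the node `w` of `A` -/
def VBSame (A : AX) (w : ℕ) (F : VB) : Prop :=
  F.gate = A.gate w ∧ F.dlo = A.dlo w ∧ F.dex = A.dex w ∧ 15 - F.dp = A.dep w ∧
    F.kd = A.kd w ∧ (A.gate w = false → (if F.sk then F.ng.toNat else 2) = A.sg w) ∧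
    (A.gate w = true → F.ng = A.ng w ∧ ∀ i, (if F.kn i then F.src i else 63) = A.inp w i ∧
      F.pol i = A.pol w i ∧ F.lb i = A.lb w i)

theorem vb_eqv {A : AX} {ρ : ℕ → VB} (hn : A.n = n) (h : ∀ w < n, VBSame A w (ρ w))
    (hnf : ∀ g < n, ∀ i : Bool, ∀ v < n, X.testBit (64 * (2 * g + i.toNat) + v) = true →
      A.nf g i v = true ∨ (A.inp g i < A.n ∧ A.inp g i ≠ v) ∨ A.inp g (!i) = v)
    (hcn : ∀ v < n, ∀ h < n, (D.testBit (64 * (2 * h) + v) ||
      D.testBit (64 * (2 * h + 1) + v)) = true → A.Ab v h)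
    (ho : o = A.out) (hf : f.testBit 12 = A.full ∧ f % 64 = A.z1 ∧ f / 64 % 64 = A.z2) :
    Eqv A (absV n ρ X D o f) := by
  subst hn
  refine ⟨rfl, fun u hu => (h u hu).1, fun u hu => (h u hu).2.1, fun u hu => (h u hu).2.2.1,
    fun u hu => (h u hu).2.2.2.1, fun u hu => (h u hu).2.2.2.2.2.1,
    fun u hu hk => ((h u hu).2.2.2.2.2.2 hk).1, fun u hu hk i => (((h u hu).2.2.2.2.2.2 hk).2 i).1,
    fun u hu hk i _ => (((h u hu).2.2.2.2.2.2 hk).2 i).2.1,
    fun u hu hk i => (((h u hu).2.2.2.2.2.2 hk).2 i).2.2, fun g hg _ i v hv hx => ?_,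
    fun g _ i v hv => ?_, ho, fun u hu => (h u hu).2.2.2.2.1, fun v hv k hk hx => ?_,
    fun g _ v hv => ?_, hf⟩
  · simp only [absV, Bool.and_eq_true] at hx
    exact hnf g hg i v hv hx.2
  · simp [absV, not_lt.mpr hv]
  · simp only [absV, Bool.and_eq_true] at hx
    exact hcn v hv k hk hx.2
  · simp [absV, not_lt.mpr hv]

/-- only records change -/
theorem vb_eqv' {A : AX} {ρ : ℕ → VB} (hn : A.n = n) (h : ∀ w < n, VBSame A w (ρ w))
    (hnf : A.nf = (absV n ρ X D o f).nf) (hcn : A.cn = (absV n ρ X D o f).cn)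
    (ho : o = A.out) (hf : f.testBit 12 = A.full ∧ f % 64 = A.z1 ∧ f / 64 % 64 = A.z2) :
    Eqv A (absV n ρ X D o f) := by
  refine vb_eqv hn h (fun g _ i v hv hx => Or.inl ?_) (fun v hv k hk hx => ?_) ho hf
  · rw [hnf]
    simp [absV, hv, hx]
  · refine .cn (hn ▸ hv) (hn ▸ hk) ?_
    rw [hcn]
    simp only [absV, hk, hx, decide_true, Bool.and_self]

private theorem row_eq {j k v w : ℕ} (hv : v < 64) (hw : w < 64) (h : 64 * j + v = 64 * k + w) :
    j = k ∧ v = w := by omega

private theorem slot_inj {g h : ℕ} {i j : Bool} (e : 2 * g + i.toNat = 2 * h + j.toNat) :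
    g = h ∧ i = j := by
  cases i <;> cases j <;> simp at e ⊢ <;> omega

private theorem ed_new (W : Wf n R X D) {c : ℕ} (hc : c < 2 ^ 48) :
    VBEd R (R.add (Nat.shiftLeft c (n.mul 128))) n (vw c) := by
  have h0 := W.top n le_rfl
  have := rcd_add R n (c := c) (by omega)
  rw [h0, zero_add] at this
  exact .of this hc rfl

private theorem wf_new (W : Wf n R X D) (hn : n ≤ 62) {R' D' : ℕ} {F : VB} (h : VBEd R R' n F)
    (hk : ∀ i, F.kn i = false)
    (hd : ∀ j, ∀ v < 64, D'.testBit (64 * j + v) = true → j < 2 * (n + 1) ∧ v < n + 1) :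
    Wf (n + 1) R' X D' := by
  refine ⟨by omega, fun w hw => ?_, h.lane W.lane, fun g i hg => ?_, fun g i v hv hx => ?_, hd⟩
  · rw [h.top w (by omega)]
    exact W.top w (by omega)
  · by_cases e : g = n
    · subst e
      have := hk i
      rw [← h.eq] at this
      exact absurd (this.symm.trans hg) (by simp)
    · rw [h.top g e] at hg ⊢
      exact (W.src g i hg).trans n.lt_succ_self
  · obtain ⟨h1, h2⟩ := W.x g i v hv hx
    refine ⟨by omega, h2.imp (fun h3 => by omega) fun h3 => ?_⟩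
    rw [h.top g (by omega)]
    exact h3

private theorem nf_new (W : Wf n R X D) (hn : n ≤ 62) (k : Bool) :
    ∀ g < n + 1, ∀ i : Bool, ∀ v < n + 1, X.testBit (64 * (2 * g + i.toNat) + v) = true →
      ((abs n R X D o f).new k).nf g i v = true ∨
      (((abs n R X D o f).new k).inp g i < ((abs n R X D o f).new k).n ∧
        ((abs n R X D o f).new k).inp g i ≠ v) ∨ ((abs n R X D o f).new k).inp g (!i) = v := by
  intro g _ i v hv hx
  obtain ⟨h1, h2⟩ := W.x g i v (by omega) hx
  have e : g ≠ n := by omega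
  by_cases hv' : v < n
  · left
    simp [AX.new, abs, upd, e, hv', hx]
  · right
    left
    have h3 := h2.resolve_left hv'
    have h4 := W.src g i h3
    simp only [AX.new, abs, upd, if_neg e, h3, if_true]
    omega

private theorem cn_new (W : Wf n R X D) (hn : n ≤ 62) (k : Bool) {v h : ℕ} (hv : v < n + 1)
    (hx : (D.testBit (64 * (2 * h) + v) || D.testBit (64 * (2 * h + 1) + v)) = true) :
    ((abs n R X D o f).new k).Ab v h := by
  have h1 : h < n ∧ v < n := by
    rcases Bool.or_eq_true_iff.1 hx with h1 | h1 <;> have := W.d _ v (by omega) h1 <;> omega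
  refine .cn hv (Nat.lt_succ_of_lt h1.1) ?_
  simp only [AX.new, abs, upd, if_neg h1.2.ne, h1.1, hx, decide_true, Bool.and_self]

theorem new_var (W : Wf n R X D) (hn : n ≤ 62) : Wf (n.add 1) (nvR n R) X D ∧
    Eqv ((abs n R X D o f).new false) (abs (n.add 1) (nvR n R) X D o f) := by
  have h := ed_new W (c := 32212254721) (by omega)
  refine ⟨wf_new W hn h (fun i => by cases i <;> decide) fun j v hv hx => ?_, ?_⟩
  · have := W.d j v hv hx
    omega
  · rw [abs_absV (n.add 1), nvR, h.vR]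
    refine vb_eqv rfl (fun w _ => ?_) (nf_new W hn false)
      (fun v hv k _ hx => cn_new W hn false hv hx) rfl ⟨rfl, rfl, rfl⟩
    by_cases e : w = n
    · subst e
      simp only [VBSame, AX.new, abs, upd, if_true]
      decide
    · simp [VBSame, AX.new, abs_absV, absV, upd, e]

theorem new_gate (W : Wf n R X D) (hn : n ≤ 62) : Wf (n.add 1) (ngR n R) X (ngD n D) ∧
    Eqv ((abs n R X D o f).new true) (abs (n.add 1) (ngR n R) X (ngD n D) o f) := by
  have h := ed_new W (c := 1140867073) (by omega)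
  have hD : ∀ j, ∀ v < 64, (ngD n D).testBit (64 * j + v) = true →
      D.testBit (64 * j + v) = true ∨ (v = n ∧ (j = 2 * n ∨ j = 2 * n + 1)) := by
    intro j v hv hx
    change (D ||| (2 ^ 64 ||| 2 ^ 0) <<< (n * 129)).testBit _ = true at hx
    rw [Nat.testBit_or, Bool.or_eq_true, Nat.testBit_shiftLeft, Nat.testBit_or,
      Nat.testBit_two_pow, Nat.testBit_two_pow] at hx
    refine hx.imp_right fun h1 => ?_
    simp only [Bool.and_eq_true, Bool.or_eq_true, decide_eq_true_eq] at h1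
    omega
  refine ⟨wf_new W hn h (fun i => by cases i <;> decide) fun j v hv hx => ?_, ?_⟩
  · rcases hD j v hv hx with h1 | h1
    · have := W.d j v hv h1
      omega
    · omega
  · rw [abs_absV (n.add 1), ngR, h.vR]
    refine vb_eqv rfl (fun w _ => ?_) (nf_new W hn true) (fun v hv k hk hx => ?_) rfl
      ⟨rfl, rfl, rfl⟩
    · by_cases e : w = n
      · subst e
        simp only [VBSame, AX.new, abs, upd, if_true]
        decide
      · simp [VBSame, AX.new, abs_absV, absV, upd, e]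
    · change v < n + 1 at hv
      by_cases e : v = n ∧ k = n
      · refine .cn hv hk ?_
        simp [AX.new, abs, upd, e.1, e.2]
      · refine cn_new W hn true hv ?_
        rw [Bool.or_eq_true] at hx ⊢
        refine hx.imp (fun h1 => ?_) fun h1 => ?_ <;>
          exact (hD _ v (by omega) h1).resolve_right (by omega)

/-- `x` if `b` is false, else `x` with the bit `k` flipped -/
def flip (x k : ℕ) (b : Bool) : ℕ := if b then x.xor (one k) else x

private theorem ed_flip {g k : ℕ} {F : VB} (hl : rcd R g < 2 ^ 48) (b : Bool)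
    (h : VBEd R (R.xor (one k)) g F) : VBEd R (flip R k b) g (if b then F else vR R g) := by
  cases b
  · exact ⟨fun _ _ => rfl, hl, rfl⟩
  · exact h

private theorem cX_bit {u g : ℕ} (i : Bool) (hu : u < 64) (h : ℕ) (j : Bool) {v : ℕ} (hv : v < 64)
    (hx : (cX X u (2 * g + i.toNat)).testBit (64 * (2 * h + j.toNat) + v) = true) :
    X.testBit (64 * (2 * h + j.toNat) + v) = true ∨ (h = g ∧ j = i ∧ v ≠ u) ∨
      (h = g ∧ j = (!i) ∧ v = u) := by
  rw [cX, slot_xor] at hx
  change ((X ||| ((2 ^ 64 - 1) ^^^ one u) <<< ((2 * g + i.toNat) * 64)) |||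
    one ((2 * g + (!i).toNat) * 64 + u)).testBit _ = true at hx
  have hlt : (2 ^ 64 - 1) ^^^ one u < 2 ^ 64 := by
    refine Nat.xor_lt_two_pow (by omega) ?_
    rw [one_eq]
    exact Nat.pow_lt_pow_right (by omega) hu
  rw [Nat.testBit_or, Nat.testBit_or, Bool.or_eq_true, Bool.or_eq_true, LA.testBit_shl hlt hv,
    testBit_one, decide_eq_true_eq, mul_comm _ 64, Nat.testBit_xor, testBit_one,
    Nat.testBit_two_pow_sub_one, Bool.and_eq_true, decide_eq_true_eq] at hx
  rcases hx with (h1 | ⟨h1, h2⟩) | h1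
  · exact Or.inl h1
  · refine Or.inr (Or.inl ⟨(slot_inj h1).1, (slot_inj h1).2, ?_⟩)
    simpa [hv] using h2
  · obtain ⟨h2, h3⟩ := row_eq hv hu h1
    exact Or.inr (Or.inr ⟨(slot_inj h2).1, (slot_inj h2).2, h3⟩)

private theorem cD_bit (u g : ℕ) (i : Bool) (j : ℕ) {v : ℕ} (hv : v < 64)
    (hx : (cD D u (2 * g + i.toNat)).testBit (64 * j + v) = true) :
    D.testBit (64 * j + v) = true ∨
      (D.testBit (64 * j + u) = true ∧ D.testBit (64 * (2 * g) + v) = true) := by
  rw [cD, slot_shr, o64_eq] at hx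
  change (D ||| ((D >>> u) &&& tab 64 (fun _ => true.toNat) 128) *
    LA.G 128 64 D g).testBit _ = true at hx
  rw [LA.and_sel (by omega), LA.tab_mul (fun j _ => LA.toNat_lt _ (by omega))
    (fun j _ => LA.toNat_mul_lt _ (LA.G_lt 128 64 D g)), Nat.testBit_or, Bool.or_eq_true,
    LA.testBit_tab (fun j _ => LA.toNat_mul_lt _ (LA.G_lt 128 64 D g)) j hv,
    LA.testBit_toNat_mul, LA.testBit_G, Nat.testBit_shiftRight] at hx
  refine hx.imp_right fun h1 => ?_
  simp only [Bool.and_eq_true] at h1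
  rw [add_comm, show 64 * (2 * g) = 128 * g by ring]
  exact ⟨h1.2.1.2, h1.2.2.2⟩

private theorem land16 (r : ℕ) : r / 2 ^ 26 % 2 ^ 5 &&& 16 = 16 * (r.testBit 30).toNat := by
  have e : r.testBit 30 = (r / 2 ^ 26 % 2 ^ 5).testBit 4 := by
    rw [Nat.testBit_mod_two_pow, Nat.testBit_div_two_pow]
    rfl
  rw [e, show (16 : ℕ) = 2 ^ 4 by rfl, Nat.and_two_pow, mul_comm]

private theorem cR_eq {u g : ℕ} (i : Bool) :
    cR R u (2 * g + i.toNat) =
      (R.add ((((abs n R X D o f).cdeg u g i - (vR R u).dlo).add 1099511627776).shiftLeft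
        (u.mul 128))).xor (Nat.shiftLeft (rcd R g / 2 ^ so i % 2 ^ 12 ^^^
          ((if (vR R u).gate then 9 else min ((abs n R X D o f).cdeg u g i) 8) * 256 + u * 4 + 2))
        (pos (2 * g + i.toNat))) := by
  have e1 : (sl R (2 * g + i.toNat)).land 4095 = rcd R g / 2 ^ so i % 2 ^ 12 :=
    sl_field R g i (p := 0) (w := 12) le_rfl
  have e2 : ((rc R u).shiftRight 40).land 255 = (vR R u).kd := rc_field R u (w := 8) (by omega)
  have e3 : (rc R u).land 15 = (vR R u).dlo := rc_field R u (p := 0) (w := 4) (by omega) |>.trans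
    (by simp [vR, vw])
  have e4 : ((rc R u).shiftRight 30).land 1 = (vR R u).gate.toNat := by
    refine (rc_field R u (p := 30) (w := 1) (by omega)).trans ?_
    exact (Nat.toNat_testBit _ _).symm
  have e5 : ((rc R u).shiftRight 26).land 16 = 16 * (vR R u).gate.toNat := by
    have h1 := rc_field R u (p := 26) (w := 5) (by omega)
    refine Eq.trans ?_ (land16 (rcd R u))
    rw [← h1]
    change _ = ((rc R u).shiftRight 26 &&& (2 ^ 5 - 1)) &&& 16
    rw [Nat.and_assoc]
    rfl
  have e6 : (rcd R g / 2 ^ so i % 2 ^ 12).shiftRight 8 = (vR R g).lb i := by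
    change _ >>> 8 = rcd R g / 2 ^ (so i + 8) % 16
    rw [Nat.shiftRight_eq_div_pow, pow_add, ← Nat.div_div_eq_div_mul]
    omega
  have b1 : (vR R g).lb i < 16 := Nat.mod_lt _ (by omega)
  have e7 : (abs n R X D o f).cdeg u g i = max (max (vR R u).dlo ((vR R u).kd + 1))
      (if (vR R u).gate then 0 else (vR R g).lb i) := rfl
  simp only [cR, e1, e2, e3, e4, e5, e6, e7, Nat.add_eq, Nat.sub_eq, Nat.mul_eq]
  generalize (vR R u).gate = k
  generalize (vR R u).kd = a
  generalize (vR R u).dlo = d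
  generalize (vR R g).lb i = l at b1
  have k1 : a + 1 + (l - 16 * k.toNat - (a + 1)) - d =
      max (max d (a + 1)) (if k = true then 0 else l) - d := by
    cases k <;> simp <;> omega
  rw [k1]
  have k2 : d ≤ max (max d (a + 1)) (if k = true then 0 else l) := by omega
  generalize max (max d (a + 1)) (if k = true then 0 else l) = c at k2
  have k3 : d + (c - d) - (d + (c - d) - 8) + (k.toNat * 9 - (d + (c - d) - (d + (c - d) - 8))) =
      if k = true then 9 else min c 8 := by
    cases k <;> simp <;> omega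
  rw [k3]
  rfl

private theorem slot_of {r r' p : ℕ} (k1 : r'.testBit p = r.testBit p)
    (k2 : r'.testBit (p + 1) = r.testBit (p + 1))
    (k3 : r' / 2 ^ (p + 2) % 64 = r / 2 ^ (p + 2) % 64)
    (k4 : r' / 2 ^ (p + 8) % 16 = r / 2 ^ (p + 8) % 16) :
    r / 2 ^ p % 2 ^ 12 = r' / 2 ^ p % 2 ^ 12 := by
  simp only [Nat.testBit_eq_decide_div_mod_eq, decide_eq_decide, pow_add,
    ← Nat.div_div_eq_div_mul] at k1 k2 k3 k4
  generalize r / 2 ^ p = x at *
  generalize r' / 2 ^ p = y at *
  have h1 : y % 2 = x % 2 := by omega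
  have h2 : y / 2 % 2 = x / 2 % 2 := by omega
  clear k1 k2
  omega

private theorem conn_same {ρ : ℕ → VB} {u g c : ℕ} {i : Bool} (a p : Bool)
    (hk : (ρ g).gate = true) (hc : (absV n ρ X D o f).cdeg u g i = c) (w : ℕ) :
    VBSame ((absV n ρ X D o f).conn u g i ((ρ g).ng ^^ a) p) w
      (upd (upd ρ u { ρ u with dlo := c, kd := (ρ u).kd + 1 }) g
        { upd ρ u { ρ u with dlo := c, kd := (ρ u).kd + 1 } g with
          pol := vbU (upd ρ u { ρ u with dlo := c, kd := (ρ u).kd + 1 } g).pol i p,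
          kn := vbU (upd ρ u { ρ u with dlo := c, kd := (ρ u).kd + 1 } g).kn i true,
          src := vbU (upd ρ u { ρ u with dlo := c, kd := (ρ u).kd + 1 } g).src i u,
          ng := (upd ρ u { ρ u with dlo := c, kd := (ρ u).kd + 1 } g).ng ^^ a,
          lb := vbU (upd ρ u { ρ u with dlo := c, kd := (ρ u).kd + 1 } g).lb i
            (if (ρ u).gate then 9 else min c 8) } w) := by
  simp only [VBSame, AX.conn, hc]
  by_cases e : w = g <;> by_cases e' : w = u
  · subst e e'
    cases i <;> simp [absV, upd, upd2, vbU, hk]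
  · subst e
    cases i <;> simp [absV, upd, upd2, vbU, e', hk]
  · subst e'
    simp [absV, upd, upd2, e]
  · simp [absV, upd, upd2, e, e']

theorem conn_eqv (W : Wf n R X D) {u g : ℕ} {i : Bool} (hu : u < n) (hg : g < n)
    (hk : (abs n R X D o f).gate g = true) (hi : n ≤ (abs n R X D o f).inp g i)
    (hd : (abs n R X D o f).kd u ≤ 14) (a p : Bool) :
    Wf n (flip (flip (cR R u (2 * g + i.toNat)) (128 * g + 5) a) (128 * g + so i) p)
      (cX X u (2 * g + i.toNat)) (cD D u (2 * g + i.toNat)) ∧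
    Eqv ((abs n R X D o f).conn u g i ((abs n R X D o f).ng g ^^ a) p)
      (abs n (flip (flip (cR R u (2 * g + i.toNat)) (128 * g + 5) a) (128 * g + so i) p)
        (cX X u (2 * g + i.toNat)) (cD D u (2 * g + i.toNat)) o f) := by
  have hn := W.n63
  rw [cR_eq (n := n) (X := X) (D := D) (o := o) (f := f)]
  have b1 : (vR R g).lb i < 16 := Nat.mod_lt _ (by omega)
  have b2 : (vR R u).dlo < 16 := Nat.mod_lt _ (by omega)
  have e7 : (abs n R X D o f).cdeg u g i = max (max (vR R u).dlo ((vR R u).kd + 1))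
      (if (vR R u).gate then 0 else (vR R g).lb i) := rfl
  change (vR R u).kd ≤ 14 at hd
  have b3 : (vR R u).dlo ≤ (abs n R X D o f).cdeg u g i ∧ (abs n R X D o f).cdeg u g i ≤ 15 := by
    rw [e7]
    split_ifs <;> omega
  have h1 := ed_dlo_kd (W.lane u) (c := (abs n R X D o f).cdeg u g i - (vR R u).dlo) (by omega) hd
  rw [Nat.add_sub_cancel' b3.1] at h1
  have W1 := h1.wf' W hu rfl rfl
  generalize R.add _ = R1 at h1 W1 ⊢
  have s1 : rcd R g / 2 ^ so i % 2 ^ 12 = rcd R1 g / 2 ^ so i % 2 ^ 12 := by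
    by_cases e : g = u
    · subst e
      exact slot_of (congrArg (fun F : VB => F.pol i) h1.eq) (congrArg (fun F : VB => F.kn i) h1.eq)
        (congrArg (fun F : VB => F.src i) h1.eq) (congrArg (fun F : VB => F.lb i) h1.eq)
    · rw [h1.top g e]
  rw [s1]
  have h2 := ed_slot (W1.lane g) i
    (l := if (vR R u).gate then 9 else min ((abs n R X D o f).cdeg u g i) 8) (a := u)
    (by split_ifs <;> omega) (by omega)
  generalize R1.xor _ = R2 at h2 ⊢
  have h3 := ed_flip h2.lt a (ed_ng h2.lt)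
  generalize flip R2 _ a = R3 at h3 ⊢
  have h4 := ed_flip h3.lt p (ed_pol h3.lt i)
  generalize flip R3 _ p = R4 at h4 ⊢
  have h5 : VBEd R1 R4 g { vR R1 g with
      pol := vbU (vR R1 g).pol i p, kn := vbU (vR R1 g).kn i true,
      src := vbU (vR R1 g).src i u, ng := (vR R1 g).ng ^^ a,
      lb := vbU (vR R1 g).lb i
        (if (vR R u).gate then 9 else min ((abs n R X D o f).cdeg u g i) 8) } := by
    have h6 := (h2.trans h3).trans h4
    rw [h3.eq, h2.eq] at h6
    convert h6 using 1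
    cases a <;> cases p <;> simp only [Bool.false_eq_true, if_false, if_true, Bool.xor_false,
      Bool.xor_true, VB.mk.injEq, true_and, and_true] <;> funext j <;> simp only [vbU] <;>
      split_ifs <;> simp
  have W4 : Wf n R4 X D := by
    refine h5.wf W1 hg (fun j hj => ?_) fun j hj => ?_
    · simp only [vbU]
      split_ifs
      exacts [rfl, hj]
    · simp only [vbU] at hj ⊢
      split_ifs at hj ⊢
      exacts [hu, W1.src g j hj]
  have hkn : (rcd R4 g).testBit (so i + 1) = true := by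
    have := congrArg (fun F : VB => F.kn i) h5.eq
    simpa [vR, vw, vbU] using this
  refine ⟨⟨hn, W4.top, W4.lane, W4.src, fun h j v hv hx => ?_, fun j v hv hx => ?_⟩, ?_⟩
  · rcases cX_bit i (by omega) h j hv hx with k1 | ⟨rfl, rfl, -⟩ | ⟨rfl, -, rfl⟩
    · exact W4.x h j v hv k1
    · exact ⟨hg, Or.inr hkn⟩
    · exact ⟨hg, Or.inl hu⟩
  · rcases cD_bit u g i j hv hx with k1 | ⟨k1, k2⟩
    · exact W.d j v hv k1
    · exact ⟨(W.d j u (by omega) k1).1, (W.d _ v hv k2).2⟩
  · rw [abs_absV n R4, h5.vR, h1.vR]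
    have mono : ∀ v < n, ∀ h < n, (D.testBit (64 * (2 * h) + v) ||
        D.testBit (64 * (2 * h + 1) + v)) = true →
        ((abs n R X D o f).conn u g i ((abs n R X D o f).ng g ^^ a) p).Ab v h := by
      intro v hv h hh hx
      refine .cn hv hh ?_
      by_cases e : v = g
      · subst e
        simp only [AX.conn, abs, upd, if_true, hh, hx, decide_true, Bool.and_self, Bool.true_or]
      · simp only [AX.conn, abs, upd, if_neg e, hh, hx, decide_true, Bool.and_self]
    refine vb_eqv rfl (fun w _ => ?_) (fun h _ j v hv hx => ?_) (fun v hv h hh hx => ?_) rfl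
      ⟨rfl, rfl, rfl⟩
    · exact conn_same a p hk rfl w
    · rcases cX_bit i (by omega) h j (by omega) hx with k1 | ⟨rfl, rfl, k1⟩ | ⟨rfl, rfl, rfl⟩
      · left
        simp [AX.conn, abs, hv, k1]
      · right
        left
        simp only [AX.conn, abs, upd2, and_self, if_true]
        exact ⟨hu, k1.symm⟩
      · right
        right
        simp [AX.conn, upd2]
    · by_cases k0 : (D.testBit (64 * (2 * h) + v) || D.testBit (64 * (2 * h + 1) + v)) = true
      · exact mono v hv h hh k0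
      · have k1 : D.testBit (64 * (2 * g) + v) = true ∧ (D.testBit (64 * (2 * h) + u) ||
            D.testBit (64 * (2 * h + 1) + u)) = true := by
          rw [Bool.or_eq_true] at hx k0 ⊢
          rcases hx with hx | hx <;> rcases cD_bit u g i _ (by omega) hx with k1 | k1
          exacts [absurd (Or.inl k1) k0, ⟨k1.2, Or.inl k1.1⟩, absurd (Or.inr k1) k0,
            ⟨k1.2, Or.inr k1.1⟩]
        refine .trans (mono v hv g hg (by rw [k1.1, Bool.true_or])) (.cn hg hh ?_)
        simp only [AX.conn, abs, upd, if_true, hh, k1.2, decide_true, Bool.and_self,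
          Bool.or_true]

theorem exR_eqv (W : Wf n R X D) {u d : ℕ} (hu : u < n) (hd : d < 16) :
    Wf n (exR R u d) X D ∧
      Eqv ((abs n R X D o f).exact u d) (abs n (exR R u d) X D o f) := by
  have h1 := ed_setdlo (W.lane u) hd
  have h := h1.trans (ed_dex h1.lt)
  rw [h1.eq] at h
  refine ⟨h.wf' W hu rfl rfl, ?_⟩
  rw [abs_absV n (exR R u d), exR, h.vR]
  refine vb_eqv' rfl (fun w _ => ?_) rfl rfl rfl ⟨rfl, rfl, rfl⟩
  by_cases e : w = u <;> simp [VBSame, AX.exact, abs_absV, absV, upd, e]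

theorem dex_eqv (W : Wf n R X D) {u : ℕ} (hu : u < n) :
    Wf n (R.lor (Nat.shiftLeft 16 (u.mul 128))) X D ∧
      Eqv ((abs n R X D o f).exact u ((abs n R X D o f).dlo u))
        (abs n (R.lor (Nat.shiftLeft 16 (u.mul 128))) X D o f) := by
  have h := ed_dex (W.lane u)
  refine ⟨h.wf' W hu rfl rfl, ?_⟩
  rw [abs_absV n (R.lor _), h.vR]
  refine vb_eqv' rfl (fun w _ => ?_) rfl rfl rfl ⟨rfl, rfl, rfl⟩
  by_cases e : w = u <;> simp [VBSame, AX.exact, abs_absV, absV, upd, e]

/-- raising `dlo` by `c` -/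
theorem dlo_eqv (W : Wf n R X D) {u c : ℕ} (hu : u < n) (h : (abs n R X D o f).dlo u + c ≤ 15) :
    Wf n (R.add (c.shiftLeft (u.mul 128))) X D ∧
      Eqv ((abs n R X D o f).raise u ((abs n R X D o f).dlo u + c))
        (abs n (R.add (c.shiftLeft (u.mul 128))) X D o f) := by
  have h := ed_dlo (W.lane u) h
  refine ⟨h.wf' W hu rfl rfl, ?_⟩
  rw [abs_absV n (R.add _), h.vR]
  refine vb_eqv' rfl (fun w _ => ?_) rfl rfl rfl ⟨rfl, rfl, rfl⟩
  by_cases e : w = u <;> simp [VBSame, AX.raise, abs_absV, absV, upd, e]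

/-- raising `lb` by `c` -/
theorem lb_eqv (W : Wf n R X D) {g c : ℕ} (i : Bool) (hg : g < n)
    (h : (abs n R X D o f).lb g i + c ≤ 15) :
    Wf n (R.add (c.shiftLeft ((pos (2 * g + i.toNat)).add 8))) X D ∧
      Eqv ((abs n R X D o f).setLb g i ((abs n R X D o f).lb g i + c))
        (abs n (R.add (c.shiftLeft ((pos (2 * g + i.toNat)).add 8))) X D o f) := by
  have h := ed_lb (W.lane g) i h
  refine ⟨h.wf' W hg rfl rfl, ?_⟩
  rw [abs_absV n (R.add _), h.vR]
  refine vb_eqv' rfl (fun w _ => ?_) rfl rfl rfl ⟨rfl, rfl, rfl⟩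
  by_cases e : w = g <;> simp [VBSame, AX.setLb, abs_absV, absV, upd, upd2, vbU, e]

/-- lowering `dep` by `c` -/
theorem dep_eqv (W : Wf n R X D) {u c : ℕ} (hu : u < n) (h : c ≤ (abs n R X D o f).dep u) :
    Wf n (R.add (c.shiftLeft ((u.mul 128).add 31))) X D ∧
      Eqv ((abs n R X D o f).setDep u ((abs n R X D o f).dep u - c))
        (abs n (R.add (c.shiftLeft ((u.mul 128).add 31))) X D o f) := by
  have h0 : (vR R u).dp < 16 := Nat.mod_lt _ (by omega)
  change c ≤ 15 - (vR R u).dp at h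
  have h := ed_dp (W.lane u) (c := c) (by omega)
  refine ⟨h.wf' W hu rfl rfl, ?_⟩
  rw [abs_absV n (R.add _), h.vR]
  refine vb_eqv' rfl (fun w _ => ?_) rfl rfl rfl ⟨rfl, rfl, rfl⟩
  by_cases e : w = u <;> simp [VBSame, AX.setDep, abs_absV, absV, upd, e, Nat.sub_sub]

theorem out_eqv (W : Wf n R X D) {u : ℕ} (hu : u < n) (hd : (abs n R X D o f).kd u ≤ 14) :
    Wf n (R.add (((((kdq R u).add 1).sub ((rc R u).land 15)).add 1099511627776).shiftLeft
      (u.mul 128))) X D ∧
    Eqv ((abs n R X D o f).setOut u)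
      (abs n (R.add (((((kdq R u).add 1).sub ((rc R u).land 15)).add 1099511627776).shiftLeft
        (u.mul 128))) X D u f) := by
  have h0 : (vR R u).dlo < 16 := Nat.mod_lt _ (by omega)
  have e1 : kdq R u = (vR R u).kd := kdq_eq (n := n) (X := X) (D := D) (o := o) (f := f) u
  have e2 : (rc R u).land 15 = (vR R u).dlo := dlo_eq (n := n) (X := X) (D := D) (o := o) (f := f) u
  change (vR R u).kd ≤ 14 at hd
  rw [e1, e2]
  have h := ed_dlo_kd (W.lane u) (c := (vR R u).kd + 1 - (vR R u).dlo) (by omega) hd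
  refine ⟨h.wf' W hu rfl rfl, ?_⟩
  rw [abs_absV n (R.add _)]
  erw [h.vR]
  refine vb_eqv' rfl (fun w _ => ?_) rfl rfl rfl ⟨rfl, rfl, rfl⟩
  by_cases e : w = u <;> simp [VBSame, AX.setOut, abs_absV, absV, upd, e]
  omega

theorem nf_eqv (W : Wf n R X D) {g v : ℕ} (i : Bool) (hg : g < n) (hv : v < n) :
    Wf n R (X.lor (one (((2 * g + i.toNat).mul 64).add v))) D ∧
      Eqv ((abs n R X D o f).setNf g i v)
        (abs n R (X.lor (one (((2 * g + i.toNat).mul 64).add v))) D o f) := by
  have hn := W.n63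
  have hX : ∀ h (j : Bool), ∀ w < 64, (X.lor (one (((2 * g + i.toNat).mul 64).add v))).testBit
      (64 * (2 * h + j.toNat) + w) = true →
      X.testBit (64 * (2 * h + j.toNat) + w) = true ∨ (h = g ∧ j = i ∧ w = v) := by
    intro h j w hw hx
    change (X ||| one ((2 * g + i.toNat) * 64 + v)).testBit _ = true at hx
    rw [Nat.testBit_or, Bool.or_eq_true, testBit_one, decide_eq_true_eq, mul_comm _ 64] at hx
    refine hx.imp_right fun h1 => ?_
    obtain ⟨h2, h3⟩ := row_eq hw (by omega) h1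
    exact ⟨(slot_inj h2).1, (slot_inj h2).2, h3⟩
  refine ⟨⟨hn, W.top, W.lane, W.src, fun h j w hw hx => ?_, W.d⟩, ?_⟩
  · rcases hX h j w hw hx with h1 | ⟨rfl, rfl, rfl⟩
    · exact W.x h j w hw h1
    · exact ⟨hg, Or.inl hv⟩
  · rw [abs_absV n R (X.lor _)]
    refine vb_eqv rfl (fun w _ => ?_) (fun h _ j w hw hx => Or.inl ?_)
      (fun w hw k hk hx => .cn hw hk ?_) rfl ⟨rfl, rfl, rfl⟩
    · simp [VBSame, AX.setNf, abs_absV, absV]
    · rcases hX h j w (by omega) hx with h1 | ⟨rfl, rfl, rfl⟩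
      · simp only [AX.setNf, abs, upd2]
        split_ifs with h2
        · rw [← h2.1, ← h2.2]
          simp [upd, hw, h1]
        · simp [hw, h1]
      · simp [AX.setNf, upd2, upd]
    · simp only [AX.setNf, abs, hk, hx, decide_true, Bool.and_self]

theorem sg_eqv (W : Wf n R X D) {u : ℕ} (hu : u < n) (h : (rc R u).land 35433480224 = 0)
    (b : Bool) : Wf n (R.add (Nat.shiftLeft (34359738368 + 32 * b.toNat) (u.mul 128))) X D ∧
      Eqv ((abs n R X D o f).setSg u b.toNat)
        (abs n (R.add (Nat.shiftLeft (34359738368 + 32 * b.toNat) (u.mul 128))) X D o f) := by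
  rw [rc_land R u (by omega)] at h
  have hb : ∀ k, Nat.testBit 35433480224 k = true → (rcd R u).testBit k = false := by
    intro k hk
    have := congrArg (fun x => Nat.testBit x k) h
    simpa [hk] using this
  have h30 : (vR R u).gate = false := hb 30 (by decide)
  have h := ed_sg (W.lane u) b (hb 5 (by decide)) (hb 35 (by decide))
  refine ⟨h.wf' W hu rfl rfl, ?_⟩
  rw [abs_absV n (R.add _), h.vR]
  refine vb_eqv' rfl (fun w _ => ?_) rfl rfl rfl ⟨rfl, rfl, rfl⟩
  by_cases e : w = u <;> simp [VBSame, AX.setSg, abs_absV, absV, upd, e, h30]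

/-- more facts in the row of a slot -/
theorem row_der (W : Wf n R X D) {g m : ℕ} (i : Bool) (hg : g < n)
    (h : ∀ v, m.testBit v = true → v < n ∧ (abs n R X D o f).Excl g i v) :
    Wf n R (X.lor (m.shiftLeft ((2 * g + i.toNat).mul 64))) D ∧
      Der (abs n R X D o f)
        (abs n R (X.lor (m.shiftLeft ((2 * g + i.toNat).mul 64))) D o f) := by
  have hn := W.n63
  have hX : ∀ k (j : Bool), ∀ w < 64, (X.lor (m.shiftLeft ((2 * g + i.toNat).mul 64))).testBit
      (64 * (2 * k + j.toNat) + w) = true →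
      X.testBit (64 * (2 * k + j.toNat) + w) = true ∨ (k = g ∧ j = i ∧ m.testBit w = true) := by
    intro k j w hw hx
    change (X ||| m <<< ((2 * g + i.toNat) * 64)).testBit _ = true at hx
    rw [Nat.testBit_or, Bool.or_eq_true, Nat.testBit_shiftLeft, Bool.and_eq_true,
      decide_eq_true_eq] at hx
    refine hx.imp_right fun ⟨h1, h2⟩ => ?_
    have h3 := (h _ h2).1
    have h4 : 2 * k + j.toNat = 2 * g + i.toNat := by omega
    rw [h4, mul_comm _ 64, Nat.add_sub_cancel_left] at h2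
    exact ⟨(slot_inj h4).1, (slot_inj h4).2, h2⟩
  refine ⟨⟨hn, W.top, W.lane, W.src, fun k j w hw hx => ?_, W.d⟩, ?_⟩
  · rcases hX k j w hw hx with h1 | ⟨rfl, rfl, h1⟩
    · exact W.x k j w hw h1
    · exact ⟨hg, Or.inl (h w h1).1⟩
  · refine ⟨rfl, fun _ _ => rfl, fun _ _ => le_rfl, fun _ _ h1 => ⟨h1, le_rfl⟩, fun _ _ => le_rfl,
      fun _ _ _ _ => rfl, fun _ _ _ => rfl, fun _ _ _ _ => rfl, fun _ _ _ _ _ => rfl,
      fun _ _ _ _ => Or.inl le_rfl, fun k _ _ j w hw hx => ?_, fun k _ j w hw => ?_, rfl,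
      fun _ _ => rfl, fun v hv k hk hx => .cn hv hk hx, fun k _ w hw => ?_,
      fun h1 => ⟨h1, rfl, rfl⟩⟩
    · change w < n at hw
      simp only [abs, Bool.and_eq_true] at hx
      rcases hX k j w (by omega) hx.2 with h1 | ⟨rfl, rfl, h1⟩
      · left
        simp [abs, hw, h1]
      · exact (h w h1).2
    · change n ≤ w at hw
      simp [abs, not_lt.mpr hw]
    · change n ≤ w at hw
      simp [abs, not_lt.mpr hw]

end Pool.Agent.Lib.MP_79d702_lc.U2.V2
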