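import Pool.Agent.Lib.MP_79d702_lc.U2.V2B

/-!
Soundness of the case distinctions.
-/

namespace Pool.Agent.Lib.MP_79d702_lc.U2.V2

variable {k : K} {tag n R X D o f a y : ℕ}

theorem v2e_or (a b i : ℕ) : (a.lor b).testBit i = (a.testBit i || b.testBit i) :=
  Nat.testBit_or a b i

theorem v2e_and (a b i : ℕ) : (a.land b).testBit i = (a.testBit i && b.testBit i) :=
  Nat.testBit_and a b i

theorem v2e_xor (a b i : ℕ) : (a.xor b).testBit i = (a.testBit i ^^ b.testBit i) :=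
  Nat.testBit_xor a b i

theorem v2e_shr (a s i : ℕ) : (a.shiftRight s).testBit i = a.testBit (s + i) :=
  Nat.testBit_shiftRight a

theorem v2e_sub {a b : ℕ} (h : a.sub b = 0) : a ≤ b := Nat.sub_eq_zero_iff_le.1 h

theorem v2e_flip (x j : ℕ) : flip x j false = x := rfl

theorem v2e_refl : Eqv (abs n R X D o f) (abs n R X D o f) where
  n := rfl
  gate _ _ := rfl
  dlo _ _ := rfl
  dex _ _ := rfl
  dep _ _ := rfl
  sg _ _ _ := rfl
  ng _ _ _ := rfl
  inp _ _ _ _ := rfl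
  pol _ _ _ _ _ := rfl
  lb _ _ _ _ := rfl
  nf _ _ _ _ _ _ h := Or.inl h
  nfw g _ i v hv := by
    have hv' : ¬ v < n := not_lt.2 hv
    simp only [abs, hv', decide_false, Bool.false_and]
  out := rfl
  kd _ _ := rfl
  cn _ hv _ hh h := AX.Ab.cn hv hh h
  cnw g _ v hv := by
    have hv' : ¬ v < n := not_lt.2 hv
    simp only [abs, hv', decide_false, Bool.false_and]
  full := ⟨rfl, rfl, rfl⟩

theorem v2e_fin {A : AX} (hk : Snd k) (h : Wf n R X D ∧ Eqv A (abs n R X D o f))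
    (h' : k tag n R X D o f y ≠ 0) : HoldsX tag A :=
  holdsX_der h.2.der ((hk _ _ _ _ _ _ _ _ h').2 h.1)

theorem v2e_63 (W : Wf n R X D) {g : ℕ} {i : Bool} (h : n ≤ (abs n R X D o f).inp g i) :
    (abs n R X D o f).inp g i = 63 := by
  have h1 : ¬ (rcd R g).testBit (so i + 1) = true := fun e =>
    absurd ((wf_known (o := o) (f := f) W g i).1 e) (not_lt.2 h)
  exact if_neg h1

theorem v2e_kid2 {k : ℕ → ℕ → ℕ} (hk : ∀ R y, k R y ≠ 0 → y ≠ 0) {j : ℕ}
    (h : kid2 k R j y ≠ 0) : y ≠ 0 ∧ ∀ p, ∃ y', k (flip R (pos j) p) y' ≠ 0 := by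
  have h1 := hk _ _ h
  refine ⟨hk _ _ h1, fun p => ?_⟩
  cases p
  · exact ⟨_, h1⟩
  · exact ⟨_, h⟩

theorem v2e_flg {k : ℕ → ℕ → ℕ} (hk : ∀ R y, k R y ≠ 0 → y ≠ 0) {R' j : ℕ}
    (h : flg k R R' j y ≠ 0) : y ≠ 0 ∧ ∀ b, (b = false ∨ (rc R (j.shiftRight 1)).land 524416 = 0) →
      ∃ y', k (flip R' (128 * j.shiftRight 1 + 5) b) y' ≠ 0 := by
  rw [flg, sel_eq] at h
  split_ifs at h with h0
  · have h1 := hk _ _ h
    refine ⟨hk _ _ h1, fun b _ => ?_⟩
    cases b
    · exact ⟨_, h1⟩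
    · have e : Nat.shiftLeft 32 ((j.shiftRight 1).mul 128) = one (128 * j.shiftRight 1 + 5) := by
        rw [one_eq, pow_add, mul_comm 128, mul_comm]
        exact Nat.shiftLeft_eq 32 _
      rw [e] at h
      exact ⟨_, h⟩
  · refine ⟨hk _ _ h, fun b hb => ?_⟩
    rcases hb with rfl | hb
    · exact ⟨_, h⟩
    · exact absurd (by rw [hb]; rfl) h0

theorem v2e_both (W : Wf n R X D) {g : ℕ} (h0 : n ≤ (abs n R X D o f).inp g false)
    (h1 : n ≤ (abs n R X D o f).inp g true) : (rc R g).land 524416 = 0 := by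
  have e0 : ¬ (rcd R g).testBit 7 = true := fun e =>
    absurd ((wf_known (o := o) (f := f) W g false).1 e) (not_lt.2 h0)
  have e1 : ¬ (rcd R g).testBit 19 = true := fun e =>
    absurd ((wf_known (o := o) (f := f) W g true).1 e) (not_lt.2 h1)
  rw [rc_land R g (by norm_num)]
  refine Nat.eq_of_testBit_eq fun i => ?_
  rw [Nat.testBit_and, show 524416 = 2 ^ 7 ||| 2 ^ 19 from rfl, Nat.testBit_or,
    Nat.testBit_two_pow, Nat.testBit_two_pow, Nat.zero_testBit]
  by_cases a7 : 7 = i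
  · subst a7; simpa using e0
  · by_cases a19 : 19 = i
    · subst a19; simpa using e1
    · simp [a7, a19]

theorem v2e_conn {A : AX} (W : Wf n R X D) (E : Eqv A (abs n R X D o f)) {u g : ℕ} {i : Bool}
    (hu : u < n) (hg : g < n) (hk : A.gate g = true) (hi : n ≤ A.inp g i) (hd : A.kd u ≤ 14)
    (b p : Bool) :
    Wf n (flip (flip (cR R u (2 * g + i.toNat)) (128 * g + 5) b) (pos (2 * g + i.toNat)) p)
      (cX X u (2 * g + i.toNat)) (cD D u (2 * g + i.toNat)) ∧
    Eqv (A.conn u g i (A.ng g ^^ b) p)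
      (abs n (flip (flip (cR R u (2 * g + i.toNat)) (128 * g + 5) b) (pos (2 * g + i.toNat)) p)
        (cX X u (2 * g + i.toNat)) (cD D u (2 * g + i.toNat)) o f) := by
  have hn : n = A.n := E.n
  have hu' : u < A.n := hn ▸ hu
  have hg' : g < A.n := hn ▸ hg
  have h := conn_eqv (o := o) (f := f) W hu hg ((E.gate g hg').trans hk)
    (by rw [E.inp g hg' hk]; exact hi) (by rw [E.kd u hu']; exact hd) b p
  rw [pos_eq, ← E.ng g hg' hk]
  exact ⟨h.1, (E.conn hu' hg' hk i _ p (hn ▸ hi)).trans h.2⟩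

theorem v2e_kid {A : AX} (W : Wf n R X D) (E : Eqv A (abs n R X D o f)) {u g : ℕ} {i : Bool}
    (hu : u < n) (hg : g < n) (hk : A.gate g = true) (hi : n ≤ A.inp g i) (hd : A.kd u ≤ 14)
    {k : ℕ → ℕ → ℕ} (hc : ∀ R y, k R y ≠ 0 → y ≠ 0)
    (h : flg k R (cR R u (2 * g + i.toNat)) (2 * g + i.toNat) y ≠ 0) {b : Bool}
    (hf : A.Flag g b) : ∃ R' y', k R' y' ≠ 0 ∧ ∀ p,
      Wf n (flip R' (pos (2 * g + i.toNat)) p) (cX X u (2 * g + i.toNat))
        (cD D u (2 * g + i.toNat)) ∧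
      Eqv (A.conn u g i b p) (abs n (flip R' (pos (2 * g + i.toNat)) p)
        (cX X u (2 * g + i.toNat)) (cD D u (2 * g + i.toNat)) o f) := by
  have hn : n = A.n := E.n
  have hg' : g < A.n := hn ▸ hg
  have h2 := (v2e_flg hc h).2 (A.ng g ^^ b)
  rw [slot_shr] at h2
  obtain ⟨y', h3⟩ := h2 (by
    rcases hf with ⟨h0, h1⟩ | rfl
    · exact Or.inr (v2e_both (o := o) (f := f) W (by rw [E.inp g hg' hk, hn]; exact h0)
        (by rw [E.inp g hg' hk, hn]; exact h1))
    · exact Or.inl (Bool.xor_self _))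
  refine ⟨_, y', h3, fun p => ?_⟩
  have h4 := v2e_conn W E hu hg hk hi hd (A.ng g ^^ b) p
  rwa [← Bool.xor_assoc, Bool.xor_self, Bool.false_xor] at h4

theorem v2e_kids_ne {k : ℕ → ℕ → ℕ → ℕ → ℕ} (hc : ∀ R X D y, k R X D y ≠ 0 → y ≠ 0) {u j : ℕ}
    (h : kids k R X D u j y ≠ 0) : y ≠ 0 :=
  (v2e_flg (fun _ _ e => (v2e_kid2 (fun _ _ => hc _ _ _ _) e).1) (ok_ne h).2).1

theorem v2e_kids (W : Wf n R X D) {u g : ℕ} {i : Bool} (hu : u < n) (hg : g < n)
    (hk : (abs n R X D o f).gate g = true) (hi : n ≤ (abs n R X D o f).inp g i)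
    {k : ℕ → ℕ → ℕ → ℕ → ℕ} (hc : ∀ R X D y, k R X D y ≠ 0 → y ≠ 0)
    (h : kids k R X D u (2 * g + i.toNat) y ≠ 0) {b : Bool} (hf : (abs n R X D o f).Flag g b)
    (p : Bool) : ∃ R' X' D' y', k R' X' D' y' ≠ 0 ∧ Wf n R' X' D' ∧
      Eqv ((abs n R X D o f).conn u g i b p) (abs n R' X' D' o f) := by
  obtain ⟨h1, h2⟩ := ok_ne h
  have hd : (abs n R X D o f).kd u ≤ 14 := kdq_eq (n := n) (X := X) (D := D) (o := o) (f := f) u ▸
    v2e_sub h1
  obtain ⟨R', y', h3, h4⟩ := v2e_kid W v2e_refl hu hg hk hi hd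
    (fun _ _ e => (v2e_kid2 (fun _ _ => hc _ _ _ _) e).1) h2 hf
  obtain ⟨y'', h5⟩ := (v2e_kid2 (fun _ _ => hc _ _ _ _) h3).2 p
  exact ⟨_, _, _, y'', h5, h4 p⟩

theorem v2e_fresh_ne {k : ℕ → ℕ → ℕ → ℕ → ℕ} (hc : ∀ R X D y, k R X D y ≠ 0 → y ≠ 0) {u j : ℕ}
    (h : fresh k R X D u j y ≠ 0) : y ≠ 0 :=
  (v2e_flg (fun _ _ => hc _ _ _ _) h).1

theorem v2e_fresh (W : Wf n R X D) (hn : n ≤ 62) {R₁ D₁ : ℕ} {c : Bool}
    (W₁ : Wf (n.add 1) R₁ X D₁ ∧
      Eqv ((abs n R X D o f).new c) (abs (n.add 1) R₁ X D₁ o f)) {g : ℕ} {i : Bool} (hg : g < n)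
    (hk : (abs n R X D o f).gate g = true) (hi : n ≤ (abs n R X D o f).inp g i)
    {k : ℕ → ℕ → ℕ → ℕ → ℕ} (hc : ∀ R X D y, k R X D y ≠ 0 → y ≠ 0)
    (h : fresh k R₁ X D₁ n (2 * g + i.toNat) y ≠ 0) {b : Bool}
    (hf : (abs n R X D o f).Flag g b) : ∃ R' X' D' y', k R' X' D' y' ≠ 0 ∧
      Wf (n.add 1) R' X' D' ∧
      Eqv (((abs n R X D o f).new c).conn n g i b false) (abs (n.add 1) R' X' D' o f) := by
  have e1 : ∀ j, n ≤ (abs n R X D o f).inp g j → n + 1 ≤ ((abs n R X D o f).new c).inp g j := by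
    intro j hj
    have : ((abs n R X D o f).new c).inp g = (abs n R X D o f).inp g := if_neg hg.ne
    rw [this, v2e_63 W hj]
    omega
  have e2 : ((abs n R X D o f).new c).ng g = (abs n R X D o f).ng g := if_neg hg.ne
  have e3 : ((abs n R X D o f).new c).gate g = (abs n R X D o f).gate g := if_neg hg.ne
  have e4 : ((abs n R X D o f).new c).kd n = 0 := if_pos rfl
  obtain ⟨R', y', h3, h4⟩ := v2e_kid W₁.1 W₁.2 (u := n) (Nat.lt_succ_self n)
    (Nat.lt_succ_of_lt hg) (e3.trans hk) (e1 i hi) (by omega) (fun _ _ => hc _ _ _ _) h (b := b)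
    (hf.imp (fun e => ⟨e1 _ e.1, e1 _ e.2⟩) fun e => e.trans e2.symm)
  exact ⟨_, _, _, y', h3, h4 false⟩

theorem v2e_cov {F : ℕ → ℕ → ℕ} (hF : ∀ a y, F a y ≠ 0 → y ≠ 0) {s need m c : ℕ}
    (h : cov F s need m c y ≠ 0) : y ≠ 0 ∧ ∀ b, need.testBit b = true →
      c.testBit b = true ∨ ∃ a y', b = a * s ∧ F a y' ≠ 0 := by
  induction m generalizing c y with
  | zero =>
    obtain ⟨h1, h2⟩ := ok_ne (show ok ((need.land c).xor need) y ≠ 0 from h)
    exact ⟨h2, fun b hb => Or.inl (sub_of_cov h1 hb)⟩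
  | succ m ih =>
    obtain ⟨h1, h2⟩ := ih (show cov F s need m (c.lor (one ((y.land 127).mul s)))
      (F (y.land 127) (y.shiftRight 7)) ≠ 0 from h)
    refine ⟨shr_ne (hF _ _ h1), fun b hb => ?_⟩
    rcases h2 b hb with e | e
    · rw [v2e_or, testBit_one, Bool.or_eq_true, decide_eq_true_eq] at e
      exact e.imp id fun e => ⟨_, _, e, h1⟩
    · exact Or.inr e

theorem v2e_n15 : n15 = tab 64 (fun _ => true.toNat * (2 ^ 4 - 1)) 128 := by decide +kernel

theorem v2e_thr_le (r : ℕ) : thr r ≤ 15 := by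
  rw [thr, sel_eq, sel_eq]
  split_ifs
  · omega
  · show 7 + (8 - _) ≤ 15
    omega
  · omega

theorem v2e_thr {u l : ℕ} (hl : l ≤ 15) (h : 16 ≤ l + thr (rc R u)) :
    (abs n R X D o f).gate u = false ∧
      (9 ≤ l ∨ ((abs n R X D o f).dex u = true ∧ (abs n R X D o f).dlo u < l)) := by
  rw [thr, sel_eq, sel_eq, dlo_eq (n := n) (X := X) (D := D) (o := o) (f := f),
    rc_land R u (by norm_num), rc_land R u (by norm_num)] at h
  have e30 : rcd R u &&& 1073741824 = ((rcd R u).testBit 30).toNat * 2 ^ 30 := Nat.and_two_pow _ 30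
  have e4 : rcd R u &&& 16 = ((rcd R u).testBit 4).toNat * 2 ^ 4 := Nat.and_two_pow _ 4
  rw [e30, e4] at h
  show (rcd R u).testBit 30 = false ∧ (9 ≤ l ∨ ((rcd R u).testBit 4 = true ∧ _))
  cases h30 : (rcd R u).testBit 30
  · refine ⟨rfl, ?_⟩
    rw [h30, if_pos (by rfl)] at h
    cases h4 : (rcd R u).testBit 4
    · rw [h4, if_pos (by rfl)] at h
      omega
    · rw [h4, if_neg (by decide)] at h
      change 16 ≤ l + (7 + (8 - _)) at h
      by_cases h9 : 9 ≤ l
      · exact Or.inl h9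
      · exact Or.inr ⟨rfl, by omega⟩
  · rw [h30, if_neg (by decide)] at h
    omega

theorem v2e_lane (W : Wf n R X D) {g t : ℕ} (hg : g < n) (i : Bool) (ht : t ≤ 15)
    (h : ((((sw R).shiftRight 14).land n15).add ((on2 n).mul t)).testBit
      (4 + 64 * (2 * g + i.toNat)) = true) : 16 ≤ (abs n R X D o f).lb g i + t := by
  have hn := W.n63
  have hi := Bool.toNat_le i
  have e1 : ((sw R).shiftRight 14).land n15 =
      tab 64 (fun j => true.toNat * LA.G 64 4 ((sw R).shiftRight 14) j) 128 := by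
    rw [v2e_n15]
    exact LA.and_mask (by norm_num) (by norm_num) _ fun _ => true
  have e2 : (on2 n).mul t = tab 64 (fun j => (decide (j < 2 * n)).toNat * t) 128 := by
    rw [on2_eq (by omega)]
    exact LA.tab_mul (fun j _ => LA.toNat_lt _ (by norm_num))
      fun j _ => LA.toNat_mul_lt _ (by omega)
  have hb : ∀ j < 128, true.toNat * LA.G 64 4 ((sw R).shiftRight 14) j +
      (decide (j < 2 * n)).toNat * t < 2 ^ 64 := fun j _ => by
    have h1 := LA.G_lt 64 4 ((sw R).shiftRight 14) j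
    have h2 : (decide (j < 2 * n)).toNat * t < 16 := LA.toNat_mul_lt _ (by omega)
    simp only [Bool.toNat_true] at h1 ⊢
    omega
  have e3 : LA.G 64 4 ((sw R).shiftRight 14) (2 * g + i.toNat) = (abs n R X D o f).lb g i := by
    show _ = rcd R g / 2 ^ (so i + 8) % 2 ^ 4
    refine Nat.eq_of_testBit_eq fun v => ?_
    rw [LA.testBit_G, Nat.testBit_mod_two_pow, Nat.testBit_div_two_pow, v2e_shr]
    by_cases hv : v < 4
    · rw [show 14 + (64 * (2 * g + i.toNat) + v) = 64 * (2 * g + i.toNat) + (14 + v) by omega,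
        sw_bit W.lane (by omega) i (by omega), if_pos (by omega)]
      congr 2
      omega
    · simp [hv]
  rw [e1, e2, show ∀ a b : ℕ, a.add b = a + b from fun _ _ => rfl, LA.tab_add hb, add_comm 4,
    LA.testBit_tab hb _ (by norm_num), Bool.and_eq_true] at h
  have h2 := h.2
  simp only [e3, show 2 * g + i.toNat < 2 * n by omega, decide_true, Bool.toNat_true,
    one_mul] at h2
  exact Nat.ge_two_pow_of_testBit h2

theorem e0_snd (hk : Snd k) (W : Wf n R X D) (h : e0 k tag n R X D o f a y ≠ 0) :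
    HoldsX tag (abs n R X D o f) := by
  have hc : ∀ (t m o' : ℕ) R X D y, k t m R X D o' f y ≠ 0 → y ≠ 0 :=
    fun _ _ _ _ _ _ _ e => (hk _ _ _ _ _ _ _ _ e).1
  obtain ⟨h1, h2⟩ := ok_ne h
  rw [lor_eq_zero, lor_eq_zero] at h1
  have hu : a < n := v2e_sub h1.1.1
  have hn : n ≤ 62 := v2e_sub h1.1.2
  have hq := kdq_eq (n := n) (R := R) (X := X) (D := D) (o := o) (f := f) a
  have hd : (abs n R X D o f).kd a ≤ 14 := hq ▸ v2e_sub h1.2
  obtain ⟨h3, h4⟩ := v2e_cov (fun _ _ e => v2e_kids_ne (hc tag n o) e) h2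
  obtain ⟨h5, h6⟩ := v2e_kid2 (fun _ _ => hc tag (n.add 1) o _ _ _ _) (shr_ne h3)
  have h7 : e0a k tag n R X D o f a y ≠ 0 := by
    rw [e0b, sel_eq] at h5
    split_ifs at h5
    exacts [hc _ _ _ _ _ _ _ h5, h5]
  refine exp0 hu (show n < 63 by omega) (fun e => ?_) (fun e e' => ?_) (fun p => ?_)
    fun g hg hkg i hi => ?_
  · rw [e0a, sel_eq, dlo_eq (n := n) (X := X) (D := D) (o := o) (f := f), hq,
      if_pos (Nat.ble_eq_true_of_le e)] at h7
    exact v2e_fin hk (exR_eqv W hu (by omega)) h7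
  · rw [e0b, sel_eq, if_pos] at h5
    · exact v2e_fin hk (out_eqv W hu hd) h5
    · rw [show (nG R a).lor (n.sub o) = 0 from
        lor_eq_zero.2 ⟨(nG_eq a).2 e, Nat.sub_eq_zero_iff_le.2 e'⟩]
      rfl
  · obtain ⟨y', h8⟩ := h6 p
    obtain ⟨W₁, E₁⟩ := new_gate (o := o) (f := f) W hn
    have e1 : ((abs n R X D o f).new true).inp n false = 63 :=
      congrFun (show _ = fun _ => 63 from if_pos rfl) false
    have e2 : ((abs n R X D o f).new true).ng n = false := if_pos rfl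
    have e3 : ((abs n R X D o f).new true).kd a = (abs n R X D o f).kd a := if_neg hu.ne
    have h9 := v2e_conn W₁ E₁ (u := a) (g := n) (i := false) (Nat.lt_succ_of_lt hu)
      (Nat.lt_succ_self n) (if_pos rfl) (by rw [e1]; exact Nat.succ_le_succ hn)
      (by rw [e3]; exact hd) false p
    rw [e2, show 2 * n + false.toNat = n.mul 2 from Nat.mul_comm 2 n, v2e_flip,
      Bool.xor_self] at h9
    exact v2e_fin hk h9 h8
  · have hg' : g < n := hg
    have hi' := Bool.toNat_le i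
    have hneed : ((((sw R).shiftRight 30).land o64)).testBit (64 * (2 * g + i.toNat)) = true := by
      have e := LA.testBit_tab (s := 64) (k := 128) (f := fun _ => 1) (fun _ _ => by norm_num)
        (2 * g + i.toNat) (v := 0) (by norm_num)
      rw [add_zero] at e
      rw [v2e_and, v2e_shr, add_comm 30, sw_bit W.lane (by omega) i (by omega), o64_eq, e,
        if_neg (by omega), if_neg (by omega), decide_eq_true (by omega)]
      exact (Bool.and_true _).trans hkg
    rcases h4 _ hneed with e | ⟨j, y', e1, e2⟩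
    · left
      rw [v2e_or, v2e_or, v2e_shr, v2e_shr, v2e_shr, v2e_or] at e
      simp only [Bool.or_eq_true] at e
      rcases e with (e | e | e) | e
      · rw [add_comm 7, sw_bit W.lane (by omega) i (by omega), if_pos (by omega)] at e
        exact absurd ((wf_known (o := o) (f := f) W g i).1 e) (not_lt.2 hi)
      · left
        show (decide (a < n) && X.testBit (64 * (2 * g + i.toNat) + a)) = true
        rw [decide_eq_true hu, add_comm _ a, e]
        rfl
      · right; right; right; right; left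
        show (decide (g < n) &&
          (D.testBit (64 * (2 * g) + a) || D.testBit (64 * (2 * g + 1) + a))) = true
        rw [add_comm a] at e
        rw [decide_eq_true hg']
        cases i
        · rw [show D.testBit (64 * (2 * g) + a) = true from e]; rfl
        · rw [show D.testBit (64 * (2 * g + 1) + a) = true from e, Bool.or_true]; rfl
      · right; right; right; right; right; right
        have hl : (abs n R X D o f).lb g i < 16 := Nat.mod_lt _ (by norm_num)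
        exact v2e_thr (by omega) (v2e_lane W hg' i (v2e_thr_le _) e)
    · obtain rfl : j = 2 * g + i.toNat := by omega
      refine Or.inr fun b p hf => ?_
      obtain ⟨R', X', D', y'', e3, e4⟩ := v2e_kids W hu hg' hkg hi (hc tag n o) e2 hf p
      exact v2e_fin hk e4 e3

theorem e2_snd (hk : Snd k) (W : Wf n R X D) (h : e2 k tag n R X D o f a y ≠ 0) :
    HoldsX tag (abs n R X D o f) := by
  have hc : ∀ (t m o' : ℕ) R X D y, k t m R X D o' f y ≠ 0 → y ≠ 0 :=
    fun _ _ _ _ _ _ _ e => (hk _ _ _ _ _ _ _ _ e).1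
  obtain ⟨g, i, rfl, -⟩ := slot_eq a
  obtain ⟨h1, h2⟩ := ok_ne h
  rw [lor_eq_zero] at h1
  obtain ⟨hg, hkg, hi⟩ := wf_nU (o := o) (f := f) W h1.1
  have hn : n ≤ 62 := v2e_sub h1.2
  have hq := lbq_eq (n := n) (R := R) (X := X) (D := D) (o := o) (f := f) g i
  obtain ⟨h3, h4⟩ := v2e_cov (fun _ _ e => v2e_kids_ne (hc tag n o) e) h2
  have h5 := shr_ne h3
  have h6 := v2e_fresh_ne (hc tag (n.add 1) o) h5
  refine exp2 hg hkg hi (show n < 63 by omega) (fun e b hf => ?_) (fun b hf => ?_) fun v hv => ?_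
  · rw [sel_eq, hq, if_pos (Nat.ble_eq_true_of_le (by omega))] at h6
    obtain ⟨R', X', D', y', e3, e4⟩ :=
      v2e_fresh W hn (new_var W hn) hg hkg hi (hc tag (n.add 1) o) h6 hf
    exact v2e_fin hk e4 e3
  · obtain ⟨R', X', D', y', e3, e4⟩ :=
      v2e_fresh W hn (new_gate W hn) hg hkg hi (hc tag (n.add 1) o) h5 hf
    exact v2e_fin hk e4 e3
  · have hv' : v < n := hv
    rcases h4 v (by rw [testBit_msk]; exact decide_eq_true hv') with e | ⟨j, y', e1, e2⟩
    · left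
      rw [v2e_or, Bool.or_eq_true] at e
      rcases e with e | e
      · exact wf_row W hg hv' e
      · rw [sel_eq, hq] at e
        split_ifs at e with e'
        · simp at e
        · rw [v2e_xor, testBit_msk, gmOf_bit (n := n) (X := X) (D := D) (o := o) (f := f),
            decide_eq_true hv', decide_eq_true (show v < 64 by omega)] at e
          right; right; right; right; right; right
          refine ⟨by simpa using e, Or.inl ?_⟩
          rw [Nat.ble_eq] at e'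
          omega
    · obtain rfl : v = j := by omega
      refine Or.inr fun b p hf => ?_
      obtain ⟨R', X', D', y'', e3, e4⟩ := v2e_kids W hv' hg hkg hi (hc tag n o) e2 hf p
      exact v2e_fin hk e4 e3

theorem e3_snd (hk : Snd k) (W : Wf n R X D) (h : e3 k tag n R X D o f a y ≠ 0) :
    HoldsX tag (abs n R X D o f) := by
  have hc : ∀ (t m o' : ℕ) R X D y, k t m R X D o' f y ≠ 0 → y ≠ 0 :=
    fun _ _ _ _ _ _ _ e => (hk _ _ _ _ _ _ _ _ e).1
  obtain ⟨g, i, rfl, -⟩ := slot_eq a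
  have hq := lbq_eq (n := n) (R := R) (X := X) (D := D) (o := o) (f := f) g i
  rw [e3, hq] at h
  obtain ⟨h1, h2⟩ := ok_ne h
  rw [lor_eq_zero, lor_eq_zero] at h1
  obtain ⟨hg, hkg, hi⟩ := wf_nU (o := o) (f := f) W h1.1.1
  have hn : n ≤ 62 := v2e_sub h1.1.2
  have hl : (abs n R X D o f).lb g i ≤ 7 := v2e_sub h1.2
  obtain ⟨h3, h4⟩ := v2e_cov (fun _ _ e => v2e_kids_ne (fun _ _ _ _ => hc tag n o _ _ _ _) e) h2
  have h5 := shr_ne h3
  have h6 := v2e_fresh_ne (fun _ _ _ _ => hc tag (n.add 1) o _ _ _ _) h5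
  refine exp3 hg hkg hi (show n < 63 by omega) (by omega) ?_ (fun b hf => ?_) fun v hv hgv => ?_
  · exact v2e_fin hk (lb_eqv W (c := 1) i hg (by omega)) h6
  · obtain ⟨R', X', D', y', e3, e4, e5⟩ := v2e_fresh W hn (new_var W hn) hg hkg hi
      (fun _ _ _ _ => hc tag (n.add 1) o _ _ _ _) h5 hf
    have e6 := exR_eqv (o := o) (f := f) e4 (u := n) (d := (abs n R X D o f).lb g i)
      (Nat.lt_succ_self n) (by omega)
    exact v2e_fin hk ⟨e6.1, (e5.exact _ _).trans e6.2⟩ e3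
  · have hv' : v < n := hv
    rcases h4 v (by rw [testBit_msk]; exact decide_eq_true hv') with e | ⟨j, y', e1, e2⟩
    · rw [v2e_or, v2e_or] at e
      simp only [Bool.or_eq_true] at e
      rcases e with (e | e) | e
      · exact Or.inl (wf_row W hg hv' e)
      · rw [gmOf_bit (n := n) (X := X) (D := D) (o := o) (f := f), hgv] at e
        simp at e
      · have := hiOf_bit (n := n) (X := X) (D := D) (o := o) (f := f) (by omega) e
        right; left
        rw [AX.cdeg]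
        omega
    · obtain rfl : v = j := by omega
      refine Or.inr (Or.inr fun b p hf => ?_)
      obtain ⟨R', X', D', y'', e3, e4, e5⟩ := v2e_kids W hv' hg hkg hi
        (fun _ _ _ _ => hc tag n o _ _ _ _) e2 hf p
      have e6 := exR_eqv (o := o) (f := f) e4 (u := v) (d := (abs n R X D o f).lb g i) hv'
        (by omega)
      exact v2e_fin hk ⟨e6.1, (e5.exact _ _).trans e6.2⟩ e3

theorem e4_snd (hk : Snd k) (W : Wf n R X D) (h : e4 k tag n R X D o f a y ≠ 0) :
    HoldsX tag (abs n R X D o f) := by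
  obtain ⟨h1, h2⟩ := ok_ne h
  rw [lor_eq_zero, dlo_eq (n := n) (X := X) (D := D) (o := o) (f := f)] at h1
  have hu : a < n := v2e_sub h1.1
  have hd := v2e_sub h1.2
  exact exp4 hu (v2e_fin hk (dex_eqv W hu) (hk _ _ _ _ _ _ _ _ h2).1)
    (v2e_fin hk (dlo_eqv W (c := 1) hu (by omega)) h2)

theorem e5_snd (hk : Snd k) (W : Wf n R X D) (h : e5 k tag n R X D o f a y ≠ 0) :
    HoldsX tag (abs n R X D o f) := by
  obtain ⟨h1, h2⟩ := ok_ne h
  rw [lor_eq_zero] at h1
  have hu : a < n := v2e_sub h1.1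
  exact exp5 (u := a) (v2e_fin hk (sg_eqv W hu h1.2 false) (hk _ _ _ _ _ _ _ _ h2).1)
    (v2e_fin hk (sg_eqv W hu h1.2 true) h2)

theorem e6_snd (hk : Snd k) (W : Wf n R X D) (h : e6 k tag n R X D o f a y ≠ 0) :
    HoldsX tag (abs n R X D o f) := by
  obtain ⟨h1, h2⟩ := ok_ne h
  rw [lor_eq_zero, xor_eq_zero] at h1
  have hn : n ≤ 62 := v2e_sub h1.1
  have h3 := (hk _ _ _ _ _ _ _ _ h2).1
  refine exp6 (z := a) (show n < 63 by omega) (fun v hv hgv hz => ?_) ?_ ?_
  · have hv' : v < n := hv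
    have e := sub_of_cov (xor_eq_zero.2 h1.2.symm) (i := v)
      (by rw [testBit_msk]; exact decide_eq_true hv')
    rw [v2e_or, v2e_or, gmOf_bit (n := n) (X := X) (D := D) (o := o) (f := f), hgv, testBit_one,
      decide_eq_false hz] at e
    exact two_bit (by simpa using e)
  · have e : sel (n.ble a) 0 1 = if a < n then 1 else 0 := by
      rw [sel_eq]
      simp only [Nat.ble_eq]
      split_ifs <;> omega
    rw [e] at h3
    exact (hk _ _ _ _ _ _ _ _ h3).2 W
  · obtain ⟨W₁, E₁⟩ := new_var (o := o) (f := f) W hn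
    have e6 := exR_eqv (o := o) (f := f) W₁ (u := n) (d := 1) (Nat.lt_succ_self n) (by omega)
    exact v2e_fin hk ⟨e6.1, (E₁.exact _ _).trans e6.2⟩ h2

theorem e8_snd (hk : Snd k) (W : Wf n R X D) (h : e8 k tag n R X D o f a y ≠ 0) :
    HoldsX tag (abs n R X D o f) := by
  have hc : ∀ R X D y, k tag n R X D o f y ≠ 0 → y ≠ 0 :=
    fun _ _ _ _ e => (hk _ _ _ _ _ _ _ _ e).1
  obtain ⟨g, i, rfl, -⟩ := slot_eq a
  obtain ⟨h1, h2⟩ := ok_ne h
  rw [lor_eq_zero] at h1
  obtain ⟨hg, hkg, hi⟩ := wf_nU (o := o) (f := f) W h1.1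
  have hv : y.land 63 < n := v2e_sub h1.2
  refine exp8 hg hkg hi hv (v2e_fin hk (nf_eqv W i hg hv) (v2e_kids_ne hc h2))
    (Or.inr fun b p hf => ?_)
  obtain ⟨R', X', D', y'', e3, e4⟩ := v2e_kids W hv hg hkg hi hc h2 hf p
  exact v2e_fin hk e4 e3

end Pool.Agent.Lib.MP_79d702_lc.U2.V2
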