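import Pool.Agent.Lib.MP_79d702_lc.U2.V2B

/-!
Soundness of the deductions.
-/

namespace Pool.Agent.Lib.MP_79d702_lc.U2.V2

variable {k : K} {tag n R X D o f a y : ℕ}

private theorem sub0 {a b : ℕ} (h : a.sub b = 0) : a ≤ b := Nat.le_of_sub_eq_zero h

private theorem step_eqv {A A' B : AX} (h : Step tag A A') (e : Eqv A' B) (h' : HoldsX tag B) :
    HoldsX tag A := holdsX_step h (holdsX_der e.der h')

private theorem land_pow {x p : ℕ} (h : x &&& 2 ^ p = 2 ^ p) : x.testBit p = true := by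
  have := congrArg (fun z => Nat.testBit z p) h
  simpa [Nat.testBit_and, Nat.testBit_two_pow_self] using this

private theorem full_of_nF (h : nF f = 0) : (abs n R X D o f).full = true := by
  have h1 : f &&& 2 ^ 12 = 2 ^ 12 := xor_eq_zero.1 h
  exact land_pow h1

private theorem land63 (x : ℕ) : x.land 63 = x % 64 := Nat.and_two_pow_sub_one_eq_mod x 6

private theorem zs_bit (f v : ℕ) : (zs f).testBit v =
    (decide (v = (abs n R X D o f).z1) || decide (v = (abs n R X D o f).z2)) := by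
  have e : (zs f).testBit v = ((one (f.land 63)).testBit v ||
      (one ((f.shiftRight 6).land 63)).testBit v) := Nat.testBit_or _ _ _
  rw [e, testBit_one, testBit_one, land63, land63]
  have : f.shiftRight 6 = f / 64 := Nat.shiftRight_eq_div_pow f 6
  rw [this]
  rfl

private theorem bit_of_shr {x u : ℕ} (h : (x.shiftRight u).land 1 = 0) : x.testBit u = false := by
  have h1 : (x >>> u) &&& 1 = 0 := h
  rw [Nat.and_one_is_mod, Nat.shiftRight_eq_div_pow] at h1
  rw [Nat.testBit_eq_decide_div_mod_eq]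
  simp [h1]

private theorem ne_z {u : ℕ} (h : ((zs f).shiftRight u).land 1 = 0) :
    u ≠ (abs n R X D o f).z1 ∧ u ≠ (abs n R X D o f).z2 := by
  have h1 := bit_of_shr h
  rw [zs_bit (n := n) (R := R) (X := X) (D := D) (o := o)] at h1
  simpa using h1

private theorem dep_eq (u : ℕ) : (abs n R X D o f).dep u = 15 - dc R u := by
  rw [dc_eq]
  rfl

private theorem dc_le (R u : ℕ) : dc R u ≤ 15 := by
  rw [dc_eq]
  omega

private theorem lb_le (g : ℕ) (i : Bool) : (abs n R X D o f).lb g i ≤ 15 := by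
  change rcd R g / 2 ^ (so i + 8) % 16 ≤ 15
  omega

private theorem dlo_le (u : ℕ) : (abs n R X D o f).dlo u ≤ 15 := by
  change rcd R u % 16 ≤ 15
  omega

private theorem gate_false {u : ℕ} (h : (rc R u).land 1073741824 = 0) :
    (abs n R X D o f).gate u = false := by
  rw [rc_land R u (by norm_num)] at h
  have := congrArg (fun z => Nat.testBit z 30) h
  have e : (1073741824 : ℕ).testBit 30 = true := by decide
  have e' : (rcd R u).testBit 30 = false := by simpa [Nat.testBit_and, e] using this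
  exact e'

/-- a new bound that can be read off the known wires -/
private theorem der_setLb {g l : ℕ} {i : Bool}
    (h : (abs n R X D o f).inp g i < n ∧ ((abs n R X D o f).gate ((abs n R X D o f).inp g i) = true ∨
      l ≤ min ((abs n R X D o f).dlo ((abs n R X D o f).inp g i)) 8)) :
    Der (abs n R X D o f) ((abs n R X D o f).setLb g i l) := by
  refine ⟨rfl, fun _ _ => rfl, fun _ _ => le_rfl, fun _ _ e => ⟨e, le_rfl⟩, fun _ _ => le_rfl,
    fun _ _ _ _ => rfl, fun _ _ _ => rfl, fun _ _ _ _ => rfl, fun _ _ _ _ _ => rfl,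
    fun u _ _ j => ?_, fun _ _ _ _ _ _ e => Or.inl e, fun u _ j v hv => ?_, rfl, fun _ _ => rfl,
    fun v hv u hu e => AX.Ab.cn hv hu e, fun u _ v hv => ?_, fun e => ⟨e, rfl, rfl⟩⟩
  · change upd2 (abs n R X D o f).lb g i l u j ≤ _ ∨ _ ∨
      (_ ∧ (_ ∨ upd2 (abs n R X D o f).lb g i l u j ≤ _))
    unfold upd2
    split_ifs with e
    · obtain ⟨rfl, rfl⟩ := e
      exact Or.inr (Or.inr h)
    · exact Or.inl le_rfl
  · change (decide (v < n) && _) = false
    have : ¬ v < n := not_lt.2 hv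
    simp [this]
  · change (decide (v < n) && _) = false
    have : ¬ v < n := not_lt.2 hv
    simp [this]

theorem sLb2_snd (hk : Snd k) (W : Wf n R X D) (h : sLb2 k tag n R X D o f a y ≠ 0) :
    HoldsX tag (abs n R X D o f) := by
  obtain ⟨g, i, rfl, -, -, -⟩ := slot_eq a
  obtain ⟨h1, h2⟩ := ok_ne h
  obtain ⟨h3, h4⟩ := lor_eq_zero.1 h1
  obtain ⟨h5, h6⟩ := lor_eq_zero.1 h3
  rw [slot_shr] at h6
  have hG := (nG_eq (n := n) (X := X) (D := D) (o := o) (f := f) g).1 h6
  have hg := wf_gate_lt W hG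
  have key : ∀ z, (z = (abs n R X D o f).z1 ∨ z = (abs n R X D o f).z2) →
      (n ≤ z ∨ (abs n R X D o f).Excl g i z) := by
    intro z hz
    by_cases hn : n ≤ z
    · exact Or.inl hn
    right
    have hz' : z < n := not_le.1 hn
    have hb : ((zs f).land (msk n)).testBit z = true := by
      have e : ((zs f).land (msk n)).testBit z = ((zs f).testBit z && (msk n).testBit z) :=
        Nat.testBit_and _ _ _
      rw [e, zs_bit (n := n) (R := R) (X := X) (D := D) (o := o), testBit_msk]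
      simpa [hz'] using hz
    rw [sel_eq] at h4
    split_ifs at h4 with e
    · rw [Nat.eq_of_beq_eq_true e] at hb
      simp at hb
    · exact wf_row W hg hz' (sub_of_cov h4 hb)
  have hl := lb_le (n := n) (R := R) (X := X) (D := D) (o := o) (f := f) g i
  obtain ⟨W', E⟩ := lb_eqv (o := o) (f := f) (c := 2 - (abs n R X D o f).lb g i) W i hg (by omega)
  have e : (abs n R X D o f).lb g i + (2 - (abs n R X D o f).lb g i) =
      max ((abs n R X D o f).lb g i) 2 := by omega
  rw [e] at E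
  unfold up at h2
  rw [lbq_eq (n := n) (X := X) (D := D) (o := o) (f := f)] at h2
  exact step_eqv (Step.lb2 g i (full_of_nF h5) hg hG (key _ (Or.inl rfl)) (key _ (Or.inr rfl))) E
    ((hk _ _ _ _ _ _ _ _ h2).2 W')

theorem sVlo_snd (hk : Snd k) (W : Wf n R X D) (h : sVlo k tag n R X D o f a y ≠ 0) :
    HoldsX tag (abs n R X D o f) := by
  obtain ⟨h1, h2⟩ := ok_ne h
  obtain ⟨h3, h4⟩ := lor_eq_zero.1 h1
  obtain ⟨h5, h6⟩ := lor_eq_zero.1 h3
  obtain ⟨h7, h8⟩ := lor_eq_zero.1 h5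
  have ha : a < n := sub0 h8
  have hz := ne_z (n := n) (R := R) (X := X) (D := D) (o := o) h4
  have hl := dlo_le (n := n) (R := R) (X := X) (D := D) (o := o) (f := f) a
  obtain ⟨W', E⟩ := dlo_eqv (o := o) (f := f) (c := 2 - (abs n R X D o f).dlo a) W ha (by omega)
  have e : (abs n R X D o f).dlo a + (2 - (abs n R X D o f).dlo a) =
      max ((abs n R X D o f).dlo a) 2 := by omega
  rw [e] at E
  unfold up at h2
  rw [dlo_eq (n := n) (X := X) (D := D) (o := o) (f := f)] at h2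
  exact step_eqv (Step.vlo a (full_of_nF h7) ha (gate_false h6) hz.1 hz.2) E
    ((hk _ _ _ _ _ _ _ _ h2).2 W')

theorem sDown_snd (hk : Snd k) (W : Wf n R X D) (h : sDown k tag n R X D o f a y ≠ 0) :
    HoldsX tag (abs n R X D o f) := by
  obtain ⟨g, i, rfl, -, -, -⟩ := slot_eq a
  obtain ⟨h1, h2⟩ := ok_ne h
  obtain ⟨h3, h4⟩ := lor_eq_zero.1 h1
  obtain ⟨h5, h6⟩ := lor_eq_zero.1 h3
  rw [slot_shr] at h2 h4 h6
  obtain ⟨hg, hG, hi, hs⟩ := wf_nK (o := o) (f := f) W h5
  have a1 : dc R g ≤ 14 := sub0 h4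
  have a2 : 6 ≤ dc R g := sub0 h6
  unfold up at h2
  rw [hs] at h2
  have d1 := dep_eq (n := n) (R := R) (X := X) (D := D) (o := o) (f := f) g
  have d2 := dep_eq (n := n) (R := R) (X := X) (D := D) (o := o) (f := f)
    ((abs n R X D o f).inp g i)
  have d3 := dc_le R ((abs n R X D o f).inp g i)
  obtain ⟨W', E⟩ := dep_eqv (o := o) (f := f)
    (c := dc R g + 1 - dc R ((abs n R X D o f).inp g i)) W hi (by omega)
  have e : (abs n R X D o f).dep ((abs n R X D o f).inp g i) -
      (dc R g + 1 - dc R ((abs n R X D o f).inp g i)) =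
      min ((abs n R X D o f).dep ((abs n R X D o f).inp g i)) ((abs n R X D o f).dep g - 1) := by
    omega
  rw [e] at E
  exact step_eqv (Step.down g i hg hG (by omega) hi) E ((hk _ _ _ _ _ _ _ _ h2).2 W')

theorem sUp_snd (hk : Snd k) (W : Wf n R X D) (h : sUp k tag n R X D o f a y ≠ 0) :
    HoldsX tag (abs n R X D o f) := by
  obtain ⟨g, i, rfl, -, -, -⟩ := slot_eq a
  obtain ⟨h1, h2⟩ := ok_ne h
  obtain ⟨h3, h4⟩ := lor_eq_zero.1 h1
  rw [slot_xor] at h2 h4
  rw [slot_shr] at h2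
  obtain ⟨hg, hG, hi, hs⟩ := wf_nK (o := o) (f := f) W h3
  obtain ⟨hj, ht⟩ := wf_kn2 (o := o) (f := f) W h4
  unfold up at h2
  rw [hs, ht] at h2
  have d1 := dep_eq (n := n) (R := R) (X := X) (D := D) (o := o) (f := f) g
  have d2 := dep_eq (n := n) (R := R) (X := X) (D := D) (o := o) (f := f)
    ((abs n R X D o f).inp g i)
  have d3 := dep_eq (n := n) (R := R) (X := X) (D := D) (o := o) (f := f)
    ((abs n R X D o f).inp g (!i))
  have d4 := dc_le R g
  have d5 := dc_le R ((abs n R X D o f).inp g i)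
  have d6 := dc_le R ((abs n R X D o f).inp g (!i))
  obtain ⟨W', E⟩ := dep_eqv (o := o) (f := f)
    (c := dc R ((abs n R X D o f).inp g i) - (dc R ((abs n R X D o f).inp g i) -
      dc R ((abs n R X D o f).inp g (!i))) - 1 - dc R g) W hg (by omega)
  have e : (abs n R X D o f).dep g - (dc R ((abs n R X D o f).inp g i) -
      (dc R ((abs n R X D o f).inp g i) - dc R ((abs n R X D o f).inp g (!i))) - 1 - dc R g) =
      min ((abs n R X D o f).dep g) (max ((abs n R X D o f).dep ((abs n R X D o f).inp g false))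
        ((abs n R X D o f).dep ((abs n R X D o f).inp g true)) + 1) := by
    cases i
    · simp only [Bool.not_false] at *
      omega
    · simp only [Bool.not_true] at *
      omega
  rw [e] at E
  have b : (abs n R X D o f).inp g false < n ∧ (abs n R X D o f).inp g true < n := by
    cases i
    exacts [⟨hi, hj⟩, ⟨hj, hi⟩]
  exact step_eqv (Step.up g hg hG b.1 b.2) E ((hk _ _ _ _ _ _ _ _ h2).2 W')

private theorem up_zero {R p a b : ℕ} (h : b ≤ a) : up R p a b = R := by
  unfold up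
  have : b.sub a = 0 := Nat.sub_eq_zero_of_le h
  rw [this]
  exact congrArg R.add (Nat.zero_shiftLeft p)

theorem sLb9_snd (hk : Snd k) (W : Wf n R X D) (h : sLb9 k tag n R X D o f a y ≠ 0) :
    HoldsX tag (abs n R X D o f) := by
  obtain ⟨g, i, rfl, -, -, -⟩ := slot_eq a
  obtain ⟨h1, h2⟩ := ok_ne h
  obtain ⟨h3, h4⟩ := lor_eq_zero.1 h1
  rw [slot_xor] at h3 h4
  obtain ⟨hg, hG, -, hs⟩ := wf_nK (o := o) (f := f) W h3
  rw [hs] at h4
  rw [lbq_eq (n := n) (X := X) (D := D) (o := o) (f := f)] at h2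
  by_cases c : 9 ≤ (abs n R X D o f).lb g i
  · rw [up_zero c] at h2
    exact (hk _ _ _ _ _ _ _ _ h2).2 W
  obtain ⟨W', E⟩ := lb_eqv (o := o) (f := f) (c := 9 - (abs n R X D o f).lb g i) W i hg (by omega)
  have e : (abs n R X D o f).lb g i + (9 - (abs n R X D o f).lb g i) = 9 := by omega
  rw [e] at E
  exact step_eqv (Step.lb9 g i hg hG (wf_nDgn W h4)) E ((hk _ _ _ _ _ _ _ _ h2).2 W')

theorem sLbr_snd (hk : Snd k) (W : Wf n R X D) (h : sLbr k tag n R X D o f a y ≠ 0) :
    HoldsX tag (abs n R X D o f) := by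
  obtain ⟨g, i, rfl, -, -, -⟩ := slot_eq a
  obtain ⟨h1, h2⟩ := ok_ne h
  obtain ⟨hg, -, hi, hs⟩ := wf_nK (o := o) (f := f) W h1
  rw [lbq_eq (n := n) (X := X) (D := D) (o := o) (f := f), hs,
    dlo_eq (n := n) (X := X) (D := D) (o := o) (f := f)] at h2
  have e0 : ((abs n R X D o f).dlo ((abs n R X D o f).inp g i)).sub
      (((abs n R X D o f).dlo ((abs n R X D o f).inp g i)).sub 8) =
      min ((abs n R X D o f).dlo ((abs n R X D o f).inp g i)) 8 := by
    change _ - (_ - 8) = _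
    omega
  rw [e0] at h2
  by_cases c : min ((abs n R X D o f).dlo ((abs n R X D o f).inp g i)) 8 ≤
      (abs n R X D o f).lb g i
  · rw [up_zero c] at h2
    exact (hk _ _ _ _ _ _ _ _ h2).2 W
  obtain ⟨W', E⟩ := lb_eqv (o := o) (f := f)
    (c := min ((abs n R X D o f).dlo ((abs n R X D o f).inp g i)) 8 - (abs n R X D o f).lb g i)
    W i hg (by omega)
  exact holdsX_der (der_setLb ⟨hi, Or.inr (by omega)⟩)
    (holdsX_der E.der ((hk _ _ _ _ _ _ _ _ h2).2 W'))

theorem sFull_snd (hk : Snd k) (W : Wf n R X D) (h : sFull k tag n R X D o f a y ≠ 0) :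
    HoldsX tag (abs n R X D o f) := by
  obtain ⟨h1, h2⟩ := ok_ne h
  obtain ⟨h3, h4⟩ := lor_eq_zero.1 h1
  have ha : a ≤ 63 := sub0 h3
  have hb : y.land 63 ≤ 63 := by
    rw [land63]
    omega
  generalize y.land 63 = b at h2 h4 hb
  have e : abs n R X D o ((a.add (b.mul 64)).add 4096) = (abs n R X D o f).setFull a b := by
    have e1 : (a + b * 64 + 4096) % 64 = a := by omega
    have e2 : (a + b * 64 + 4096) / 64 % 64 = b := by omega
    have e3 : (a + b * 64 + 4096).testBit 12 = true := by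
      rw [Nat.testBit_eq_decide_div_mod_eq]
      have : (a + b * 64 + 4096) / 2 ^ 12 % 2 = 1 := by omega
      exact decide_eq_true this
    change AX.mk _ _ _ ((a + b * 64 + 4096) % 64) ((a + b * 64 + 4096) / 64 % 64)
      ((a + b * 64 + 4096).testBit 12) = _
    rw [e1, e2, e3]
    rfl
  have h5 := (hk _ _ _ _ _ _ _ _ h2).2 W
  rw [e] at h5
  refine holdsX_step (Step.full a b ?_) h5
  rw [sel_eq] at h4
  split_ifs at h4 with c0
  · exact Or.inl (Nat.eq_of_beq_eq_true c0)
  obtain ⟨h6, h7⟩ := lor_eq_zero.1 h4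
  rw [sel_eq] at h7
  split_ifs at h7 with c1
  · exact Or.inr (Or.inl ⟨Nat.eq_of_beq_eq_true c1, wf_nDgn W h6⟩)
  obtain ⟨h8, h9⟩ := lor_eq_zero.1 h7
  obtain ⟨h10, h11⟩ := lor_eq_zero.1 h8
  have t2 : tag ≤ 2 := sub0 h10
  have t0 : tag ≠ 0 := fun e => c0 (by rw [e]; rfl)
  have t1 : tag ≠ 1 := fun e => c1 (by rw [e]; rfl)
  refine Or.inr (Or.inr ⟨by omega, wf_nDgn W h6, wf_nDgn W h11, fun e => ?_⟩)
  rw [sel_eq, if_pos (by rw [e]; exact Nat.beq_refl b)] at h9
  exact one_ne_zero h9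

theorem sExK_snd (hk : Snd k) (W : Wf n R X D) (h : sExK k tag n R X D o f a y ≠ 0) :
    HoldsX tag (abs n R X D o f) := by
  obtain ⟨g, i, rfl, -, -, -⟩ := slot_eq a
  obtain ⟨h1, h2⟩ := ok_ne h
  obtain ⟨h3, h4⟩ := lor_eq_zero.1 h1
  rw [slot_xor] at h3 h4
  obtain ⟨hg, -, -, hs⟩ := wf_nK (o := o) (f := f) W h3
  rw [hs] at h4
  obtain ⟨W', E⟩ := row_der (o := o) (f := f) (m := emOf R) W i hg fun v hv => by
    obtain ⟨-, b1, b2⟩ := emOf_bit (n := n) (X := X) (D := D) (o := o) (f := f) hv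
    exact ⟨wf_lt_of_ne W b1, Or.inr (Or.inr (Or.inr (Or.inr (Or.inr (Or.inl
      ⟨wf_nDgn W h4, b2⟩)))))⟩
  exact holdsX_der E ((hk _ _ _ _ _ _ _ _ h2).2 W')

theorem sEx9_snd (hk : Snd k) (W : Wf n R X D) (h : sEx9 k tag n R X D o f a y ≠ 0) :
    HoldsX tag (abs n R X D o f) := by
  obtain ⟨g, i, rfl, -, -, -⟩ := slot_eq a
  obtain ⟨h1, h2⟩ := ok_ne h
  obtain ⟨h3, h4⟩ := lor_eq_zero.1 h1
  rw [slot_shr] at h3
  have hG := (nG_eq (n := n) (X := X) (D := D) (o := o) (f := f) g).1 h3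
  have hg := wf_gate_lt W hG
  rw [lbq_eq (n := n) (X := X) (D := D) (o := o) (f := f)] at h4
  have h9 : 9 ≤ (abs n R X D o f).lb g i := sub0 h4
  obtain ⟨W', E⟩ := row_der (o := o) (f := f) (m := (gmOf R).xor (msk n)) W i hg fun v hv => by
    have e : ((gmOf R).xor (msk n)).testBit v = ((gmOf R).testBit v ^^ (msk n).testBit v) :=
      Nat.testBit_xor _ _ _
    rw [e, gmOf_bit (n := n) (X := X) (D := D) (o := o) (f := f), testBit_msk] at hv
    have h63 := W.n63
    cases c : (abs n R X D o f).gate v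
    · have hv' : v < n := by simpa [c] using hv
      exact ⟨hv', Or.inr (Or.inr (Or.inr (Or.inr (Or.inr (Or.inr ⟨c, Or.inl h9⟩)))))⟩
    · have hv' := wf_gate_lt W c
      have h64 : v < 64 := by omega
      simp [c, hv', h64] at hv
  exact holdsX_der E ((hk _ _ _ _ _ _ _ _ h2).2 W')

theorem sExL_snd (hk : Snd k) (W : Wf n R X D) (h : sExL k tag n R X D o f a y ≠ 0) :
    HoldsX tag (abs n R X D o f) := by
  obtain ⟨g, i, rfl, -, -, -⟩ := slot_eq a
  obtain ⟨h1, h2⟩ := ok_ne h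
  obtain ⟨h3, h4⟩ := lor_eq_zero.1 h1
  obtain ⟨h5, h6⟩ := lor_eq_zero.1 h3
  rw [slot_shr] at h5
  have hG := (nG_eq (n := n) (X := X) (D := D) (o := o) (f := f) g).1 h5
  have hg := wf_gate_lt W hG
  generalize y.land 63 = v at h2 h4 h6
  rw [lbq_eq (n := n) (X := X) (D := D) (o := o) (f := f),
    dlo_eq (n := n) (X := X) (D := D) (o := o) (f := f)] at h4
  have hl : (abs n R X D o f).dlo v < (abs n R X D o f).lb g i := sub0 h4
  have h7 := xor_eq_zero.1 h6
  rw [rc_land R v (by norm_num)] at h7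
  have b4 : (rcd R v).testBit 4 = true := by
    have := congrArg (fun z => Nat.testBit z 4) h7
    have e1 : (1073741840 : ℕ).testBit 4 = true := by decide
    have e2 : (16 : ℕ).testBit 4 = true := by decide
    simpa [Nat.testBit_and, e1, e2] using this
  have b30 : (rcd R v).testBit 30 = false := by
    have := congrArg (fun z => Nat.testBit z 30) h7
    have e1 : (1073741840 : ℕ).testBit 30 = true := by decide
    have e2 : (16 : ℕ).testBit 30 = false := by decide
    simpa [Nat.testBit_and, e1, e2] using this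
  have hv : v < n := wf_lt_of_ne W fun e => by
    rw [e] at b4
    simp at b4
  have e : one (((2 * g + i.toNat).mul 64).add v) = (one v).shiftLeft ((2 * g + i.toNat).mul 64) := by
    change 1 <<< ((2 * g + i.toNat) * 64 + v) = (1 <<< v) <<< ((2 * g + i.toNat) * 64)
    rw [← Nat.shiftLeft_add, Nat.add_comm v]
  rw [e] at h2
  obtain ⟨W', E⟩ := row_der (o := o) (f := f) (m := one v) W i hg fun w hw => by
    rw [testBit_one] at hw
    obtain rfl : w = v := by simpa using hw
    exact ⟨hv, Or.inr (Or.inr (Or.inr (Or.inr (Or.inr (Or.inr ⟨b30, Or.inr ⟨b4, hl⟩⟩)))))⟩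
  exact holdsX_der E ((hk _ _ _ _ _ _ _ _ h2).2 W')

theorem steps_snd {c : ℕ} (hk : Snd k) (W : Wf n R X D)
    (h : steps k tag n R X D o f c a y ≠ 0) : HoldsX tag (abs n R X D o f) := by
  unfold steps at h
  simp only [sel_eq] at h
  split_ifs at h
  exacts [sLb2_snd hk W h, sVlo_snd hk W h, sDown_snd hk W h, sUp_snd hk W h, sLb9_snd hk W h,
    sLbr_snd hk W h, sFull_snd hk W h, sExK_snd hk W h, sEx9_snd hk W h, sExL_snd hk W h]

private theorem dep9 {u : ℕ} (h : Nat.sub 6 (dc R u) = 0) : (abs n R X D o f).dep u ≤ 9 := by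
  have := sub0 h
  rw [dep_eq]
  omega

theorem badE_snd {c : ℕ} (W : Wf n R X D) (h : badE n R o f c a = 0) :
    HoldsX tag (abs n R X D o f) := by
  refine holdsX_bad ?_
  unfold badE at h
  rw [sel_eq] at h
  split_ifs at h with c1
  · rw [sel_eq] at h
    split_ifs at h with c2
    · obtain ⟨h1, h2⟩ := lor_eq_zero.1 h
      have hG := (nG_eq (n := n) (X := X) (D := D) (o := o) (f := f) a).1 h1
      have := sub0 h2
      exact Bad.dep0 a (wf_gate_lt W hG) hG (by rw [dep_eq]; omega)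
    rw [sel_eq] at h
    split_ifs at h with c3
    · obtain ⟨h1, h2⟩ := lor_eq_zero.1 h
      exact Bad.outE (sub0 h1) (dep9 h2)
    · obtain ⟨g, i, -, -, e, -⟩ := slot_eq a
      have e' : (o.mul 2).add (a.land 1) = 2 * o + i.toNat := by
        rw [e]
        change o * 2 + _ = _
        omega
      rw [e'] at h
      obtain ⟨h1, h2⟩ := lor_eq_zero.1 h
      obtain ⟨hg, hG, hi, hs⟩ := wf_nK (o := o) (f := f) W h1
      rw [hs] at h2
      exact Bad.outI i hg hG hi (dep9 h2)
  rw [sel_eq] at h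
  split_ifs at h with c2
  · obtain ⟨g, i, rfl, -, -, -⟩ := slot_eq a
    obtain ⟨h1, h2⟩ := lor_eq_zero.1 h
    obtain ⟨h3, h4⟩ := lor_eq_zero.1 h1
    obtain ⟨hg, hG, -, hs⟩ := wf_nK (o := o) (f := f) W h3
    rw [hs] at h4
    refine Bad.sel g i hg hG (wf_nDgn W h4) ?_
    rw [sel_eq, slot_shr, slot_xor] at h2
    split_ifs at h2 with c3
    · have := Nat.le_of_ble_eq_true c3
      exact Or.inl (by rw [dep_eq]; omega)
    · obtain ⟨h5, h6⟩ := lor_eq_zero.1 h2
      obtain ⟨hj, ht⟩ := wf_kn2 (o := o) (f := f) W h5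
      rw [ht] at h6
      exact Or.inr ⟨hj, dep9 h6⟩
  · obtain ⟨h1, h2⟩ := lor_eq_zero.1 h
    obtain ⟨h3, h4⟩ := lor_eq_zero.1 h1
    have hz := ne_z (n := n) (R := R) (X := X) (D := D) (o := o) h2
    exact Bad.many a (full_of_nF h3) (wf_nDgn W h4) hz.1 hz.2

end Pool.Agent.Lib.MP_79d702_lc.U2.V2
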