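import Pool.Agent.Lib.MP_79d702_lc.U2.V2S
import Pool.Agent.Lib.MP_79d702_lc.U2.LanesA

/-!
The loops and the lane tests of the embedding test.
-/

namespace Pool.Agent.Lib.MP_79d702_lc.U2.V2.EG

open LA

theorem and_field (y p w : ℕ) :
    y &&& ((2 ^ w - 1) * 2 ^ p) = (y / 2 ^ p % 2 ^ w) * 2 ^ p := by
  refine Nat.eq_of_testBit_eq fun i => ?_
  rw [Nat.testBit_and, Nat.testBit_mul_two_pow, Nat.testBit_mul_two_pow,
    Nat.testBit_two_pow_sub_one, Nat.testBit_mod_two_pow, Nat.testBit_div_two_pow]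
  by_cases h : p ≤ i
  · rw [Nat.sub_add_cancel h]
    cases y.testBit i <;> simp
  · simp [h]

theorem or_add (x y : ℕ) (h : x &&& y = 0) : x ||| y = x + y := by
  induction x using Nat.strong_induction_on generalizing y with
  | _ x ih =>
    rcases Nat.eq_zero_or_pos x with rfl | hx
    · simp
    · have h1 : x / 2 &&& y / 2 = 0 := by rw [← Nat.and_div_two, h]
      have h2 := ih (x / 2) (by omega) (y / 2) h1
      have h3 : (x ||| y) / 2 = x / 2 ||| y / 2 := Nat.or_div_two
      have h4 : (x ||| y) % 2 = 1 ↔ x % 2 = 1 ∨ y % 2 = 1 := Nat.or_mod_two_eq_one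
      have h5 : (x &&& y) % 2 = 1 ↔ x % 2 = 1 ∧ y % 2 = 1 := Nat.and_mod_two_eq_one
      rw [h] at h5
      omega

theorem bit_push {y : ℕ} (r : ℕ) {p : ℕ} (hp : p < 36) :
    ((r <<< 36) ||| y).testBit p = y.testBit p := by
  rw [Nat.testBit_or, Nat.testBit_shiftLeft, decide_eq_false (by omega)]
  rfl

theorem shr_push {y : ℕ} (hy : y < 2 ^ 36) (r : ℕ) : ((r <<< 36) ||| y) >>> 36 = r := by
  rw [Nat.shiftRight_or_distrib, Nat.shiftLeft_shiftRight, Nat.shiftRight_eq_zero _ _ hy,
    Nat.or_zero]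

theorem bit_push' {y : ℕ} (hy : y < 2 ^ 36) (r q : ℕ) :
    ((r <<< 36) ||| y).testBit (36 + q) = r.testBit q := by
  rw [← Nat.testBit_shiftRight, shr_push hy]

/-- the record that is gathered for a variable -/
def rV (W y : ℕ) : ℕ := ((W >>> (y &&& 8128)) &&& 68719476735) ^^^ (y &&& 32)

/-- the record that is gathered for a gate -/
def rG (W a b y l : ℕ) : ℕ :=
  (rV W y ^^^ ((a >>> ((l >>> 5) &&& 504)) &&& 16320)) ^^^
    ((b >>> ((l >>> 17) &&& 504)) &&& 66846720)

/-- the counter of the lane of the image -/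
def ct (y : ℕ) : ℕ := one ((y &&& 8128) >>> 3)

theorem rV_lt (W y : ℕ) : rV W y < 2 ^ 36 :=
  Nat.xor_lt_two_pow (Nat.and_lt_two_pow _ (by norm_num)) (Nat.and_lt_two_pow _ (by norm_num))

theorem rG_lt (W a b y l : ℕ) : rG W a b y l < 2 ^ 36 :=
  Nat.xor_lt_two_pow (Nat.xor_lt_two_pow (rV_lt _ _) (Nat.and_lt_two_pow _ (by norm_num)))
    (Nat.and_lt_two_pow _ (by norm_num))

theorem gaV_succ (W k z S : ℕ) :
    gaV W (k + 1) z S = (gaV W k (z >>> 8) (S + ct z) <<< 36) ||| rV W z := rfl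

theorem gaG_succ (W a b v e k z L S : ℕ) : gaG W a b v e (k + 1) z L S =
    (gaG W a b v e k (z >>> 8) (L >>> 36) (S + ct z) <<< 36) ||| rG W a b z L := rfl

theorem shr_step (z c u : ℕ) : z >>> c >>> (c * u) = z >>> (c * (u + 1)) := by
  rw [← Nat.shiftRight_add]
  congr 1
  ring

theorem gaV_shr (W k z S : ℕ) :
    gaV W k z S >>> (36 * k) = S + ∑ u ∈ Finset.range k, ct (z >>> (8 * u)) := by
  induction k generalizing z S with
  | zero => rfl
  | succ k ih =>
    rw [gaV_succ, ← shr_step, shr_push (rV_lt _ _), ih, Finset.sum_range_succ']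
    simp only [shr_step, mul_zero, Nat.shiftRight_zero]
    ring

theorem gaV_bit (W k z S : ℕ) {u p : ℕ} (hu : u < k) (hp : p < 36) :
    (gaV W k z S).testBit (36 * u + p) = (rV W (z >>> (8 * u))).testBit p := by
  induction k generalizing z S u with
  | zero => omega
  | succ k ih =>
    rw [gaV_succ]
    rcases u with _ | u
    · rw [mul_zero, zero_add, bit_push _ hp]
      rfl
    · rw [show 36 * (u + 1) + p = 36 + (36 * u + p) by ring, bit_push' (rV_lt _ _),
        ih _ _ (by omega), shr_step]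

theorem gaG_shr (W a b v e k z L S : ℕ) : gaG W a b v e k z L S >>> (36 * k) =
    gaV W v ((z >>> (8 * k)) ^^^ (e * zE)) (S + ∑ u ∈ Finset.range k, ct (z >>> (8 * u))) := by
  induction k generalizing z L S with
  | zero => rfl
  | succ k ih =>
    rw [gaG_succ, ← shr_step, shr_push (rG_lt _ _ _ _ _), ih, Finset.sum_range_succ']
    simp only [shr_step, mul_zero, Nat.shiftRight_zero]
    congr 1
    ring

theorem gaG_bit (W a b v e k z L S : ℕ) {u p : ℕ} (hu : u < k) (hp : p < 36) :
    (gaG W a b v e k z L S).testBit (36 * u + p) =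
      (rG W a b (z >>> (8 * u)) (L >>> (36 * u))).testBit p := by
  induction k generalizing z L S u with
  | zero => omega
  | succ k ih =>
    rw [gaG_succ]
    rcases u with _ | u
    · rw [mul_zero, zero_add, bit_push _ hp]
      rfl
    · rw [show 36 * (u + 1) + p = 36 + (36 * u + p) by ring, bit_push' (rG_lt _ _ _ _ _),
        ih _ _ _ (by omega), shr_step, shr_step]

theorem and8128 (y : ℕ) : y &&& 8128 = y / 64 % 128 * 64 := and_field y 6 7

theorem and504 (y : ℕ) : y &&& 504 = y / 8 % 64 * 8 := and_field y 3 6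

theorem bit_c (w p q : ℕ) :
    ((2 ^ w - 1) * 2 ^ p).testBit q = decide (p ≤ q ∧ q < p + w) := by
  rw [Nat.testBit_mul_two_pow, Nat.testBit_two_pow_sub_one, ← Bool.decide_and]
  refine decide_eq_decide.mpr ?_
  omega

theorem rV_bit (W y : ℕ) {p : ℕ} (hp : p < 36) : (rV W y).testBit p =
    (W.testBit (64 * (y / 64 % 128) + p) ^^ (decide (p = 5) && y.testBit 5)) := by
  have e1 : (68719476735 : ℕ).testBit p = true := by
    have := Nat.testBit_two_pow_sub_one 36 p
    rw [decide_eq_true hp] at this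
    exact this
  have e2 : (32 : ℕ).testBit p = decide (p = 5) := by
    have := Nat.testBit_two_pow (n := 5) (m := p)
    rw [show (32 : ℕ) = 2 ^ 5 from rfl, this]
    exact decide_eq_decide.mpr eq_comm
  unfold rV
  rw [Nat.testBit_xor, Nat.testBit_and, Nat.testBit_and, Nat.testBit_shiftRight, and8128, e1, e2,
    Bool.and_true, mul_comm]
  by_cases h : p = 5
  · subst h
    simp
  · simp [h]

theorem rG_bit (W a b y l : ℕ) {p : ℕ} (hp : p < 36) : (rG W a b y l).testBit p =
    ((W.testBit (64 * (y / 64 % 128) + p) ^^ (decide (p = 5) && y.testBit 5)) ^^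
      (a.testBit (8 * (l / 2 ^ 8 % 64) + p) && decide (6 ≤ p ∧ p < 14)) ^^
      (b.testBit (8 * (l / 2 ^ 20 % 64) + p) && decide (18 ≤ p ∧ p < 26))) := by
  have e1 : (16320 : ℕ).testBit p = decide (6 ≤ p ∧ p < 14) := bit_c 8 6 p
  have e2 : (66846720 : ℕ).testBit p = decide (18 ≤ p ∧ p < 26) := bit_c 8 18 p
  have e3 : (l >>> 5) &&& 504 = 8 * (l / 2 ^ 8 % 64) := by
    rw [and504, Nat.shiftRight_eq_div_pow]
    omega
  have e4 : (l >>> 17) &&& 504 = 8 * (l / 2 ^ 20 % 64) := by
    rw [and504, Nat.shiftRight_eq_div_pow]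
    omega
  unfold rG
  rw [Nat.testBit_xor, Nat.testBit_xor, rV_bit _ _ hp, e3, e4, Nat.testBit_and, Nat.testBit_and,
    Nat.testBit_shiftRight, Nat.testBit_shiftRight, e1, e2]

theorem ct_eq (y : ℕ) : ct y = 2 ^ (8 * (y / 64 % 128)) := by
  unfold ct
  rw [one_eq, and8128, Nat.shiftRight_eq_div_pow]
  congr 1
  omega

/-! ### facts -/

/-- the position that is tested for a fact -/
def ix (z t : ℕ) : ℕ :=
  (((z >>> (t &&& 504)) &&& 8128) ^^^ ((t &&& 1) * 64)) + ((z >>> 7 >>> ((t >>> 6) &&& 504)) &&& 63)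

theorem nfs_succ (E z k t : ℕ) :
    nfs E z (k + 1) t = nfs E z k (t >>> 16) &&& (E >>> ix z t) := rfl

theorem nfs_bit (E z k t : ℕ) (h : (nfs E z k t).testBit 0 = true) {j : ℕ} (hj : j < k) :
    E.testBit (ix z (t >>> (16 * j))) = true := by
  induction k generalizing t j with
  | zero => omega
  | succ k ih =>
    rw [nfs_succ, Nat.testBit_and, Bool.and_eq_true, Nat.testBit_shiftRight, add_zero] at h
    rcases j with _ | j
    · exact h.2
    · rw [← shr_step]
      exact ih _ h.1 (by omega)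

theorem fx_succ (k t : ℕ) : fx (k + 1) t =
    fx k (t >>> 16) ||| one ((t &&& 504) * 16 + (t &&& 1) * 64 + ((t >>> 9) &&& 63)) := rfl

theorem fx_bit (k t q : ℕ) (h : (fx k t).testBit q = true) : ∃ j < k,
    q = 128 * (t >>> (16 * j) / 8 % 64) + 64 * (t >>> (16 * j) % 2) +
      t >>> (16 * j) / 512 % 64 := by
  induction k generalizing t with
  | zero =>
    have : (fx 0 t) = 0 := rfl
    rw [this, Nat.zero_testBit] at h
    exact absurd h (by simp)
  | succ k ih =>
    rw [fx_succ, Nat.testBit_or, Bool.or_eq_true] at h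
    rcases h with h | h
    · obtain ⟨j, hj, e⟩ := ih _ h
      rw [shr_step] at e
      exact ⟨j + 1, by omega, e⟩
    · refine ⟨0, by omega, ?_⟩
      rw [one_eq, Nat.testBit_two_pow, decide_eq_true_eq, and504, Nat.and_one_is_mod,
        show (63 : ℕ) = 2 ^ 6 - 1 from rfl, Nat.and_two_pow_sub_one_eq_mod,
        Nat.shiftRight_eq_div_pow] at h
      rw [mul_zero, Nat.shiftRight_zero]
      omega

theorem xor_slot (j : ℕ) (i : Bool) : (j * 64) ^^^ (i.toNat * 64) =
    64 * (2 * (j / 2) + (i ^^ decide (j % 2 = 1)).toNat) := by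
  have e : (j * 64) ^^^ (i.toNat * 64) = (j ^^^ i.toNat) * 64 := by
    have := Nat.shiftLeft_xor_distrib (a := j) (b := i.toNat) (i := 6)
    simp only [Nat.shiftLeft_eq] at this
    exact this.symm
  rw [e, mul_comm]
  congr 1
  cases i
  · rcases Nat.mod_two_eq_zero_or_one j with c | c <;> simp [c] <;> omega
  · have h1 : (j ^^^ 1) / 2 = j / 2 := by
      rw [Nat.xor_div_two]
      simp
    have h2 : (j ^^^ 1) % 2 = 1 ↔ ¬ (j % 2 = 1 ↔ 1 % 2 = 1) := Nat.xor_mod_two_eq_one
    rw [Bool.toNat_true]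
    rcases Nat.mod_two_eq_zero_or_one j with c | c
    · rw [c]
      change _ = 2 * (j / 2) + 1
      omega
    · rw [c]
      change _ = 2 * (j / 2) + 0
      omega

/-! ### stored records -/

theorem spr_succ (L k : ℕ) : spr L (k + 1) =
    spr L k ||| (((L >>> (k * 36)) &&& 68719476735) <<< (k * 128)) := rfl

theorem spr_eq (L k : ℕ) : spr L k = tab 128 (G 36 36 L) k := by
  induction k with
  | zero => rfl
  | succ k ih =>
    rw [spr_succ, ih, Nat.or_comm]
    rfl

theorem rcd_spr (L : ℕ) {k u : ℕ} (hu : u < k) : rcd (spr L k) u = G 36 36 L u := by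
  have h : ∀ j, G 36 36 L j < 2 ^ 128 := fun j => (G_lt _ _ _ _).trans (by norm_num)
  have := G_tab (s := 128) (w := 128) le_rfl (fun j (_ : j < k) => h j) hu
  rw [Nat.mod_eq_of_lt (h u), ← spr_eq] at this
  rw [← this]
  unfold rcd G
  rw [Nat.and_two_pow_sub_one_eq_mod, Nat.shiftRight_eq_div_pow, mul_comm]

/-! ### lane tests -/

theorem o36_eq : o36 = tab 36 (fun _ => true.toNat) 64 := by decide +kernel

theorem nsrc_eq : nsrc = tab 36 (fun _ => 68653400319) 64 := by decide +kernel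

theorem mGe_eq : mGe = tab 36 (fun _ => 33219133455) 64 := by decide +kernel

theorem mH_eq : mH = tab 36 (fun _ => 35433742352) 64 := by decide +kernel

theorem mInj_eq : mInj = tab 16 (fun _ => 254) 64 := by decide +kernel

theorem zFD_eq : zFD = tab 8 (fun _ => 253) 64 := by decide +kernel

theorem zE_eq : zE = tab 8 (fun _ => 32) 64 := by decide +kernel

theorem sel_bit (L q : ℕ) {c u p : ℕ} (hc : c < 2 ^ 36) (hu : u < 64) (hp : p < 36) :
    (((L >>> q) &&& o36) * c).testBit (36 * u + p) = (L.testBit (36 * u + q) && c.testBit p) := by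
  rw [o36_eq, and_sel (by norm_num) _ fun _ => true,
    tab_mul (fun j _ => toNat_lt _ (by norm_num)) fun j _ => toNat_mul_lt _ hc,
    testBit_tab (fun j _ => toNat_mul_lt _ hc) u hp, testBit_toNat_mul, Nat.testBit_shiftRight,
    decide_eq_true hu, add_comm q]
  rfl

theorem and_const {s k c : ℕ} (hs : 0 < s) (hc : c < 2 ^ s) (y : ℕ) :
    y &&& tab s (fun _ => c) k = tab s (fun j => G s s y j &&& c) k := by
  refine ext_lane hs fun j v hv => ?_
  rw [Nat.testBit_and, testBit_tab (fun _ _ => hc) j hv,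
    testBit_tab (fun _ _ => Nat.and_lt_two_pow _ hc) j hv, Nat.testBit_and, testBit_G,
    decide_eq_true hv]
  cases y.testBit (s * j + v) <;> simp

theorem tab_or {s k : ℕ} (hs : 0 < s) {f g : ℕ → ℕ} (hf : ∀ j < k, f j < 2 ^ s)
    (hg : ∀ j < k, g j < 2 ^ s) : tab s f k ||| tab s g k = tab s (fun j => f j ||| g j) k := by
  refine ext_lane hs fun j v hv => ?_
  rw [Nat.testBit_or, testBit_tab hf j hv, testBit_tab hg j hv,
    testBit_tab (fun j hj => Nat.or_lt_two_pow (hf j hj) (hg j hj)) j hv, Nat.testBit_or]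
  cases decide (j < k) <;> simp

theorem tab_sub {s k : ℕ} {f g : ℕ → ℕ} (hf : ∀ j < k, f j < 2 ^ s) (h : ∀ j < k, g j ≤ f j) :
    tab s f k - tab s g k = tab s (fun j => f j - g j) k := by
  have e : tab s (fun j => f j - g j) k + tab s g k = tab s f k := by
    rw [tab_add fun j hj => by rw [Nat.sub_add_cancel (h j hj)]; exact hf j hj]
    exact tab_congr fun j hj => Nat.sub_add_cancel (h j hj)
  omega

theorem and_ge (a : ℕ) : a &&& 33219133455 =
    a % 16 + a / 2 ^ 14 % 16 * 2 ^ 14 + a / 2 ^ 26 % 16 * 2 ^ 26 + a / 2 ^ 31 % 16 * 2 ^ 31 := by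
  have e0 : a &&& 15 = a % 16 := Nat.and_two_pow_sub_one_eq_mod a 4
  have e1 : a &&& 245760 = a / 2 ^ 14 % 16 * 2 ^ 14 := and_field a 14 4
  have e2 : a &&& 1006632960 = a / 2 ^ 26 % 16 * 2 ^ 26 := and_field a 26 4
  have e3 : a &&& 32212254720 = a / 2 ^ 31 % 16 * 2 ^ 31 := and_field a 31 4
  have d : ∀ x y : ℕ, x &&& y = 0 → a &&& (x ||| y) = (a &&& x) + (a &&& y) := fun x y h => by
    rw [Nat.and_or_distrib_left, or_add]
    rw [Nat.and_assoc, Nat.and_comm a y, ← Nat.and_assoc x, h]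
    simp
  rw [show (33219133455 : ℕ) = ((15 ||| 245760) ||| 1006632960) ||| 32212254720 by decide +kernel,
    d _ _ (by decide +kernel), d _ _ (by decide +kernel), d _ _ (by decide +kernel), e0, e1, e2, e3]

theorem or_ge (a : ℕ) : (a &&& 33219133455) ||| 35433742352 = (a &&& 33219133455) + 35433742352 := by
  refine or_add _ _ ?_
  rw [Nat.and_assoc, show (33219133455 : ℕ) &&& 35433742352 = 0 by decide +kernel]
  simp

theorem ge_test {A L : ℕ} (h : ((((A &&& mGe) ||| mH) - (L &&& mGe)) &&& mH) = mH) {u : ℕ}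
    (hu : u < 64) : G 36 36 L u % 16 ≤ G 36 36 A u % 16 ∧
      G 36 36 L u / 2 ^ 14 % 16 ≤ G 36 36 A u / 2 ^ 14 % 16 ∧
      G 36 36 L u / 2 ^ 26 % 16 ≤ G 36 36 A u / 2 ^ 26 % 16 ∧
      G 36 36 L u / 2 ^ 31 % 16 ≤ G 36 36 A u / 2 ^ 31 % 16 := by
  have c1 : (33219133455 : ℕ) < 2 ^ 36 := by norm_num
  have c2 : (35433742352 : ℕ) < 2 ^ 36 := by norm_num
  have l1 : ∀ j, (G 36 36 A j &&& 33219133455) ||| 35433742352 < 2 ^ 36 := fun j =>
    Nat.or_lt_two_pow (Nat.and_lt_two_pow _ c1) c2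
  have e : (((A &&& mGe) ||| mH) - (L &&& mGe)) = tab 36 (fun j =>
      ((G 36 36 A j &&& 33219133455) ||| 35433742352) - (G 36 36 L j &&& 33219133455)) 64 := by
    rw [mGe_eq, mH_eq, and_const (by norm_num) c1, and_const (by norm_num) c1,
      tab_or (by norm_num) (fun j _ => Nat.and_lt_two_pow _ c1) fun _ _ => c2,
      tab_sub (fun j _ => l1 j) fun j _ => ?_]
    rw [or_ge]
    exact (Nat.and_le_right.trans (by norm_num)).trans (Nat.le_add_left _ _)
  have b : ∀ p < 36, (35433742352 : ℕ).testBit p = true →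
      (((G 36 36 A u &&& 33219133455) ||| 35433742352) - (G 36 36 L u &&& 33219133455)).testBit p
        = true := fun p hp hb => by
    have h1 : mH.testBit (36 * u + p) = true := by
      rw [mH_eq, testBit_tab (fun _ _ => c2) u hp, decide_eq_true hu, hb]
      rfl
    rw [← h, Nat.testBit_and, e, Bool.and_eq_true,
      testBit_tab (fun j _ => (Nat.sub_le _ _).trans_lt (l1 j)) u hp, Bool.and_eq_true] at h1
    exact h1.1.2
  have b1 := b 4 (by norm_num) (by decide +kernel)
  have b2 := b 18 (by norm_num) (by decide +kernel)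
  have b3 := b 30 (by norm_num) (by decide +kernel)
  have b4 := b 35 (by norm_num) (by decide +kernel)
  rw [or_ge, and_ge, and_ge, Nat.testBit_eq_decide_div_mod_eq, decide_eq_true_eq] at b1 b2 b3 b4
  have a0 : G 36 36 A u % 16 < 16 := Nat.mod_lt _ (by norm_num)
  have a1 : G 36 36 A u / 2 ^ 14 % 16 < 16 := Nat.mod_lt _ (by norm_num)
  have a2 : G 36 36 A u / 2 ^ 26 % 16 < 16 := Nat.mod_lt _ (by norm_num)
  have a3 : G 36 36 A u / 2 ^ 31 % 16 < 16 := Nat.mod_lt _ (by norm_num)
  have n0 : G 36 36 L u % 16 < 16 := Nat.mod_lt _ (by norm_num)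
  have n1 : G 36 36 L u / 2 ^ 14 % 16 < 16 := Nat.mod_lt _ (by norm_num)
  have n2 : G 36 36 L u / 2 ^ 26 % 16 < 16 := Nat.mod_lt _ (by norm_num)
  have n3 : G 36 36 L u / 2 ^ 31 % 16 < 16 := Nat.mod_lt _ (by norm_num)
  generalize G 36 36 A u % 16 = x0 at *
  generalize G 36 36 A u / 2 ^ 14 % 16 = x1 at *
  generalize G 36 36 A u / 2 ^ 26 % 16 = x2 at *
  generalize G 36 36 A u / 2 ^ 31 % 16 = x3 at *
  generalize G 36 36 L u % 16 = y0 at *
  generalize G 36 36 L u / 2 ^ 14 % 16 = y1 at *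
  generalize G 36 36 L u / 2 ^ 26 % 16 = y2 at *
  generalize G 36 36 L u / 2 ^ 31 % 16 = y3 at *
  omega

theorem sum_pow (j : ℕ → ℕ) (N : ℕ) (hN : N ≤ 63) (hj : ∀ u < N, j u < 128) :
    ∑ u ∈ Finset.range N, 2 ^ (8 * j u) =
      tab 8 (fun t => ((Finset.range N).filter fun u => j u = t).card) 128 := by
  rw [tab_sum fun t _ => ?_]
  · rw [← Finset.sum_fiberwise_of_maps_to (s := Finset.range N) (t := Finset.range 128) (g := j)
      fun u hu => Finset.mem_range.mpr (hj u (Finset.mem_range.mp hu))]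
    refine Finset.sum_congr rfl fun t _ => ?_
    rw [Finset.sum_congr rfl fun u hu => by rw [(Finset.mem_filter.mp hu).2], Finset.sum_const,
      smul_eq_mul]
  · have := Finset.card_filter_le (Finset.range N) fun u => j u = t
    rw [Finset.card_range] at this
    omega

theorem inj_test (j : ℕ → ℕ) (N : ℕ) (hN : N ≤ 63) (hj : ∀ u < N, j u < 128) {S : ℕ}
    (hS : S = ∑ u ∈ Finset.range N, 2 ^ (8 * j u)) (h : (S + S >>> 8) &&& mInj = 0) {u v : ℕ}
    (hu : u < N) (hv : v < N) (e : j u / 2 = j v / 2) : u = v := by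
  set c : ℕ → ℕ := fun t => ((Finset.range N).filter fun u => j u = t).card with hc
  have cl : ∀ t, c t ≤ 63 := fun t => by
    have := Finset.card_filter_le (Finset.range N) fun u => j u = t
    rw [Finset.card_range] at this
    exact this.trans hN
  have c128 : c 128 = 0 := by
    refine Finset.card_eq_zero.mpr (Finset.filter_eq_empty_iff.mpr fun u hu => ?_)
    have := hj u (Finset.mem_range.mp hu)
    omega
  have cl' : ∀ t, c t < 2 ^ 8 := fun t => (cl t).trans_lt (by norm_num)
  rw [sum_pow j N hN hj] at hS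
  have e1 : S >>> 8 = tab 8 (fun t => c (t + 1)) 128 := by
    refine ext_lane (s := 8) (by norm_num) fun t p hp => ?_
    rw [Nat.testBit_shiftRight, show 8 + (8 * t + p) = 8 * (t + 1) + p by ring, hS,
      testBit_tab (fun t _ => cl' t) _ hp, testBit_tab (fun t _ => cl' (t + 1)) _ hp]
    rcases lt_trichotomy (t + 1) 128 with h1 | h1 | h1
    · rw [decide_eq_true h1, decide_eq_true (by omega)]
    · rw [h1, c128]
      simp
    · rw [decide_eq_false (by omega), decide_eq_false (by omega)]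
  have l2 : ∀ t, c t + c (t + 1) < 2 ^ 8 := fun t => by
    have := cl t
    have := cl (t + 1)
    omega
  have e2 : S + S >>> 8 = tab 8 (fun t => c t + c (t + 1)) 128 := by
    rw [e1, hS]
    exact tab_add fun t _ => l2 t
  have hm : j u / 2 < 64 := by
    have := hj u hu
    omega
  set m := j u / 2 with hmd
  have b : ∀ p, 1 ≤ p → (c (2 * m) + c (2 * m + 1)).testBit p = false := fun p h1 => by
    by_cases hp : p < 8
    · have h2 : mInj.testBit (16 * m + p) = true := by
        rw [mInj_eq, testBit_tab (fun _ _ => by norm_num) m (by omega), decide_eq_true hm]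
        interval_cases p <;> rfl
      have h3 : ((S + S >>> 8) &&& mInj).testBit (16 * m + p) = false := by
        rw [h, Nat.zero_testBit]
      rw [Nat.testBit_and, h2, Bool.and_true, e2, show 16 * m + p = 8 * (2 * m) + p by ring,
        testBit_tab (fun t _ => l2 t) _ hp, decide_eq_true (by omega)] at h3
      exact h3
    · exact testBit_of_lt (l2 _) (by omega)
  have lt2 : c (2 * m) + c (2 * m + 1) < 2 ^ 1 := Nat.lt_pow_two_of_testBit _ b
  by_contra ne
  have k : ({u, v} : Finset ℕ) ⊆ ((Finset.range N).filter fun w => j w = 2 * m) ∪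
      ((Finset.range N).filter fun w => j w = 2 * m + 1) := by
    intro w hw
    simp only [Finset.mem_insert, Finset.mem_singleton] at hw
    simp only [Finset.mem_union, Finset.mem_filter, Finset.mem_range]
    rcases hw with rfl | rfl <;> omega
  have k1 := (Finset.card_le_card k).trans (Finset.card_union_le _ _)
  rw [Finset.card_pair ne] at k1
  change 2 ≤ c (2 * m) + c (2 * m + 1) at k1
  omega

theorem lt_test (j : ℕ → ℕ) (N n : ℕ) {S : ℕ} (hS : S = ∑ u ∈ Finset.range N, 2 ^ (8 * j u))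
    (h : S >>> (n * 16) = 0) {u : ℕ} (hu : u < N) : j u / 2 < n := by
  have h1 : 2 ^ (8 * j u) ≤ S := by
    rw [hS]
    exact Finset.single_le_sum (f := fun u => 2 ^ (8 * j u)) (fun _ _ => Nat.zero_le _)
      (Finset.mem_range.mpr hu)
  have h2 : S < 2 ^ (n * 16) := by
    rw [Nat.shiftRight_eq_div_pow, Nat.div_eq_zero_iff] at h
    exact h.resolve_left (Nat.two_pow_pos _).ne'
  have h3 := (Nat.pow_lt_pow_iff_right (by norm_num)).mp (h1.trans_lt h2)
  omega

end Pool.Agent.Lib.MP_79d702_lc.U2.V2.EG
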