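import Pool.Agent.Lib.MP_79d702_lc.U2.V2A
import Pool.Agent.Lib.MP_79d702_lc.U2.V2G1
import Pool.Agent.Lib.MP_79d702_lc.U2.PatA

/-!
Soundness of the embedding test.
-/

namespace Pool.Agent.Lib.MP_79d702_lc.U2.V2

namespace EG

open LA

theorem field_eq {a b p p' w : ℕ} (h : ∀ q < w, a.testBit (p + q) = b.testBit (p' + q)) :
    a / 2 ^ p % 2 ^ w = b / 2 ^ p' % 2 ^ w := by
  refine Nat.eq_of_testBit_eq fun q => ?_
  rw [Nat.testBit_mod_two_pow, Nat.testBit_mod_two_pow, Nat.testBit_div_two_pow,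
    Nat.testBit_div_two_pow]
  by_cases hq : q < w
  · rw [add_comm q, add_comm q, h q hq]
  · simp [hq]

theorem G_bit (A u : ℕ) {p : ℕ} (hp : p < 36) :
    (G 36 36 A u).testBit p = A.testBit (36 * u + p) := by
  rw [testBit_G, decide_eq_true hp, Bool.true_and]

/-- the lane of the image of `u` -/
def jj (z u : ℕ) : ℕ := z >>> (8 * u) / 64 % 128

def mm (z u : ℕ) : ℕ := jj z u / 2

def ww (z u : ℕ) : Bool := decide (jj z u % 2 = 1)

def ff (z u : ℕ) : Bool := z.testBit (8 * u + 5)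

theorem jj_lt (z u : ℕ) : jj z u < 128 := Nat.mod_lt _ (by norm_num)

theorem mm_lt (z u : ℕ) : mm z u < 64 := by
  have := jj_lt z u
  unfold mm
  omega

theorem jj_eq (z u : ℕ) : jj z u = 2 * mm z u + (ww z u).toNat := by
  unfold mm ww
  rcases Nat.mod_two_eq_zero_or_one (jj z u) with c | c <;> simp [c] <;> omega

theorem mm_eq (z u : ℕ) : mm z u = z / 2 ^ (8 * u + 7) % 2 ^ 6 := by
  unfold mm jj
  rw [Nat.shiftRight_eq_div_pow, pow_add, ← Nat.div_div_eq_div_mul]
  omega

theorem mm_shr (z u : ℕ) : (z >>> 7 >>> (u * 8)) &&& 63 = mm z u := by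
  rw [mm_eq, ← Nat.shiftRight_add, show (63 : ℕ) = 2 ^ 6 - 1 from rfl,
    Nat.and_two_pow_sub_one_eq_mod, Nat.shiftRight_eq_div_pow, add_comm, mul_comm]

theorem zE_bit (t : ℕ) : zE.testBit t = (decide (t / 8 < 64) && decide (t % 8 = 5)) := by
  have h := testBit_tab (s := 8) (k := 64) (f := fun _ => 32) (fun _ _ => by norm_num) (t / 8)
    (Nat.mod_lt t (by norm_num : 0 < 8))
  rw [Nat.div_add_mod, ← zE_eq] at h
  rw [h, show (32 : ℕ) = 2 ^ 5 from rfl, Nat.testBit_two_pow]
  congr 1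
  exact decide_eq_decide.mpr eq_comm

theorem a_bit (z : ℕ) {s q : ℕ} (hs : s < 64) (hq : q < 8) :
    (((z >>> 5) &&& zFD) <<< 6).testBit (8 * s + (6 + q)) =
      (z.testBit (8 * s + 5 + q) && decide (q ≠ 1)) := by
  rw [Nat.testBit_shiftLeft, decide_eq_true (by omega), Bool.true_and,
    show 8 * s + (6 + q) - 6 = 8 * s + q by omega, Nat.testBit_and, Nat.testBit_shiftRight, zFD_eq,
    testBit_tab (fun _ _ => by norm_num) s hq, decide_eq_true hs,
    show 5 + (8 * s + q) = 8 * s + 5 + q by ring]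
  interval_cases q <;> rfl

/-- the gathered records -/
def gA (W z L N G : ℕ) : ℕ :=
  gaG W (((z >>> 5) &&& zFD) <<< 6) ((((z >>> 5) &&& zFD) <<< 6) <<< 12) (N - G)
    ((z >>> 4) &&& 1) G z L 0

/-- the bytes for the variables -/
def zV (z G k : ℕ) : ℕ := ((z >>> (8 * G)) ^^^ (((z >>> 4) &&& 1) * zE)) >>> (8 * k)

theorem zV_bit (z G k q : ℕ) : (zV z G k).testBit q =
    (z.testBit (8 * (G + k) + q) ^^ (z.testBit 4 && zE.testBit (8 * k + q))) := by
  have e : (z >>> 4) &&& 1 = (z.testBit 4).toNat := b1_testBit z 4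
  unfold zV
  rw [Nat.testBit_shiftRight, Nat.testBit_xor, Nat.testBit_shiftRight, e, testBit_toNat_mul]
  congr 2
  ring

theorem zV_jj (z G k : ℕ) : zV z G k / 64 % 128 = jj z (G + k) := by
  refine field_eq (p := 6) (p' := 6) (w := 7) fun q hq => ?_
  rw [zV_bit, zE_bit, Nat.testBit_shiftRight, decide_eq_false (show ¬ (8 * k + (6 + q)) % 8 = 5 by
    omega)]
  simp

theorem zV_five (z G : ℕ) {k : ℕ} (hk : k < 64) :
    (zV z G k).testBit 5 = (ff z (G + k) ^^ z.testBit 4) := by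
  rw [zV_bit, zE_bit, decide_eq_true (by omega), decide_eq_true (by omega)]
  simp [ff]

theorem gA_shr (W z L : ℕ) {N G : ℕ} (hG : G ≤ N) :
    gA W z L N G >>> (N * 36) = ∑ u ∈ Finset.range N, 2 ^ (8 * jj z u) := by
  obtain ⟨k, rfl⟩ := Nat.exists_eq_add_of_le hG
  unfold gA
  rw [show (G + k) * 36 = 36 * G + 36 * k by ring, Nat.shiftRight_add, gaG_shr,
    Nat.add_sub_cancel_left, gaV_shr, zero_add, Finset.sum_range_add]
  congr 1
  · exact Finset.sum_congr rfl fun u _ => ct_eq _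
  · refine Finset.sum_congr rfl fun u _ => ?_
    rw [ct_eq, ← zV_jj]
    rfl

theorem gA_var (W z L : ℕ) {N G u p : ℕ} (hN : N ≤ 63) (hG : G ≤ u) (hu : u < N) (hp : p < 36) :
    (gA W z L N G).testBit (36 * u + p) =
      (W.testBit (64 * jj z u + p) ^^ (decide (p = 5) && (ff z u ^^ z.testBit 4))) := by
  obtain ⟨k, rfl⟩ := Nat.exists_eq_add_of_le hG
  unfold gA
  rw [show 36 * (G + k) + p = 36 * G + (36 * k + p) by ring, ← Nat.testBit_shiftRight, gaG_shr,
    gaV_bit _ _ _ _ (by omega) hp, rV_bit _ _ hp]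
  change (W.testBit (64 * (zV z G k / 64 % 128) + p) ^^
    (decide (p = 5) && (zV z G k).testBit 5)) = _
  rw [zV_jj, zV_five _ _ (by omega)]

theorem gA_gate (W z L N : ℕ) {G u p : ℕ} (hu : u < G) (hp : p < 36) :
    (gA W z L N G).testBit (36 * u + p) =
      ((W.testBit (64 * jj z u + p) ^^ (decide (p = 5) && ff z u)) ^^
        ((((z >>> 5) &&& zFD) <<< 6).testBit (8 * (L >>> (36 * u) / 2 ^ 8 % 64) + p) &&
          decide (6 ≤ p ∧ p < 14)) ^^
        (((((z >>> 5) &&& zFD) <<< 6) <<< 12).testBit (8 * (L >>> (36 * u) / 2 ^ 20 % 64) + p) &&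
          decide (18 ≤ p ∧ p < 26))) := by
  unfold gA
  rw [gaG_bit _ _ _ _ _ _ _ _ _ hu hp, rG_bit _ _ _ _ _ hp, Nat.testBit_shiftRight (i := 8 * u)]
  rfl

theorem gA_plain (W z L : ℕ) {N G u p : ℕ} (hN : N ≤ 63) (hu : u < N) (hp : p < 36)
    (h : p < 5 ∨ (14 ≤ p ∧ p < 18) ∨ 26 ≤ p) :
    (gA W z L N G).testBit (36 * u + p) = W.testBit (64 * jj z u + p) := by
  rcases Nat.lt_or_ge u G with c | c
  · rw [gA_gate _ _ _ _ c hp, decide_eq_false (show ¬ p = 5 by omega),
      decide_eq_false (show ¬ (6 ≤ p ∧ p < 14) by omega),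
      decide_eq_false (show ¬ (18 ≤ p ∧ p < 26) by omega)]
    simp
  · rw [gA_var _ _ _ hN c hu hp, decide_eq_false (show ¬ p = 5 by omega)]
    simp

theorem gA_five (W z L N : ℕ) {G u : ℕ} (hu : u < G) :
    (gA W z L N G).testBit (36 * u + 5) = (W.testBit (64 * jj z u + 5) ^^ ff z u) := by
  rw [gA_gate _ _ _ _ hu (by norm_num)]
  simp

theorem gA_slot (W z L N : ℕ) {G' u q : ℕ} (hu : u < G') (i : Bool) (hq : q < 8) :
    (gA W z L N G').testBit (36 * u + (so i + q)) = (W.testBit (64 * jj z u + (so i + q)) ^^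
      (z.testBit (8 * (G 36 36 L u / 2 ^ (so i + 2) % 64) + 5 + q) && decide (q ≠ 1))) := by
  cases i
  · have e : L >>> (36 * u) / 2 ^ 8 % 64 = G 36 36 L u / 2 ^ (so false + 2) % 64 :=
      field_eq (w := 6) fun t ht => by
        rw [G_bit _ _ (show so false + 2 + t < 36 by unfold so; simp; omega),
          Nat.testBit_shiftRight]
        rfl
    change (gA W z L N G').testBit (36 * u + (6 + q)) = (W.testBit (64 * jj z u + (6 + q)) ^^ _)
    rw [gA_gate _ _ _ _ hu (by omega), e, a_bit _ (Nat.mod_lt _ (by norm_num)) hq,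
      decide_eq_false (show ¬ 6 + q = 5 by omega),
      decide_eq_true (show 6 ≤ 6 + q ∧ 6 + q < 14 by omega),
      decide_eq_false (show ¬ (18 ≤ 6 + q ∧ 6 + q < 26) by omega)]
    simp
  · have e : L >>> (36 * u) / 2 ^ 20 % 64 = G 36 36 L u / 2 ^ (so true + 2) % 64 :=
      field_eq (w := 6) fun t ht => by
        rw [G_bit _ _ (show so true + 2 + t < 36 by unfold so; simp; omega),
          Nat.testBit_shiftRight]
        rfl
    change (gA W z L N G').testBit (36 * u + (18 + q)) = (W.testBit (64 * jj z u + (18 + q)) ^^ _)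
    rw [gA_gate _ _ _ _ hu (by omega), e, Nat.testBit_shiftLeft (i := 12),
      decide_eq_true (show 8 * (G 36 36 L u / 2 ^ (so true + 2) % 64) + (18 + q) ≥ 12 by omega),
      show 8 * (G 36 36 L u / 2 ^ (so true + 2) % 64) + (18 + q) - 12 =
        8 * (G 36 36 L u / 2 ^ (so true + 2) % 64) + (6 + q) by omega,
      a_bit _ (Nat.mod_lt _ (by norm_num)) hq,
      decide_eq_false (show ¬ 18 + q = 5 by omega),
      decide_eq_false (show ¬ (6 ≤ 18 + q ∧ 18 + q < 14) by omega),
      decide_eq_true (show 18 ≤ 18 + q ∧ 18 + q < 26 by omega)]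
    simp

theorem W_plain {R : ℕ} (hl : ∀ u, rcd R u < 2 ^ 48) (z u : ℕ) {p : ℕ}
    (h : p < 6 ∨ (30 ≤ p ∧ p < 36)) :
    (sw R).testBit (64 * jj z u + p) = (rcd R (mm z u)).testBit p := by
  rw [jj_eq, sw_bit hl (mm_lt z u) _ (by omega), if_neg (by omega), if_neg (by omega)]

theorem W_slot {R : ℕ} (hl : ∀ u, rcd R u < 2 ^ 48) (z u : ℕ) (i : Bool) {q : ℕ} (hq : q < 12) :
    (sw R).testBit (64 * jj z u + (so i + q)) =
      (rcd R (mm z u)).testBit (so (i ^^ ww z u) + q) := by
  cases i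
  · change (sw R).testBit (64 * jj z u + (6 + q)) = _
    rw [jj_eq, sw_bit hl (mm_lt z u) _ (by omega), if_pos (by omega), Nat.add_sub_cancel_left,
      Bool.false_xor]
  · change (sw R).testBit (64 * jj z u + (18 + q)) = _
    rw [jj_eq, sw_bit hl (mm_lt z u) _ (by omega), if_neg (by omega), if_pos (by omega),
      Nat.add_sub_cancel_left, Bool.true_xor]

theorem eqM_def (P : ℕ) : eqM P =
    (((((o36 &&& msk (pN P * 36)) <<< 30) ||| (((pL P >>> 7) &&& o36) * 16352)) |||
      (((pL P >>> 19) &&& o36) * 66846752)) ||| (((pL P >>> 4) &&& o36) * 31)) |||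
      (((pL P >>> 35) &&& o36) * 34359738400) := rfl

theorem eqM_bit (P : ℕ) {u p : ℕ} (hN : pN P ≤ 63) (hu : u < pN P) (hp : p < 36)
    (h : p = 30 ∨ ((pL P).testBit (36 * u + 7) = true ∧ 5 ≤ p ∧ p < 14) ∨
      ((pL P).testBit (36 * u + 19) = true ∧ (p = 5 ∨ (18 ≤ p ∧ p < 26))) ∨
      ((pL P).testBit (36 * u + 4) = true ∧ p < 5) ∨
      ((pL P).testBit (36 * u + 35) = true ∧ (p = 5 ∨ p = 35))) :
    (eqM P).testBit (36 * u + p) = true := by
  have h64 : u < 64 := by omega
  rw [eqM_def]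
  simp only [Nat.testBit_or, Bool.or_eq_true]
  rw [sel_bit _ _ (by norm_num) h64 hp, sel_bit _ _ (by norm_num) h64 hp,
    sel_bit _ _ (by norm_num) h64 hp, sel_bit _ _ (by norm_num) h64 hp]
  rcases h with rfl | ⟨h, h1, h2⟩ | ⟨h, h1⟩ | ⟨h, h1⟩ | ⟨h, h1⟩
  · refine Or.inl (Or.inl (Or.inl (Or.inl ?_)))
    have := testBit_tab (s := 36) (k := 64) (f := fun _ => true.toNat)
      (fun _ _ => toNat_lt _ (by norm_num)) u (v := 0) (by norm_num)
    rw [Nat.testBit_shiftLeft, Nat.add_sub_cancel, Nat.testBit_and, testBit_msk, o36_eq,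
      decide_eq_true (show 36 * u + 30 ≥ 30 by omega),
      decide_eq_true (show 36 * u < pN P * 36 by omega)]
    rw [add_zero, decide_eq_true h64] at this
    rw [this]
    rfl
  · refine Or.inl (Or.inl (Or.inl (Or.inr ?_)))
    rw [h]
    interval_cases p <;> rfl
  · refine Or.inl (Or.inl (Or.inr ?_))
    rw [h]
    rcases h1 with rfl | ⟨h1, h2⟩
    · rfl
    · interval_cases p <;> rfl
  · refine Or.inl (Or.inr ?_)
    rw [h]
    interval_cases p <;> rfl
  · refine Or.inr ?_
    rw [h]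
    rcases h1 with rfl | rfl <;> rfl

theorem eq_test {A L M t : ℕ} (h : (A ^^^ (L &&& nsrc)) &&& M = 0) (ht : M.testBit t = true) :
    A.testBit t = (L.testBit t && nsrc.testBit t) := by
  have : ((A ^^^ (L &&& nsrc)) &&& M).testBit t = false := by rw [h, Nat.zero_testBit]
  rw [Nat.testBit_and, ht, Bool.and_true, Nat.testBit_xor, Nat.testBit_and] at this
  revert this
  cases A.testBit t <;> cases (L.testBit t && nsrc.testBit t) <;> simp

theorem nsrc_bit {u p : ℕ} (hu : u < 64) (hp : p < 36) : nsrc.testBit (36 * u + p) =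
    decide (¬ (8 ≤ p ∧ p < 14) ∧ ¬ (20 ≤ p ∧ p < 26)) := by
  rw [nsrc_eq, testBit_tab (fun _ _ => by norm_num) u hp, decide_eq_true hu]
  interval_cases p <;> rfl

theorem pN_le (P : ℕ) : pN P ≤ 63 := Nat.and_le_right

theorem wf_gate {P : ℕ} (hP : wfE P = 0) : pG P ≤ pN P ∧
    ∀ u < pN P, (pL P).testBit (36 * u + 30) = decide (u < pG P) := by
  have hN := pN_le P
  unfold wfE at hP
  simp only [lor_eq_zero, xor_eq_zero] at hP
  obtain ⟨⟨⟨⟨⟨h1, -⟩, h2⟩, -⟩, -⟩, -⟩ := hP
  have hG : pG P ≤ pN P := Nat.sub_eq_zero_iff_le.mp h1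
  refine ⟨hG, fun u hu => ?_⟩
  have h3 : ((pR P >>> 30) &&& o128).testBit (128 * u + 0) = (on1 (pG P)).testBit (128 * u + 0) :=
    congrArg (fun y => y.testBit (128 * u + 0)) h2
  have h64 : u < 64 := by omega
  rw [on1_eq (by omega), o128_eq, Nat.testBit_and,
    testBit_tab (fun _ _ => by norm_num) u (by norm_num),
    testBit_tab (fun _ _ => toNat_lt _ (by norm_num)) u (by norm_num), decide_eq_true h64,
    Nat.testBit_shiftRight, testBit_toNat, show 30 + (128 * u + 0) = 128 * u + 30 by ring,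
    ← testBit_rcd _ _ (by norm_num)] at h3
  have e : rcd (pR P) u = G 36 36 (pL P) u := rcd_spr _ hu
  rw [e, G_bit _ _ (by norm_num)] at h3
  simpa using h3

theorem embE_def (P n R X D o x : ℕ) : embE P n R X D o x =
    (((((((gA (sw R) ((x >>> 18) &&& z517) (pL P) (pN P) (pG P) ^^^ (pL P &&& nsrc)) &&&
      eqM P).lor
    (((((gA (sw R) ((x >>> 18) &&& z517) (pL P) (pN P) (pG P) &&& mGe) ||| mH) -
      (pL P &&& mGe)) &&& mH).xor mH)).lor
    ((gA (sw R) ((x >>> 18) &&& z517) (pL P) (pN P) (pG P) >>> (pN P * 36) +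
      gA (sw R) ((x >>> 18) &&& z517) (pL P) (pN P) (pG P) >>> (pN P * 36) >>> 8) &&& mInj)).lor
    (gA (sw R) ((x >>> 18) &&& z517) (pL P) (pN P) (pG P) >>> (pN P * 36) >>> (n * 16))).lor
    ((nfs (exAll n R X D) ((x >>> 18) &&& z517) (pF P) (P >>> 32)).xor 1)).lor
    (sel ((pN P).ble (pO P)) 0
      (o.xor ((((x >>> 18) &&& z517) >>> 7 >>> (pO P * 8)) &&& 63)))) := rfl

theorem so_lt (i : Bool) : 6 ≤ so i ∧ so i ≤ 18 ∧ (so i = 6 ∨ so i = 18) := by
  cases i <;> simp [so]

end EG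

open EG LA

variable {P n R X D o f x : ℕ}

theorem embE_snd (hP : wfE P = 0) (W : Wf n R X D) (h : embE P n R X D o x = 0) :
    ∃ m fl w e, Emb (pAbs P) (abs n R X D o f) m fl w e := by
  obtain ⟨hG, hgt⟩ := wf_gate hP
  have hN := pN_le P
  rw [embE_def] at h
  simp only [lor_eq_zero, xor_eq_zero] at h
  generalize (x >>> 18) &&& z517 = z at h
  obtain ⟨⟨⟨⟨⟨h1, h2⟩, h3⟩, h4⟩, h5⟩, h6⟩ := h
  have hS := gA_shr (sw R) z (pL P) hG
  set A := gA (sw R) z (pL P) (pN P) (pG P) with hA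
  have hr : ∀ u < pN P, rcd (pR P) u = G 36 36 (pL P) u := fun u hu => rcd_spr _ hu
  have hb : ∀ u < pN P, ∀ p < 36, (rcd (pR P) u).testBit p = (pL P).testBit (36 * u + p) :=
    fun u hu p hp => by rw [hr u hu, G_bit _ _ hp]
  have hlt : ∀ u < pN P, mm z u < n := fun u hu => lt_test (jj z) _ n hS h4 hu
  have hp0 : ∀ u < pN P, ∀ p, p < 5 ∨ (30 ≤ p ∧ p < 36) →
      A.testBit (36 * u + p) = (rcd R (mm z u)).testBit p := fun u hu p hp => by
    rw [hA, gA_plain _ _ _ hN hu (by omega) (by omega), W_plain W.lane _ _ (by omega)]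
  have hq : ∀ u < pN P, ∀ p < 36, (eqM P).testBit (36 * u + p) = true →
      ¬ (8 ≤ p ∧ p < 14) → ¬ (20 ≤ p ∧ p < 26) →
      A.testBit (36 * u + p) = (rcd (pR P) u).testBit p := fun u hu p hp hm c1 c2 => by
    rw [eq_test h1 hm, nsrc_bit (by omega) hp, decide_eq_true ⟨c1, c2⟩, Bool.and_true,
      hb u hu p hp]
  have hgate : ∀ u < pN P, (rcd (pR P) u).testBit 30 = decide (u < pG P) := fun u hu => by
    rw [hb u hu 30 (by norm_num), hgt u hu]
  have f0 : ∀ u < pN P, G 36 36 A u % 16 = rcd R (mm z u) % 16 := fun u hu => by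
    have := field_eq (a := G 36 36 A u) (b := rcd R (mm z u)) (p := 0) (p' := 0) (w := 4)
      fun q hq => by rw [G_bit _ _ (by omega), hp0 u hu _ (by omega)]
    simpa using this
  refine ⟨mm z, ff z, ww z, z.testBit 4, hlt,
    fun u hu v hv e => inj_test (jj z) _ hN (fun u _ => jj_lt z u) hS h3 hu hv e,
    fun u hu => ?_, fun u hu => ?_, fun u hu hd => ?_, fun u hu => ?_, fun u hu hg hs => ?_,
    fun g hg hgg i hi => ?_, fun g hg hgg i => ?_, fun g hg hgg i v hv hnf => ?_, fun ho => ?_⟩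
  · change (rcd R (mm z u)).testBit 30 = (rcd (pR P) u).testBit 30
    rw [← hp0 u hu 30 (by omega), hq u hu 30 (by norm_num)
      (eqM_bit P hN hu (by norm_num) (Or.inl rfl)) (by omega) (by omega)]
  · change rcd (pR P) u % 16 ≤ rcd R (mm z u) % 16
    have hu' : u < pN P := hu
    rw [hr u hu, ← f0 u hu]
    exact (ge_test h2 (by omega)).1
  · have hd' : (rcd (pR P) u).testBit 4 = true := hd
    have e : ∀ p < 5, (rcd R (mm z u)).testBit p = (rcd (pR P) u).testBit p := fun p hp => by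
      rw [← hp0 u hu p (by omega), hq u hu p (by omega) (eqM_bit P hN hu (by omega)
        (Or.inr (Or.inr (Or.inr (Or.inl ⟨by rw [← hb u hu 4 (by norm_num), hd'], hp⟩)))))
        (by omega) (by omega)]
    refine ⟨(e 4 (by norm_num)).trans hd', le_of_eq ?_⟩
    have := field_eq (a := rcd R (mm z u)) (b := rcd (pR P) u) (p := 0) (p' := 0) (w := 4)
      fun q hq => e _ (by omega)
    change rcd R (mm z u) % 16 = rcd (pR P) u % 16
    simpa using this
  · change 15 - rcd R (mm z u) / 2 ^ 31 % 16 ≤ 15 - rcd (pR P) u / 2 ^ 31 % 16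
    have hu' : u < pN P := hu
    have e : G 36 36 A u / 2 ^ 31 % 16 = rcd R (mm z u) / 2 ^ 31 % 16 :=
      field_eq (w := 4) fun q hq => by rw [G_bit _ _ (by omega), hp0 u hu _ (by omega)]
    rw [hr u hu, ← e]
    exact Nat.sub_le_sub_left (ge_test h2 (by omega)).2.2.2 15
  · have hg' : (rcd (pR P) u).testBit 30 = false := hg
    rw [hgate u hu] at hg'
    have hGu : pG P ≤ u := not_lt.mp (of_decide_eq_false hg')
    have hs' : (if (rcd (pR P) u).testBit 35 then ((rcd (pR P) u).testBit 5).toNat else 2) ≤ 1 := hs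
    have k : (rcd (pR P) u).testBit 35 = true := by
      by_contra c
      rw [if_neg c] at hs'
      omega
    have k' : (pL P).testBit (36 * u + 35) = true := by rw [← hb u hu 35 (by norm_num), k]
    have e35 : (rcd R (mm z u)).testBit 35 = true := by
      rw [← hp0 u hu 35 (by omega), hq u hu 35 (by norm_num) (eqM_bit P hN hu (by norm_num)
        (Or.inr (Or.inr (Or.inr (Or.inr ⟨k', Or.inr rfl⟩))))) (by omega) (by omega), k]
    have e5 := hq u hu 5 (by norm_num) (eqM_bit P hN hu (by norm_num)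
        (Or.inr (Or.inr (Or.inr (Or.inr ⟨k', Or.inl rfl⟩))))) (by omega) (by omega)
    rw [hA, gA_var _ _ _ hN hGu hu (by norm_num), W_plain W.lane _ _ (by omega)] at e5
    change (if (rcd R (mm z u)).testBit 35 then ((rcd R (mm z u)).testBit 5).toNat else 2) ≤ 1 ∧
      decide ((if (rcd R (mm z u)).testBit 35 then ((rcd R (mm z u)).testBit 5).toNat else 2) = 1)
        = (decide ((if (rcd (pR P) u).testBit 35 then ((rcd (pR P) u).testBit 5).toNat else 2) = 1)
          ^^ ff z u ^^ z.testBit 4)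
    rw [e35, k, ← e5]
    cases (rcd R (mm z u)).testBit 5 <;> cases ff z u <;> cases z.testBit 4 <;> decide
  · have hg' : (rcd (pR P) g).testBit 30 = true := hgg
    rw [hgate g hg] at hg'
    have hGg : g < pG P := of_decide_eq_true hg'
    have hi' : (if (rcd (pR P) g).testBit (so i + 1) then rcd (pR P) g / 2 ^ (so i + 2) % 64
      else 63) < pN P := hi
    have k : (rcd (pR P) g).testBit (so i + 1) = true := by
      by_contra c
      rw [if_neg c] at hi'
      omega
    have hs := so_lt i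
    have k' : (pL P).testBit (36 * g + (so i + 1)) = true := by
      rw [← hb g hg _ (by omega), k]
    have em : ∀ p, p = 5 ∨ (so i ≤ p ∧ p < so i + 8) → (eqM P).testBit (36 * g + p) = true :=
      fun p hp => by
        refine eqM_bit P hN hg (by omega) ?_
        cases i
        · exact Or.inr (Or.inl ⟨k', by simp only [so] at hp; simp at hp; omega⟩)
        · exact Or.inr (Or.inr (Or.inl ⟨k', by simp only [so] at hp; simp at hp; omega⟩))
    have e5 := hq g hg 5 (by norm_num) (em 5 (Or.inl rfl)) (by omega) (by omega)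
    rw [hA, gA_five _ _ _ _ hGg, W_plain W.lane _ _ (by omega)] at e5
    have e0 := hq g hg (so i + 0) (by omega) (em _ (by omega)) (by omega) (by omega)
    rw [hA, gA_slot _ _ _ _ hGg i (by norm_num), W_slot W.lane _ _ _ (by norm_num), ← hr g hg] at e0
    have e1 := hq g hg (so i + 1) (by omega) (em _ (by omega)) (by omega) (by omega)
    rw [hA, gA_slot _ _ _ _ hGg i (by norm_num), W_slot W.lane _ _ _ (by norm_num), k] at e1
    have e1' : (rcd R (mm z g)).testBit (so (i ^^ ww z g) + 1) = true := by simpa using e1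
    have e2 : rcd R (mm z g) / 2 ^ (so (i ^^ ww z g) + 2) % 64 =
        mm z (rcd (pR P) g / 2 ^ (so i + 2) % 64) := by
      rw [mm_eq z (rcd (pR P) g / 2 ^ (so i + 2) % 64)]
      refine field_eq (w := 6) fun q hq' => ?_
      have hg64 : g < 64 := by
        have : g < pN P := hg
        omega
      have t := eq_test h1 (em (so i + (2 + q)) (by omega))
      rw [nsrc_bit hg64 (by omega), decide_eq_false (by omega), Bool.and_false, hA,
        gA_slot _ _ _ _ hGg i (by omega), W_slot W.lane _ _ _ (by omega), ← hr g hg,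
        decide_eq_true (show 2 + q ≠ 1 by omega), Bool.and_true,
        show 8 * (rcd (pR P) g / 2 ^ (so i + 2) % 64) + 5 + (2 + q) =
          8 * (rcd (pR P) g / 2 ^ (so i + 2) % 64) + 7 + q by ring, ← add_assoc] at t
      revert t
      cases (rcd R (mm z g)).testBit (so (i ^^ ww z g) + 2 + q) <;>
        cases z.testBit (8 * (rcd (pR P) g / 2 ^ (so i + 2) % 64) + 7 + q) <;> simp
    change (if (rcd R (mm z g)).testBit (so (i ^^ ww z g) + 1) then
        rcd R (mm z g) / 2 ^ (so (i ^^ ww z g) + 2) % 64 else 63) =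
        mm z (if (rcd (pR P) g).testBit (so i + 1) then rcd (pR P) g / 2 ^ (so i + 2) % 64
          else 63) ∧
      (rcd R (mm z g)).testBit (so (i ^^ ww z g)) = ((rcd (pR P) g).testBit (so i) ^^
        ff z (if (rcd (pR P) g).testBit (so i + 1) then rcd (pR P) g / 2 ^ (so i + 2) % 64
          else 63)) ∧
      ff z g = ((rcd (pR P) g).testBit 5 ^^ (rcd R (mm z g)).testBit 5)
    rw [e1', k, if_pos rfl, if_pos rfl, ← e5]
    refine ⟨e2, ?_, ?_⟩
    · simp only [add_zero] at e0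
      rw [← e0]
      unfold ff
      cases (rcd R (mm z g)).testBit (so (i ^^ ww z g)) <;>
        cases z.testBit (8 * (rcd (pR P) g / 2 ^ (so i + 2) % 64) + 5) <;> rfl
    · cases (rcd R (mm z g)).testBit 5 <;> cases ff z g <;> rfl
  · change rcd (pR P) g / 2 ^ (so i + 8) % 16 ≤ rcd R (mm z g) / 2 ^ (so (i ^^ ww z g) + 8) % 16
    have hg' : g < pN P := hg
    have hs := so_lt i
    have e : G 36 36 A g / 2 ^ (so i + 8) % 16 =
        rcd R (mm z g) / 2 ^ (so (i ^^ ww z g) + 8) % 16 :=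
      field_eq (w := 4) fun q hq => by
        rw [G_bit _ _ (by omega), hA, gA_plain _ _ _ hN hg (by omega) (by omega), add_assoc,
          add_assoc, W_slot W.lane _ _ _ (by omega)]
    rw [hr g hg, ← e]
    cases i
    · exact (ge_test h2 (by omega)).2.1
    · exact (ge_test h2 (by omega)).2.2.1
  · have hnf' : (decide (v < pN P) && (pX P).testBit (64 * (2 * g + i.toNat) + v)) = true := hnf
    have hv' : v < pN P := hv
    rw [Bool.and_eq_true] at hnf'
    obtain ⟨k, hk, e⟩ := fx_bit _ _ _ hnf'.2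
    have t := nfs_bit _ _ _ _ (by rw [h5]; rfl) hk
    generalize P >>> 32 >>> (16 * k) = s at e t
    have hi := Bool.toNat_le i
    have e1 : s / 8 % 64 = g := by omega
    have e2 : s % 2 = i.toNat := by omega
    have e3 : s / 512 % 64 = v := by omega
    have e4 : ix z s = 64 * (2 * mm z g + (i ^^ ww z g).toNat) + mm z v := by
      have e5 : (s >>> 6) &&& 504 = v * 8 := by
        rw [and504, Nat.shiftRight_eq_div_pow, Nat.div_div_eq_div_mul]
        exact congrArg (· * 8) e3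
      unfold ix
      rw [e5, mm_shr, and504, e1, and8128, Nat.and_one_is_mod, e2, mul_comm g 8]
      exact congrArg (· + mm z v) (xor_slot (jj z g) i)
    rw [e4] at t
    exact wf_exAll W (hlt g hg) (hlt v hv) t
  · have ho' : pO P < pN P := ho
    have c : (pN P).ble (pO P) = false := by
      rw [← Bool.not_eq_true, Nat.ble_eq]
      omega
    rw [c, sel_eq, if_neg (by simp), xor_eq_zero, mm_shr] at h6
    exact h6

theorem term_snd {db : ℕ → ℕ} {lim tag : ℕ} (hdb : ∀ i < lim, Lem db i)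
    (h : term db lim tag n R X D o x ≠ 0) :
    x ≠ 0 ∧ (Wf n R X D → HoldsX tag (abs n R X D o f)) := by
  unfold term at h
  rcases hy : (x.shiftRight 1).land 2097151 with _ | i
  · rw [hy] at h
    exact absurd rfl h
  · rw [hy] at h
    have h' : use (db i) lim tag n R X D o x ≠ 0 := h
    unfold use at h'
    obtain ⟨h1, h2⟩ := ok_ne h'
    rw [lor_eq_zero, lor_eq_zero, hy] at h1
    have hi : i + 1 ≤ lim := Nat.sub_eq_zero_iff_le.mp h1.2
    have ht : tag ≤ pT (db i) := Nat.sub_eq_zero_iff_le.mp h1.1.2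
    refine ⟨shr_ne h2, fun W => ?_⟩
    obtain ⟨m, fl, w, e, hE⟩ := embE_snd (f := f) (hdb i hi).1 W h1.1.1
    exact holdsX_emb hE ht (hdb i hi).2

end Pool.Agent.Lib.MP_79d702_lc.U2.V2
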