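import Pool.Agent.Lib.MP_79d702_lc.U2.V2H1
import Pool.Agent.Lib.MP_79d702_lc.U2.V2D

/-!
Loading of a stored pattern.
-/

namespace Pool.Agent.Lib.MP_79d702_lc.U2.V2

/-- how the fields of a record change when a pattern is loaded -/
structure H_Rec (r r' : ℕ) (d : Bool → ℕ) (c : ℕ) : Prop where
  lt : r' < 2 ^ 48
  dlo : r' % 16 = r % 16
  b4 : r'.testBit 4 = r.testBit 4
  b5 : r'.testBit 5 = r.testBit 5
  b30 : r'.testBit 30 = r.testBit 30
  b35 : r'.testBit 35 = r.testBit 35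
  dep : r' / 2 ^ 31 % 16 = r / 2 ^ 31 % 16
  pol : ∀ i, r'.testBit (so i) = r.testBit (so i)
  kn : ∀ i, r'.testBit (so i + 1) = r.testBit (so i + 1)
  src : ∀ i, r' / 2 ^ (so i + 2) % 64 = r / 2 ^ (so i + 2) % 64
  lb : ∀ i, r' / 2 ^ (so i + 8) % 16 = r / 2 ^ (so i + 8) % 16 + d i
  kd : r' / 2 ^ 40 % 256 = c

theorem H_sub {r r' p w q v : ℕ} (h : r' / 2 ^ p % 2 ^ w = r / 2 ^ p % 2 ^ w) (hp : p ≤ q)
    (hq : q + v ≤ p + w) : r' / 2 ^ q % 2 ^ v = r / 2 ^ q % 2 ^ v := by
  refine Nat.eq_of_testBit_eq fun i => ?_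
  rw [Nat.testBit_mod_two_pow, Nat.testBit_mod_two_pow, Nat.testBit_div_two_pow,
    Nat.testBit_div_two_pow]
  by_cases hi : i < v
  · rw [H_bit h (by omega) (by omega)]
  · rw [decide_eq_false hi, Bool.false_and, Bool.false_and]

theorem H_rec {r r' c : ℕ} {d : Bool → ℕ} (hr : r < 2 ^ 36)
    (hd : ∀ i, r / 2 ^ (so i + 8) % 16 + d i < 16) (hc : c < 256)
    (e : r' = r + c * 2 ^ 40 + d false * 2 ^ 14 + d true * 2 ^ 26) : H_Rec r r' d c := by
  have hd0 : r / 2 ^ 14 % 16 + d false < 16 := hd false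
  have hd1 : r / 2 ^ 26 % 16 + d true < 16 := hd true
  obtain ⟨f0, f1, f2, f3, f4, f5, f6⟩ := H_fields hr hd0 hd1 hc e
  have g1 := H_sub (q := 0) (v := 4) f1 (by norm_num) (by norm_num)
  rw [pow_zero, Nat.div_one, Nat.div_one] at g1
  refine ⟨f0, g1, H_bit f1 (by norm_num) (by norm_num), H_bit f1 (by norm_num) (by norm_num),
    H_bit f5 (by norm_num) (by norm_num), H_bit f5 (by norm_num) (by norm_num),
    H_sub (v := 4) f5 (by norm_num) (by norm_num),
    fun i => ?_, fun i => ?_, fun i => ?_, fun i => ?_, f6⟩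
  · cases i
    · exact H_bit f1 (by decide) (by decide)
    · exact H_bit f3 (by decide) (by decide)
  · cases i
    · exact H_bit f1 (by decide) (by decide)
    · exact H_bit f3 (by decide) (by decide)
  · cases i
    · exact H_sub (v := 6) f1 (by decide) (by decide)
    · exact H_sub (v := 6) f3 (by decide) (by decide)
  · cases i
    · exact f2
    · exact f4

noncomputable def H_R (P : ℕ) : ℕ :=
  ldR (pR P) ((pR P).add (sel ((pO P).beq 63) 0 (one (((pO P).mul 128).add 40)))) ((pG P).mul 2)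

noncomputable def H_X (P : ℕ) : ℕ := ldX (pR P) (pX P) ((pG P).mul 2)

noncomputable def H_D (P : ℕ) : ℕ :=
  ldD (pR P) (diag2.land (msk ((pG P).mul 128))) ((pG P).mul 2)

noncomputable def H_dl (P u : ℕ) (i : Bool) : ℕ :=
  if u < pG P then H_d (pR P) (2 * u + i.toNat) else 0

noncomputable def H_kd (P u : ℕ) : ℕ :=
  H_c (pR P) (2 * pG P) u + if pO P ≠ 63 ∧ pO P = u then 1 else 0

theorem H_pR_lt (P u : ℕ) : rcd (pR P) u < 2 ^ 36 := (H_spr _ _ u).1

theorem H_pR_top {P u : ℕ} (h : pN P ≤ u) : rcd (pR P) u = 0 := (H_spr _ _ u).2 h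

theorem H_pG (P : ℕ) : pG P ≤ 63 := Nat.and_le_right

theorem H_mul2 (G : ℕ) : G.mul 2 = 2 * G := Nat.mul_comm G 2

theorem H_out (P u : ℕ) :
    rcd ((pR P).add (sel ((pO P).beq 63) 0 (one (((pO P).mul 128).add 40)))) u =
      rcd (pR P) u + (if pO P ≠ 63 ∧ pO P = u then 1 else 0) * 2 ^ 40 := by
  rw [sel_eq]
  by_cases h : pO P = 63
  · rw [if_pos (by rw [h]; rfl), if_neg (fun h' => h'.1 h), zero_mul]
    rfl
  · rw [if_neg fun h' => h (Nat.eq_of_beq_eq_true h')]
    have e1 : ((pO P).mul 128).add 40 = 128 * pO P + 40 := by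
      change pO P * 128 + 40 = _
      omega
    have h1 := H_pR_lt P (pO P)
    have := rcd_add' (pR P) (pO P) 40 (c := 1) (by omega)
    rw [e1]
    change rcd ((pR P).add (Nat.shiftLeft 1 (128 * pO P + 40))) u = _
    rw [this]
    by_cases hu : u = pO P
    · rw [hu, H_upd_self, if_pos ⟨h, rfl⟩]
    · rw [H_upd_ne hu, if_neg fun h' => hu h'.2.symm, zero_mul, add_zero]

theorem H_R_eq (P u : ℕ) : rcd (H_R P) u = rcd (pR P) u + H_kd P u * 2 ^ 40 +
    H_dl P u false * 2 ^ 14 + H_dl P u true * 2 ^ 26 := by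
  have hG := H_pG P
  unfold H_R H_kd H_dl
  rw [H_mul2, H_ldR _ _ (fun w => by
    have := H_pR_lt P w
    rw [H_out]
    split_ifs <;> omega) _ (by omega), H_out]
  have c1 : 2 * u < 2 * pG P ↔ u < pG P := by omega
  have c2 : 2 * u + 1 < 2 * pG P ↔ u < pG P := by omega
  simp only [c1, c2, Bool.toNat_false, Bool.toNat_true, add_zero]
  ring

theorem H_R_rec (P u : ℕ) : H_Rec (rcd (pR P) u) (rcd (H_R P) u) (H_dl P u) (H_kd P u) := by
  refine H_rec (H_pR_lt P u) (fun i => ?_) ?_ (H_R_eq P u)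
  · have h1 := H_d_le (pR P) (2 * u + i.toNat)
    have h2 := H_t_le (pR P) (2 * u + i.toNat)
    rw [H_lbq] at h1
    unfold H_dl
    split_ifs <;> omega
  · have h1 := H_c_le (pR P) (2 * pG P) u
    have hG := H_pG P
    unfold H_kd
    split_ifs <;> omega

theorem H_kn_iff {R g : ℕ} {i : Bool} :
    kn R (2 * g + i.toNat) = 1 ↔ (rcd R g).testBit (so i + 1) = true := by
  rw [H_kn]
  cases (rcd R g).testBit (so i + 1) <;> simp

theorem H_c_pair (R G u : ℕ) : H_c R (2 * G) u = ∑ g ∈ Finset.range G, ∑ i : Bool,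
    if src R (2 * g + i.toNat) = u then kn R (2 * g + i.toNat) else 0 := by
  induction G with
  | zero => rfl
  | succ G ih =>
    rw [Finset.sum_range_succ, ← ih, show 2 * (G + 1) = 2 * G + 1 + 1 by ring, H_c_succ, H_c_succ,
      Fintype.sum_bool, add_assoc, add_comm (if src R (2 * G) = u then _ else _)]
    rfl

section

variable {P : ℕ}

theorem H_src_n (h : wfE P = 0) {g : ℕ} {i : Bool}
    (hk : (rcd (pR P) g).testBit (so i + 1) = true) :
    rcd (pR P) g / 2 ^ (so i + 2) % 64 < pN P := by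
  refine (H_wfE h).2.2.2.1 g ?_ i
  by_contra hg
  have := H_pN P
  rw [H_pR_top (by omega), Nat.zero_testBit] at hk
  exact absurd hk (by simp)

theorem H_gate (h : wfE P = 0) {u : ℕ} (hu : u < pN P) :
    (pAbs P).gate u = decide (u < pG P) :=
  (H_wfE h).2.2.1 u (by have := H_pN P; omega)

theorem H_inp (g : ℕ) (i : Bool) : (pAbs P).inp g i =
    if (rcd (pR P) g).testBit (so i + 1) then rcd (pR P) g / 2 ^ (so i + 2) % 64 else 63 := rfl

/-- a known slot -/
theorem H_known (h : wfE P = 0) {g : ℕ} {i : Bool} (hk : kn (pR P) (2 * g + i.toNat) = 1) :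
    (pAbs P).inp g i = src (pR P) (2 * g + i.toNat) ∧ src (pR P) (2 * g + i.toNat) < pN P := by
  have hk' := H_kn_iff.mp hk
  rw [H_inp, if_pos hk', H_src]
  exact ⟨rfl, H_src_n h hk'⟩

theorem H_kdS (h : wfE P = 0) {u : ℕ} (hu : u < pN P) : H_kd P u = (pAbs P).kdS u := by
  have hn := H_pN P
  have hG := (H_wfE h).1
  unfold H_kd AP.kdS
  congr 1
  · rw [H_c_pair, Finset.card_filter, Finset.sum_product]
    have hs : Finset.range (pG P) ⊆ Finset.range (pAbs P).n := Finset.range_mono hG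
    rw [← Finset.sum_subset hs]
    · refine Finset.sum_congr rfl fun g hg => Finset.sum_congr rfl fun i _ => ?_
      have hg' := Finset.mem_range.mp hg
      simp only []
      rw [H_gate h (by omega), decide_eq_true hg', H_inp, H_kn, H_src]
      cases (rcd (pR P) g).testBit (so i + 1)
      · have : ¬ 63 = u := by omega
        simp [this]
      · simp
    · intro g hg hg'
      have h1 : g < pN P := Finset.mem_range.mp hg
      have h2 : ¬ g < pG P := fun e => hg' (Finset.mem_range.mpr e)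
      refine Finset.sum_eq_zero fun i _ => if_neg fun e => ?_
      have := e.1
      simp only [] at this
      rw [H_gate h h1, decide_eq_true_iff] at this
      exact h2 this
  · change _ = if pO P = u then 1 else 0
    refine if_congr ⟨fun e => e.2, fun e => ⟨by omega, e⟩⟩ rfl rfl

theorem H_X_bit (h : wfE P = 0) {g v : ℕ} {i : Bool} (hv : v < 64)
    (hb : (H_X P).testBit (64 * (2 * g + i.toNat) + v) = true) : g < pN P ∧
      ((v < pN P ∧ (pX P).testBit (64 * (2 * g + i.toNat) + v) = true) ∨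
        ((rcd (pR P) g).testBit (so i + 1) = true ∧ (pAbs P).inp g i < pN P ∧
          (pAbs P).inp g i ≠ v) ∨ (v < pN P ∧ (pAbs P).inp g (!i) = v)) := by
  have hG := (H_wfE h).1
  unfold H_X at hb
  rw [H_mul2] at hb
  rcases H_ldX _ _ _ hv hb with a | ⟨a, b, c⟩ | ⟨a, b, c⟩
  · obtain ⟨h1, h2⟩ := H_fx _ _ (H_wfE h).2.2.2.2 hv a
    exact ⟨h1, Or.inl ⟨h2, a⟩⟩
  · obtain ⟨h1, h2⟩ := H_known h b
    exact ⟨by omega, Or.inr (Or.inl ⟨H_kn_iff.mp b, h1 ▸ h2, h1 ▸ c⟩)⟩
  · obtain ⟨h1, h2⟩ := H_known h b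
    exact ⟨by omega, Or.inr (Or.inr ⟨c ▸ h2, h1.trans c⟩)⟩

theorem H_D_bit (h : wfE P = 0) : ∀ j, ∀ v < 64, (H_D P).testBit (64 * j + v) = true →
    j < 2 * pN P ∧ v < pN P ∧ (pAbs P).load.Ab v (j / 2) := by
  have hG := (H_wfE h).1
  unfold H_D
  refine H_ldD _ _ _ (fun j v => j < 2 * pN P ∧ v < pN P ∧ (pAbs P).load.Ab v (j / 2))
    (fun j v hv hb => ?_) fun g i hg hk j v h1 h2 => ?_
  · obtain ⟨h1, h2⟩ := H_diag_bit hv hb
    have h3 : v < pN P := by omega
    refine ⟨by omega, h3, h2 ▸ AX.Ab.cn h3 h3 ?_⟩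
    change ((pAbs P).gate v && decide (v = v) && decide (v < pN P)) = true
    rw [H_gate h h3, decide_eq_true (by omega : v < pG P), decide_eq_true h3]
    simp
  · rw [H_mul2] at hg
    have h3 : g < pN P := by omega
    obtain ⟨e1, e2⟩ := H_known h hk
    refine ⟨h1.1, h2.2.1, AX.Ab.trans (w := g) ?_ (AX.Ab.wire i h3 ?_ ?_ ?_)⟩
    · have := h2.2.2
      rwa [Nat.mul_div_cancel_left _ (by norm_num : 0 < 2)] at this
    · change (pAbs P).gate g = true
      rw [H_gate h h3, decide_eq_true (by omega : g < pG P)]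
    · change (pAbs P).inp g i < pN P
      omega
    · change (pAbs P).load.Ab ((pAbs P).inp g i) (j / 2)
      rw [e1]
      exact h1.2.2

theorem H_wf (h : wfE P = 0) : Wf (pN P) (H_R P) (H_X P) (H_D P) := by
  have hG := (H_wfE h).1
  refine ⟨H_pN P, fun u hu => ?_, fun u => (H_R_rec P u).lt, fun g i hk => ?_,
    fun g i v hv hb => ?_, fun j v hv hb => ?_⟩
  · have h1 : ∀ i, H_dl P u i = 0 := fun i => if_neg (by omega)
    have h2 : H_kd P u = 0 := by
      unfold H_kd
      rw [if_neg (by have := (H_wfE h).2.1; omega), add_zero, H_c_pair]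
      refine Finset.sum_eq_zero fun g _ => Finset.sum_eq_zero fun i _ => ?_
      split_ifs with e
      · by_contra hk
        have h3 := H_kn_le (pR P) (2 * g + i.toNat)
        have h4 := (H_known h (by omega : kn (pR P) (2 * g + i.toNat) = 1)).2
        omega
      · rfl
    rw [H_R_eq, h1, h1, h2, H_pR_top hu]
    rfl
  · rw [(H_R_rec P g).kn] at hk
    rw [(H_R_rec P g).src]
    exact H_src_n h hk
  · obtain ⟨h1, h2⟩ := H_X_bit h hv hb
    rw [(H_R_rec P g).kn]
    refine ⟨h1, ?_⟩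
    rcases h2 with h2 | h2 | h2
    · exact Or.inl h2.1
    · exact Or.inr h2.1
    · exact Or.inl h2.1
  · obtain ⟨h1, h2, -⟩ := H_D_bit h j v hv hb
    exact ⟨h1, h2⟩

theorem H_der (h : wfE P = 0) :
    Der (pAbs P).load (abs (pN P) (H_R P) (H_X P) (H_D P) (pO P) 0) := by
  have hn := H_pN P
  have T := H_R_rec P
  refine ⟨rfl, fun u _ => (T u).b30, fun u _ => (T u).dlo.le,
    fun u _ e => ⟨(T u).b4.symm.trans e, (T u).dlo.ge⟩, fun u _ => ?_, fun u _ _ _ => ?_,
    fun g _ _ => (T g).b5, fun g _ _ i => ?_, fun g _ _ i _ => (T g).pol i, fun g hg hk i => ?_,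
    fun g hg hk i v hv e => ?_, fun g _ i v hv => ?_, rfl, fun u hu => ?_,
    fun v hv w hw e => ?_, fun g _ v hv => ?_, fun e => ?_⟩
  · change 15 - rcd (pR P) u / 2 ^ 31 % 16 ≤ 15 - rcd (H_R P) u / 2 ^ 31 % 16
    rw [(T u).dep]
  · change (if (rcd (H_R P) u).testBit 35 then ((rcd (H_R P) u).testBit 5).toNat else 2) =
      if (rcd (pR P) u).testBit 35 then ((rcd (pR P) u).testBit 5).toNat else 2
    rw [(T u).b35, (T u).b5]
  · change (if (rcd (H_R P) g).testBit (so i + 1) then rcd (H_R P) g / 2 ^ (so i + 2) % 64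
      else 63) = (pAbs P).inp g i
    rw [(T g).kn, (T g).src, H_inp]
  · change rcd (H_R P) g / 2 ^ (so i + 8) % 16 ≤ rcd (pR P) g / 2 ^ (so i + 8) % 16 ∨
      9 ≤ rcd (pR P) g / 2 ^ (so i + 8) % 16 ∨ ((pAbs P).inp g i < pN P ∧
        ((rcd (pR P) ((pAbs P).inp g i)).testBit 30 = true ∨
          rcd (H_R P) g / 2 ^ (so i + 8) % 16 ≤ min (rcd (pR P) ((pAbs P).inp g i) % 16) 8))
    rw [(T g).lb]
    unfold H_dl
    split_ifs
    · have h1 := H_kn_le (pR P) (2 * g + i.toNat)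
      rw [H_d_eq, H_lbq]
      rcases (by omega : kn (pR P) (2 * g + i.toNat) = 0 ∨ kn (pR P) (2 * g + i.toNat) = 1)
        with e | e
      · rw [e, zero_mul]
        exact Or.inl le_rfl
      · obtain ⟨e1, e2⟩ := H_known h e
        rw [e, one_mul, H_t_eq, e1]
        split_ifs with e3
        · exact Or.inr (Or.inr ⟨e2, Or.inl e3⟩)
        · omega
    · exact Or.inl le_rfl
  · have hv' : v < pN P := hv
    have e' : (decide (v < pN P) && (H_X P).testBit (64 * (2 * g + i.toNat) + v)) = true := e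
    rw [Bool.and_eq_true] at e'
    rcases (H_X_bit h (by omega) e'.2).2 with a | a | a
    · refine Or.inl ?_
      change (decide (v < pN P) && (pX P).testBit (64 * (2 * g + i.toNat) + v)) = true
      rw [e'.1, a.2]
      rfl
    · exact Or.inr (Or.inl a.2)
    · exact Or.inr (Or.inr (Or.inr (Or.inl a.2)))
  · have hv' : ¬ v < pN P := not_lt.mpr hv
    change (decide (v < pN P) && _) = false
    rw [decide_eq_false hv', Bool.false_and]
  · exact (T u).kd.trans (H_kdS h hu)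
  · have hv' : v < pN P := hv
    have e' : (decide (w < pN P) && ((H_D P).testBit (64 * (2 * w) + v) ||
      (H_D P).testBit (64 * (2 * w + 1) + v))) = true := e
    rw [Bool.and_eq_true, Bool.or_eq_true] at e'
    rcases e'.2 with a | a
    · have := (H_D_bit h _ v (by omega) a).2.2
      rwa [show 2 * w / 2 = w by omega] at this
    · have := (H_D_bit h _ v (by omega) a).2.2
      rwa [show (2 * w + 1) / 2 = w by omega] at this
  · have hv' : ¬ v < pN P := not_lt.mpr hv
    change (decide (v < pN P) && _) = false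
    rw [decide_eq_false hv', Bool.false_and]
  · exact absurd ((Nat.zero_testBit 12).symm.trans e) (by simp)

end

theorem lemP_snd {db : ℕ → ℕ} {i P x : ℕ} (hk : Snd (go db i 250)) (h : lemP db i P x ≠ 0) :
    wfE P = 0 ∧ Holds (pT P) (pAbs P) := by
  obtain ⟨h1, h2⟩ := ok_ne h
  refine ⟨h1, holds_of_load (Q := (pAbs P).load) (H_pN P) (fun g _ _ i => ?_) (H_wfE h1).2.1
    (fun _ _ => rfl) (fun g _ i v hv => ?_) (fun v _ w e => ?_) rfl
    (holdsX_der (H_der h1) ((hk _ _ _ _ _ _ _ _ h2).2 (H_wf h1)))⟩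
  · change (pAbs P).inp g i < pN P ∨ (pAbs P).inp g i = 63
    rw [H_inp]
    split_ifs with e
    · exact Or.inl (H_src_n h1 e)
    · exact Or.inr rfl
  · have hv' : ¬ v < pN P := not_lt.mpr hv
    change (decide (v < pN P) && _) = false
    rw [decide_eq_false hv', Bool.false_and]
  · have e' : ((pAbs P).gate v && decide (w = v) && decide (v < pN P)) = true := e
    simp only [Bool.and_eq_true, decide_eq_true_iff] at e'
    exact e'.1

/-- patterns that agree on all entries that matter -/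
theorem H_match {A B : AP} (n : B.n = A.n) (o : B.out = A.out)
    (h : ∀ u < A.n, B.gate u = A.gate u ∧ B.dlo u = A.dlo u ∧ B.dex u = A.dex u ∧
      B.dep u = A.dep u ∧ B.sg u = A.sg u ∧ B.ng u = A.ng u ∧ (A.gate u = true → ∀ i,
        B.inp u i = A.inp u i ∧ B.pol u i = A.pol u i ∧ B.lb u i = A.lb u i ∧
          ∀ v < A.n, B.nf u i v = A.nf u i v)) {tag : ℕ} (hB : Holds tag B) : Holds tag A := by
  intro s C V E K T M
  refine hB s C V E K T ⟨fun u hu v hv => M.inj u (n ▸ hu) v (n ▸ hv), fun u hu k => ?_,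
    fun u hu k => ?_, fun g hg k i hi => ?_, fun g hg k i hi => ?_, fun u hu => ?_,
    fun u hu k => ?_, fun u hu k => ?_, fun u hu k k' => ?_, fun g hg k i hi => ?_,
    fun g hg k i v hv e => ?_, fun ho => ?_⟩
  · rw [n] at hu
    exact M.var u hu ((h u hu).1.symm.trans k)
  · rw [n] at hu
    exact M.gat u hu ((h u hu).1.symm.trans k)
  · rw [n] at hg
    have k' := (h g hg).1.symm.trans k
    obtain ⟨e1, e2, -⟩ := (h g hg).2.2.2.2.2.2 k' i
    rw [e1, n] at hi
    rw [e1, e2]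
    exact M.wire g hg k' i hi
  · rw [n] at hg
    have k' := (h g hg).1.symm.trans k
    obtain ⟨e1, -⟩ := (h g hg).2.2.2.2.2.2 k' i
    rw [e1, n] at hi
    rw [(h g hg).2.2.2.2.2.1]
    exact M.flg g hg k' i hi
  · rw [n] at hu
    rw [(h u hu).2.1]
    exact M.dlo u hu
  · rw [n] at hu
    rw [(h u hu).2.1]
    exact M.dex u hu ((h u hu).2.2.1.symm.trans k)
  · rw [n] at hu
    rw [(h u hu).2.2.2.1] at k ⊢
    exact M.dep u hu k
  · rw [n] at hu
    rw [(h u hu).2.2.2.2.1] at k' ⊢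
    exact M.sg u hu ((h u hu).1.symm.trans k) k'
  · rw [n] at hg
    have k' := (h g hg).1.symm.trans k
    obtain ⟨-, -, e3, -⟩ := (h g hg).2.2.2.2.2.2 k' i
    rw [e3]
    exact M.lb g hg k' i hi
  · rw [n] at hg hv
    have k' := (h g hg).1.symm.trans k
    obtain ⟨-, -, -, e4⟩ := (h g hg).2.2.2.2.2.2 k' i
    exact M.nf g hg k' i v hv ((e4 v hv).symm.trans e)
  · rw [o, n] at ho
    rw [o]
    exact M.out ho

theorem H_root : ∀ p q r : Bool, pT (rootP p q r) = 2 ∧ (pAbs (rootP p q r)).n = 6 ∧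
    (pAbs (rootP p q r)).out = 63 ∧ ∀ u < 6,
      (pAbs (rootP p q r)).gate u = (rootAP4 p q r).gate u ∧
      (pAbs (rootP p q r)).dlo u = (rootAP4 p q r).dlo u ∧
      (pAbs (rootP p q r)).dex u = (rootAP4 p q r).dex u ∧
      (pAbs (rootP p q r)).dep u = (rootAP4 p q r).dep u ∧
      (pAbs (rootP p q r)).sg u = (rootAP4 p q r).sg u ∧
      (pAbs (rootP p q r)).ng u = (rootAP4 p q r).ng u ∧
      ((rootAP4 p q r).gate u = true → ∀ i,
        (pAbs (rootP p q r)).inp u i = (rootAP4 p q r).inp u i ∧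
        (pAbs (rootP p q r)).pol u i = (rootAP4 p q r).pol u i ∧
        (pAbs (rootP p q r)).lb u i = (rootAP4 p q r).lb u i ∧
        ∀ v < 6, (pAbs (rootP p q r)).nf u i v = (rootAP4 p q r).nf u i v) := by
  decide +kernel

theorem holds_root {db : ℕ → ℕ} {i : ℕ} {p q r : Bool} (h : Lem db i) (e : db i = rootP p q r) :
    Holds 2 (rootAP4 p q r) := by
  obtain ⟨h1, h2, h3, h4⟩ := H_root p q r
  have h5 := h.2
  rw [e, h1] at h5
  exact H_match (A := rootAP4 p q r) h2 h3 h4 h5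

end Pool.Agent.Lib.MP_79d702_lc.U2.V2
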