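import Pool.Agent.Lib.MP_79d702_lc.U2.V2A

/-!
Loading of a stored pattern: the bits of the loaded state.
-/

namespace Pool.Agent.Lib.MP_79d702_lc.U2.V2

open LA

theorem H_upd_self (f : ℕ → ℕ) (u v : ℕ) : upd f u v u = v := if_pos rfl

theorem H_upd_ne {f : ℕ → ℕ} {u w v : ℕ} (h : w ≠ u) : upd f u v w = f w := if_neg h

/-! ### the stored records -/

theorem H_spr_succ (L k : ℕ) : spr L (k + 1) = (spr L k).lor
    (((L.shiftRight (k.mul 36)).land 68719476735).shiftLeft (k.mul 128)) := rfl

theorem H_rcd_zero (u : ℕ) : rcd 0 u = 0 := by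
  unfold rcd
  rw [Nat.zero_div, Nat.zero_mod]

theorem H_spr (L k u : ℕ) : rcd (spr L k) u < 2 ^ 36 ∧ (k ≤ u → rcd (spr L k) u = 0) := by
  induction k with
  | zero =>
    have : rcd (spr L 0) u = 0 := H_rcd_zero u
    rw [this]
    exact ⟨by norm_num, fun _ => rfl⟩
  | succ k ih =>
    have hc : (L.shiftRight (k.mul 36)).land 68719476735 < 2 ^ 36 :=
      Nat.and_lt_two_pow _ (by norm_num)
    rw [H_spr_succ, rcd_lor _ _ (hc.trans (by norm_num))]
    unfold upd
    split_ifs with h
    · subst h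
      exact ⟨Nat.or_lt_two_pow ih.1 hc, fun h => by omega⟩
    · exact ⟨ih.1, fun h' => ih.2 (by omega)⟩

/-! ### slots -/

theorem H_so_le (i : Bool) : so i ≤ 18 := by cases i <;> decide

theorem H_kn (R g : ℕ) (i : Bool) :
    kn R (2 * g + i.toNat) = ((rcd R g).testBit (so i + 1)).toNat := by
  have := sl_field R g i (p := 1) (w := 1) (by norm_num)
  rw [Nat.toNat_testBit]
  exact this

theorem H_kn_le (R j : ℕ) : kn R j ≤ 1 := Nat.and_le_right

theorem H_src (R g : ℕ) (i : Bool) :
    src R (2 * g + i.toNat) = rcd R g / 2 ^ (so i + 2) % 64 :=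
  sl_field R g i (p := 2) (w := 6) (by norm_num)

theorem H_src_lt (R j : ℕ) : src R j < 64 := Nat.and_lt_two_pow _ (n := 6) (by norm_num)

theorem H_lbq (R g : ℕ) (i : Bool) :
    lbq R (2 * g + i.toNat) = rcd R g / 2 ^ (so i + 8) % 16 :=
  sl_field R g i (p := 8) (w := 4) (by norm_num)

/-! ### the records after loading -/

/-- the bound that is read off the source -/
noncomputable def H_t (R j : ℕ) : ℕ :=
  (fun r t : ℕ => t.add ((((r.shiftRight 30).land 1).mul 9).sub t)) (rc R (src R j))
    (((rc R (src R j)).land 15).sub (((rc R (src R j)).land 15).sub 8))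

noncomputable def H_d (R j : ℕ) : ℕ := (kn R j).mul ((H_t R j).sub (lbq R j))

noncomputable def H_c (R k u : ℕ) : ℕ := ∑ j ∈ Finset.range k, if src R j = u then kn R j else 0

theorem H_t_eq (R j : ℕ) : H_t R j =
    if (rcd R (src R j)).testBit 30 then 9 else min (rcd R (src R j) % 16) 8 := by
  have h1 : ((rc R (src R j)).shiftRight 30).land 1 = ((rcd R (src R j)).testBit 30).toNat := by
    rw [Nat.toNat_testBit]
    exact rc_field R (src R j) (p := 30) (w := 1) (by norm_num)
  have h2 : (rc R (src R j)).land 15 = rcd R (src R j) % 16 := by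
    have := rc_field R (src R j) (p := 0) (w := 4) (by norm_num)
    rw [pow_zero, Nat.div_one] at this
    exact this
  unfold H_t
  simp only []
  rw [h1, h2]
  generalize rcd R (src R j) % 16 = d
  cases (rcd R (src R j)).testBit 30
  · change (d - (d - 8)) + (0 * 9 - (d - (d - 8))) = min d 8
    omega
  · change (d - (d - 8)) + (1 * 9 - (d - (d - 8))) = 9
    omega

theorem H_t_le (R j : ℕ) : H_t R j ≤ 9 := by
  rw [H_t_eq]
  split_ifs <;> omega

theorem H_d_eq (R j : ℕ) : H_d R j = kn R j * (H_t R j - lbq R j) := rfl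

theorem H_d_le (R j : ℕ) : H_d R j ≤ H_t R j - lbq R j := by
  rw [H_d_eq]
  exact (Nat.mul_le_mul_right _ (H_kn_le R j)).trans_eq (one_mul _)

theorem H_c_le (R k u : ℕ) : H_c R k u ≤ k := by
  unfold H_c
  refine (Finset.sum_le_card_nsmul _ _ 1 fun j _ => ?_).trans (by simp)
  split_ifs
  · exact H_kn_le R j
  · exact Nat.zero_le _

theorem H_c_succ (R k u : ℕ) :
    H_c R (k + 1) u = H_c R k u + if src R k = u then kn R k else 0 :=
  Finset.sum_range_succ _ _

theorem H_ldR_succ (R a k : ℕ) : ldR R a (k + 1) =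
    ((ldR R a k).add ((kn R k).shiftLeft (((src R k).mul 128).add 40))).add
      ((H_d R k).shiftLeft ((pos k).add 8)) := rfl

theorem H_ldR (R a : ℕ) (ha : ∀ u, rcd a u < 2 ^ 41) (k : ℕ) (hk : k ≤ 128) (u : ℕ) :
    rcd (ldR R a k) u = rcd a u + H_c R k u * 2 ^ 40 +
      (if 2 * u < k then H_d R (2 * u) else 0) * 2 ^ 14 +
      (if 2 * u + 1 < k then H_d R (2 * u + 1) else 0) * 2 ^ 26 := by
  induction k generalizing u with
  | zero =>
    change rcd a u = _
    simp [H_c]
  | succ k ih =>
    have ih := ih (by omega)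
    have hd : ∀ j, H_d R j ≤ 9 := fun j => (H_d_le R j).trans ((Nat.sub_le _ _).trans (H_t_le R j))
    have hb : ∀ u, rcd (ldR R a k) u < 2 ^ 50 := fun u => by
      have h1 := ha u
      have h2 := H_c_le R k u
      have h3 := hd (2 * u)
      have h4 := hd (2 * u + 1)
      rw [ih u]
      split_ifs <;> omega
    obtain ⟨g, i, hj, -⟩ := slot_eq k
    have e1 : ((src R k).mul 128).add 40 = 128 * src R k + 40 := by
      change src R k * 128 + 40 = _
      omega
    have e2 : (pos k).add 8 = 128 * g + (so i + 8) := by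
      change pos k + 8 = _
      rw [hj, pos_eq, add_assoc]
    have hkn := H_kn_le R k
    have hs : rcd (ldR R a k) (src R k) + kn R k * 2 ^ 40 < 2 ^ 128 := by
      have := hb (src R k)
      omega
    have h1 := rcd_add' (ldR R a k) (src R k) 40 hs
    have hb' : rcd ((ldR R a k).add ((kn R k).shiftLeft (128 * src R k + 40))) g < 2 ^ 51 := by
      rw [h1]
      unfold upd
      have := hb g
      have := hb (src R k)
      split_ifs <;> omega
    have hp : H_d R k * 2 ^ (so i + 8) ≤ 9 * 2 ^ 26 :=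
      Nat.mul_le_mul (hd k) (Nat.pow_le_pow_right (by norm_num) (by have := H_so_le i; omega))
    rw [H_ldR_succ, e1, e2, rcd_add' _ g (so i + 8) (by omega), h1, H_c_succ]
    have e3 : ∀ w, upd (rcd (ldR R a k)) (src R k) (rcd (ldR R a k) (src R k) + kn R k * 2 ^ 40) w =
        rcd (ldR R a k) w + (if src R k = w then kn R k else 0) * 2 ^ 40 := fun w => by
      unfold upd
      by_cases h : w = src R k
      · rw [if_pos h, if_pos h.symm, h]
      · rw [if_neg h, if_neg (Ne.symm h), zero_mul, add_zero]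
    by_cases hu : u = g
    · subst hu
      rw [H_upd_self, e3, ih u]
      cases i
      · have hk' : k = 2 * u := hj
        rw [if_neg (by omega : ¬ 2 * u < k), if_neg (by omega : ¬ 2 * u + 1 < k),
          if_pos (by omega : 2 * u < k + 1), if_neg (by omega : ¬ 2 * u + 1 < k + 1), ← hk']
        change _ + H_d R k * 2 ^ 14 = _
        ring
      · have hk' : k = 2 * u + 1 := hj
        rw [if_pos (by omega : 2 * u < k), if_neg (by omega : ¬ 2 * u + 1 < k),
          if_pos (by omega : 2 * u < k + 1), if_pos (by omega : 2 * u + 1 < k + 1), ← hk']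
        change _ + H_d R k * 2 ^ 26 = _
        ring
    · have hi := Bool.toNat_le i
      have c1 : (2 * u < k + 1) ↔ (2 * u < k) := by omega
      have c2 : (2 * u + 1 < k + 1) ↔ (2 * u + 1 < k) := by omega
      rw [H_upd_ne hu, e3, ih u]
      simp only [c1, c2]
      ring

/-- the fields of a record after loading -/
theorem H_fields {r d0 d1 c r' : ℕ} (hr : r < 2 ^ 36) (h0 : r / 2 ^ 14 % 16 + d0 < 16)
    (h1 : r / 2 ^ 26 % 16 + d1 < 16) (hc : c < 256)
    (e : r' = r + c * 2 ^ 40 + d0 * 2 ^ 14 + d1 * 2 ^ 26) :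
    r' < 2 ^ 48 ∧ r' / 2 ^ 0 % 2 ^ 14 = r / 2 ^ 0 % 2 ^ 14 ∧
      r' / 2 ^ 14 % 16 = r / 2 ^ 14 % 16 + d0 ∧ r' / 2 ^ 18 % 2 ^ 8 = r / 2 ^ 18 % 2 ^ 8 ∧
      r' / 2 ^ 26 % 16 = r / 2 ^ 26 % 16 + d1 ∧ r' / 2 ^ 30 % 2 ^ 6 = r / 2 ^ 30 % 2 ^ 6 ∧
      r' / 2 ^ 40 % 256 = c := by
  obtain ⟨a, ha, b, hb, x, hx, y, hy, z, hz, rfl⟩ : ∃ a < 2 ^ 14, ∃ b < 16, ∃ x < 256, ∃ y < 16,
      ∃ z < 64, r = a + b * 2 ^ 14 + x * 2 ^ 18 + y * 2 ^ 26 + z * 2 ^ 30 :=
    ⟨r % 2 ^ 14, by omega, r / 2 ^ 14 % 16, by omega, r / 2 ^ 18 % 256, by omega,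
      r / 2 ^ 26 % 16, by omega, r / 2 ^ 30, by omega, by omega⟩
  have f1 : (a + b * 2 ^ 14 + x * 2 ^ 18 + y * 2 ^ 26 + z * 2 ^ 30) / 2 ^ 14 % 16 = b := by omega
  have f2 : (a + b * 2 ^ 14 + x * 2 ^ 18 + y * 2 ^ 26 + z * 2 ^ 30) / 2 ^ 26 % 16 = y := by omega
  rw [f1] at h0 ⊢
  rw [f2] at h1 ⊢
  subst e
  refine ⟨by omega, by omega, by omega, by omega, by omega, by omega, by omega⟩

theorem H_bit {r r' p w : ℕ} (h : r' / 2 ^ p % 2 ^ w = r / 2 ^ p % 2 ^ w) {q : ℕ} (hp : p ≤ q)
    (hq : q < p + w) : r'.testBit q = r.testBit q := by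
  have := congrArg (fun x => x.testBit (q - p)) h
  simp only [Nat.testBit_mod_two_pow, Nat.testBit_div_two_pow] at this
  rw [decide_eq_true (by omega : q - p < w), Bool.true_and, Bool.true_and,
    (by omega : q - p + p = q)] at this
  exact this

/-! ### the listed facts -/

theorem H_fx_succ (k t : ℕ) : fx (k + 1) t = (fx k (t.shiftRight 16)).lor
    (one ((((t.land 504).mul 16).add ((t.land 1).mul 64)).add ((t.shiftRight 9).land 63))) := rfl

theorem H_fxE_succ (n k t : ℕ) : fxE n (k + 1) t =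
    ((fxE n k (t.shiftRight 16)).lor ((((t.shiftRight 3).land 63).add 1).sub n)).lor
      ((((t.shiftRight 9).land 63).add 1).sub n) := rfl

theorem H_and504 (t : ℕ) : t.land 504 = 8 * (t.shiftRight 3).land 63 := by
  have h1 : (t &&& 504) >>> 3 = (t >>> 3) &&& 63 := Nat.shiftRight_and_distrib
  have h2 : (t &&& 504) % 2 ^ 3 = 0 := by
    rw [Nat.and_mod_two_pow]
    exact Nat.and_zero _
  rw [Nat.shiftRight_eq_div_pow] at h1
  change t &&& 504 = 8 * (t >>> 3 &&& 63)
  omega

theorem H_fx {n : ℕ} (k t : ℕ) (h : fxE n k t = 0) {g v : ℕ} {i : Bool} (hv : v < 64)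
    (hb : (fx k t).testBit (64 * (2 * g + i.toNat) + v) = true) : g < n ∧ v < n := by
  induction k generalizing t with
  | zero => exact absurd ((Nat.zero_testBit _).symm.trans hb) (by simp)
  | succ k ih =>
    rw [H_fxE_succ, lor_eq_zero, lor_eq_zero] at h
    obtain ⟨⟨h1, h2⟩, h3⟩ := h
    rw [H_fx_succ] at hb
    have hb' := (Nat.testBit_or _ _ _).symm.trans hb
    rw [Bool.or_eq_true, testBit_one, decide_eq_true_iff, H_and504] at hb'
    rcases hb' with hb' | hb'
    · exact ih _ h1 hb'
    · have a1 : t.land 1 ≤ 1 := Nat.and_le_right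
      have a2 : (t.shiftRight 9).land 63 ≤ 63 := Nat.and_le_right
      have a3 := Bool.toNat_le i
      generalize t.land 1 = b at *
      generalize (t.shiftRight 9).land 63 = c at *
      generalize (t.shiftRight 3).land 63 = d at *
      change d + 1 - n = 0 at h2
      change c + 1 - n = 0 at h3
      change _ = 8 * d * 16 + b * 64 + c at hb'
      omega

/-! ### the exclusions after loading -/

theorem H_ldX_succ (R a k : ℕ) : ldX R a (k + 1) =
    ((ldX R a k).lor
      (((kn R k).mul (Nat.xor 18446744073709551615 (one (src R k)))).shiftLeft (k.mul 64))).lor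
      ((kn R k).shiftLeft (((k.xor 1).mul 64).add (src R k))) := rfl

theorem H_ldX (R a k : ℕ) {g v : ℕ} {i : Bool} (hv : v < 64)
    (h : (ldX R a k).testBit (64 * (2 * g + i.toNat) + v) = true) :
    a.testBit (64 * (2 * g + i.toNat) + v) = true ∨
      (2 * g + i.toNat < k ∧ kn R (2 * g + i.toNat) = 1 ∧ src R (2 * g + i.toNat) ≠ v) ∨
      (2 * g + (!i).toNat < k ∧ kn R (2 * g + (!i).toNat) = 1 ∧
        src R (2 * g + (!i).toNat) = v) := by
  induction k with
  | zero => exact Or.inl h
  | succ k ih =>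
    rw [H_ldX_succ] at h
    have h' := (Nat.testBit_or _ _ _).symm.trans h
    rw [Bool.or_eq_true] at h'
    have hs := H_src_lt R k
    have hk : kn R k = 0 ∨ kn R k = 1 := by
      have := H_kn_le R k
      omega
    rcases h' with h' | h'
    · have h'' := (Nat.testBit_or _ _ _).symm.trans h'
      rw [Bool.or_eq_true] at h''
      rcases h'' with h'' | h''
      · rcases ih h'' with a | ⟨a, b⟩ | ⟨a, b⟩
        · exact Or.inl a
        · exact Or.inr (Or.inl ⟨by omega, b⟩)
        · exact Or.inr (Or.inr ⟨by omega, b⟩)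
      · rcases hk with hk | hk
        · rw [hk] at h''
          change ((0 * _) <<< _).testBit _ = true at h''
          rw [zero_mul, Nat.zero_shiftLeft, Nat.zero_testBit] at h''
          exact absurd h'' (by simp)
        · rw [hk] at h''
          change ((1 * ((2 ^ 64 - 1) ^^^ one (src R k))) <<< (k * 64)).testBit _ = true at h''
          have hl : (2 ^ 64 - 1) ^^^ one (src R k) < 2 ^ 64 :=
            Nat.xor_lt_two_pow (by norm_num)
              (by rw [one_eq]; exact Nat.pow_lt_pow_right (by norm_num) hs)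
          rw [one_mul, testBit_shl hl hv, Bool.and_eq_true, decide_eq_true_iff, Nat.testBit_xor,
            Nat.testBit_two_pow_sub_one, testBit_one, decide_eq_true hv] at h''
          obtain ⟨e, h2⟩ := h''
          refine Or.inr (Or.inl ⟨by omega, e ▸ hk, fun e' => ?_⟩)
          rw [e] at e'
          rw [decide_eq_true e'.symm] at h2
          exact absurd h2 (by simp)
    · rcases hk with hk | hk
      · rw [hk] at h'
        change (0 <<< _).testBit _ = true at h'
        rw [Nat.zero_shiftLeft, Nat.zero_testBit] at h'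
        exact absurd h' (by simp)
      · rw [hk] at h'
        have h2 := (testBit_one _ _).symm.trans h'
        rw [decide_eq_true_iff] at h2
        obtain ⟨g', i', hj, -, -, hx⟩ := slot_eq k
        rw [hx] at h2
        change _ = (2 * g' + (!i').toNat) * 64 + src R k at h2
        have e : 2 * g + (!i).toNat = k := by
          rw [hj]
          cases i <;> cases i' <;>
            simp only [Bool.not_true, Bool.not_false, Bool.toNat_true, Bool.toNat_false] at h2 ⊢ <;>
            omega
        exact Or.inr (Or.inr ⟨by omega, e ▸ hk, by rw [e]; omega⟩)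

/-! ### the order facts after loading -/

theorem H_cD (a u j : ℕ) {j' v : ℕ} (hv : v < 64) (h : (cD a u j).testBit (64 * j' + v) = true) :
    a.testBit (64 * j' + v) = true ∨
      (a.testBit (64 * j' + u) = true ∧ a.testBit (64 * (2 * j.shiftRight 1) + v) = true) := by
  have hl : (a.shiftRight ((j.shiftRight 1).mul 128)).land 18446744073709551615 < 2 ^ 64 :=
    Nat.and_lt_two_pow _ (by norm_num)
  have e : cD a u j = a ||| tab 64 (fun r => (true && (a >>> u).testBit (64 * r)).toNat *
      (a.shiftRight ((j.shiftRight 1).mul 128)).land 18446744073709551615) 128 := by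
    rw [← tab_mul (fun r _ => toNat_lt _ (by norm_num)) (fun r _ => toNat_mul_lt _ hl),
      ← and_sel (by norm_num)]
    unfold cD
    rw [o64_eq]
    rfl
  rw [e, Nat.testBit_or, Bool.or_eq_true, testBit_tab (fun r _ => toNat_mul_lt _ hl) _ hv,
    testBit_toNat_mul] at h
  refine h.imp_right fun h => ?_
  simp only [Bool.and_eq_true, Bool.true_and] at h
  obtain ⟨-, h1, h2⟩ := h
  rw [Nat.testBit_shiftRight, add_comm] at h1
  have h3 := (Nat.testBit_and _ _ _).symm.trans h2
  rw [Bool.and_eq_true] at h3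
  have h4 := (Nat.testBit_shiftRight _).symm.trans h3.1
  refine ⟨h1, ?_⟩
  rw [← h4]
  congr 1
  change _ = j.shiftRight 1 * 128 + v
  omega

theorem H_ldD_succ (R a k : ℕ) : ldD R a (k + 1) =
    sel ((kn R k).beq 0) (ldD R a k) (cD (ldD R a k) (src R k) k) := rfl

theorem H_ldD (R a k : ℕ) (T : ℕ → ℕ → Prop)
    (h0 : ∀ j, ∀ v < 64, a.testBit (64 * j + v) = true → T j v)
    (hs : ∀ g, ∀ i : Bool, 2 * g + i.toNat < k → kn R (2 * g + i.toNat) = 1 → ∀ j v,
      T j (src R (2 * g + i.toNat)) → T (2 * g) v → T j v) :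
    ∀ j, ∀ v < 64, (ldD R a k).testBit (64 * j + v) = true → T j v := by
  induction k with
  | zero => exact h0
  | succ k ih =>
    have ih := ih fun g i hg => hs g i (by omega)
    intro j v hv h
    rw [H_ldD_succ, sel_eq] at h
    split_ifs at h with hk
    · exact ih j v hv h
    · rcases H_cD _ _ _ hv h with h | ⟨h1, h2⟩
      · exact ih j v hv h
      · obtain ⟨g, i, hj, hr, -⟩ := slot_eq k
        rw [hr] at h2
        have hk1 : kn R k = 1 := by
          have := H_kn_le R k
          have : kn R k ≠ 0 := fun e => hk (by rw [e]; rfl)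
          omega
        subst hj
        exact hs g i (by omega) hk1 j v (ih _ _ (H_src_lt _ _) h1) (ih _ _ hv h2)

theorem H_diag2 : diag2 = tab 64 (fun j => 2 ^ (j / 2)) 128 := by decide +kernel

theorem H_diag_bit {G j v : ℕ} (hv : v < 64)
    (h : (diag2.land (msk (G.mul 128))).testBit (64 * j + v) = true) : j < 2 * G ∧ v = j / 2 := by
  have h' := (Nat.testBit_and _ _ _).symm.trans h
  rw [Bool.and_eq_true, testBit_msk, decide_eq_true_iff, H_diag2,
    testBit_tab (fun j hj => Nat.pow_lt_pow_right (by norm_num) (by omega)) _ hv,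
    Bool.and_eq_true, Nat.testBit_two_pow, decide_eq_true_iff, decide_eq_true_iff] at h'
  obtain ⟨⟨-, h1⟩, h2⟩ := h'
  change _ < G * 128 at h2
  omega

/-! ### well-formed stored patterns -/

theorem H_m63 : m63 = tab 128 (fun _ => true.toNat * (2 ^ 6 - 1)) 64 := by decide +kernel

theorem H_m64 : m64 = tab 128 (fun _ => 2 ^ 6) 64 := by decide +kernel

theorem H_lane {R n p u : ℕ} (hn : n ≤ 64) (hp : p + 6 ≤ 128) (hu : u < 64)
    (h : (((R.shiftRight p).land m63).add (o128.mul (Nat.sub 64 n))).testBit (128 * u + 6) =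
      false) : rcd R u / 2 ^ p % 64 < n := by
  have hG : ∀ j, G 128 6 (R >>> p) j < 64 := fun j => G_lt 128 6 _ j
  have e : ((R.shiftRight p).land m63).add (o128.mul (Nat.sub 64 n)) =
      tab 128 (fun j => true.toNat * G 128 6 (R >>> p) j + 1 * (64 - n)) 64 := by
    rw [← tab_add, ← tab_mul (fun _ _ => by norm_num), ← and_mask (by norm_num) (by norm_num),
      H_m63, o128_eq]
    · rfl
    · intro j _
      omega
    · intro j _
      have := hG j
      rw [Bool.toNat_true]
      omega
  have e2 : G 128 6 (R >>> p) u = rcd R u / 2 ^ p % 64 := by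
    rw [← show _ = rcd R u / 2 ^ p % 64 from rc_field R u (p := p) (w := 6) hp]
    unfold G
    rw [← Nat.shiftRight_add, add_comm, Nat.shiftRight_add]
    rfl
  rw [e, testBit_tab (fun j _ => by
    have := hG j
    rw [Bool.toNat_true]
    omega) _ (by norm_num), decide_eq_true hu, Bool.true_and, Bool.toNat_true, e2,
    Nat.testBit_eq_decide_div_mod_eq, decide_eq_false_iff_not] at h
  omega

theorem H_pN (P : ℕ) : pN P ≤ 63 := Nat.and_le_right

theorem H_wfE {P : ℕ} (h : wfE P = 0) : pG P ≤ pN P ∧ (pO P < pN P ∨ pO P = 63) ∧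
    (∀ u < 64, (rcd (pR P) u).testBit 30 = decide (u < pG P)) ∧
    (∀ u < 64, ∀ i, rcd (pR P) u / 2 ^ (so i + 2) % 64 < pN P) ∧
    fxE (pN P) (pF P) (P.shiftRight 32) = 0 := by
  unfold wfE at h
  simp only [lor_eq_zero] at h
  obtain ⟨⟨⟨⟨⟨h1, h2⟩, h3⟩, -⟩, h5⟩, h6⟩ := h
  have hn := H_pN P
  have hG : pG P ≤ pN P := Nat.sub_eq_zero_iff_le.mp h1
  refine ⟨hG, ?_, fun u hu => ?_, fun u hu i => ?_, h6⟩
  · rw [sel_eq] at h2
    split_ifs at h2 with e
    · exact Or.inr (Nat.eq_of_beq_eq_true e)
    · change pO P + 1 - pN P = 0 at h2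
      omega
  · rw [xor_eq_zero, on1_eq (by omega), o128_eq] at h3
    have h4 := congrArg (fun x => x.testBit (128 * u + 0)) h3
    have h7 := (Nat.testBit_and _ _ _).symm.trans h4
    rw [testBit_tab (fun _ _ => by norm_num) _ (by norm_num),
      testBit_tab (fun _ _ => toNat_lt _ (by norm_num)) _ (by norm_num), decide_eq_true hu,
      testBit_toNat] at h7
    have h8 : (Nat.shiftRight (pR P) 30).testBit (128 * u + 0) = (pR P).testBit (128 * u + 30) := by
      refine (Nat.testBit_shiftRight _).trans ?_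
      congr 1
      omega
    rw [testBit_rcd _ _ (by norm_num), ← h8]
    simpa using h7
  · have h4 := congrArg (fun x => x.testBit (128 * u + 6)) h5
    have h7 := (Nat.testBit_and _ _ _).symm.trans h4
    rw [H_m64, testBit_tab (fun _ _ => by norm_num) _ (by norm_num), decide_eq_true hu,
      Nat.testBit_two_pow_self, Nat.zero_testBit, Bool.and_true, Bool.and_true] at h7
    have h8 := (Nat.testBit_or _ _ _).symm.trans h7
    rw [Bool.or_eq_false_iff] at h8
    cases i
    · exact H_lane (p := 8) (by omega) (by norm_num) hu h8.1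
    · exact H_lane (p := 20) (by omega) (by norm_num) hu h8.2

end Pool.Agent.Lib.MP_79d702_lc.U2.V2
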