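import Pool.Agent.Lib.MP_79d702_lc.U2.V2A
import Pool.Agent.Lib.MP_79d702_lc.U2.V2D

/-!
Basic operations of the packed simulation.
-/

namespace Pool.Agent.Lib.MP_79d702_lc.U2.V2

theorem vi_ps_all : allTo (fun r => (ps r).beq (psn r)) 256 = true := by decide +kernel

theorem ps_eq {r : ℕ} (hr : r < 256) : ps r = psn r :=
  Nat.eq_of_beq_eq_true ((allTo_iff _ _).mp vi_ps_all r hr)

theorem qr_lt (C r : ℕ) : qr C r < 2 ^ 24 := Nat.mod_lt _ (Nat.two_pow_pos _)

theorem vi_testBit_qr (C r p : ℕ) :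
    (qr C r).testBit p = (decide (p < 24) && C.testBit (psn r + p)) := by
  unfold qr
  rw [Nat.testBit_mod_two_pow, Nat.testBit_div_two_pow, add_comm p]

theorem vi_testBit_cq (C : ℕ) {r : ℕ} (hr : r < 256) (p : ℕ) :
    (cq C r).testBit p = C.testBit (psn r + p) := by
  change (C >>> ps r).testBit p = _
  rw [Nat.testBit_shiftRight, ps_eq hr]

theorem cq_field (C : ℕ) {r p w : ℕ} (hr : r < 256) (h : p + w ≤ 24) :
    ((cq C r).shiftRight p).land (2 ^ w - 1) = qr C r / 2 ^ p % 2 ^ w := by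
  refine Nat.eq_of_testBit_eq fun v => ?_
  change ((cq C r >>> p) &&& (2 ^ w - 1)).testBit v = _
  rw [Nat.testBit_and, Nat.testBit_shiftRight, Nat.testBit_two_pow_sub_one, vi_testBit_cq C hr,
    Nat.testBit_mod_two_pow, Nat.testBit_div_two_pow, vi_testBit_qr, add_comm v p]
  by_cases hv : v < w
  · have : p + v < 24 := by omega
    simp [hv, this]
  · simp [hv]

theorem cq_land (C : ℕ) {r c : ℕ} (hr : r < 256) (h : c < 2 ^ 24) :
    (cq C r).land c = qr C r &&& c := by
  refine Nat.eq_of_testBit_eq fun v => ?_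
  change (cq C r &&& c).testBit v = _
  rw [Nat.testBit_and, Nat.testBit_and, vi_testBit_cq C hr, vi_testBit_qr]
  by_cases hv : v < 24
  · simp [hv]
  · rw [LA.testBit_of_lt h (not_lt.mp hv)]
    simp

theorem vi_psn_lo {u : ℕ} (hu : u < 64) : psn u = 128 * u + 24 := if_pos hu

theorem nq_eq (C : ℕ) {u : ℕ} (hu : u < 64) : nq C u = cq C u := by
  change C >>> (u * 128 + 24) = C >>> ps u
  rw [ps_eq (by omega), vi_psn_lo hu, mul_comm]

theorem vi_disj {r r' : ℕ} (hr : r < 256) (hr' : r' < 256) (h : r' ≠ r) :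
    psn r + 24 ≤ psn r' ∨ psn r' + 24 ≤ psn r := by
  unfold psn
  split_ifs <;> omega

theorem qr_xor (C : ℕ) {r c : ℕ} (hr : r < 256) (h : c < 2 ^ 24) {r' : ℕ} (hr' : r' < 256) :
    qr (C.xor (c.shiftLeft (psn r))) r' = if r' = r then qr C r ^^^ c else qr C r' := by
  refine Nat.eq_of_testBit_eq fun v => ?_
  rw [vi_testBit_qr]
  change (decide (v < 24) && (C ^^^ (c <<< psn r)).testBit (psn r' + v)) = _
  rw [Nat.testBit_xor, Nat.testBit_shiftLeft]
  split_ifs with e
  · subst e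
    rw [Nat.testBit_xor, vi_testBit_qr, Nat.add_sub_cancel_left]
    by_cases hv : v < 24
    · simp [hv]
    · rw [LA.testBit_of_lt h (not_lt.mp hv)]
      simp [hv]
  · rw [vi_testBit_qr]
    by_cases hv : v < 24
    · rcases vi_disj hr hr' e with h1 | h1
      · rw [LA.testBit_of_lt h (by omega)]
        simp
      · have : ¬ psn r' + v ≥ psn r := by omega
        simp [this]
    · simp [hv]

theorem vi_split (C p : ℕ) :
    C = 2 ^ p * (2 ^ 24 * (C / 2 ^ p / 2 ^ 24) + C / 2 ^ p % 2 ^ 24) + C % 2 ^ p := by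
  rw [Nat.div_add_mod, Nat.div_add_mod]

theorem vi_testBit_asm {p A q B : ℕ} (hq : q < 2 ^ 24) (hB : B < 2 ^ p) (j : ℕ) :
    (2 ^ p * (2 ^ 24 * A + q) + B).testBit j =
      if j < p then B.testBit j else if j - p < 24 then q.testBit (j - p)
        else A.testBit (j - p - 24) := by
  rw [Nat.testBit_two_pow_mul_add _ hB, Nat.testBit_two_pow_mul_add _ hq]

theorem vi_testBit_sub (C p : ℕ) {c : ℕ} (h : c ≤ C / 2 ^ p % 2 ^ 24) (j : ℕ) :
    (C - c * 2 ^ p).testBit j = if p ≤ j ∧ j < p + 24 then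
      (C / 2 ^ p % 2 ^ 24 - c).testBit (j - p) else C.testBit j := by
  have hq : C / 2 ^ p % 2 ^ 24 < 2 ^ 24 := Nat.mod_lt _ (Nat.two_pow_pos _)
  have hB : C % 2 ^ p < 2 ^ p := Nat.mod_lt _ (Nat.two_pow_pos _)
  have e : C - c * 2 ^ p =
      2 ^ p * (2 ^ 24 * (C / 2 ^ p / 2 ^ 24) + (C / 2 ^ p % 2 ^ 24 - c)) + C % 2 ^ p := by
    have h1 := vi_split C p
    generalize C / 2 ^ p / 2 ^ 24 = A at *
    generalize C / 2 ^ p % 2 ^ 24 = q at *
    generalize C % 2 ^ p = B at *
    obtain ⟨d, rfl⟩ := Nat.exists_eq_add_of_le h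
    rw [Nat.add_sub_cancel_left, h1]
    apply Nat.sub_eq_of_eq_add
    ring
  rw [e, vi_testBit_asm ((Nat.sub_le _ _).trans_lt hq) hB]
  have h2 := vi_testBit_asm (A := C / 2 ^ p / 2 ^ 24) hq hB j
  rw [← vi_split] at h2
  rw [h2]
  split_ifs <;> first | rfl | omega

theorem qr_sub (C : ℕ) {r c : ℕ} (hr : r < 256) (h : c ≤ qr C r) {r' : ℕ} (hr' : r' < 256) :
    qr (C.sub (c.shiftLeft (psn r))) r' = if r' = r then qr C r - c else qr C r' := by
  refine Nat.eq_of_testBit_eq fun v => ?_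
  rw [vi_testBit_qr]
  change (decide (v < 24) && (C - (c <<< psn r)).testBit (psn r' + v)) = _
  rw [Nat.shiftLeft_eq, vi_testBit_sub C _ h]
  by_cases e : r' = r
  · subst e
    rw [if_pos rfl]
    by_cases hv : v < 24
    · rw [if_pos ⟨by omega, by omega⟩, Nat.add_sub_cancel_left]
      simp [hv, qr]
    · rw [LA.testBit_of_lt ((Nat.sub_le _ _).trans_lt (qr_lt C r')) (not_lt.mp hv)]
      simp [hv]
  · rw [if_neg e, vi_testBit_qr]
    by_cases hv : v < 24
    · have := vi_disj hr hr' e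
      rw [if_neg (by omega)]
    · simp [hv]

theorem vi_testBit_ln (L j v : ℕ) :
    (ln L j).testBit v = (decide (v < 64) && L.testBit (64 * j + v)) := by
  unfold ln
  rw [Nat.testBit_mod_two_pow, Nat.testBit_div_two_pow, add_comm v]

theorem vi_rf (L j : ℕ) : rf L j = ln L j % 256 := by
  change (L >>> (j * 64)) &&& (2 ^ 8 - 1) = _
  rw [Nat.and_two_pow_sub_one_eq_mod, Nat.shiftRight_eq_div_pow, mul_comm]
  unfold ln
  omega

theorem vi_lit (L j : ℕ) : lit L j = ln L j % 512 := by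
  change (L >>> (j * 64)) &&& (2 ^ 9 - 1) = _
  rw [Nat.and_two_pow_sub_one_eq_mod, Nat.shiftRight_eq_div_pow, mul_comm]
  unfold ln
  omega

theorem vi_pl (L j : ℕ) : pl L j = ln L j / 256 % 2 := by
  change ((L >>> (j * 64)) >>> 8) &&& 1 = _
  rw [Nat.and_one_is_mod, Nat.shiftRight_eq_div_pow, Nat.shiftRight_eq_div_pow, mul_comm]
  unfold ln
  omega

theorem rf_lt (L j : ℕ) : rf L j < 256 := by
  rw [vi_rf]
  omega

theorem lit_eq (L j : ℕ) : lit L j = rf L j + pl L j * 256 := by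
  rw [vi_rf, vi_lit, vi_pl]
  omega

theorem crT_eq (d : ℕ) : crT d = cr d := crC_eq d

theorem vi_and_xor {q m e : ℕ} : (q &&& m).xor e = 0 ↔ q &&& m = e := xor_eq_zero

theorem vi_and_fld (q p w : ℕ) :
    q &&& ((2 ^ w - 1) * 2 ^ p) = q / 2 ^ p % 2 ^ w * 2 ^ p := by
  refine Nat.eq_of_testBit_eq fun v => ?_
  rw [← Nat.shiftLeft_eq, ← Nat.shiftLeft_eq, Nat.testBit_and, Nat.testBit_shiftLeft,
    Nat.testBit_shiftLeft, Nat.testBit_two_pow_sub_one, Nat.testBit_mod_two_pow,
    Nat.testBit_div_two_pow]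
  by_cases hv : v ≥ p
  · rw [Nat.sub_add_cancel hv]
    simp [hv, Bool.and_comm]
  · simp [hv]

theorem vi_nAG (q : ℕ) :
    q &&& 393216 = 393216 ↔ q.testBit 18 = true ∧ q.testBit 17 = true := by
  have e : q &&& 393216 = q / 2 ^ 17 % 2 ^ 2 * 2 ^ 17 := vi_and_fld q 17 2
  rw [e, Nat.testBit_eq_decide_div_mod_eq, Nat.testBit_eq_decide_div_mod_eq, decide_eq_true_eq,
    decide_eq_true_eq]
  omega

theorem vi_nUF (q : ℕ) : q &&& 917504 = 917504 ↔
    (q.testBit 18 = true ∧ q.testBit 17 = true) ∧ q.testBit 19 = true := by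
  have e : q &&& 917504 = q / 2 ^ 17 % 2 ^ 3 * 2 ^ 17 := vi_and_fld q 17 3
  rw [e, Nat.testBit_eq_decide_div_mod_eq, Nat.testBit_eq_decide_div_mod_eq,
    Nat.testBit_eq_decide_div_mod_eq, decide_eq_true_eq, decide_eq_true_eq, decide_eq_true_eq]
  omega

theorem vi_nAV (q : ℕ) :
    q &&& 393216 = 262144 ↔ q.testBit 18 = true ∧ q.testBit 17 = false := by
  have e : q &&& 393216 = q / 2 ^ 17 % 2 ^ 2 * 2 ^ 17 := vi_and_fld q 17 2
  rw [e, Nat.testBit_eq_decide_div_mod_eq, Nat.testBit_eq_decide_div_mod_eq, decide_eq_true_eq,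
    decide_eq_false_iff_not]
  omega

theorem vi_dex (q : ℕ) : q &&& 65536 = 0 ↔ q.testBit 16 = false := by
  have e : q &&& 65536 = q / 2 ^ 16 % 2 ^ 1 * 2 ^ 16 := vi_and_fld q 16 1
  rw [e, Nat.testBit_eq_decide_div_mod_eq, decide_eq_false_iff_not]
  omega

theorem vi_n255_eq : n255 = tab 64 (fun _ => true.toNat * (2 ^ 8 - 1)) 128 := by decide +kernel

theorem vi_o64_eq : o64 = tab 64 (fun _ => true.toNat) 128 := by decide +kernel

theorem vi_sel (M u : ℕ) : (M >>> u) &&& o64
    = tab 64 (fun j => (M.testBit (64 * j + u)).toNat) 128 := by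
  rw [vi_o64_eq, LA.and_sel (by norm_num) _ fun _ => true]
  refine LA.tab_congr fun j _ => ?_
  rw [Nat.testBit_shiftRight, add_comm u, Bool.true_and]

theorem vi_tab_mod {f : ℕ → ℕ} (hf : ∀ r, f r < 256) :
    tab 64 f 128 % 18446744073709551615 = ∑ j ∈ Finset.range 128, f j := by
  refine LA.tab_mod (s := 64) (fun j _ => (hf j).trans (by norm_num)) ?_
  refine (Finset.sum_le_card_nsmul _ _ 256 fun r _ => (hf r).le).trans_lt ?_
  rw [Finset.card_range]
  norm_num

theorem vi_G_qr (C : ℕ) {j : ℕ} (hj : j < 128) : LA.G 64 8 C j = qr C (64 + j) % 256 := by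
  refine Nat.eq_of_testBit_eq fun v => ?_
  have e : psn (64 + j) = 64 * j := by
    unfold psn
    rw [if_neg (by omega), if_pos (by omega), Nat.add_sub_cancel_left]
  rw [LA.testBit_G, show 256 = 2 ^ 8 from rfl, Nat.testBit_mod_two_pow, vi_testBit_qr, e]
  by_cases hv : v < 8
  · have : v < 24 := by omega
    simp [hv, this]
  · simp [hv]

theorem vi_cq_lo (C : ℕ) {r : ℕ} (hr : r < 256) : (cq C r).land 255 = qr C r % 256 := by
  rw [cq_land C hr (by norm_num)]
  exact Nat.and_two_pow_sub_one_eq_mod _ 8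

theorem vi_cq_sd (C : ℕ) {r : ℕ} (hr : r < 256) :
    ((cq C r).shiftRight 8).land 15 = qr C r / 2 ^ 8 % 16 :=
  cq_field C (p := 8) (w := 4) hr (by norm_num)

theorem vi_xor_lo (q : ℕ) {v : ℕ} (hv : v < 256) :
    q ^^^ (q % 256 ^^^ v) = q / 256 * 256 + v := by
  refine Nat.eq_of_testBit_eq fun i => ?_
  have e : q / 256 * 256 + v = 2 ^ 8 * (q / 2 ^ 8) + v := by omega
  rw [e, Nat.testBit_two_pow_mul_add _ (i := 8) hv, Nat.testBit_xor, Nat.testBit_xor,
    show 256 = 2 ^ 8 from rfl, Nat.testBit_mod_two_pow, Nat.testBit_div_two_pow]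
  by_cases hi : i < 8
  · simp [hi]
  · rw [LA.testBit_of_lt (w := 8) hv (not_lt.mp hi), if_neg hi, Nat.sub_add_cancel (not_lt.mp hi)]
    simp [hi]

theorem vi_dec_all : allTo (fun x => ((Nat.shiftRight 1152921504606846974 x).land 1).beq
    (x - dec x)) 256 = true := by decide +kernel

theorem vi_mRow_lt (M w : ℕ) : mRow M w < 2 ^ 64 := by
  unfold mRow
  rw [sel_eq, sel_eq]
  split_ifs with h1 h2
  · rw [one_eq]
    exact Nat.pow_lt_pow_right (by norm_num) (Nat.lt_succ_of_le (Nat.le_of_ble_eq_true h1))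
  · exact Nat.and_lt_two_pow _ (by norm_num)
  · norm_num

section

variable {n C L M o h pe rem ad t el rw : ℕ}

theorem rf_eq (g : ℕ) (i : Bool) :
    rf L (2 * g + i.toNat) = (absS n C L M o h pe rem ad t el rw).inp g i := vi_rf _ _

theorem pl_eq (g : ℕ) (i : Bool) :
    pl L (2 * g + i.toNat) = ((absS n C L M o h pe rem ad t el rw).pol g i).toNat := by
  change _ = ((ln L (2 * g + i.toNat)).testBit 8).toNat
  rw [vi_pl, Nat.toNat_testBit]

theorem sdq_eq {r : ℕ} (hr : r < 256) : sdq C r = (absS n C L M o h pe rem ad t el rw).sd r :=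
  vi_cq_sd C hr

theorem ws_nAG (W : WS n C) {r : ℕ} (hr : r < 256) :
    nAG (cq C r) = 0 ↔ (absS n C L M o h pe rem ad t el rw).AG r := by
  unfold nAG
  rw [cq_land C hr (by norm_num), xor_eq_zero, vi_nAG]
  exact ⟨fun e => ⟨W.al r hr e.1, e⟩, fun e => e.2⟩

theorem ws_nUF (W : WS n C) {r : ℕ} (hr : r < 256) :
    nUF (cq C r) = 0 ↔ (absS n C L M o h pe rem ad t el rw).AG r ∧
      (absS n C L M o h pe rem ad t el rw).uf r = true := by
  unfold nUF
  rw [cq_land C hr (by norm_num), xor_eq_zero, vi_nUF]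
  exact ⟨fun e => ⟨⟨W.al r hr e.1.1, e.1⟩, e.2⟩, fun e => ⟨e.1.2, e.2⟩⟩

theorem ws_nAV (W : WS n C) {r : ℕ} (hr : r < 256) :
    nAV (cq C r) = 0 ↔ (absS n C L M o h pe rem ad t el rw).AV r := by
  unfold nAV
  rw [cq_land C hr (by norm_num), xor_eq_zero, vi_nAV]
  exact ⟨fun e => ⟨W.al r hr e.1, e⟩, fun e => e.2⟩

theorem vi_may_mid {r : ℕ} (h1 : 64 ≤ r) (h2 : r < 192) (v : ℕ) :
    (absS n C L M o h pe rem ad t el rw).may r v = (ln M (r - 64)).testBit v := by
  change (if r < 64 then _ else if r < 192 then _ else _) = _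
  rw [if_neg (by omega), if_pos h2]

theorem ext_eq {u : ℕ} (hu : u < 64) :
    ext C M u = (absS n C L M o h pe rem ad t el rw).ext u := by
  change ((((M >>> u) &&& o64) * (2 ^ 8 - 1)) &&& C) % 18446744073709551615 = _
  have e := LA.and_mask (s := 64) (w := 8) (k := 128) (by norm_num) (by norm_num) C
    fun j => M.testBit (64 * j + u)
  rw [vi_sel, LA.tab_mul (fun j _ => LA.toNat_lt _ (by norm_num))
    (fun j _ => LA.toNat_mul_lt _ (by norm_num)), Nat.and_comm, e,
    vi_tab_mod (fun r => LA.toNat_mul_lt _ (LA.G_lt 64 8 C r))]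
  unfold Sim.ext
  rw [Finset.sum_Ico_eq_sum_range]
  refine Finset.sum_congr rfl fun j hj => ?_
  have hj' : j < 128 := Finset.mem_range.mp hj
  rw [vi_may_mid (by omega) (by omega), Nat.add_sub_cancel_left, vi_testBit_ln, vi_G_qr C hj']
  change _ = if _ then qr C (64 + j) % 256 else 0
  cases M.testBit (64 * j + u) <;> simp [hu]

theorem ub_eq {u : ℕ} (hu : u < 64) :
    ub C M u (cq C u) = (absS n C L M o h pe rem ad t el rw).ub u := by
  have hr : u < 256 := by omega
  unfold ub Sim.ub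
  rw [sel_eq, cq_land C hr (by norm_num), vi_cq_lo C hr,
    ext_eq (n := n) (L := L) (o := o) (h := h) (pe := pe) (rem := rem) (ad := ad) (t := t)
      (el := el) (rw := rw) hu]
  have e : (absS n C L M o h pe rem ad t el rw).dex u = (qr C u).testBit 16 := rfl
  rw [e]
  by_cases hd : (qr C u).testBit 16 = true
  · rw [if_pos hd, if_neg]
    · rfl
    · intro h0
      rw [(vi_dex _).mp (Nat.eq_of_beq_eq_true h0)] at hd
      exact Bool.false_ne_true hd
  · rw [if_neg hd, if_pos]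
    rw [(vi_dex _).mpr (by simpa using hd)]
    rfl

theorem mRow_bit {w v : ℕ} (hw : w < 256) (hv : v < 64) :
    (mRow M w).testBit v = (absS n C L M o h pe rem ad t el rw).may w v := by
  change _ = if w < 64 then _ else if w < 192 then _ else _
  unfold mRow
  rw [sel_eq, sel_eq]
  by_cases h1 : w < 64
  · rw [if_pos h1, if_pos (Nat.ble_eq_true_of_le (by omega)), testBit_one]
  · rw [if_neg h1, if_neg (fun e => h1 (Nat.lt_succ_of_le (Nat.le_of_ble_eq_true e)))]
    by_cases h2 : w < 192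
    · rw [if_pos h2, if_pos (Nat.ble_eq_true_of_le (by omega)), vi_testBit_ln]
      change ((M >>> ps w) &&& (2 ^ 64 - 1)).testBit v = _
      have e : psn w = 64 * (w - 64) := by
        unfold psn
        rw [if_neg h1, if_pos h2]
      rw [Nat.testBit_and, Nat.testBit_shiftRight, Nat.testBit_two_pow_sub_one, ps_eq hw, e,
        Bool.and_comm]
    · rw [if_neg h2, if_neg (fun e => h2 (Nat.lt_succ_of_le (Nat.le_of_ble_eq_true e)))]
      change (2 ^ 61).testBit v = _
      rw [Nat.testBit_two_pow]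
      simp [eq_comm]

theorem ws_nOne (W : WS n C) {g : ℕ} {i : Bool} (hg : g < 64)
    (e : nOne C L M (2 * g + i.toNat) = 0) : (absS n C L M o h pe rem ad t el rw).AG g ∧
      (absS n C L M o h pe rem ad t el rw).AV ((absS n C L M o h pe rem ad t el rw).inp g i) ∧
      (absS n C L M o h pe rem ad t el rw).ub
        ((absS n C L M o h pe rem ad t el rw).inp g i) ≤ 1 := by
  unfold nOne at e
  rw [lor_eq_zero, lor_eq_zero, slot_shr, nq_eq C hg] at e
  obtain ⟨⟨e1, e2⟩, e3⟩ := e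
  have h2 := (ws_nAV (L := L) (M := M) (o := o) (h := h) (pe := pe) (rem := rem) (ad := ad)
    (t := t) (el := el) (rw := rw) W (rf_lt _ _)).mp e2
  have h3 : rf L (2 * g + i.toNat) < 64 := by
    have := h2.1
    have := W.n61
    change rf L (2 * g + i.toNat) < n at *
    omega
  rw [ub_eq (n := n) (L := L) (o := o) (h := h) (pe := pe) (rem := rem) (ad := ad) (t := t)
      (el := el) (rw := rw) h3] at e3
  rw [← rf_eq]
  exact ⟨(ws_nAG W (by omega)).mp e1, h2, Nat.le_of_sub_eq_zero e3⟩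

theorem vi_qr_set (C : ℕ) {r r' v : ℕ} (hr : r < 256) (hr' : r' < 256) (hv : v < 256) :
    qr (C.xor ((((cq C r).land 255).xor v).shiftLeft (ps r))) r' =
      if r' = r then qr C r / 256 * 256 + v else qr C r' := by
  have h1 : qr C r % 256 ^^^ v < 2 ^ 8 := Nat.xor_lt_two_pow (Nat.mod_lt _ (by norm_num)) hv
  rw [ps_eq hr, vi_cq_lo C hr]
  refine (qr_xor C hr (h1.trans (by norm_num)) hr').trans ?_
  rw [vi_xor_lo _ hv]

theorem vi_sat (x : ℕ) : x.sub (x.sub 60) = sat x := satC_eq x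

theorem vi_sat_lt (x : ℕ) : sat x < 256 := by
  unfold sat
  omega

theorem qr_inc {r r' : ℕ} (hr : r < 256) (hr' : r' < 256) : qr (inc C r) r' =
    if r' = r then qr C r / 256 * 256 + sat (qr C r % 256 + 1) else qr C r' := by
  have e : inc C r = C.xor ((((cq C r).land 255).xor
      (sat (((cq C r).land 255).add 1))).shiftLeft (ps r)) := by
    rw [← vi_sat]
    rfl
  rw [e, vi_qr_set C hr hr' (vi_sat_lt _), vi_cq_lo C hr]

theorem qr_dcr {r r' : ℕ} (hr : r < 256) (hr' : r' < 256) : qr (dcr C r) r' =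
    if r' = r then qr C r / 256 * 256 + dec (qr C r % 256) else qr C r' := by
  have h0 : qr C r % 256 < 256 := Nat.mod_lt _ (by norm_num)
  have h1 := Nat.eq_of_beq_eq_true ((allTo_iff _ _).mp vi_dec_all _ h0)
  have h2 : dec (qr C r % 256) ≤ qr C r % 256 := by
    unfold dec
    split_ifs <;> omega
  unfold dcr
  rw [ps_eq hr, vi_cq_lo C hr, h1, qr_sub C hr (by omega) hr']
  split_ifs
  · omega
  · rfl

theorem vi_rL_eq (L : ℕ) {g v : ℕ} (hg : g < 256) (hv : v < 512) :
    rL L g v = L ^^^ tab 64 (fun j => (decide (ln L j % 256 = g)).toNat * v) 128 := by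
  have hc : v < 2 ^ 64 := hv.trans (by norm_num)
  have e2 : o64 * g = tab 64 (fun _ => g) 128 := by
    rw [vi_o64_eq, LA.tab_mul (fun j _ => LA.toNat_lt _ (by norm_num))
      fun j _ => LA.toNat_mul_lt _ (hg.trans (by norm_num))]
    exact LA.tab_congr fun j _ => one_mul _
  have hx : ∀ j, ln L j % 256 ^^^ g < 256 := fun j =>
    Nat.xor_lt_two_pow (n := 8) (Nat.mod_lt _ (by norm_num)) hg
  have e1 : (L ^^^ tab 64 (fun _ => g) 128) &&& n255
      = tab 64 (fun j => ln L j % 256 ^^^ g) 128 := by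
    rw [vi_n255_eq, LA.and_mask (by norm_num) (by norm_num) _ fun _ => true]
    refine LA.tab_congr fun j hj => ?_
    rw [Bool.toNat_true, one_mul]
    refine Nat.eq_of_testBit_eq fun i => ?_
    rw [LA.testBit_G, Nat.testBit_xor, Nat.testBit_xor, show 256 = 2 ^ 8 from rfl,
      Nat.testBit_mod_two_pow, vi_testBit_ln]
    by_cases hi : i < 8
    · have hi' : i < 64 := by omega
      rw [LA.testBit_tab (fun _ _ => hg.trans (by norm_num)) j hi']
      simp [hi, hi', hj]
    · rw [LA.testBit_of_lt (w := 8) hg (not_lt.mp hi)]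
      simp [hi]
  have e3 : tab 64 (fun j => ln L j % 256 ^^^ g) 128 + n255
      = tab 64 (fun j => (ln L j % 256 ^^^ g) + 255) 128 := by
    rw [vi_n255_eq]
    exact LA.tab_add fun j _ => by
      have := hx j
      change (ln L j % 256 ^^^ g) + 255 < 18446744073709551616
      omega
  have e4 : (tab 64 (fun j => (ln L j % 256 ^^^ g) + 255) 128 >>> 8) &&& o64
      = tab 64 (fun j => (decide (ln L j % 256 ^^^ g ≠ 0)).toNat) 128 := by
    rw [vi_sel]
    refine LA.tab_congr fun j hj => ?_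
    rw [LA.testBit_tab (fun j _ => by
      have := hx j
      change (ln L j % 256 ^^^ g) + 255 < 18446744073709551616
      omega) j (by norm_num), LA.testBit_carry (hx j)]
    simp [hj]
  have e5 : tab 64 (fun j => (decide (ln L j % 256 ^^^ g ≠ 0)).toNat) 128 ^^^ o64
      = tab 64 (fun j => (decide (ln L j % 256 = g)).toNat) 128 := by
    rw [vi_o64_eq, LA.tab_xor (by norm_num) (fun j _ => LA.toNat_lt _ (by norm_num))
      fun j _ => LA.toNat_lt _ (by norm_num)]
    refine LA.tab_congr fun j _ => ?_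
    by_cases h : ln L j % 256 = g <;> simp [h]
  change L ^^^ (((((((L ^^^ (o64 * g)) &&& n255) + n255) >>> 8) &&& o64) ^^^ o64) * v) = _
  rw [e2, e1, e3, e4, e5,
    LA.tab_mul (fun j _ => LA.toNat_lt _ (by norm_num)) fun j _ => LA.toNat_mul_lt _ hc]

theorem ln_rL {g v j : ℕ} (hg : g < 256) (hv : v < 512) (hj : j < 128) : ln (rL L g v) j =
    if ln L j % 256 = g then ln L j ^^^ v else ln L j := by
  have hc : v < 2 ^ 64 := hv.trans (by norm_num)
  refine Nat.eq_of_testBit_eq fun i => ?_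
  rw [vi_testBit_ln, vi_rL_eq L hg hv, Nat.testBit_xor]
  by_cases hi : i < 64
  · rw [LA.testBit_tab (fun j _ => LA.toNat_mul_lt _ hc) j hi, LA.testBit_toNat_mul]
    split_ifs with e
    · rw [Nat.testBit_xor, vi_testBit_ln]
      simp [hi, hj, e]
    · rw [vi_testBit_ln]
      simp [hi, e]
  · split_ifs with e
    · rw [Nat.testBit_xor, vi_testBit_ln, LA.testBit_of_lt hc (not_lt.mp hi)]
      simp [hi]
    · rw [vi_testBit_ln]
      simp [hi]

theorem vi_dec_le (x : ℕ) : dec x ≤ x := by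
  unfold dec
  split_ifs <;> omega

theorem vi_dcr_hi (C : ℕ) {r r' : ℕ} (hr : r < 256) (hr' : r' < 256) :
    qr (dcr C r) r' / 256 = qr C r' / 256 := by
  rw [qr_dcr hr hr']
  split_ifs with e
  · subst e
    have := vi_dec_le (qr C r' % 256)
    omega
  · rfl

theorem vi_dcr_lo (C : ℕ) {r r' : ℕ} (hr : r < 256) (hr' : r' < 256) :
    qr (dcr C r) r' % 256 = if r' = r then dec (qr C r % 256) else qr C r' % 256 := by
  rw [qr_dcr hr hr']
  split_ifs with e
  · have := vi_dec_le (qr C r % 256)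
    omega
  · rfl

theorem vi_kill (C : ℕ) {g r : ℕ} (hg : g < 64) (hr : r < 256) :
    qr (kill C g) r = if r = g then qr C g ^^^ 2 ^ 18 else qr C r := by
  have e : kill C g = C.xor ((2 ^ 18).shiftLeft (psn g)) := by
    change C ^^^ one (g * 128 + 42) = C ^^^ ((2 ^ 18) <<< psn g)
    rw [one_eq, Nat.shiftLeft_eq, vi_psn_lo hg, ← pow_add]
    congr 2
    omega
  rw [e, qr_xor C (by omega) (by norm_num) hr]

theorem vi_kill_lo (C : ℕ) {g r : ℕ} (hg : g < 64) (hr : r < 256) :
    qr (kill C g) r % 2 ^ 18 = qr C r % 2 ^ 18 := by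
  rw [vi_kill C hg hr]
  split_ifs with e
  · rw [Nat.xor_mod_two_pow, Nat.mod_self, Nat.xor_zero, e]
  · rfl

theorem vi_xor_lit {g w : ℕ} (hg : g < 256) (hw : w < 256) (p : ℕ) :
    g ^^^ (w + p * 256) = (g ^^^ w) + p * 256 := by
  refine Nat.eq_of_testBit_eq fun v => ?_
  rw [Nat.testBit_xor, LA.testBit_lit hw, LA.testBit_lit (Nat.xor_lt_two_pow (n := 8) hg hw)]
  split_ifs with hv
  · rw [Nat.testBit_xor]
  · rw [LA.testBit_of_lt (w := 8) hg (not_lt.mp hv), Bool.false_xor]

theorem vi_bit_hi {a b v : ℕ} (h : a / 4096 = b / 4096) (hv : 12 ≤ v) :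
    a.testBit v = b.testBit v := by
  obtain ⟨d, rfl⟩ := Nat.exists_eq_add_of_le hv
  rw [add_comm, ← Nat.testBit_div_two_pow, ← Nat.testBit_div_two_pow]
  exact congrArg (fun x => x.testBit d) h

theorem vi_slot0 (g : ℕ) : g.mul 2 = 2 * g + false.toNat := by
  simp only [Nat.mul_eq, Bool.toNat_false]
  omega

theorem vi_slot1 (g : ℕ) : (g.mul 2).add 1 = 2 * g + true.toNat := by
  simp only [Nat.mul_eq, Nat.add_eq, Bool.toNat_true]
  omega

theorem vi_sel_beq (a b u v : ℕ) : sel (a.beq b) u v = if a = b then u else v := by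
  rw [sel_eq]
  simp only [Nat.beq_eq]

theorem vi_repl (W : WS n C) {g w : ℕ} (p : Bool) (hw : w < 256)
    (hg : (absS n C L M o h pe rem ad t el rw).AG g) {C1 M1 : ℕ}
    (hi : ∀ r < 256, qr C1 r / 4096 = qr C r / 4096)
    (lo : ∀ r < 256, qr C1 r % 256 = if r = w then
      sat (qr C w % 256 + (absS n C L M o h pe rem ad t el rw).ub g) else qr C r % 256)
    (sd : ∀ r < 256, (if r = w then min (qr C w / 2 ^ 8 % 16) (qr C g / 2 ^ 8 % 16)
      else qr C r / 2 ^ 8 % 16) ≤ qr C1 r / 2 ^ 8 % 16)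
    (hM : ∀ j < 128, ∀ v < 64, ((ln M j).testBit v || ((ln M j).testBit g &&
      (absS n C L M o h pe rem ad t el rw).may w v)) = true → (ln M1 j).testBit v = true) :
    WS n (kill (dc2 C1 L g) g) ∧ SLe ((absS n C L M o h pe rem ad t el rw).repl g w p)
      (absS n (kill (dc2 C1 L g) g) (rL L g ((g ^^^ w) + p.toNat * 256)) M1 (sel (o.beq g) w o)
        h pe (rem.add 1) ad t el rw) := by
  have hn := W.n61
  have hgn : g < n := hg.1
  have hg64 : g < 64 := by omega
  have hal : (qr C g).testBit 18 = true := hg.2.1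
  have hga : (qr C g).testBit 17 = true := hg.2.2
  have d1 : ∀ r < 256, qr (dc2 C1 L g) r / 256 = qr C1 r / 256 := fun r hr => by
    unfold dc2
    rw [vi_dcr_hi _ (rf_lt _ _) hr, vi_dcr_hi _ (rf_lt _ _) hr]
  have d2 : ∀ r < 256, qr (dc2 C1 L g) r / 4096 = qr C r / 4096 := fun r hr => by
    have := d1 r hr
    have := hi r hr
    omega
  have k1 : ∀ r < 256, r ≠ g → qr (kill (dc2 C1 L g) g) r / 4096 = qr C r / 4096 :=
    fun r hr e => by rw [vi_kill _ hg64 hr, if_neg e, d2 r hr]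
  have k2 : (qr (kill (dc2 C1 L g) g) g).testBit 18 = false := by
    rw [vi_kill _ hg64 (by omega), if_pos rfl, Nat.testBit_xor,
      vi_bit_hi (d2 g (by omega)) (by norm_num), hal, Nat.testBit_two_pow_self]
    rfl
  have k3 : ∀ r < 256, qr (kill (dc2 C1 L g) g) r % 256 =
      ((absS n C L M o h pe rem ad t el rw).repl g w p).c r := fun r hr => by
    have e1 : qr (kill (dc2 C1 L g) g) r % 256 = qr (dc2 C1 L g) r % 256 := by
      have := vi_kill_lo (dc2 C1 L g) hg64 hr
      omega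
    rw [e1]
    change _ = (if (qr C g).testBit 17 = true then _ else _ : ℕ → ℕ) r
    rw [if_pos hga]
    unfold dc2
    rw [vi_dcr_lo _ (rf_lt _ _) hr, vi_dcr_lo _ (rf_lt _ _) hr,
      vi_dcr_lo _ (rf_lt _ _) (rf_lt _ _), lo r hr, lo _ (rf_lt _ _), lo _ (rf_lt _ _),
      vi_slot1, vi_slot0, vi_rf, vi_rf]
    rfl
  have hAl : ∀ u, ((absS n C L M o h pe rem ad t el rw).repl g w p).Alive u →
      u < 256 ∧ u ≠ g := fun u hu => by
    have h1 : u < n := hu.1
    refine ⟨by omega, fun e => ?_⟩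
    have h2 : (if u = g then false else _) = true := hu.2
    rw [if_pos e] at h2
    exact Bool.false_ne_true h2
  have hv : (g ^^^ w) + p.toNat * 256 < 512 := by
    have h1 : g ^^^ w < 256 := Nat.xor_lt_two_pow (n := 8) (by omega) hw
    have := Bool.toNat_le p
    omega
  have hx : g ^^^ w < 256 := Nat.xor_lt_two_pow (n := 8) (by omega) hw
  refine ⟨⟨hn, fun r hr e => ?_, ?_⟩, ⟨rfl, fun u hu => ?_, fun u hu => ?_, fun u hu => ?_,
    fun u hu => ?_, fun u _ => rfl, fun u hu => ?_, fun u hu => ?_, fun r hr => ?_,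
    fun r hr => ?_, fun u hu i => ?_, fun r hr v hv e => ?_, vi_sel_beq _ _ _ _, rfl, ?_⟩⟩
  · by_cases e' : r = g
    · omega
    · rw [vi_bit_hi (k1 r hr e') (by norm_num)] at e
      exact W.al r hr e
  · have e1 : qr (kill (dc2 C1 L g) g) 192 % 256 = qr (dc2 C1 L g) 192 % 256 := by
      have := vi_kill_lo (dc2 C1 L g) (r := 192) hg64 (by norm_num)
      omega
    have e2 : qr C1 192 % 256 = 60 := by
      rw [lo 192 (by norm_num)]
      split_ifs with e
      · rw [← e, W.c]
        unfold sat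
        omega
      · exact W.c
    have e3 : ∀ C2 r, r < 256 → qr C2 192 % 256 = 60 → qr (dcr C2 r) 192 % 256 = 60 :=
      fun C2 r hr e => by
        rw [vi_dcr_lo _ hr (by norm_num)]
        split_ifs with e'
        · rw [← e', e]
          rfl
        · exact e
    rw [e1]
    exact e3 _ _ (rf_lt _ _) (e3 _ _ (rf_lt _ _) e2)
  · change (qr _ u).testBit 18 = if u = g then false else (qr C u).testBit 18
    split_ifs with e
    · rw [e, k2]
    · exact vi_bit_hi (k1 u (by omega) e) (by norm_num)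
  · exact vi_bit_hi (k1 u (hAl u hu).1 (hAl u hu).2) (by norm_num)
  · exact vi_bit_hi (k1 u (hAl u hu).1 (hAl u hu).2) (by norm_num)
  · exact vi_bit_hi (k1 u (hAl u hu).1 (hAl u hu).2) (by norm_num)
  · have := k1 u (hAl u hu).1 (hAl u hu).2
    change qr _ u / 2 ^ 12 % 16 = qr C u / 2 ^ 12 % 16
    omega
  · have := k1 u (hAl u ⟨hu.1, hu.2.1⟩).1 (hAl u ⟨hu.1, hu.2.1⟩).2
    change qr _ u / 2 ^ 20 % 4 = qr C u / 2 ^ 20 % 4
    omega
  · exact Or.inl (k3 r (by omega))
  · have h1 := sd r (by omega)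
    have h2 := d1 r (by omega)
    have h3 := vi_kill_lo (dc2 C1 L g) (r := r) hg64 (by omega)
    refine le_trans h1 ?_
    change qr C1 r / 2 ^ 8 % 16 ≤ qr _ r / 2 ^ 8 % 16
    omega
  · have h1 : u < n := hu.1
    have h2 : u < 64 := by omega
    have h3 : 2 * u + i.toNat < 128 := by
      have := Bool.toNat_le i
      omega
    change ln _ (2 * u + i.toNat) % 256 =
      (if u < 64 ∧ ln L (2 * u + i.toNat) % 256 = g then w else ln L (2 * u + i.toNat) % 256) ∧
      (ln _ (2 * u + i.toNat)).testBit 8 = ((ln L (2 * u + i.toNat)).testBit 8 ^^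
        (decide (u < 64 ∧ ln L (2 * u + i.toNat) % 256 = g) && p))
    rw [ln_rL (by omega) hv h3]
    by_cases e : ln L (2 * u + i.toNat) % 256 = g
    · rw [if_pos e, if_pos ⟨h2, e⟩, show 256 = 2 ^ 8 from rfl, Nat.xor_mod_two_pow,
        Nat.testBit_xor, show 2 ^ 8 = 256 from rfl, e, Nat.add_mul_mod_self_right,
        Nat.mod_eq_of_lt hx, ← Nat.xor_assoc, Nat.xor_self, Nat.zero_xor, LA.testBit_lit hx]
      refine ⟨rfl, ?_⟩
      cases p <;> simp [h2]
    · rw [if_neg e, if_neg fun e' => e e'.2]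
      simp [e]
  · by_cases h1 : 64 ≤ r ∧ r < 192
    · rw [vi_may_mid h1.1 h1.2]
      refine hM (r - 64) (by omega) v hv ?_
      have e' : ((absS n C L M o h pe rem ad t el rw).may r v || (decide (64 ≤ r ∧ r < 192) &&
        (absS n C L M o h pe rem ad t el rw).may r g &&
        (absS n C L M o h pe rem ad t el rw).may w v)) = true := e
      rw [vi_may_mid h1.1 h1.2, vi_may_mid h1.1 h1.2, decide_eq_true h1, Bool.true_and] at e'
      exact e'
    · have e' : ((absS n C L M o h pe rem ad t el rw).may r v || (decide (64 ≤ r ∧ r < 192) &&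
        (absS n C L M o h pe rem ad t el rw).may r g &&
        (absS n C L M o h pe rem ad t el rw).may w v)) = true := e
      rw [decide_eq_false h1, Bool.false_and, Bool.false_and, Bool.or_false] at e'
      change (if r < 64 then _ else if r < 192 then _ else _) = true at e' ⊢
      split_ifs at e' ⊢
      · exact e'
      · omega
      · exact e'
  · refine ⟨?_, rfl, ?_, ?_, rfl⟩
    · change _ = if (qr C g).testBit 17 = true then _ else _
      rw [if_pos hga]
      rfl
    · change _ = if (qr C g).testBit 17 = true then _ else _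
      rw [if_pos hga]
      rfl
    · change _ = if (qr C g).testBit 17 = true then _ else _
      rw [if_pos hga]
      rfl

theorem vi_ln_or (M g : ℕ) (hg : g < 64) {c : ℕ} (hc : c < 2 ^ 64) {j v : ℕ} (hj : j < 128)
    (hv : v < 64) : (ln (M.lor (((M.shiftRight g).land o64).mul c)) j).testBit v =
      ((ln M j).testBit v || ((ln M j).testBit g && c.testBit v)) := by
  change (ln (M ||| (((M >>> g) &&& o64) * c)) j).testBit v = _
  rw [vi_sel, LA.tab_mul (fun j _ => LA.toNat_lt _ (by norm_num))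
    (fun j _ => LA.toNat_mul_lt _ hc), vi_testBit_ln, vi_testBit_ln, vi_testBit_ln,
    Nat.testBit_or, LA.testBit_tab (fun j _ => LA.toNat_mul_lt _ hc) j hv, LA.testBit_toNat_mul]
  simp [hj, hv, hg]

theorem vi_cUp (C M : ℕ) {g w r : ℕ} (hg : g < 64) (hw : w < 256) (hr : r < 256) :
    qr (cUp C M g w) r = if r = w then qr C w / 256 * 256 + sat (qr C w % 256 + ub C M g (cq C g))
      - (qr C w / 2 ^ 8 % 16 - qr C g / 2 ^ 8 % 16) * 256 else qr C r := by
  have e : cUp C M g w = (C.xor ((((cq C w).land 255).xor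
      (sat (((cq C w).land 255) + ub C M g (nq C g)))).shiftLeft (ps w))).sub
      (((((cq C w).shiftRight 8).land 15 - ((nq C g).shiftRight 8).land 15) * 256).shiftLeft
        (ps w)) := by
    rw [← vi_sat]
    change _ - (_ <<< (ps w + 8)) = _ - ((_ * 256) <<< ps w)
    rw [add_comm (ps w) 8, Nat.shiftLeft_add, Nat.shiftLeft_eq _ 8]
    rfl
  have h1 := vi_qr_set C hw hw (vi_sat_lt (((cq C w).land 255) + ub C M g (nq C g)))
  have h2 := vi_qr_set C hw hr (vi_sat_lt (((cq C w).land 255) + ub C M g (nq C g)))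
  rw [if_pos rfl] at h1
  rw [e]
  generalize C.xor _ = C2 at *
  rw [nq_eq C hg, vi_cq_lo C hw] at h1 h2
  rw [ps_eq hw, nq_eq C hg, vi_cq_sd C hw, vi_cq_sd C (by omega : g < 256),
    qr_sub C2 hw (by rw [h1]; omega) hr, h1, h2]
  split_ifs <;> rfl

variable {tag : ℕ} {k : KS} {y : ℕ} {s : FS} {Ck : Ckt} {V : (ℕ → Bool) → ℕ → Bool}

theorem rC_snd (hk : SndS tag k) (W : WS n C) {g : ℕ} (p : Bool)
    (hg : (absS n C L M o h pe rem ad t el rw).AG g)
    (e : rC k n C L M o h pe rem ad t el rw g p.toNat y ≠ 0) (K : Ctx s Ck V)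
    (T : (Degen s Ck).card ≤ tag)
    (G : Good ((absS n C L M o h pe rem ad t el rw).repl g 192 p) s Ck) : Win s Ck V := by
  have hn := W.n61
  have hgn : g < n := hg.1
  have H := vi_repl (C1 := C) (M1 := M.lor (((M.shiftRight g).land o64).shiftLeft 61))
    (w := 192) W p (by norm_num) hg (fun _ _ => rfl) (fun r _ => by
      split_ifs with e'
      · rw [e', W.c]
        unfold sat
        omega
      · rfl) (fun r _ => by
      split_ifs with e'
      · rw [e']
        exact min_le_left _ _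
      · exact le_rfl) (fun j hj v hv e' => by
      have e1 : ((M.shiftRight g).land o64).shiftLeft 61 =
          ((M.shiftRight g).land o64).mul (2 ^ 61) := Nat.shiftLeft_eq _ _
      have e2 : (absS n C L M o h pe rem ad t el rw).may 192 v = (2 ^ 61).testBit v := by
        rw [Nat.testBit_two_pow]
        change decide (v = 61) = _
        simp [eq_comm]
      rw [e1, vi_ln_or M g (by omega) (by norm_num) hj hv, ← e2]
      exact e')
  exact hk _ _ _ _ _ _ _ _ _ _ _ _ _ e H.1 s Ck V K T (good_sle H.2 G)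

theorem rG_snd (hk : SndS tag k) (W : WS n C) {g w : ℕ} (p : Bool) (hw : w < 256)
    (hg : (absS n C L M o h pe rem ad t el rw).AG g)
    (e : rG k n C L M o h pe rem ad t el rw g (w + p.toNat * 256) y ≠ 0) (K : Ctx s Ck V)
    (T : (Degen s Ck).card ≤ tag)
    (G : Good ((absS n C L M o h pe rem ad t el rw).repl g w p) s Ck) : Win s Ck V := by
  have hn := W.n61
  have hgn : g < n := hg.1
  have hg64 : g < 64 := by omega
  have e0 : (w + p.toNat * 256).land 255 = w := by
    change (w + p.toNat * 256) &&& (2 ^ 8 - 1) = w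
    rw [Nat.and_two_pow_sub_one_eq_mod]
    omega
  have e1 : g.xor (w + p.toNat * 256) = (g ^^^ w) + p.toNat * 256 := vi_xor_lit (by omega) hw _
  unfold rG at e
  rw [e0, e1] at e
  have hu := ub_eq (n := n) (C := C) (L := L) (M := M) (o := o) (h := h) (pe := pe) (rem := rem)
    (ad := ad) (t := t) (el := el) (rw := rw) hg64
  have hs := vi_sat_lt (qr C w % 256 + ub C M g (cq C g))
  have H := vi_repl (C1 := cUp C M g w) (M1 := M.lor (((M.shiftRight g).land o64).mul (mRow M w)))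
    W p hw hg (fun r hr => by
      rw [vi_cUp C M hg64 hw hr]
      split_ifs with e'
      · rw [e']
        omega
      · rfl) (fun r hr => by
      rw [vi_cUp C M hg64 hw hr, ← hu]
      split_ifs with e'
      · omega
      · rfl) (fun r hr => by
      rw [vi_cUp C M hg64 hw hr]
      split_ifs with e'
      · omega
      · exact le_rfl) (fun j hj v hv e' => by
      rw [vi_ln_or M g hg64 (vi_mRow_lt M w) hj hv, mRow_bit hw hv]
      exact e')
  exact hk _ _ _ _ _ _ _ _ _ _ _ _ _ e H.1 s Ck V K T (good_sle H.2 G)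

end

end Pool.Agent.Lib.MP_79d702_lc.U2.V2
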