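import Pool.Agent.Lib.MP_79d702_lc.U2.V2I
import Pool.Agent.Lib.MP_79d702_lc.U2.SimB

/-!
Operations of the simulation without truth tables.
-/

namespace Pool.Agent.Lib.MP_79d702_lc.U2.V2

variable {tag : ℕ} {k : KS} {n C L M o h pe rem ad t el rw j y : ℕ} {s : FS} {Ck : Ckt}
  {V : (ℕ → Bool) → ℕ → Bool}

section Aux

theorem j_slot (hj : j < 128) : ∃ g, ∃ i : Bool, g < 64 ∧ j = 2 * g + i.toNat := by
  obtain ⟨g, i, h, -⟩ := slot_eq j
  exact ⟨g, i, by omega, h⟩

theorem j_toNat (b : Bool) : b.toNat = 0 ∧ b = false ∨ b.toNat = 1 ∧ b = true := by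
  cases b <;> simp

section

variable (G : Good (absS n C L M o h pe rem ad t el rw) s Ck)

include G

theorem j_rf (g : ℕ) (i : Bool) :
    rf L (2 * g + i.toNat) = (absS n C L M o h pe rem ad t el rw).inp g i := by
  have _ := G
  exact rf_eq g i

theorem j_pl (g : ℕ) (i : Bool) :
    pl L (2 * g + i.toNat) = ((absS n C L M o h pe rem ad t el rw).pol g i).toNat := by
  have _ := G
  exact pl_eq g i

theorem j_sdq (j : ℕ) : sdq C (rf L j) = (absS n C L M o h pe rem ad t el rw).sd (rf L j) := by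
  have _ := G
  exact sdq_eq (rf_lt _ _)

theorem j_lit (g : ℕ) (i : Bool) : lit L (2 * g + i.toNat) =
    (absS n C L M o h pe rem ad t el rw).inp g i +
      ((absS n C L M o h pe rem ad t el rw).pol g i).toNat * 256 := by
  rw [lit_eq, j_rf G, j_pl G]

theorem j_inp_lt (g : ℕ) (i : Bool) : (absS n C L M o h pe rem ad t el rw).inp g i < 256 := by
  have _ := G
  exact Nat.mod_lt _ (by norm_num)

theorem j_AG (W : WS n C) (e : nAG (cq C (rf L j)) = 0) :
    (absS n C L M o h pe rem ad t el rw).AG (rf L j) := by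
  have _ := G
  exact (ws_nAG W (rf_lt _ _)).1 e

theorem j_AGn (W : WS n C) {g : ℕ} (hg : g < 64) (e : nAG (nq C g) = 0) :
    (absS n C L M o h pe rem ad t el rw).AG g := by
  have _ := G
  exact (ws_nAG W (by omega)).1 (nq_eq C hg ▸ e)

theorem j_UF (W : WS n C) {g : ℕ} (hg : g < 64) (e : nUF (nq C g) = 0) :
    (absS n C L M o h pe rem ad t el rw).AG g ∧ (absS n C L M o h pe rem ad t el rw).uf g = true := by
  have _ := G
  exact (ws_nUF W (by omega)).1 (nq_eq C hg ▸ e)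

theorem j_AV (W : WS n C) {g : ℕ} (hg : g < 64) (e : nAV (nq C g) = 0) :
    (absS n C L M o h pe rem ad t el rw).AV g := by
  have _ := G
  exact (ws_nAV W (by omega)).1 (nq_eq C hg ▸ e)

end

theorem j_lit_inj {a b : ℕ} {p q : Bool} (ha : a < 256) (hb : b < 256)
    (e : a + p.toNat * 256 = b + q.toNat * 256) : a = b ∧ p = q := by
  cases p <;> cases q <;> simp at e ⊢ <;> omega

theorem j_good {S S' : Sim} (G : Good S s Ck) (e : SLe S S') : Good S' s Ck := good_sle e G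

theorem j_not (b : Bool) : b.toNat.xor 1 = (!b).toNat := by
  cases b <;> rfl

theorem j_nNe {a b : ℕ} (e : sel (a.beq b) 1 0 = 0) : a ≠ b := by
  rintro rfl
  rw [sel_eq, if_pos (Nat.beq_refl a)] at e
  exact one_ne_zero e

theorem j_sel (a b c : ℕ) : sel (a.beq b) c a = if a = b then c else a := by
  rw [sel_eq]
  by_cases e : a = b
  · rw [if_pos e, if_pos (Nat.beq_eq.mpr e)]
  · rw [if_neg e, if_neg fun h' => e (Nat.eq_of_beq_eq_true h')]

theorem j_psn {g : ℕ} (hg : g < 64) : psn g = 128 * g + 24 := if_pos hg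

theorem j_one {g : ℕ} (hg : g < 64) (b : ℕ) :
    one ((g.mul 128).add (24 + b)) = (2 ^ b).shiftLeft (psn g) := by
  rw [one_eq, j_psn hg]
  show 2 ^ (g * 128 + (24 + b)) = 2 ^ b <<< (128 * g + 24)
  rw [Nat.shiftLeft_eq, ← pow_add]
  congr 1
  omega

theorem j_shl (d p : ℕ) : d.shiftLeft (p.add 8) = (d * 256).shiftLeft p := by
  show d <<< (p + 8) = (d * 256) <<< p
  rw [Nat.shiftLeft_eq, Nat.shiftLeft_eq, pow_add]
  ring

theorem j_f0 (x c : ℕ) : (x ^^^ c) % 256 = x % 256 ^^^ c % 256 := Nat.xor_mod_two_pow (n := 8)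

theorem j_fld (x c p w : ℕ) :
    (x ^^^ c) / 2 ^ p % 2 ^ w = x / 2 ^ p % 2 ^ w ^^^ c / 2 ^ p % 2 ^ w := by
  rw [Nat.xor_div_two_pow, Nat.xor_mod_two_pow]

theorem j_hi {x z : ℕ} (e : x / 2 ^ 12 = z / 2 ^ 12) (b : ℕ) :
    x.testBit (12 + b) = z.testBit (12 + b) := by
  rw [← Nat.testBit_shiftRight, ← Nat.testBit_shiftRight, Nat.shiftRight_eq_div_pow,
    Nat.shiftRight_eq_div_pow, e]

theorem j_may {g b v : ℕ} (hj : j < 128)
    (e : M.testBit (64 * j + v) = true ∨ (M.testBit (64 * j + g) = true ∧ v = b)) :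
    (M.lor (((M.shiftRight g).land o64).shiftLeft b)).testBit (64 * j + v) = true := by
  show (M ||| (((M >>> g) &&& o64) <<< b)).testBit (64 * j + v) = true
  rw [Nat.testBit_or, Bool.or_eq_true]
  refine e.imp id fun ⟨e1, e2⟩ => ?_
  subst e2
  have h1 : o64.testBit (64 * j + 0) = true := by
    rw [o64_eq, LA.testBit_tab (fun _ _ => by norm_num) j (by norm_num)]
    simp [hj]
  rw [Nat.testBit_shiftLeft, Nat.add_sub_cancel, Nat.testBit_and, Nat.testBit_shiftRight,
    add_comm g, e1]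
  simpa using h1

/-- replacement of a variable -/
theorem j_sub (hk : SndS tag k) (W : WS n C) {C0 g w b : ℕ} {p : Bool}
    (hg : (absS n C L M o h pe rem ad t el rw).AV g) (hgw : g ≠ w)
    (hw : w < 64 ∧ b = w ∧ qr C w / 2 ^ 20 % 4 ≤ 1 ∨ w = 192 ∧ b = 61)
    (c1 : ∀ r < 256, r ≠ w → qr C0 r = qr C r) (c2 : qr C0 w / 2 ^ 12 = qr C w / 2 ^ 12)
    (c3 : qr C0 w % 256 = sat (qr C w % 256 + (absS n C L M o h pe rem ad t el rw).ub g) ∨
      60 ≤ qr C0 w % 256)
    (c4 : min (qr C w / 2 ^ 8 % 16) (qr C g / 2 ^ 8 % 16) ≤ qr C0 w / 2 ^ 8 % 16)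
    (c5 : qr C0 192 % 256 = 60)
    (e : k n ((kill C0 g).xor ((2 ^ 20).shiftLeft (psn w)))
      (rL L g ((g.xor w).add (p.toNat.mul 256)))
      (M.lor (((M.shiftRight g).land o64).shiftLeft b)) (sel (o.beq g) w o) h pe rem ad (t.add 1)
      (el.add (crT (((nq C g).shiftRight 12).land 15))) rw y ≠ 0) (K : Ctx s Ck V)
    (T : (Degen s Ck).card ≤ tag)
    (G : Good ((absS n C L M o h pe rem ad t el rw).sub g w p) s Ck) : Win s Ck V := by
  have hn := W.n61
  obtain ⟨g1, g2, g3⟩ := hg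
  have g1 : g < n := g1
  have g2 : (qr C g).testBit 18 = true := g2
  have hg64 : g < 64 := by omega
  have hw256 : w < 256 := by omega
  set C' := (kill C0 g).xor ((2 ^ 20).shiftLeft (psn w)) with hC'
  have q : ∀ r < 256, qr C' r = if r = w then qr C0 w ^^^ 2 ^ 20 else
      if r = g then qr C g ^^^ 2 ^ 18 else qr C r := by
    intro r hr
    have q0 : ∀ r < 256, qr (kill C0 g) r = if r = g then qr C0 g ^^^ 2 ^ 18 else qr C0 r := by
      intro r hr
      rw [kill, show (42 : ℕ) = 24 + 18 from rfl, j_one hg64,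
        qr_xor C0 (by omega) (by norm_num) hr]
    rw [hC', qr_xor _ hw256 (by norm_num) hr, q0 w hw256, q0 r hr, if_neg hgw.symm,
      c1 g (by omega) hgw]
    split_ifs with h1 h2
    · rfl
    · rfl
    · exact c1 r hr h1
  have qb : ∀ r < 256, r ≠ g → ∀ c < 8, (qr C' r).testBit (12 + c) = (qr C r).testBit (12 + c) := by
    intro r hr hrg c hc
    rw [q r hr, if_neg hrg]
    split_ifs with h1
    · rw [Nat.testBit_xor, Nat.testBit_two_pow_of_ne (by omega), Bool.xor_false, j_hi c2, h1]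
    · rfl
  have qg : (qr C' g).testBit 18 = false := by
    rw [q g (by omega), if_neg hgw, if_pos rfl, Nat.testBit_xor, g2, Nat.testBit_two_pow_self]
    rfl
  have q0 : ∀ r < 256, qr C' r % 256 = qr C0 r % 256 := by
    intro r hr
    rw [q r hr]
    split_ifs with h1 h2
    · rw [j_f0, h1]; simp
    · rw [j_f0, c1 r hr h1, h2]; simp
    · rw [c1 r hr h1]
  have q8 : ∀ r < 256, qr C' r / 2 ^ 8 % 16 = qr C0 r / 2 ^ 8 % 16 := by
    intro r hr
    rw [q r hr]
    split_ifs with h1 h2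
    · rw [show (16 : ℕ) = 2 ^ 4 from rfl, j_fld, h1]; simp
    · rw [show (16 : ℕ) = 2 ^ 4 from rfl, j_fld, c1 r hr h1, h2]; simp
    · rw [c1 r hr h1]
  have al : ∀ u, ((absS n C L M o h pe rem ad t el rw).sub g w p).al u = true →
      u ≠ g := by
    rintro u hu rfl
    simp [Sim.sub, Sim.repl, upd] at hu
  have hx : g.xor w < 256 := Nat.xor_lt_two_pow (n := 8) (by omega) hw256
  have hp := j_toNat p
  refine hk _ _ _ _ _ _ _ _ _ _ _ _ _ e ⟨hn, fun r hr h1 => ?_, by rw [q0 _ (by norm_num), c5]⟩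
    s Ck V K T (j_good G ⟨rfl, fun u hu => ?_, fun u hu => ?_, fun u hu => ?_, fun u hu => ?_,
      fun u hu => rfl, fun u hu => ?_, fun u hu => ?_, fun r hr => ?_, fun r hr => ?_,
      fun u hu i => ?_, fun r hr v hv => ?_, j_sel o g w, rfl, ?_⟩)
  · by_cases h2 : r = g
    · omega
    · exact W.al r hr ((qb r hr h2 6 (by norm_num)).symm.trans h1)
  · show (qr C' u).testBit 18 = if u = g then false else (qr C u).testBit 18
    split_ifs with h2
    · rw [h2, qg]
    · exact qb u (by omega) h2 6 (by norm_num)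
  · exact qb u (by have : u < n := hu.1; omega) (al u hu.2) 5 (by norm_num)
  · exact qb u (by have : u < n := hu.1; omega) (al u hu.2) 7 (by norm_num)
  · exact qb u (by have : u < n := hu.1; omega) (al u hu.2) 4 (by norm_num)
  · have h1 : u < n := hu.1
    show qr C' u / 2 ^ 12 % 16 = qr C u / 2 ^ 12 % 16
    rw [q u (by omega), if_neg (al u hu.2)]
    split_ifs with h2
    · rw [show (16 : ℕ) = 2 ^ 4 from rfl, j_fld, c2, h2]; simp
    · rfl
  · have h1 : u < n := hu.1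
    show qr C' u / 2 ^ 20 % 4 = if u = w then 1 - qr C w / 2 ^ 20 % 4 else qr C u / 2 ^ 20 % 4
    rw [q u (by omega), if_neg (al u hu.2.1)]
    split_ifs with h2
    · have h3 : qr C0 w / 2 ^ 20 % 2 ^ 2 = qr C w / 2 ^ 20 % 4 := by omega
      have h4 : qr C w / 2 ^ 20 % 4 = 0 ∨ qr C w / 2 ^ 20 % 4 = 1 := by omega
      rw [show (4 : ℕ) = 2 ^ 2 from rfl, j_fld, h3, show (2 ^ 2 : ℕ) = 4 from rfl]
      rcases h4 with h4 | h4 <;> rw [h4] <;> rfl
    · rfl
  · have e1 : ((absS n C L M o h pe rem ad t el rw).sub g w p).c r = if r = w then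
        sat (qr C w % 256 + (absS n C L M o h pe rem ad t el rw).ub g) else qr C r % 256 := by
      simp only [Sim.sub, Sim.repl, g3, Bool.false_eq_true, if_false]
      rfl
    show qr C' r % 256 = _ ∨ 60 ≤ qr C' r % 256
    rw [e1, q0 r (by omega)]
    split_ifs with h2
    · rw [h2]
      exact c3
    · exact Or.inl (by rw [c1 r (by omega) h2])
  · show (if r = w then min (qr C w / 2 ^ 8 % 16) (qr C g / 2 ^ 8 % 16) else
      qr C r / 2 ^ 8 % 16) ≤ qr C' r / 2 ^ 8 % 16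
    rw [q8 r (by omega)]
    split_ifs with h2
    · rw [h2]
      exact c4
    · rw [c1 r (by omega) h2]
  · have h1 : u < n := hu.1
    have h2 : 2 * u + i.toNat < 128 := by have := j_toNat i; omega
    have h3 : (g.xor w).add (p.toNat.mul 256) = g.xor w + p.toNat * 256 := rfl
    show ln (rL _ _ _) (2 * u + i.toNat) % 256 =
        (if u < 64 ∧ ln L (2 * u + i.toNat) % 256 = g then w else ln L (2 * u + i.toNat) % 256) ∧
      (ln (rL _ _ _) (2 * u + i.toNat)).testBit 8 = ((ln L (2 * u + i.toNat)).testBit 8 ^^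
        (decide (u < 64 ∧ ln L (2 * u + i.toNat) % 256 = g) && p))
    rw [ln_rL (by omega) (by omega) h2, h3]
    by_cases h4 : ln L (2 * u + i.toNat) % 256 = g
    · rw [if_pos h4, if_pos ⟨by omega, h4⟩, decide_eq_true (⟨by omega, h4⟩ : u < 64 ∧ _ = g),
        j_f0, h4, Nat.testBit_xor, Bool.true_and,
        show (g.xor w + p.toNat * 256) % 256 = g ^^^ w by
          show _ = g.xor w
          omega, Nat.xor_xor_cancel_left]
      refine ⟨rfl, congrArg _ ?_⟩
      rw [Nat.testBit_eq_decide_div_mod_eq]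
      rcases hp with ⟨h5, h6⟩ | ⟨h5, h6⟩ <;> rw [h5, h6]
      · exact decide_eq_false (by omega)
      · exact decide_eq_true (by omega)
    · rw [if_neg h4, if_neg fun h5 => h4 h5.2, decide_eq_false fun h5 => h4 h5.2]
      simp
  · simp only [Sim.sub, Sim.repl, absS, Bool.or_eq_true, Bool.and_eq_true, decide_eq_true_eq]
    by_cases h1 : r < 64
    · simp only [h1, if_true]
      rintro (h2 | h2)
      · exact h2
      · omega
    by_cases h2 : r < 192
    · simp only [h1, h2, if_true, if_false]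
      rw [testBit_ln _ (r - 64) hv, testBit_ln (M.lor _) (r - 64) hv, testBit_ln _ _ hg64]
      intro h3
      refine j_may (by omega) (h3.imp id fun h4 => ⟨h4.1.2, ?_⟩)
      rcases hw with ⟨h5, h6, -⟩ | ⟨h5, h6⟩
      · simpa [h5, h6] using h4.2
      · simpa [h5, h6] using h4.2
    · simp only [h1, h2, if_false]
      rintro (h3 | h3)
      · exact h3
      · exact absurd h3.1.1.2 id
  · simp only [Sim.sub, Sim.repl, g3, Bool.false_eq_true, if_false]
    refine ⟨rfl, rfl, rfl, ?_, rfl⟩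
    show el + crT _ = el + cr (qr C g / 2 ^ 12 % 16)
    rw [crT_eq, nq_eq C hg64, show (15 : ℕ) = 2 ^ 4 - 1 from rfl,
      cq_field C (by omega) (by norm_num)]
    rfl

theorem j_cUp {g w : ℕ} (hg : g < 64) (hw : w < 256) {r : ℕ} (hr : r < 256) :
    qr (cUp C M g w) r = if r = w then qr C w / 256 * 256 +
      sat (qr C w % 256 + (absS n C L M o h pe rem ad t el rw).ub g) -
        (qr C w / 2 ^ 8 % 16 - qr C g / 2 ^ 8 % 16) * 256 else qr C r := by
  have e1 : (cq C w).land 255 = qr C w % 256 := by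
    have := cq_field C (p := 0) (w := 8) hw (by norm_num)
    simpa using this
  have e2 : ((cq C w).shiftRight 8).land 15 = qr C w / 2 ^ 8 % 16 :=
    cq_field C (p := 8) (w := 4) hw (by norm_num)
  have e3 : ((nq C g).shiftRight 8).land 15 = qr C g / 2 ^ 8 % 16 := by
    rw [nq_eq C hg]
    exact cq_field C (p := 8) (w := 4) (by omega) (by norm_num)
  have e4 : ub C M g (nq C g) = (absS n C L M o h pe rem ad t el rw).ub g := by
    rw [nq_eq C hg, ub_eq hg]
  simp only [cUp, e1, e2, e3, e4, ps_eq hw, j_shl]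
  generalize (absS n C L M o h pe rem ad t el rw).ub g = u
  have e5 : ((qr C w % 256).add u).sub (((qr C w % 256).add u).sub 60) =
      sat (qr C w % 256 + u) := satC_eq _
  have e6 : sat (qr C w % 256 + u) < 2 ^ 8 := by unfold sat; omega
  have e7 := xor_field (qr C w) 0 8 e6
  simp only [pow_zero, Nat.div_one, mul_one] at e7
  have e8 : (qr C w % 256).xor (sat (qr C w % 256 + u)) < 2 ^ 24 :=
    (Nat.xor_lt_two_pow (n := 8) (by omega) e6).trans (by norm_num)
  have e9 : qr C w ^^^ (qr C w % 256).xor (sat (qr C w % 256 + u)) =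
      qr C w / 256 * 256 + sat (qr C w % 256 + u) := by
    show qr C w ^^^ (qr C w % 2 ^ 8 ^^^ sat (qr C w % 256 + u)) = _
    omega
  have e10 : (qr C w / 2 ^ 8 % 16).sub (qr C g / 2 ^ 8 % 16) =
      qr C w / 2 ^ 8 % 16 - qr C g / 2 ^ 8 % 16 := rfl
  rw [e5, e10, qr_sub _ hw (by rw [qr_xor C hw e8 hw, if_pos rfl, e9]; omega) hr,
    qr_xor C hw e8 hw, if_pos rfl, e9, qr_xor C hw e8 hr]
  split_ifs <;> rfl

end Aux

theorem oCst_snd (hk : SndS tag k) (hj : j < 128) (W : WS n C)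
    (e : oCst k n C L M o h pe rem ad t el rw j y ≠ 0) (K : Ctx s Ck V)
    (T : (Degen s Ck).card ≤ tag) (G : Good (absS n C L M o h pe rem ad t el rw) s Ck) :
    Win s Ck V := by
  obtain ⟨g, i, hg, rfl⟩ := j_slot hj
  obtain ⟨e1, e2⟩ := ok_ne e
  rw [slot_shr] at e1 e2
  obtain ⟨a1, a2⟩ := lor_eq_zero.1 e1
  obtain ⟨b1, b2⟩ := j_UF G W hg a1
  obtain ⟨b3, b4⟩ := j_lit_inj (q := false) (j_inp_lt G g i) (by norm_num : 192 < 256)
    ((j_lit G g i).symm.trans (xor_eq_zero.1 a2))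
  refine rC_snd hk W false b1 e2 K T (op_sound K G (.ali g 192 false b1 .cf fun val hv => ?_))
  rw [hv.2 g b1 b2, hv.1]
  cases i <;> rw [b3, b4, hv.1] <;> simp

theorem oPas_snd (hk : SndS tag k) (hj : j < 128) (W : WS n C)
    (e : oPas k n C L M o h pe rem ad t el rw j y ≠ 0) (K : Ctx s Ck V)
    (T : (Degen s Ck).card ≤ tag) (G : Good (absS n C L M o h pe rem ad t el rw) s Ck) :
    Win s Ck V := by
  obtain ⟨g, i, hg, rfl⟩ := j_slot hj
  obtain ⟨e1, e2⟩ := ok_ne e
  rw [slot_shr] at e1 e2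
  obtain ⟨a1, a2⟩ := lor_eq_zero.1 e1
  obtain ⟨b1, b2⟩ := j_UF G W hg a1
  obtain ⟨b3, b4⟩ := j_lit_inj (q := true) (j_inp_lt G g i) (by norm_num : 192 < 256)
    ((j_lit G g i).symm.trans (xor_eq_zero.1 a2))
  rw [slot_xor, j_lit G] at e2
  refine rG_snd hk W _ (j_inp_lt G g (!i)) b1 e2 K T
    (op_sound K G (.ali g _ _ b1 (.inp _) fun val hv => ?_))
  rw [hv.2 g b1 b2]
  cases i <;> rw [b3, b4, hv.1] <;> simp

theorem oEq_snd (hk : SndS tag k) (hj : j < 128) (W : WS n C)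
    (e : oEq k n C L M o h pe rem ad t el rw j y ≠ 0) (K : Ctx s Ck V)
    (T : (Degen s Ck).card ≤ tag) (G : Good (absS n C L M o h pe rem ad t el rw) s Ck) :
    Win s Ck V := by
  obtain ⟨g, i, hg, rfl⟩ := j_slot hj
  obtain ⟨e1, e2⟩ := ok_ne e
  rw [slot_shr] at e1 e2
  obtain ⟨a1, a2⟩ := lor_eq_zero.1 e1
  obtain ⟨b1, b2⟩ := j_UF G W hg a1
  rw [slot_xor] at a2
  obtain ⟨b3, b4⟩ := j_lit_inj (j_inp_lt G g i) (j_inp_lt G g (!i))
    ((j_lit G g i).symm.trans ((xor_eq_zero.1 a2).trans (j_lit G g (!i))))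
  rw [j_lit G] at e2
  refine rG_snd hk W _ (j_inp_lt G g i) b1 e2 K T
    (op_sound K G (.ali g _ _ b1 (.inp _) fun val hv => ?_))
  rw [hv.2 g b1 b2]
  cases i <;> rw [b3, b4] <;> simp

theorem oNe_snd (hk : SndS tag k) (hj : j < 128) (W : WS n C)
    (e : oNe k n C L M o h pe rem ad t el rw j y ≠ 0) (K : Ctx s Ck V)
    (T : (Degen s Ck).card ≤ tag) (G : Good (absS n C L M o h pe rem ad t el rw) s Ck) :
    Win s Ck V := by
  obtain ⟨g, i, hg, rfl⟩ := j_slot hj
  obtain ⟨e1, e2⟩ := ok_ne e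
  rw [slot_shr] at e1 e2
  obtain ⟨a1, a2⟩ := lor_eq_zero.1 e1
  obtain ⟨b1, b2⟩ := j_UF G W hg a1
  rw [slot_xor, j_lit G, j_lit G] at a2
  have a3 : _ ^^^ _ = 256 := xor_eq_zero.1 a2
  have a4 := congrArg (· % 256) a3
  have a5 := congrArg (· / 2 ^ 8 % 2 ^ 1) a3
  have l1 := j_inp_lt G g
  simp only [j_f0, j_fld, Nat.add_mul_mod_self_right, Nat.mod_eq_of_lt (l1 _), Nat.mod_self,
    Nat.xor_eq_zero_iff] at a4 a5
  have b4 : (absS n C L M o h pe rem ad t el rw).pol g i = !(absS n C L M o h pe rem ad t el rw).pol g (!i) := by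
    have m : ∀ (x : ℕ) (b : Bool), x < 256 → (x + b.toNat * 256) / 2 ^ 8 % 2 ^ 1 = b.toNat :=
      fun x b hx => by have := j_toNat b; omega
    rw [m _ _ (l1 _), m _ _ (l1 _)] at a5
    revert a5
    cases (absS n C L M o h pe rem ad t el rw).pol g i <;>
      cases (absS n C L M o h pe rem ad t el rw).pol g (!i) <;> decide
  refine rC_snd hk W false b1 e2 K T (op_sound K G (.ali g 192 false b1 .cf fun val hv => ?_))
  rw [hv.2 g b1 b2, hv.1]
  cases i <;> rw [a4, b4] <;> simp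

theorem oDead_snd (hk : SndS tag k) (hj : j < 128) (W : WS n C)
    (e : oDead k n C L M o h pe rem ad t el rw j y ≠ 0) (K : Ctx s Ck V)
    (T : (Degen s Ck).card ≤ tag) (G : Good (absS n C L M o h pe rem ad t el rw) s Ck) :
    Win s Ck V := by
  obtain ⟨g, i, hg, rfl⟩ := j_slot hj
  obtain ⟨e1, e2⟩ := ok_ne e
  rw [slot_shr] at e1 e2
  obtain ⟨a1, a2⟩ := lor_eq_zero.1 e1
  rw [nq_eq C hg] at a2
  have b1 := j_AGn G W hg a1
  exact rC_snd hk W false b1 e2 K T (op_sound K G (.dead g b1 ((ub_eq hg).symm.trans a2)))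

theorem oFix_snd (hk : SndS tag k) (hj : j < 128) (W : WS n C)
    (e : oFix k n C L M o h pe rem ad t el rw j y ≠ 0) (K : Ctx s Ck V)
    (T : (Degen s Ck).card ≤ tag) (G : Good (absS n C L M o h pe rem ad t el rw) s Ck) :
    Win s Ck V := by
  obtain ⟨g, i, hg, rfl⟩ := j_slot hj
  obtain ⟨e1, e2⟩ := ok_ne e
  rw [slot_shr] at e1 e2
  obtain ⟨a1, a2⟩ := lor_eq_zero.1 e1
  have b1 := j_AV G W hg a1
  have a2 : t - 79 = 0 := a2
  rw [slot_land] at e2
  exact j_sub hk W (w := 192) b1 (by omega) (Or.inr ⟨rfl, rfl⟩) (fun _ _ _ => rfl) rfl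
    (Or.inr W.c.ge) (min_le_left _ _) W.c e2 K T
    (op_sound K G (.fix g i b1 (show t < 80 by omega)))

theorem oProj_snd (hk : SndS tag k) (hj : j < 128) (W : WS n C)
    (e : oProj k n C L M o h pe rem ad t el rw j y ≠ 0) (K : Ctx s Ck V)
    (T : (Degen s Ck).card ≤ tag) (G : Good (absS n C L M o h pe rem ad t el rw) s Ck) :
    Win s Ck V := by
  obtain ⟨g, i, hg, rfl⟩ := j_slot hj
  obtain ⟨e1, e2⟩ := ok_ne e
  rw [slot_shr] at e1 e2
  have hw : y.land 63 < 64 := Nat.and_lt_two_pow (n := 6) y (by norm_num)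
  generalize y.land 63 = w at e1 e2 hw
  simp only [lor_eq_zero] at e1
  obtain ⟨⟨⟨⟨a1, a2⟩, a3⟩, a4⟩, a5⟩ := e1
  have a3 : t - 79 = 0 := a3
  have b1 := j_AV G W hg a1
  have b2 := j_AV G W hw a2
  have b3 := j_nNe a5
  have bit : ∀ u < 64, ∀ c < 24, (nq C u).testBit c = (qr C u).testBit c := by
    intro u hu c hc
    have := congrArg (·.testBit 0) (cq_field C (p := c) (w := 1) (show u < 256 by omega) hc)
    rw [nq_eq C hu, Nat.testBit_eq_decide_div_mod_eq (x := qr C u)]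
    simpa using this
  have b4 : (qr C g).testBit 21 = false ∧ (qr C w).testBit 21 = false := by
    have := congrArg (·.testBit 21) (show (nq C g ||| nq C w) &&& 2 ^ 21 = 0 from a4)
    simp only [Nat.testBit_and, Nat.testBit_or, Nat.testBit_two_pow_self, Nat.zero_testBit,
      Bool.and_true, Bool.or_eq_false_iff] at this
    rwa [bit g hg _ (by norm_num), bit w hw _ (by norm_num)] at this
  have b5 : (((nq C g).xor (nq C w)).shiftRight 12).land 256 =
      ((qr C g).testBit 20 ^^ (qr C w).testBit 20).toNat.mul 256 := by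
    show ((nq C g ^^^ nq C w) >>> 12) &&& 2 ^ 8 = _ * 2 ^ 8
    rw [Nat.and_two_pow, Nat.testBit_shiftRight, Nat.testBit_xor, bit g hg _ (by norm_num),
      bit w hw _ (by norm_num)]
  have sg : ∀ x : ℕ, x.testBit 21 = false →
      x / 2 ^ 20 % 4 ≤ 1 ∧ x.testBit 20 = decide (x / 2 ^ 20 % 4 = 1) := by
    intro x hx
    rw [Nat.testBit_eq_decide_div_mod_eq, decide_eq_false_iff_not] at hx
    rw [Nat.testBit_eq_decide_div_mod_eq, decide_eq_decide]
    omega
  rw [b5, show (44 : ℕ) = 24 + 20 from rfl, j_one hw] at e2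
  have q := fun r hr => j_cUp (n := n) (C := C) (L := L) (M := M) (o := o) (h := h) (pe := pe)
    (rem := rem) (ad := ad) (t := t) (el := el) (rw := rw) (r := r) hg (show w < 256 by omega) hr
  have qw := q w (by omega)
  rw [if_pos rfl] at qw
  have hs : sat (qr C w % 256 + (absS n C L M o h pe rem ad t el rw).ub g) ≤ 60 := min_le_right _ _
  refine j_sub hk W b1 b3 (Or.inl ⟨hw, rfl, (sg _ b4.2).1⟩)
    (fun r hr h1 => by rw [q r hr, if_neg h1]) (by omega) (Or.inl (by omega)) (by omega)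
    (by rw [q 192 (by norm_num), if_neg (by omega), W.c]) e2 K T
    (op_sound K G (.proj g w _ b1 b2 b3 (show t < 80 by omega) (sg _ b4.1).1 (sg _ b4.2).1 ?_))
  rw [(sg _ b4.1).2, (sg _ b4.2).2]
  rfl

theorem oDep_snd (hk : SndS tag k) (hj : j < 128) (W : WS n C)
    (e : oDep k n C L M o h pe rem ad t el rw j y ≠ 0) (K : Ctx s Ck V)
    (T : (Degen s Ck).card ≤ tag) (G : Good (absS n C L M o h pe rem ad t el rw) s Ck) :
    Win s Ck V := by
  obtain ⟨g, i, hg, rfl⟩ := j_slot hj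
  obtain ⟨e1, e2⟩ := ok_ne e
  rw [slot_shr] at e1 e2
  have b1 := j_AGn G W hg e1
  have e3 : ((nq C g).shiftRight 8).land 15 = qr C g / 2 ^ 8 % 16 := by
    rw [nq_eq C hg]
    exact cq_field C (p := 8) (w := 4) (by omega) (by norm_num)
  have e4 : ((sdq C (rf L (2 * g + i.toNat))).add ((sdq C (rf L ((2 * g + i.toNat).xor 1))).sub
      (sdq C (rf L (2 * g + i.toNat))))) =
      max ((absS n C L M o h pe rem ad t el rw).sd ((absS n C L M o h pe rem ad t el rw).inp g false))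
        ((absS n C L M o h pe rem ad t el rw).sd ((absS n C L M o h pe rem ad t el rw).inp g true)) := by
    refine (mx_eq _ _).trans ?_
    rw [slot_xor, j_sdq G, j_sdq G, j_rf G, j_rf G]
    cases i
    · rfl
    · exact max_comm _ _
  have e5 : (g.mul 128).add 32 = (psn g).add 8 := by
    rw [j_psn hg]
    show g * 128 + 32 = 128 * g + 24 + 8
    omega
  rw [e3, e4, e5, j_shl] at e2
  have G' := op_sound K G (.dep g b1)
  unfold Sim.depG at G'
  generalize max ((absS n C L M o h pe rem ad t el rw).sd ((absS n C L M o h pe rem ad t el rw).inp g false))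
    ((absS n C L M o h pe rem ad t el rw).sd ((absS n C L M o h pe rem ad t el rw).inp g true)) = m at e2 G'
  have e6 : (qr C g / 2 ^ 8 % 16).sub (m.add 1) = qr C g / 2 ^ 8 % 16 - (m + 1) := rfl
  rw [e6] at e2
  set C' := C.sub (((qr C g / 2 ^ 8 % 16 - (m + 1)) * 256).shiftLeft (psn g)) with hC'
  have q : ∀ r < 256, qr C' r = if r = g then
      qr C g - (qr C g / 2 ^ 8 % 16 - (m + 1)) * 256 else qr C r := fun r hr =>
    qr_sub C (by omega) (by omega) hr
  have q1 : ∀ r < 256, qr C' r / 2 ^ 12 = qr C r / 2 ^ 12 ∧ qr C' r % 256 = qr C r % 256 := by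
    intro r hr
    rw [q r hr]
    split_ifs with h1
    · subst h1
      omega
    · exact ⟨rfl, rfl⟩
  have hn := W.n61
  have lt : ∀ {u}, u < n → u < 256 := fun hu => by omega
  refine hk _ _ _ _ _ _ _ _ _ _ _ _ _ e2 ⟨hn, fun r hr h1 =>
    W.al r hr ((j_hi (q1 r hr).1 6).symm.trans h1), (q1 _ (by norm_num)).2.trans W.c⟩
    s Ck V K T (j_good G' ⟨rfl, fun u hu => j_hi (q1 u (by omega)).1 6,
      fun u hu => j_hi (q1 u (lt hu.1)).1 5, fun u hu => j_hi (q1 u (lt hu.1)).1 7,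
      fun u hu => j_hi (q1 u (lt hu.1)).1 4, fun u hu => rfl,
      fun u hu => congrArg (· % 16) (q1 u (lt hu.1)).1, fun u hu => ?_,
      fun r hr => Or.inl (q1 r (by omega)).2, fun r hr => ?_, fun u hu i => ⟨rfl, rfl⟩,
      fun r hr v hv h1 => h1, rfl, rfl, rfl, rfl, rfl, rfl, rfl⟩)
  · have := (q1 u (lt hu.1)).1
    show qr C' u / 2 ^ 20 % 4 = qr C u / 2 ^ 20 % 4
    omega
  · show (if r = g then min (qr C g / 2 ^ 8 % 16) (m + 1) else qr C r / 2 ^ 8 % 16) ≤
      qr C' r / 2 ^ 8 % 16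
    rw [q r (by omega)]
    split_ifs with h1
    · omega
    · exact le_rfl

theorem oSel_snd (hk : SndS tag k) (hj : j < 128) (W : WS n C)
    (e : oSel k n C L M o h pe rem ad t el rw j y ≠ 0) (K : Ctx s Ck V)
    (T : (Degen s Ck).card ≤ tag) (G : Good (absS n C L M o h pe rem ad t el rw) s Ck) :
    Win s Ck V := by
  obtain ⟨g, i, hg, rfl⟩ := j_slot hj
  obtain ⟨e1, e2⟩ := ok_ne e
  simp only [lor_eq_zero] at e1
  obtain ⟨⟨a1, a2⟩, a3⟩ := e1
  obtain ⟨b1, b2, b3⟩ := ws_nOne W hg a1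
  have b4 := j_AG G W a2
  have a3 : sdq C _ - 9 = 0 := a3
  rw [j_sdq G] at a3
  rw [slot_xor, j_rf G] at b4 a3 e2
  rw [j_pl G, j_not] at e2
  exact rC_snd hk W _ b4 e2 K T (op_sound K G (.sel g i b1 b2 b3 b4 (by omega)))

theorem oOut_snd (hk : SndS tag k) (hj : j < 128) (W : WS n C)
    (e : oOut k n C L M o h pe rem ad t el rw j y ≠ 0) (K : Ctx s Ck V)
    (T : (Degen s Ck).card ≤ tag) (G : Good (absS n C L M o h pe rem ad t el rw) s Ck) :
    Win s Ck V := by
  obtain ⟨g, i, hg, rfl⟩ := j_slot hj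
  obtain ⟨e1, e2⟩ := ok_ne e
  simp only [lor_eq_zero, slot_shr, xor_eq_zero] at e1
  obtain ⟨⟨⟨rfl, a1⟩, a2⟩, a3⟩ := e1
  have b1 := j_AGn G W hg a1
  have b4 := j_AG G W a2
  have a3 : sdq C _ - 9 = 0 := a3
  rw [j_sdq G] at a3
  rw [j_rf G] at b4 a3 e2
  rw [j_pl G, j_not] at e2
  exact rC_snd hk W _ b4 e2 K T (op_sound K G (.outi i b1 b4 (Nat.le_of_sub_eq_zero a3)))

theorem oMrg_snd (hk : SndS tag k) (hj : j < 128) (W : WS n C)
    (e : oMrg k n C L M o h pe rem ad t el rw j y ≠ 0) (K : Ctx s Ck V)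
    (T : (Degen s Ck).card ≤ tag) (G : Good (absS n C L M o h pe rem ad t el rw) s Ck) :
    Win s Ck V := by
  obtain ⟨g, i, hg, rfl⟩ := j_slot hj
  obtain ⟨e1, e2⟩ := ok_ne e
  have hy : y.land 127 < 128 := Nat.and_lt_two_pow (n := 7) y (by norm_num)
  generalize y.land 127 = z at e1 e2 hy
  obtain ⟨g', i', hg', rfl⟩ := j_slot hy
  simp only [lor_eq_zero, slot_shr, slot_xor, xor_eq_zero] at e1
  rw [slot_shr, slot_shr] at e2
  obtain ⟨⟨⟨⟨a1, a2⟩, a3⟩, a4⟩, a5⟩ := e1
  obtain ⟨b1, b2⟩ := j_UF G W hg a1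
  obtain ⟨b3, b4⟩ := j_UF G W hg' a2
  have c1 := j_lit_inj (j_inp_lt G g i) (j_inp_lt G g' i')
    ((j_lit G g i).symm.trans (a3.trans (j_lit G g' i')))
  have c2 := j_lit_inj (j_inp_lt G g (!i)) (j_inp_lt G g' (!i'))
    ((j_lit G g (!i)).symm.trans (a4.trans (j_lit G g' (!i'))))
  have c3 : ∀ x, (absS n C L M o h pe rem ad t el rw).inp g x = (absS n C L M o h pe rem ad t el rw).inp g' (x ^^ (i ^^ i')) ∧
      (absS n C L M o h pe rem ad t el rw).pol g x = (absS n C L M o h pe rem ad t el rw).pol g' (x ^^ (i ^^ i')) := by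
    intro x
    by_cases hx : x = i
    · rw [hx, show (i ^^ (i ^^ i')) = i' by cases i <;> cases i' <;> rfl]
      exact c1
    · rw [show x = !i by revert hx; cases x <;> cases i <;> simp,
        show (!i ^^ (i ^^ i')) = !i' by cases i <;> cases i' <;> rfl]
      exact c2
  have G' := op_sound K G (.mrg g g' (i ^^ i') b1 b3 (j_nNe a5) b2 b4 c3)
  have e4 : absS n C L M o h 0 rem ad t el rw =
      { absS n C L M o h pe rem ad t el rw with pend := fun _ => false } := by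
    simp only [absS, Nat.zero_testBit]
  have G2 : Good ((absS n C L M o h 0 rem ad t el rw).repl g g' false) s Ck := by
    rw [e4]
    exact G'
  refine rG_snd hk W false (y := y.shiftRight 7) (pe := 0) (w := g') (by omega) ⟨b1.1, b1.2⟩ ?_ K T G2
  rwa [Bool.toNat_false, Nat.zero_mul, Nat.add_zero]

end Pool.Agent.Lib.MP_79d702_lc.U2.V2
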