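import Pool.Agent.Lib.MP_79d702_lc.U2.V2K1
import Pool.Agent.Lib.MP_79d702_lc.U2.SimB

/-!
Truth tables, and the operations that use them.
-/

namespace Pool.Agent.Lib.MP_79d702_lc.U2.V2

/-- a row of the truth tables that fits `val` on the leaves of the cut -/
theorem cutT_row {c : ℕ} (hc : c ≤ 8) (z : ℕ) (val : ℕ → Bool) : ∃ i < 256, ∀ r,
    ((cutT c z).shiftRight (r.mul 4)).land 15 = 0 ∨
    (((cutT c z).shiftRight (r.mul 4)).land 15 = 9 ∧ r = 192) ∨
    ((cutS c z).testBit r = true ∧ ∃ m < 8, ((cutT c z).shiftRight (r.mul 4)).land 15 = m + 1 ∧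
      i.testBit m = val r) := by
  obtain ⟨i, hi, h⟩ := k1_row hc val z
  refine ⟨i, hi.trans_le (Nat.pow_le_pow_right (by norm_num) hc : _ ≤ 2 ^ 8), fun r => ?_⟩
  rcases h r with h | h | ⟨h1, m, h2, h3⟩
  · exact Or.inl h
  · exact Or.inr (Or.inl h)
  · exact Or.inr (Or.inr ⟨h1, m, by omega, h3⟩)

/-- the stored tables: variables, the constants, and nothing else -/
theorem tVs_spec {m i : ℕ} (hi : i < 256) :
    ((tVs.shiftRight (m.mul 512)).land tM).testBit 256 = true →
      ((tVs.shiftRight (m.mul 512)).land tM).testBit i =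
        if m ≤ 8 then i.testBit (m - 1) else decide (m = 10) := by
  intro h
  by_cases hm : m < 11
  · have h1 := (allTo_iff _ _).mp k1_all m hm
    rw [h, Bool.not_true, Bool.false_or] at h1
    exact eq_of_beq ((allTo_iff _ _).mp h1 i hi)
  · have h1 : ((tVs >>> (m * 512)) &&& tM).testBit 256 = true := h
    rw [Nat.testBit_and, Nat.testBit_shiftRight, LA.testBit_of_lt k1_tVs_lt (by omega)] at h1
    simp at h1

section

variable {n C L M o h pe rem ad t el rw : ℕ}

/-- `P` is a set of references that contains the inputs of the gates that are unfolded -/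
theorem ev_snd (W : WS n C) {T i : ℕ} (hi : i < 256) {val : ℕ → Bool}
    (hv : (absS n C L M o h pe rem ad t el rw).Cons val) (P : ℕ → Prop)
    (hP : ∀ r, P r → (T.shiftRight (r.mul 4)).land 15 = 0 →
      (absS n C L M o h pe rem ad t el rw).AG r →
      ∀ b, P ((absS n C L M o h pe rem ad t el rw).inp r b))
    (hl : ∀ r, P r → (T.shiftRight (r.mul 4)).land 15 ≠ 0 →
      ((tVs.shiftRight (((T.shiftRight (r.mul 4)).land 15).mul 512)).land tM).testBit 256 = true →
      ((tVs.shiftRight (((T.shiftRight (r.mul 4)).land 15).mul 512)).land tM).testBit i = val r)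
    (fuel : ℕ) {r : ℕ} (hr : r < 256) (hp : P r) (e : (ev C L T fuel r).testBit 256 = true) :
    (ev C L T fuel r).testBit i = val r := by
  induction fuel generalizing r with
  | zero => exact absurd (show (0 : ℕ).testBit 256 = true from e) (by simp)
  | succ fuel ih =>
    have e0 : ev C L T (fuel + 1) r = sel (((T.shiftRight (r.mul 4)).land 15).beq 0)
        (ok (nUF (cq C r))
          (((ev C L T fuel (rf L (r.mul 2))).xor ((pl L (r.mul 2)).mul tF)).land
            ((ev C L T fuel (rf L ((r.mul 2).add 1))).xor ((pl L ((r.mul 2).add 1)).mul tF))))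
        ((tVs.shiftRight (((T.shiftRight (r.mul 4)).land 15).mul 512)).land tM) := rfl
    rw [e0, sel_eq] at e ⊢
    by_cases h0 : (T.shiftRight (r.mul 4)).land 15 = 0
    · rw [if_pos (Nat.beq_eq ▸ h0)] at e ⊢
      have h1 := (ok_ne fun h => by rw [h] at e; simp at e).1
      obtain ⟨hg, hu⟩ := (ws_nUF (L := L) (M := M) (o := o) (h := h) (pe := pe) (rem := rem)
        (ad := ad) (t := t) (el := el) (rw := rw) W hr).1 h1
      have a0 : r.mul 2 = 2 * r + false.toNat := Nat.mul_comm r 2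
      have a1 : (2 * r + false.toNat).add 1 = 2 * r + true.toNat := rfl
      rw [h1, ok_zero, a0, a1] at e ⊢
      have b0 := hP r hp h0 hg false
      have b1 := hP r hp h0 hg true
      rw [hv.2 r hg hu]
      rw [← rf_eq] at b0 b1
      rw [← rf_eq, ← rf_eq]
      rw [pl_eq (n := n) (C := C) (M := M) (o := o) (h := h) (pe := pe) (rem := rem)
        (ad := ad) (t := t) (el := el) (rw := rw), pl_eq (n := n) (C := C) (M := M) (o := o)
        (h := h) (pe := pe) (rem := rem) (ad := ad) (t := t) (el := el) (rw := rw)] at e ⊢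
      have e1 := (Nat.testBit_and _ _ _).symm.trans e
      refine (Nat.testBit_and _ _ _).trans ?_
      rw [k1_neg, k1_neg] at e1 ⊢
      simp only [lt_irrefl, decide_false, Bool.and_false, Bool.xor_false, Bool.and_eq_true] at e1
      rw [ih (rf_lt _ _) b0 e1.1, ih (rf_lt _ _) b1 e1.2]
      simp [hi]
    · rw [if_neg (Nat.beq_eq ▸ h0)] at e ⊢
      exact hl r hp h0 e

theorem k_path (W : WS n C) {g y : ℕ} (hg : g < 64) (k : ℕ) : path C L y g k < 256 ∧
    (path C L y g (k + 1) ≤ 254 →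
      (absS n C L M o h pe rem ad t el rw).Below g (path C L y g (k + 1))) := by
  have e0 : ∀ k, path C L y g (k + 1) = sel ((nAG (cq C (path C L y g k))).beq 0)
      (rf L (((path C L y g k).mul 2).add ((y.shiftRight k).land 1))) 255 := fun _ => rfl
  have key : ∀ k, path C L y g k < 256 → path C L y g (k + 1) ≤ 254 →
      (absS n C L M o h pe rem ad t el rw).AG (path C L y g k) ∧ ∃ i, path C L y g (k + 1) =
        (absS n C L M o h pe rem ad t el rw).inp (path C L y g k) i := by
    intro k h1 h2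
    rw [e0, sel_eq] at h2 ⊢
    split_ifs at h2 ⊢ with h3
    · obtain ⟨i, hi⟩ := k1_land1 (y.shiftRight k)
      refine ⟨(ws_nAG W h1).1 (Nat.eq_of_beq_eq_true h3), i, ?_⟩
      rw [hi, ← rf_eq]
      exact congrArg (fun x => rf L (x + i.toNat)) (Nat.mul_comm _ 2)
    · omega
  induction k with
  | zero =>
    have h0 : path C L y g 0 < 256 := hg.trans (by norm_num)
    refine ⟨h0, fun h2 => ?_⟩
    obtain ⟨_, i, hi⟩ := key 0 h0 h2
    rw [hi]
    exact .inp i
  | succ k ih =>
    have h0 : path C L y g (k + 1) < 256 := by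
      rw [e0, sel_eq]
      split_ifs
      · exact rf_lt _ _
      · norm_num
    refine ⟨h0, fun h2 => ?_⟩
    obtain ⟨h3, i, hi⟩ := key (k + 1) h0 h2
    rw [hi]
    exact .step i (ih.2 (by have := h3.1; have := W.n61; change _ < n at *; omega)) h3

theorem tgt_snd (W : WS n C) {g x : ℕ} (hg : g < 64) (e : tgt C L h pe g x ≤ 254) :
    (absS n C L M o h pe rem ad t el rw).Below g (tgt C L h pe g x) := by
  unfold tgt at e ⊢
  simp only [sel_eq] at e ⊢
  have hy : (x.shiftRight 3).land 255 < 256 := Nat.and_lt_two_pow (n := 8) _ (by norm_num)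
  generalize (x.shiftRight 3).land 255 = y at *
  split_ifs at e ⊢ with h1 h2 h3
  · exact .cf
  · obtain ⟨h4, h5⟩ := lor_eq_zero.1 (Nat.eq_of_beq_eq_true h3)
    obtain ⟨h4, h6⟩ := lor_eq_zero.1 h4
    have h7 : (qr C y).testBit 18 = true := by
      have := congrArg (·.testBit 18) (xor_eq_zero.1 h5)
      rw [cq_land C hy (by norm_num)] at this
      simpa [Nat.testBit_and, show Nat.testBit 262144 18 = true by decide] using this
    refine .pend (xor_eq_zero.1 h4) ?_ ⟨W.al y hy h7, h7⟩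
    have h8 : b1 pe y = 1 := xor_eq_zero.1 h6
    rw [b1_testBit] at h8
    show pe.testBit y = true
    cases hh : pe.testBit y
    · rw [hh] at h8; exact absurd h8 (by decide)
    · rfl
  · omega
  · obtain ⟨k, hk⟩ : ∃ k, x.land 7 = k + 1 :=
      Nat.exists_eq_succ_of_ne_zero fun h0 => h1 (by rw [h0]; rfl)
    rw [hk] at e ⊢
    exact (k_path W hg k).2 e

theorem k_ev (W : WS n C) {c : ℕ} (hc : c ≤ 8) (z : ℕ) {val : ℕ → Bool}
    (hv : (absS n C L M o h pe rem ad t el rw).Cons val) : ∃ i < 256, ∀ r < 256,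
    (ev C L (cutT c z) 12 r).testBit 256 = true → (ev C L (cutT c z) 12 r).testBit i = val r := by
  obtain ⟨i, hi, H⟩ := cutT_row hc z val
  refine ⟨i, hi, fun r hr e => ev_snd W hi hv (fun _ => True) (fun _ _ _ _ _ => trivial)
    (fun r _ h0 h1 => ?_) 12 hr trivial e⟩
  rw [tVs_spec hi h1]
  rcases H r with h | ⟨h, rfl⟩ | ⟨_, m, h2, h3, h4⟩
  · exact absurd h h0
  · rw [h, hv.1]; rfl
  · rw [h3, if_pos (by omega), ← h4]; rfl

end

variable {tag : ℕ} {k : KS} {n C L M o h pe rem ad t el rw j y : ℕ} {s : FS} {Ck : Ckt}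
  {V : (ℕ → Bool) → ℕ → Bool}

theorem oAli_snd (hk : SndS tag k) (hj : j < 128) (W : WS n C)
    (e : oAli k n C L M o h pe rem ad t el rw j y ≠ 0) (K : Ctx s Ck V)
    (T : (Degen s Ck).card ≤ tag) (G : Good (absS n C L M o h pe rem ad t el rw) s Ck) :
    Win s Ck V := by
  obtain ⟨g, p, rfl, e1, e2, -⟩ := slot_eq j
  have hg : g < 64 := by omega
  unfold oAli at e
  simp only [e1, e2] at e
  obtain ⟨h0, e⟩ := ok_ne e
  obtain ⟨h0, h5⟩ := lor_eq_zero.1 h0
  obtain ⟨h0, h4⟩ := lor_eq_zero.1 h0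
  obtain ⟨h0, h3⟩ := lor_eq_zero.1 h0
  obtain ⟨h1, h2⟩ := lor_eq_zero.1 h0
  have hw : tgt C L h pe g y ≤ 254 := Nat.sub_eq_zero_iff_le.1 h2
  have hc : (y.shiftRight 11).land 15 ≤ 8 := Nat.sub_eq_zero_iff_le.1 h3
  rw [nq_eq C hg] at h1
  have hA := (ws_nAG (L := L) (M := M) (o := o) (h := h) (pe := pe) (rem := rem)
    (ad := ad) (t := t) (el := el) (rw := rw) W (by omega : g < 256)).1 h1
  refine rG_snd hk W p (by omega) hA e K T (op_sound K G (.ali g _ p hA (tgt_snd W hg hw) ?_))
  intro val hv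
  obtain ⟨i, hi, H⟩ := k_ev W hc (y.shiftRight 15) hv
  have a1 := k1_valid h4
  have a2 : ∀ b, ((ev C L (cutT ((y.shiftRight 11).land 15) (y.shiftRight 15)) 12 g).testBit b ^^
      (ev C L (cutT ((y.shiftRight 11).land 15) (y.shiftRight 15)) 12
        (tgt C L h pe g y)).testBit b ^^ (p && decide (b < 256))) = false := fun b => by
    rw [← Nat.testBit_xor, ← k1_neg]
    exact (congrArg (·.testBit b) h5).trans (Nat.zero_testBit b)
  have a3 := a2 256
  have a4 := a2 i
  rw [a1] at a3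
  rw [H g (by omega) a1, H _ (by omega) (by simpa using a3)] at a4
  revert a4
  cases val g <;> cases val (tgt C L h pe g y) <;> cases p <;> simp [hi]

theorem oRew_snd (hk : SndS tag k) (hj : j < 128) (W : WS n C)
    (e : oRew k n C L M o h pe rem ad t el rw j y ≠ 0) (K : Ctx s Ck V)
    (T : (Degen s Ck).card ≤ tag) (G : Good (absS n C L M o h pe rem ad t el rw) s Ck) :
    Win s Ck V := by
  obtain ⟨g, i, rfl, e1, -, e2⟩ := slot_eq j
  obtain ⟨b, e3⟩ := k1_land1 y
  obtain ⟨p, e4⟩ := k1_land1 (y.shiftRight 1)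
  have hg : g < 64 := by omega
  unfold oRew at e
  simp only [e1, e2, e3, e4] at e
  obtain ⟨h0, e⟩ := ok_ne e
  obtain ⟨h0, h5⟩ := lor_eq_zero.1 h0
  obtain ⟨h0, h4⟩ := lor_eq_zero.1 h0
  obtain ⟨h0, h3⟩ := lor_eq_zero.1 h0
  obtain ⟨h1, h2⟩ := lor_eq_zero.1 h0
  have hc : (y.shiftRight 2).land 15 ≤ 8 := Nat.sub_eq_zero_iff_le.1 h3
  set S := absS n C L M o h pe rem ad t el rw with hS
  rw [nq_eq C hg] at h1
  obtain ⟨hA, hU⟩ : S.AG g ∧ S.uf g = true := (ws_nUF W (by omega : g < 256)).1 h1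
  have hB : S.AG (rf L (2 * g + i.toNat)) := (ws_nAG W (rf_lt _ _)).1 h2
  have ea : rf L (2 * g + i.toNat) = S.inp g i := rf_eq g i
  have em : rf L (((rf L (2 * g + i.toNat)).mul 2).add b.toNat) = S.inp (S.inp g i) b := by
    rw [ea]
    exact (congrArg (fun x => rf L (x + b.toNat)) (Nat.mul_comm _ 2)).trans (rf_eq _ b)
  have la : S.inp g i < 256 := ea ▸ rf_lt _ _
  have lm : S.inp (S.inp g i) b < 256 := em ▸ rf_lt _ _
  rw [em] at e h5
  rw [ea] at e hB
  have hq : ∀ r < 256,
      qr (dcr (inc C (S.inp (S.inp g i) b)) (S.inp g i)) r / 256 = qr C r / 256 ∧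
      qr (dcr (inc C (S.inp (S.inp g i) b)) (S.inp g i)) r % 256 = (S.rewire g i b p).c r := by
    intro r hr
    refine ⟨(k1_dcr _ la hr).1.trans (k1_inc C lm hr).1, ?_⟩
    rw [(k1_dcr _ la hr).2, (k1_inc C lm la).2]
    show upd _ _ _ r = upd _ _ _ r
    unfold upd
    split_ifs with h1 h2 h3
    · rfl
    · rfl
    · exact (k1_inc C lm hr).2.trans (if_pos h3)
    · exact (k1_inc C lm hr).2.trans (if_neg h3)
  have hn := W.n61
  refine hk _ _ _ _ _ _ _ _ _ _ _ _ _ e ⟨hn, fun r hr h1 => W.al r hr ?_, ?_⟩ s Ck V K T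
    (good_sle ?_ (op_sound K G (.rew g i b p hA hU hB ?_)))
  · rwa [(k1_hi (hq r hr).1).2.2.1] at h1
  · rw [(hq 192 (by norm_num)).2]
    have h1 : S.c 192 = 60 := W.c
    have h2 : S.inp g i ≠ 192 := by have := hB.1; change _ < n at this; omega
    show upd _ _ _ 192 = 60
    unfold upd
    rw [if_neg h2.symm]
    split_ifs with h3
    · rw [← h3, h1]; rfl
    · exact h1
  · have lt : ∀ u, u < n → u < 256 := fun u hu => by omega
    refine ⟨rfl, fun u hu => (k1_hi (hq u (by omega)).1).2.2.1,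
      fun u hu => (k1_hi (hq u (lt u hu.1)).1).2.1, fun u hu => (k1_hi (hq u (lt u hu.1)).1).2.2.2.1,
      fun u hu => (k1_hi (hq u (lt u hu.1)).1).1, fun _ _ => rfl,
      fun u hu => (k1_hi (hq u (lt u hu.1)).1).2.2.2.2.1,
      fun u hu => (k1_hi (hq u (lt u hu.1)).1).2.2.2.2.2.1, fun r hr => Or.inl (hq r (by omega)).2,
      fun r hr => (k1_hi (hq r (by omega)).1).2.2.2.2.2.2.ge, fun g' _ i' => ?_,
      fun _ _ _ _ h => h, rfl, rfl, rfl, rfl, rfl, rfl, rfl⟩
    have h1 := k1_set L (2 * g + i.toNat) (2 * g' + i'.toNat) lm p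
    have h2 : (2 * g' + i'.toNat = 2 * g + i.toNat) ↔ (g' = g ∧ i' = i) := by
      cases i <;> cases i' <;> simp <;> omega
    simp only [h2] at h1
    exact ⟨h1.1, h1.2.1⟩
  · intro val hv
    obtain ⟨r, hr, H⟩ := k_ev W hc (y.shiftRight 6) hv
    have a1 := k1_valid h4
    have a2 := fun x => (congrArg (·.testBit x) (xor_eq_zero.1 h5)).trans (Nat.testBit_and _ _ x)
    rw [pl_eq (n := n) (C := C) (M := M) (o := o) (h := h) (pe := pe) (rem := rem)
      (ad := ad) (t := t) (el := el) (rw := rw)] at a2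
    simp only [k1_neg] at a2
    have a3 := a2 256
    have a4 := a2 r
    rw [a1] at a3
    simp only [lt_irrefl, decide_false, Bool.and_false, Bool.xor_false, Bool.true_eq,
      Bool.and_eq_true] at a3
    rw [H g (by omega) a1, H _ lm a3.1, H _ (rf_lt _ _) a3.2] at a4
    rw [a4, ← rf_eq (n := n) (C := C) (M := M) (o := o) (h := h) (pe := pe) (rem := rem)
      (ad := ad) (t := t) (el := el) (rw := rw) g (!i)]
    simp [hr, hS]

theorem oAdd_snd (hk : SndS tag k) (hj : j < 128) (W : WS n C)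
    (e : oAdd k n C L M o h pe rem ad t el rw j y ≠ 0) (K : Ctx s Ck V)
    (T : (Degen s Ck).card ≤ tag) (G : Good (absS n C L M o h pe rem ad t el rw) s Ck) :
    Win s Ck V := by
  obtain ⟨g, pb, rfl, e1, e2, -⟩ := slot_eq j
  obtain ⟨pa, e3⟩ := k1_land1 y
  have hg : g < 64 := by omega
  unfold oAdd at e
  simp only [e1, e2, e3] at e
  obtain ⟨h0, e⟩ := ok_ne e
  obtain ⟨h0, h4⟩ := lor_eq_zero.1 h0
  obtain ⟨h0, h3⟩ := lor_eq_zero.1 h0
  obtain ⟨h1, h2⟩ := lor_eq_zero.1 h0
  have hn : n ≤ 60 := Nat.sub_eq_zero_iff_le.1 h2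
  have hu : tgt C L h pe g (y.shiftRight 1) ≤ 254 := Nat.sub_eq_zero_iff_le.1 h3
  have hw : tgt C L h pe g (y.shiftRight 12) ≤ 254 := Nat.sub_eq_zero_iff_le.1 h4
  set S := absS n C L M o h pe rem ad t el rw with hS
  have bu : S.Below g _ := tgt_snd W hg hu
  have bw : S.Below g _ := tgt_snd W hg hw
  generalize tgt C L h pe g (y.shiftRight 1) = u at *
  generalize tgt C L h pe g (y.shiftRight 12) = w at *
  rw [nq_eq C hg] at h1
  have hA : S.AG g := (ws_nAG W (by omega : g < 256)).1 h1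
  have f1 : (n.mul 128).add 24 = psn n := by
    unfold psn; rw [if_pos (by omega)]; exact congrArg (· + 24) (Nat.mul_comm _ _)
  have f2 : n.mul 128 = (n.mul 2).mul 64 := (Nat.mul_assoc n 2 64).symm
  have f3 : (((n.mul 2).mul 64).add 64) = ((n.mul 2).add 1).mul 64 := (Nat.succ_mul _ _).symm
  have f4 : n.mul 2 = 2 * n := Nat.mul_comm _ _
  rw [f1, nq_eq C (by omega : n < 64), cq_land C (by omega) (by norm_num), f2, f3, f4,
    ← (k1_set L (2 * n) ((2 * n).add 1) (by omega : u < 256) pa).2.2 (Nat.succ_ne_self _)] at e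
  have hx : (qr C n &&& 1048575).xor 986880 < 2 ^ 24 :=
    Nat.xor_lt_two_pow (Nat.and_lt_two_pow _ (by norm_num)) (by norm_num)
  have h0 : ∀ r < 256, qr (C.xor (((qr C n &&& 1048575).xor 986880).shiftLeft (psn n))) r =
      if r = n then qr C n / 1048576 * 1048576 + 986880 else qr C r := fun r hr => by
    rw [qr_xor C (by omega) hx hr]
    split_ifs
    · have := xor_field (qr C n) 0 20 (v := 986880) (by norm_num)
      rw [← Nat.and_two_pow_sub_one_eq_mod] at this
      simp only [pow_zero, Nat.div_one, mul_one] at this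
      rw [Nat.and_two_pow_sub_one_eq_mod] at this
      have e2 : qr C n &&& 1048575 = qr C n % 2 ^ 20 := Nat.and_two_pow_sub_one_eq_mod _ 20
      rw [e2]
      change qr C n ^^^ (qr C n % 2 ^ 20 ^^^ 986880) = _
      omega
    · rfl
  generalize C.xor (((qr C n &&& 1048575).xor 986880).shiftLeft (psn n)) = C1 at e h0
  have c0 : ∀ r < 256, qr C1 r % 256 = upd S.c n 0 r := fun r hr => by
    rw [h0 r hr]
    unfold upd
    split_ifs
    · omega
    · rfl
  have c1 : ∀ r < 256, qr (inc C1 u) r % 256 =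
      upd (upd S.c n 0) u (sat (upd S.c n 0 u + 1)) r := fun r hr => by
    rw [(k1_inc C1 (by omega : u < 256) hr).2, c0 u (by omega)]
    show upd _ _ _ r = upd _ _ _ r
    by_cases h1 : r = u
    · exact (if_pos h1).trans (if_pos h1).symm
    · exact (if_neg h1).trans ((c0 r hr).trans (if_neg h1).symm)
  have hq : ∀ r < 256, qr (inc (inc C1 u) w) r / 256 = qr C1 r / 256 ∧
      qr (inc (inc C1 u) w) r % 256 = (S.addG g u pa w pb).c r := by
    intro r hr
    refine ⟨(k1_inc _ (by omega : w < 256) hr).1.trans (k1_inc C1 (by omega : u < 256) hr).1, ?_⟩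
    rw [(k1_inc _ (by omega : w < 256) hr).2, c1 w (by omega)]
    show upd _ _ _ r = upd _ _ _ r
    by_cases h1 : r = w
    · exact (if_pos h1).trans (if_pos h1).symm
    · exact (if_neg h1).trans ((c1 r hr).trans (if_neg h1).symm)
  have hb : ∀ r < 256, (qr (inc (inc C1 u) w) r).testBit 16 = upd S.dex n true r ∧
      (qr (inc (inc C1 u) w) r).testBit 17 = upd S.gate n true r ∧
      (qr (inc (inc C1 u) w) r).testBit 18 = upd S.al n true r ∧
      (qr (inc (inc C1 u) w) r).testBit 19 = upd S.uf n true r ∧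
      qr (inc (inc C1 u) w) r / 2 ^ 12 % 16 = upd S.dlo n 0 r ∧
      (r ≠ n → qr (inc (inc C1 u) w) r / 2 ^ 20 % 4 = S.sg r) ∧
      qr (inc (inc C1 u) w) r / 2 ^ 8 % 16 = upd S.sd n 15 r := fun r hr => by
    obtain ⟨a1, a2, a3, a4, a5, a6, a7⟩ := k1_hi (hq r hr).1
    rw [a1, a2, a3, a4, a5, a6, a7, h0 r hr]
    unfold upd
    split_ifs with h1
    · simp only [Nat.testBit_eq_decide_div_mod_eq, decide_eq_true_eq]
      omega
    · exact ⟨rfl, rfl, rfl, rfl, rfl, fun _ => rfl, rfl⟩
  refine hk _ _ _ _ _ _ _ _ _ _ _ _ _ e ⟨Nat.succ_le_succ hn, fun r hr h1 => ?_, ?_⟩ s Ck V K T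
    (good_sle ?_ (op_sound K G (.add g u pa w pb hA (Nat.lt_succ_of_le hn) bu bw)))
  · rw [(hb r hr).2.2.1] at h1
    by_cases h2 : r = n
    · exact h2 ▸ Nat.lt_succ_self _
    · exact Nat.lt_succ_of_lt (W.al r hr ((if_neg h2).symm.trans h1))
  · rw [(hq 192 (by norm_num)).2]
    have h1 : upd S.c n 0 192 = 60 := (if_neg (by omega)).trans W.c
    have h2 : upd (upd S.c n 0) u (sat (upd S.c n 0 u + 1)) 192 = 60 := by
      by_cases h3 : 192 = u
      · subst h3; rw [h1]; exact if_pos rfl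
      · exact (if_neg h3).trans h1
    by_cases h3 : 192 = w
    · subst h3
      show sat (upd (upd S.c n 0) u (sat (upd S.c n 0 u + 1)) 192 + 1) = 60
      rw [h2]
      rfl
    · exact (if_neg h3).trans h2
  · have lt : ∀ r, r < n + 1 → r < 256 := fun r hr => by omega
    refine ⟨rfl, fun r hr => (hb r (by omega)).2.2.1, fun r hr => (hb r (lt r hr.1)).2.1,
      fun r hr => (hb r (lt r hr.1)).2.2.2.1, fun r hr => (hb r (lt r hr.1)).1, fun r _ => ?_,
      fun r hr => (hb r (lt r hr.1)).2.2.2.2.1, fun r hr => (hb r (lt r hr.1)).2.2.2.2.2.1 ?_,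
      fun r hr => Or.inl (hq r (by omega)).2, fun r hr => (hb r (by omega)).2.2.2.2.2.2.ge,
      fun g' _ i' => ?_, fun r hr v hv h1 => ?_, rfl, rfl, rfl, rfl, rfl, rfl, rfl⟩
    · show ((one n) ||| (sel (h.beq g) pe 0)).testBit r =
        (decide (r = n) || (decide (h = g) && pe.testBit r))
      rw [Nat.testBit_or, testBit_one, sel_eq]
      by_cases h1 : h = g <;> simp [h1]
    · rintro rfl
      exact absurd ((if_pos rfl).symm.trans hr.2.2) (by decide)
    · have h1 := k1_set L (2 * n) (2 * g' + i'.toNat) (by omega : u < 256) pa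
      have h2 := k1_set (L.xor (((lit L (2 * n)).xor (u.add (pa.toNat.mul 256))).shiftLeft
        ((2 * n).mul 64))) ((2 * n).add 1) (2 * g' + i'.toNat) (by omega : w < 256) pb
      refine ⟨h2.1.trans ?_, h2.2.1.trans ?_⟩
      · rw [h1.1]
        show _ = upd S.inp n (fun i => if i then w else u) g' i'
        unfold upd
        by_cases h3 : g' = n
        · subst h3; cases i' <;> simp
        · rw [if_neg h3, if_neg (by cases i' <;> simp <;> omega),
            if_neg (by cases i' <;> simp <;> omega)]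
          rfl
      · rw [h1.2.1]
        show _ = upd S.pol n (fun i => if i then pb else pa) g' i'
        unfold upd
        by_cases h3 : g' = n
        · subst h3; cases i' <;> simp
        · rw [if_neg h3, if_neg (by cases i' <;> simp <;> omega),
            if_neg (by cases i' <;> simp <;> omega)]
          rfl
    · change upd S.may n (fun v => decide (v = n)) r v = true at h1
      show S.may r v = true
      by_cases h2 : r = n
      · subst h2
        exact (if_pos (by omega)).trans ((congrFun (if_pos rfl) v).symm.trans h1)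
      · exact (congrFun (if_neg h2) v).symm.trans h1

end Pool.Agent.Lib.MP_79d702_lc.U2.V2
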