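import Pool.Agent.Lib.MP_79d702_lc.U2.V2I

/-!
Truth tables: auxiliary facts.
-/

namespace Pool.Agent.Lib.MP_79d702_lc.U2.V2

open LA

theorem k1_cut0 (r : ℕ) : G 4 4 cut0 r = if r = 192 then 9 else 0 := by
  have e : cut0 = 0 ^^^ (9 <<< (192 * 4)) := by decide +kernel
  rw [e, G_xor_shl le_rfl (by norm_num)]
  simp [G]

theorem k1_row {c : ℕ} (hc : c ≤ 8) (val : ℕ → Bool) : ∀ z, ∃ i < 2 ^ c, ∀ r,
    G 4 4 (cutT c z) r = 0 ∨ (G 4 4 (cutT c z) r = 9 ∧ r = 192) ∨
    ((cutS c z).testBit r = true ∧ ∃ m < c, G 4 4 (cutT c z) r = m + 1 ∧ i.testBit m = val r) := by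
  induction c with
  | zero =>
    refine fun z => ⟨0, by norm_num, fun r => ?_⟩
    show G 4 4 cut0 r = 0 ∨ (G 4 4 cut0 r = 9 ∧ r = 192) ∨ _
    rw [k1_cut0]
    by_cases h : r = 192 <;> simp [h]
  | succ c ih =>
    intro z
    obtain ⟨i, hi, h⟩ := ih (by omega) (z >>> 8)
    have e1 : G 4 4 (cutT (c + 1) z) = upd (G 4 4 (cutT c (z >>> 8))) (z &&& 255) (c + 1) :=
      G_set (s := 4) (w := 4) (v := c + 1) le_rfl (by omega) (cutT c (z >>> 8)) (z &&& 255)
    have e2 : ∀ r, (cutS (c + 1) z).testBit r =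
        ((cutS c (z >>> 8)).testBit r || decide (r = z &&& 255)) := fun r => by
      rw [← testBit_one]
      exact Nat.testBit_or _ _ _
    refine ⟨2 ^ c * (val (z &&& 255)).toNat + i, ?_, fun r => ?_⟩
    · have := Bool.toNat_le (val (z &&& 255))
      rw [pow_succ]
      nlinarith
    · rw [e1, e2]
      unfold upd
      split_ifs with hr
      · refine Or.inr (Or.inr ⟨by simp [hr], c, by omega, rfl, ?_⟩)
        rw [Nat.testBit_two_pow_mul_add _ hi, hr]
        cases val (z &&& 255) <;> simp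
      · rcases h r with h | h | ⟨h1, m, h2, h3, h4⟩
        · exact Or.inl h
        · exact Or.inr (Or.inl h)
        · refine Or.inr (Or.inr ⟨by simp [h1], m, by omega, h3, ?_⟩)
          rw [Nat.testBit_two_pow_mul_add _ hi, if_pos h2, h4]

theorem k1_all : allTo (fun m => !((tVs.shiftRight (m.mul 512)).land tM).testBit 256 ||
    allTo (fun i => ((tVs.shiftRight (m.mul 512)).land tM).testBit i ==
      if m ≤ 8 then i.testBit (m - 1) else decide (m = 10)) 256) 11 = true := by decide +kernel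

theorem k1_tVs_lt : tVs < 2 ^ 5632 := by decide +kernel

theorem k1_tF : tF = 2 ^ 256 - 1 := by decide +kernel

theorem k1_tE : tE = 2 ^ 256 := by decide +kernel

theorem k1_neg (a : ℕ) (p : Bool) (i : ℕ) :
    (a.xor (p.toNat.mul tF)).testBit i = (a.testBit i ^^ (p && decide (i < 256))) := by
  show (a ^^^ p.toNat * tF).testBit i = _
  rw [Nat.testBit_xor, testBit_toNat_mul, k1_tF, Nat.testBit_two_pow_sub_one]

theorem k1_valid {a : ℕ} (h : (a.land tE).xor tE = 0) : a.testBit 256 = true := by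
  have h1 : (a &&& tE).testBit 256 = tE.testBit 256 := congrArg (·.testBit 256) (xor_eq_zero.1 h)
  rw [Nat.testBit_and, k1_tE, Nat.testBit_two_pow_self] at h1
  simpa using h1

theorem k1_land1 (y : ℕ) : ∃ p : Bool, y.land 1 = p.toNat := by
  obtain ⟨_, i, _, _, h, _⟩ := slot_eq y
  exact ⟨i, h⟩

theorem k1_hi {a b : ℕ} (h : a / 256 = b / 256) : a.testBit 16 = b.testBit 16 ∧
    a.testBit 17 = b.testBit 17 ∧ a.testBit 18 = b.testBit 18 ∧ a.testBit 19 = b.testBit 19 ∧
    a / 2 ^ 12 % 16 = b / 2 ^ 12 % 16 ∧ a / 2 ^ 20 % 4 = b / 2 ^ 20 % 4 ∧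
    a / 2 ^ 8 % 16 = b / 2 ^ 8 % 16 := by
  simp only [Nat.testBit_eq_decide_div_mod_eq, decide_eq_decide]
  omega

theorem k1_inc (C : ℕ) {r r' : ℕ} (hr : r < 256) (hr' : r' < 256) :
    qr (inc C r) r' / 256 = qr C r' / 256 ∧
    qr (inc C r) r' % 256 = upd (fun x => qr C x % 256) r (sat (qr C r % 256 + 1)) r' := by
  rw [qr_inc hr hr']
  unfold upd sat
  split_ifs with h
  · subst h; omega
  · exact ⟨rfl, rfl⟩

theorem k1_dcr (C : ℕ) {r r' : ℕ} (hr : r < 256) (hr' : r' < 256) :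
    qr (dcr C r) r' / 256 = qr C r' / 256 ∧
    qr (dcr C r) r' % 256 = upd (fun x => qr C x % 256) r (dec (qr C r % 256)) r' := by
  rw [qr_dcr hr hr']
  unfold upd dec
  split_ifs with h
  · subst h; omega
  · subst h; omega
  · exact ⟨rfl, rfl⟩

theorem k1_lit (L j : ℕ) : lit L j = G 64 9 L j := rfl

/-- overwriting the literal of the slot `j` -/
theorem k1_set (L j j' : ℕ) {m : ℕ} (hm : m < 256) (p : Bool) :
    ln (L.xor (((lit L j).xor (m.add (p.toNat.mul 256))).shiftLeft (j.mul 64))) j' % 256 =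
      (if j' = j then m else ln L j' % 256) ∧
    (ln (L.xor (((lit L j).xor (m.add (p.toNat.mul 256))).shiftLeft (j.mul 64))) j').testBit 8 =
      (if j' = j then p else (ln L j').testBit 8) ∧
    (j' ≠ j → lit (L.xor (((lit L j).xor (m.add (p.toNat.mul 256))).shiftLeft (j.mul 64))) j' =
      lit L j') := by
  have hp := Bool.toNat_le p
  have e := congrFun (G_set (s := 64) (w := 9) (v := m + p.toNat * 256) (by norm_num) (by omega)
    L j) j'
  have e2 : ∀ X i, G 64 9 X i = ln X i % 512 := fun X i => by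
    unfold G ln
    rw [Nat.and_two_pow_sub_one_eq_mod, Nat.shiftRight_eq_div_pow, mul_comm i,
      show 512 = 2 ^ 9 from rfl, Nat.mod_mod_of_dvd _ (pow_dvd_pow 2 (by norm_num))]
  change lit (L.xor (((lit L j).xor (m.add (p.toNat.mul 256))).shiftLeft (j.mul 64))) j' = _ at e
  unfold upd at e
  refine ⟨?_, ?_, fun h => by rw [e, if_neg h]; rfl⟩ <;> rw [k1_lit, e2, e2] at e <;>
    generalize ln (L.xor _) j' = A at e ⊢ <;> split_ifs at e ⊢
  · omega
  · omega
  · rw [Nat.testBit_eq_decide_div_mod_eq]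
    cases p <;> simp at e ⊢ <;> omega
  · simp only [Nat.testBit_eq_decide_div_mod_eq, decide_eq_decide]
    omega

end Pool.Agent.Lib.MP_79d702_lc.U2.V2
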