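import Pool.Agent.Lib.MP_79d702_lc.U2.V2I

/-!
The end of a simulation.
-/

namespace Pool.Agent.Lib.MP_79d702_lc.U2.V2

open LA

namespace VL

theorem n255_eq : n255 = tab 64 (fun _ => true.toNat * (2 ^ 8 - 1)) 128 := by decide +kernel

theorem m255_eq : m255 = tab 128 (fun _ => true.toNat * (2 ^ 8 - 1)) 64 := by decide +kernel

theorem m15_eq : m15 = tab 128 (fun _ => true.toNat * (2 ^ 4 - 1)) 64 := by decide +kernel

theorem o64_eq' : o64 = tab 64 (fun _ => true.toNat) 128 := o64_eq

theorem G_eq (s w a i : ℕ) : G s w a i = a / 2 ^ (s * i) % 2 ^ w := by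
  unfold G
  rw [Nat.and_two_pow_sub_one_eq_mod, Nat.shiftRight_eq_div_pow, mul_comm]

theorem tab_sub {s k : ℕ} {f g : ℕ → ℕ} (hf : ∀ j < k, f j < 2 ^ s) (h : ∀ j < k, g j ≤ f j) :
    tab s f k - tab s g k = tab s (fun j => f j - g j) k := by
  have e : tab s (fun j => f j - g j) k + tab s g k = tab s f k := by
    rw [tab_add fun j hj => by rw [Nat.sub_add_cancel (h j hj)]; exact hf j hj]
    exact tab_congr fun j hj => Nat.sub_add_cancel (h j hj)
  omega

/-- flags of the unknown inputs with positive count -/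
theorem flags (C : ℕ) : ((((C &&& n255) + n255) >>> 8) &&& o64)
    = tab 64 (fun j => (decide (G 64 8 C j ≠ 0)).toNat) 128 := by
  have hy : ∀ j, true.toNat * G 64 8 C j + true.toNat * (2 ^ 8 - 1) < 2 ^ 64 := fun j => by
    have := G_lt 64 8 C j
    simp only [Bool.toNat_true]
    omega
  rw [o64_eq', and_sel (by norm_num)]
  refine tab_congr fun j hj => ?_
  rw [Nat.testBit_shiftRight, add_comm 8, n255_eq, and_mask (by norm_num) (by norm_num),
    tab_add fun j _ => hy j, testBit_tab (fun j _ => hy j) j (by norm_num),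
    ← testBit_carry (G_lt 64 8 C j)]
  simp [hj]

theorem c_lane (C : ℕ) {j : ℕ} (hj : j < 128) : qr C (64 + j) % 256 = G 64 8 C j := by
  unfold qr psn
  rw [if_neg (by omega), if_pos (by omega), G_eq, Nat.add_sub_cancel_left]
  omega

theorem qr_bit (C : ℕ) {u p : ℕ} (hu : u < 64) (hp : p < 24) :
    (qr C u).testBit p = C.testBit (128 * u + 24 + p) := by
  unfold qr psn
  rw [if_pos hu, Nat.testBit_mod_two_pow, Nat.testBit_div_two_pow, add_comm p]
  simp [hp]

theorem cr_anti {a b : ℕ} (h : a ≤ b) : cr b ≤ cr a := by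
  unfold cr
  split_ifs <;> omega

theorem land127 (y : ℕ) : y.land 127 < 128 :=
  Nat.lt_succ_of_le (Nat.and_le_right (n := y) (m := 127))

theorem slot {j : ℕ} (hj : j < 128) : ∃ g < 64, ∃ i : Bool, j = 2 * g + i.toNat := by
  obtain ⟨g, i, e, -⟩ := slot_eq j
  exact ⟨g, by omega, i, e⟩

theorem nNe_ne {a b : ℕ} (h : nNe a b = 0) : a ≠ b := by
  rintro rfl
  unfold nNe at h
  rw [sel_eq, if_pos (Nat.beq_refl a)] at h
  exact one_ne_zero h

theorem sum_xor {V u : ℕ} (hu : u < 64) (hV : V.testBit u = true) (f : ℕ → ℕ) :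
    ∑ v ∈ Finset.range 64, (if V.testBit v then f v else 0) =
      f u + ∑ v ∈ Finset.range 64, (if (V.xor (one u)).testBit v then f v else 0) := by
  have hb : ∀ v, (V.xor (one u)).testBit v = (V.testBit v ^^ decide (v = u)) := fun v => by
    rw [← testBit_one]; exact Nat.testBit_xor _ _ _
  rw [← Finset.add_sum_erase _ _ (Finset.mem_range.2 hu),
    ← Finset.add_sum_erase _ _ (Finset.mem_range.2 hu), hb, hV]
  simp only [if_true, decide_true, Bool.xor_self, Bool.false_eq_true, if_false, zero_add]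
  congr 1
  refine Finset.sum_congr rfl fun v hv => ?_
  rw [hb, decide_eq_false (Finset.ne_of_mem_erase hv), Bool.xor_false]

section

variable {n C L M o h pe rem ad t el rw : ℕ}

theorem may_lane {j v : ℕ} (hj : j < 128) (hv : v < 64) :
    (absS n C L M o h pe rem ad t el rw).may (64 + j) v = M.testBit (64 * j + v) := by
  change (if 64 + j < 64 then _ else if 64 + j < 192 then (ln M (64 + j - 64)).testBit v else _) = _
  rw [if_neg (by omega), if_pos (by omega), Nat.add_sub_cancel_left, testBit_ln M j hv]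

theorem lossA_eq : lossA C M = (absS n C L M o h pe rem ad t el rw).lossA := by
  change ((((M >>> 62) &&& ((((C &&& n255) + n255) >>> 8) &&& o64)) * 97)
    + ((((M >>> 62) ||| (M >>> 63)) &&& ((((C &&& n255) + n255) >>> 8) &&& o64)) * 3))
    % (2 ^ 64 - 1) = _
  have hz : ∀ b b' : Bool, b.toNat * 97 + b'.toNat * 3 < 256 := by decide
  rw [flags, and_sel (by norm_num), and_sel (by norm_num),
    tab_mul (fun j _ => toNat_lt _ (by norm_num)) (fun j _ => toNat_mul_lt _ (by norm_num)),
    tab_mul (fun j _ => toNat_lt _ (by norm_num)) (fun j _ => toNat_mul_lt _ (by norm_num)),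
    tab_add fun j _ => (hz _ _).trans (by norm_num),
    tab_mod (fun j _ => (hz _ _).trans (by norm_num))]
  · unfold Sim.lossA
    rw [Finset.sum_Ico_eq_sum_range]
    refine Finset.sum_congr rfl fun j hj => ?_
    have hj' : j < 128 := Finset.mem_range.1 hj
    rw [may_lane hj' (by norm_num), may_lane hj' (by norm_num), Nat.testBit_or,
      Nat.testBit_shiftRight, Nat.testBit_shiftRight, add_comm 62, add_comm 63]
    change _ = if 0 < qr C (64 + j) % 256 then _ else _
    rw [c_lane C hj']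
    by_cases h0 : G 64 8 C j = 0
    · simp [h0]
    · have h2 : 0 < G 64 8 C j := Nat.pos_of_ne_zero h0
      cases M.testBit (64 * j + 62) <;> cases M.testBit (64 * j + 63) <;> simp [h0, h2]
  · refine (Finset.sum_le_card_nsmul _ _ 256 fun r _ => (hz _ _).le).trans_lt ?_
    rw [Finset.card_range]
    norm_num

theorem dlo_q {u : ℕ} (hu : u < 64) :
    ((nq C u).shiftRight 12).land 15 = (absS n C L M o h pe rem ad t el rw).dlo u := by
  rw [nq_eq C hu]
  exact cq_field C (p := 12) (w := 4) (by omega) (by norm_num)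

theorem hi_eq {u : ℕ} (hu : u < 64) : hi C M u = (absS n C L M o h pe rem ad t el rw).hi u := by
  have e1 : (nq C u).land 255 = (absS n C L M o h pe rem ad t el rw).c u := by
    rw [nq_eq C hu, cq_land C (by omega) (by norm_num)]
    exact Nat.and_two_pow_sub_one_eq_mod _ 8
  have e2 : ((nq C u).land 65536).beq 0 = !(absS n C L M o h pe rem ad t el rw).dex u := by
    rw [nq_eq C hu, cq_land C (by omega) (by norm_num)]
    change (qr C u &&& 2 ^ 16).beq 0 = !(qr C u).testBit 16
    rw [Nat.and_two_pow]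
    cases (qr C u).testBit 16 <;> rfl
  change sel (((nq C u).land 65536).beq 0)
    (sel ((((nq C u).land 255) + ext C M u).ble (((nq C u).shiftRight 12).land 15))
      (crT (((nq C u).shiftRight 12).land 15)) 0) (crT (((nq C u).land 255) + ext C M u)) = _
  have e3 : ((nq C u).shiftRight 12).land 15 = (absS n C L M o h pe rem ad t el rw).dlo u :=
    dlo_q hu
  have e4 : ext C M u = (absS n C L M o h pe rem ad t el rw).ext u := ext_eq hu
  rw [e1, e2, e3, e4, crT_eq, crT_eq, sel_eq, sel_eq]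
  unfold Sim.hi
  cases (absS n C L M o h pe rem ad t el rw).dex u <;> simp

theorem rest {V u : ℕ} (hV : V < 2 ^ 64) (e : nRest C M V = 0) (hu : u < 64)
    (hb : V.testBit u = true) : cr ((absS n C L M o h pe rem ad t el rw).dlo u) ≤
      (absS n C L M o h pe rem ad t el rw).hi u := by
  obtain ⟨e1, e2⟩ := lor_eq_zero.1 e
  have h1 : (absS n C L M o h pe rem ad t el rw).ext u = 0 := by
    change ((((((C &&& n255) + n255) >>> 8) &&& o64) * V) &&& M) = 0 at e1
    rw [flags, tab_mul (fun j _ => toNat_lt _ (by norm_num))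
      (fun j _ => toNat_mul_lt _ hV)] at e1
    unfold Sim.ext
    rw [Finset.sum_Ico_eq_sum_range]
    refine Finset.sum_eq_zero fun j hj => ?_
    have hj' : j < 128 := Finset.mem_range.1 hj
    have h2 := congrArg (fun z => z.testBit (64 * j + u)) e1
    simp only [Nat.zero_testBit] at h2
    rw [Nat.testBit_and, testBit_tab (fun j _ => toNat_mul_lt _ hV) j hu, testBit_toNat_mul,
      hb] at h2
    rw [may_lane hj' hu]
    change (if _ then qr C (64 + j) % 256 else 0) = 0
    rw [c_lane C hj']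
    split_ifs with h3
    · simpa [h3, hj'] using h2
    · rfl
  have h2 : (absS n C L M o h pe rem ad t el rw).c u ≤
      (absS n C L M o h pe rem ad t el rw).dlo u := by
    have h3 := congrArg (fun z => z.testBit u) e2
    simp only [Nat.zero_testBit] at h3
    have h4 := (Nat.testBit_and _ _ _).symm.trans h3
    rw [hb, Bool.true_and, testBit_cmp'] at h4
    have hy : ∀ j, true.toNat * G 128 8 (C >>> 24) j + true.toNat * (2 ^ 8 - 1) < 2 ^ 128 :=
      fun j => by
        have := G_lt 128 8 (C >>> 24) j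
        simp only [Bool.toNat_true]
        omega
    change (decide (u < 64) && (((((C >>> 24) &&& m255) + m255) - ((C >>> 36) &&& m15)) >>> 8).testBit
      (128 * u)) = false at h4
    rw [Nat.testBit_shiftRight, add_comm 8, m255_eq, m15_eq, and_mask (by norm_num) (by norm_num),
      and_mask (by norm_num) (by norm_num), tab_add fun j _ => hy j,
      tab_sub (fun j _ => hy j) fun j _ => by
        have := G_lt 128 4 (C >>> 36) j
        simp only [Bool.toNat_true]
        omega,
      testBit_tab (fun j _ => (Nat.sub_le _ _).trans_lt (hy j)) u (by norm_num),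
      decide_eq_true hu, Bool.true_and, Bool.true_and, Nat.testBit_eq_decide_div_mod_eq,
      decide_eq_false_iff_not, G_eq, G_eq] at h4
    have a1 : C >>> 24 / 2 ^ (128 * u) = C / 2 ^ (128 * u + 24) := by
      rw [Nat.shiftRight_eq_div_pow, Nat.div_div_eq_div_mul, ← pow_add, add_comm]
    have a2 : C >>> 36 / 2 ^ (128 * u) = C / 2 ^ (128 * u + 24) / 2 ^ 12 := by
      rw [Nat.shiftRight_eq_div_pow, Nat.div_div_eq_div_mul, Nat.div_div_eq_div_mul, ← pow_add,
        ← pow_add, add_comm]
    rw [a1, a2] at h4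
    change qr C u % 256 ≤ qr C u / 2 ^ 12 % 16
    unfold qr psn
    rw [if_pos hu]
    generalize C / 2 ^ (128 * u + 24) = z at h4 ⊢
    have b1 : z % 2 ^ 24 % 256 = z % 2 ^ 8 := by omega
    have b2 : z % 2 ^ 24 / 2 ^ 12 % 16 = z / 2 ^ 12 % 2 ^ 4 := by omega
    have b3 : z % 2 ^ 8 < 256 := by omega
    have b4 : z / 2 ^ 12 % 2 ^ 4 < 16 := by omega
    rw [b1, b2]
    simp only [Bool.toNat_true, one_mul] at h4
    generalize z % 2 ^ 8 = c at h4 b3 ⊢
    generalize z / 2 ^ 12 % 2 ^ 4 = d at h4 b4 ⊢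
    clear b1 b2
    omega
  unfold Sim.hi
  rw [h1, add_zero, if_pos h2]
  split_ifs
  · exact cr_anti h2
  · exact le_rfl

theorem vars_le (k : ℕ) : ∀ V a b y, V < 2 ^ 64 → vars C M k V a b y ≠ 0 →
    a + ∑ v ∈ Finset.range 64,
      (if V.testBit v then cr ((absS n C L M o h pe rem ad t el rw).dlo v) else 0) ≤
    b + ∑ v ∈ Finset.range 64,
      (if V.testBit v then (absS n C L M o h pe rem ad t el rw).hi v else 0) := by
  induction k with
  | zero =>
    intro V a b y hV e
    obtain ⟨e1, e2⟩ := lor_eq_zero.1 (ok_ne (e := (a.sub b).lor (nRest C M V)) (x := y) e).1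
    refine add_le_add (Nat.sub_eq_zero_iff_le.1 e1) (Finset.sum_le_sum fun v hv => ?_)
    split_ifs with hb
    · exact rest hV e2 (Finset.mem_range.1 hv) hb
    · exact le_rfl
  | succ k ih =>
    intro V a b y hV e
    have hu : y.land 63 < 64 := Nat.lt_succ_of_le (Nat.and_le_right (n := y) (m := 63))
    obtain ⟨e1, e2⟩ := ok_ne (e := ((V.shiftRight (y.land 63)).land 1).xor 1)
      (x := vars C M k (V.xor (one (y.land 63)))
        (a + crT (((nq C (y.land 63)).shiftRight 12).land 15)) (b + hi C M (y.land 63))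
        (y.shiftRight 6)) e
    generalize y.land 63 = u at hu e1 e2
    have hb : V.testBit u = true := by
      have h1 : b1 V u = 1 := xor_eq_zero.1 e1
      rw [b1_testBit] at h1
      revert h1
      cases V.testBit u <;> simp
    have hV' : V.xor (one u) < 2 ^ 64 :=
      Nat.xor_lt_two_pow hV (by rw [one_eq]; exact Nat.pow_lt_pow_right (by norm_num) hu)
    have h2 := ih _ _ _ _ hV' e2
    rw [crT_eq, dlo_q (n := n) (L := L) (M := M) (o := o) (h := h) (pe := pe) (rem := rem) (ad := ad)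
      (t := t) (el := el) (rw := rw) hu, hi_eq (n := n) (L := L) (o := o) (h := h) (pe := pe)
      (rem := rem) (ad := ad) (t := t) (el := el) (rw := rw) hu] at h2
    rw [sum_xor hu hb, sum_xor hu hb, ← add_assoc, ← add_assoc]
    exact h2

theorem sum_av (W : WS n C) (f : ℕ → ℕ) : ∑ v ∈ Finset.range 64,
    (if (cmp ((((C.shiftRight 42).xor (C.shiftRight 41)).land (C.shiftRight 42)).land
      o128)).testBit v then f v else 0) =
    ∑ v ∈ Finset.range n, if (qr C v).testBit 18 && !(qr C v).testBit 17 then f v else 0 := by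
  have hn := W.n61
  rw [Finset.sum_subset (Finset.range_subset_range.2 (show n ≤ 64 by omega))]
  · refine Finset.sum_congr rfl fun v hv => ?_
    have hv' := Finset.mem_range.1 hv
    rw [testBit_cmp', qr_bit C hv' (by norm_num), qr_bit C hv' (by norm_num)]
    change (if (decide (v < 64) && (((C >>> 42) ^^^ (C >>> 41)) &&& (C >>> 42)).testBit (128 * v))
      then _ else _) = _
    rw [Nat.testBit_and, Nat.testBit_xor, Nat.testBit_shiftRight, Nat.testBit_shiftRight,
      add_comm 42, add_comm 41, decide_eq_true hv']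
    cases C.testBit (128 * v + 42) <;> cases C.testBit (128 * v + 41) <;> rfl
  · intro v hv hv'
    rw [Finset.mem_range] at hv hv'
    rw [if_neg]
    intro h1
    exact hv' (W.al v (by omega) (Bool.and_eq_true_iff.1 h1).1)

variable {tag : ℕ}

theorem gain_done (W : WS n C) {b y : ℕ} (e : gain tag C M rem ad t el rw b y ≠ 0)
    (hβ : (absS n C L M o h pe rem ad t el rw).Beta b) :
    (absS n C L M o h pe rem ad t el rw).Done tag := by
  obtain ⟨e1, e2⟩ := ok_ne e
  have h1 := vars_le (n := n) (L := L) (o := o) (h := h) (pe := pe) (rem := rem) (ad := ad)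
    (t := t) (el := el) (rw := rw) _ _ _ _ _ (cmp_lt _) e2
  rw [sum_av W, sum_av W, lossA_eq (n := n) (L := L) (o := o) (h := h) (pe := pe) (rem := rem)
    (ad := ad) (t := t) (el := el) (rw := rw)] at h1
  refine .gain b hβ ?_ ?_
  · change ad * 100 + el + (absS n C L M o h pe rem ad t el rw).lossA + tag * 33 + t * 501 +
      (absS n C L M o h pe rem ad t el rw).lossV ≤
      rem * 100 + b + (absS n C L M o h pe rem ad t el rw).gainV at h1
    change 100 * ad + el + _ + _ + 33 * tag + 501 * t ≤ 100 * rem + _ + b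
    omega
  · change 1 ≤ t ∨ ad < rem ∨ (rem = 0 ∧ ad = 0 ∧ 1 ≤ rw)
    rw [sel_eq, sel_eq] at e1
    split_ifs at e1 with h2 h3
    · exact Or.inr (Or.inl (Nat.le_of_ble_eq_true h3))
    · obtain ⟨e3, e4⟩ := lor_eq_zero.1 e1
      obtain ⟨e5, e6⟩ := lor_eq_zero.1 e3
      exact Or.inr (Or.inr ⟨e5, e6, Nat.sub_eq_zero_iff_le.1 e4⟩)
    · exact Or.inl (Nat.pos_of_ne_zero fun h0 => h2 (by rw [h0]; rfl))

theorem trip (W : WS n C) {g : ℕ} {i : Bool} (hg : g < 64)
    (e : nTrip C L M (2 * g + i.toNat) = 0) : (absS n C L M o h pe rem ad t el rw).Trip g i := by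
  obtain ⟨e1, e2⟩ := lor_eq_zero.1 e
  obtain ⟨h1, h2, h3⟩ := ws_nOne W hg e1
  refine ⟨h1, h2, h3, ?_⟩
  rw [← rf_eq, ← mRow_bit (rf_lt _ _) (by norm_num), ← slot_xor]
  have h4 : b1 (mRow M (rf L ((2 * g + i.toNat).xor 1))) 61 = 0 := e2
  rw [b1_testBit] at h4
  revert h4
  cases (mRow M (rf L ((2 * g + i.toNat).xor 1))).testBit 61 <;> simp

theorem done1_done (W : WS n C) {c j y : ℕ} (hj : j < 128)
    (e : done1 tag C L M o rem ad t el rw c j y ≠ 0) :
    (absS n C L M o h pe rem ad t el rw).Done tag := by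
  obtain ⟨g, hg, i, rfl⟩ := slot hj
  obtain ⟨g', hg', i', e'⟩ := slot (land127 y)
  obtain ⟨g'', hg'', i'', e''⟩ := slot (land127 (y.shiftRight 7))
  unfold done1 at e
  rw [e', e'', slot_xor, slot_shr] at e
  simp only [sel_eq] at e
  split_ifs at e
  · obtain ⟨e1, e2⟩ := ok_ne e
    exact gain_done W e2 (.one g i (trip W hg e1))
  · obtain ⟨e1, e2⟩ := ok_ne e
    simp only [lor_eq_zero] at e1
    refine gain_done W e2 (.two g i g' i' (trip W hg e1.1.1) (trip W hg' e1.1.2) ?_)
    rw [← rf_eq, ← rf_eq]; exact nNe_ne e1.2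
  · obtain ⟨e1, e2⟩ := ok_ne e
    simp only [lor_eq_zero] at e1
    obtain ⟨⟨⟨⟨⟨h1, h2⟩, h3⟩, h4⟩, h5⟩, h6⟩ := e1
    refine gain_done W e2 (.three g i g' i' g'' i'' (trip W hg h1) (trip W hg' h2)
      (trip W hg'' h3) ?_ ?_ ?_) <;> rw [← rf_eq, ← rf_eq] <;> apply nNe_ne <;> assumption
  · obtain ⟨e1, e2⟩ := ok_ne e
    obtain ⟨h1, h2⟩ := lor_eq_zero.1 e1
    refine gain_done W e2 (.early g i (trip W hg h1) ?_)
    rw [← rf_eq, ← sdq_eq (rf_lt _ _)]
    exact Nat.sub_eq_zero_iff_le.1 h2
  · obtain ⟨h1, h2⟩ := lor_eq_zero.1 (ok_ne e).1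
    have h3 : o ≤ 254 := Nat.sub_eq_zero_iff_le.1 h1
    refine .out (show o ≠ 255 by omega) ?_
    change (absS n C L M o h pe rem ad t el rw).sd o ≤ 9
    rw [← sdq_eq (by omega)]
    exact Nat.sub_eq_zero_iff_le.1 h2
  · obtain ⟨h1, h2⟩ := lor_eq_zero.1 (ok_ne e).1
    obtain ⟨h3, h4, h5⟩ := ws_nOne W hg h1
    refine .selv g i h3 h4 h5 ?_
    rw [← rf_eq]
    exact (ws_nAV W (rf_lt _ _)).1 h2
  · obtain ⟨h1, h2⟩ := lor_eq_zero.1 (ok_ne e).1
    obtain ⟨h3, h4⟩ := lor_eq_zero.1 h1
    obtain rfl : o = g := xor_eq_zero.1 h3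
    rw [nq_eq C hg] at h4
    refine .outv i ((ws_nAG W (r := o) (by omega)).1 h4) ?_
    change (absS n C L M o h pe rem ad t el rw).AV
      ((absS n C L M o h pe rem ad t el rw).inp o i)
    rw [← rf_eq]
    exact (ws_nAV W (rf_lt _ _)).1 h2
  · obtain ⟨h1, h2⟩ := lor_eq_zero.1 (ok_ne e).1
    rw [nq_eq C hg] at h1 h2
    exact .zero g ((ws_nAV W (by omega)).1 h1) ((ub_eq hg).symm.trans h2)

end

end VL

theorem done_snd (tag : ℕ) : SndS tag (done tag) := by
  intro n C L M o h pe rem ad t el rw x e W s Ck V K T G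
  refine done_sound K T G ?_
  unfold done at e
  rw [sel_eq] at e
  split_ifs at e
  · exact VL.gain_done W e .zero
  · exact VL.done1_done W (VL.land127 _) e

end Pool.Agent.Lib.MP_79d702_lc.U2.V2
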