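import Pool.Agent.Lib.MP_79d702_lc.U2.V2M1

/-!
The start of a simulation, and the isolation test.
-/

namespace Pool.Agent.Lib.MP_79d702_lc.U2.V2

open LA M1

variable {tag n R X D o f : ℕ}

theorem M1.xor15_all : ∀ d < 16, d ^^^ (true.toNat * 15) = 15 - d := by decide

theorem ini_snd (W : Wf n R X D) (hn : n ≤ 61) : WS n (iniC n R) ∧
    Init (abs n R X D o f) (absS n (iniC n R) (iniL n R) (iniM n R X D) (sel (n.ble o) 255 o)
      0 0 0 0 0 0 0) := by
  have hn' : n ≤ 64 := by omega
  have nd : ∀ u < 64, qr (iniC n R) u = nod n R u := fun u hu => by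
    rw [qr_iniC hn' R (by omega), if_pos hu]
  have sp := fun u => rec0_all (rcd R u % 16) (Nat.mod_lt _ (by norm_num)) _
    (xor15_lt (Nat.mod_lt (rcd R u / 2 ^ 31) (by norm_num)) (decide (u < n)))
    ((rcd R u).testBit 4) ((rcd R u).testBit 30) (decide (u < n))
    (!(rcd R u).testBit 5 && (((rcd R u).testBit 7 || (rcd R u).testBit 19) &&
      (rcd R u).testBit 30))
    ((rcd R u).testBit 35 && (rcd R u).testBit 5) ((rcd R u).testBit 35 ^^ decide (u < n))
  have href : ∀ g (i : Bool), n ≤ (abs n R X D o f).inp g i →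
      (abs n R X D o f).ref g i = 64 + (2 * g + i.toNat) := fun g i hi =>
    (if_neg (not_lt.2 hi)).trans (Nat.add_assoc ..)
  refine ⟨⟨hn, fun r hr hb => ?_, ?_⟩, rfl, hn, fun u hu => ?_, fun u hu => ?_, fun g hg h => ?_,
    fun u hu => ?_, fun u hu => ⟨?_, (Nat.mod_lt _ (by norm_num)).trans (by norm_num : 16 < 60)⟩,
    fun u hu => ?_, fun u hu => ?_, fun u hu => ?_, fun g hg _ i hi hsd => ?_,
    fun g hg _ i => ?_, fun g hg _ i => ?_, fun u hu => ?_, rfl, fun g hg _ i hi => ?_, ?_,
    fun u => Nat.zero_testBit u, rfl, rfl, rfl, rfl, rfl⟩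
  · rw [qr_iniC hn' R hr] at hb
    split_ifs at hb
    · exact of_decide_eq_true ((sp r).2.2.2.2.2.2.1.symm.trans hb)
    · rw [testBit_of_lt (w := 12) (by
        have := sda_lt (G 64 4 (sw R >>> 31) (r - 64)) (decide (r - 64 < 2 * n))
        omega) (by norm_num)] at hb
      cases hb
    · cases hb
    · cases hb
  · rw [qr_iniC hn' R (by norm_num)]
    rfl
  · have hu' : u < n := hu
    show (qr (iniC n R) u).testBit 18 = true
    rw [nd u (by omega)]
    exact (sp u).2.2.2.2.2.2.1.trans (decide_eq_true hu')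
  · have hu' : u < n := hu
    show (qr (iniC n R) u).testBit 17 = (rcd R u).testBit 30
    rw [nd u (by omega)]
    exact (sp u).2.2.2.2.2.1
  · have hg' : g < n := hg
    have h' : (qr (iniC n R) g).testBit 19 = true := h
    rw [nd g (by omega)] at h'
    have h2 := (sp g).2.2.2.2.2.2.2.1.symm.trans h'
    simp only [Bool.and_eq_true, Bool.not_eq_true', Bool.or_eq_true] at h2
    refine ⟨h2.1, ?_⟩
    rcases h2.2.1 with h3 | h3
    · exact Or.inl ((wf_known W g false).1 h3)
    · exact Or.inr ((wf_known W g true).1 h3)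
  · have hu' : u < n := hu
    show (qr (iniC n R) u).testBit 16 = (rcd R u).testBit 4
    rw [nd u (by omega)]
    exact (sp u).2.2.2.2.1
  · have hu' : u < n := hu
    show qr (iniC n R) u / 2 ^ 12 % 16 = rcd R u % 16
    rw [nd u (by omega)]
    exact (sp u).2.2.2.1
  · have hu' : u < n := hu
    show qr (iniC n R) u % 256 = rcd R u % 16
    rw [nd u (by omega)]
    exact (sp u).2.1
  · have hu' : u < n := hu
    show qr (iniC n R) u / 2 ^ 20 % 4 =
      if (rcd R u).testBit 35 then ((rcd R u).testBit 5).toNat else 2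
    rw [nd u (by omega)]
    refine (sp u).2.2.2.2.2.2.2.2.trans ?_
    rw [decide_eq_true hu']
    cases (rcd R u).testBit 35 <;> cases (rcd R u).testBit 5 <;> rfl
  · have hu' : u < n := hu
    show qr (iniC n R) u / 2 ^ 8 % 16 = 15 - rcd R u / 2 ^ 31 % 16
    rw [nd u (by omega)]
    refine (sp u).2.2.1.trans ?_
    rw [decide_eq_true hu']
    exact xor15_all _ (Nat.mod_lt _ (by norm_num))
  · have hg' : g < n := hg
    have hi1 := Bool.toNat_le i
    rw [href g i hi] at hsd ⊢
    have e : qr (iniC n R) (64 + (2 * g + i.toNat)) / 2 ^ 8 % 16 =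
        sda (rcd R g / 2 ^ 31 % 16) true := by
      rw [qr_iniC hn' R (by omega), if_neg (by omega), if_pos (by omega), Nat.add_sub_cancel_left,
        sw_dep W.lane (by omega) i, decide_eq_true (by omega : 2 * g + i.toNat < 2 * n),
        Nat.mul_div_cancel _ (Nat.two_pow_pos 8), Nat.mod_eq_of_lt (sda_lt _ _)]
    have hsd' : qr (iniC n R) (64 + (2 * g + i.toNat)) / 2 ^ 8 % 16 ≤ 9 := hsd
    show 15 - rcd R g / 2 ^ 31 % 16 ≤ 9 ∧ 15 - rcd R g / 2 ^ 31 % 16 - 1 ≤
      qr (iniC n R) (64 + (2 * g + i.toNat)) / 2 ^ 8 % 16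
    rw [e] at hsd' ⊢
    exact sda_all _ (Nat.mod_lt _ (by norm_num)) hsd'
  · show ln (iniL n R) (2 * g + i.toNat) % 256 = _
    rw [(ln_iniL hn' W.lane hg i).1]
    by_cases hk : (rcd R g).testBit (so i + 1) = true
    · have h1 := (wf_known (o := o) (f := f) W g i).1 hk
      have h2 : (abs n R X D o f).ref g i = (abs n R X D o f).inp g i := if_pos h1
      rw [h2, if_pos hk]
      exact (if_pos hk).symm
    · rw [if_neg hk, href g i (not_lt.1 fun h1 => hk ((wf_known W g i).2 h1))]
  · show (ln (iniL n R) (2 * g + i.toNat)).testBit 8 =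
      (decide ((abs n R X D o f).inp g i < n) && (rcd R g).testBit (so i))
    rw [(ln_iniL hn' W.lane hg i).2]
    congr 1
    by_cases hk : (rcd R g).testBit (so i + 1) = true
    · rw [hk, decide_eq_true ((wf_known W g i).1 hk)]
    · rw [Bool.eq_false_iff.2 hk, decide_eq_false fun h1 => hk ((wf_known W g i).2 h1)]
  · have hu' : u < n := hu
    show (if u < 64 then decide (u = u) else _) = true
    rw [if_pos (by omega)]
    exact decide_eq_true rfl
  · have hg' : g < n := hg
    have hi1 := Bool.toNat_le i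
    have e : ∀ v, (absS n (iniC n R) (iniL n R) (iniM n R X D) (sel (n.ble o) 255 o)
        0 0 0 0 0 0 0).may ((abs n R X D o f).ref g i) v =
        (ln (iniM n R X D) (2 * g + i.toNat)).testBit v := fun v => by
      rw [href g i hi]
      show (if 64 + (2 * g + i.toNat) < 64 then _ else
        if 64 + (2 * g + i.toNat) < 192 then
          (ln (iniM n R X D) (64 + (2 * g + i.toNat) - 64)).testBit v else _) = _
      rw [if_neg (by omega), if_pos (by omega), Nat.add_sub_cancel_left]
    obtain ⟨m1, m2, m3⟩ := iniM_spec W.n63 R X D (by omega : 2 * g + i.toNat < 2 * n)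
    rw [sw_lb W.lane (by omega) i] at m2 m3
    simp only [e]
    exact ⟨fun v hv => (m1 v hv).imp id fun h => Or.inl (wf_exAll W hg' hv h), m2, m3⟩
  · show sel (n.ble o) 255 o = if o < n then o else 255
    rw [sel_eq]
    by_cases h : o < n
    · rw [if_pos h, if_neg fun h1 => absurd (Nat.le_of_ble_eq_true h1) (not_le.2 h)]
    · rw [if_neg h, if_pos (Nat.ble_eq_true_of_le (not_lt.1 h))]

theorem sim_snd {m y : ℕ} (hr : SndS tag (run tag m)) (W : Wf n R X D)
    (h : sim tag n R X D o m y ≠ 0) : HoldsX tag (abs n R X D o f) := by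
  obtain ⟨h1, h2⟩ := ok_ne h
  have hn : n ≤ 61 := Nat.sub_eq_zero_iff_le.1 h1
  obtain ⟨w, I0⟩ := ini_snd (o := o) (f := f) W hn
  intro s C V E K T M
  obtain ⟨H, I, -⟩ := init_inv K M I0
  exact hr _ _ _ _ _ _ _ _ _ _ _ _ _ h2 w s C V K T ⟨s, C, V, H, I⟩

theorem M1.bit1 (a i : ℕ) : (a.shiftRight i).land 1 = (a.testBit i).toNat := b1_testBit a i

theorem M1.bit1_zero {a i : ℕ} (h : (a.shiftRight i).land 1 = 0) : a.testBit i = false := by
  rw [bit1] at h
  revert h
  cases a.testBit i <;> simp

theorem M1.isoT_nib (T A a k r : ℕ) : g4 (isoT T A a k) r =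
    if r < k ∧ A.testBit r = true then (a.testBit r).toNat + 9 else g4 T r := by
  induction k with
  | zero => rw [if_neg fun h => Nat.not_lt_zero _ h.1]; rfl
  | succ k ih =>
    have e : isoT T A a (k + 1) = sel (((A.shiftRight k).land 1).beq 0) (isoT T A a k)
        (s4 (isoT T A a k) k (((a.shiftRight k).land 1).add 9)) := rfl
    rw [e, sel_eq, bit1, bit1]
    by_cases hA : A.testBit k = true
    · rw [hA, if_neg (by decide), g4_s4 _ _ (by cases a.testBit k <;> decide)]
      unfold upd
      by_cases hr : r = k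
      · subst hr
        rw [if_pos rfl, if_pos ⟨Nat.lt_succ_self _, hA⟩]
      · rw [if_neg hr, ih]
        exact if_congr (and_congr_left fun _ => by omega) rfl rfl
    · rw [Bool.eq_false_iff.2 hA, if_pos (by decide), ih]
      refine if_congr ⟨fun h => ⟨by omega, h.2⟩, fun h => ⟨?_, h.2⟩⟩ rfl rfl
      rcases Nat.lt_succ_iff_lt_or_eq.1 h.1 with h1 | h1
      · exact h1
      · exact absurd (h1 ▸ h.2) hA

theorem M1.isoE_zero {C L T S T1 T2 k : ℕ} (h : isoE C L T S T1 T2 k = 0) {e : ℕ} (he : e < k) :
    (((T.shiftRight (rf L (e.mul 2))).lor (T.shiftRight (rf L ((e.mul 2).add 1)))).land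
        ((T.shiftRight e).xor 1)).land (((nq C e).shiftRight 17).land 1) = 0 ∨
      ((ev C L T1 14 e).testBit 256 = true ∧ ev C L T1 14 e = ev C L T2 14 e ∧
        S.testBit e = false) := by
  induction k with
  | zero => exact absurd he (Nat.not_lt_zero _)
  | succ k ih =>
    have h' : (isoE C L T S T1 T2 k).lor
      (sel (((((T.shiftRight (rf L (k.mul 2))).lor (T.shiftRight (rf L ((k.mul 2).add 1)))).land
        ((T.shiftRight k).xor 1)).land (((nq C k).shiftRight 17).land 1)).beq 0) 0
      (((((ev C L T1 14 k).land tE).xor tE).lor ((ev C L T1 14 k).xor (ev C L T2 14 k))).lor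
        ((S.shiftRight k).land 1))) = 0 := h
    rw [lor_eq_zero] at h'
    rcases Nat.lt_succ_iff_lt_or_eq.1 he with h1 | rfl
    · exact ih h'.1 h1
    · have h2 := h'.2
      rw [sel_eq] at h2
      split_ifs at h2 with h3
      · exact Or.inl (Nat.eq_of_beq_eq_true h3)
      · rw [lor_eq_zero, lor_eq_zero, xor_eq_zero, xor_eq_zero] at h2
        refine Or.inr ⟨?_, h2.1.2, bit1_zero h2.2⟩
        have h4 : (ev C L T1 14 e &&& tE).testBit 256 = tE.testBit 256 :=
          congrArg (fun x => x.testBit 256) h2.1.1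
        have h5 : tE.testBit 256 = true := by decide +kernel
        rw [Nat.testBit_and, h5, Bool.and_true] at h4
        exact h4

theorem M1.and_zero {a b i : ℕ} (h : a.land b = 0) (ha : a.testBit i = true) :
    b.testBit i = false := by
  have h1 : (a &&& b).testBit i = (0 : ℕ).testBit i := congrArg (fun x => x.testBit i) h
  rw [Nat.testBit_and, ha, Bool.true_and, Nat.zero_testBit] at h1
  exact h1

theorem iso_snd {y : ℕ} (W : Wf n R X D) (h : iso n R o y ≠ 0) :
    HoldsX tag (abs n R X D o f) := by
  unfold iso at h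
  have hT : ∀ v, ((y.shiftRight 16).land (msk n)).testBit v = true → v < n := fun v hv => by
    have hv' : ((y >>> 16) &&& msk n).testBit v = true := hv
    rw [Nat.testBit_and, testBit_msk, Bool.and_eq_true] at hv'
    exact of_decide_eq_true hv'.2
  generalize y.land 63 = x at h
  generalize (y.shiftRight 6).land 63 = x' at h
  generalize (y.shiftRight 12).land 15 = c at h
  generalize (y.shiftRight 16).land (msk n) = T at h hT
  generalize (y.shiftRight (n.add 16)).land (msk n) = A at h
  generalize y.shiftRight ((n.mul 2).add 16) = a at h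
  generalize y.shiftRight ((n.mul 3).add 16) = cut at h
  have h0 := (ok_ne h).1
  simp only [lor_eq_zero] at h0
  obtain ⟨⟨⟨⟨⟨⟨⟨⟨h1, h2⟩, h3⟩, h4⟩, h5⟩, h6⟩, h7⟩, h8⟩, h9⟩ := h0
  have hn : n ≤ 61 := Nat.sub_eq_zero_iff_le.1 h1
  have hc : c ≤ 8 := Nat.sub_eq_zero_iff_le.1 h2
  obtain ⟨w, I0⟩ := ini_snd (o := o) (f := f) W hn
  have hF : ∀ v, ((one x).lor (one x')).testBit v = decide (v = x ∨ v = x') := fun v => by
    show (one x ||| one x').testBit v = _
    rw [Nat.testBit_or, testBit_one, testBit_one, Bool.decide_or]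
  have hg : ∀ v < n, (((one x).lor (one x')).lor A).testBit v = true →
      (abs n R X D o f).gate v = false := fun v hv hb => by
    have := and_zero h4 hb
    rwa [gmOf_bit (n := n) (X := X) (D := D) (o := o) (f := f), decide_eq_true (by omega : v < 64),
      Bool.true_and] at this
  have hx : ∀ v, v = x ∨ v = x' → v < n ∧ (abs n R X D o f).gate v = false ∧ T.testBit v = true :=
    fun v hv => by
      have h10 : ((one x).lor (one x')).testBit v = true := (hF v).trans (decide_eq_true hv)
      have h11 := sub_of_cov h3 h10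
      refine ⟨hT v h11, hg v (hT v h11) ?_, h11⟩
      show ((one x).lor (one x') ||| A).testBit v = true
      rw [Nat.testBit_or, h10, Bool.true_or]
  refine holdsX_iso (x := x) (y := x') (T := T.testBit) (A := A.testBit) (a := a.testBit) I0
    ⟨hx x (Or.inl rfl), hx x' (Or.inr rfl), fun v hv hA => hg v hv ?_, fun v hv hb => ?_,
      fun e he ge Te hin val val' cv cv' hA hB => ?_⟩
  · show ((one x).lor (one x') ||| A).testBit v = true
    rw [Nat.testBit_or, hA, Bool.or_true]
  · refine ⟨(cmOf_bit (sub_of_cov h5 hb)).2, fun e => ?_, fun gv => ?_⟩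
    · have e' : o = v := e
      rw [← e', bit1_zero h6] at hb
      cases hb
    · have hv' : v < n := hv
      have h10 : (gmOf R ||| (one x).lor (one x')).testBit v = true := sub_of_cov h7 hb
      rw [Nat.testBit_or, gmOf_bit (n := n) (X := X) (D := D) (o := o) (f := f), gv, hF,
        Bool.and_false, Bool.false_or] at h10
      exact of_decide_eq_true h10
  · have he' : e < n := he
    have hE : (ev (iniC n R) (iniL n R) (isoT (cutT c cut) A a n) 14 e).testBit 256 = true ∧
        ev (iniC n R) (iniL n R) (isoT (cutT c cut) A a n) 14 e =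
        ev (iniC n R) (iniL n R) (isoT (cutT c cut) A (a.xor ((one x).lor (one x'))) n) 14 e ∧
        (cutS c cut).testBit e = false := by
      refine (isoE_zero h9 he').resolve_left fun h10 => ?_
      obtain ⟨i, i1, i2⟩ := hin
      have r1 : T.testBit (rf (iniL n R) (2 * e + i.toNat)) = true := by
        rw [rf_eq (n := n) (C := iniC n R) (M := iniM n R X D) (o := sel (n.ble o) 255 o) (h := 0)
          (pe := 0) (rem := 0) (ad := 0) (t := 0) (el := 0) (rw := 0), I0.inp e he ge i]
        exact (congrArg T.testBit (if_pos i1)).trans i2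
      have r2 : (nq (iniC n R) e).testBit 17 = true := by
        have r3 := cq_field (iniC n R) (r := e) (p := 17) (w := 1) (by omega) (by norm_num)
        have r4 : (qr (iniC n R) e).testBit 17 = true := (I0.gate e he).trans ge
        rw [← nq_eq _ (by omega : e < 64)] at r3
        have r5 : ((nq (iniC n R) e).testBit 17).toNat = ((qr (iniC n R) e).testBit 17).toNat := by
          rw [← bit1, Nat.toNat_testBit]
          exact r3
        rw [r4] at r5
        revert r5
        cases (nq (iniC n R) e).testBit 17 <;> simp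
      have h11 : ((((T >>> rf (iniL n R) (e * 2)) ||| (T >>> rf (iniL n R) (e * 2 + 1))) &&&
          ((T >>> e) ^^^ 1)) &&& ((nq (iniC n R) e >>> 17) &&& 1)).testBit 0 =
          (0 : ℕ).testBit 0 := congrArg (fun x => x.testBit 0) h10
      rw [Nat.testBit_and, Nat.testBit_and, Nat.testBit_and, Nat.testBit_or, Nat.testBit_xor,
        Nat.testBit_shiftRight, Nat.testBit_shiftRight, Nat.testBit_shiftRight,
        Nat.testBit_shiftRight] at h11
      simp only [Nat.add_zero] at h11
      rw [r2, Te, mul_comm e 2] at h11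
      cases i
      · have r1' : T.testBit (rf (iniL n R) (2 * e)) = true := r1
        rw [r1'] at h11
        revert h11
        simp
      · have r1' : T.testBit (rf (iniL n R) (2 * e + 1)) = true := r1
        rw [r1'] at h11
        revert h11
        simp
    obtain ⟨i, hi, hrow⟩ := cutT_row hc cut val
    have leaf : ∀ (b : ℕ) (vl : ℕ → Bool) (r : ℕ), vl 192 = false →
        (r < n → A.testBit r = true → vl r = b.testBit r) →
        ((cutS c cut).testBit r = true → val r = vl r) →
        ((isoT (cutT c cut) A b n).shiftRight (r.mul 4)).land 15 ≠ 0 →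
        ((tVs.shiftRight ((((isoT (cutT c cut) A b n).shiftRight (r.mul 4)).land 15).mul 512)).land
          tM).testBit 256 = true →
        ((tVs.shiftRight ((((isoT (cutT c cut) A b n).shiftRight (r.mul 4)).land 15).mul 512)).land
          tM).testBit i = vl r := fun b vl r v0 vA vS n0 tb => by
      rw [tVs_spec hi tb]
      have nb : ((isoT (cutT c cut) A b n).shiftRight (r.mul 4)).land 15 =
          if r < n ∧ A.testBit r = true then (b.testBit r).toNat + 9 else
            ((cutT c cut).shiftRight (r.mul 4)).land 15 := isoT_nib _ _ _ _ _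
      rw [nb] at n0 ⊢
      by_cases hr : r < n ∧ A.testBit r = true
      · rw [if_pos hr, vA hr.1 hr.2]
        cases b.testBit r <;> rfl
      · rw [if_neg hr] at n0 ⊢
        rcases hrow r with q | ⟨q, rfl⟩ | ⟨q1, m, hm, q2, q3⟩
        · exact absurd q n0
        · rw [q, v0]
          rfl
        · rw [q2, if_pos (by omega), Nat.add_sub_cancel, q3, vS q1]
    have e1 := ev_snd w hi cv (fun _ => True) (fun _ _ _ _ _ => trivial)
      (fun r _ => leaf a val r cv.1 (fun q1 q2 => (hA r q1 q2).1) fun _ => rfl) 14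
      (by omega : e < 256) trivial hE.1
    have e2 := ev_snd w hi cv' (fun r => r = e ∨ (absS n (iniC n R) (iniL n R) (iniM n R X D)
        (sel (n.ble o) 255 o) 0 0 0 0 0 0 0).Below e r) (fun r hr _ ag b => ?_)
      (fun r hR => leaf (a.xor ((one x).lor (one x'))) val' r cv'.1 (fun q1 q2 => ?_) fun q => ?_)
      14 (by omega : e < 256) (Or.inl rfl) (hE.2.1 ▸ hE.1)
    · rw [← e1, ← e2, hE.2.1]
    · rcases hr with rfl | hr
      · exact Or.inr (.inp b)
      · exact Or.inr (.step b hr ag)
    · show _ = (a ^^^ (one x).lor (one x')).testBit r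
      rw [Nat.testBit_xor, hF, (hA r q1 q2).2]
    · rcases hR with rfl | hR
      · rw [hE.2.2] at q
        cases q
      · refine hB r hR fun q1 => ?_
        rw [and_zero h8 q1.2] at q
        cases q

end Pool.Agent.Lib.MP_79d702_lc.U2.V2
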