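import Pool.Agent.Lib.MP_79d702_lc.U2.V2K

/-!
The packed start state of a simulation, lane by lane.
-/

namespace Pool.Agent.Lib.MP_79d702_lc.U2.V2

open LA

namespace M1

theorem tab_or {s k : ℕ} (hs : 0 < s) {f g : ℕ → ℕ} (hf : ∀ j < k, f j < 2 ^ s)
    (hg : ∀ j < k, g j < 2 ^ s) : tab s f k ||| tab s g k = tab s (fun j => f j ||| g j) k := by
  refine ext_lane hs fun j v hv => ?_
  rw [Nat.testBit_or, testBit_tab hf j hv, testBit_tab hg j hv,
    testBit_tab (fun j hj => Nat.or_lt_two_pow (hf j hj) (hg j hj)) j hv, Nat.testBit_or]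
  cases decide (j < k) <;> simp

theorem tab_sub {s k : ℕ} {f g : ℕ → ℕ} (hf : ∀ j < k, f j < 2 ^ s) (h : ∀ j < k, g j ≤ f j) :
    tab s f k - tab s g k = tab s (fun j => f j - g j) k := by
  have e : tab s (fun j => f j - g j) k + tab s g k = tab s f k := by
    rw [tab_add fun j hj => by have := hf j hj; have := h j hj; omega]
    exact tab_congr fun j hj => Nat.sub_add_cancel (h j hj)
  omega

theorem tab_shl {s k c : ℕ} {f : ℕ → ℕ} (h : ∀ j < k, f j * 2 ^ c < 2 ^ s) :
    tab s f k <<< c = tab s (fun j => f j * 2 ^ c) k := by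
  rw [Nat.shiftLeft_eq]
  exact tab_mul (fun j hj => (Nat.le_mul_of_pos_right _ (Nat.two_pow_pos c)).trans_lt (h j hj)) h

theorem and_tab {s k : ℕ} (hs : 0 < s) (y : ℕ) {f : ℕ → ℕ} (hf : ∀ j < k, f j < 2 ^ s) :
    y &&& tab s f k = tab s (fun j => G s s y j &&& f j) k := by
  refine ext_lane hs fun j v hv => ?_
  rw [Nat.testBit_and, testBit_tab hf j hv,
    testBit_tab (fun j hj => Nat.and_lt_two_pow _ (hf j hj)) j hv, Nat.testBit_and, testBit_G,
    decide_eq_true hv]
  cases decide (j < k) <;> simp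

theorem m15_eq : m15 = tab 128 (fun _ => true.toNat * (2 ^ 4 - 1)) 64 := by decide +kernel

theorem m16_eq : m16 = tab 128 (fun _ => 16) 64 := by decide +kernel

theorem n15_eq : n15 = tab 64 (fun _ => true.toNat * (2 ^ 4 - 1)) 128 := by decide +kernel

theorem idx64_eq : idx64 = tab 64 (fun j => 64 + j) 128 := by decide +kernel

theorem o128_eq' : o128 = tab 128 (fun _ => true.toNat) 64 := o128_eq

theorem o64_eq' : o64 = tab 64 (fun _ => true.toNat) 128 := o64_eq

theorem G_shr (s w y p j : ℕ) : G s w (y >>> p) j = y / 2 ^ (s * j + p) % 2 ^ w := by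
  refine Nat.eq_of_testBit_eq fun v => ?_
  rw [testBit_G, Nat.testBit_mod_two_pow, Nat.testBit_div_two_pow, Nat.testBit_shiftRight]
  congr 2
  omega

theorem fld_rcd (R u : ℕ) {p w : ℕ} (h : p + w ≤ 128) :
    G 128 w (R >>> p) u = rcd R u / 2 ^ p % 2 ^ w := by
  refine Nat.eq_of_testBit_eq fun v => ?_
  rw [testBit_G, Nat.testBit_mod_two_pow, Nat.testBit_div_two_pow, Nat.testBit_shiftRight]
  by_cases hv : v < w
  · rw [testBit_rcd R u (by omega : v + p < 128)]
    congr 2
    omega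
  · rw [decide_eq_false hv, Bool.false_and, Bool.false_and]

theorem bit_rcd (R u : ℕ) {p : ℕ} (h : p < 128) :
    (R >>> p).testBit (128 * u) = (rcd R u).testBit p := by
  rw [Nat.testBit_shiftRight, testBit_rcd R u h, add_comm]

theorem and_m15 (R : ℕ) {p : ℕ} (h : p + 4 ≤ 128) :
    (R >>> p) &&& m15 = tab 128 (fun u => rcd R u / 2 ^ p % 16) 64 := by
  rw [m15_eq, and_mask (by norm_num) (by norm_num)]
  refine tab_congr fun u _ => ?_
  rw [fld_rcd R u h, Bool.toNat_true, one_mul]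
  rfl

theorem and_o128 (y : ℕ) : y &&& o128 = tab 128 (fun u => (y.testBit (128 * u)).toNat) 64 := by
  rw [o128_eq', and_sel (by norm_num)]
  exact tab_congr fun u _ => by rw [Bool.true_and]

theorem and_o64 (y : ℕ) : y &&& o64 = tab 64 (fun j => (y.testBit (64 * j)).toNat) 128 := by
  rw [o64_eq', and_sel (by norm_num)]
  exact tab_congr fun u _ => by rw [Bool.true_and]

theorem and_n15 (y : ℕ) : y &&& n15 = tab 64 (fun j => G 64 4 y j) 128 := by
  rw [n15_eq, and_mask (by norm_num) (by norm_num)]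
  exact tab_congr fun u _ => by rw [Bool.toNat_true, one_mul]

/-- the record of a visible node at the start, before the shift by 24 bits -/
def rec0 (a c : ℕ) (dex gate al uf s1 s2 : Bool) : ℕ :=
  a * 4097 ||| dex.toNat * 2 ^ 16 ||| c * 2 ^ 8 ||| gate.toNat * 2 ^ 17 ||| al.toNat * 2 ^ 18 |||
    uf.toNat * 2 ^ 19 ||| s1.toNat * 2 ^ 20 ||| s2.toNat * 2 ^ 21

theorem rec0_all : ∀ a < 16, ∀ c < 16, ∀ dex gate al uf s1 s2 : Bool,
    rec0 a c dex gate al uf s1 s2 < 2 ^ 24 ∧ rec0 a c dex gate al uf s1 s2 % 256 = a ∧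
    rec0 a c dex gate al uf s1 s2 / 2 ^ 8 % 16 = c ∧
    rec0 a c dex gate al uf s1 s2 / 2 ^ 12 % 16 = a ∧
    (rec0 a c dex gate al uf s1 s2).testBit 16 = dex ∧
    (rec0 a c dex gate al uf s1 s2).testBit 17 = gate ∧
    (rec0 a c dex gate al uf s1 s2).testBit 18 = al ∧
    (rec0 a c dex gate al uf s1 s2).testBit 19 = uf ∧
    rec0 a c dex gate al uf s1 s2 / 2 ^ 20 % 4 = s1.toNat + 2 * s2.toNat := by decide +kernel

/-- the record of the node `u` at the start -/
def nod (n R u : ℕ) : ℕ :=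
  rec0 (rcd R u % 16) ((rcd R u / 2 ^ 31 % 16) ^^^ ((decide (u < n)).toNat * 15))
    ((rcd R u).testBit 4) ((rcd R u).testBit 30) (decide (u < n))
    (!(rcd R u).testBit 5 && (((rcd R u).testBit 7 || (rcd R u).testBit 19) &&
      (rcd R u).testBit 30))
    ((rcd R u).testBit 35 && (rcd R u).testBit 5) ((rcd R u).testBit 35 ^^ decide (u < n))

/-- the depth bound of an unknown input -/
def sda (d : ℕ) (a : Bool) : ℕ :=
  ((d ^^^ (a.toNat * 31)) - ((d + a.toNat * 10).testBit 4).toNat) % 16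

theorem xor15_lt {d : ℕ} (hd : d < 16) (a : Bool) : d ^^^ (a.toNat * 15) < 16 :=
  Nat.xor_lt_two_pow (n := 4) hd (toNat_mul_lt a (by norm_num))

theorem nod_lt (n R u : ℕ) : nod n R u < 2 ^ 24 :=
  (rec0_all _ (Nat.mod_lt _ (by norm_num)) _ (xor15_lt (Nat.mod_lt _ (by norm_num)) _)
    _ _ _ _ _ _).1

theorem or_mul (a b k : ℕ) : (a ||| b) * 2 ^ k = a * 2 ^ k ||| b * 2 ^ k := by
  rw [← Nat.shiftLeft_eq, ← Nat.shiftLeft_eq, ← Nat.shiftLeft_eq, Nat.shiftLeft_or_distrib]

theorem bl (b : Bool) {k : ℕ} (hk : k < 128) : b.toNat * 2 ^ k < 2 ^ 128 :=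
  toNat_mul_lt b (Nat.pow_lt_pow_right (by norm_num) hk)

theorem nodes_eq {n : ℕ} (hn : n ≤ 64) (R : ℕ) :
    ((((((((R &&& m15) * 68736253952) ||| ((R &&& m16) <<< 36)) |||
    ((((R >>> 31) &&& m15) ^^^ ((on1 n) * 15)) <<< 32)) |||
    (((R >>> 30) &&& o128) <<< 41)) ||| ((on1 n) <<< 42)) |||
    ((((((R >>> 7) ||| (R >>> 19)) &&& (R >>> 30)) &&&
      (((R >>> 5) &&& o128) ^^^ o128))) <<< 43)) |||
    ((((R >>> 35) &&& (R >>> 5)) &&& o128) <<< 44)) |||
    ((((R >>> 35) &&& o128) ^^^ (on1 n)) <<< 45) =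
    tab 128 (fun u => nod n R u * 2 ^ 24) 64 := by
  have m16' : ∀ u, rcd R u % 16 < 16 := fun u => Nat.mod_lt _ (by norm_num)
  have l1 : ∀ u < 64, rcd R u % 16 * 68736253952 < 2 ^ 128 := fun u _ => by
    have := m16' u
    omega
  have e1 : (R &&& m15) * 68736253952 = tab 128 (fun u => rcd R u % 16 * 68736253952) 64 := by
    have := and_m15 R (p := 0) (by norm_num)
    rw [Nat.shiftRight_zero] at this
    rw [this, tab_congr (g := fun u => rcd R u % 16) fun u _ => by rw [pow_zero, Nat.div_one]]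
    exact tab_mul (fun u _ => (m16' u).trans (by norm_num)) l1
  have e2 : (R &&& m16) <<< 36 = tab 128 (fun u => ((rcd R u).testBit 4).toNat * 2 ^ 40) 64 := by
    rw [m16_eq, and_tab (by norm_num) _ fun _ _ => by norm_num,
      tab_congr (g := fun u => ((rcd R u).testBit 4).toNat * 2 ^ 4) fun u _ => by
        rw [← rcd_G]; exact Nat.and_two_pow _ 4,
      tab_shl fun u _ => by rw [mul_assoc, ← pow_add]; exact bl _ (by norm_num)]
    exact tab_congr fun u _ => by rw [mul_assoc, ← pow_add]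
  have l3 : ∀ u < 64, ((rcd R u / 2 ^ 31 % 16) ^^^ ((decide (u < n)).toNat * 15)) * 2 ^ 32 <
      2 ^ 128 := fun u _ => by
    have := xor15_lt (Nat.mod_lt (rcd R u / 2 ^ 31) (by norm_num)) (decide (u < n))
    omega
  have e3 : (((R >>> 31) &&& m15) ^^^ ((on1 n) * 15)) <<< 32 = tab 128 (fun u =>
      ((rcd R u / 2 ^ 31 % 16) ^^^ ((decide (u < n)).toNat * 15)) * 2 ^ 32) 64 := by
    rw [and_m15 R (by norm_num), on1_eq hn, tab_mul (fun _ _ => toNat_lt _ (by norm_num))
      (fun _ _ => toNat_mul_lt _ (by norm_num)), tab_xor (by norm_num)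
      (fun u _ => (Nat.mod_lt _ (by norm_num)).trans (by norm_num))
      (fun _ _ => toNat_mul_lt _ (by norm_num)), tab_shl l3]
  have e4 : ((R >>> 30) &&& o128) <<< 41 =
      tab 128 (fun u => ((rcd R u).testBit 30).toNat * 2 ^ 41) 64 := by
    rw [and_o128, tab_shl fun u _ => bl _ (by norm_num)]
    exact tab_congr fun u _ => by rw [bit_rcd R u (by norm_num)]
  have e5 : (on1 n) <<< 42 = tab 128 (fun u => (decide (u < n)).toNat * 2 ^ 42) 64 := by
    rw [on1_eq hn, tab_shl fun u _ => bl _ (by norm_num)]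
  have e6 : (((((R >>> 7) ||| (R >>> 19)) &&& (R >>> 30)) &&&
      (((R >>> 5) &&& o128) ^^^ o128))) <<< 43 = tab 128 (fun u =>
      (!(rcd R u).testBit 5 && (((rcd R u).testBit 7 || (rcd R u).testBit 19) &&
      (rcd R u).testBit 30)).toNat * 2 ^ 43) 64 := by
    have : ((R >>> 5) &&& o128) ^^^ o128 =
        tab 128 (fun u => (!(rcd R u).testBit 5).toNat) 64 := by
      rw [and_o128, o128_eq', tab_xor (by norm_num) (fun _ _ => toNat_lt _ (by norm_num))
        (fun _ _ => toNat_lt _ (by norm_num))]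
      refine tab_congr fun u _ => ?_
      rw [bit_rcd R u (by norm_num)]
      cases (rcd R u).testBit 5 <;> rfl
    rw [this, and_sel (by norm_num), tab_shl fun u _ => bl _ (by norm_num)]
    refine tab_congr fun u _ => ?_
    rw [Nat.testBit_and, Nat.testBit_or, bit_rcd R u (by norm_num), bit_rcd R u (by norm_num),
      bit_rcd R u (by norm_num)]
  have e7 : (((R >>> 35) &&& (R >>> 5)) &&& o128) <<< 44 = tab 128 (fun u =>
      ((rcd R u).testBit 35 && (rcd R u).testBit 5).toNat * 2 ^ 44) 64 := by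
    rw [and_o128, tab_shl fun u _ => bl _ (by norm_num)]
    refine tab_congr fun u _ => ?_
    rw [Nat.testBit_and, bit_rcd R u (by norm_num), bit_rcd R u (by norm_num)]
  have e8 : (((R >>> 35) &&& o128) ^^^ (on1 n)) <<< 45 = tab 128 (fun u =>
      ((rcd R u).testBit 35 ^^ decide (u < n)).toNat * 2 ^ 45) 64 := by
    rw [and_o128, on1_eq hn, tab_xor (by norm_num) (fun _ _ => toNat_lt _ (by norm_num))
      (fun _ _ => toNat_lt _ (by norm_num)),
      tab_congr (g := fun u => ((rcd R u).testBit 35 ^^ decide (u < n)).toNat) fun u _ => by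
        rw [bit_rcd R u (by norm_num)]
        cases (rcd R u).testBit 35 <;> cases decide (u < n) <;> rfl,
      tab_shl fun u _ => bl _ (by norm_num)]
  rw [e1, e2, e3, e4, e5, e6, e7, e8]
  have h0 : (0 : ℕ) < 128 := by norm_num
  have b (c : ℕ → Bool) (k : ℕ) (hk : k < 128) :
      ∀ u < 64, (c u).toNat * 2 ^ k < 2 ^ 128 := fun u _ => bl _ hk
  have o {f g : ℕ → ℕ} (hf : ∀ u < 64, f u < 2 ^ 128) (hg : ∀ u < 64, g u < 2 ^ 128) :
      ∀ u < 64, f u ||| g u < 2 ^ 128 := fun u hu => Nat.or_lt_two_pow (hf u hu) (hg u hu)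
  have k40 : (40 : ℕ) < 128 := by norm_num
  have k41 : (41 : ℕ) < 128 := by norm_num
  have k42 : (42 : ℕ) < 128 := by norm_num
  have k43 : (43 : ℕ) < 128 := by norm_num
  have k44 : (44 : ℕ) < 128 := by norm_num
  have k45 : (45 : ℕ) < 128 := by norm_num
  rw [tab_or h0 l1 (b _ 40 k40),
    tab_or h0 (o l1 (b _ 40 k40)) l3,
    tab_or h0 (o (o l1 (b _ 40 k40)) l3) (b _ 41 k41),
    tab_or h0 (o (o (o l1 (b _ 40 k40)) l3) (b _ 41 k41)) (b _ 42 k42),
    tab_or h0 (o (o (o (o l1 (b _ 40 k40)) l3) (b _ 41 k41)) (b _ 42 k42)) (b _ 43 k43),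
    tab_or h0 (o (o (o (o (o l1 (b _ 40 k40)) l3) (b _ 41 k41)) (b _ 42 k42)) (b _ 43 k43)) (b _ 44 k44),
    tab_or h0 (o (o (o (o (o (o l1 (b _ 40 k40)) l3) (b _ 41 k41)) (b _ 42 k42)) (b _ 43 k43)) (b _ 44 k44)) (b _ 45 k45)]
  refine tab_congr fun u _ => ?_
  unfold nod rec0
  simp only [or_mul, mul_assoc, ← pow_add]
  rfl

theorem sda_lt (d : ℕ) (a : Bool) : sda d a < 16 := Nat.mod_lt _ (by norm_num)

theorem sda_all : ∀ d < 16, sda d true ≤ 9 → 15 - d ≤ 9 ∧ 15 - d - 1 ≤ sda d true := by decide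

theorem sub_all : ∀ d < 16, ∀ a : Bool,
    ((d + a.toNat * 10).testBit 4).toNat ≤ d ^^^ (a.toNat * 31) ∧
      d ^^^ (a.toNat * 31) < 32 := by decide

theorem unk_eq {n : ℕ} (hn : n ≤ 64) (W : ℕ) :
    ((((((W >>> 31) &&& n15) ^^^ ((on2 n) * 31)) -
      (((((W >>> 31) &&& n15) + ((on2 n) * 10)) >>> 4) &&& o64)) &&& n15) <<< 8) =
    tab 64 (fun j => sda (G 64 4 (W >>> 31) j) (decide (j < 2 * n)) * 2 ^ 8) 128 := by
  have hd : ∀ j, G 64 4 (W >>> 31) j < 16 := fun j => G_lt 64 4 _ j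
  have l1 : ∀ j < 128, G 64 4 (W >>> 31) j + (decide (j < 2 * n)).toNat * 10 < 2 ^ 64 :=
    fun j _ => by
      have := hd j
      have := Bool.toNat_le (decide (j < 2 * n))
      omega
  have l2 : ∀ j < 128, G 64 4 (W >>> 31) j ^^^ ((decide (j < 2 * n)).toNat * 31) < 2 ^ 64 :=
    fun j _ => (sub_all _ (hd j) _).2.trans (by norm_num)
  have e1 : ((((W >>> 31) &&& n15) + ((on2 n) * 10)) >>> 4) &&& o64 = tab 64 (fun j =>
      ((G 64 4 (W >>> 31) j + (decide (j < 2 * n)).toNat * 10).testBit 4).toNat) 128 := by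
    rw [and_n15, on2_eq hn, tab_mul (fun _ _ => toNat_lt _ (by norm_num))
      (fun _ _ => toNat_mul_lt _ (by norm_num)), tab_add l1, and_o64]
    refine tab_congr fun j hj => ?_
    rw [Nat.testBit_shiftRight, add_comm 4, testBit_tab l1 j (by norm_num), decide_eq_true hj,
      Bool.true_and]
  have e2 : ((W >>> 31) &&& n15) ^^^ ((on2 n) * 31) = tab 64 (fun j =>
      G 64 4 (W >>> 31) j ^^^ ((decide (j < 2 * n)).toNat * 31)) 128 := by
    rw [and_n15, on2_eq hn, tab_mul (fun _ _ => toNat_lt _ (by norm_num))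
      (fun _ _ => toNat_mul_lt _ (by norm_num)), tab_xor (by norm_num)
      (fun j _ => (hd j).trans (by norm_num)) (fun _ _ => toNat_mul_lt _ (by norm_num))]
  rw [e1, e2, tab_sub l2 fun j _ => (sub_all _ (hd j) _).1, and_n15,
    tab_congr (g := fun j => sda (G 64 4 (W >>> 31) j) (decide (j < 2 * n))) fun j hj =>
      G_tab (by norm_num) (fun j hj => (Nat.sub_le _ _).trans_lt (l2 j hj)) hj,
    tab_shl fun j _ => by
      have := sda_lt (G 64 4 (W >>> 31) j) (decide (j < 2 * n))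
      omega]

theorem qr_join {q g : ℕ → ℕ} (hq : ∀ u, q u < 2 ^ 24) (hg : ∀ j, g j < 2 ^ 24) {r : ℕ}
    (hr : r < 256) : qr (tab 128 (fun u => q u * 2 ^ 24) 64 |||
      (tab 64 g 128 ||| 18569100589280704123486863360)) r =
      if r < 64 then q r else if r < 192 then g (r - 64) else if r = 192 then 60 else 0 := by
  have l1 : ∀ u < 64, q u * 2 ^ 24 < 2 ^ 128 := fun u _ => by
    have := hq u
    omega
  have l2 : ∀ j < 128, g j < 2 ^ 64 := fun j _ => (hg j).trans (by norm_num)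
  have b1 : ∀ u, ∀ p < 128, (tab 128 (fun u => q u * 2 ^ 24) 64).testBit (128 * u + p) =
      (decide (u < 64) && (decide (24 ≤ p) && (q u).testBit (p - 24))) := fun u p hp => by
    rw [testBit_tab l1 u hp, Nat.testBit_mul_two_pow]
  have b3 : ∀ p, (18569100589280704123486863360 : ℕ).testBit p =
      (decide (88 ≤ p) && (60 : ℕ).testBit (p - 88)) := fun p => by
    rw [show (18569100589280704123486863360 : ℕ) = 60 * 2 ^ 88 by norm_num,
      Nat.testBit_mul_two_pow]
  have t60 : ∀ p, 24 ≤ p → (60 : ℕ).testBit p = false := fun p hp =>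
    testBit_of_lt (w := 24) (by norm_num) hp
  refine Nat.eq_of_testBit_eq fun v => ?_
  unfold qr psn
  rw [Nat.testBit_mod_two_pow, Nat.testBit_div_two_pow, Nat.testBit_or, Nat.testBit_or, b3]
  by_cases hv : v < 24
  · rw [decide_eq_true hv, Bool.true_and]
    split_ifs with h1 h2 h3
    · have e2 : (tab 64 g 128).testBit (v + (128 * r + 24)) = false := by
        rw [show v + (128 * r + 24) = 64 * (2 * r) + (v + 24) by ring,
          testBit_tab l2 _ (by omega), testBit_of_lt (hg _) (by omega), Bool.and_false]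
      have e3 : (decide (88 ≤ v + (128 * r + 24)) &&
          (60 : ℕ).testBit (v + (128 * r + 24) - 88)) = false := by
        rcases Nat.eq_zero_or_pos r with rfl | h0
        · rw [decide_eq_false (by omega), Bool.false_and]
        · rw [t60 _ (by omega), Bool.and_false]
      rw [e2, e3, show v + (128 * r + 24) = 128 * r + (v + 24) by ring, b1 _ _ (by omega),
        decide_eq_true h1, decide_eq_true (by omega : 24 ≤ v + 24), Nat.add_sub_cancel]
      simp
    · have e1 : (tab 128 (fun u => q u * 2 ^ 24) 64).testBit (v + 64 * (r - 64)) = false := by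
        rw [show v + 64 * (r - 64) = 128 * ((r - 64) / 2) + (v + 64 * ((r - 64) % 2)) by omega,
          b1 _ _ (by omega)]
        rcases Nat.mod_two_eq_zero_or_one (r - 64) with h | h
        · rw [h, decide_eq_false (by omega : ¬ 24 ≤ v + 64 * 0), Bool.false_and, Bool.and_false]
        · rw [h, testBit_of_lt (hq _) (by omega), Bool.and_false, Bool.and_false]
      have e3 : (decide (88 ≤ v + 64 * (r - 64)) &&
          (60 : ℕ).testBit (v + 64 * (r - 64) - 88)) = false := by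
        by_cases h0 : r - 64 ≤ 1
        · rw [decide_eq_false (by omega), Bool.false_and]
        · rw [t60 _ (by omega), Bool.and_false]
      rw [e1, e3, add_comm v, testBit_tab l2 _ (by omega), decide_eq_true (by omega : r - 64 < 128)]
      simp
    all_goals
      have e1 : (tab 128 (fun u => q u * 2 ^ 24) 64).testBit (v + (128 * (r - 192) + 88)) =
          false := by
        rw [show v + (128 * (r - 192) + 88) = 128 * (r - 192) + (v + 88) by ring,
          b1 _ _ (by omega), testBit_of_lt (hq _) (by omega), Bool.and_false, Bool.and_false]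
      have e2 : (tab 64 g 128).testBit (v + (128 * (r - 192) + 88)) = false := by
        rw [show v + (128 * (r - 192) + 88) = 64 * (2 * (r - 192) + 1) + (v + 24) by ring,
          testBit_tab l2 _ (by omega), testBit_of_lt (hg _) (by omega), Bool.and_false]
      rw [e1, e2, decide_eq_true (by omega : 88 ≤ v + (128 * (r - 192) + 88))]
    · rw [show v + (128 * (r - 192) + 88) - 88 = v by omega]
      simp
    · rw [t60 _ (by omega)]
      simp
  · rw [decide_eq_false hv, Bool.false_and]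
    symm
    split_ifs
    · exact testBit_of_lt (hq _) (not_lt.1 hv)
    · exact testBit_of_lt (hg _) (not_lt.1 hv)
    · exact t60 _ (not_lt.1 hv)
    · exact Nat.zero_testBit _

theorem qr_iniC {n : ℕ} (hn : n ≤ 64) (R : ℕ) {r : ℕ} (hr : r < 256) : qr (iniC n R) r =
    if r < 64 then nod n R r else if r < 192 then
      sda (G 64 4 (sw R >>> 31) (r - 64)) (decide (r - 64 < 2 * n)) * 2 ^ 8
    else if r = 192 then 60 else 0 := by
  have e : iniC n R = tab 128 (fun u => nod n R u * 2 ^ 24) 64 |||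
      (tab 64 (fun j => sda (G 64 4 (sw R >>> 31) j) (decide (j < 2 * n)) * 2 ^ 8) 128 |||
        18569100589280704123486863360) := by
    rw [← nodes_eq hn R, ← unk_eq hn (sw R)]
    rfl
  rw [e]
  exact qr_join (g := fun j => sda (G 64 4 (sw R >>> 31) j) (decide (j < 2 * n)) * 2 ^ 8)
    (nod_lt n R) (fun j => by
      have := sda_lt (G 64 4 (sw R >>> 31) j) (decide (j < 2 * n))
      omega) hr

/-- fields of the lanes of `sw R` -/
theorem sw_fld {R : ℕ} (hl : ∀ u, rcd R u < 2 ^ 48) {g : ℕ} (hg : g < 64) (i : Bool) {p p' w : ℕ}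
    (hp : p + w ≤ 64) (h : ∀ v < w, (if 6 ≤ v + p ∧ v + p < 18 then so i + (v + p - 6)
        else if 18 ≤ v + p ∧ v + p < 30 then so (!i) + (v + p - 18) else v + p) = v + p') :
    G 64 w (sw R >>> p) (2 * g + i.toNat) = rcd R g / 2 ^ p' % 2 ^ w := by
  refine Nat.eq_of_testBit_eq fun v => ?_
  rw [testBit_G, Nat.testBit_mod_two_pow, Nat.testBit_div_two_pow, Nat.testBit_shiftRight]
  by_cases hv : v < w
  · rw [show p + (64 * (2 * g + i.toNat) + v) = 64 * (2 * g + i.toNat) + (v + p) by ring,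
      sw_bit hl hg i (by omega), h v hv]
  · rw [decide_eq_false hv, Bool.false_and, Bool.false_and]

theorem sw_dep {R : ℕ} (hl : ∀ u, rcd R u < 2 ^ 48) {g : ℕ} (hg : g < 64) (i : Bool) :
    G 64 4 (sw R >>> 31) (2 * g + i.toNat) = rcd R g / 2 ^ 31 % 16 :=
  sw_fld hl hg i (w := 4) (by norm_num) fun v _ => by
    rw [if_neg (by omega), if_neg (by omega)]

theorem sw_lb {R : ℕ} (hl : ∀ u, rcd R u < 2 ^ 48) {g : ℕ} (hg : g < 64) (i : Bool) :
    G 64 4 (sw R >>> 14) (2 * g + i.toNat) = rcd R g / 2 ^ (so i + 8) % 16 :=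
  sw_fld hl hg i (w := 4) (by norm_num) fun v _ => by
    rw [if_pos (by omega)]
    omega

theorem sw_src {R : ℕ} (hl : ∀ u, rcd R u < 2 ^ 48) {g : ℕ} (hg : g < 64) (i : Bool) :
    G 64 6 (sw R >>> 8) (2 * g + i.toNat) = rcd R g / 2 ^ (so i + 2) % 64 :=
  sw_fld hl hg i (w := 6) (by norm_num) fun v _ => by
    rw [if_pos (by omega)]
    omega

theorem lit_all : ∀ s < 64, ∀ j < 128, ∀ k p : Bool,
    (k.toNat * s ||| (64 + j &&& (k ^^ true).toNat * 255) ||| (k && p).toNat * 2 ^ 8) % 256 =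
      (if k then s else 64 + j) ∧
    (k.toNat * s ||| (64 + j &&& (k ^^ true).toNat * 255) ||| (k && p).toNat * 2 ^ 8).testBit 8 =
      (k && p) := by decide +kernel

theorem iniL_eq {n : ℕ} (hn : n ≤ 64) (R : ℕ) : iniL n R = tab 64 (fun j =>
    ((sw R >>> 7).testBit (64 * j)).toNat * G 64 6 (sw R >>> 8) j |||
      (64 + j &&& ((sw R >>> 7).testBit (64 * j) ^^ decide (j < 2 * n)).toNat * 255) |||
      ((sw R >>> 7).testBit (64 * j) && (sw R >>> 6).testBit (64 * j)).toNat * 2 ^ 8) 128 := by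
  have h0 : (0 : ℕ) < 64 := by norm_num
  have e0 := and_o64 (sw R >>> 7)
  have l1 : ∀ j < 128, ((sw R >>> 7).testBit (64 * j)).toNat * G 64 6 (sw R >>> 8) j < 2 ^ 64 :=
    fun j _ => toNat_mul_lt _ ((G_lt _ _ _ _).trans (by norm_num))
  have l2 : ∀ j < 128, (64 + j &&& ((sw R >>> 7).testBit (64 * j) ^^
      decide (j < 2 * n)).toNat * 255) < 2 ^ 64 :=
    fun j _ => Nat.and_lt_two_pow _ (toNat_mul_lt _ (by norm_num))
  have l3 : ∀ j < 128, ((sw R >>> 7).testBit (64 * j) &&
      (sw R >>> 6).testBit (64 * j)).toNat * 2 ^ 8 < 2 ^ 64 :=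
    fun j _ => toNat_mul_lt _ (by norm_num)
  have e1 : (sw R >>> 8) &&& (((sw R >>> 7) &&& o64) * 63) = tab 64 (fun j =>
      ((sw R >>> 7).testBit (64 * j)).toNat * G 64 6 (sw R >>> 8) j) 128 := by
    rw [e0, tab_mul (fun _ _ => toNat_lt _ h0) (fun _ _ => toNat_mul_lt _ (by norm_num))]
    exact and_mask (w := 6) h0 (by norm_num) _ _
  have e2 : idx64 &&& ((((sw R >>> 7) &&& o64) ^^^ on2 n) * 255) = tab 64 (fun j =>
      64 + j &&& ((sw R >>> 7).testBit (64 * j) ^^ decide (j < 2 * n)).toNat * 255) 128 := by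
    rw [e0, on2_eq hn, tab_xor h0 (fun _ _ => toNat_lt _ h0) (fun _ _ => toNat_lt _ h0),
      tab_congr (g := fun j => ((sw R >>> 7).testBit (64 * j) ^^ decide (j < 2 * n)).toNat)
        fun j _ => by cases (sw R >>> 7).testBit (64 * j) <;> cases decide (j < 2 * n) <;> rfl,
      tab_mul (fun _ _ => toNat_lt _ h0) (fun _ _ => toNat_mul_lt _ (by norm_num)),
      and_tab h0 _ (fun _ _ => toNat_mul_lt _ (by norm_num))]
    refine tab_congr fun j hj => ?_
    rw [idx64_eq, G_tab le_rfl (fun j hj => by omega) hj, Nat.mod_eq_of_lt (by omega)]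
  have e3 : ((sw R >>> 6) &&& ((sw R >>> 7) &&& o64)) <<< 8 = tab 64 (fun j =>
      ((sw R >>> 7).testBit (64 * j) && (sw R >>> 6).testBit (64 * j)).toNat * 2 ^ 8) 128 := by
    rw [e0, and_sel h0, tab_shl l3]
  rw [← tab_or h0 (fun j hj => Nat.or_lt_two_pow (l1 j hj) (l2 j hj)) l3, ← tab_or h0 l1 l2,
    ← e1, ← e2, ← e3]
  rfl

theorem ln_iniL {n R : ℕ} (hn : n ≤ 64) (hl : ∀ u, rcd R u < 2 ^ 48) {g : ℕ} (hg : g < n)
    (i : Bool) : ln (iniL n R) (2 * g + i.toNat) % 256 =
      (if (rcd R g).testBit (so i + 1) then rcd R g / 2 ^ (so i + 2) % 64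
        else 64 + (2 * g + i.toNat)) ∧
    (ln (iniL n R) (2 * g + i.toNat)).testBit 8 =
      ((rcd R g).testBit (so i + 1) && (rcd R g).testBit (so i)) := by
  have hi := Bool.toNat_le i
  have hj : 2 * g + i.toNat < 128 := by omega
  have b7 : (sw R >>> 7).testBit (64 * (2 * g + i.toNat)) = (rcd R g).testBit (so i + 1) := by
    rw [Nat.testBit_shiftRight, add_comm 7, sw_bit hl (by omega) i (by norm_num), if_pos (by omega)]
  have b6 : (sw R >>> 6).testBit (64 * (2 * g + i.toNat)) = (rcd R g).testBit (so i) := by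
    rw [Nat.testBit_shiftRight, add_comm 6, sw_bit hl (by omega) i (by norm_num), if_pos (by omega)]
    rfl
  have l : ∀ j < 128, ((sw R >>> 7).testBit (64 * j)).toNat * G 64 6 (sw R >>> 8) j |||
      (64 + j &&& ((sw R >>> 7).testBit (64 * j) ^^ decide (j < 2 * n)).toNat * 255) |||
      ((sw R >>> 7).testBit (64 * j) && (sw R >>> 6).testBit (64 * j)).toNat * 2 ^ 8 < 2 ^ 64 :=
    fun j _ => Nat.or_lt_two_pow (Nat.or_lt_two_pow
      (toNat_mul_lt _ ((G_lt _ _ _ _).trans (by norm_num)))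
      (Nat.and_lt_two_pow _ (toNat_mul_lt _ (by norm_num)))) (toNat_mul_lt _ (by norm_num))
  rw [ln_G, iniL_eq hn, G_tab le_rfl l hj, Nat.mod_eq_of_lt (l _ hj), b7, b6,
    sw_src hl (by omega) i, decide_eq_true (by omega : 2 * g + i.toNat < 2 * n)]
  exact lit_all _ (Nat.mod_lt _ (by norm_num)) _ hj _ _

theorem flag_bit {n : ℕ} (hn : n ≤ 64) (W : ℕ) {c j : ℕ} (hc : c ≤ 16) (hj : j < 2 * n)
    (h : G 64 4 W j + c < 16) :
    ((((W &&& n15) + on2 n * c) &&& (on2 n * 16)) ^^^ (on2 n * 16)).testBit (64 * j + 4) =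
      true := by
  have h0 : (0 : ℕ) < 64 := by norm_num
  have hj' : j < 128 := by omega
  have l0 : ∀ j < 128, (decide (j < 2 * n)).toNat * c < 2 ^ 64 :=
    fun j _ => toNat_mul_lt _ (by omega)
  have l1 : ∀ j < 128, G 64 4 W j + (decide (j < 2 * n)).toNat * c < 2 ^ 64 := fun j _ => by
    have h1 : G 64 4 W j < 16 := G_lt 64 4 W j
    have h2 : (decide (j < 2 * n)).toNat * c < 17 := toNat_mul_lt _ (by omega)
    omega
  have e1 : (on2 n * 16).testBit (64 * j + 4) = true := by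
    rw [on2_eq hn, tab_mul (fun _ _ => toNat_lt _ h0) (fun _ _ => toNat_mul_lt _ (by norm_num)),
      testBit_tab (fun _ _ => toNat_mul_lt _ (by norm_num)) j (by norm_num), decide_eq_true hj',
      decide_eq_true hj]
    rfl
  have e2 : ((W &&& n15) + on2 n * c).testBit (64 * j + 4) = false := by
    rw [and_n15, on2_eq hn, tab_mul (fun _ _ => toNat_lt _ h0) l0, tab_add l1,
      testBit_tab l1 j (by norm_num), decide_eq_true hj, Bool.toNat_true, one_mul,
      testBit_of_lt (w := 4) h le_rfl, Bool.and_false]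
  rw [Nat.testBit_xor, Nat.testBit_and, e1, e2]
  rfl

theorem iniM_spec {n : ℕ} (hn : n ≤ 63) (R X D : ℕ) {j : ℕ} (hj : j < 2 * n) :
    (∀ v < n, (ln (iniM n R X D) j).testBit v = true ∨
      (exAll n R X D).testBit (64 * j + v) = true) ∧
    (G 64 4 (sw R >>> 14) j ≤ 1 → (ln (iniM n R X D) j).testBit 62 = true) ∧
    (G 64 4 (sw R >>> 14) j ≤ 2 → (ln (iniM n R X D) j).testBit 63 = true) := by
  have h0 : (0 : ℕ) < 64 := by norm_num
  have hn' : n ≤ 64 := by omega
  have e : iniM n R X D = (((on2 n * msk n) ^^^ (exAll n R X D &&& (on2 n * msk n))) |||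
      ((((((sw R >>> 14) &&& n15) + on2 n * 14) &&& (on2 n * 16)) ^^^ (on2 n * 16)) <<< 58)) |||
      ((((((sw R >>> 14) &&& n15) + on2 n * 13) &&& (on2 n * 16)) ^^^ (on2 n * 16)) <<< 59) := rfl
  refine ⟨fun v hv => ?_, fun h => ?_, fun h => ?_⟩
  · have hm : msk n < 2 ^ 64 := by
      rw [msk_eq]
      exact (Nat.sub_lt (Nat.two_pow_pos n) Nat.one_pos).trans_le
        (Nat.pow_le_pow_right (by norm_num) hn')
    have e1 : (on2 n * msk n).testBit (64 * j + v) = true := by
      rw [on2_eq hn', tab_mul (fun _ _ => toNat_lt _ h0) (fun _ _ => toNat_mul_lt _ hm),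
        testBit_tab (fun _ _ => toNat_mul_lt _ hm) j (by omega),
        decide_eq_true (by omega : j < 128), decide_eq_true hj, Bool.toNat_true, one_mul,
        testBit_msk, decide_eq_true hv]
      rfl
    rw [testBit_ln _ _ (by omega), e, Nat.testBit_or, Nat.testBit_or, Nat.testBit_xor,
      Nat.testBit_and, e1]
    cases (exAll n R X D).testBit (64 * j + v)
    · left; rfl
    · right; rfl
  · rw [testBit_ln _ _ (by norm_num), e, Nat.testBit_or, Nat.testBit_or, Nat.testBit_shiftLeft,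
      decide_eq_true (by omega : 64 * j + 62 ≥ 58), show 64 * j + 62 - 58 = 64 * j + 4 by omega,
      flag_bit hn' _ (by norm_num) hj (by omega)]
    simp
  · rw [testBit_ln _ _ (by norm_num), e, Nat.testBit_or, Nat.testBit_shiftLeft,
      decide_eq_true (by omega : 64 * j + 63 ≥ 59), show 64 * j + 63 - 59 = 64 * j + 4 by omega,
      flag_bit hn' _ (by norm_num) hj (by omega)]
    simp

end M1

end Pool.Agent.Lib.MP_79d702_lc.U2.V2
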