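import Pool.Agent.Lib.MP_79d702_lc.U2.V2E
import Pool.Agent.Lib.MP_79d702_lc.U2.V2F
import Pool.Agent.Lib.MP_79d702_lc.U2.V2G
import Pool.Agent.Lib.MP_79d702_lc.U2.V2H
import Pool.Agent.Lib.MP_79d702_lc.U2.V2J
import Pool.Agent.Lib.MP_79d702_lc.U2.V2L
import Pool.Agent.Lib.MP_79d702_lc.U2.V2M

/-!
Soundness of the fast checker.
-/

namespace Pool.Agent.Lib.MP_79d702_lc.U2.V2

theorem n_sel_elim {b : Bool} {x y : ℕ} {p : Prop} (e : sel b x y ≠ 0) (h1 : x ≠ 0 → p)
    (h2 : y ≠ 0 → p) : p := by
  cases b
  · exact h2 e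
  · exact h1 e

theorem op_snd {tag : ℕ} {k : KS} (hk : SndS tag k) : SndS tag (op k) := by
  intro n C L M o h pe rem ad t el rw x e W s Ck V K T G
  have hj : (x.shiftRight 4).land 127 < 128 := Nat.lt_succ_of_le Nat.and_le_right
  exact n_sel_elim e
    (fun e => n_sel_elim e (fun e => oCst_snd hk hj W e K T G) fun e => oPas_snd hk hj W e K T G)
    fun e => n_sel_elim e
      (fun e => n_sel_elim e (fun e => oFix_snd hk hj W e K T G)
        fun e => oDead_snd hk hj W e K T G)
      fun e => n_sel_elim e
        (fun e => n_sel_elim e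
          (fun e => n_sel_elim e (fun e => oProj_snd hk hj W e K T G)
            fun e => oAli_snd hk hj W e K T G)
          fun e => n_sel_elim e (fun e => oRew_snd hk hj W e K T G)
            fun e => oMrg_snd hk hj W e K T G)
        fun e => n_sel_elim e
          (fun e => n_sel_elim e (fun e => oDep_snd hk hj W e K T G)
            fun e => n_sel_elim e (fun e => oSel_snd hk hj W e K T G)
              fun e => oAdd_snd hk hj W e K T G)
          fun e => n_sel_elim e (fun e => oEq_snd hk hj W e K T G)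
            fun e => n_sel_elim e (fun e => oNe_snd hk hj W e K T G)
              fun e => oOut_snd hk hj W e K T G

theorem run_snd (tag m : ℕ) : SndS tag (run tag m) := by
  induction m with
  | zero => exact done_snd tag
  | succ m ih => exact op_snd ih

theorem n_exps_snd {k : K} {tag n R X D o f c a y : ℕ} (hk : Snd k) (W : Wf n R X D)
    (e : exps k tag n R X D o f c a y ≠ 0) : HoldsX tag (abs n R X D o f) :=
  n_sel_elim e
    (fun e => n_sel_elim e
      (fun e => n_sel_elim e (fun e => e0_snd hk W e) fun e => e8_snd hk W e)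
      fun e => n_sel_elim e (fun e => sim_snd (run_snd tag a) W e) fun e => e4_snd hk W e)
    fun e => n_sel_elim e
      (fun e => n_sel_elim e (fun e => e2_snd hk W e) fun e => e3_snd hk W e)
      fun e => n_sel_elim e (fun e => iso_snd W e)
        fun e => n_sel_elim e (fun e => e5_snd hk W e) fun e => e6_snd hk W e

theorem body_snd {db : ℕ → ℕ} {lim : ℕ} {k : K} (hdb : ∀ i < lim, Lem db i) (hk : Snd k) :
    Snd (body db lim k) := by
  intro tag n R X D o f x e
  refine ⟨?_, fun W => n_sel_elim e (fun e => (term_snd hdb e).2 W) fun e => ?_⟩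
  · rintro rfl
    have e' : term db lim tag n R X D o 0 ≠ 0 := e
    exact (term_snd (f := f) hdb e').1 rfl
  · exact n_sel_elim e (fun e => n_exps_snd hk W e)
      fun e => n_sel_elim e (fun e => steps_snd hk W e) fun e => badE_snd W (ok_ne e).1

theorem go_snd {db : ℕ → ℕ} {lim : ℕ} (hdb : ∀ i < lim, Lem db i) (m : ℕ) :
    Snd (go db lim m) := by
  induction m with
  | zero => exact fun _ _ _ _ _ _ _ _ e => absurd rfl e
  | succ m ih => exact body_snd hdb ih

theorem n_lems_cons {db : ℕ → ℕ} {x : ℕ} {l : List ℕ} {a : ℕ} (h : lems db (x :: l) a = true) :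
    lemP db a (db a) x ≠ 0 ∧ lems db l (a + 1) = true := by
  have e : lems db (x :: l) a = @Bool.rec (fun _ => Bool) (lems db l (a + 1)) false
      ((lemP db a (db a) x).beq 0) := rfl
  rw [e] at h
  generalize lemP db a (db a) x = z at h ⊢
  cases z with
  | zero => exact absurd h Bool.false_ne_true
  | succ z => exact ⟨Nat.succ_ne_zero z, h⟩

theorem cert_of_lems {db : ℕ → ℕ} (l : List ℕ) (a b : ℕ) (hl : a + l.length = b)
    (h : lems db l a = true) : Cert db a b := by
  induction l generalizing a with
  | nil =>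
    obtain rfl : a = b := hl
    exact id
  | cons x l ih =>
    obtain ⟨h1, h2⟩ := n_lems_cons h
    intro ha
    refine ih (a + 1) (by rw [← hl, List.length_cons]; omega) h2 fun i hi => ?_
    rcases (Nat.lt_succ_iff.1 hi).eq_or_lt with rfl | hi
    · exact lemP_snd (go_snd ha 250) h1
    · exact ha i hi

theorem Cert.trans {db : ℕ → ℕ} {a b c : ℕ} (h : Cert db a b) (h' : Cert db b c) : Cert db a c :=
  fun ha => h' (h ha)

theorem core_of_cert {db : ℕ → ℕ} {N : ℕ} (h : Cert db 0 N)
    (hr : ∀ p q r, ∃ i < N, db i = rootP p q r) : Core :=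
  core_of_roots4 fun p q r => by
    obtain ⟨i, hi, e⟩ := hr p q r
    exact holds_root (h (fun _ hj => absurd hj (Nat.not_lt_zero _)) i hi) e

end Pool.Agent.Lib.MP_79d702_lc.U2.V2
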