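import Pool.Agent.Lib.MP_79d702_lc.U2.V2

/-!
Meaning of the packed states of the fast checker.
-/

namespace Pool.Agent.Lib.MP_79d702_lc.U2

/-- `v` is a gate that does not lie below `h` -/
inductive AX.Ab (A : AX) : ℕ → ℕ → Prop
  | cn {v h : ℕ} : v < A.n → h < A.n → A.cn v h = true → A.Ab v h
  | trans {v w h : ℕ} : A.Ab v w → A.Ab w h → A.Ab v h
  | wire {v h : ℕ} (i : Bool) : v < A.n → A.gate v = true → A.inp v i < A.n →
      A.Ab (A.inp v i) h → A.Ab v h

/-- every fact of `B` follows from the facts of `A` -/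
structure Der (A B : AX) : Prop where
  n : B.n = A.n
  gate : ∀ u < A.n, B.gate u = A.gate u
  dlo : ∀ u < A.n, B.dlo u ≤ A.dlo u
  dex : ∀ u < A.n, B.dex u = true → A.dex u = true ∧ A.dlo u ≤ B.dlo u
  dep : ∀ u < A.n, A.dep u ≤ B.dep u
  sg : ∀ u < A.n, A.gate u = false → B.sg u ≤ 1 → B.sg u = A.sg u
  ng : ∀ g < A.n, A.gate g = true → B.ng g = A.ng g
  inp : ∀ g < A.n, A.gate g = true → ∀ i, B.inp g i = A.inp g i
  pol : ∀ g < A.n, A.gate g = true → ∀ i, A.inp g i < A.n → B.pol g i = A.pol g i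
  lb : ∀ g < A.n, A.gate g = true → ∀ i, B.lb g i ≤ A.lb g i ∨ 9 ≤ A.lb g i ∨
    (A.inp g i < A.n ∧ (A.gate (A.inp g i) = true ∨ B.lb g i ≤ min (A.dlo (A.inp g i)) 8))
  nf : ∀ g < A.n, A.gate g = true → ∀ i, ∀ v < A.n, B.nf g i v = true → A.Excl g i v
  nfw : ∀ g < A.n, ∀ i v, A.n ≤ v → B.nf g i v = false
  out : B.out = A.out
  kd : ∀ u < A.n, B.kd u = A.kd u
  cn : ∀ v < A.n, ∀ h < A.n, B.cn v h = true → A.Ab v h
  cnw : ∀ g < A.n, ∀ v, A.n ≤ v → B.cn g v = false
  full : B.full = true → A.full = true ∧ B.z1 = A.z1 ∧ B.z2 = A.z2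

/-- `B` is `A` up to facts that can be read off the known wires -/
structure Eqv (A B : AX) : Prop where
  n : B.n = A.n
  gate : ∀ u < A.n, B.gate u = A.gate u
  dlo : ∀ u < A.n, B.dlo u = A.dlo u
  dex : ∀ u < A.n, B.dex u = A.dex u
  dep : ∀ u < A.n, B.dep u = A.dep u
  sg : ∀ u < A.n, A.gate u = false → B.sg u = A.sg u
  ng : ∀ g < A.n, A.gate g = true → B.ng g = A.ng g
  inp : ∀ g < A.n, A.gate g = true → ∀ i, B.inp g i = A.inp g i
  pol : ∀ g < A.n, A.gate g = true → ∀ i, A.inp g i < A.n → B.pol g i = A.pol g i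
  lb : ∀ g < A.n, A.gate g = true → ∀ i, B.lb g i = A.lb g i
  nf : ∀ g < A.n, A.gate g = true → ∀ i, ∀ v < A.n, B.nf g i v = true →
    A.nf g i v = true ∨ (A.inp g i < A.n ∧ A.inp g i ≠ v) ∨ A.inp g (!i) = v
  nfw : ∀ g < A.n, ∀ i v, A.n ≤ v → B.nf g i v = false
  out : B.out = A.out
  kd : ∀ u < A.n, B.kd u = A.kd u
  cn : ∀ v < A.n, ∀ h < A.n, B.cn v h = true → A.Ab v h
  cnw : ∀ g < A.n, ∀ v, A.n ≤ v → B.cn g v = false
  full : B.full = A.full ∧ B.z1 = A.z1 ∧ B.z2 = A.z2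

/-- `S'` says no more than `S` -/
structure SLe (S S' : Sim) : Prop where
  n : S'.n = S.n
  al : ∀ u < 64, S'.al u = S.al u
  gate : ∀ u, S.Alive u → S'.gate u = S.gate u
  uf : ∀ u, S.Alive u → S'.uf u = S.uf u
  dex : ∀ u, S.Alive u → S'.dex u = S.dex u
  pend : ∀ u, S.Alive u → S'.pend u = S.pend u
  dlo : ∀ u, S.Alive u → S'.dlo u = S.dlo u
  sg : ∀ u, S.AV u → S'.sg u = S.sg u
  c : ∀ r ≤ 192, S'.c r = S.c r ∨ 60 ≤ S'.c r
  sd : ∀ r ≤ 192, S.sd r ≤ S'.sd r
  inp : ∀ g, S.AG g → ∀ i, S'.inp g i = S.inp g i ∧ S'.pol g i = S.pol g i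
  may : ∀ r ≤ 192, ∀ v < 64, S.may r v = true → S'.may r v = true
  out : S'.out = S.out
  hst : S'.hst = S.hst
  cnt : S'.rem = S.rem ∧ S'.add = S.add ∧ S'.t = S.t ∧ S'.elim = S.elim ∧ S'.rew = S.rew

/-- the start patterns: gates `0, …, 3` of depth at most `1, …, 4` in a chain, variables `4, 5` -/
def rootAP4 (p q r : Bool) : AP where
  n := 6
  gate := fun u => decide (u < 4)
  dlo := fun _ => 1
  dex := fun _ => false
  dep := fun u => if u < 4 then u + 1 else 0
  sg := fun _ => 2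
  ng := fun _ => false
  inp := fun g i => if g = 0 then (if i then 5 else 4) else if i then 63 else g - 1
  pol := fun g i => if i then false else
    if g = 1 then p else if g = 2 then q else if g = 3 then r else false
  lb := fun _ _ => 0
  nf := fun _ _ _ => false
  out := 63

namespace V2

/-- the record of the node `u` -/
def rcd (R u : ℕ) : ℕ := R / 2 ^ (128 * u) % 2 ^ 128

/-- offset of the slot `i` in a record -/
def so (i : Bool) : ℕ := if i then 18 else 6

def abs (n R X D o f : ℕ) : AX where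
  n := n
  gate := fun u => (rcd R u).testBit 30
  dlo := fun u => rcd R u % 16
  dex := fun u => (rcd R u).testBit 4
  dep := fun u => 15 - rcd R u / 2 ^ 31 % 16
  sg := fun u => if (rcd R u).testBit 35 then ((rcd R u).testBit 5).toNat else 2
  ng := fun u => (rcd R u).testBit 5
  inp := fun g i => if (rcd R g).testBit (so i + 1) then rcd R g / 2 ^ (so i + 2) % 64 else 63
  pol := fun g i => (rcd R g).testBit (so i)
  lb := fun g i => rcd R g / 2 ^ (so i + 8) % 16
  nf := fun g i v => decide (v < n) && X.testBit (64 * (2 * g + i.toNat) + v)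
  out := o
  kd := fun u => rcd R u / 2 ^ 40 % 256
  cn := fun v h => decide (h < n) &&
    (D.testBit (64 * (2 * h) + v) || D.testBit (64 * (2 * h + 1) + v))
  z1 := f % 64
  z2 := f / 64 % 64
  full := f.testBit 12

structure Wf (n R X D : ℕ) : Prop where
  n63 : n ≤ 63
  top : ∀ u, n ≤ u → rcd R u = 0
  lane : ∀ u, rcd R u < 2 ^ 48
  src : ∀ g i, (rcd R g).testBit (so i + 1) = true → rcd R g / 2 ^ (so i + 2) % 64 < n
  x : ∀ g i, ∀ v < 64, X.testBit (64 * (2 * g + Bool.toNat i) + v) = true →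
    g < n ∧ (v < n ∨ (rcd R g).testBit (so i + 1) = true)
  d : ∀ j, ∀ v < 64, D.testBit (64 * j + v) = true → j < 2 * n ∧ v < n

/-- soundness of a continuation -/
def Snd (k : K) : Prop := ∀ tag n R X D o f x, k tag n R X D o f x ≠ 0 →
  x ≠ 0 ∧ (Wf n R X D → HoldsX tag (abs n R X D o f))

/-- the pattern that is stored in `P` -/
def pAbs (P : ℕ) : AP := (abs (pN P) (pR P) (pX P) 0 (pO P) 0).toAP

def Lem (db : ℕ → ℕ) (i : ℕ) : Prop := wfE (db i) = 0 ∧ Holds (pT (db i)) (pAbs (db i))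

def Cert (db : ℕ → ℕ) (a b : ℕ) : Prop := (∀ i < a, Lem db i) → ∀ i < b, Lem db i

/-- the stored form of `rootAP4` -/
def rootP (p q r : Bool) : ℕ :=
  0x7800000017800000015c00002816400001816c0000081740580481000bf106 +
    p.toNat * 2 ^ 74 + q.toNat * 2 ^ 110 + r.toNat * 2 ^ 146

/-- position of the record of a reference -/
def psn (r : ℕ) : ℕ :=
  if r < 64 then 128 * r + 24 else if r < 192 then 64 * (r - 64) else 128 * (r - 192) + 88

/-- the record of the reference `r < 256` -/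
def qr (C r : ℕ) : ℕ := C / 2 ^ psn r % 2 ^ 24

/-- lane `j` of 64 bits -/
def ln (L j : ℕ) : ℕ := L / 2 ^ (64 * j) % 2 ^ 64

def absS (n C L M o h pe rem ad t el rw : ℕ) : Sim where
  n := n
  al := fun u => (qr C u).testBit 18
  gate := fun u => (qr C u).testBit 17
  uf := fun u => (qr C u).testBit 19
  dex := fun u => (qr C u).testBit 16
  pend := fun u => pe.testBit u
  dlo := fun u => qr C u / 2 ^ 12 % 16
  c := fun r => qr C r % 256
  sg := fun u => qr C u / 2 ^ 20 % 4
  sd := fun r => qr C r / 2 ^ 8 % 16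
  inp := fun g i => ln L (2 * g + i.toNat) % 256
  pol := fun g i => (ln L (2 * g + i.toNat)).testBit 8
  may := fun r v => if r < 64 then decide (v = r) else
    if r < 192 then (ln M (r - 64)).testBit v else decide (v = 61)
  out := o
  hst := h
  rem := rem
  add := ad
  t := t
  elim := el
  rew := rw

structure WS (n C : ℕ) : Prop where
  n61 : n ≤ 61
  al : ∀ r < 256, (qr C r).testBit 18 = true → r < n
  c : qr C 192 % 256 = 60

/-- soundness of a continuation of the simulation -/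
def SndS (tag : ℕ) (k : KS) : Prop := ∀ n C L M o h pe rem ad t el rw x,
  k n C L M o h pe rem ad t el rw x ≠ 0 → WS n C → ∀ s Ck V, Ctx s Ck V →
    (Degen s Ck).card ≤ tag → Good (absS n C L M o h pe rem ad t el rw) s Ck → Win s Ck V

end V2

end Pool.Agent.Lib.MP_79d702_lc.U2
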