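import Pool.Agent.Lib.MP_79d702_lc.U2.V2

/-!
A denser format for the certificates.  The stream is decoded with the help of the current state;
what is decoded is then checked by the functions of the fast checker.
-/

namespace Pool.Agent.Lib.MP_79d702_lc.U2.V2

noncomputable section

def k8 : ℕ := (nat_lit 0x8080808080808080808080808080808080808080808080808080808080808080808080808080808080808080808080808080808080808080808080808080808)
def k64 : ℕ := o64.mul (nat_lit 64)
def k127 : ℕ := o64.mul (nat_lit 127)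
def k510 : ℕ := o64.mul (nat_lit 510)
def k516 : ℕ := o64.mul (nat_lit 32640)
def k31 : ℕ := o64.mul (nat_lit 2147483647)
def k37 : ℕ := o64.mul (nat_lit 137438953408)
def kG : ℕ := o64.mul (nat_lit 1038114308)
def kH : ℕ := o64.mul (nat_lit 70869582336)
def kL : ℕ := o64.mul (nat_lit 1073971328)
def k30 : ℕ := o64.mul (nat_lit 1073741824)
def kB : ℕ := o64.mul (nat_lit 7680)
def k97 : ℕ := o36.mul (nat_lit 4097)

/-- removes the `k` lowest bits -/
def sK (c k : ℕ) : ℕ := @Nat.rec (fun _ => ℕ) c (fun _ a => a.land (a.sub (nat_lit 1))) k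

/-- the lowest bit -/
def low (c : ℕ) : ℕ := c.xor (c.land (c.sub (nat_lit 1)))

def pk2 (k : ℕ → ℕ → ℕ) (c x m : ℕ) : ℕ :=
  k (((low (sK c (x.mod m))).mod (nat_lit 340282366920938463426481119284349108225)).div
    (nat_lit 18446744073709551615)) (x.div m)

/-- chooses one of the lanes that are marked at bit 6 in `c` -/
def pk (k : ℕ → ℕ → ℕ) (c x : ℕ) : ℕ :=
  @Nat.rec (fun _ => ℕ)
    (k ((c.mod (nat_lit 340282366920938463426481119284349108225)).div (nat_lit 18446744073709551615)) x)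
    (fun _ _ => pk2 k c x ((c.mod (nat_lit 18446744073709551615)).shiftRight (nat_lit 6))) (c.land (c.sub (nat_lit 1)))

/-! ### Maps -/

abbrev KG : Type := ℕ → ℕ → ℕ → ℕ → ℕ → ℕ → ℕ

/-- the image of the next gate is known -/
def gD (r : KG) (W L Z p M O x : ℕ) : ℕ :=
  let w := (x.land (nat_lit 1)).mul (nat_lit 4)
  let b := (M.shiftRight p).land (nat_lit 504)
  let v := ((W.shiftRight ((b.add w).mul (nat_lit 16))).land (Z.land (nat_lit 2097151))).xor (L.land (nat_lit 8194))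
  r (L.shiftRight (nat_lit 36)) (Z.shiftRight (nat_lit 36)) (p.add (nat_lit 8))
    (((M.lor ((v.land (nat_lit 510)).shiftLeft (L.land (nat_lit 504)))).lor
      ((v.shiftRight (nat_lit 12)).shiftLeft ((L.shiftRight (nat_lit 12)).land (nat_lit 504)))).lor (w.shiftLeft p))
    (O.xor (Nat.shiftLeft (nat_lit 1180591620717411303488) (b.mul (nat_lit 16)))) (x.shiftRight (nat_lit 1))

/-- the source of the first slot is known -/
def u0 (r : KG) (W L Z p M O h y : ℕ) : ℕ :=
  let v := ((W.shiftRight h).land (Z.land (nat_lit 2097151))).xor (L.land (nat_lit 8194))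
  r (L.shiftRight (nat_lit 36)) (Z.shiftRight (nat_lit 36)) (p.add (nat_lit 8))
    ((M.lor ((v.shiftRight (nat_lit 12)).shiftLeft ((L.shiftRight (nat_lit 12)).land (nat_lit 504)))).lor
      ((((v.land (nat_lit 1)).mul (nat_lit 2)).lor (h.shiftRight (nat_lit 4))).shiftLeft p))
    (O.xor (Nat.shiftLeft (nat_lit 1180591620717411303488) (h.land (nat_lit 16256)))) y

/-- the source of the second slot is known -/
def u1 (r : KG) (W L Z p M O h y : ℕ) : ℕ :=
  let v := ((W.shiftRight (h.xor (nat_lit 64))).land (Z.land (nat_lit 2097151))).xor (L.land (nat_lit 8194))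
  r (L.shiftRight (nat_lit 36)) (Z.shiftRight (nat_lit 36)) (p.add (nat_lit 8))
    ((M.lor ((v.land (nat_lit 510)).shiftLeft (L.land (nat_lit 504)))).lor
      ((((v.land (nat_lit 1)).mul (nat_lit 2)).lor ((h.xor (nat_lit 64)).shiftRight (nat_lit 4))).shiftLeft p))
    (O.xor (Nat.shiftLeft (nat_lit 1180591620717411303488) (h.land (nat_lit 16256)))) y

def u2 (r : KG) (W L Z p M O h y : ℕ) : ℕ :=
  let v := ((W.shiftRight h).land (Z.land (nat_lit 2097151))).xor (L.land (nat_lit 8194))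
  r (L.shiftRight (nat_lit 36)) (Z.shiftRight (nat_lit 36)) (p.add (nat_lit 8))
    (((M.lor ((v.land (nat_lit 510)).shiftLeft (L.land (nat_lit 504)))).lor
      ((v.shiftRight (nat_lit 12)).shiftLeft ((L.shiftRight (nat_lit 12)).land (nat_lit 504)))).lor
      ((((v.land (nat_lit 1)).mul (nat_lit 2)).lor (h.shiftRight (nat_lit 4))).shiftLeft p))
    (O.xor (Nat.shiftLeft (nat_lit 1180591620717411303488) (h.land (nat_lit 16256)))) y

def gF (r : KG) (W H L Z p M O x : ℕ) : ℕ :=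
  let U := @Nat.rec (fun _ => ℕ) O (fun _ _ => O.land H) p
  pk (u2 r W L Z p M O)
    ((((((((((W.land kG).shiftLeft (nat_lit 6)).lor kH).sub (O.mul (L.land (nat_lit 1038114308)))).land kH).xor kH).add
      k37).shiftRight (nat_lit 31)).land U).xor U) x

def gB (r : KG) (W A L Z p M O x s _t : ℕ) : ℕ :=
  pk (u1 r W L Z p M O)
    (((((A.xor (O.mul ((s.add (nat_lit 5)).xor ((L.shiftRight (nat_lit 12)).land (nat_lit 2))))).add k516).shiftRight (nat_lit 9)).land
      O).xor O) x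

def gA (r : KG) (W A L Z p M O x s _t : ℕ) : ℕ :=
  pk (u0 r W L Z p M O)
    (((((A.xor (O.mul ((s.add (nat_lit 5)).xor (L.land (nat_lit 2))))).add k516).shiftRight (nat_lit 9)).land O).xor O) x

def gN (r : KG) (W A H L Z p M O x : ℕ) : ℕ :=
  @Nat.rec (fun _ => ℕ) (gF r W H L Z p M O x) (gB r W A L Z p M O x)
    ((M.shiftRight ((L.shiftRight (nat_lit 12)).land (nat_lit 504))).land ((Z.land (nat_lit 2097151)).shiftRight (nat_lit 12)))

def gM (r : KG) (W A H L Z p M O x : ℕ) : ℕ :=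
  @Nat.rec (fun _ => ℕ) (gN r W A H L Z p M O x) (gA r W A L Z p M O x)
    ((M.shiftRight (L.land (nat_lit 504))).land (Z.land (nat_lit 510)))

def gate (r : KG) (W A H L Z p M O x : ℕ) : ℕ :=
  @Nat.rec (fun _ => ℕ) (gM r W A H L Z p M O x) (fun _ _ => gD r W L Z p M O x)
    ((M.shiftRight p).land (nat_lit 504))

def gates (e : ℕ → ℕ → ℕ) (W A H k : ℕ) : KG :=
  @Nat.rec (fun _ => KG) (fun _ _ _ M _ x => e M x) (fun _ r => gate r W A H) k

def fin (P i lim tag n R X D o M x : ℕ) : ℕ :=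
  let s := @Nat.rec (fun _ => ℕ) (nat_lit 0) (fun _ _ => (nat_lit 1)) (((pL P).shiftRight (nat_lit 35)).land o36)
  ok (((embE P n R X D o
      (((M.sub (k8.land (msk ((pN P).mul (nat_lit 8))))).lor (x.land s)).shiftLeft (nat_lit 22))).lor
    (tag.sub (pT P))).lor ((i.add (nat_lit 1)).sub lim)) (x.shiftRight s)

def edge (P i lim tag n R X D o x : ℕ) : ℕ :=
  let L := pL P
  let W := (((sw R).shiftRight (nat_lit 5)).add ((on2 n).mul (nat_lit 32776))).shiftLeft (nat_lit 128)
  gates (fin P i lim tag n R X D o) W ((W.land k510).shiftLeft (nat_lit 6))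
    (((o64.mul ((((P.shiftRight (nat_lit 28)).land (nat_lit 15)).mul (nat_lit 512)).add (nat_lit 8192))).sub (W.land kB)).shiftRight (nat_lit 7))
    (pG P) (L.shiftRight (nat_lit 5))
    ((((L.shiftRight (nat_lit 7)).land k97).mul (nat_lit 506)).lor (((L.shiftRight (nat_lit 7)).lor (L.shiftRight (nat_lit 19))).land o36))
    (nat_lit 0) (((o.add (nat_lit 1)).mul (nat_lit 8)).shiftLeft ((pO P).mul (nat_lit 8)))
    ((((sw R).shiftRight (nat_lit 30)).land o64).shiftLeft (nat_lit 134)) x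

/-! ### Case distinctions without lists -/

/-- `j` for `c = 2 ^ (64 j)` -/
def ix64 (c : ℕ) : ℕ := (c.mod (nat_lit 340282366920938463426481119284349108225)).div (nat_lit 18446744073709551615)

/-- `j` for `c = 2 ^ j` -/
def ix1 (c : ℕ) : ℕ :=
  (Nat.shiftRight (nat_lit 0x218868f01f892dc5a234e5595fbabc9d6fd27fd52e8b58e980805bf7b19cd47aa73cf9128d004d984e9ed03035e83c29c1000)
    ((c.mod (nat_lit 67)).mul (nat_lit 6))).land (nat_lit 63)

/-- runs `f` on all bits of `m`, divided by `s` -/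
def cvr (f : ℕ → ℕ → ℕ) (i : ℕ → ℕ) (s k : ℕ) : ℕ → ℕ → ℕ :=
  @Nat.rec (fun _ => ℕ → ℕ → ℕ) (fun _ _ => (nat_lit 0))
    (fun _ r m y => @Nat.rec (fun _ => ℕ) y
      (fun _ _ => r (m.xor (one ((i (low m)).mul s))) (f (i (low m)) y)) m) k

def g0 (k : ℕ → ℕ → K) (tag n R X D o f u y : ℕ) : ℕ :=
  let W := sw R
  let need := (W.shiftRight 30).land o64
  ok ((((u.add 1).sub n).lor (n.sub 62)).lor ((kdq R u).sub 14))
    (cvr (fun j => kids (fun R' X' D' => k 311296 j tag n R' X' D' o f) R X D u j) ix64 64 130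
      ((need.land (((W.shiftRight 7).lor ((X.lor D).shiftRight u)).lor
        ((((W.shiftRight 14).land n15).add ((on2 n).mul (thr (rc R u)))).shiftRight 4))).xor need)
      (e0c (k 278528 (n.mul 2)) tag n R X D o f u (e0b (k 16384 u) tag n R X D o f u
        (e0a (k 32768 u) tag n R X D o f u y))))

def g2 (k : ℕ → ℕ → K) (tag n R X D o f j y : ℕ) : ℕ :=
  ok ((nU R j).lor (n.sub 62))
    (cvr (fun v => kids (fun R' X' D' => k 294912 j tag n R' X' D' o f) R X D v j) ix1 1 70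
      (((msk n).land ((row n R X D j).lor
        (sel ((lbq R j).ble 8) 0 ((gmOf R).xor (msk n))))).xor (msk n))
      (fresh (fun R' X' D' => k 49152 j tag (n.add 1) R' X' D' o f) (ngR n R) X (ngD n D) n j
        (sel ((lbq R j).ble 8)
          (fresh (fun R' X' D' => k 65536 j tag (n.add 1) R' X' D' o f) (nvR n R) X D n j y) y)))

def g3 (k : ℕ → ℕ → K) (tag n R X D o f j y : ℕ) : ℕ :=
  let l := lbq R j
  ok (((nU R j).lor (n.sub 62)).lor (l.sub 7))
    (cvr (fun v => kids (fun R' X' D' => k 81920 j tag n (exR R' v l) X' D' o f) R X D v j) ix1 1 70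
      (((msk n).land (((row n R X D j).lor (gmOf R)).lor (hiOf R l))).xor (msk n))
      (fresh (fun R' X' D' => k 98304 j tag (n.add 1) (exR R' n l) X' D' o f) (nvR n R) X D n j
        (k 114688 j tag n (R.add (one ((pos j).add 8))) X D o f y)))

def exps3 (k : ℕ → ℕ → K) (t tag n R X D o f c a y : ℕ) : ℕ :=
  sel (c.ble (nat_lit 3))
    (sel (c.ble (nat_lit 1)) (sel (c.ble (nat_lit 0)) (g0 k tag n R X D o f a y) (e8 (k t a) tag n R X D o f a y))
      (sel (c.ble (nat_lit 2)) (sim tag n R X D o a y) (e4 (k t a) tag n R X D o f a y)))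
    (sel (c.ble (nat_lit 5)) (sel (c.ble (nat_lit 4)) (g2 k tag n R X D o f a y) (g3 k tag n R X D o f a y))
      (sel (c.ble (nat_lit 6)) (iso n R o y)
        (sel (c.ble (nat_lit 7)) (e5 (k t a) tag n R X D o f a y) (e6 (k t a) tag n R X D o f a y))))

def rest3 (k : ℕ → ℕ → K) (t tag n R X D o f c a y : ℕ) : ℕ :=
  sel (c.ble (nat_lit 18))
    (sel (c.ble (nat_lit 8)) (exps3 k t tag n R X D o f c a y) (steps (k t a) tag n R X D o f c a y))
    (ok (badE n R o f c a) y)

/-! ### Tokens -/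

/-- one of the slots that are fed by `t` -/
def fed (k : ℕ → ℕ → ℕ) (R t q y : ℕ) : ℕ :=
  pk (fun h => k (((h.shiftRight (nat_lit 6)).lor (q.land (nat_lit 1))).xor (q.shiftRight (nat_lit 1))))
    ((((((((sw R).shiftRight (nat_lit 7)).land k127).xor (o64.mul ((t.mul (nat_lit 2)).add (nat_lit 1)))).add k127).shiftRight
      (nat_lit 1)).land k64).xor k64) y

/-- the argument of a token -/
def arg (k : ℕ → ℕ → ℕ) (n R a m q y : ℕ) : ℕ :=
  sel (m.ble (nat_lit 3))
    (sel (m.ble (nat_lit 1)) (sel (m.ble (nat_lit 0)) (k a y) (k (y.mod (n.shiftLeft q)) (y.div (n.shiftLeft q))))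
      (sel (m.ble (nat_lit 2)) (k (src R a) y) (k ((a.lor (nat_lit 1)).xor q) y)))
    (sel (m.ble (nat_lit 6))
      (sel (m.ble (nat_lit 4)) (k (((src R a).mul (nat_lit 2)).add (y.land (nat_lit 1))) (y.shiftRight (nat_lit 1)))
        (sel (m.ble (nat_lit 5)) (fed k R (a.shiftRight (nat_lit 1)) q y) (k (y.land (msk q)) (y.shiftRight q))))
      (sel (m.ble (nat_lit 7))
        (pk (fun h => k (h.shiftRight (nat_lit 6)))
          (((((((sw R).land kL).xor k30).add k31).shiftRight (nat_lit 25)).land k64).xor k64) y)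
        (sel (m.ble (nat_lit 8)) (fed k R (src R a) q y) (fed k R a q y))))

def tokE (db rk : ℕ → ℕ) (lim tag n R X D o e y : ℕ) : ℕ :=
  let b := (e.shiftRight (nat_lit 5)).land (nat_lit 31)
  let t := (e.shiftRight (nat_lit 11)).add (y.land (msk b))
  @Nat.rec (fun _ => ℕ) (nat_lit 0) (fun i _ => edge (db i) i lim tag n R X D o (y.shiftRight b))
    (@Nat.rec (fun _ => ℕ) (lim.sub t) (fun _ _ => rk t) (e.land (nat_lit 1024)))

def tokN (db : ℕ → ℕ) (lim : ℕ) (k : ℕ → ℕ → K) (a tag n R X D o f e y : ℕ) : ℕ :=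
  let m := (e.shiftRight (nat_lit 10)).land (nat_lit 15)
  sel (m.ble (nat_lit 9))
    (arg (rest3 k (e.land (nat_lit 507904)) tag n R X D o f ((e.shiftRight (nat_lit 5)).land (nat_lit 31))) n R a m
      (e.shiftRight (nat_lit 19)) y)
    (sel (m.ble (nat_lit 10)) (k (nat_lit 0) a tag n R X D o f y) (term db lim tag n R X D o y))

def tok1 (db rk : ℕ → ℕ) (lim : ℕ) (k : ℕ → ℕ → K) (a tag n R X D o f e y : ℕ) : ℕ :=
  @Nat.rec (fun _ => ℕ) (tokN db lim k a tag n R X D o f e y)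
    (fun _ _ => tokE db rk lim tag n R X D o e y) (e.land (nat_lit 16))

def tok (db rk : ℕ → ℕ) (T lim : ℕ) (k : ℕ → ℕ → K) (t a tag n R X D o f x : ℕ) : ℕ :=
  let e := (T.shiftRight (((x.land (nat_lit 511)).mul (nat_lit 32)).add t)).land (nat_lit 4294967295)
  @Nat.rec (fun _ => ℕ) (nat_lit 0)
    (fun _ _ => tok1 db rk lim k a tag n R X D o f e (x.shiftRight (e.land (nat_lit 15)))) x

def go3 (db rk : ℕ → ℕ) (T lim m : ℕ) : ℕ → ℕ → K :=
  @Nat.rec (fun _ => ℕ → ℕ → K) (fun _ _ _ _ _ _ _ _ _ _ => (nat_lit 0)) (fun _ r => tok db rk T lim r) m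

def lemK (k : K) (P x : ℕ) : ℕ :=
  ok (wfE P) (k (pT P) (pN P)
    (ldR (pR P) ((pR P).add (sel ((pO P).beq (nat_lit 63)) (nat_lit 0) (one (((pO P).mul (nat_lit 128)).add (nat_lit 40))))) ((pG P).mul (nat_lit 2)))
    (ldX (pR P) (pX P) ((pG P).mul (nat_lit 2)))
    (ldD (pR P) (diag2.land (msk ((pG P).mul (nat_lit 128)))) ((pG P).mul (nat_lit 2))) (pO P) (nat_lit 0) x)

/-- `k` lemmas, the first has the number `j - 1` -/
def many (db rk : ℕ → ℕ) (T k : ℕ) : ℕ → ℕ → ℕ :=
  @Nat.rec (fun _ => ℕ → ℕ → ℕ) (fun _ x => x)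
    (fun _ r j x => @Nat.rec (fun _ => ℕ) (nat_lit 0)
      (fun i _ => @Nat.rec (fun _ => ℕ) (nat_lit 0) (fun z _ => r (i.add (nat_lit 2)) (z.add (nat_lit 1)))
        (lemK (go3 db rk T i (nat_lit 400) (nat_lit 131072) (nat_lit 0)) (db i) x)) j) k

def items (db rk : ℕ → ℕ) (T : ℕ) (l : List ℕ) : ℕ → ℕ :=
  @List.rec ℕ (fun _ => ℕ → ℕ) (fun j => j)
    (fun x _ r j => @Nat.rec (fun _ => ℕ) (nat_lit 0) (fun _ _ => r (j.add (x.land (nat_lit 63))))
      (many db rk T (x.land (nat_lit 63)) j (x.shiftRight (nat_lit 6)))) l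

/-- joins pieces of 1024 bits -/
def jn (x y : ℕ) : ℕ := x.add (y.shiftLeft (nat_lit 1024))

end

end Pool.Agent.Lib.MP_79d702_lc.U2.V2
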