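import Pool.Agent.Lib.MP_79d702_lc.U2.V2N
import Pool.Agent.Lib.MP_79d702_lc.U2.V3

/-!
Soundness of the checker for the denser format.
-/

namespace Pool.Agent.Lib.MP_79d702_lc.U2.V2

section

variable {k : ℕ → ℕ → K} {tag n R X D o f a y : ℕ}

theorem v3_cvr {F : ℕ → ℕ → ℕ} (hF : ∀ a y, F a y ≠ 0 → y ≠ 0) {i : ℕ → ℕ} {s t m : ℕ}
    (h : cvr F i s t m y ≠ 0) : y ≠ 0 ∧ ∀ b, m.testBit b = true →
      ∃ a y', b = a * s ∧ F a y' ≠ 0 := by
  induction t generalizing m y with
  | zero => exact absurd rfl h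
  | succ t ih =>
    cases m with
    | zero => exact ⟨h, fun b hb => by simp at hb⟩
    | succ m =>
      obtain ⟨h1, h2⟩ := ih (show cvr F i s t ((m + 1).xor (one ((i (low (m + 1))).mul s)))
        (F (i (low (m + 1))) y) ≠ 0 from h)
      refine ⟨hF _ _ h1, fun b hb => ?_⟩
      by_cases e : b = (i (low (m + 1))).mul s
      · exact ⟨_, _, e, h1⟩
      · refine h2 b ?_
        rw [v2e_xor, hb, testBit_one, decide_eq_false e]
        rfl

theorem v3_cov {F : ℕ → ℕ → ℕ} (hF : ∀ a y, F a y ≠ 0 → y ≠ 0) {i : ℕ → ℕ} {s t need c : ℕ}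
    (h : cvr F i s t ((need.land c).xor need) y ≠ 0) : y ≠ 0 ∧ ∀ b, need.testBit b = true →
      c.testBit b = true ∨ ∃ a y', b = a * s ∧ F a y' ≠ 0 := by
  obtain ⟨h1, h2⟩ := v3_cvr hF h
  refine ⟨h1, fun b hb => ?_⟩
  cases e : c.testBit b
  · exact Or.inr (h2 b (by rw [v2e_xor, v2e_and, hb, e]; rfl))
  · exact Or.inl rfl

theorem g0_snd (hk : ∀ c p, Snd (k c p)) (W : Wf n R X D) (h : g0 k tag n R X D o f a y ≠ 0) :
    HoldsX tag (abs n R X D o f) := by
  have hc : ∀ {c p : ℕ} (t m o' : ℕ) R X D y, k c p t m R X D o' f y ≠ 0 → y ≠ 0 :=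
    fun _ _ _ _ _ _ _ e => (hk _ _ _ _ _ _ _ _ _ _ e).1
  obtain ⟨h1, h2⟩ := ok_ne h
  rw [lor_eq_zero, lor_eq_zero] at h1
  have hu : a < n := v2e_sub h1.1.1
  have hn : n ≤ 62 := v2e_sub h1.1.2
  have hq := kdq_eq (n := n) (R := R) (X := X) (D := D) (o := o) (f := f) a
  have hd : (abs n R X D o f).kd a ≤ 14 := hq ▸ v2e_sub h1.2
  obtain ⟨h3, h4⟩ := v3_cov (fun _ _ e => v2e_kids_ne (hc tag n o) e) h2
  obtain ⟨h5, h6⟩ := v2e_kid2 (fun _ _ => hc tag (n.add 1) o _ _ _ _) h3
  have h7 : e0a (k 32768 a) tag n R X D o f a y ≠ 0 := by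
    rw [e0b, sel_eq] at h5
    split_ifs at h5
    exacts [hc _ _ _ _ _ _ _ h5, h5]
  refine exp0 hu (show n < 63 by omega) (fun e => ?_) (fun e e' => ?_) (fun p => ?_)
    fun g hg hkg i hi => ?_
  · rw [e0a, sel_eq, dlo_eq (n := n) (X := X) (D := D) (o := o) (f := f), hq,
      if_pos (Nat.ble_eq_true_of_le e)] at h7
    exact v2e_fin (hk _ _) (exR_eqv W hu (by omega)) h7
  · rw [e0b, sel_eq, if_pos] at h5
    · exact v2e_fin (hk _ _) (out_eqv W hu hd) h5
    · rw [show (nG R a).lor (n.sub o) = 0 from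
        lor_eq_zero.2 ⟨(nG_eq a).2 e, Nat.sub_eq_zero_iff_le.2 e'⟩]
      rfl
  · obtain ⟨y', h8⟩ := h6 p
    obtain ⟨W₁, E₁⟩ := new_gate (o := o) (f := f) W hn
    have e1 : ((abs n R X D o f).new true).inp n false = 63 :=
      congrFun (show _ = fun _ => 63 from if_pos rfl) false
    have e2 : ((abs n R X D o f).new true).ng n = false := if_pos rfl
    have e3 : ((abs n R X D o f).new true).kd a = (abs n R X D o f).kd a := if_neg hu.ne
    have h9 := v2e_conn W₁ E₁ (u := a) (g := n) (i := false) (Nat.lt_succ_of_lt hu)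
      (Nat.lt_succ_self n) (if_pos rfl) (by rw [e1]; exact Nat.succ_le_succ hn)
      (by rw [e3]; exact hd) false p
    rw [e2, show 2 * n + false.toNat = n.mul 2 from Nat.mul_comm 2 n, v2e_flip,
      Bool.xor_self] at h9
    exact v2e_fin (hk _ _) h9 h8
  · have hg' : g < n := hg
    have hi' := Bool.toNat_le i
    have hneed : ((((sw R).shiftRight 30).land o64)).testBit (64 * (2 * g + i.toNat)) = true := by
      have e := LA.testBit_tab (s := 64) (k := 128) (f := fun _ => 1) (fun _ _ => by norm_num)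
        (2 * g + i.toNat) (v := 0) (by norm_num)
      rw [add_zero] at e
      rw [v2e_and, v2e_shr, add_comm 30, sw_bit W.lane (by omega) i (by omega), o64_eq, e,
        if_neg (by omega), if_neg (by omega), decide_eq_true (by omega)]
      exact (Bool.and_true _).trans hkg
    rcases h4 _ hneed with e | ⟨j, y', e1, e2⟩
    · left
      rw [v2e_or, v2e_or, v2e_shr, v2e_shr, v2e_shr, v2e_or] at e
      simp only [Bool.or_eq_true] at e
      rcases e with (e | e | e) | e
      · rw [add_comm 7, sw_bit W.lane (by omega) i (by omega), if_pos (by omega)] at e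
        exact absurd ((wf_known (o := o) (f := f) W g i).1 e) (not_lt.2 hi)
      · left
        show (decide (a < n) && X.testBit (64 * (2 * g + i.toNat) + a)) = true
        rw [decide_eq_true hu, add_comm _ a, e]
        rfl
      · right; right; right; right; left
        show (decide (g < n) &&
          (D.testBit (64 * (2 * g) + a) || D.testBit (64 * (2 * g + 1) + a))) = true
        rw [add_comm a] at e
        rw [decide_eq_true hg']
        cases i
        · rw [show D.testBit (64 * (2 * g) + a) = true from e]; rfl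
        · rw [show D.testBit (64 * (2 * g + 1) + a) = true from e, Bool.or_true]; rfl
      · right; right; right; right; right; right
        have hl : (abs n R X D o f).lb g i < 16 := Nat.mod_lt _ (by norm_num)
        exact v2e_thr (by omega) (v2e_lane W hg' i (v2e_thr_le _) e)
    · obtain rfl : j = 2 * g + i.toNat := by omega
      refine Or.inr fun b p hf => ?_
      obtain ⟨R', X', D', y'', e3, e4⟩ := v2e_kids W hu hg' hkg hi (hc tag n o) e2 hf p
      exact v2e_fin (hk _ _) e4 e3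

theorem g2_snd (hk : ∀ c p, Snd (k c p)) (W : Wf n R X D) (h : g2 k tag n R X D o f a y ≠ 0) :
    HoldsX tag (abs n R X D o f) := by
  have hc : ∀ {c p : ℕ} (t m o' : ℕ) R X D y, k c p t m R X D o' f y ≠ 0 → y ≠ 0 :=
    fun _ _ _ _ _ _ _ e => (hk _ _ _ _ _ _ _ _ _ _ e).1
  obtain ⟨g, i, rfl, -⟩ := slot_eq a
  obtain ⟨h1, h2⟩ := ok_ne h
  rw [lor_eq_zero] at h1
  obtain ⟨hg, hkg, hi⟩ := wf_nU (o := o) (f := f) W h1.1
  have hn : n ≤ 62 := v2e_sub h1.2
  have hq := lbq_eq (n := n) (R := R) (X := X) (D := D) (o := o) (f := f) g i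
  obtain ⟨h3, h4⟩ := v3_cov (fun _ _ e => v2e_kids_ne (hc tag n o) e) h2
  have h5 := h3
  have h6 := v2e_fresh_ne (hc tag (n.add 1) o) h5
  refine exp2 hg hkg hi (show n < 63 by omega) (fun e b hf => ?_) (fun b hf => ?_) fun v hv => ?_
  · rw [sel_eq, hq, if_pos (Nat.ble_eq_true_of_le (by omega))] at h6
    obtain ⟨R', X', D', y', e3, e4⟩ :=
      v2e_fresh W hn (new_var W hn) hg hkg hi (hc tag (n.add 1) o) h6 hf
    exact v2e_fin (hk _ _) e4 e3
  · obtain ⟨R', X', D', y', e3, e4⟩ :=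
      v2e_fresh W hn (new_gate W hn) hg hkg hi (hc tag (n.add 1) o) h5 hf
    exact v2e_fin (hk _ _) e4 e3
  · have hv' : v < n := hv
    rcases h4 v (by rw [testBit_msk]; exact decide_eq_true hv') with e | ⟨j, y', e1, e2⟩
    · left
      rw [v2e_or, Bool.or_eq_true] at e
      rcases e with e | e
      · exact wf_row W hg hv' e
      · rw [sel_eq, hq] at e
        split_ifs at e with e'
        · simp at e
        · rw [v2e_xor, testBit_msk, gmOf_bit (n := n) (X := X) (D := D) (o := o) (f := f),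
            decide_eq_true hv', decide_eq_true (show v < 64 by omega)] at e
          right; right; right; right; right; right
          refine ⟨by simpa using e, Or.inl ?_⟩
          rw [Nat.ble_eq] at e'
          omega
    · obtain rfl : v = j := by omega
      refine Or.inr fun b p hf => ?_
      obtain ⟨R', X', D', y'', e3, e4⟩ := v2e_kids W hv' hg hkg hi (hc tag n o) e2 hf p
      exact v2e_fin (hk _ _) e4 e3

theorem g3_snd (hk : ∀ c p, Snd (k c p)) (W : Wf n R X D) (h : g3 k tag n R X D o f a y ≠ 0) :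
    HoldsX tag (abs n R X D o f) := by
  have hc : ∀ {c p : ℕ} (t m o' : ℕ) R X D y, k c p t m R X D o' f y ≠ 0 → y ≠ 0 :=
    fun _ _ _ _ _ _ _ e => (hk _ _ _ _ _ _ _ _ _ _ e).1
  obtain ⟨g, i, rfl, -⟩ := slot_eq a
  have hq := lbq_eq (n := n) (R := R) (X := X) (D := D) (o := o) (f := f) g i
  rw [g3, hq] at h
  obtain ⟨h1, h2⟩ := ok_ne h
  rw [lor_eq_zero, lor_eq_zero] at h1
  obtain ⟨hg, hkg, hi⟩ := wf_nU (o := o) (f := f) W h1.1.1
  have hn : n ≤ 62 := v2e_sub h1.1.2
  have hl : (abs n R X D o f).lb g i ≤ 7 := v2e_sub h1.2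
  obtain ⟨h3, h4⟩ := v3_cov (fun _ _ e => v2e_kids_ne (fun _ _ _ _ => hc tag n o _ _ _ _) e) h2
  have h5 := h3
  have h6 := v2e_fresh_ne (fun _ _ _ _ => hc tag (n.add 1) o _ _ _ _) h5
  refine exp3 hg hkg hi (show n < 63 by omega) (by omega) ?_ (fun b hf => ?_) fun v hv hgv => ?_
  · exact v2e_fin (hk _ _) (lb_eqv W (c := 1) i hg (by omega)) h6
  · obtain ⟨R', X', D', y', e3, e4, e5⟩ := v2e_fresh W hn (new_var W hn) hg hkg hi
      (fun _ _ _ _ => hc tag (n.add 1) o _ _ _ _) h5 hf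
    have e6 := exR_eqv (o := o) (f := f) e4 (u := n) (d := (abs n R X D o f).lb g i)
      (Nat.lt_succ_self n) (by omega)
    exact v2e_fin (hk _ _) ⟨e6.1, (e5.exact _ _).trans e6.2⟩ e3
  · have hv' : v < n := hv
    rcases h4 v (by rw [testBit_msk]; exact decide_eq_true hv') with e | ⟨j, y', e1, e2⟩
    · rw [v2e_or, v2e_or] at e
      simp only [Bool.or_eq_true] at e
      rcases e with (e | e) | e
      · exact Or.inl (wf_row W hg hv' e)
      · rw [gmOf_bit (n := n) (X := X) (D := D) (o := o) (f := f), hgv] at e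
        simp at e
      · have := hiOf_bit (n := n) (X := X) (D := D) (o := o) (f := f) (by omega) e
        right; left
        rw [AX.cdeg]
        omega
    · obtain rfl : v = j := by omega
      refine Or.inr (Or.inr fun b p hf => ?_)
      obtain ⟨R', X', D', y'', e3, e4, e5⟩ := v2e_kids W hv' hg hkg hi
        (fun _ _ _ _ => hc tag n o _ _ _ _) e2 hf p
      have e6 := exR_eqv (o := o) (f := f) e4 (u := v) (d := (abs n R X D o f).lb g i) hv'
        (by omega)
      exact v2e_fin (hk _ _) ⟨e6.1, (e5.exact _ _).trans e6.2⟩ e3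

theorem exps3_snd {t c : ℕ} (hk : ∀ c p, Snd (k c p)) (W : Wf n R X D)
    (e : exps3 k t tag n R X D o f c a y ≠ 0) : HoldsX tag (abs n R X D o f) :=
  n_sel_elim e
    (fun e => n_sel_elim e
      (fun e => n_sel_elim e (fun e => g0_snd hk W e) fun e => e8_snd (hk _ _) W e)
      fun e => n_sel_elim e (fun e => sim_snd (run_snd tag a) W e) fun e => e4_snd (hk _ _) W e)
    fun e => n_sel_elim e
      (fun e => n_sel_elim e (fun e => g2_snd hk W e) fun e => g3_snd hk W e)
      fun e => n_sel_elim e (fun e => iso_snd W e)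
        fun e => n_sel_elim e (fun e => e5_snd (hk _ _) W e) fun e => e6_snd (hk _ _) W e

theorem rest3_snd {t c : ℕ} (hk : ∀ c p, Snd (k c p)) (W : Wf n R X D)
    (e : rest3 k t tag n R X D o f c a y ≠ 0) : HoldsX tag (abs n R X D o f) :=
  n_sel_elim e
    (fun e => n_sel_elim e (fun e => exps3_snd hk W e) fun e => steps_snd (hk _ _) W e)
    fun e => badE_snd W (ok_ne e).1

theorem v3_rec {x z : ℕ} {g : ℕ → ℕ → ℕ} {p : Prop} (e : @Nat.rec (fun _ => ℕ) x g z ≠ 0)
    (h1 : x ≠ 0 → p) (h2 : ∀ a b, z = a + 1 → g a b ≠ 0 → p) : p := by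
  cases z with
  | zero => exact h1 e
  | succ z => exact h2 _ _ rfl e

theorem pk_ne {q : ℕ → ℕ → ℕ} {c x : ℕ} (e : pk q c x ≠ 0) : ∃ a y, q a y ≠ 0 :=
  v3_rec e (fun e => ⟨_, _, e⟩) fun _ _ _ e => ⟨_, _, e⟩

theorem pk_ne' {q : ℕ → ℕ → ℕ} {g : ℕ → ℕ} {c x : ℕ} (e : pk (fun h => q (g h)) c x ≠ 0) :
    ∃ a y, q a y ≠ 0 :=
  let ⟨_, _, e⟩ := pk_ne e
  ⟨_, _, e⟩

theorem arg_ne {q : ℕ → ℕ → ℕ} {m u : ℕ} (e : arg q n R a m u y ≠ 0) : ∃ a y, q a y ≠ 0 :=
  n_sel_elim e
    (fun e => n_sel_elim e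
      (fun e => n_sel_elim e (fun e => ⟨_, _, e⟩) fun e => ⟨_, _, e⟩)
      fun e => n_sel_elim e (fun e => ⟨_, _, e⟩) fun e => ⟨_, _, e⟩)
    fun e => n_sel_elim e
      (fun e => n_sel_elim e (fun e => ⟨_, _, e⟩)
        fun e => n_sel_elim e (fun e => pk_ne' e) fun e => ⟨_, _, e⟩)
      fun e => n_sel_elim e (fun e => pk_ne' e)
        fun e => n_sel_elim e (fun e => pk_ne' e) fun e => pk_ne' e

theorem gates_ne {q : ℕ → ℕ → ℕ} {W A H m L Z p M O x : ℕ}
    (e : gates q W A H m L Z p M O x ≠ 0) :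
    ∃ M x, q M x ≠ 0 := by
  induction m generalizing L Z p M O x with
  | zero => exact ⟨_, _, e⟩
  | succ m ih =>
    have e' : gate (gates q W A H m) W A H L Z p M O x ≠ 0 := e
    exact v3_rec e'
      (fun e => v3_rec e
        (fun e => v3_rec e (fun e => let ⟨_, _, e⟩ := pk_ne e; ih e)
          fun _ _ _ e => let ⟨_, _, e⟩ := pk_ne e; ih e)
        fun _ _ _ e => let ⟨_, _, e⟩ := pk_ne e; ih e)
      fun _ _ _ e => ih e

theorem edge_snd {db : ℕ → ℕ} {lim i : ℕ} (hdb : ∀ i < lim, Lem db i) (W : Wf n R X D)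
    (h : edge (db i) i lim tag n R X D o y ≠ 0) : HoldsX tag (abs n R X D o f) := by
  obtain ⟨M, x, h'⟩ := gates_ne h
  obtain ⟨h1, -⟩ := ok_ne h'
  rw [lor_eq_zero, lor_eq_zero] at h1
  have hi : i + 1 ≤ lim := Nat.sub_eq_zero_iff_le.mp h1.2
  have ht : tag ≤ pT (db i) := Nat.sub_eq_zero_iff_le.mp h1.1.2
  obtain ⟨m, fl, w, e, hE⟩ := embE_snd (f := f) (hdb i hi).1 W h1.1.1
  exact holdsX_emb hE ht (hdb i hi).2

theorem tok_snd {db rk : ℕ → ℕ} {T lim : ℕ} (hdb : ∀ i < lim, Lem db i)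
    (hk : ∀ c p, Snd (k c p)) (t a : ℕ) : Snd (tok db rk T lim k t a) := by
  intro tag n R X D o f x e
  refine v3_rec e (fun e => absurd rfl e) fun z _ hz e => ⟨by omega, fun W => ?_⟩
  refine v3_rec e (fun e => n_sel_elim e (fun e => ?_) fun e => n_sel_elim e
    (fun e => (hk _ _ _ _ _ _ _ _ _ _ e).2 W) fun e => (term_snd hdb e).2 W) fun _ _ _ e => ?_
  · obtain ⟨a, y, e⟩ := arg_ne e
    exact rest3_snd hk W e
  · exact v3_rec e (fun e => absurd rfl e) fun _ _ _ e => edge_snd hdb W e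

end

theorem go3_snd {db rk : ℕ → ℕ} {T lim : ℕ} (hdb : ∀ i < lim, Lem db i) (m : ℕ) :
    ∀ c p, Snd (go3 db rk T lim m c p) := by
  induction m with
  | zero => exact fun _ _ _ _ _ _ _ _ _ _ e => absurd rfl e
  | succ m ih => exact tok_snd hdb ih

theorem lemK_snd {k : K} {P x : ℕ} (hk : Snd k) (h : lemK k P x ≠ 0) :
    wfE P = 0 ∧ Holds (pT P) (pAbs P) := by
  obtain ⟨h1, h2⟩ := ok_ne h
  refine ⟨h1, holds_of_load (Q := (pAbs P).load) (H_pN P) (fun g _ _ i => ?_) (H_wfE h1).2.1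
    (fun _ _ => rfl) (fun g _ i v hv => ?_) (fun v _ w e => ?_) rfl
    (holdsX_der (H_der h1) ((hk _ _ _ _ _ _ _ _ h2).2 (H_wf h1)))⟩
  · change (pAbs P).inp g i < pN P ∨ (pAbs P).inp g i = 63
    rw [H_inp]
    split_ifs with e
    · exact Or.inl (H_src_n h1 e)
    · exact Or.inr rfl
  · have hv' : ¬ v < pN P := not_lt.mpr hv
    change (decide (v < pN P) && _) = false
    rw [decide_eq_false hv', Bool.false_and]
  · have e' : ((pAbs P).gate v && decide (w = v) && decide (v < pN P)) = true := e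
    simp only [Bool.and_eq_true, decide_eq_true_iff] at e'
    exact e'.1

theorem many_snd {db rk : ℕ → ℕ} {T k a x : ℕ} (h : many db rk T k (a + 1) x ≠ 0) :
    Cert db a (a + k) := by
  induction k generalizing a x with
  | zero => exact id
  | succ k ih =>
    have e : @Nat.rec (fun _ => ℕ) 0 (fun z _ => many db rk T k (a + 1 + 1) (z.add 1))
        (lemK (go3 db rk T a 400 131072 0) (db a) x) ≠ 0 := h
    refine v3_rec e (fun e => absurd rfl e) fun z _ hz e ha => ?_
    have h2 := ih e fun i hi => by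
      rcases (Nat.lt_succ_iff.1 hi).eq_or_lt with rfl | hi
      · exact lemK_snd (go3_snd ha 400 _ _) (by rw [hz]; exact Nat.succ_ne_zero z)
      · exact ha i hi
    exact fun i hi => h2 i (by omega)

theorem items_snd {db rk : ℕ → ℕ} {T : ℕ} (l : List ℕ) {a b : ℕ}
    (h : items db rk T l (a + 1) = b + 1) : Cert db a b := by
  induction l generalizing a with
  | nil =>
    obtain rfl : a = b := Nat.succ.inj h
    exact id
  | cons x l ih =>
    have e : @Nat.rec (fun _ => ℕ) 0 (fun _ _ => items db rk T l (a + 1 + x.land 63))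
        (many db rk T (x.land 63) (a + 1) (x.shiftRight 6)) = b + 1 := h
    rcases hz : many db rk T (x.land 63) (a + 1) (x.shiftRight 6) with _ | z
    · rw [hz] at e
      exact absurd e (Nat.succ_ne_zero b).symm
    · rw [hz] at e
      have e' : items db rk T l (a + 1 + x.land 63) = b + 1 := e
      rw [Nat.add_right_comm] at e'
      exact (many_snd (by rw [hz]; exact Nat.succ_ne_zero z)).trans (ih e')

theorem cert_of_items {db : ℕ → ℕ} (rk : ℕ → ℕ) (T : ℕ) (l : List ℕ) (a b : ℕ)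
    (h : (items db rk T l (a.add 1)).beq (b.add 1) = true) : Cert db a b :=
  items_snd l (Nat.eq_of_beq_eq_true h)

end Pool.Agent.Lib.MP_79d702_lc.U2.V2
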