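/-!
Stored patterns in packed form, and selectors.
-/

namespace Pool.Agent.Lib.MP_79d702_lc.U2.V3

noncomputable section

/-- the source of a slot: none, an old variable, a new gate, an old gate, a new variable -/
def slot (k : Nat → Nat → Nat → Nat → Nat) (G t g v x : Nat) : Nat :=
  @Nat.rec (fun _ => Nat) (k (nat_lit 0) g v x)
    (fun t _ => @Nat.rec (fun _ => Nat) (k (G.add (x.mod v)) g v (x.div v))
      (fun t _ => @Nat.rec (fun _ => Nat) (k g (g.add (nat_lit 1)) v x)
        (fun t _ => @Nat.rec (fun _ => Nat) (k (x.mod g) g v (x.div g))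
          (fun _ _ => k (G.add v) g (v.add (nat_lit 1)) x) t) t) t) t

def facts (h G n L k : Nat) : Nat → Nat → Nat → Nat → Nat :=
  @Nat.rec (fun _ => Nat → Nat → Nat → Nat → Nat) (fun _ _ _ _ => (nat_lit 0))
    (fun _ r j p F x => @Nat.rec (fun _ => Nat)
      (r j (p.add (nat_lit 16)) (F.lor ((j.add (((x.shiftRight (nat_lit 1)).mod n).mul (nat_lit 512))).shiftLeft p))
        ((x.shiftRight (nat_lit 1)).div n))
      (fun _ _ => @Nat.rec (fun _ => Nat)
        ((fun i y => r i (p.add (nat_lit 16)) (F.lor ((i.add ((y.mod n).mul (nat_lit 512))).shiftLeft p)) (y.div n))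
          ((fun w : Nat => w.add ((w.shiftRight (nat_lit 1)).mul (nat_lit 6))) ((x.shiftRight (nat_lit 2)).mod (G.mul (nat_lit 2))))
          ((x.shiftRight (nat_lit 2)).div (G.mul (nat_lit 2))))
        (fun _ _ => (((h.add n).add (p.shiftLeft (nat_lit 16))).add (F.shiftLeft (nat_lit 32))).add
          (L.shiftLeft (p.add (nat_lit 32))))
        (x.land (nat_lit 2)))
      (x.land (nat_lit 1))) k

def vars (TV h G n k : Nat) : Nat → Nat → Nat → Nat :=
  @Nat.rec (fun _ => Nat → Nat → Nat → Nat) (fun _ L x => facts h G n L (nat_lit 256) (nat_lit 0) (nat_lit 0) (nat_lit 0) x)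
    (fun _ r p L x =>
      (fun e : Nat => r (p.add (nat_lit 36)) (L.lor ((e.land (nat_lit 66571993151)).shiftLeft p))
        (x.shiftRight ((e.shiftRight (nat_lit 8)).land (nat_lit 15))))
        ((TV.shiftRight ((x.land (nat_lit 255)).mul (nat_lit 40))).land (nat_lit 68719476735))) k

def gate1 (r : Nat → Nat → Nat → Nat → Nat → Nat) (G p g v L a s x : Nat) : Nat :=
  slot (fun u g v x => slot (fun w g v x =>
      r (p.add (nat_lit 36)) g v (L.lor (((((a.land (nat_lit 33285996575)).lor (s.land (nat_lit 1007665344))).lor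
        (u.mul (nat_lit 256))).lor (w.mul (nat_lit 1048576))).shiftLeft p)) x)
      G ((s.shiftRight (nat_lit 20)).land (nat_lit 7)) g v x)
    G ((s.shiftRight (nat_lit 8)).land (nat_lit 7)) g v x

def gts (TA TS TV h G k : Nat) : Nat → Nat → Nat → Nat → Nat → Nat :=
  @Nat.rec (fun _ => Nat → Nat → Nat → Nat → Nat → Nat)
    (fun p _ v L x => vars TV h G (G.add v) v p L x)
    (fun j r p g v L x =>
      (fun a : Nat => (fun y : Nat => (fun s : Nat =>
        gate1 r G p ((G.sub j).add (g.sub (G.sub j))) v L a s (y.shiftRight (s.land (nat_lit 15))))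
        ((TS.shiftRight ((y.land (nat_lit 1023)).mul (nat_lit 32))).land (nat_lit 4294967295)))
        (x.shiftRight ((a.shiftRight (nat_lit 8)).land (nat_lit 15))))
        ((TA.shiftRight ((x.land (nat_lit 1023)).mul (nat_lit 40))).land (nat_lit 68719476735))) k

def dp (TH TA TS TV x : Nat) : Nat :=
  (fun e : Nat => gts TA TS TV (e.land (nat_lit 4294967232)) ((e.shiftRight (nat_lit 6)).land (nat_lit 63))
    ((e.shiftRight (nat_lit 6)).land (nat_lit 63)) (nat_lit 0) (nat_lit 0) (nat_lit 0) (nat_lit 0) (x.shiftRight (e.land (nat_lit 15))))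
    ((TH.shiftRight ((x.land (nat_lit 1023)).mul (nat_lit 32))).land (nat_lit 4294967295))

/-- a pattern, plain or packed -/
def dc (TH TA TS TV c : Nat) : Nat :=
  @Nat.rec (fun _ => Nat) (dp TH TA TS TV (c.shiftRight (nat_lit 1))) (fun _ _ => c.shiftRight (nat_lit 1)) (c.land (nat_lit 1))

def s8 (a b c d e f g h i : Nat) : Nat :=
  (@Nat.rec (fun _ => Nat) (@Nat.rec (fun _ => Nat) (@Nat.rec (fun _ => Nat) a (fun _ _ => b) (i.land (nat_lit 1)))
    (fun _ _ => (@Nat.rec (fun _ => Nat) c (fun _ _ => d) (i.land (nat_lit 1)))) (i.land (nat_lit 2)))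
    (fun _ _ => (@Nat.rec (fun _ => Nat) (@Nat.rec (fun _ => Nat) e (fun _ _ => f) (i.land (nat_lit 1)))
    (fun _ _ => (@Nat.rec (fun _ => Nat) g (fun _ _ => h) (i.land (nat_lit 1)))) (i.land (nat_lit 2)))) (i.land (nat_lit 4)))

def t8 (a b c d e f g h : Nat → Nat) (i : Nat) : Nat :=
  (@Nat.rec (fun _ => Nat → Nat) (@Nat.rec (fun _ => Nat → Nat) (@Nat.rec (fun _ => Nat → Nat) a (fun _ _ => b) (i.land (nat_lit 8)))
    (fun _ _ => (@Nat.rec (fun _ => Nat → Nat) c (fun _ _ => d) (i.land (nat_lit 8)))) (i.land (nat_lit 16)))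
    (fun _ _ => (@Nat.rec (fun _ => Nat → Nat) (@Nat.rec (fun _ => Nat → Nat) e (fun _ _ => f) (i.land (nat_lit 8)))
    (fun _ _ => (@Nat.rec (fun _ => Nat → Nat) g (fun _ _ => h) (i.land (nat_lit 8)))) (i.land (nat_lit 16)))) (i.land (nat_lit 32))) i

end

end Pool.Agent.Lib.MP_79d702_lc.U2.V3
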